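import Mathlib

set_option autoImplicit false

namespace Pool.Agent.Helper52.Hic

/-- Interlaced tuples: `n 0 < m 0 < n 1 < m 1 < ...`. -/
def Interlaced {k : ℕ} (n m : Fin k → ℕ) : Prop :=
  (∀ i, n i < m i) ∧ ∀ i j, i < j → m i < n j

/-- The constant `Lip_j(f)` of a map on the increasing `k`-tuples of naturals. -/
noncomputable def lipAt {X : Type} [PseudoMetricSpace X] {k : ℕ} (f : (Fin k → ℕ) → X)
    (j : Fin k) : ℝ :=
  sSup {d : ℝ | ∃ n m : Fin k → ℕ, StrictMono n ∧ StrictMono m ∧ (∀ i, i ≠ j → n i = m i) ∧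
    n j < m j ∧ d = dist (f n) (f m)}

/-- Property `HIC_{p,d}`. -/
def HIC (p : ℝ) (X : Type) [PseudoMetricSpace X] : Prop :=
  ∃ lam : ℝ, 0 < lam ∧ ∀ (k : ℕ) (f : (Fin k → ℕ) → X),
    (∃ B : ℝ, ∀ n m : Fin k → ℕ, StrictMono n → StrictMono m → dist (f n) (f m) ≤ B) →
    ∃ M : Set ℕ, M.Infinite ∧ ∀ n m : Fin k → ℕ, StrictMono n → StrictMono m →
      (∀ i, n i ∈ M) → (∀ i, m i ∈ M) → Interlaced n m →
      dist (f n) (f m) ≤ lam * (∑ j, lipAt f j ^ p) ^ (1 / p)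

/-- Asplund spaces: every separable closed subspace has a separable dual. -/
def IsAsplund (X : Type) [NormedAddCommGroup X] [NormedSpace ℝ X] : Prop :=
  ∀ Y : Submodule ℝ X, IsClosed (Y : Set X) → TopologicalSpace.SeparableSpace Y →
    TopologicalSpace.SeparableSpace (StrongDual ℝ Y)

end Pool.Agent.Helper52.Hic
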