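import Mathlib

set_option autoImplicit false

open Finset

namespace Pool.Agent.Helper52.JamesTree

/-- Branches of the dyadic tree. -/
abbrev Br := ℕ → Bool

/-- Agreement of the first `m` entries. -/
def agree (g h : Br) (m : ℕ) : Prop := ∀ i, i < m → g i = h i

theorem agree.refl (g : Br) (m : ℕ) : agree g g m := fun _ _ => rfl

theorem agree.symm {g h : Br} {m : ℕ} (H : agree g h m) : agree h g m := fun i hi => (H i hi).symm

theorem agree.trans {g h l : Br} {m : ℕ} (H : agree g h m) (H' : agree h l m) : agree g l m :=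
  fun i hi => (H i hi).trans (H' i hi)

theorem agree.mono {g h : Br} {m n : ℕ} (H : agree g h m) (hn : n ≤ m) : agree g h n :=
  fun i hi => H i (lt_of_lt_of_le hi hn)

theorem agree.zero (g h : Br) : agree g h 0 := fun i hi => absurd hi (Nat.not_lt_zero i)

/-- Indicator branches. -/
def ind (F : Finset ℕ) : Br := fun i => decide (i ∈ F)

theorem agree_ind (h : Br) (m : ℕ) : agree h (ind ((range m).filter fun i => h i = true)) m := by
  intro i hi
  unfold ind
  by_cases hh : h i = true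
  · rw [hh]
    symm
    rw [decide_eq_true_iff, mem_filter, mem_range]
    exact ⟨hi, hh⟩
  · have : h i = false := by simpa using hh
    rw [this]
    symm
    rw [decide_eq_false_iff_not, mem_filter]
    rintro ⟨_, h2⟩
    exact hh h2

/-- Segments: the nodes of the branch `g` at the levels `a + 1, ..., b`. -/
structure Seg where
  g : Br
  a : ℕ
  b : ℕ
  hab : a ≤ b

/-- Disjoint segments. -/
def Seg.Disj (S T : Seg) : Prop :=
  ∀ j, S.a < j → j ≤ S.b → T.a < j → j ≤ T.b → ¬ agree S.g T.g j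

theorem Seg.Disj.symm {S T : Seg} (h : S.Disj T) : T.Disj S :=
  fun j h1 h2 h3 h4 h5 => h j h3 h4 h1 h2 h5.symm

/-- Disjoint finite families. -/
def DF (F : Finset Seg) : Prop := ∀ S ∈ F, ∀ T ∈ F, S ≠ T → S.Disj T

theorem DF.singleton (S : Seg) : DF ({S} : Finset Seg) := by
  intro A hA B hB hne
  rw [mem_singleton] at hA hB
  exact absurd (hA.trans hB.symm) hne

theorem DF.subset {F G : Finset Seg} (hG : DF G) (h : F ⊆ G) : DF F :=
  fun S hS T hT hne => hG S (h hS) T (h hT) hne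

/-- Increment along a segment. -/
def sg (G : Br → ℕ → ℝ) (S : Seg) : ℝ := G S.g S.b - G S.g S.a

/-- A normed space with the coordinates of the James tree space. -/
structure JSys (p : ℝ) (X : Type) [NormedAddCommGroup X] [NormedSpace ℝ X] where
  ev : X →ₗ[ℝ] (Br → ℕ → ℝ)
  coh : ∀ x g h m, agree g h m → ev x g m = ev x h m
  zero : ∀ x g, ev x g 0 = 0
  ub : ∀ x (F : Finset Seg), DF F → ∑ S ∈ F, |sg (ev x) S| ^ p ≤ ‖x‖ ^ p
  lb : ∀ x C, 0 ≤ C → (∀ F : Finset Seg, DF F → ∑ S ∈ F, |sg (ev x) S| ^ p ≤ C) → ‖x‖ ^ p ≤ C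
  nd : Br → ℕ → X
  nd_one : ∀ h m, 0 < m → ∀ g j, m ≤ j → agree g h m → ev (nd h m) g j = 1
  nd_zero : ∀ h m, 0 < m → ∀ g j, ¬ agree g h m → ev (nd h m) g j = 0
  nd_norm : ∀ h m, ‖nd h m‖ ≤ 1

end Pool.Agent.Helper52.JamesTree
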