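import Mathlib

set_option autoImplicit false

open Finset Filter Topology

namespace Pool.Agent.Helper52.JamesTree

/-- A free ultrafilter. -/
noncomputable def UF : Ultrafilter ℕ := Filter.hyperfilter ℕ

theorem UF_le : (UF : Filter ℕ) ≤ atTop := Nat.hyperfilter_le_atTop

theorem UF_ev {P : ℕ → Prop} (h : ∀ᶠ n in atTop, P n) : ∀ᶠ n in (UF : Filter ℕ), P n := UF_le h

/-- Ultrafilter limit. -/
noncomputable def limU (ψ : ℕ → ℝ) : ℝ := limUnder (UF : Filter ℕ) ψ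

theorem tendsto_limU {ψ : ℕ → ℝ} {B : ℝ} (h : ∀ n, |ψ n| ≤ B) :
    Tendsto ψ (UF : Filter ℕ) (𝓝 (limU ψ)) := by
  have h1 : ((UF.map ψ : Ultrafilter ℝ) : Filter ℝ) ≤ 𝓟 (Set.Icc (-B) B) := by
    rw [le_principal_iff]
    exact Filter.mem_map.mpr (Filter.univ_mem' fun n => abs_le.mp (h n))
  obtain ⟨x, _, hx⟩ := isCompact_Icc.ultrafilter_le_nhds _ h1
  have h2 : Tendsto ψ (UF : Filter ℕ) (𝓝 x) := hx
  have h3 : limU ψ = x := h2.limUnder_eq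
  rw [h3]
  exact h2

theorem limU_ev {ψ : ℕ → ℝ} {B : ℝ} (h : ∀ n, |ψ n| ≤ B) {ε : ℝ} (hε : 0 < ε) :
    ∀ᶠ n in (UF : Filter ℕ), |ψ n - limU ψ| ≤ ε := by
  have h1 := (tendsto_limU h).eventually (Metric.closedBall_mem_nhds (limU ψ) hε)
  filter_upwards [h1] with n hn
  exact hn

theorem limU_abs_le {ψ : ℕ → ℝ} {B : ℝ} (h : ∀ n, |ψ n| ≤ B) : |limU ψ| ≤ B :=
  le_of_tendsto (tendsto_limU h).abs (Eventually.of_forall h)

theorem limU_mono {ψ φ : ℕ → ℝ} {B C : ℝ} (h : ∀ n, |ψ n| ≤ B) (h' : ∀ n, |φ n| ≤ C)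
    (hle : ∀ n, ψ n ≤ φ n) : limU ψ ≤ limU φ :=
  le_of_tendsto_of_tendsto' (tendsto_limU h) (tendsto_limU h') hle

theorem limU_add {ψ φ : ℕ → ℝ} {B C : ℝ} (h : ∀ n, |ψ n| ≤ B) (h' : ∀ n, |φ n| ≤ C) :
    limU (fun n => ψ n + φ n) = limU ψ + limU φ :=
  ((tendsto_limU h).add (tendsto_limU h')).limUnder_eq

theorem limU_mul {ψ : ℕ → ℝ} {B : ℝ} (h : ∀ n, |ψ n| ≤ B) (c : ℝ) :
    limU (fun n => c * ψ n) = c * limU ψ :=
  ((tendsto_limU h).const_mul c).limUnder_eq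

theorem limU_const (c : ℝ) : limU (fun _ => c) = c := tendsto_const_nhds.limUnder_eq

theorem limU_congr {ψ φ : ℕ → ℝ} {B : ℝ} (h : ∀ n, |ψ n| ≤ B)
    (he : ∀ᶠ n in (UF : Filter ℕ), ψ n = φ n) : limU φ = limU ψ :=
  ((tendsto_limU h).congr' he).limUnder_eq

/-- Iterated limits. -/
noncomputable def Lm (φ : Finset ℕ → ℝ) : ℕ → Finset ℕ → ℝ
  | 0 => φ
  | j + 1 => fun a => limU fun n => Lm φ j (insert n a)

theorem Lm_zero (φ : Finset ℕ → ℝ) (a : Finset ℕ) : Lm φ 0 a = φ a := rfl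

theorem Lm_succ (φ : Finset ℕ → ℝ) (j : ℕ) (a : Finset ℕ) :
    Lm φ (j + 1) a = limU fun n => Lm φ j (insert n a) := rfl

theorem Lm_abs_le {φ : Finset ℕ → ℝ} {B : ℝ} (h : ∀ c, |φ c| ≤ B) (j : ℕ) :
    ∀ a, |Lm φ j a| ≤ B := by
  induction j with
  | zero => exact h
  | succ j ih =>
    intro a
    rw [Lm_succ]
    exact limU_abs_le fun n => ih _

theorem Lm_mono {φ ψ : Finset ℕ → ℝ} {B C : ℝ} (h : ∀ c, |φ c| ≤ B) (h' : ∀ c, |ψ c| ≤ C)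
    (hle : ∀ c, φ c ≤ ψ c) (j : ℕ) : ∀ a, Lm φ j a ≤ Lm ψ j a := by
  induction j with
  | zero => exact hle
  | succ j ih =>
    intro a
    rw [Lm_succ, Lm_succ]
    exact limU_mono (fun n => Lm_abs_le h j _) (fun n => Lm_abs_le h' j _) fun n => ih _

theorem Lm_add {φ ψ : Finset ℕ → ℝ} {B C : ℝ} (h : ∀ c, |φ c| ≤ B) (h' : ∀ c, |ψ c| ≤ C)
    (j : ℕ) : ∀ a, Lm (fun c => φ c + ψ c) j a = Lm φ j a + Lm ψ j a := by
  induction j with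
  | zero => exact fun a => rfl
  | succ j ih =>
    intro a
    rw [Lm_succ, Lm_succ, Lm_succ]
    simp only [ih]
    exact limU_add (fun n => Lm_abs_le h j _) (fun n => Lm_abs_le h' j _)

theorem Lm_const (c : ℝ) (j : ℕ) : ∀ a, Lm (fun _ => c) j a = c := by
  induction j with
  | zero => exact fun a => rfl
  | succ j ih =>
    intro a
    rw [Lm_succ]
    simp only [ih]
    exact limU_const c

theorem Lm_nonneg {φ : Finset ℕ → ℝ} {B : ℝ} (h : ∀ c, |φ c| ≤ B) (h0 : ∀ c, 0 ≤ φ c) (j : ℕ)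
    (a : Finset ℕ) : 0 ≤ Lm φ j a := by
  have h1 := Lm_mono (φ := fun _ => 0) (B := 0) (fun c => by simp) h h0 j a
  rwa [Lm_const] at h1

theorem Lm_ev {φ : Finset ℕ → ℝ} {B : ℝ} (h : ∀ c, |φ c| ≤ B) (j : ℕ) (a : Finset ℕ) {ε : ℝ}
    (hε : 0 < ε) : ∀ᶠ n in (UF : Filter ℕ), |Lm φ j (insert n a) - Lm φ (j + 1) a| ≤ ε :=
  limU_ev (fun _ => Lm_abs_le h j _) hε

end Pool.Agent.Helper52.JamesTree
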