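import Mathlib
import Pool.Agent.Helper52.JtDefs
import Pool.Agent.Helper52.JtLim

set_option autoImplicit false

open Finset Filter Topology

namespace Pool.Agent.Helper52.JamesTree

/-- Sets of nodes. -/
abbrev NS := Set (Br × ℕ)

/-- Saturated sets. -/
def Sat (A : NS) : Prop := ∀ g h m, agree g h m → (g, m) ∈ A → (h, m) ∈ A

/-- The subtree above the node `(g, m)`. -/
def TT (g : Br) (m : ℕ) : NS := {x | m ≤ x.2 ∧ agree g x.1 m}

/-- The levels `K + 1, ..., K'`. -/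
def BL (K K' : ℕ) : NS := {x | K < x.2 ∧ x.2 ≤ K'}

/-- Changing the entry number `m`. -/
def flp (g : Br) (m : ℕ) : Br := fun i => if i = m then !(g i) else g i

theorem Sat_TT (g : Br) (m : ℕ) : Sat (TT g m) := by
  rintro h l j H ⟨h1, h2⟩
  exact ⟨h1, h2.trans (H.mono h1)⟩

theorem Sat_BL (K K' : ℕ) : Sat (BL K K') := by
  rintro h l j _ ⟨h1, h2⟩
  exact ⟨h1, h2⟩

theorem Sat_union {A B : NS} (hA : Sat A) (hB : Sat B) : Sat (A ∪ B) := by
  rintro g h m H (h1 | h1)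
  · exact Or.inl (hA g h m H h1)
  · exact Or.inr (hB g h m H h1)

theorem TT_congr {g h : Br} {m : ℕ} (H : agree g h m) : TT g m = TT h m := by
  ext x
  constructor
  · rintro ⟨h1, h2⟩
    exact ⟨h1, H.symm.trans h2⟩
  · rintro ⟨h1, h2⟩
    exact ⟨h1, H.trans h2⟩

theorem TT_mono {g h : Br} {m n : ℕ} (hm : m ≤ n) (H : agree g h m) : TT h n ⊆ TT g m := by
  rintro x ⟨h1, h2⟩
  exact ⟨hm.trans h1, H.trans (h2.mono hm)⟩

theorem TT_disj {g h : Br} {m : ℕ} (H : ¬ agree g h m) : Disjoint (TT g m) (TT h m) := by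
  rw [Set.disjoint_left]
  rintro x ⟨_, h1⟩ ⟨_, h2⟩
  exact H (h1.trans h2.symm)

theorem flp_ne (g : Br) (m : ℕ) : flp g m m ≠ g m := by
  unfold flp
  rw [if_pos rfl]
  cases g m <;> simp

theorem flp_of_ne (g : Br) {m i : ℕ} (h : i ≠ m) : flp g m i = g i := by
  unfold flp
  rw [if_neg h]

theorem agree_flp_iff (g h : Br) (m : ℕ) :
    agree (flp g m) h (m + 1) ↔ agree g h m ∧ g m ≠ h m := by
  constructor
  · intro H
    refine ⟨fun i hi => ?_, ?_⟩
    · rw [← H i (by omega), flp_of_ne g (by omega)]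
    · rw [← H m (by omega)]
      exact (flp_ne g m).symm
  · rintro ⟨h1, h2⟩ i hi
    rcases Nat.lt_succ_iff_lt_or_eq.mp hi with h3 | h3
    · rw [flp_of_ne g (by omega)]
      exact h1 i h3
    · subst h3
      unfold flp
      rw [if_pos rfl]
      revert h2
      cases g i <;> cases h i <;> simp

theorem flp_disj (g : Br) {m n : ℕ} (h : m ≠ n) :
    Disjoint (TT (flp g m) (m + 1)) (TT (flp g n) (n + 1)) := by
  rw [Set.disjoint_left]
  rintro x ⟨_, h1⟩ ⟨_, h2⟩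
  rw [agree_flp_iff] at h1 h2
  rcases lt_or_gt_of_ne h with h3 | h3
  · exact h1.2 (h2.1 m h3)
  · exact h2.2 (h1.1 n h3)

/-- First difference. -/
theorem exists_diff {g h : Br} {K : ℕ} (H : ¬ agree g h K) :
    ∃ m, m < K ∧ agree g h m ∧ g m ≠ h m := by
  classical
  have h1 : ∃ m, m < K ∧ g m ≠ h m := by
    unfold agree at H
    push Not at H
    exact H
  refine ⟨Nat.find h1, (Nat.find_spec h1).1, fun i hi => ?_, (Nat.find_spec h1).2⟩
  by_contra hne
  exact Nat.find_min h1 hi ⟨hi.trans (Nat.find_spec h1).1, hne⟩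

/-- Monotone superadditive set functions. -/
structure SA (P : NS → ℝ) (B : ℝ) : Prop where
  nonneg : ∀ A, 0 ≤ P A
  le : ∀ A, P A ≤ B
  mono : ∀ A A', A ⊆ A' → P A ≤ P A'
  sup : ∀ A A', Sat A → Disjoint A A' → P A + P A' ≤ P (A ∪ A')

variable {P : NS → ℝ} {B : ℝ}

theorem SA.sum {ι : Type} [DecidableEq ι] (hP : SA P B) (I : Finset ι) (A : ι → NS)
    (hA : ∀ i ∈ I, Sat (A i))
    (hd : ∀ i ∈ I, ∀ j ∈ I, i ≠ j → Disjoint (A i) (A j)) :
    ∑ i ∈ I, P (A i) ≤ P (⋃ i ∈ I, A i) := by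
  induction I using Finset.induction_on with
  | empty => simpa using hP.nonneg _
  | insert a s ha ih =>
    rw [sum_insert ha]
    have h1 := ih (fun i hi => hA i (mem_insert_of_mem hi)) (fun i hi j hj hne =>
      hd i (mem_insert_of_mem hi) j (mem_insert_of_mem hj) hne)
    have h2 : Disjoint (A a) (⋃ i ∈ s, A i) := by
      rw [Set.disjoint_iUnion₂_right]
      intro i hi
      exact hd a (mem_insert_self a s) i (mem_insert_of_mem hi) (fun h => ha (h ▸ hi))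
    have h3 := hP.sup _ _ (hA a (mem_insert_self a s)) h2
    have h4 : (⋃ i ∈ insert a s, A i) = A a ∪ ⋃ i ∈ s, A i := by
      rw [Finset.set_biUnion_insert]
    rw [h4]
    linarith

theorem SA.sum_le {ι : Type} [DecidableEq ι] (hP : SA P B) (I : Finset ι) (A : ι → NS)
    (hA : ∀ i ∈ I, Sat (A i))
    (hd : ∀ i ∈ I, ∀ j ∈ I, i ≠ j → Disjoint (A i) (A j)) :
    ∑ i ∈ I, P (A i) ≤ B := (hP.sum I A hA hd).trans (hP.le _)

theorem SA.empty (hP : SA P B) : P ∅ = 0 := by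
  have h1 := hP.sup ∅ ∅ (fun _ _ _ _ h => h) (Set.disjoint_empty _)
  rw [Set.union_empty] at h1
  linarith [hP.nonneg ∅]

/-- Blocks far away are small. -/
theorem SA.block (hP : SA P B) {η : ℝ} (hη : 0 < η) :
    ∃ K₀, ∀ K, K₀ ≤ K → ∀ K', P (BL K K') ≤ η := by
  have hb : BddAbove (Set.range fun K => P (BL 0 K)) := ⟨B, by
    rintro _ ⟨K, rfl⟩
    exact hP.le _⟩
  obtain ⟨K₀, hK₀⟩ := exists_lt_of_lt_ciSup (sub_lt_self (⨆ K, P (BL 0 K)) hη)
  refine ⟨K₀, fun K hK K' => ?_⟩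
  rcases le_or_gt K K' with hKK | hKK
  · have h1 : Disjoint (BL 0 K) (BL K K') := by
      rw [Set.disjoint_left]
      rintro x ⟨_, h1⟩ ⟨h2, _⟩
      omega
    have h2 := hP.sup _ _ (Sat_BL 0 K) h1
    have h3 : P (BL 0 K ∪ BL K K') ≤ P (BL 0 K') := by
      apply hP.mono
      rintro x (⟨h4, h5⟩ | ⟨h4, h5⟩)
      · exact ⟨h4, h5.trans hKK⟩
      · exact ⟨by omega, h5⟩
    have h4 := le_ciSup hb K'
    have h5 : P (BL 0 K₀) ≤ P (BL 0 K) := hP.mono _ _ fun x hx => ⟨hx.1, hx.2.trans hK⟩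
    linarith
  · have h1 : BL K K' = ∅ := by
      ext x
      constructor
      · rintro ⟨h2, h3⟩
        omega
      · intro h
        exact absurd h (Set.notMem_empty x)
    rw [h1, hP.empty]
    exact hη.le

/-- Subtrees hanging off a branch. -/
theorem SA.off_summable (hP : SA P B) (g : Br) :
    Summable fun m : ℕ => P (TT (flp g m) (m + 1)) := by
  refine summable_of_sum_range_le (c := B) (fun m => hP.nonneg _) fun N => ?_
  exact hP.sum_le (range N) (fun m => TT (flp g m) (m + 1)) (fun i _ => Sat_TT _ _)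
    fun i _ j _ hne => flp_disj g hne

theorem SA.off (hP : SA P B) (g : Br) {η : ℝ} (hη : 0 < η) :
    ∃ K₀, ∀ K, K₀ ≤ K → ∀ N, ∑ m ∈ Ico K N, P (TT (flp g m) (m + 1)) ≤ η := by
  have h1 := hP.off_summable g
  have h2 := (summable_iff_vanishing_norm.mp h1) η hη
  obtain ⟨s, hs⟩ := h2
  obtain ⟨K₀, hK₀⟩ : ∃ K₀, ∀ m ∈ s, m < K₀ := by
    refine ⟨s.sup id + 1, fun m hm => ?_⟩
    exact Nat.lt_succ_of_le (le_sup (f := id) hm)
  refine ⟨K₀, fun K hK N => ?_⟩
  have h3 := hs (Ico K N) (by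
    rw [Finset.disjoint_left]
    intro m hm hms
    rw [mem_Ico] at hm
    exact absurd (hK₀ m hms) (by omega))
  exact (le_abs_self _).trans h3.le

/-- Atoms. -/
noncomputable def atom (P : NS → ℝ) (g : Br) : ℝ := ⨅ m : ℕ, P (TT g m)

theorem SA.bdd (hP : SA P B) (g : Br) : BddBelow (Set.range fun m : ℕ => P (TT g m)) :=
  ⟨0, by
    rintro _ ⟨m, rfl⟩
    exact hP.nonneg _⟩

theorem SA.atom_le (hP : SA P B) (g : Br) (m : ℕ) : atom P g ≤ P (TT g m) := ciInf_le (hP.bdd g) m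

theorem SA.atom_nonneg (hP : SA P B) (g : Br) : 0 ≤ atom P g := le_ciInf fun _ => hP.nonneg _

theorem SA.atom_approx (hP : SA P B) (g : Br) {η : ℝ} (hη : 0 < η) :
    ∃ K₀, ∀ K, K₀ ≤ K → P (TT g K) ≤ atom P g + η := by
  obtain ⟨K₀, hK₀⟩ := exists_lt_of_ciInf_lt (show (⨅ m : ℕ, P (TT g m)) < atom P g + η from
    lt_add_of_pos_right _ hη)
  exact ⟨K₀, fun K hK => (hP.mono _ _ (TT_mono hK (agree.refl g K₀))).trans hK₀.le⟩

/-- Separation. -/
theorem exists_sep (G : Finset Br) :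
    ∃ K₀, ∀ K, K₀ ≤ K → ∀ g ∈ G, ∀ h ∈ G, g ≠ h → ¬ agree g h K := by
  classical
  have h1 : ∀ x : Br × Br, ∃ K₀, ∀ K, K₀ ≤ K → x.1 ≠ x.2 → ¬ agree x.1 x.2 K := by
    intro x
    by_cases hx : x.1 = x.2
    · exact ⟨0, fun K _ hne => absurd hx hne⟩
    · obtain ⟨i, hi⟩ := Function.ne_iff.mp hx
      exact ⟨i + 1, fun K hK _ H => hi (H i (by omega))⟩
  choose K₀ hK₀ using h1
  refine ⟨(G ×ˢ G).sup K₀, fun K hK g hg h hh hne => ?_⟩
  refine hK₀ (g, h) K ?_ hne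
  exact (le_sup (f := K₀) (mem_product.mpr ⟨hg, hh⟩)).trans hK

theorem SA.atom_sum (hP : SA P B) (G : Finset Br) : ∑ g ∈ G, atom P g ≤ B := by
  classical
  obtain ⟨K₀, hK₀⟩ := exists_sep G
  calc ∑ g ∈ G, atom P g ≤ ∑ g ∈ G, P (TT g K₀) := sum_le_sum fun g _ => hP.atom_le g K₀
    _ ≤ B := hP.sum_le G (fun g => TT g K₀) (fun g _ => Sat_TT _ _)
        fun g hg h hh hne => TT_disj (hK₀ K₀ le_rfl g hg h hh hne)

theorem SA.atom_summable (hP : SA P B) : Summable (atom P) :=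
  summable_of_sum_le (c := B) (fun g => hP.atom_nonneg g) fun G => hP.atom_sum G

theorem SA.atoms (hP : SA P B) {η : ℝ} (hη : 0 < η) :
    ∃ G₀ : Finset Br, (∀ F : Finset Br, Disjoint F G₀ → ∑ g ∈ F, atom P g ≤ η) ∧
      ∀ g, η ≤ atom P g → g ∈ G₀ := by
  obtain ⟨G₀, hG₀⟩ := (summable_iff_vanishing_norm.mp hP.atom_summable) η hη
  refine ⟨G₀, fun F hF => (le_abs_self _).trans (hG₀ F hF).le, fun g hg => ?_⟩
  by_contra hn
  have h1 := hG₀ {g} (disjoint_singleton_left.mpr hn)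
  rw [sum_singleton, Real.norm_eq_abs] at h1
  linarith [le_abs_self (atom P g)]

/-- Large nodes far away are on large branches. -/
theorem SA.capture (hP : SA P B) {ε : ℝ} (hε : 0 < ε) (G : Finset Br)
    (hG : ∀ g, ε ≤ atom P g → g ∈ G) :
    ∃ K₀, ∀ K, K₀ ≤ K → ∀ g, ε ≤ P (TT g K) → ∃ h ∈ G, agree g h K := by
  classical
  by_contra hcon
  push Not at hcon
  choose K hK γ hγ hfar using hcon
  set γ' : Br := fun i => decide (∀ᶠ n in (UF : Filter ℕ), γ n i = true) with hγ'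
  have h1 : ∀ i, ∀ᶠ n in (UF : Filter ℕ), γ n i = γ' i := by
    intro i
    by_cases hi : ∀ᶠ n in (UF : Filter ℕ), γ n i = true
    · have : γ' i = true := by rw [hγ']; simpa using hi
      rw [this]
      exact hi
    · have h2 : γ' i = false := by rw [hγ']; simpa using hi
      rw [h2]
      have h3 := Ultrafilter.eventually_not.mpr hi
      filter_upwards [h3] with n hn
      simpa using hn
  have h2 : ∀ m, ∀ᶠ n in (UF : Filter ℕ), agree (γ n) γ' m := by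
    intro m
    have h3 : ∀ᶠ n in (UF : Filter ℕ), ∀ i ∈ Finset.range m, γ n i = γ' i :=
      (Filter.eventually_all_finset _).mpr fun i _ => h1 i
    filter_upwards [h3] with n hn i hi
    exact hn i (mem_range.mpr hi)
  have h3 : ∀ m, ∃ n, agree (γ n) γ' m ∧ m ≤ K n := by
    intro m
    have h4 := (h2 m).and (UF_ev (eventually_ge_atTop m))
    obtain ⟨n, hn1, hn2⟩ := h4.exists
    exact ⟨n, hn1, hn2.trans (hK n)⟩
  have h4 : γ' ∈ G := by
    apply hG
    refine le_ciInf fun m => ?_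
    obtain ⟨n, hn1, hn2⟩ := h3 m
    exact (hγ n).trans (hP.mono _ _ (TT_mono hn2 hn1.symm))
  obtain ⟨K₀, hK₀⟩ := hP.off γ' (half_pos hε)
  obtain ⟨n, hn1, hn2⟩ := h3 K₀
  obtain ⟨m, hm1, hm2, hm3⟩ := exists_diff (hfar n γ' h4)
  have h5 : K₀ ≤ m := by
    by_contra hlt
    exact hm3 (hn1 m (by omega))
  have h6 := hK₀ m h5 (m + 1)
  rw [Nat.Ico_succ_singleton, sum_singleton] at h6
  have h7 : P (TT (γ n) (K n)) ≤ P (TT (flp γ' m) (m + 1)) :=
    hP.mono _ _ (TT_mono hm1 ((agree_flp_iff _ _ _).mpr ⟨hm2.symm, fun h => hm3 h.symm⟩))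
  linarith [hγ n]

end Pool.Agent.Helper52.JamesTree
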