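import Mathlib
import Pool.Agent.Helper52.JtSuper

set_option autoImplicit false

open Finset Filter Topology

namespace Pool.Agent.Helper52.JamesTree

/-- Segments inside a set of nodes. -/
def Seg.In (S : Seg) (A : NS) : Prop := ∀ j, S.a < j → j ≤ S.b → (S.g, j) ∈ A

theorem Seg.In.mono {S : Seg} {A A' : NS} (h : S.In A) (hA : A ⊆ A') : S.In A' :=
  fun j h1 h2 => hA (h j h1 h2)

/-- Subsegments. -/
def Seg.Sub (T S : Seg) : Prop := T.g = S.g ∧ ∀ j, T.a < j → j ≤ T.b → S.a < j ∧ j ≤ S.b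

theorem Seg.Disj.sub {S T S' T' : Seg} (h : S.Disj T) (h1 : S'.Sub S) (h2 : T'.Sub T) :
    S'.Disj T' := by
  intro j ha hb hc hd
  rw [h1.1, h2.1]
  exact h j (h1.2 j ha hb).1 (h1.2 j ha hb).2 (h2.2 j hc hd).1 (h2.2 j hc hd).2

/-- The `p`-th power of the norm restricted to a set of nodes. -/
noncomputable def QQ (p : ℝ) (G : Br → ℕ → ℝ) (A : NS) : ℝ :=
  ⨆ F : {F : Finset Seg // DF F ∧ ∀ S ∈ F, S.In A}, ∑ S ∈ F.1, |sg G S| ^ p

/-- Bounded variation. -/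
def BV (p : ℝ) (G : Br → ℕ → ℝ) (C : ℝ) : Prop := ∀ F : Finset Seg, DF F → ∑ S ∈ F, |sg G S| ^ p ≤ C

theorem DF_empty : DF (∅ : Finset Seg) := fun _ h => absurd h (notMem_empty _)

instance (A : NS) : Nonempty {F : Finset Seg // DF F ∧ ∀ S ∈ F, S.In A} :=
  ⟨⟨∅, DF_empty, fun _ h => absurd h (notMem_empty _)⟩⟩

variable {p : ℝ} {G : Br → ℕ → ℝ} {C : ℝ}

theorem BV.nonneg (h : BV p G C) : 0 ≤ C := by
  have := h ∅ DF_empty
  rwa [sum_empty] at this

theorem QQ_bdd (h : BV p G C) (A : NS) : BddAbove (Set.range fun F : {F : Finset Seg // DF F ∧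
    ∀ S ∈ F, S.In A} => ∑ S ∈ F.1, |sg G S| ^ p) := ⟨C, by
  rintro _ ⟨F, rfl⟩
  exact h F.1 F.2.1⟩

theorem le_QQ (h : BV p G C) {A : NS} {F : Finset Seg} (hF : DF F) (hA : ∀ S ∈ F, S.In A) :
    ∑ S ∈ F, |sg G S| ^ p ≤ QQ p G A :=
  le_ciSup (QQ_bdd h A) (⟨F, hF, hA⟩ : {F : Finset Seg // DF F ∧ ∀ S ∈ F, S.In A})

theorem QQ_le {A : NS} {K : ℝ} (h : ∀ F : Finset Seg, DF F → (∀ S ∈ F, S.In A) →
    ∑ S ∈ F, |sg G S| ^ p ≤ K) : QQ p G A ≤ K := ciSup_le fun F => h F.1 F.2.1 F.2.2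

theorem QQ_nonneg (p : ℝ) (G : Br → ℕ → ℝ) (A : NS) : 0 ≤ QQ p G A :=
  Real.iSup_nonneg fun _ => sum_nonneg fun _ _ => Real.rpow_nonneg (abs_nonneg _) _

theorem QQ_le_C (h : BV p G C) (A : NS) : QQ p G A ≤ C := QQ_le fun F hF _ => h F hF

theorem QQ_mono (h : BV p G C) {A A' : NS} (hA : A ⊆ A') : QQ p G A ≤ QQ p G A' :=
  QQ_le fun _ hF hin => le_QQ h hF fun S hS => (hin S hS).mono hA

theorem sg_empty {S : Seg} (h : S.a = S.b) : sg G S = 0 := by
  unfold sg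
  rw [h, sub_self]

theorem QQ_sup (hp : p ≠ 0) (h : BV p G C) {A A' : NS} (hA : Sat A) (hd : Disjoint A A') :
    QQ p G A + QQ p G A' ≤ QQ p G (A ∪ A') := by
  classical
  have key : ∀ F : Finset Seg, DF F → (∀ S ∈ F, S.In A) → ∀ F' : Finset Seg, DF F' →
      (∀ S ∈ F', S.In A') → ∑ S ∈ F, |sg G S| ^ p + ∑ S ∈ F', |sg G S| ^ p
        ≤ QQ p G (A ∪ A') := by
    intro F hF hFA F' hF' hFA'
    rw [← sum_union_inter]
    have h1 : ∑ S ∈ F ∩ F', |sg G S| ^ p = 0 := by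
      refine sum_eq_zero fun S hS => ?_
      rw [mem_inter] at hS
      have h2 : S.a = S.b := by
        by_contra hne
        have h3 : S.a < S.b := lt_of_le_of_ne S.hab hne
        exact Set.disjoint_left.mp hd (hFA S hS.1 S.b h3 le_rfl) (hFA' S hS.2 S.b h3 le_rfl)
      rw [sg_empty h2, abs_zero, Real.zero_rpow hp]
    rw [h1, add_zero]
    refine le_QQ h ?_ ?_
    · have hcross : ∀ S ∈ F, ∀ T ∈ F', S.Disj T := by
        intro S hS T hT j h1 h2 h3 h4 h5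
        exact Set.disjoint_left.mp hd (hA _ _ _ h5 (hFA S hS j h1 h2)) (hFA' T hT j h3 h4)
      intro S hS T hT hne
      rcases mem_union.mp hS with hS | hS <;> rcases mem_union.mp hT with hT | hT
      · exact hF S hS T hT hne
      · exact hcross S hS T hT
      · exact (hcross T hT S hS).symm
      · exact hF' S hS T hT hne
    · intro S hS
      rcases mem_union.mp hS with hS | hS
      · exact (hFA S hS).mono Set.subset_union_left
      · exact (hFA' S hS).mono Set.subset_union_right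
  have h1 : QQ p G A ≤ QQ p G (A ∪ A') - QQ p G A' := by
    refine QQ_le fun F hF hFA => ?_
    have h2 : QQ p G A' ≤ QQ p G (A ∪ A') - ∑ S ∈ F, |sg G S| ^ p := by
      refine QQ_le fun F' hF' hFA' => ?_
      have := key F hF hFA F' hF' hFA'
      linarith
    linarith
  linarith

/-- Indexed families of disjoint pieces. -/
theorem pieces_le {ι : Type} (hp : p ≠ 0) (h : BV p G C) {A : NS} (F : Finset ι) (pc : ι → Seg)
    (hd : ∀ i ∈ F, ∀ j ∈ F, i ≠ j → (pc i).Disj (pc j)) (hA : ∀ i ∈ F, (pc i).In A) :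
    ∑ i ∈ F, |sg G (pc i)| ^ p ≤ QQ p G A := by
  classical
  have h1 : ∑ i ∈ F, |sg G (pc i)| ^ p
      = ∑ i ∈ F.filter (fun i => (pc i).a < (pc i).b), |sg G (pc i)| ^ p := by
    symm
    refine sum_subset (filter_subset _ _) fun i hi hn => ?_
    have h2 : (pc i).a = (pc i).b := by
      by_contra hne
      exact hn (mem_filter.mpr ⟨hi, lt_of_le_of_ne (pc i).hab hne⟩)
    rw [sg_empty h2, abs_zero, Real.zero_rpow hp]
  have hinj : Set.InjOn pc (F.filter (fun i => (pc i).a < (pc i).b)) := by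
    intro i hi j hj hij
    rw [mem_coe, mem_filter] at hi hj
    by_contra hne
    have h2 := hd i hi.1 j hj.1 hne
    rw [← hij] at h2
    exact h2 (pc i).b hi.2 le_rfl hi.2 le_rfl (agree.refl _ _)
  rw [h1, ← sum_image (f := fun S => |sg G S| ^ p) hinj]
  refine le_QQ h ?_ ?_
  · intro S hS T hT hne
    rw [mem_image] at hS hT
    obtain ⟨i, hi, rfl⟩ := hS
    obtain ⟨j, hj, rfl⟩ := hT
    exact hd i (mem_filter.mp hi).1 j (mem_filter.mp hj).1 fun h => hne (by rw [h])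
  · intro S hS
    rw [mem_image] at hS
    obtain ⟨i, hi, rfl⟩ := hS
    exact hA i (mem_filter.mp hi).1

/-- Pieces distributed over several sets. -/
theorem pieces_cover {ι κ : Type} [DecidableEq κ] (hp : p ≠ 0) (h : BV p G C) (F : Finset ι)
    (pc : ι → Seg) (hd : ∀ i ∈ F, ∀ j ∈ F, i ≠ j → (pc i).Disj (pc j)) (I : Finset κ)
    (A : κ → NS) (f : ι → κ) (hf : ∀ i ∈ F, f i ∈ I) (hA : ∀ i ∈ F, (pc i).In (A (f i))) :
    ∑ i ∈ F, |sg G (pc i)| ^ p ≤ ∑ k ∈ I, QQ p G (A k) := by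
  classical
  rw [← sum_fiberwise_of_maps_to hf]
  refine sum_le_sum fun k _ => ?_
  refine pieces_le hp h _ pc (fun i hi j hj hne =>
    hd i (mem_filter.mp hi).1 j (mem_filter.mp hj).1 hne) fun i hi => ?_
  rw [mem_filter] at hi
  rw [← hi.2]
  exact hA i hi.1

/-- The iterated limit of restricted norms. -/
noncomputable def PA (p : ℝ) (k : ℕ) (H : Finset ℕ → Br → ℕ → ℝ) (a : Finset ℕ) (A : NS) : ℝ :=
  Lm (fun c => QQ p (H c) A) (k - #a) a

theorem QQ_abs (h : BV p G C) (A : NS) : |QQ p G A| ≤ C := by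
  rw [abs_of_nonneg (QQ_nonneg p G A)]
  exact QQ_le_C h A

theorem PA_SA (hp : p ≠ 0) (k : ℕ) {H : Finset ℕ → Br → ℕ → ℝ} (hH : ∀ c, BV p (H c) C)
    (a : Finset ℕ) : SA (PA p k H a) C where
  nonneg A := Lm_nonneg (fun c => QQ_abs (hH c) A) (fun c => QQ_nonneg _ _ _) _ _
  le A := (le_abs_self _).trans (Lm_abs_le (fun c => QQ_abs (hH c) A) _ _)
  mono A A' hA := Lm_mono (fun c => QQ_abs (hH c) A) (fun c => QQ_abs (hH c) A')
    (fun c => QQ_mono (hH c) hA) _ _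
  sup A A' hA hd := by
    unfold PA
    rw [← Lm_add (fun c => QQ_abs (hH c) A) (fun c => QQ_abs (hH c) A')]
    refine Lm_mono (B := C + C) (fun c => ?_) (fun c => QQ_abs (hH c) (A ∪ A'))
      (fun c => QQ_sup hp (hH c) hA hd) _ _
    exact (abs_add_le _ _).trans (add_le_add (QQ_abs (hH c) A) (QQ_abs (hH c) A'))

end Pool.Agent.Helper52.JamesTree
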