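import Mathlib
import Pool.Agent.Helper52.JtQ

set_option autoImplicit false

open Finset Filter Topology

namespace Pool.Agent.Helper52.JamesTree

/-- The data chosen at one step. -/
structure State where
  mu : ℕ
  K : ℕ
  G : Finset Br
  θ : ℝ
  Φ : Set (Finset ℕ → ℝ)

/-- The value along a branch after `l` coordinates. -/
noncomputable def bv (k : ℕ) (H : Finset ℕ → Br → ℕ → ℝ) (l : ℕ) (g : Br) (a : Finset ℕ) : ℝ :=
  limU fun K => Lm (fun c => H c g K) (k - l) a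

/-- Conditions on one state. -/
structure Good (p : ℝ) (k : ℕ) (H : Finset ℕ → Br → ℕ → ℝ) (η : ℝ) (y : State) : Prop where
  pos : 0 < y.θ
  small : 4 ^ y.K * y.θ ≤ η
  fin : y.Φ.Finite
  bdd : ∀ φ ∈ y.Φ, ∃ B : ℝ, ∀ c, |φ c| ≤ B
  F1 : ∀ g m, m ≤ y.K → (fun c => QQ p (H c) (TT g m)) ∈ y.Φ
  F2 : ∀ K' K'', K'' ≤ y.K → K' ≤ K'' → (fun c => QQ p (H c) (BL K' K'')) ∈ y.Φ
  F3 : ∀ g m, m ≤ y.K → (fun c => H c g m) ∈ y.Φ
  F4 : ∀ g ∈ y.G, ∀ l, l ≤ k → bv k H l g ∈ y.Φ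
  S1 : ∀ a, a ⊆ range (y.mu + 1) → ∀ K', PA p k H a (BL y.K K') ≤ η
  S2 : ∀ a, a ⊆ range (y.mu + 1) → ∀ N,
    ∑ g ∈ y.G, ∑ m ∈ Ico y.K N, PA p k H a (TT (flp g m) (m + 1)) ≤ η
  S3 : ∀ a, a ⊆ range (y.mu + 1) → ∀ F : Finset Br, Disjoint F y.G →
    ∑ g ∈ F, atom (PA p k H a) g ≤ η
  S5 : ∀ a, a ⊆ range (y.mu + 1) →
    ∑ g ∈ y.G, (PA p k H a (TT g y.K) - atom (PA p k H a) g) ≤ η
  S6 : ∀ g ∈ y.G, ∀ h ∈ y.G, g ≠ h → ¬ agree g h y.K

/-- Conditions linking two states. -/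
structure Lk (p : ℝ) (k : ℕ) (H : Finset ℕ → Br → ℕ → ℝ) (η : ℝ) (x y : State) : Prop where
  mu : x.mu < y.mu
  K : x.K < y.K
  G : x.G ⊆ y.G
  θ : y.θ ≤ x.θ / 2
  Φ : x.Φ ⊆ y.Φ
  step : ∀ φ ∈ x.Φ, ∀ a, a ⊆ range (x.mu + 1) → ∀ j, j ≤ k →
    |Lm φ j (insert y.mu a) - Lm φ (j + 1) a| ≤ x.θ / 2
  S4 : ∀ a, a ⊆ range (y.mu + 1) → ∀ g, η / 2 ^ x.K ≤ PA p k H a (TT g y.K) →
    ∃ h ∈ y.G, agree g h y.K
  D : ∀ g ∈ x.G, ∀ a, a ⊆ range (y.mu + 1) → ∀ l, l ≤ k →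
    |Lm (fun c => H c g y.K) (k - l) a - bv k H l g a| ≤ x.θ

variable {p : ℝ} {k : ℕ} {H : Finset ℕ → Br → ℕ → ℝ} {η C B : ℝ}

theorem finite_nodes {α : Type} (K : ℕ) (f : Br → ℕ → α)
    (hf : ∀ g h m, agree g h m → f g m = f h m) :
    {x | ∃ g m, m ≤ K ∧ x = f g m}.Finite := by
  classical
  refine (((range K).powerset ×ˢ range (K + 1)).image
    (fun x => f (ind x.1) x.2)).finite_toSet.subset ?_
  rintro x ⟨g, m, hm, rfl⟩
  rw [mem_coe, mem_image]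
  refine ⟨((range m).filter fun i => g i = true, m), ?_, ?_⟩
  · rw [mem_product]
    refine ⟨?_, mem_range.mpr (by omega)⟩
    rw [mem_powerset]
    intro i hi
    rw [mem_filter, mem_range] at hi
    exact mem_range.mpr (by omega)
  · exact (hf _ _ _ (agree_ind g m)).symm

theorem exists_pos_le (s : Finset State) (hs : ∀ x ∈ s, 0 < x.θ) :
    ∃ δ : ℝ, 0 < δ ∧ ∀ x ∈ s, δ ≤ x.θ := by
  classical
  induction s using Finset.induction_on with
  | empty => exact ⟨1, one_pos, fun x hx => absurd hx (notMem_empty x)⟩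
  | insert a s _ ih =>
    obtain ⟨δ, hδ, hle⟩ := ih fun x hx => hs x (mem_insert_of_mem hx)
    refine ⟨min δ a.θ, lt_min hδ (hs a (mem_insert_self a s)), fun x hx => ?_⟩
    rcases mem_insert.mp hx with rfl | hx
    · exact min_le_right _ _
    · exact (min_le_left _ _).trans (hle x hx)

theorem bv_abs (hB : ∀ c g m, |H c g m| ≤ B) (l : ℕ) (g : Br) (a : Finset ℕ) :
    |bv k H l g a| ≤ B :=
  limU_abs_le fun K => Lm_abs_le (fun c => hB c g K) _ _

theorem exists_next (hp : p ≠ 0) (hη : 0 < η) (hH : ∀ c, BV p (H c) C)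
    (hB : ∀ c g m, |H c g m| ≤ B) (hco : ∀ c g h m, agree g h m → H c g m = H c h m)
    (s : Finset State) (hs : ∀ x ∈ s, Good p k H η x) :
    ∃ y, Good p k H η y ∧ ∀ x ∈ s, Lk p k H η x y := by
  classical
  -- the new point
  have h1 : ∀ᶠ n in (UF : Filter ℕ), ∀ x ∈ s, x.mu < n ∧ ∀ φ ∈ x.Φ,
      ∀ a ∈ (range (x.mu + 1)).powerset, ∀ j ∈ range (k + 1),
      |Lm φ j (insert n a) - Lm φ (j + 1) a| ≤ x.θ / 2 := by
    refine (eventually_all_finset s).mpr fun x hx => ?_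
    refine (UF_ev (eventually_gt_atTop x.mu)).and ?_
    refine (eventually_all_finite (hs x hx).fin).mpr fun φ hφ => ?_
    obtain ⟨B', hB'⟩ := (hs x hx).bdd φ hφ
    refine (eventually_all_finset _).mpr fun a _ => (eventually_all_finset _).mpr fun j _ => ?_
    exact Lm_ev hB' j a (half_pos (hs x hx).pos)
  obtain ⟨μ, hμ⟩ := h1.exists
  set AS : Finset (Finset ℕ) := (range (μ + 1)).powerset with hAS
  have hSA : ∀ a, SA (PA p k H a) C := fun a => PA_SA hp k hH a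
  -- the branches
  set Km : ℕ := s.sup State.K with hKm
  set ε : ℝ := η / 2 ^ Km with hε
  have hε0 : 0 < ε := by positivity
  have hεη : ε ≤ η := div_le_self hη.le (one_le_pow₀ (by norm_num))
  choose G₀ hG₀ hG₁ using fun a => (hSA a).atoms hε0
  set G : Finset Br := AS.biUnion G₀ ∪ s.biUnion State.G with hG
  have hGG : ∀ a ∈ AS, G₀ a ⊆ G := fun a ha =>
    (subset_biUnion_of_mem G₀ ha).trans subset_union_left
  have hGs : ∀ x ∈ s, x.G ⊆ G := fun x hx =>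
    (subset_biUnion_of_mem State.G hx).trans subset_union_right
  set δ : ℝ := η / ((#G : ℝ) + 1) with hδ
  have hδ0 : 0 < δ := by positivity
  have hδη : (#G : ℝ) * δ ≤ η := by
    rw [hδ, mul_div_assoc', div_le_iff₀ (by positivity)]
    nlinarith
  -- the level
  have h2 : ∀ᶠ K in (UF : Filter ℕ), (∀ x ∈ s, x.K < K) ∧
      (∀ a ∈ AS, ∀ K', PA p k H a (BL K K') ≤ η) ∧
      (∀ a ∈ AS, ∀ g ∈ G, ∀ N, ∑ m ∈ Ico K N, PA p k H a (TT (flp g m) (m + 1)) ≤ δ) ∧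
      (∀ a ∈ AS, ∀ g ∈ G, PA p k H a (TT g K) ≤ atom (PA p k H a) g + δ) ∧
      (∀ g ∈ G, ∀ h ∈ G, g ≠ h → ¬ agree g h K) ∧
      (∀ a ∈ AS, ∀ g, ε ≤ PA p k H a (TT g K) → ∃ h ∈ G, agree g h K) ∧
      (∀ x ∈ s, ∀ g ∈ x.G, ∀ a ∈ AS, ∀ l ∈ range (k + 1),
        |Lm (fun c => H c g K) (k - l) a - bv k H l g a| ≤ x.θ) := by
    refine ((eventually_all_finset s).mpr fun x _ => UF_ev (eventually_gt_atTop x.K)).and
      (((eventually_all_finset AS).mpr fun a _ => ?_).and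
      (((eventually_all_finset AS).mpr fun a _ => (eventually_all_finset G).mpr fun g _ => ?_).and
      (((eventually_all_finset AS).mpr fun a _ => (eventually_all_finset G).mpr fun g _ => ?_).and
      ((?_ : ∀ᶠ K in (UF : Filter ℕ), ∀ g ∈ G, ∀ h ∈ G, g ≠ h → ¬ agree g h K).and
      (((eventually_all_finset AS).mpr fun a ha => ?_).and
      ((eventually_all_finset s).mpr fun x hx => (eventually_all_finset _).mpr fun g _ =>
        (eventually_all_finset _).mpr fun a _ => (eventually_all_finset _).mpr fun l _ => ?_))))))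
    · obtain ⟨K₀, hK₀⟩ := (hSA a).block hη
      exact UF_ev ((eventually_ge_atTop K₀).mono hK₀)
    · obtain ⟨K₀, hK₀⟩ := (hSA a).off g hδ0
      exact UF_ev ((eventually_ge_atTop K₀).mono hK₀)
    · obtain ⟨K₀, hK₀⟩ := (hSA a).atom_approx g hδ0
      exact UF_ev ((eventually_ge_atTop K₀).mono hK₀)
    · obtain ⟨K₀, hK₀⟩ := exists_sep G
      exact UF_ev ((eventually_ge_atTop K₀).mono hK₀)
    · obtain ⟨K₀, hK₀⟩ := (hSA a).capture hε0 G fun g hg => hGG a ha (hG₁ a g hg)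
      exact UF_ev ((eventually_ge_atTop K₀).mono hK₀)
    · exact limU_ev (fun K => Lm_abs_le (fun c => hB c g K) _ _) (hs x hx).pos
  obtain ⟨K, hK1, hK2, hK3, hK4, hK5, hK6, hK7⟩ := h2.exists
  -- the accuracy
  obtain ⟨δ', hδ'0, hδ'⟩ := exists_pos_le s fun x hx => (hs x hx).pos
  set θ : ℝ := min (δ' / 2) (η / 4 ^ K) with hθ
  have hθ0 : 0 < θ := lt_min (half_pos hδ'0) (by positivity)
  -- the functions
  set Φ : Set (Finset ℕ → ℝ) := (⋃ x ∈ s, x.Φ) ∪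
    ({φ | ∃ g m, m ≤ K ∧ φ = fun c => QQ p (H c) (TT g m)} ∪
    ({φ | ∃ K' K'', K'' ≤ K ∧ K' ≤ K'' ∧ φ = fun c => QQ p (H c) (BL K' K'')} ∪
    ({φ | ∃ g m, m ≤ K ∧ φ = fun c => H c g m} ∪
    {φ | ∃ g ∈ G, ∃ l, l ≤ k ∧ φ = bv k H l g}))) with hΦ
  have hfin : Φ.Finite := by
    refine Set.Finite.union ?_ (Set.Finite.union ?_ (Set.Finite.union ?_ (Set.Finite.union ?_ ?_)))
    · exact Set.Finite.biUnion s.finite_toSet fun x hx => (hs x hx).fin
    · exact finite_nodes K (fun g m => fun c => QQ p (H c) (TT g m)) fun g h m H' => by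
        simp only [TT_congr H']
    · refine ((range (K + 1) ×ˢ range (K + 1)).image
        (fun x => fun c => QQ p (H c) (BL x.1 x.2))).finite_toSet.subset ?_
      rintro φ ⟨K', K'', h3, h4, rfl⟩
      rw [mem_coe, mem_image]
      exact ⟨(K', K''), mem_product.mpr ⟨mem_range.mpr (by omega), mem_range.mpr (by omega)⟩, rfl⟩
    · exact finite_nodes K (fun g m => fun c => H c g m) fun g h m H' => by
        funext c
        exact hco c g h m H'
    · refine ((G ×ˢ range (k + 1)).image (fun x => bv k H x.2 x.1)).finite_toSet.subset ?_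
      rintro φ ⟨g, hg, l, hl, rfl⟩
      rw [mem_coe, mem_image]
      exact ⟨(g, l), mem_product.mpr ⟨hg, mem_range.mpr (by omega)⟩, rfl⟩
  refine ⟨⟨μ, K, G, θ, Φ⟩, ?_, ?_⟩
  · refine ⟨hθ0, ?_, hfin, ?_, ?_, ?_, ?_, ?_, ?_, ?_, ?_, ?_, ?_⟩
    · calc (4 : ℝ) ^ K * θ ≤ 4 ^ K * (η / 4 ^ K) :=
            mul_le_mul_of_nonneg_left (min_le_right _ _) (by positivity)
        _ = η := by field_simp
    · rintro φ (h3 | ⟨g, m, _, rfl⟩ | ⟨K', K'', _, _, rfl⟩ | ⟨g, m, _, rfl⟩ | ⟨g, _, l, _, rfl⟩)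
      · rw [Set.mem_iUnion₂] at h3
        obtain ⟨x, hx, hφ⟩ := h3
        exact (hs x hx).bdd φ hφ
      · exact ⟨C, fun c => QQ_abs (hH c) _⟩
      · exact ⟨C, fun c => QQ_abs (hH c) _⟩
      · exact ⟨B, fun c => hB c g m⟩
      · exact ⟨B, fun c => bv_abs hB l g c⟩
    · exact fun g m hm => Or.inr (Or.inl ⟨g, m, hm, rfl⟩)
    · exact fun K' K'' h3 h4 => Or.inr (Or.inr (Or.inl ⟨K', K'', h3, h4, rfl⟩))
    · exact fun g m hm => Or.inr (Or.inr (Or.inr (Or.inl ⟨g, m, hm, rfl⟩)))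
    · exact fun g hg l hl => Or.inr (Or.inr (Or.inr (Or.inr ⟨g, hg, l, hl, rfl⟩)))
    · exact fun a ha K' => hK2 a (mem_powerset.mpr ha) K'
    · intro a ha N
      calc ∑ g ∈ G, ∑ m ∈ Ico K N, PA p k H a (TT (flp g m) (m + 1))
          ≤ ∑ g ∈ G, δ := sum_le_sum fun g hg => hK3 a (mem_powerset.mpr ha) g hg N
        _ = #G * δ := by rw [sum_const, nsmul_eq_mul]
        _ ≤ η := hδη
    · intro a ha F hF
      exact (hG₀ a F (disjoint_of_subset_right (hGG a (mem_powerset.mpr ha)) hF)).trans hεη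
    · intro a ha
      calc ∑ g ∈ G, (PA p k H a (TT g K) - atom (PA p k H a) g)
          ≤ ∑ g ∈ G, δ := sum_le_sum fun g hg => by
            have := hK4 a (mem_powerset.mpr ha) g hg
            linarith
        _ = #G * δ := by rw [sum_const, nsmul_eq_mul]
        _ ≤ η := hδη
    · exact hK5
  · intro x hx
    refine ⟨(hμ x hx).1, hK1 x hx, hGs x hx, ?_, ?_, ?_, ?_, ?_⟩
    · have h3 : θ ≤ δ' / 2 := min_le_left _ _
      have h4 := hδ' x hx
      change θ ≤ x.θ / 2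
      linarith
    · intro φ hφ
      exact Or.inl (Set.mem_iUnion₂.mpr ⟨x, hx, hφ⟩)
    · intro φ hφ a ha j hj
      exact (hμ x hx).2 φ hφ a (mem_powerset.mpr ha) j (mem_range.mpr (by omega))
    · intro a ha g hg
      refine hK6 a (mem_powerset.mpr ha) g (le_trans ?_ hg)
      have h3 : x.K ≤ Km := le_sup (f := State.K) hx
      exact div_le_div_of_nonneg_left hη.le (by positivity)
        (pow_le_pow_right₀ (by norm_num) h3)
    · intro g hg a ha l hl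
      exact hK7 x hx g hg a (mem_powerset.mpr ha) l (mem_range.mpr (by omega))

/-- The sequence of states. -/
theorem exists_states (hp : p ≠ 0) (hη : 0 < η) (hH : ∀ c, BV p (H c) C)
    (hB : ∀ c g m, |H c g m| ≤ B) (hco : ∀ c g h m, agree g h m → H c g m = H c h m) :
    ∃ st : ℕ → State, (∀ i, Good p k H η (st i)) ∧ ∀ i j, i < j → Lk p k H η (st i) (st j) :=
  exists_seq_of_forall_finset_exists (Good p k H η) (Lk p k H η)
    fun s hs => exists_next hp hη hH hB hco s hs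

end Pool.Agent.Helper52.JamesTree
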