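import Mathlib
import Pool.Agent.Helper52.JtState

set_option autoImplicit false

open Finset Filter Topology

namespace Pool.Agent.Helper52.JamesTree

/-- A sequence of states. -/
structure Seqn (p : ℝ) (k : ℕ) (H : Finset ℕ → Br → ℕ → ℝ) (η : ℝ) (st : ℕ → State) : Prop where
  good : ∀ i, Good p k H η (st i)
  lk : ∀ i j, i < j → Lk p k H η (st i) (st j)

variable {p : ℝ} {k : ℕ} {H : Finset ℕ → Br → ℕ → ℝ} {η C B : ℝ} {st : ℕ → State}

theorem Seqn.mu_lt (h : Seqn p k H η st) {i j : ℕ} (hij : i < j) : (st i).mu < (st j).mu :=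
  (h.lk i j hij).mu

theorem Seqn.mu_le_iff (h : Seqn p k H η st) {i j : ℕ} : (st i).mu ≤ (st j).mu ↔ i ≤ j := by
  constructor
  · intro h1
    by_contra h2
    exact absurd (h.mu_lt (not_le.mp h2)) (not_lt.mpr h1)
  · intro h1
    rcases h1.lt_or_eq with h2 | h2
    · exact (h.mu_lt h2).le
    · rw [h2]

theorem Seqn.mu_inj (h : Seqn p k H η st) {i j : ℕ} (hij : (st i).mu = (st j).mu) : i = j :=
  le_antisymm (h.mu_le_iff.mp hij.le) (h.mu_le_iff.mp hij.ge)

theorem Seqn.K_lt (h : Seqn p k H η st) {i j : ℕ} (hij : i < j) : (st i).K < (st j).K :=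
  (h.lk i j hij).K

theorem Seqn.K_le (h : Seqn p k H η st) {i j : ℕ} (hij : i ≤ j) : (st i).K ≤ (st j).K := by
  rcases hij.lt_or_eq with h2 | h2
  · exact (h.K_lt h2).le
  · rw [h2]

theorem Seqn.G_sub (h : Seqn p k H η st) {i j : ℕ} (hij : i ≤ j) : (st i).G ⊆ (st j).G := by
  rcases hij.lt_or_eq with h2 | h2
  · exact (h.lk i j h2).G
  · rw [h2]

theorem Seqn.Φ_sub (h : Seqn p k H η st) {i j : ℕ} (hij : i ≤ j) : (st i).Φ ⊆ (st j).Φ := by
  rcases hij.lt_or_eq with h2 | h2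
  · exact (h.lk i j h2).Φ
  · rw [h2]

theorem Seqn.θ_pos (h : Seqn p k H η st) (i : ℕ) : 0 < (st i).θ := (h.good i).pos

theorem Seqn.θ_le (h : Seqn p k H η st) {i j : ℕ} (hij : i ≤ j) : (st j).θ ≤ (st i).θ := by
  rcases hij.lt_or_eq with h2 | h2
  · have := (h.lk i j h2).θ
    linarith [h.θ_pos i]
  · rw [h2]

theorem Seqn.θ_small (h : Seqn p k H η st) (i : ℕ) : (st i).θ ≤ η := by
  have h1 := (h.good i).small
  have h2 : (1 : ℝ) ≤ 4 ^ (st i).K := one_le_pow₀ (by norm_num)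
  nlinarith [h.θ_pos i]

theorem Seqn.θ_small2 (h : Seqn p k H η st) (i : ℕ) : 2 ^ (st i).K * (st i).θ ≤ η := by
  have h1 := (h.good i).small
  have h2 : (2 : ℝ) ^ (st i).K ≤ 4 ^ (st i).K := pow_le_pow_left₀ (by norm_num) (by norm_num) _
  nlinarith [h.θ_pos i]

/-- The elements up to stage `i`. -/
def cut (st : ℕ → State) (c : Finset ℕ) (i : ℕ) : Finset ℕ := c.filter fun x => x ≤ (st i).mu

/-- Sets of chosen points. -/
def InS (st : ℕ → State) (c : Finset ℕ) : Prop := ∀ x ∈ c, ∃ j, 1 ≤ j ∧ x = (st j).mu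

variable {c : Finset ℕ}

theorem cut_sub (st : ℕ → State) (c : Finset ℕ) (i : ℕ) : cut st c i ⊆ range ((st i).mu + 1) := by
  intro x hx
  exact mem_range.mpr (Nat.lt_succ_of_le (mem_filter.mp hx).2)

theorem cut_zero (h : Seqn p k H η st) (hc : InS st c) : cut st c 0 = ∅ := by
  refine filter_eq_empty_iff.mpr fun x hx hle => ?_
  obtain ⟨j, hj, rfl⟩ := hc x hx
  have := h.mu_le_iff.mp hle
  omega

theorem cut_succ_mem (h : Seqn p k H η st) (hc : InS st c) {i : ℕ} (hm : (st (i + 1)).mu ∈ c) :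
    cut st c (i + 1) = insert (st (i + 1)).mu (cut st c i) := by
  ext x
  unfold cut
  rw [mem_insert, mem_filter, mem_filter]
  constructor
  · rintro ⟨hx, hle⟩
    obtain ⟨j, hj, rfl⟩ := hc x hx
    rw [h.mu_le_iff] at hle
    rcases hle.lt_or_eq with h1 | h1
    · exact Or.inr ⟨hx, h.mu_le_iff.mpr (by omega)⟩
    · exact Or.inl (by rw [h1])
  · rintro (rfl | ⟨hx, hle⟩)
    · exact ⟨hm, le_rfl⟩
    · exact ⟨hx, hle.trans (h.mu_lt (Nat.lt_succ_self i)).le⟩

theorem cut_succ_not (h : Seqn p k H η st) (hc : InS st c) {i : ℕ}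
    (hm : (st (i + 1)).mu ∉ c) : cut st c (i + 1) = cut st c i := by
  ext x
  unfold cut
  rw [mem_filter, mem_filter]
  constructor
  · rintro ⟨hx, hle⟩
    obtain ⟨j, hj, rfl⟩ := hc x hx
    rw [h.mu_le_iff] at hle
    rcases hle.lt_or_eq with h1 | h1
    · exact ⟨hx, h.mu_le_iff.mpr (by omega)⟩
    · rw [h1] at hx
      exact absurd hx hm
  · rintro ⟨hx, hle⟩
    exact ⟨hx, hle.trans (h.mu_lt (Nat.lt_succ_self i)).le⟩

theorem mu_notMem_cut (h : Seqn p k H η st) (i : ℕ) : (st (i + 1)).mu ∉ cut st c i := by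
  intro hx
  exact absurd (mem_filter.mp hx).2 (not_le.mpr (h.mu_lt (Nat.lt_succ_self i)))

/-- Iterated limits along the sequence. -/
theorem walk (h : Seqn p k H η st) (hc : InS st c) {φ : Finset ℕ → ℝ} {i : ℕ}
    (hφ : φ ∈ (st i).Φ) {l : ℕ} (hl : l ≤ k) (n : ℕ) : #(cut st c (i + n)) ≤ l →
    |Lm φ (l - #(cut st c i)) (cut st c i) - Lm φ (l - #(cut st c (i + n))) (cut st c (i + n))|
      ≤ (st i).θ - (st (i + n)).θ := by
  induction n with
  | zero =>
    intro _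
    rw [add_zero, sub_self, sub_self, abs_zero]
  | succ n ih =>
    intro hn
    have hlk := h.lk (i + n) (i + n + 1) (Nat.lt_succ_self _)
    have hθ := hlk.θ
    rw [← add_assoc] at hn ⊢
    by_cases hm : (st (i + n + 1)).mu ∈ c
    · have h1 := cut_succ_mem h hc hm
      have h2 : #(cut st c (i + n + 1)) = #(cut st c (i + n)) + 1 := by
        rw [h1, card_insert_of_notMem (mu_notMem_cut h _)]
      have h3 := ih (by omega)
      have h4 := hlk.step φ (h.Φ_sub (Nat.le_add_right i n) hφ) (cut st c (i + n))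
        (cut_sub st c _) (l - #(cut st c (i + n + 1))) (by omega)
      rw [← h1] at h4
      have h5 : l - #(cut st c (i + n + 1)) + 1 = l - #(cut st c (i + n)) := by omega
      rw [h5] at h4
      rw [abs_le] at h3 h4 ⊢
      constructor <;> linarith [h3.1, h3.2, h4.1, h4.2, h.θ_pos (i + n)]
    · have h1 := cut_succ_not h hc hm
      rw [h1] at hn ⊢
      have h3 := ih hn
      have := h.θ_pos (i + n)
      linarith

/-- Admissible sets. -/
structure Adm (k : ℕ) (st : ℕ → State) (c : Finset ℕ) : Prop where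
  card : #c = k
  mem : ∀ x ∈ c, ∃ j, 1 ≤ j ∧ j ≤ 2 * k ∧ x = (st j).mu

theorem Adm.inS (hc : Adm k st c) : InS st c := fun x hx => by
  obtain ⟨j, h1, _, h2⟩ := hc.mem x hx
  exact ⟨j, h1, h2⟩

theorem Adm.cut_full (h : Seqn p k H η st) (hc : Adm k st c) : cut st c (2 * k) = c := by
  refine filter_eq_self.mpr fun x hx => ?_
  obtain ⟨j, _, h1, rfl⟩ := hc.mem x hx
  exact h.mu_le_iff.mpr h1

theorem Adm.card_cut (hc : Adm k st c) (i : ℕ) : #(cut st c i) ≤ k := by
  rw [← hc.card]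
  exact card_le_card (filter_subset _ _)

theorem Adm.walk (h : Seqn p k H η st) (hc : Adm k st c) {i : ℕ} (hi : i ≤ 2 * k)
    {φ : Finset ℕ → ℝ} (hφ : φ ∈ (st i).Φ) :
    |Lm φ (k - #(cut st c i)) (cut st c i) - φ c| ≤ (st i).θ := by
  obtain ⟨n, hn⟩ := Nat.exists_eq_add_of_le hi
  have h1 := JamesTree.walk h hc.inS hφ le_rfl n (hc.card_cut _)
  rw [← hn, hc.cut_full h, hc.card, Nat.sub_self, Lm_zero] at h1
  linarith [h.θ_pos (2 * k)]

theorem Adm.QQ_le (h : Seqn p k H η st) (hc : Adm k st c) {i : ℕ} (hi : i ≤ 2 * k) {A : NS}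
    (hA : (fun c => QQ p (H c) A) ∈ (st i).Φ) :
    QQ p (H c) A ≤ PA p k H (cut st c i) A + (st i).θ := by
  have h1 := hc.walk h hi hA
  rw [abs_le] at h1
  have h2 : PA p k H (cut st c i) A
      = Lm (fun c => QQ p (H c) A) (k - #(cut st c i)) (cut st c i) := rfl
  rw [h2]
  linarith [h1.1]

theorem Adm.PA_full (hc : Adm k st c) (A : NS) : PA p k H c A = QQ p (H c) A := by
  unfold PA
  rw [hc.card, Nat.sub_self, Lm_zero]

end Pool.Agent.Helper52.JamesTree
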