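import Mathlib
import Pool.Agent.Helper52.JtWalk

set_option autoImplicit false

open Finset Filter Topology

namespace Pool.Agent.Helper52.JamesTree

variable {p : ℝ} {k : ℕ} {H : Finset ℕ → Br → ℕ → ℝ} {η C B : ℝ} {st : ℕ → State}

theorem card_le_pow {ι : Type} (F : Finset ι) (g : ι → Br) (K : ℕ)
    (h : ∀ i ∈ F, ∀ j ∈ F, i ≠ j → ¬ agree (g i) (g j) K) : #F ≤ 2 ^ K := by
  classical
  have h1 : #F ≤ #(univ : Finset (Fin K → Bool)) := by
    refine card_le_card_of_injOn (fun i => fun x : Fin K => g i x) (fun _ _ => mem_coe.mpr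
      (mem_univ _)) ?_
    intro i hi j hj hij
    by_contra hne
    refine h i hi j hj hne fun x hx => ?_
    exact congrFun hij ⟨x, hx⟩
  rwa [card_univ, Fintype.card_fun, Fintype.card_bool, Fintype.card_fin] at h1

theorem Seqn.card_G (h : Seqn p k H η st) (i : ℕ) : #(st i).G ≤ 2 ^ (st i).K :=
  card_le_pow _ id _ fun g hg h' hh hne => (h.good i).S6 g hg h' hh hne

/-- The levels. -/
def Lv (k : ℕ) (st : ℕ → State) (L i : ℕ) : ℕ := if i ≤ 2 * k then (st i).K else L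

theorem Lv_le {L i : ℕ} (hi : i ≤ 2 * k) : Lv k st L i = (st i).K := if_pos hi

theorem Lv_gt {L i : ℕ} (hi : ¬ i ≤ 2 * k) : Lv k st L i = L := if_neg hi

/-- Pieces inside one block. -/
def A1 (k : ℕ) (st : ℕ → State) (L i : ℕ) (_ T : Seg) : Prop :=
  T.In (BL (Lv k st L i) (Lv k st L (i + 1)))

/-- Pieces on a new branch. -/
def A3 (k : ℕ) (st : ℕ → State) (i : ℕ) (_ T : Seg) : Prop :=
  i + 1 ≤ 2 * k ∧ ∃ g ∈ (st (i + 1)).G, g ∉ (st i).G ∧ T.In (TT g (st (i + 1)).K)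

/-- Pieces hanging off an old branch. -/
def A5 (k : ℕ) (st : ℕ → State) (L i : ℕ) (_ T : Seg) : Prop :=
  ∃ g ∈ (st i).G, ∃ m, (st i).K ≤ m ∧ m < Lv k st L (i + 1) ∧ T.In (TT (flp g m) (m + 1))

/-- Pieces avoiding all chosen branches. -/
def A7 (k : ℕ) (st : ℕ → State) (i : ℕ) (S T : Seg) : Prop :=
  i + 1 ≤ 2 * k ∧ S.a < (st i).K ∧ (st i).K ≤ S.b ∧
    (∀ g ∈ (st (i + 1)).G, ¬ agree S.g g (st (i + 1)).K) ∧ T.In (TT S.g (st (i + 1)).K)

variable {c : Finset ℕ} {L i : ℕ}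

theorem A1_QQ (h : Seqn p k H η st) (hη : 0 ≤ η) (hc : Adm k st c) (hi : i ≤ 2 * k)
    (hm : (st (i + 1)).mu ∉ c) : QQ p (H c) (BL (Lv k st L i) (Lv k st L (i + 1))) ≤ 2 * η := by
  have h1 := cut_succ_not h hc.inS hm
  rcases Nat.lt_or_ge i (2 * k) with h2 | h2
  · rw [Lv_le hi, Lv_le (by omega)]
    have h3 := hc.QQ_le h (i := i + 1) (by omega)
      ((h.good (i + 1)).F2 (st i).K (st (i + 1)).K le_rfl (h.K_lt (Nat.lt_succ_self i)).le)
    rw [h1] at h3
    have h4 := (h.good i).S1 (cut st c i) (cut_sub st c i) (st (i + 1)).K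
    linarith [h.θ_small (i + 1)]
  · have h3 : i = 2 * k := le_antisymm hi h2
    subst h3
    rw [Lv_le le_rfl, Lv_gt (by omega), ← hc.PA_full]
    have h4 := (h.good (2 * k)).S1 c (by
      have := cut_sub st c (2 * k)
      rwa [hc.cut_full h] at this) L
    linarith

variable (hp : p ≠ 0) (hH : ∀ c, BV p (H c) C)

include hp hH

theorem bound_A1 (h : Seqn p k H η st) (hη : 0 ≤ η) (hc : Adm k st c) (hi : i ≤ 2 * k)
    (hm : (st (i + 1)).mu ∉ c) (F : Finset Seg) (hF : DF F) (pc : Seg → Seg)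
    (hs : ∀ S ∈ F, (pc S).Sub S) (hR : ∀ S ∈ F, A1 k st L i S (pc S)) :
    ∑ S ∈ F, |sg (H c) (pc S)| ^ p ≤ 3 * η := by
  have h1 := pieces_le hp (hH c) F pc
    (fun S hS T hT hne => (hF S hS T hT hne).sub (hs S hS) (hs T hT)) hR
  linarith [A1_QQ (L := L) h hη hc hi hm]

theorem bound_A3 (h : Seqn p k H η st) (hη : 0 ≤ η) (hc : Adm k st c)
    (hm : (st (i + 1)).mu ∉ c) (F : Finset Seg) (hF : DF F) (pc : Seg → Seg)
    (hs : ∀ S ∈ F, (pc S).Sub S) (hR : ∀ S ∈ F, A3 k st i S (pc S)) :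
    ∑ S ∈ F, |sg (H c) (pc S)| ^ p ≤ 3 * η := by
  classical
  by_cases hi : i + 1 ≤ 2 * k
  swap
  · have : F = ∅ := eq_empty_of_forall_notMem fun S hS => hi (hR S hS).1
    rw [this, sum_empty]
    positivity
  have h1 : ∀ S : Seg, ∃ g : Br, S ∈ F →
      g ∈ (st (i + 1)).G \ (st i).G ∧ (pc S).In (TT g (st (i + 1)).K) := by
    intro S
    by_cases hS : S ∈ F
    · obtain ⟨_, g, hg1, hg2, hg3⟩ := hR S hS
      exact ⟨g, fun _ => ⟨mem_sdiff.mpr ⟨hg1, hg2⟩, hg3⟩⟩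
    · exact ⟨fun _ => true, fun h' => absurd h' hS⟩
  choose f hf using h1
  have h2 := pieces_cover hp (hH c) F pc
    (fun S hS T hT hne => (hF S hS T hT hne).sub (hs S hS) (hs T hT))
    ((st (i + 1)).G \ (st i).G) (fun g => TT g (st (i + 1)).K) f (fun S hS => (hf S hS).1)
    (fun S hS => (hf S hS).2)
  have hcut := cut_succ_not h hc.inS hm
  set P := PA p k H (cut st c i) with hP
  have hSA : SA P C := PA_SA hp k hH _
  have h3 : ∀ g, QQ p (H c) (TT g (st (i + 1)).K) ≤ P (TT g (st (i + 1)).K) + (st (i + 1)).θ := by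
    intro g
    have h4 := hc.QQ_le h hi ((h.good (i + 1)).F1 g (st (i + 1)).K le_rfl)
    rwa [hcut] at h4
  have h4 : ∑ g ∈ (st (i + 1)).G \ (st i).G, QQ p (H c) (TT g (st (i + 1)).K)
      ≤ ∑ g ∈ (st (i + 1)).G \ (st i).G, ((P (TT g (st (i + 1)).K) - atom P g) +
        (atom P g + (st (i + 1)).θ)) :=
    sum_le_sum fun g _ => by linarith [h3 g]
  rw [sum_add_distrib, sum_add_distrib] at h4
  have h5 : ∑ g ∈ (st (i + 1)).G \ (st i).G, (P (TT g (st (i + 1)).K) - atom P g) ≤ η := by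
    refine (sum_le_sum_of_subset_of_nonneg sdiff_subset fun g _ _ => ?_).trans
      ((h.good (i + 1)).S5 (cut st c i) ?_)
    · exact sub_nonneg.mpr (hSA.atom_le g _)
    · rw [← hcut]
      exact cut_sub st c (i + 1)
  have h6 : ∑ g ∈ (st (i + 1)).G \ (st i).G, atom P g ≤ η :=
    (h.good i).S3 (cut st c i) (cut_sub st c i) _ sdiff_disjoint
  have h7 : ∑ _g ∈ (st (i + 1)).G \ (st i).G, (st (i + 1)).θ ≤ η := by
    rw [sum_const, nsmul_eq_mul]
    have h8 : (#((st (i + 1)).G \ (st i).G) : ℝ) ≤ 2 ^ (st (i + 1)).K := by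
      have := (card_le_card (sdiff_subset (s := (st (i + 1)).G) (t := (st i).G))).trans
        (h.card_G (i + 1))
      exact_mod_cast this
    exact (mul_le_mul_of_nonneg_right h8 (h.θ_pos _).le).trans (h.θ_small2 (i + 1))
  linarith

theorem bound_A5 (h : Seqn p k H η st) (hη : 0 ≤ η) (hc : Adm k st c) (hi : i ≤ 2 * k)
    (hm : (st (i + 1)).mu ∉ c) (F : Finset Seg) (hF : DF F) (pc : Seg → Seg)
    (hs : ∀ S ∈ F, (pc S).Sub S) (hR : ∀ S ∈ F, A5 k st L i S (pc S)) :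
    ∑ S ∈ F, |sg (H c) (pc S)| ^ p ≤ 3 * η := by
  classical
  have h1 : ∀ S : Seg, ∃ x : Br × ℕ, S ∈ F →
      x ∈ (st i).G ×ˢ Ico (st i).K (Lv k st L (i + 1)) ∧
      (pc S).In (TT (flp x.1 x.2) (x.2 + 1)) := by
    intro S
    by_cases hS : S ∈ F
    · obtain ⟨g, hg1, m, hm1, hm2, hm3⟩ := hR S hS
      exact ⟨(g, m), fun _ => ⟨mem_product.mpr ⟨hg1, mem_Ico.mpr ⟨hm1, hm2⟩⟩, hm3⟩⟩
    · exact ⟨(fun _ => true, 0), fun h' => absurd h' hS⟩
  choose f hf using h1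
  have h2 := pieces_cover hp (hH c) F pc
    (fun S hS T hT hne => (hF S hS T hT hne).sub (hs S hS) (hs T hT))
    ((st i).G ×ˢ Ico (st i).K (Lv k st L (i + 1))) (fun x => TT (flp x.1 x.2) (x.2 + 1)) f
    (fun S hS => (hf S hS).1) (fun S hS => (hf S hS).2)
  rw [sum_product] at h2
  have hcut := cut_succ_not h hc.inS hm
  rcases Nat.lt_or_ge i (2 * k) with hik | hik
  · rw [Lv_le (show i + 1 ≤ 2 * k by omega)] at h2
    have h3 : ∀ g, ∀ m ∈ Ico (st i).K (st (i + 1)).K, QQ p (H c) (TT (flp g m) (m + 1))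
        ≤ PA p k H (cut st c i) (TT (flp g m) (m + 1)) + (st (i + 1)).θ := by
      intro g m hm'
      rw [mem_Ico] at hm'
      have h4 := hc.QQ_le h (i := i + 1) (by omega)
        ((h.good (i + 1)).F1 (flp g m) (m + 1) (by omega))
      rwa [hcut] at h4
    have h4 : ∑ g ∈ (st i).G, ∑ m ∈ Ico (st i).K (st (i + 1)).K,
        QQ p (H c) (TT (flp g m) (m + 1)) ≤ ∑ g ∈ (st i).G,
        ∑ m ∈ Ico (st i).K (st (i + 1)).K, (PA p k H (cut st c i) (TT (flp g m) (m + 1))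
          + (st (i + 1)).θ) :=
      sum_le_sum fun g _ => sum_le_sum fun m hm' => h3 g m hm'
    simp only [sum_add_distrib] at h4
    have h5 := (h.good i).S2 (cut st c i) (cut_sub st c i) (st (i + 1)).K
    have h6 : ∑ _g ∈ (st i).G, ∑ _m ∈ Ico (st i).K (st (i + 1)).K, (st (i + 1)).θ ≤ η := by
      rw [sum_const, sum_const, nsmul_eq_mul, nsmul_eq_mul, Nat.card_Ico, ← mul_assoc]
      have h7 : (#(st i).G : ℝ) ≤ 2 ^ (st (i + 1)).K := by
        have := (card_le_card (h.G_sub (Nat.le_succ i))).trans (h.card_G (i + 1))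
        exact_mod_cast this
      have h8 : (((st (i + 1)).K - (st i).K : ℕ) : ℝ) ≤ 2 ^ (st (i + 1)).K := by
        have := (Nat.sub_le (st (i + 1)).K (st i).K).trans (Nat.lt_two_pow_self).le
        exact_mod_cast this
      have h9 : (#(st i).G : ℝ) * (((st (i + 1)).K - (st i).K : ℕ) : ℝ) ≤ 4 ^ (st (i + 1)).K := by
        calc (#(st i).G : ℝ) * (((st (i + 1)).K - (st i).K : ℕ) : ℝ)
            ≤ 2 ^ (st (i + 1)).K * 2 ^ (st (i + 1)).K :=
              mul_le_mul h7 h8 (Nat.cast_nonneg _) (by positivity)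
          _ = 4 ^ (st (i + 1)).K := by rw [← mul_pow]; norm_num
      exact (mul_le_mul_of_nonneg_right h9 (h.θ_pos _).le).trans (h.good (i + 1)).small
    linarith
  · have h3 : i = 2 * k := le_antisymm hi hik
    subst h3
    have h5 := (h.good (2 * k)).S2 c (by
      have := cut_sub st c (2 * k)
      rwa [hc.cut_full h] at this) (Lv k st L (2 * k + 1))
    simp only [hc.PA_full] at h5
    linarith

theorem bound_A7 (h : Seqn p k H η st) (hη : 0 ≤ η) (hc : Adm k st c)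
    (F : Finset Seg) (hF : DF F) (pc : Seg → Seg)
    (hs : ∀ S ∈ F, (pc S).Sub S) (hR : ∀ S ∈ F, A7 k st i S (pc S)) :
    ∑ S ∈ F, |sg (H c) (pc S)| ^ p ≤ 3 * η := by
  classical
  by_cases hi : i + 1 ≤ 2 * k
  swap
  · have : F = ∅ := eq_empty_of_forall_notMem fun S hS => hi (hR S hS).1
    rw [this, sum_empty]
    positivity
  have h2 := pieces_cover hp (hH c) F pc
    (fun S hS T hT hne => (hF S hS T hT hne).sub (hs S hS) (hs T hT))
    F (fun S => TT S.g (st (i + 1)).K) id (fun S hS => hS) (fun S hS => (hR S hS).2.2.2.2)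
  have h3 : ∀ S ∈ F, QQ p (H c) (TT S.g (st (i + 1)).K) ≤ η / 2 ^ (st i).K + (st (i + 1)).θ := by
    intro S hS
    have h4 := hc.QQ_le h hi ((h.good (i + 1)).F1 S.g (st (i + 1)).K le_rfl)
    have h5 : PA p k H (cut st c (i + 1)) (TT S.g (st (i + 1)).K) < η / 2 ^ (st i).K := by
      by_contra hcon
      obtain ⟨g, hg1, hg2⟩ := (h.lk i (i + 1) (Nat.lt_succ_self i)).S4 (cut st c (i + 1))
        (cut_sub st c _) S.g (not_lt.mp hcon)
      exact (hR S hS).2.2.2.1 g hg1 hg2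
    linarith
  have h4 : #F ≤ 2 ^ (st i).K := by
    refine card_le_pow F Seg.g _ fun S hS T hT hne => ?_
    exact hF S hS T hT hne (st i).K (hR S hS).2.1 (hR S hS).2.2.1 (hR T hT).2.1
      (hR T hT).2.2.1
  have h5 : (#F : ℝ) ≤ 2 ^ (st i).K := by exact_mod_cast h4
  calc ∑ S ∈ F, |sg (H c) (pc S)| ^ p ≤ ∑ S ∈ F, QQ p (H c) (TT S.g (st (i + 1)).K) := h2
    _ ≤ ∑ S ∈ F, (η / 2 ^ (st i).K + (st (i + 1)).θ) := sum_le_sum h3
    _ = #F * (η / 2 ^ (st i).K + (st (i + 1)).θ) := by rw [sum_const, nsmul_eq_mul]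
    _ ≤ 2 ^ (st i).K * (η / 2 ^ (st i).K + (st (i + 1)).θ) := by
        refine mul_le_mul_of_nonneg_right h5 ?_
        have := h.θ_pos (i + 1)
        positivity
    _ = η + 2 ^ (st i).K * (st (i + 1)).θ := by field_simp
    _ ≤ 3 * η := by
        have h6 : (2 : ℝ) ^ (st i).K ≤ 2 ^ (st (i + 1)).K :=
          pow_le_pow_right₀ (by norm_num) (h.K_lt (Nat.lt_succ_self i)).le
        have h7 := h.θ_small2 (i + 1)
        have h8 := mul_le_mul_of_nonneg_right h6 (h.θ_pos (i + 1)).le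
        linarith

end Pool.Agent.Helper52.JamesTree
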