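import Mathlib
import Pool.Agent.Helper52.JtPieces

set_option autoImplicit false

open Finset Filter Topology

namespace Pool.Agent.Helper52.JamesTree

variable {p : ℝ} {k : ℕ} {H : Finset ℕ → Br → ℕ → ℝ} {η C B : ℝ} {st : ℕ → State}

theorem rpow_sum_le {ι : Type} (hp : 1 ≤ p) (s : Finset ι) (f : ι → ℝ) (N : ℕ) (hN : #s ≤ N)
    (hs : 1 ≤ N) : |∑ i ∈ s, f i| ^ p ≤ (N : ℝ) ^ p * ∑ i ∈ s, |f i| ^ p := by
  have h0 : (0 : ℝ) ≤ ∑ i ∈ s, |f i| ^ p := sum_nonneg fun i _ => Real.rpow_nonneg (abs_nonneg _) _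
  have hN1 : (1 : ℝ) ≤ N := by exact_mod_cast hs
  calc |∑ i ∈ s, f i| ^ p ≤ (∑ i ∈ s, |f i|) ^ p :=
        Real.rpow_le_rpow (abs_nonneg _) (abs_sum_le_sum_abs _ _) (by linarith)
    _ ≤ (#s : ℝ) ^ (p - 1) * ∑ i ∈ s, |f i| ^ p := Real.rpow_sum_le_const_mul_sum_rpow s f hp
    _ ≤ (N : ℝ) ^ p * ∑ i ∈ s, |f i| ^ p := by
        refine mul_le_mul_of_nonneg_right ?_ h0
        calc (#s : ℝ) ^ (p - 1) ≤ (N : ℝ) ^ (p - 1) :=
              Real.rpow_le_rpow (Nat.cast_nonneg _) (by exact_mod_cast hN) (by linarith)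
          _ ≤ (N : ℝ) ^ p := Real.rpow_le_rpow_of_exponent_le hN1 (by linarith)

theorem rpow_add2 (hp : 1 ≤ p) (x y : ℝ) : |x + y| ^ p ≤ 2 ^ p * (|x| ^ p + |y| ^ p) := by
  have h := rpow_sum_le hp (univ : Finset (Fin 2)) ![x, y] 2 (by simp) (by norm_num)
  simpa [Fin.sum_univ_two] using h

theorem rpow_add3 (hp : 1 ≤ p) (x y z : ℝ) :
    |x + y + z| ^ p ≤ 3 ^ p * (|x| ^ p + |y| ^ p + |z| ^ p) := by
  have h := rpow_sum_le hp (univ : Finset (Fin 3)) ![x, y, z] 3 (by simp) (by norm_num)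
  simpa [Fin.sum_univ_three] using h

theorem rpow_add5 (hp : 1 ≤ p) (x y z u v : ℝ) :
    |x + y + z + u + v| ^ p ≤ 5 ^ p * (|x| ^ p + |y| ^ p + |z| ^ p + |u| ^ p + |v| ^ p) := by
  have h := rpow_sum_le hp (univ : Finset (Fin 5)) ![x, y, z, u, v] 5 (by simp) (by norm_num)
  simpa [Fin.sum_univ_five] using h

theorem sg_sub (G G' : Br → ℕ → ℝ) (S : Seg) : sg (G - G') S = sg G S - sg G' S := by
  unfold sg
  simp only [Pi.sub_apply]
  ring

/-- The odd points. -/
def cO (k : ℕ) (st : ℕ → State) : Finset ℕ := (range k).image fun l => (st (2 * l + 1)).mu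

/-- The even points. -/
def cE (k : ℕ) (st : ℕ → State) : Finset ℕ := (range k).image fun l => (st (2 * l + 2)).mu

/-- The odd points with one of them moved up. -/
def cO' (k : ℕ) (st : ℕ → State) (l : ℕ) : Finset ℕ :=
  insert (st (2 * l + 2)).mu ((cO k st).erase (st (2 * l + 1)).mu)

/-- The even points with one of them moved down. -/
def cE' (k : ℕ) (st : ℕ → State) (l : ℕ) : Finset ℕ :=
  insert (st (2 * l + 1)).mu ((cE k st).erase (st (2 * l + 2)).mu)

theorem mem_cO (h : Seqn p k H η st) {j : ℕ} : (st j).mu ∈ cO k st ↔ ∃ l, l < k ∧ j = 2 * l + 1 := by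
  unfold cO
  rw [mem_image]
  constructor
  · rintro ⟨l, hl, he⟩
    exact ⟨l, mem_range.mp hl, (h.mu_inj he).symm⟩
  · rintro ⟨l, hl, rfl⟩
    exact ⟨l, mem_range.mpr hl, rfl⟩

theorem mem_cE (h : Seqn p k H η st) {j : ℕ} : (st j).mu ∈ cE k st ↔ ∃ l, l < k ∧ j = 2 * l + 2 := by
  unfold cE
  rw [mem_image]
  constructor
  · rintro ⟨l, hl, he⟩
    exact ⟨l, mem_range.mp hl, (h.mu_inj he).symm⟩
  · rintro ⟨l, hl, rfl⟩
    exact ⟨l, mem_range.mpr hl, rfl⟩

theorem adm_cO (h : Seqn p k H η st) : Adm k st (cO k st) where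
  card := by
    unfold cO
    rw [card_image_of_injective, card_range]
    intro a b hab
    have := h.mu_inj hab
    omega
  mem x hx := by
    unfold cO at hx
    rw [mem_image] at hx
    obtain ⟨l, hl, rfl⟩ := hx
    rw [mem_range] at hl
    exact ⟨2 * l + 1, by omega, by omega, rfl⟩

theorem adm_cE (h : Seqn p k H η st) : Adm k st (cE k st) where
  card := by
    unfold cE
    rw [card_image_of_injective, card_range]
    intro a b hab
    have := h.mu_inj hab
    omega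
  mem x hx := by
    unfold cE at hx
    rw [mem_image] at hx
    obtain ⟨l, hl, rfl⟩ := hx
    rw [mem_range] at hl
    exact ⟨2 * l + 2, by omega, by omega, rfl⟩

theorem adm_swap (_h : Seqn p k H η st) {c : Finset ℕ} (hc : Adm k st c) {i j : ℕ}
    (hi : (st i).mu ∈ c) (hj : (st j).mu ∉ c) (hj1 : 1 ≤ j) (hj2 : j ≤ 2 * k) :
    Adm k st (insert (st j).mu (c.erase (st i).mu)) where
  card := by
    rw [card_insert_of_notMem fun h' => hj (mem_of_mem_erase h'), card_erase_add_one hi, hc.card]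
  mem x hx := by
    rcases mem_insert.mp hx with rfl | hx
    · exact ⟨j, hj1, hj2, rfl⟩
    · exact hc.mem x (mem_of_mem_erase hx)

theorem adm_cO' (h : Seqn p k H η st) {l : ℕ} (hl : l < k) : Adm k st (cO' k st l) := by
  refine adm_swap h (adm_cO h) ((mem_cO h).mpr ⟨l, hl, rfl⟩) (fun h' => ?_) (by omega) (by omega)
  obtain ⟨l', _, h1⟩ := (mem_cO h).mp h'
  omega

theorem adm_cE' (h : Seqn p k H η st) {l : ℕ} (hl : l < k) : Adm k st (cE' k st l) := by
  refine adm_swap h (adm_cE h) ((mem_cE h).mpr ⟨l, hl, rfl⟩) (fun h' => ?_) (by omega) (by omega)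
  obtain ⟨l', _, h1⟩ := (mem_cE h).mp h'
  omega

theorem notMem_cO' (h : Seqn p k H η st) (l : ℕ) : (st (2 * l + 1)).mu ∉ cO' k st l := by
  intro h'
  rcases mem_insert.mp h' with h1 | h1
  · have := h.mu_inj h1
    omega
  · exact (mem_erase.mp h1).1 rfl

theorem notMem_cE' (h : Seqn p k H η st) (l : ℕ) : (st (2 * l + 2)).mu ∉ cE' k st l := by
  intro h'
  rcases mem_insert.mp h' with h1 | h1
  · have := h.mu_inj h1
    omega
  · exact (mem_erase.mp h1).1 rfl

/-- Comparison data. -/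
structure Cmp (p : ℝ) (k : ℕ) (H : Finset ℕ → Br → ℕ → ℝ) (st : ℕ → State) (Λ : ℕ → ℝ) : Prop where
  odd : ∀ l, l < k → BV p (H (cO k st) - H (cO' k st l)) (Λ l)
  even : ∀ l, l < k → BV p (H (cE' k st l) - H (cE k st)) (Λ l)

theorem sum_half (Λ : ℕ → ℝ) (k : ℕ) :
    ∑ i ∈ range (2 * k), Λ (i / 2) = 2 * ∑ l ∈ range k, Λ l := by
  induction k with
  | zero => simp
  | succ k ih =>
    have h1 : 2 * (k + 1) = 2 * k + 1 + 1 := by ring
    rw [h1, sum_range_succ, sum_range_succ, ih, sum_range_succ]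
    have h2 : 2 * k / 2 = k := by omega
    have h3 : (2 * k + 1) / 2 = k := by omega
    rw [h2, h3]
    ring

/-- Bounds for attached pieces at one index. -/
theorem CL_one (hp : 1 ≤ p) (h : Seqn p k H η st) {Λ : ℕ → ℝ} (hΛ : Cmp p k H st Λ)
    {i : ℕ} (hi : i ≤ 2 * k) (F : Finset Seg) (hF : DF F) (pc : Seg → Seg)
    (hs : ∀ S ∈ F, (pc S).Sub S) (E : ℝ)
    (hR : ∀ c, Adm k st c → (st (i + 1)).mu ∉ c → ∑ S ∈ F, |sg (H c) (pc S)| ^ p ≤ E) :
    ∑ S ∈ F, |sg (H (cO k st) - H (cE k st)) (pc S)| ^ p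
      ≤ 3 ^ p * ((if i < 2 * k then Λ (i / 2) else 0) + 2 * E) := by
  have hp0 : p ≠ 0 := by linarith
  have h3 : (0 : ℝ) ≤ 3 ^ p := by positivity
  have hpd := fun S hS T hT hne => (hF S hS T hT hne).sub (hs S hS) (hs T hT)
  have gen : ∀ (X Y Z : Br → ℕ → ℝ) (lam : ℝ), BV p X lam →
      ∑ S ∈ F, |sg Y (pc S)| ^ p ≤ E → ∑ S ∈ F, |sg Z (pc S)| ^ p ≤ E →
      (∀ T : Seg, sg (H (cO k st) - H (cE k st)) T = sg X T + sg Y T + -sg Z T) →
      ∑ S ∈ F, |sg (H (cO k st) - H (cE k st)) (pc S)| ^ p ≤ 3 ^ p * (lam + 2 * E) := by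
    intro X Y Z lam hX hY hZ he
    calc ∑ S ∈ F, |sg (H (cO k st) - H (cE k st)) (pc S)| ^ p
        ≤ ∑ S ∈ F, 3 ^ p * (|sg X (pc S)| ^ p + |sg Y (pc S)| ^ p + |sg Z (pc S)| ^ p) := by
          refine sum_le_sum fun S _ => ?_
          rw [he, ← abs_neg (sg Z (pc S))]
          exact rpow_add3 hp _ _ _
      _ = 3 ^ p * (∑ S ∈ F, |sg X (pc S)| ^ p + ∑ S ∈ F, |sg Y (pc S)| ^ p
          + ∑ S ∈ F, |sg Z (pc S)| ^ p) := by
          rw [← mul_sum, sum_add_distrib, sum_add_distrib]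
      _ ≤ 3 ^ p * (lam + 2 * E) := by
          refine mul_le_mul_of_nonneg_left ?_ h3
          have h4 : ∑ S ∈ F, |sg X (pc S)| ^ p ≤ lam :=
            (pieces_le hp0 hX F pc hpd (A := Set.univ) fun _ _ _ _ _ => Set.mem_univ _).trans
              (QQ_le_C hX _)
          linarith
  rcases Nat.lt_or_ge i (2 * k) with hik | hik
  · rw [if_pos hik]
    rcases Nat.even_or_odd' i with ⟨l, hl | hl⟩
    · have hlk : l < k := by omega
      have h4 : i / 2 = l := by omega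
      rw [h4]
      refine gen (H (cO k st) - H (cO' k st l)) (H (cO' k st l)) (H (cE k st)) (Λ l)
        (hΛ.odd l hlk) (hR _ (adm_cO' h hlk) ?_) (hR _ (adm_cE h) ?_) fun T => ?_
      · rw [hl]
        exact notMem_cO' h l
      · rw [hl]
        intro h'
        obtain ⟨l', _, h1⟩ := (mem_cE h).mp h'
        omega
      · rw [sg_sub, sg_sub]
        ring
    · have hlk : l < k := by omega
      have h4 : i / 2 = l := by omega
      rw [h4]
      refine gen (H (cE' k st l) - H (cE k st)) (H (cO k st)) (H (cE' k st l)) (Λ l)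
        (hΛ.even l hlk) (hR _ (adm_cO h) ?_) (hR _ (adm_cE' h hlk) ?_) fun T => ?_
      · rw [hl]
        intro h'
        obtain ⟨l', _, h1⟩ := (mem_cO h).mp h'
        omega
      · rw [hl]
        exact notMem_cE' h l
      · rw [sg_sub, sg_sub]
        ring
  · rw [if_neg (by omega)]
    refine gen 0 (H (cO k st)) (H (cE k st)) 0 ?_ (hR _ (adm_cO h) ?_) (hR _ (adm_cE h) ?_)
      fun T => ?_
    · intro F' _
      refine le_of_eq (sum_eq_zero fun S _ => ?_)
      unfold sg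
      simp [Real.zero_rpow hp0]
    · intro h'
      obtain ⟨l', _, h1⟩ := (mem_cO h).mp h'
      omega
    · intro h'
      obtain ⟨l', _, h1⟩ := (mem_cE h).mp h'
      omega
    · rw [sg_sub]
      have : sg 0 T = 0 := by unfold sg; simp
      rw [this]
      ring

/-- Attached pieces. -/
def Att (k : ℕ) (st : ℕ → State) (L i : ℕ) (S T : Seg) : Prop :=
  A1 k st L i S T ∨ A3 k st i S T ∨ A5 k st L i S T ∨ A7 k st i S T

theorem bound_Att {L i : ℕ} {c : Finset ℕ} (hp : p ≠ 0) (hH : ∀ c, BV p (H c) C)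
    (h : Seqn p k H η st) (hη : 0 ≤ η)
    (hc : Adm k st c) (hi : i ≤ 2 * k) (hm : (st (i + 1)).mu ∉ c) (F : Finset Seg) (hF : DF F)
    (pc : Seg → Seg) (hs : ∀ S ∈ F, (pc S).Sub S) (hR : ∀ S ∈ F, Att k st L i S (pc S)) :
    ∑ S ∈ F, |sg (H c) (pc S)| ^ p ≤ 12 * η := by
  classical
  have key : ∀ R : Seg → Seg → Prop, (∀ F : Finset Seg, DF F → (∀ S ∈ F, (pc S).Sub S) →
      (∀ S ∈ F, R S (pc S)) → ∑ S ∈ F, |sg (H c) (pc S)| ^ p ≤ 3 * η) →
      ∑ S ∈ F.filter (fun S => R S (pc S)), |sg (H c) (pc S)| ^ p ≤ 3 * η := by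
    intro R hR'
    exact hR' _ (hF.subset (filter_subset _ _)) (fun S hS => hs S (mem_filter.mp hS).1)
      fun S hS => (mem_filter.mp hS).2
  have k1 := key (A1 k st L i) fun F hF hs hR => bound_A1 hp hH h hη hc hi hm F hF pc hs hR
  have k3 := key (A3 k st i) fun F hF hs hR => bound_A3 hp hH h hη hc hm F hF pc hs hR
  have k5 := key (A5 k st L i) fun F hF hs hR => bound_A5 hp hH h hη hc hi hm F hF pc hs hR
  have k7 := key (A7 k st i) fun F hF hs hR => bound_A7 hp hH h hη hc F hF pc hs hR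
  rw [sum_filter] at k1 k3 k5 k7
  have hsum : ∑ S ∈ F, |sg (H c) (pc S)| ^ p ≤
      ∑ S ∈ F, ((if A1 k st L i S (pc S) then |sg (H c) (pc S)| ^ p else 0) +
      (if A3 k st i S (pc S) then |sg (H c) (pc S)| ^ p else 0) +
      (if A5 k st L i S (pc S) then |sg (H c) (pc S)| ^ p else 0) +
      (if A7 k st i S (pc S) then |sg (H c) (pc S)| ^ p else 0)) := by
    refine sum_le_sum fun S hS => ?_
    have h0 : 0 ≤ |sg (H c) (pc S)| ^ p := Real.rpow_nonneg (abs_nonneg _) _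
    have e1 : 0 ≤ (if A1 k st L i S (pc S) then |sg (H c) (pc S)| ^ p else 0) := by
      split_ifs <;> simp [h0]
    have e3 : 0 ≤ (if A3 k st i S (pc S) then |sg (H c) (pc S)| ^ p else 0) := by
      split_ifs <;> simp [h0]
    have e5 : 0 ≤ (if A5 k st L i S (pc S) then |sg (H c) (pc S)| ^ p else 0) := by
      split_ifs <;> simp [h0]
    have e7 : 0 ≤ (if A7 k st i S (pc S) then |sg (H c) (pc S)| ^ p else 0) := by
      split_ifs <;> simp [h0]
    rcases hR S hS with h' | h' | h' | h'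
    · rw [if_pos h'] at e1 ⊢
      linarith
    · rw [if_pos h'] at e3 ⊢
      linarith
    · rw [if_pos h'] at e5 ⊢
      linarith
    · rw [if_pos h'] at e7 ⊢
      linarith
  rw [sum_add_distrib, sum_add_distrib, sum_add_distrib] at hsum
  linarith

/-- The total of all attached pieces. -/
theorem CL {L : ℕ} (hp : 1 ≤ p) (hH : ∀ c, BV p (H c) C) (h : Seqn p k H η st) (hη : 0 ≤ η)
    {Λ : ℕ → ℝ} (hΛ : Cmp p k H st Λ) (F : Finset Seg) (hF : DF F) (pc : Seg → Seg)
    (hs : ∀ S ∈ F, (pc S).Sub S) (hR : ∀ S ∈ F, ∃ i, i ≤ 2 * k ∧ Att k st L i S (pc S)) :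
    ∑ S ∈ F, |sg (H (cO k st) - H (cE k st)) (pc S)| ^ p
      ≤ 3 ^ p * (2 * ∑ l ∈ range k, Λ l + (2 * k + 1) * (24 * η)) := by
  classical
  have hp0 : p ≠ 0 := by linarith
  have h1 : ∀ S : Seg, ∃ i, S ∈ F → i ∈ range (2 * k + 1) ∧ Att k st L i S (pc S) := by
    intro S
    by_cases hS : S ∈ F
    · obtain ⟨i, hi, hA⟩ := hR S hS
      exact ⟨i, fun _ => ⟨mem_range.mpr (by omega), hA⟩⟩
    · exact ⟨0, fun h' => absurd h' hS⟩
  choose f hf using h1
  rw [← sum_fiberwise_of_maps_to fun S hS => (hf S hS).1]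
  calc ∑ i ∈ range (2 * k + 1), ∑ S ∈ F.filter (fun S => f S = i),
        |sg (H (cO k st) - H (cE k st)) (pc S)| ^ p
      ≤ ∑ i ∈ range (2 * k + 1),
        3 ^ p * ((if i < 2 * k then Λ (i / 2) else 0) + 2 * (12 * η)) := by
        refine sum_le_sum fun i hi => ?_
        have hi' : i ≤ 2 * k := by
          rw [mem_range] at hi
          omega
        refine CL_one hp h hΛ hi' _ (hF.subset (filter_subset _ _)) pc
          (fun S hS => hs S (mem_filter.mp hS).1) _ fun c hc hm => ?_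
        refine bound_Att (L := L) hp0 hH h hη hc hi' hm _ (hF.subset (filter_subset _ _)) pc
          (fun S hS => hs S (mem_filter.mp hS).1) fun S hS => ?_
        rw [mem_filter] at hS
        rw [← hS.2]
        exact (hf S hS.1).2
    _ = 3 ^ p * (2 * ∑ l ∈ range k, Λ l + (2 * k + 1) * (24 * η)) := by
        rw [← mul_sum, sum_add_distrib, sum_const, card_range, nsmul_eq_mul, sum_range_succ,
          if_neg (lt_irrefl _), add_zero]
        have h2 : ∑ i ∈ range (2 * k), (if i < 2 * k then Λ (i / 2) else 0)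
            = ∑ i ∈ range (2 * k), Λ (i / 2) :=
          sum_congr rfl fun i hi => if_pos (mem_range.mp hi)
        rw [h2, sum_half]
        push_cast
        ring

end Pool.Agent.Helper52.JamesTree
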