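import Mathlib
import Pool.Agent.Helper52.JtCL

set_option autoImplicit false

open Finset Filter Topology

namespace Pool.Agent.Helper52.JamesTree

variable {p : ℝ} {k : ℕ} {H : Finset ℕ → Br → ℕ → ℝ} {η C B : ℝ} {st : ℕ → State}

/-- The difference of the two values. -/
noncomputable def DD (k : ℕ) (H : Finset ℕ → Br → ℕ → ℝ) (st : ℕ → State) : Br → ℕ → ℝ :=
  H (cO k st) - H (cE k st)

theorem base_approx (h : Seqn p k H η st) {c : Finset ℕ} (hc : Adm k st c) (g : Br) {m : ℕ}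
    (hm : m ≤ (st 0).K) : |Lm (fun c => H c g m) k ∅ - H c g m| ≤ (st 0).θ := by
  have h1 := hc.walk h (i := 0) (Nat.zero_le _) ((h.good 0).F3 g m hm)
  rwa [cut_zero h hc.inS, card_empty, Nat.sub_zero] at h1

theorem base_diff (h : Seqn p k H η st) {c c' : Finset ℕ} (hc : Adm k st c) (hc' : Adm k st c')
    (g : Br) {m : ℕ} (hm : m ≤ (st 0).K) : |H c g m - H c' g m| ≤ 2 * (st 0).θ := by
  have h1 := base_approx h hc g hm
  have h2 := base_approx h hc' g hm
  rw [abs_le] at h1 h2 ⊢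
  constructor <;> linarith [h1.1, h1.2, h2.1, h2.2]

theorem rpow_small (hp : 1 ≤ p) {θ : ℝ} (h0 : 0 ≤ θ) (h1 : θ ≤ 1) {N : ℝ} (hN : 0 ≤ N) :
    (N * θ) ^ p ≤ N ^ p * θ := by
  rw [Real.mul_rpow hN h0]
  refine mul_le_mul_of_nonneg_left ?_ (Real.rpow_nonneg hN _)
  calc θ ^ p ≤ θ ^ (1 : ℝ) := Real.rpow_le_rpow_of_exponent_ge' h0 h1 zero_le_one hp
    _ = θ := Real.rpow_one θ

/-- Pieces near the root. -/
theorem bound_A0 (hp : 1 ≤ p) (h : Seqn p k H η st) (hη1 : η ≤ 1)
    (F : Finset Seg) (hF : DF F) (pc : Seg → Seg)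
    (hs : ∀ S ∈ F, (pc S).Sub S) (hR : ∀ S ∈ F, (pc S).In (BL 0 (st 0).K)) :
    ∑ S ∈ F, |sg (DD k H st) (pc S)| ^ p ≤ 4 ^ p * η := by
  classical
  have hp0 : p ≠ 0 := by linarith
  have hθ0 := h.θ_pos 0
  have hθ1 : (st 0).θ ≤ 1 := (h.θ_small 0).trans hη1
  set F' := F.filter (fun S => (pc S).a < (pc S).b) with hF'
  have h1 : ∑ S ∈ F, |sg (DD k H st) (pc S)| ^ p = ∑ S ∈ F', |sg (DD k H st) (pc S)| ^ p := by
    symm
    refine sum_subset (filter_subset _ _) fun S hS hn => ?_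
    have h2 : (pc S).a = (pc S).b := by
      by_contra hne
      exact hn (mem_filter.mpr ⟨hS, lt_of_le_of_ne (pc S).hab hne⟩)
    rw [sg_empty h2, abs_zero, Real.zero_rpow hp0]
  have hb : ∀ S ∈ F', (pc S).b ≤ (st 0).K := by
    intro S hS
    rw [hF', mem_filter] at hS
    exact (hR S hS.1 (pc S).b hS.2 le_rfl).2
  have hcard : #F' ≤ ((st 0).K + 1) * 2 ^ (st 0).K := by
    rw [card_eq_sum_card_fiberwise (f := fun S => (pc S).b) (t := range ((st 0).K + 1))
      fun S hS => mem_coe.mpr (mem_range.mpr (Nat.lt_succ_of_le (hb S hS)))]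
    calc ∑ b ∈ range ((st 0).K + 1), #(F'.filter fun S => (pc S).b = b)
        ≤ ∑ _b ∈ range ((st 0).K + 1), 2 ^ (st 0).K := by
          refine sum_le_sum fun b hb' => ?_
          rw [mem_range] at hb'
          refine (card_le_pow _ Seg.g b fun S hS T hT hne hag => ?_).trans
            (Nat.pow_le_pow_right (by norm_num) (by omega))
          rw [mem_filter, hF', mem_filter] at hS hT
          have h2 := (hF S hS.1.1 T hT.1.1 hne).sub (hs S hS.1.1) (hs T hT.1.1)
          refine h2 b ?_ hS.2.ge ?_ hT.2.ge ?_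
          · rw [← hS.2]
            exact hS.1.2
          · rw [← hT.2]
            exact hT.1.2
          · rw [(hs S hS.1.1).1, (hs T hT.1.1).1]
            exact hag
      _ = ((st 0).K + 1) * 2 ^ (st 0).K := by
          rw [sum_const, card_range, smul_eq_mul]
  have hcard2 : (#F' : ℝ) ≤ 4 ^ (st 0).K := by
    have h2 : ((st 0).K + 1) * 2 ^ (st 0).K ≤ 4 ^ (st 0).K := by
      calc ((st 0).K + 1) * 2 ^ (st 0).K ≤ 2 ^ (st 0).K * 2 ^ (st 0).K :=
            Nat.mul_le_mul_right _ Nat.lt_two_pow_self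
        _ = 4 ^ (st 0).K := by rw [← mul_pow]; norm_num
    exact_mod_cast hcard.trans h2
  rw [h1]
  calc ∑ S ∈ F', |sg (DD k H st) (pc S)| ^ p ≤ ∑ _S ∈ F', 4 ^ p * (st 0).θ := by
        refine sum_le_sum fun S hS => ?_
        have h2 := base_diff h (adm_cO h) (adm_cE h) (pc S).g (hb S hS)
        have h3 := base_diff h (adm_cO h) (adm_cE h) (pc S).g ((pc S).hab.trans (hb S hS))
        have h4 : |sg (DD k H st) (pc S)| ≤ 4 * (st 0).θ := by
          have h5 : sg (DD k H st) (pc S) = (H (cO k st) (pc S).g (pc S).b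
              - H (cE k st) (pc S).g (pc S).b) - (H (cO k st) (pc S).g (pc S).a
              - H (cE k st) (pc S).g (pc S).a) := rfl
          rw [h5]
          refine (abs_sub _ _).trans ?_
          linarith
        exact (Real.rpow_le_rpow (abs_nonneg _) h4 (by linarith)).trans
          (rpow_small hp hθ0.le hθ1 (by norm_num))
    _ = #F' * (4 ^ p * (st 0).θ) := by rw [sum_const, nsmul_eq_mul]
    _ ≤ 4 ^ (st 0).K * (4 ^ p * (st 0).θ) :=
        mul_le_mul_of_nonneg_right hcard2 (by positivity)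
    _ = 4 ^ p * (4 ^ (st 0).K * (st 0).θ) := by ring
    _ ≤ 4 ^ p * η := mul_le_mul_of_nonneg_left (h.good 0).small (by positivity)

/-- Approximation on the first branches. -/
theorem branch_approx (h : Seqn p k H η st) {c : Finset ℕ} (hc : Adm k st c) {g : Br}
    (hg : g ∈ (st 0).G) {i : ℕ} (hi1 : 1 ≤ i) (hi2 : i ≤ 2 * k) :
    |H c g (st i).K - Lm (bv k H #(cut st c i) g) #(cut st c i) ∅| ≤ 3 * (st 0).θ := by
  have h1 := hc.walk h hi2 ((h.good i).F3 g (st i).K le_rfl)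
  have h2 := (h.lk 0 i (by omega)).D g hg (cut st c i) (cut_sub st c i) #(cut st c i)
    (hc.card_cut i)
  have h3 := walk h hc.inS ((h.good 0).F4 g hg #(cut st c i) (hc.card_cut i)) (hc.card_cut i) i
    (by rw [Nat.zero_add])
  rw [Nat.zero_add, cut_zero h hc.inS, card_empty, Nat.sub_zero, Nat.sub_self, Lm_zero] at h3
  have h4 := h.θ_le (Nat.zero_le i)
  have h5 := h.θ_pos i
  rw [abs_le] at h1 h2 h3 ⊢
  constructor <;> linarith [h1.1, h1.2, h2.1, h2.2, h3.1, h3.2]

theorem branch_diff (h : Seqn p k H η st) {c c' : Finset ℕ} (hc : Adm k st c)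
    (hc' : Adm k st c') {g : Br} (hg : g ∈ (st 0).G) {i : ℕ} (hi1 : 1 ≤ i) (hi2 : i ≤ 2 * k)
    (he : #(cut st c i) = #(cut st c' i)) :
    |H c g (st i).K - H c' g (st i).K| ≤ 6 * (st 0).θ := by
  have h1 := branch_approx h hc hg hi1 hi2
  have h2 := branch_approx h hc' hg hi1 hi2
  rw [← he] at h2
  rw [abs_le] at h1 h2 ⊢
  constructor <;> linarith [h1.1, h1.2, h2.1, h2.2]

theorem card_cut_cO (h : Seqn p k H η st) {l i : ℕ} (hl : l < k) (hi : i = 2 * l + 1 ∨ i = 2 * l + 2) :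
    #(cut st (cO k st) i) = l + 1 := by
  have h1 : cut st (cO k st) i = (range (l + 1)).image fun l => (st (2 * l + 1)).mu := by
    ext x
    unfold cut cO
    rw [mem_filter, mem_image, mem_image]
    constructor
    · rintro ⟨⟨l', hl', rfl⟩, hle⟩
      rw [h.mu_le_iff] at hle
      exact ⟨l', mem_range.mpr (by omega), rfl⟩
    · rintro ⟨l', hl', rfl⟩
      rw [mem_range] at hl'
      exact ⟨⟨l', mem_range.mpr (by omega), rfl⟩, h.mu_le_iff.mpr (by omega)⟩
  rw [h1, card_image_of_injective, card_range]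
  intro a b hab
  have := h.mu_inj hab
  omega

theorem card_cut_cE (h : Seqn p k H η st) {l i : ℕ} (hl : l ≤ k) (hi : i = 2 * l + 1 ∨ i = 2 * l) :
    #(cut st (cE k st) i) = l := by
  have h1 : cut st (cE k st) i = (range l).image fun l => (st (2 * l + 2)).mu := by
    ext x
    unfold cut cE
    rw [mem_filter, mem_image, mem_image]
    constructor
    · rintro ⟨⟨l', hl', rfl⟩, hle⟩
      rw [h.mu_le_iff] at hle
      exact ⟨l', mem_range.mpr (by omega), rfl⟩
    · rintro ⟨l', hl', rfl⟩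
      rw [mem_range] at hl'
      exact ⟨⟨l', mem_range.mpr (by omega), rfl⟩, h.mu_le_iff.mpr (by omega)⟩
  rw [h1, card_image_of_injective, card_range]
  intro a b hab
  have := h.mu_inj hab
  omega

theorem card_cut_cO' (h : Seqn p k H η st) {l : ℕ} (hl : l < k) :
    #(cut st (cO' k st l) (2 * l + 1)) = l := by
  have h1 : cut st (cO' k st l) (2 * l + 1)
      = (cut st (cO k st) (2 * l + 1)).erase (st (2 * l + 1)).mu := by
    ext x
    unfold cut cO'
    rw [mem_filter, mem_insert, mem_erase, mem_erase, mem_filter]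
    constructor
    · rintro ⟨rfl | h2, hle⟩
      · rw [h.mu_le_iff] at hle
        omega
      · exact ⟨h2.1, h2.2, hle⟩
    · rintro ⟨h2, h3, h4⟩
      exact ⟨Or.inr ⟨h2, h3⟩, h4⟩
  have h2 : (st (2 * l + 1)).mu ∈ cut st (cO k st) (2 * l + 1) :=
    mem_filter.mpr ⟨(mem_cO h).mpr ⟨l, hl, rfl⟩, le_rfl⟩
  have h3 := card_erase_add_one h2
  rw [card_cut_cO h hl (Or.inl rfl)] at h3
  rw [h1]
  omega

/-- Values of the difference on the first branches. -/
theorem bound_branch (hp : 1 ≤ p) (h : Seqn p k H η st) (hη1 : η ≤ 1) (hη : 0 ≤ η) {Λ : ℕ → ℝ}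
    (hΛ : Cmp p k H st Λ) {i : ℕ} (hi : i < 2 * k) :
    ∑ g ∈ (st 0).G, |DD k H st g (st (i + 1)).K| ^ p ≤ 2 ^ p * (Λ (i / 2) + 8 ^ p * η) := by
  classical
  have hp0 : p ≠ 0 := by linarith
  have hθ0 := h.θ_pos 0
  have hθ1 : (st 0).θ ≤ 1 := (h.θ_small 0).trans hη1
  have hcnt : ∀ N : ℝ, 0 ≤ N → ∑ _g ∈ (st 0).G, (N * (st 0).θ) ^ p ≤ N ^ p * η := by
    intro N hN
    rw [sum_const, nsmul_eq_mul]
    have h1 : (#(st 0).G : ℝ) ≤ 2 ^ (st 0).K := by exact_mod_cast h.card_G 0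
    calc (#(st 0).G : ℝ) * (N * (st 0).θ) ^ p ≤ 2 ^ (st 0).K * (N ^ p * (st 0).θ) :=
          mul_le_mul h1 (rpow_small hp hθ0.le hθ1 hN) (by positivity) (by positivity)
      _ = N ^ p * (2 ^ (st 0).K * (st 0).θ) := by ring
      _ ≤ N ^ p * η := mul_le_mul_of_nonneg_left (h.θ_small2 0) (by positivity)
  have h2p : (1 : ℝ) ≤ 2 ^ p := Real.one_le_rpow (by norm_num) (by linarith)
  have hΛ0 : ∀ l, l < k → 0 ≤ Λ l := fun l hl => (hΛ.odd l hl).nonneg
  rcases Nat.even_or_odd' i with ⟨l, hl | hl⟩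
  · have hlk : l < k := by omega
    have h4 : i / 2 = l := by omega
    rw [h4, hl]
    set X := H (cO k st) - H (cO' k st l) with hX
    have hval : ∀ g ∈ (st 0).G, |DD k H st g (st (2 * l + 1)).K| ^ p ≤
        2 ^ p * (|sg X ⟨g, (st 0).K, (st (2 * l + 1)).K, h.K_le (Nat.zero_le _)⟩| ^ p
          + (8 * (st 0).θ) ^ p) := by
      intro g hg
      have h5 := branch_diff h (adm_cO' h hlk) (adm_cE h) hg (i := 2 * l + 1) (by omega) (by omega)
        (by rw [card_cut_cO' h hlk, card_cut_cE h hlk.le (Or.inl rfl)])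
      have h6 := base_diff h (adm_cO h) (adm_cO' h hlk) g (le_refl (st 0).K)
      have h7 : DD k H st g (st (2 * l + 1)).K
          = sg X ⟨g, (st 0).K, (st (2 * l + 1)).K, h.K_le (Nat.zero_le _)⟩
            + ((H (cO k st) g (st 0).K - H (cO' k st l) g (st 0).K)
            + (H (cO' k st l) g (st (2 * l + 1)).K - H (cE k st) g (st (2 * l + 1)).K)) := by
        unfold DD sg
        rw [hX]
        simp only [Pi.sub_apply]
        ring
      rw [h7]
      refine (rpow_add2 hp _ _).trans (mul_le_mul_of_nonneg_left ?_ (by positivity))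
      refine add_le_add le_rfl (Real.rpow_le_rpow (abs_nonneg _) ?_ (by linarith))
      refine (abs_add_le _ _).trans ?_
      linarith
    refine (sum_le_sum hval).trans ?_
    rw [← mul_sum, sum_add_distrib]
    refine mul_le_mul_of_nonneg_left (add_le_add ?_ (hcnt 8 (by norm_num))) (by positivity)
    refine (pieces_le hp0 (hΛ.odd l hlk) (st 0).G
      (fun g => ⟨g, (st 0).K, (st (2 * l + 1)).K, h.K_le (Nat.zero_le _)⟩) ?_
      (A := Set.univ) fun _ _ _ _ _ => Set.mem_univ _).trans (QQ_le_C (hΛ.odd l hlk) _)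
    intro g hg g' hg' hne j h5 _ _ _ h6
    exact (h.good 0).S6 g hg g' hg' hne (h6.mono (le_of_lt h5))
  · have hlk : l < k := by omega
    have h4 : i / 2 = l := by omega
    rw [h4, hl]
    have hval : ∀ g ∈ (st 0).G, |DD k H st g (st (2 * l + 1 + 1)).K| ^ p ≤ (6 * (st 0).θ) ^ p := by
      intro g hg
      refine Real.rpow_le_rpow (abs_nonneg _) ?_ (by linarith)
      exact branch_diff h (adm_cO h) (adm_cE h) hg (i := 2 * l + 1 + 1) (by omega) (by omega)
        (by rw [card_cut_cO h hlk (Or.inr rfl), card_cut_cE h (show l + 1 ≤ k by omega)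
              (Or.inr (by ring))])
    refine (sum_le_sum hval).trans ((hcnt 6 (by norm_num)).trans ?_)
    have h6 : (6 : ℝ) ^ p ≤ 8 ^ p := Real.rpow_le_rpow (by norm_num) (by norm_num) (by linarith)
    have h7 : (6 : ℝ) ^ p * η ≤ 8 ^ p * η := mul_le_mul_of_nonneg_right h6 hη
    have h8 : (0 : ℝ) ≤ 8 ^ p * η := by positivity
    have h9 := hΛ0 l hlk
    nlinarith

/-- Long pieces on the first branches. -/
def AD (k : ℕ) (st : ℕ → State) (S T : Seg) : Prop :=
  ∃ g ∈ (st 0).G, ∃ i j, i < 2 * k ∧ j < 2 * k ∧ i ≤ j ∧ agree S.g g (st (j + 1)).K ∧ T.g = S.g ∧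
    T.a = (st (i + 1)).K ∧ T.b = (st (j + 1)).K ∧ S.a < (st (i + 1)).K ∧ (st (j + 1)).K ≤ S.b

theorem bound_AD (hp : 1 ≤ p) (hco : ∀ c g h m, agree g h m → H c g m = H c h m)
    (h : Seqn p k H η st) (hη1 : η ≤ 1) (hη : 0 ≤ η) {Λ : ℕ → ℝ}
    (hΛ : Cmp p k H st Λ) (F : Finset Seg) (hF : DF F) (pc : Seg → Seg)
    (hR : ∀ S ∈ F, AD k st S (pc S)) :
    ∑ S ∈ F, |sg (DD k H st) (pc S)| ^ p
      ≤ 2 ^ p * (2 * (2 ^ p * (2 * ∑ l ∈ range k, Λ l + 2 * k * (8 ^ p * η)))) := by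
  classical
  choose! g hg i j hi hj hij hag hTg hTa hTb hSa hSb using hR
  set D := DD k H st with hD
  have hDco : ∀ g h m, agree g h m → D g m = D h m := by
    intro g h m H'
    rw [hD]
    unfold DD
    simp only [Pi.sub_apply]
    rw [hco _ _ _ _ H', hco (cE k st) _ _ _ H']
  set V : ℝ := ∑ n ∈ range (2 * k), ∑ g ∈ (st 0).G, |D g (st (n + 1)).K| ^ p with hV
  have hVle : V ≤ 2 ^ p * (2 * ∑ l ∈ range k, Λ l + 2 * k * (8 ^ p * η)) := by
    calc V ≤ ∑ n ∈ range (2 * k), 2 ^ p * (Λ (n / 2) + 8 ^ p * η) :=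
          sum_le_sum fun n hn => bound_branch hp h hη1 hη hΛ (mem_range.mp hn)
      _ = 2 ^ p * (2 * ∑ l ∈ range k, Λ l + 2 * k * (8 ^ p * η)) := by
          rw [← mul_sum, sum_add_distrib, sum_half, sum_const, card_range, nsmul_eq_mul]
          push_cast
          ring
  have hin : ∀ f : Seg → ℕ, (∀ S ∈ F, f S < 2 * k) → (∀ S ∈ F, i S ≤ f S ∧ f S ≤ j S) →
      ∑ S ∈ F, |D (g S) (st (f S + 1)).K| ^ p ≤ V := by
    intro f hf1 hf2
    rw [hV, ← sum_product' (f := fun n g => |D g (st (n + 1)).K| ^ p)]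
    have hinj : Set.InjOn (fun S => (f S, g S)) (F : Set Seg) := by
      intro S hS T hT hST
      simp only [Prod.mk.injEq] at hST
      by_contra hne
      rw [mem_coe] at hS hT
      have e1 : S.a < (st (f S + 1)).K :=
        (hSa S hS).trans_le (h.K_le (by have := (hf2 S hS).1; omega))
      have e2 : (st (f S + 1)).K ≤ S.b :=
        (h.K_le (by have := (hf2 S hS).2; omega)).trans (hSb S hS)
      have e3 : T.a < (st (f S + 1)).K := by
        rw [hST.1]
        exact (hSa T hT).trans_le (h.K_le (by have := (hf2 T hT).1; omega))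
      have e4 : (st (f S + 1)).K ≤ T.b := by
        rw [hST.1]
        exact (h.K_le (by have := (hf2 T hT).2; omega)).trans (hSb T hT)
      refine hF S hS T hT hne (st (f S + 1)).K e1 e2 e3 e4 ?_
      have a1 := (hag S hS).mono (h.K_le (show f S + 1 ≤ j S + 1 by
        have := (hf2 S hS).2; omega))
      have a2 := (hag T hT).mono (h.K_le (show f S + 1 ≤ j T + 1 by
        have := (hf2 T hT).2; rw [hST.1]; omega))
      rw [← hST.2] at a2
      exact a1.trans a2.symm
    calc ∑ S ∈ F, |D (g S) (st (f S + 1)).K| ^ p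
        = ∑ x ∈ F.image (fun S => (f S, g S)), |D x.2 (st (x.1 + 1)).K| ^ p := by
          rw [sum_image hinj]
      _ ≤ ∑ x ∈ range (2 * k) ×ˢ (st 0).G, |D x.2 (st (x.1 + 1)).K| ^ p := by
          refine sum_le_sum_of_subset_of_nonneg ?_ fun _ _ _ => Real.rpow_nonneg (abs_nonneg _) _
          intro x hx
          rw [mem_image] at hx
          obtain ⟨S, hS, rfl⟩ := hx
          exact mem_product.mpr ⟨mem_range.mpr (hf1 S hS), hg S hS⟩
  have h1 := hin i hi fun S hS => ⟨le_rfl, hij S hS⟩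
  have h2 := hin j hj fun S hS => ⟨hij S hS, le_rfl⟩
  calc ∑ S ∈ F, |sg D (pc S)| ^ p
      ≤ ∑ S ∈ F, 2 ^ p * (|D (g S) (st (j S + 1)).K| ^ p + |D (g S) (st (i S + 1)).K| ^ p) := by
        refine sum_le_sum fun S hS => ?_
        have h3 : sg D (pc S) = D (g S) (st (j S + 1)).K + -D (g S) (st (i S + 1)).K := by
          unfold sg
          rw [hTg S hS, hTa S hS, hTb S hS, hDco _ _ _ (hag S hS),
            hDco _ _ _ ((hag S hS).mono (h.K_le (Nat.add_le_add_right (hij S hS) 1)))]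
          ring
        rw [h3, ← abs_neg (D (g S) (st (i S + 1)).K)]
        exact rpow_add2 hp _ _
    _ = 2 ^ p * (∑ S ∈ F, |D (g S) (st (j S + 1)).K| ^ p
        + ∑ S ∈ F, |D (g S) (st (i S + 1)).K| ^ p) := by
        rw [← mul_sum, sum_add_distrib]
    _ ≤ 2 ^ p * (2 * (2 ^ p * (2 * ∑ l ∈ range k, Λ l + 2 * k * (8 ^ p * η)))) := by
        refine mul_le_mul_of_nonneg_left ?_ (by positivity)
        linarith

end Pool.Agent.Helper52.JamesTree
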