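import Mathlib
import Pool.Agent.Helper52.JtSpec

set_option autoImplicit false

open Finset Filter Topology

namespace Pool.Agent.Helper52.JamesTree

variable {p : ℝ} {k : ℕ} {H : Finset ℕ → Br → ℕ → ℝ} {η C B : ℝ} {st : ℕ → State}

/-- Subsegment with given levels. -/
def sb (S : Seg) (c d : ℕ) : Seg := ⟨S.g, c, max c d, le_max_left _ _⟩

theorem sb_b (S : Seg) {c d : ℕ} (h : c ≤ d) : (sb S c d).b = d := max_eq_right h

theorem sb_sub (S : Seg) {c d : ℕ} (h1 : S.a ≤ c) (h3 : d ≤ S.b) : (sb S c d).Sub S := by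
  refine ⟨rfl, fun j hj1 hj2 => ?_⟩
  have hj1' : c < j := hj1
  have hj2' : j ≤ max c d := hj2
  rcases le_max_iff.mp hj2' with h | h <;> constructor <;> omega

theorem sb_in (S : Seg) {c d : ℕ} {A : NS} (h : ∀ j, c < j → j ≤ d → (S.g, j) ∈ A) :
    (sb S c d).In A := by
  intro j hj1 hj2
  have hj1' : c < j := hj1
  have hj2' : j ≤ max c d := hj2
  refine h j hj1' ?_
  rcases le_max_iff.mp hj2' with h | h <;> omega

/-- All kinds of pieces. -/
def Ty (k : ℕ) (st : ℕ → State) (L : ℕ) (S T : Seg) : Prop :=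
  T.In (BL 0 (st 0).K) ∨ (∃ i, i ≤ 2 * k ∧ Att k st L i S T) ∨ AD k st S T

theorem Ty_empty {L : ℕ} (S : Seg) {c d : ℕ} (h : d ≤ c) : Ty k st L S (sb S c d) :=
  Or.inl (sb_in S fun j h1 h2 => by omega)

theorem Ty_A1 {L i : ℕ} (hi : i ≤ 2 * k) (S : Seg) {c d : ℕ} (h1 : Lv k st L i ≤ c)
    (h2 : d ≤ Lv k st L (i + 1)) : Ty k st L S (sb S c d) :=
  Or.inr (Or.inl ⟨i, hi, Or.inl (sb_in S fun j h3 h4 => by
    change Lv k st L i < j ∧ j ≤ Lv k st L (i + 1)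
    omega)⟩)

theorem cut_exists (h : Seqn p k H η st) {L : ℕ} (hL : (st (2 * k)).K ≤ L) (S : Seg)
    (hS : S.a < S.b) (hSL : S.b ≤ L) :
    ∃ t1 t2 t3 t4, S.a ≤ t1 ∧ t1 ≤ t2 ∧ t2 ≤ t3 ∧ t3 ≤ t4 ∧ t4 ≤ S.b ∧
      Ty k st L S (sb S S.a t1) ∧ Ty k st L S (sb S t1 t2) ∧ Ty k st L S (sb S t2 t3) ∧
      Ty k st L S (sb S t3 t4) ∧ Ty k st L S (sb S t4 S.b) := by
  classical
  have hex : ∃ i, S.a < Lv k st L i := ⟨2 * k + 1, by
    rw [Lv_gt (by omega)]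
    omega⟩
  obtain ⟨α, hα, hαmin⟩ : ∃ α, S.a < Lv k st L α ∧ ∀ i, i < α → Lv k st L i ≤ S.a :=
    ⟨Nat.find hex, Nat.find_spec hex, fun i hi => not_lt.mp (Nat.find_min hex hi)⟩
  have hα2 : α ≤ 2 * k + 1 := by
    by_contra hcon
    have h1 := hαmin (2 * k + 1) (by omega)
    rw [Lv_gt (by omega)] at h1
    omega
  have hq1 : ∀ t, t ≤ Lv k st L α → Ty k st L S (sb S S.a t) := by
    intro t ht
    rcases Nat.eq_zero_or_pos α with h0 | h0
    · rw [h0, Lv_le (Nat.zero_le _)] at ht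
      exact Or.inl (sb_in S fun j h1 h2 => by
        change 0 < j ∧ j ≤ (st 0).K
        omega)
    · obtain ⟨α', rfl⟩ := Nat.exists_eq_succ_of_ne_zero h0.ne'
      exact Ty_A1 (i := α') (by omega) S (hαmin α' (Nat.lt_succ_self _)) ht
  rcases le_or_gt S.b (Lv k st L α) with hb1 | hb1
  · exact ⟨S.b, S.b, S.b, S.b, hS.le, le_rfl, le_rfl, le_rfl, le_rfl, hq1 _ hb1,
      Ty_empty S le_rfl, Ty_empty S le_rfl, Ty_empty S le_rfl, Ty_empty S le_rfl⟩
  have hα3 : α ≤ 2 * k := by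
    by_contra hcon
    rw [Lv_gt hcon] at hb1
    omega
  rw [Lv_le hα3] at hb1 hα
  have hq1' := hq1 (st α).K (by rw [Lv_le hα3])
  have hmono : (st α).K ≤ Lv k st L (α + 1) := by
    by_cases h1 : α + 1 ≤ 2 * k
    · rw [Lv_le h1]
      exact h.K_le (Nat.le_succ _)
    · rw [Lv_gt h1]
      exact (h.K_le hα3).trans hL
  have hq2 : ∀ t, t ≤ Lv k st L (α + 1) → Ty k st L S (sb S (st α).K t) := fun t ht =>
    Ty_A1 hα3 S (by rw [Lv_le hα3]) ht
  rcases le_or_gt S.b (Lv k st L (α + 1)) with hb2 | hb2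
  · exact ⟨(st α).K, S.b, S.b, S.b, hα.le, hb1.le, le_rfl, le_rfl, le_rfl, hq1',
      hq2 _ hb2, Ty_empty S le_rfl, Ty_empty S le_rfl, Ty_empty S le_rfl⟩
  have hα4 : α + 1 ≤ 2 * k := by
    by_contra hcon
    rw [Lv_gt hcon] at hb2
    omega
  rw [Lv_le hα4] at hb2
  have hK1 : (st α).K ≤ (st (α + 1)).K := h.K_le (Nat.le_succ _)
  have hq2' := hq2 (st (α + 1)).K (by rw [Lv_le hα4])
  by_cases hno : ∀ g ∈ (st (α + 1)).G, ¬ agree S.g g (st (α + 1)).K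
  · refine ⟨(st α).K, (st (α + 1)).K, S.b, S.b, hα.le, hK1, hb2.le, le_rfl, le_rfl, hq1', hq2',
      Or.inr (Or.inl ⟨α, hα3, Or.inr (Or.inr (Or.inr ⟨hα4, hα, hb1.le, hno, ?_⟩))⟩),
      Ty_empty S le_rfl, Ty_empty S le_rfl⟩
    exact sb_in S fun j h1 _ => ⟨h1.le, agree.refl _ _⟩
  push Not at hno
  obtain ⟨g, hg, hag⟩ := hno
  -- the last agreement
  obtain ⟨m, hm1, hm2, hm3, hm4⟩ : ∃ m, (st (α + 1)).K ≤ m ∧ m ≤ S.b ∧ agree S.g g m ∧
      (m < S.b → ¬ agree S.g g (m + 1)) := by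
    refine ⟨Nat.findGreatest (fun m => agree S.g g m) S.b,
      Nat.le_findGreatest hb2.le hag, Nat.findGreatest_le _,
      Nat.findGreatest_spec (P := fun m => agree S.g g m) hb2.le hag, fun hlt hag' => ?_⟩
    have := Nat.le_findGreatest (P := fun m => agree S.g g m) (show _ + 1 ≤ S.b by omega) hag'
    omega
  -- the block of the last agreement
  obtain ⟨n, hn1, hn2, hn3, hn4⟩ : ∃ n, α + 1 ≤ n ∧ n ≤ 2 * k ∧ (st n).K ≤ m ∧
      (n < 2 * k → m < (st (n + 1)).K) := by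
    refine ⟨Nat.findGreatest (fun n => (st n).K ≤ m) (2 * k),
      Nat.le_findGreatest hα4 hm1, Nat.findGreatest_le _,
      Nat.findGreatest_spec (P := fun n => (st n).K ≤ m) hα4 hm1, fun hlt => ?_⟩
    by_contra hcon
    have := Nat.le_findGreatest (P := fun n => (st n).K ≤ m)
      (show _ + 1 ≤ 2 * k by omega) (not_lt.mp hcon)
    omega
  have hnL : m ≤ Lv k st L (n + 1) := by
    by_cases h1 : n + 1 ≤ 2 * k
    · rw [Lv_le h1]
      exact (hn4 (by omega)).le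
    · rw [Lv_gt h1]
      omega
  have hq5 : Ty k st L S (sb S m S.b) := by
    rcases hm2.lt_or_eq with h1 | h1
    · refine Or.inr (Or.inl ⟨n, hn2, Or.inr (Or.inr (Or.inl ⟨g, h.G_sub hn1 hg, m, hn3, ?_, ?_⟩))⟩)
      · by_cases h2 : n + 1 ≤ 2 * k
        · rw [Lv_le h2]
          exact hn4 (by omega)
        · rw [Lv_gt h2]
          omega
      · refine sb_in S fun j h2 _ => ⟨h2, ?_⟩
        refine (agree_flp_iff _ _ _).mpr ⟨hm3.symm, fun h3 => hm4 h1 fun i hi => ?_⟩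
        rcases Nat.lt_succ_iff_lt_or_eq.mp hi with h4 | h4
        · exact hm3 i h4
        · rw [h4]
          exact h3.symm
    · exact Ty_empty S h1.ge
  by_cases hg0 : g ∈ (st 0).G
  · have hKn : (st (α + 1)).K ≤ (st n).K := h.K_le hn1
    refine ⟨(st α).K, (st (α + 1)).K, (st n).K, m, hα.le, hK1, hKn, hn3, hm2, hq1', hq2',
      Or.inr (Or.inr ⟨g, hg0, α, n - 1, by omega, by omega, by omega, ?_, rfl, rfl, ?_,
        hα.trans_le hK1, ?_⟩), Ty_A1 hn2 S (by rw [Lv_le hn2]) hnL, hq5⟩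
    · rw [show n - 1 + 1 = n by omega]
      exact hm3.mono hn3
    · rw [show n - 1 + 1 = n by omega]
      exact sb_b S hKn
    · rw [show n - 1 + 1 = n by omega]
      exact hn3.trans hm2
  · have hbex : ∃ i, g ∈ (st i).G := ⟨α + 1, hg⟩
    obtain ⟨β, hβ1, hβ2⟩ : ∃ β, g ∈ (st β).G ∧ ∀ i, i < β → g ∉ (st i).G :=
      ⟨Nat.find hbex, Nat.find_spec hbex, fun i hi => Nat.find_min hbex hi⟩
    have hβ0 : β ≠ 0 := fun h1 => hg0 (h1 ▸ hβ1)
    obtain ⟨β', rfl⟩ := Nat.exists_eq_succ_of_ne_zero hβ0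
    have hβα : β' + 1 ≤ α + 1 := by
      by_contra hcon
      exact hβ2 (α + 1) (by omega) hg
    refine ⟨(st α).K, (st (α + 1)).K, m, m, hα.le, hK1, hm1, le_rfl, hm2, hq1', hq2',
      Or.inr (Or.inl ⟨β', by omega, Or.inr (Or.inl ⟨by omega, g, hβ1,
        hβ2 β' (Nat.lt_succ_self _), ?_⟩)⟩), Ty_empty S le_rfl, hq5⟩
    refine sb_in S fun j h1 h2 => ⟨?_, ?_⟩
    · exact (h.K_le hβα).trans h1.le
    · exact (hm3.mono ((h.K_le hβα).trans hm1)).symm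

/-- The constant in front of the main term. -/
noncomputable def c1 (p : ℝ) : ℝ := 5 ^ p * (5 * (3 ^ p * 2 + 2 ^ p * (2 * (2 ^ p * 2))))

/-- The constant in front of the error. -/
noncomputable def c2 (p : ℝ) (k : ℕ) : ℝ :=
  5 ^ p * (5 * (4 ^ p + 3 ^ p * ((2 * k + 1) * 24) + 2 ^ p * (2 * (2 ^ p * (2 * k * 8 ^ p)))))

/-- Bound for one family of pieces. -/
theorem bound_slot {L : ℕ} (hp : 1 ≤ p) (hH : ∀ c, BV p (H c) C)
    (hco : ∀ c g h m, agree g h m → H c g m = H c h m)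
    (h : Seqn p k H η st) (hη1 : η ≤ 1) (hη : 0 ≤ η) {Λ : ℕ → ℝ}
    (hΛ : Cmp p k H st Λ) (F : Finset Seg) (hF : DF F) (pc : Seg → Seg)
    (hs : ∀ S ∈ F, (pc S).Sub S) (hR : ∀ S ∈ F, Ty k st L S (pc S)) :
    ∑ S ∈ F, |sg (DD k H st) (pc S)| ^ p ≤
      4 ^ p * η + 3 ^ p * (2 * ∑ l ∈ range k, Λ l + (2 * k + 1) * (24 * η)) +
      2 ^ p * (2 * (2 ^ p * (2 * ∑ l ∈ range k, Λ l + 2 * k * (8 ^ p * η)))) := by
  classical
  have k0 := bound_A0 hp h hη1 (F.filter fun S => (pc S).In (BL 0 (st 0).K))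
    (hF.subset (filter_subset _ _)) pc (fun S hS => hs S (mem_filter.mp hS).1)
    fun S hS => (mem_filter.mp hS).2
  have k1 := CL (L := L) hp hH h hη hΛ
    (F.filter fun S => ∃ i, i ≤ 2 * k ∧ Att k st L i S (pc S))
    (hF.subset (filter_subset _ _)) pc (fun S hS => hs S (mem_filter.mp hS).1)
    fun S hS => (mem_filter.mp hS).2
  have k2 := bound_AD hp hco h hη1 hη hΛ (F.filter fun S => AD k st S (pc S))
    (hF.subset (filter_subset _ _)) pc fun S hS => (mem_filter.mp hS).2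
  change ∑ S ∈ _, |sg (DD k H st) (pc S)| ^ p ≤ _ at k1
  rw [sum_filter] at k0 k1 k2
  have hsum : ∑ S ∈ F, |sg (DD k H st) (pc S)| ^ p ≤
      ∑ S ∈ F, ((if (pc S).In (BL 0 (st 0).K) then |sg (DD k H st) (pc S)| ^ p else 0) +
      (if ∃ i, i ≤ 2 * k ∧ Att k st L i S (pc S) then |sg (DD k H st) (pc S)| ^ p else 0) +
      (if AD k st S (pc S) then |sg (DD k H st) (pc S)| ^ p else 0)) := by
    refine sum_le_sum fun S hS => ?_
    have h0 : 0 ≤ |sg (DD k H st) (pc S)| ^ p := Real.rpow_nonneg (abs_nonneg _) _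
    have e1 : 0 ≤ (if (pc S).In (BL 0 (st 0).K) then |sg (DD k H st) (pc S)| ^ p else 0) := by
      split_ifs <;> simp [h0]
    have e3 : 0 ≤ (if ∃ i, i ≤ 2 * k ∧ Att k st L i S (pc S)
        then |sg (DD k H st) (pc S)| ^ p else 0) := by
      split_ifs <;> simp [h0]
    have e5 : 0 ≤ (if AD k st S (pc S) then |sg (DD k H st) (pc S)| ^ p else 0) := by
      split_ifs <;> simp [h0]
    rcases hR S hS with h' | h' | h'
    · rw [if_pos h'] at e1 ⊢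
      linarith
    · rw [if_pos h'] at e3 ⊢
      linarith
    · rw [if_pos h'] at e5 ⊢
      linarith
  rw [sum_add_distrib, sum_add_distrib] at hsum
  linarith

/-- The deterministic estimate. -/
theorem main_det (hp : 1 ≤ p) (hH : ∀ c, BV p (H c) C)
    (hco : ∀ c g h m, agree g h m → H c g m = H c h m)
    (h : Seqn p k H η st) (hη1 : η ≤ 1) (hη : 0 ≤ η) {Λ : ℕ → ℝ}
    (hΛ : Cmp p k H st Λ) (F : Finset Seg) (hF : DF F) :
    ∑ S ∈ F, |sg (DD k H st) S| ^ p ≤ c1 p * ∑ l ∈ range k, Λ l + c2 p k * η := by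
  classical
  have hp0 : p ≠ 0 := by linarith
  set L : ℕ := max (st (2 * k)).K (F.sup Seg.b) with hL
  have h1 : ∑ S ∈ F, |sg (DD k H st) S| ^ p
      = ∑ S ∈ F.filter (fun S => S.a < S.b), |sg (DD k H st) S| ^ p := by
    symm
    refine sum_subset (filter_subset _ _) fun S hS hn => ?_
    have h2 : S.a = S.b := by
      by_contra hne
      exact hn (mem_filter.mpr ⟨hS, lt_of_le_of_ne S.hab hne⟩)
    rw [sg_empty h2, abs_zero, Real.zero_rpow hp0]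
  rw [h1]
  set F' := F.filter (fun S => S.a < S.b) with hF'
  have hDF' : DF F' := hF.subset (filter_subset _ _)
  have hex : ∀ S ∈ F', ∃ t1 t2 t3 t4, S.a ≤ t1 ∧ t1 ≤ t2 ∧ t2 ≤ t3 ∧ t3 ≤ t4 ∧ t4 ≤ S.b ∧
      Ty k st L S (sb S S.a t1) ∧ Ty k st L S (sb S t1 t2) ∧ Ty k st L S (sb S t2 t3) ∧
      Ty k st L S (sb S t3 t4) ∧ Ty k st L S (sb S t4 S.b) := by
    intro S hS
    rw [hF', mem_filter] at hS
    exact cut_exists h (le_max_left _ _) S hS.2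
      ((le_sup (f := Seg.b) hS.1).trans (le_max_right _ _))
  choose! t1 t2 t3 t4 ha1 ha2 ha3 ha4 ha5 hT1 hT2 hT3 hT4 hT5 using hex
  have slot : ∀ u v : Seg → ℕ, (∀ S ∈ F', S.a ≤ u S) → (∀ S ∈ F', v S ≤ S.b) →
      (∀ S ∈ F', Ty k st L S (sb S (u S) (v S))) →
      ∑ S ∈ F', |sg (DD k H st) (sb S (u S) (v S))| ^ p ≤
      4 ^ p * η + 3 ^ p * (2 * ∑ l ∈ range k, Λ l + (2 * k + 1) * (24 * η)) +
      2 ^ p * (2 * (2 ^ p * (2 * ∑ l ∈ range k, Λ l + 2 * k * (8 ^ p * η)))) := by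
    intro u v hu hv hT
    exact bound_slot hp hH hco h hη1 hη hΛ F' hDF' (fun S => sb S (u S) (v S))
      (fun S hS => sb_sub S (hu S hS) (hv S hS)) hT
  have s1 := slot Seg.a t1 (fun S _ => le_rfl)
    (fun S hS => (ha2 S hS).trans ((ha3 S hS).trans ((ha4 S hS).trans (ha5 S hS)))) hT1
  have s2 := slot t1 t2 ha1 (fun S hS => (ha3 S hS).trans ((ha4 S hS).trans (ha5 S hS))) hT2
  have s3 := slot t2 t3 (fun S hS => (ha1 S hS).trans (ha2 S hS))
    (fun S hS => (ha4 S hS).trans (ha5 S hS)) hT3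
  have s4 := slot t3 t4 (fun S hS => (ha1 S hS).trans ((ha2 S hS).trans (ha3 S hS))) ha5 hT4
  have s5 := slot t4 Seg.b
    (fun S hS => (ha1 S hS).trans ((ha2 S hS).trans ((ha3 S hS).trans (ha4 S hS))))
    (fun S _ => le_rfl) hT5
  have htel : ∀ S ∈ F', |sg (DD k H st) S| ^ p ≤ 5 ^ p * (
      |sg (DD k H st) (sb S S.a (t1 S))| ^ p + |sg (DD k H st) (sb S (t1 S) (t2 S))| ^ p +
      |sg (DD k H st) (sb S (t2 S) (t3 S))| ^ p + |sg (DD k H st) (sb S (t3 S) (t4 S))| ^ p +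
      |sg (DD k H st) (sb S (t4 S) S.b)| ^ p) := by
    intro S hS
    have e : ∀ c d, c ≤ d → sg (DD k H st) (sb S c d)
        = DD k H st S.g d - DD k H st S.g c := by
      intro c d hcd
      unfold sg
      rw [sb_b S hcd]
      rfl
    have e0 : sg (DD k H st) S = sg (DD k H st) (sb S S.a (t1 S)) +
        sg (DD k H st) (sb S (t1 S) (t2 S)) + sg (DD k H st) (sb S (t2 S) (t3 S)) +
        sg (DD k H st) (sb S (t3 S) (t4 S)) + sg (DD k H st) (sb S (t4 S) S.b) := by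
      rw [e _ _ (ha1 S hS), e _ _ (ha2 S hS), e _ _ (ha3 S hS), e _ _ (ha4 S hS),
        e _ _ (ha5 S hS)]
      unfold sg
      ring
    conv_lhs => rw [e0]
    exact rpow_add5 hp _ _ _ _ _
  have h5 := sum_le_sum htel
  rw [← mul_sum, sum_add_distrib, sum_add_distrib, sum_add_distrib, sum_add_distrib] at h5
  refine h5.trans ?_
  have h6 : (0 : ℝ) ≤ 5 ^ p := by positivity
  have h7 : ∑ S ∈ F', |sg (DD k H st) (sb S S.a (t1 S))| ^ p +
      ∑ S ∈ F', |sg (DD k H st) (sb S (t1 S) (t2 S))| ^ p +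
      ∑ S ∈ F', |sg (DD k H st) (sb S (t2 S) (t3 S))| ^ p +
      ∑ S ∈ F', |sg (DD k H st) (sb S (t3 S) (t4 S))| ^ p +
      ∑ S ∈ F', |sg (DD k H st) (sb S (t4 S) S.b)| ^ p ≤
      5 * (4 ^ p * η + 3 ^ p * (2 * ∑ l ∈ range k, Λ l + (2 * k + 1) * (24 * η)) +
      2 ^ p * (2 * (2 ^ p * (2 * ∑ l ∈ range k, Λ l + 2 * k * (8 ^ p * η))))) := by
    linarith
  refine (mul_le_mul_of_nonneg_left h7 h6).trans (le_of_eq ?_)
  unfold c1 c2
  ring

end Pool.Agent.Helper52.JamesTree
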