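import Mathlib
import Pool.Agent.Helper52.JtDefs
import Pool.Agent.Helper52.JtLim

set_option autoImplicit false

open Finset Filter Topology

namespace Pool.Agent.Helper52.JamesTree

/-- A separated family of functionals indexed by the branches. -/
theorem not_sep_dual {V : Type} [NormedAddCommGroup V] [NormedSpace ℝ V]
    (φ : Br → StrongDual ℝ V) (hφ : ∀ g h, g ≠ h → ∃ x : V, ‖x‖ ≤ 1 ∧ 1 ≤ |φ g x - φ h x|) :
    ¬ TopologicalSpace.SeparableSpace (StrongDual ℝ V) := by
  classical
  intro hsep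
  obtain ⟨s, hs, hd⟩ := TopologicalSpace.exists_countable_dense (StrongDual ℝ V)
  have hne : s.Nonempty := hd.nonempty
  obtain ⟨d, hds⟩ := hs.exists_eq_range hne
  have hdist : ∀ g h, g ≠ h → 1 ≤ ‖φ g - φ h‖ := by
    intro g h hgh
    obtain ⟨x, hx1, hx2⟩ := hφ g h hgh
    have h1 := (φ g - φ h).le_opNorm x
    rw [sub_apply, Real.norm_eq_abs] at h1
    have h2 : ‖φ g - φ h‖ * ‖x‖ ≤ ‖φ g - φ h‖ * 1 :=
      mul_le_mul_of_nonneg_left hx1 (norm_nonneg _)
    linarith
  have hex : ∀ g : Br, ∃ n : ℕ, dist (φ g) (d n) < 1 / 2 := by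
    intro g
    obtain ⟨y, hy, hy2⟩ := Metric.dense_iff.mp hd (φ g) (1 / 2) (by norm_num)
    rw [hds] at hy2
    obtain ⟨n, rfl⟩ := hy2
    rw [Metric.mem_ball, dist_comm] at hy
    exact ⟨n, hy⟩
  choose N hN using hex
  have hinj : Function.Injective fun S : Set ℕ => N (fun i => decide (i ∈ S)) := by
    intro S T hST
    by_contra hne'
    have h1 : (fun i => decide (i ∈ S)) ≠ (fun i => decide (i ∈ T)) := by
      intro h2
      apply hne'
      ext i
      have h3 := congrFun h2 i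
      simpa using h3
    have h2 := hdist _ _ h1
    have h3 := hN (fun i => decide (i ∈ S))
    have h4 := hN (fun i => decide (i ∈ T))
    simp only at hST
    rw [← hST, dist_comm] at h4
    have h5 := dist_triangle (φ (fun i => decide (i ∈ S))) (d (N (fun i => decide (i ∈ S))))
      (φ (fun i => decide (i ∈ T)))
    rw [dist_eq_norm] at h5
    linarith
  exact Function.cantor_injective _ hinj

variable {p : ℝ} {X : Type} [NormedAddCommGroup X] [NormedSpace ℝ X]

theorem ev_abs_le (hp : 0 < p) (Z : JSys p X) (x : X) (g : Br) (m : ℕ) : |Z.ev x g m| ≤ ‖x‖ := by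
  have h1 := Z.ub x {⟨g, 0, m, Nat.zero_le m⟩} (DF.singleton _)
  rw [sum_singleton] at h1
  have h2 : sg (Z.ev x) ⟨g, 0, m, Nat.zero_le m⟩ = Z.ev x g m := by
    unfold sg
    simp only
    rw [Z.zero, sub_zero]
  rw [h2] at h1
  exact (Real.rpow_le_rpow_iff (abs_nonneg _) (norm_nonneg _) hp).mp h1

/-- Branch functionals. -/
noncomputable def bf (hp : 0 < p) (Z : JSys p X) (g : Br) : StrongDual ℝ X :=
  LinearMap.mkContinuous
    { toFun := fun x => limU fun m => Z.ev x g m
      map_add' := fun x y => by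
        rw [← limU_add (fun m => ev_abs_le hp Z x g m) (fun m => ev_abs_le hp Z y g m)]
        simp only [map_add, Pi.add_apply]
      map_smul' := fun c x => by
        rw [RingHom.id_apply, smul_eq_mul, ← limU_mul (fun m => ev_abs_le hp Z x g m) c]
        simp only [map_smul, Pi.smul_apply, smul_eq_mul] } 1
    (fun x => by
      rw [one_mul, Real.norm_eq_abs]
      exact limU_abs_le fun m => ev_abs_le hp Z x g m)

theorem bf_apply (hp : 0 < p) (Z : JSys p X) (g : Br) (x : X) :
    bf hp Z g x = limU fun m => Z.ev x g m := rfl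

theorem bf_sep (hp : 0 < p) (Z : JSys p X) (g h : Br) (hgh : g ≠ h) :
    ∃ x : X, ‖x‖ ≤ 1 ∧ 1 ≤ |bf hp Z g x - bf hp Z h x| := by
  obtain ⟨i, hi⟩ := Function.ne_iff.mp hgh
  refine ⟨Z.nd g (i + 1), Z.nd_norm _ _, ?_⟩
  have h1 : bf hp Z g (Z.nd g (i + 1)) = 1 := by
    rw [bf_apply, ← limU_const 1]
    refine limU_congr (B := 1) (fun _ => by simp) (UF_ev ?_)
    filter_upwards [eventually_ge_atTop (i + 1)] with j hj
    exact (Z.nd_one g (i + 1) (Nat.succ_pos i) g j hj (agree.refl _ _)).symm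
  have h2 : bf hp Z h (Z.nd g (i + 1)) = 0 := by
    rw [bf_apply, ← limU_const 0]
    refine limU_congr (B := 1) (fun _ => by simp) (Eventually.of_forall fun j => ?_)
    exact (Z.nd_zero g (i + 1) (Nat.succ_pos i) h j
      fun hag => hi (hag i (Nat.lt_succ_self i)).symm).symm
  rw [h1, h2, sub_zero, abs_one]

theorem not_sep (hp : 0 < p) (Z : JSys p X) :
    ¬ TopologicalSpace.SeparableSpace (StrongDual ℝ X) :=
  not_sep_dual (bf hp Z) (bf_sep hp Z)

theorem not_sep_top (hp : 0 < p) (Z : JSys p X) :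
    ¬ TopologicalSpace.SeparableSpace (StrongDual ℝ (⊤ : Submodule ℝ X)) := by
  refine not_sep_dual (fun g => (bf hp Z g).comp (⊤ : Submodule ℝ X).subtypeL) fun g h hgh => ?_
  obtain ⟨x, hx1, hx2⟩ := bf_sep hp Z g h hgh
  exact ⟨⟨x, Submodule.mem_top⟩, hx1, hx2⟩

end Pool.Agent.Helper52.JamesTree
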