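import Mathlib
import Pool.Agent.Helper52.JtDefs

set_option autoImplicit false

open Finset ENNReal

namespace Pool.Agent.Helper52.JamesTree

variable (p : ℝ≥0∞) [hp : Fact (1 ≤ p)]

/-- Index set: finite disjoint families. -/
abbrev Fam := {F : Finset Seg // DF F}

/-- Values on segments. -/
noncomputable abbrev EE := lp (fun _ : Seg => ℝ) p

/-- The ambient Banach space. -/
noncomputable abbrev LL := lp (fun _ : Fam => EE p) ⊤

/-- Membership of the node `(h, m)` in the segment `S`. -/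
def mem (h : Br) (m : ℕ) (S : Seg) : Prop := S.a < m ∧ m ≤ S.b ∧ agree S.g h m

theorem mem_unique {F : Finset Seg} (hF : DF F) {h : Br} {m : ℕ} {S T : Seg} (hS : S ∈ F)
    (hT : T ∈ F) (h1 : mem h m S) (h2 : mem h m T) : S = T := by
  by_contra hne
  exact hF S hS T hT hne m h1.1 h1.2.1 h2.1 h2.2.1 (h1.2.2.trans h2.2.2.symm)

open Classical in
/-- The values of the generating vector of a node. -/
noncomputable def val (h : Br) (m : ℕ) (F : Fam) (S : Seg) : ℝ :=
  if S ∈ F.1 ∧ mem h m S then 1 else 0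

theorem val_sum (hpt : p ≠ ⊤) (h : Br) (m : ℕ) (F : Fam) (s : Finset Seg) :
    ∑ S ∈ s, ‖val h m F S‖ ^ p.toReal ≤ 1 := by
  classical
  have hp0 : 0 < p.toReal := ENNReal.toReal_pos (zero_lt_one.trans_le hp.out).ne' hpt
  by_cases hex : ∃ T ∈ s, T ∈ F.1 ∧ mem h m T
  · obtain ⟨T, hTs, hT⟩ := hex
    rw [sum_eq_single_of_mem T hTs]
    · unfold val
      rw [if_pos hT, norm_one, Real.one_rpow]
    · intro S _ hne
      unfold val
      rw [if_neg, norm_zero, Real.zero_rpow hp0.ne']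
      intro hS
      exact hne (mem_unique F.2 hS.1 hT.1 hS.2 hT.2)
  · push Not at hex
    rw [sum_eq_zero]
    · exact zero_le_one
    · intro S hS
      unfold val
      rw [if_neg, norm_zero, Real.zero_rpow hp0.ne']
      rintro ⟨h1, h2⟩
      exact hex S hS h1 h2

/-- The value of the generating vector at a family. -/
noncomputable def vE (hpt : p ≠ ⊤) (h : Br) (m : ℕ) (F : Fam) : EE p :=
  ⟨fun S => val h m F S, memℓp_gen' (val_sum p hpt h m F)⟩

theorem vE_norm (hpt : p ≠ ⊤) (h : Br) (m : ℕ) (F : Fam) : ‖vE p hpt h m F‖ ≤ 1 := by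
  have hp0 : 0 < p.toReal := ENNReal.toReal_pos (zero_lt_one.trans_le hp.out).ne' hpt
  refine lp.norm_le_of_forall_sum_le hp0 zero_le_one fun s => ?_
  rw [Real.one_rpow]
  exact val_sum p hpt h m F s

/-- The generating vectors. -/
noncomputable def vv (hpt : p ≠ ⊤) (h : Br) (m : ℕ) : LL p :=
  ⟨fun F => vE p hpt h m F, memℓp_infty ⟨1, by
    rintro _ ⟨F, rfl⟩
    exact vE_norm p hpt h m F⟩⟩

theorem vv_apply (hpt : p ≠ ⊤) (h : Br) (m : ℕ) (F : Fam) (S : Seg) :
    (vv p hpt h m) F S = val h m F S := rfl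

theorem vv_norm (hpt : p ≠ ⊤) (h : Br) (m : ℕ) : ‖vv p hpt h m‖ ≤ 1 :=
  lp.norm_le_of_forall_le zero_le_one fun F => vE_norm p hpt h m F

theorem ev_cont (F : Fam) (S : Seg) : Continuous (fun y : LL p => y F S) := by
  let L : LL p →ₗ[ℝ] ℝ :=
    { toFun := fun y => y F S
      map_add' := fun _ _ => rfl
      map_smul' := fun _ _ => rfl }
  have h : ∀ y, ‖L y‖ ≤ 1 * ‖y‖ := fun y => by
    rw [one_mul]
    exact (lp.norm_apply_le_norm (zero_lt_one.trans_le hp.out).ne' (y F) S).trans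
      (lp.norm_apply_le_norm (by simp) y F)
  exact (L.mkContinuous 1 h).continuous

/-- The family with one member. -/
def sf (S : Seg) : Fam := ⟨{S}, DF.singleton S⟩

/-- The initial segment. -/
def ini (g : Br) (m : ℕ) : Seg := ⟨g, 0, m, Nat.zero_le m⟩

/-- Evaluation at a node. -/
noncomputable def evL : LL p →ₗ[ℝ] (Br → ℕ → ℝ) where
  toFun y := fun g m => y (sf (ini g m)) (ini g m)
  map_add' _ _ := rfl
  map_smul' _ _ := rfl

open Classical in
/-- Coherent elements. -/
noncomputable def coS : Submodule ℝ (LL p) where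
  carrier := {y | (∀ F : Fam, ∀ S : Seg, y F S = if S ∈ F.1 then sg (evL p y) S else 0) ∧
    (∀ g h m, agree g h m → evL p y g m = evL p y h m) ∧ ∀ g, evL p y g 0 = 0}
  add_mem' := by
    intro x y hx hy
    refine ⟨fun F S => ?_, fun g h m H => ?_, fun g => ?_⟩
    · have h1 : (x + y) F S = x F S + y F S := rfl
      rw [h1, hx.1 F S, hy.1 F S]
      split_ifs
      · unfold sg
        rw [map_add]
        simp only [Pi.add_apply]
        ring
      · rw [add_zero]
    · rw [map_add]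
      simp only [Pi.add_apply]
      rw [hx.2.1 g h m H, hy.2.1 g h m H]
    · rw [map_add]
      simp only [Pi.add_apply]
      rw [hx.2.2, hy.2.2, add_zero]
  zero_mem' := by
    refine ⟨fun F S => ?_, fun g h m H => ?_, fun g => ?_⟩
    · have h1 : (0 : LL p) F S = 0 := rfl
      rw [h1, map_zero]
      unfold sg
      simp
    · rw [map_zero]
      rfl
    · rw [map_zero]
      rfl
  smul_mem' := by
    intro c x hx
    refine ⟨fun F S => ?_, fun g h m H => ?_, fun g => ?_⟩
    · have h1 : (c • x) F S = c * x F S := rfl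
      rw [h1, hx.1 F S]
      split_ifs
      · unfold sg
        rw [map_smul]
        simp only [Pi.smul_apply, smul_eq_mul]
        ring
      · rw [mul_zero]
    · rw [map_smul]
      simp only [Pi.smul_apply, smul_eq_mul]
      rw [hx.2.1 g h m H]
    · rw [map_smul]
      simp only [Pi.smul_apply, smul_eq_mul]
      rw [hx.2.2, mul_zero]

theorem coS_closed : IsClosed (coS p : Set (LL p)) := by
  classical
  have h : (coS p : Set (LL p)) =
      (⋂ F : Fam, ⋂ S : Seg, {y : LL p | y F S = if S ∈ F.1 then sg (evL p y) S else 0}) ∩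
      ((⋂ g : Br, ⋂ h : Br, ⋂ m : ℕ, {y : LL p | agree g h m → evL p y g m = evL p y h m}) ∩
      ⋂ g : Br, {y : LL p | evL p y g 0 = 0}) := by
    ext y
    simp only [Set.mem_inter_iff, Set.mem_iInter]
    constructor
    · intro hy
      refine ⟨fun F S => ?_, fun g h m H => hy.2.1 g h m H, fun g => hy.2.2 g⟩
      have := hy.1 F S
      change y F S = if S ∈ F.1 then sg (evL p y) S else 0
      convert this
    · intro hy
      refine ⟨fun F S => ?_, fun g h m H => hy.2.1 g h m H, fun g => hy.2.2 g⟩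
      have : y F S = if S ∈ F.1 then sg (evL p y) S else 0 := hy.1 F S
      convert this
  have hc : ∀ g m, Continuous fun y : LL p => evL p y g m := fun g m => ev_cont p _ _
  rw [h]
  refine IsClosed.inter ?_ (IsClosed.inter ?_ ?_)
  · refine isClosed_iInter fun F => isClosed_iInter fun S => ?_
    by_cases hS : S ∈ F.1
    · simp only [if_pos hS]
      exact isClosed_eq (ev_cont p F S) ((hc _ _).sub (hc _ _))
    · simp only [if_neg hS]
      exact isClosed_eq (ev_cont p F S) continuous_const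
  · refine isClosed_iInter fun g => isClosed_iInter fun h => isClosed_iInter fun m => ?_
    by_cases H : agree g h m
    · simp only [H, true_imp_iff]
      exact isClosed_eq (hc _ _) (hc _ _)
    · simp only [H, false_imp_iff]
      exact isClosed_univ
  · exact isClosed_iInter fun g => isClosed_eq (hc _ _) continuous_const

theorem evL_vv (hpt : p ≠ ⊤) (h : Br) (m : ℕ) (g : Br) (j : ℕ) :
    (0 < m ∧ m ≤ j ∧ agree g h m → evL p (vv p hpt h m) g j = 1) ∧
    (¬ (0 < m ∧ m ≤ j ∧ agree g h m) → evL p (vv p hpt h m) g j = 0) := by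
  classical
  have h0 : evL p (vv p hpt h m) g j = val h m (sf (ini g j)) (ini g j) := rfl
  rw [h0]
  unfold val
  constructor
  · rintro ⟨h1, h2, h3⟩
    rw [if_pos]
    exact ⟨mem_singleton_self _, h1, h2, h3⟩
  · intro hn
    rw [if_neg]
    rintro ⟨_, h1, h2, h3⟩
    exact hn ⟨h1, h2, h3⟩

theorem vv_mem (hpt : p ≠ ⊤) (h : Br) (m : ℕ) : vv p hpt h m ∈ coS p := by
  classical
  refine ⟨fun F S => ?_, fun g g' j H => ?_, fun g => ?_⟩
  · rw [vv_apply]
    unfold val sg
    by_cases hS : S ∈ F.1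
    · rw [if_pos hS]
      by_cases hb : 0 < m ∧ m ≤ S.b ∧ agree S.g h m
      · rw [(evL_vv p hpt h m S.g S.b).1 hb]
        by_cases ha : m ≤ S.a
        · rw [(evL_vv p hpt h m S.g S.a).1 ⟨hb.1, ha, hb.2.2⟩, if_neg, sub_self]
          rintro ⟨_, h1, _⟩
          omega
        · rw [(evL_vv p hpt h m S.g S.a).2 (fun h1 => ha h1.2.1), if_pos, sub_zero]
          exact ⟨hS, by omega, hb.2.1, hb.2.2⟩
      · rw [(evL_vv p hpt h m S.g S.b).2 hb, (evL_vv p hpt h m S.g S.a).2, if_neg, sub_zero]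
        · rintro ⟨_, h1, h2, h3⟩
          exact hb ⟨by omega, h2, h3⟩
        · rintro ⟨h1, h2, h3⟩
          exact hb ⟨h1, h2.trans S.hab, h3⟩
    · rw [if_neg hS, if_neg fun h1 => hS h1.1]
  · by_cases hb : 0 < m ∧ m ≤ j ∧ agree g h m
    · rw [(evL_vv p hpt h m g j).1 hb,
        (evL_vv p hpt h m g' j).1 ⟨hb.1, hb.2.1, (H.mono hb.2.1).symm.trans hb.2.2⟩]
    · rw [(evL_vv p hpt h m g j).2 hb, (evL_vv p hpt h m g' j).2]
      rintro ⟨h1, h2, h3⟩
      exact hb ⟨h1, h2, (H.mono h2).trans h3⟩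
  · rw [(evL_vv p hpt h m g 0).2]
    rintro ⟨h1, h2, _⟩
    omega

/-- The James tree space. -/
noncomputable def JT (hpt : p ≠ ⊤) : Submodule ℝ (LL p) :=
  (Submodule.span ℝ (Set.range fun x : Br × ℕ => vv p hpt x.1 x.2)).topologicalClosure

theorem JT_le (hpt : p ≠ ⊤) : JT p hpt ≤ coS p := by
  refine Submodule.topologicalClosure_minimal _ ?_ (coS_closed p)
  rw [Submodule.span_le]
  rintro _ ⟨x, rfl⟩
  exact vv_mem p hpt x.1 x.2

/-- The generating vectors in the space. -/
noncomputable def vJ (hpt : p ≠ ⊤) (h : Br) (m : ℕ) : JT p hpt :=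
  ⟨vv p hpt h m, Submodule.le_topologicalClosure _ (Submodule.subset_span ⟨(h, m), rfl⟩)⟩

theorem DF_sum_le (hpt : p ≠ ⊤) (x : JT p hpt) (F : Finset Seg) (hF : DF F) :
    ∑ S ∈ F, |sg (evL p x.1) S| ^ p.toReal ≤ ‖x‖ ^ p.toReal := by
  have hp0 : 0 < p.toReal := ENNReal.toReal_pos (zero_lt_one.trans_le hp.out).ne' hpt
  have h1 := (JT_le p hpt x.2).1 ⟨F, hF⟩
  have h2 := lp.sum_rpow_le_norm_rpow hp0 (x.1 ⟨F, hF⟩) F
  have h3 : ‖x.1 ⟨F, hF⟩‖ ≤ ‖x‖ := lp.norm_apply_le_norm (by simp) x.1 (⟨F, hF⟩ : Fam)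
  have h4 : ∑ S ∈ F, |sg (evL p x.1) S| ^ p.toReal
      = ∑ S ∈ F, ‖x.1 ⟨F, hF⟩ S‖ ^ p.toReal := by
    refine sum_congr rfl fun S hS => ?_
    rw [h1 S, if_pos hS, Real.norm_eq_abs]
  rw [h4]
  exact h2.trans (Real.rpow_le_rpow (norm_nonneg _) h3 hp0.le)

theorem DF_le_norm (hpt : p ≠ ⊤) (x : JT p hpt) (C : ℝ) (hC : 0 ≤ C)
    (h : ∀ F : Finset Seg, DF F → ∑ S ∈ F, |sg (evL p x.1) S| ^ p.toReal ≤ C) :
    ‖x‖ ^ p.toReal ≤ C := by
  classical
  have hp0 : 0 < p.toReal := ENNReal.toReal_pos (zero_lt_one.trans_le hp.out).ne' hpt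
  have h1 : ‖x.1‖ ≤ C ^ (1 / p.toReal) := by
    refine lp.norm_le_of_forall_le (Real.rpow_nonneg hC _) fun F => ?_
    refine lp.norm_le_of_forall_sum_le hp0 (Real.rpow_nonneg hC _) fun s => ?_
    rw [← Real.rpow_mul hC, one_div, inv_mul_cancel₀ hp0.ne', Real.rpow_one]
    have h2 : ∑ S ∈ s, ‖x.1 F S‖ ^ p.toReal
        = ∑ S ∈ s.filter (fun S => S ∈ F.1), |sg (evL p x.1) S| ^ p.toReal := by
      rw [sum_filter]
      refine sum_congr rfl fun S _ => ?_
      have h3 := (JT_le p hpt x.2).1 F S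
      rw [h3]
      split_ifs
      · rw [Real.norm_eq_abs]
      · rw [norm_zero, Real.zero_rpow hp0.ne']
    rw [h2]
    exact h _ (F.2.subset fun S hS => (mem_filter.mp hS).2)
  calc ‖x‖ ^ p.toReal ≤ (C ^ (1 / p.toReal)) ^ p.toReal :=
        Real.rpow_le_rpow (norm_nonneg _) h1 hp0.le
    _ = C := by rw [← Real.rpow_mul hC, one_div, inv_mul_cancel₀ hp0.ne', Real.rpow_one]

/-- The coordinate structure. -/
noncomputable def sysJ (hpt : p ≠ ⊤) : JSys p.toReal (JT p hpt) where
  ev := (evL p).comp (JT p hpt).subtype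
  coh x := (JT_le p hpt x.2).2.1
  zero x := (JT_le p hpt x.2).2.2
  ub x F hF := DF_sum_le p hpt x F hF
  lb x C hC h := DF_le_norm p hpt x C hC h
  nd h m := vJ p hpt h m
  nd_one h m hm g j hj ha := (evL_vv p hpt h m g j).1 ⟨hm, hj, ha⟩
  nd_zero h m _ g j hn := (evL_vv p hpt h m g j).2 fun h1 => hn h1.2.2
  nd_norm h m := vv_norm p hpt h m

instance (hpt : p ≠ ⊤) : CompleteSpace (JT p hpt) := by
  unfold JT
  infer_instance

theorem vv_congr (hpt : p ≠ ⊤) {g h : Br} {m : ℕ} (H : agree g h m) :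
    vv p hpt g m = vv p hpt h m := by
  classical
  refine lp.ext (funext fun F => lp.ext (funext fun S => ?_))
  change val g m F S = val h m F S
  unfold val
  have : (S ∈ F.1 ∧ mem g m S) ↔ (S ∈ F.1 ∧ mem h m S) := by
    constructor
    · rintro ⟨h1, h2, h3, h4⟩
      exact ⟨h1, h2, h3, h4.trans H⟩
    · rintro ⟨h1, h2, h3, h4⟩
      exact ⟨h1, h2, h3, h4.trans H.symm⟩
  simp only [this]

instance (hpt : p ≠ ⊤) : TopologicalSpace.SeparableSpace (JT p hpt) := by
  have h1 : (Set.range fun x : Br × ℕ => vv p hpt x.1 x.2)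
      ⊆ Set.range fun x : Finset ℕ × ℕ => vv p hpt (ind x.1) x.2 := by
    rintro _ ⟨x, rfl⟩
    exact ⟨((range x.2).filter fun i => x.1 i = true, x.2),
      (vv_congr p hpt (agree_ind x.1 x.2)).symm⟩
  have h2 : (Set.range fun x : Br × ℕ => vv p hpt x.1 x.2).Countable :=
    (Set.countable_range _).mono h1
  have h3 : TopologicalSpace.IsSeparable (JT p hpt : Set (LL p)) := by
    unfold JT
    rw [Submodule.topologicalClosure_coe]
    exact (h2.isSeparable.span (R := ℝ)).closure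
  exact h3.separableSpace

end Pool.Agent.Helper52.JamesTree
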