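import Mathlib
import Pool.Agent.Helper52.HicDefs
import Pool.Agent.Helper52.JtDual
import Pool.Agent.Helper52.JtCut
import Pool.Agent.Helper52.JtSpace

set_option autoImplicit false

open Finset Filter Topology

namespace Pool.Agent.Helper52.JamesTree

open Pool.Agent.Helper52.Hic

section Lip

variable {X : Type} [PseudoMetricSpace X] {k : ℕ} {f : (Fin k → ℕ) → X} {B : ℝ}

theorem le_lipAt (hB : ∀ n m : Fin k → ℕ, StrictMono n → StrictMono m → dist (f n) (f m) ≤ B)
    {n m : Fin k → ℕ} (hn : StrictMono n) (hm : StrictMono m) (j : Fin k)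
    (h1 : ∀ i, i ≠ j → n i = m i) (h2 : n j < m j) : dist (f n) (f m) ≤ lipAt f j := by
  refine le_csSup ⟨B, ?_⟩ ⟨n, m, hn, hm, h1, h2, rfl⟩
  rintro d ⟨n', m', hn', hm', _, _, rfl⟩
  exact hB n' m' hn' hm'

theorem lipAt_nonneg (j : Fin k) : 0 ≤ lipAt f j := by
  refine Real.sSup_nonneg ?_
  rintro d ⟨n', m', _, _, _, _, rfl⟩
  exact dist_nonneg

/-- The crude bound. -/
theorem dist_le_sum (hB : ∀ n m : Fin k → ℕ, StrictMono n → StrictMono m → dist (f n) (f m) ≤ B)
    {n m : Fin k → ℕ} (hn : StrictMono n) (hm : StrictMono m) (hi : Interlaced n m) :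
    dist (f n) (f m) ≤ ∑ j, lipAt f j := by
  set w : ℕ → Fin k → ℕ := fun t i => if i.1 < t then m i else n i with hw
  have hmono : ∀ t, StrictMono (w t) := by
    intro t i j hij
    have hij' : i.1 < j.1 := hij
    rw [hw]
    simp only
    split_ifs with h1 h2 h2
    · exact hm hij
    · exact hi.2 i j hij
    · omega
    · exact hn hij
  have hstep : ∀ t, t < k → dist (f (w t)) (f (w (t + 1)))
      ≤ if h : t < k then lipAt f ⟨t, h⟩ else 0 := by
    intro t ht
    rw [dif_pos ht]
    refine le_lipAt hB (hmono t) (hmono (t + 1)) ⟨t, ht⟩ (fun i hne => ?_) ?_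
    · have hne' : i.1 ≠ t := fun h => hne (Fin.ext h)
      rw [hw]
      simp only
      by_cases h1 : i.1 < t
      · rw [if_pos h1, if_pos (by omega)]
      · rw [if_neg h1, if_neg (by omega)]
    · rw [hw]
      simp only [lt_irrefl, if_false, Nat.lt_succ_self, if_true]
      exact hi.1 _
  have h1 := dist_le_range_sum_of_dist_le (f := fun t => f (w t)) k
    (fun {t} ht => hstep t ht)
  have h2 : w 0 = n := by
    funext i
    rw [hw]
    simp
  have h3 : w k = m := by
    funext i
    rw [hw]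
    simp [i.2]
  simp only [h2, h3] at h1
  refine h1.trans (le_of_eq ?_)
  rw [Finset.sum_range]
  exact sum_congr rfl fun i _ => dif_pos i.2

end Lip

variable {p : ℝ} {X : Type} [NormedAddCommGroup X] [NormedSpace ℝ X]

/-- The map on finite sets. -/
noncomputable def Fc {k : ℕ} (f : (Fin k → ℕ) → X) (c : Finset ℕ) : X :=
  if h : #c = k then f (c.orderEmbOfFin h) - f (fun i => i.1) else 0

omit [NormedSpace ℝ X] in
theorem Fc_eq {k : ℕ} (f : (Fin k → ℕ) → X) {c : Finset ℕ} (hc : #c = k) {n : Fin k → ℕ}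
    (hn : StrictMono n) (hnc : ∀ i, n i ∈ c) : Fc f c = f n - f (fun i => i.1) := by
  unfold Fc
  rw [dif_pos hc, Finset.orderEmbOfFin_unique hc hnc hn]

omit [NormedSpace ℝ X] in
theorem Fc_norm {k : ℕ} {f : (Fin k → ℕ) → X} {B : ℝ} (hB0 : 0 ≤ B)
    (hB : ∀ n m : Fin k → ℕ, StrictMono n → StrictMono m → dist (f n) (f m) ≤ B)
    (c : Finset ℕ) : ‖Fc f c‖ ≤ B := by
  unfold Fc
  split_ifs with h
  · rw [← dist_eq_norm]
    exact hB _ _ (c.orderEmbOfFin h).strictMono fun i j hij => hij
  · rwa [norm_zero]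

theorem BV_ev (hp : 0 < p) (Z : JSys p X) {x : X} {B : ℝ} (hx : ‖x‖ ≤ B) :
    BV p (Z.ev x) (B ^ p) := fun F hF =>
  (Z.ub x F hF).trans (Real.rpow_le_rpow (norm_nonneg _) hx hp.le)

/-- Reindexing. -/
theorem exists_idx {k : ℕ} (a b : Fin k → ℕ) (ha : ∀ i, 1 ≤ a i) (hab : ∀ i, a i < b i)
    (hba : ∀ i j, i < j → b i < a j) :
    ∃ idx : ℕ → ℕ, idx 0 = 0 ∧ StrictMono idx ∧ (∀ i : Fin k, idx (2 * i.1 + 1) = a i) ∧
      ∀ i : Fin k, idx (2 * i.1 + 2) = b i := by
  set T : ℕ := univ.sup b with hT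
  set idx : ℕ → ℕ := fun i => if i = 0 then 0 else if h : (i - 1) / 2 < k then
    (if i % 2 = 1 then a ⟨(i - 1) / 2, h⟩ else b ⟨(i - 1) / 2, h⟩) else T + i with hidx
  have h1 : ∀ i : Fin k, idx (2 * i.1 + 1) = a i := by
    intro i
    have e : (2 * i.1 + 1 - 1) / 2 = i.1 := by omega
    have e2 : (⟨(2 * i.1 + 1 - 1) / 2, by rw [e]; exact i.2⟩ : Fin k) = i := Fin.ext e
    rw [hidx]
    simp only
    rw [if_neg (by omega), dif_pos (by rw [e]; exact i.2), if_pos (by omega), e2]
  have h2 : ∀ i : Fin k, idx (2 * i.1 + 2) = b i := by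
    intro i
    have e : (2 * i.1 + 2 - 1) / 2 = i.1 := by omega
    have e2 : (⟨(2 * i.1 + 2 - 1) / 2, by rw [e]; exact i.2⟩ : Fin k) = i := Fin.ext e
    rw [hidx]
    simp only
    rw [if_neg (by omega), dif_pos (by rw [e]; exact i.2), if_neg (by omega), e2]
  have h3 : ∀ i, 2 * k < i → idx i = T + i := by
    intro i hi
    rw [hidx]
    simp only
    rw [if_neg (by omega), dif_neg (by omega)]
  have h0 : idx 0 = 0 := by
    rw [hidx]
    simp
  refine ⟨idx, h0, strictMono_nat_of_lt_succ fun i => ?_, h1, h2⟩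
  rcases Nat.eq_zero_or_pos i with hi | hi
  · subst hi
    rw [h0]
    rcases Nat.eq_zero_or_pos k with hk | hk
    · rw [h3 _ (by omega)]
      omega
    · have := h1 ⟨0, hk⟩
      simp only [Nat.mul_zero, Nat.zero_add] at this
      rw [Nat.zero_add, this]
      exact ha _
  · rcases Nat.even_or_odd' i with ⟨l, hl | hl⟩
    · -- i = 2 (l-1) + 2
      obtain ⟨l', rfl⟩ := Nat.exists_eq_succ_of_ne_zero (show l ≠ 0 by omega)
      rcases Nat.lt_or_ge l' k with hlk | hlk
      · have e1 : idx i = b ⟨l', hlk⟩ := by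
          rw [← h2 ⟨l', hlk⟩, hl]
          rfl
        rw [e1]
        rcases Nat.lt_or_ge (l' + 1) k with hlk2 | hlk2
        · have e2 : idx (i + 1) = a ⟨l' + 1, hlk2⟩ := by
            rw [← h1 ⟨l' + 1, hlk2⟩, hl]
          rw [e2]
          exact hba _ _ (Fin.mk_lt_mk.mpr (Nat.lt_succ_self _))
        · rw [h3 _ (by omega)]
          have : b ⟨l', hlk⟩ ≤ T := le_sup (f := b) (mem_univ _)
          omega
      · rw [h3 _ (by omega), h3 _ (by omega)]
        omega
    · rcases Nat.lt_or_ge l k with hlk | hlk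
      · have e1 : idx i = a ⟨l, hlk⟩ := by
          rw [← h1 ⟨l, hlk⟩, hl]
        have e2 : idx (i + 1) = b ⟨l, hlk⟩ := by
          rw [← h2 ⟨l, hlk⟩, hl]
        rw [e1, e2]
        exact hab _
      · rw [h3 _ (by omega), h3 _ (by omega)]
        omega

theorem update_mono_up {k : ℕ} {n m : Fin k → ℕ} (hn : StrictMono n) (hi : Interlaced n m)
    (l : Fin k) : StrictMono (Function.update n l (m l)) := by
  intro i j hij
  by_cases h1 : i = l
  · subst h1
    rw [Function.update_self, Function.update_of_ne hij.ne']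
    exact hi.2 i j hij
  · rw [Function.update_of_ne h1]
    by_cases h2 : j = l
    · subst h2
      rw [Function.update_self]
      exact (hn hij).trans (hi.1 j)
    · rw [Function.update_of_ne h2]
      exact hn hij

theorem update_mono_down {k : ℕ} {n m : Fin k → ℕ} (hm : StrictMono m) (hi : Interlaced n m)
    (l : Fin k) : StrictMono (Function.update m l (n l)) := by
  intro i j hij
  by_cases h1 : i = l
  · subst h1
    rw [Function.update_self, Function.update_of_ne hij.ne']
    exact (hi.1 i).trans (hm hij)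
  · rw [Function.update_of_ne h1]
    by_cases h2 : j = l
    · subst h2
      rw [Function.update_self]
      exact hi.2 i j hij
    · rw [Function.update_of_ne h2]
      exact hm hij

/-- The estimate with an error term. -/
theorem approx (hp : 1 ≤ p) (Z : JSys p X) {k : ℕ} (f : (Fin k → ℕ) → X) {B : ℝ}
    (hB : ∀ n m : Fin k → ℕ, StrictMono n → StrictMono m → dist (f n) (f m) ≤ B)
    {ε : ℝ} (hε : 0 < ε) :
    ∃ M : Set ℕ, M.Infinite ∧ ∀ n m : Fin k → ℕ, StrictMono n → StrictMono m →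
      (∀ i, n i ∈ M) → (∀ i, m i ∈ M) → Interlaced n m →
      dist (f n) (f m) ^ p ≤ c1 p * ∑ j, lipAt f j ^ p + ε := by
  classical
  have hp0 : 0 < p := by linarith
  have hB0 : 0 ≤ B := dist_nonneg.trans
    (hB (fun i => i.1) (fun i => i.1) (fun i j hij => hij) fun i j hij => hij)
  set H : Finset ℕ → Br → ℕ → ℝ := fun c => Z.ev (Fc f c) with hH
  have hHB : ∀ c, BV p (H c) (B ^ p) := fun c => BV_ev hp0 Z (Fc_norm hB0 hB c)
  have hHb : ∀ c g m, |H c g m| ≤ B := fun c g m =>
    (ev_abs_le hp0 Z _ g m).trans (Fc_norm hB0 hB c)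
  have hHc : ∀ c g h m, agree g h m → H c g m = H c h m := fun c g h m => Z.coh _ g h m
  have hc2 : 0 ≤ c2 p k := by
    unfold c2
    positivity
  set η : ℝ := min 1 (ε / (c2 p k + 1)) with hη
  have hη0 : 0 < η := lt_min one_pos (by positivity)
  have hη1 : η ≤ 1 := min_le_left _ _
  have hη2 : c2 p k * η ≤ ε := by
    calc c2 p k * η ≤ c2 p k * (ε / (c2 p k + 1)) :=
          mul_le_mul_of_nonneg_left (min_le_right _ _) hc2
      _ ≤ (c2 p k + 1) * (ε / (c2 p k + 1)) :=
          mul_le_mul_of_nonneg_right (by linarith) (by positivity)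
      _ = ε := by field_simp
  obtain ⟨st, hst1, hst2⟩ := exists_states hp0.ne' hη0 hHB hHb hHc
  have hS0 : Seqn p k H η st := ⟨hst1, hst2⟩
  refine ⟨{x | ∃ i, 1 ≤ i ∧ x = (st i).mu}, ?_, ?_⟩
  · refine Set.infinite_of_injective_forall_mem (f := fun i : ℕ => (st (i + 1)).mu) ?_ ?_
    · intro i j hij
      have := hS0.mu_inj hij
      omega
    · exact fun i => ⟨i + 1, by omega, rfl⟩
  intro n m hn hm hnM hmM hi
  choose a ha1 ha2 using hnM
  choose b hb1 hb2 using hmM
  have hab : ∀ i, a i < b i := by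
    intro i
    have h1 := hi.1 i
    rw [ha2, hb2] at h1
    by_contra hcon
    exact absurd (hS0.mu_le_iff.mpr (not_lt.mp hcon)) (not_le.mpr h1)
  have hba : ∀ i j, i < j → b i < a j := by
    intro i j hij
    have h1 := hi.2 i j hij
    rw [ha2, hb2] at h1
    by_contra hcon
    exact absurd (hS0.mu_le_iff.mpr (not_lt.mp hcon)) (not_le.mpr h1)
  obtain ⟨idx, _, hidx, hia, hib⟩ := exists_idx a b ha1 hab hba
  set st' : ℕ → State := fun i => st (idx i) with hst'
  have hS : Seqn p k H η st' := ⟨fun i => hst1 _, fun i j hij => hst2 _ _ (hidx hij)⟩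
  have hmuO : ∀ i : Fin k, (st' (2 * i.1 + 1)).mu = n i := by
    intro i
    rw [hst']
    simp only
    rw [hia, ha2]
  have hmuE : ∀ i : Fin k, (st' (2 * i.1 + 2)).mu = m i := by
    intro i
    rw [hst']
    simp only
    rw [hib, hb2]
  have hFO : Fc f (cO k st') = f n - f (fun i => i.1) := by
    refine Fc_eq f (adm_cO hS).card hn fun i => ?_
    rw [← hmuO i]
    exact (mem_cO hS).mpr ⟨i.1, i.2, rfl⟩
  have hFE : Fc f (cE k st') = f m - f (fun i => i.1) := by
    refine Fc_eq f (adm_cE hS).card hm fun i => ?_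
    rw [← hmuE i]
    exact (mem_cE hS).mpr ⟨i.1, i.2, rfl⟩
  have hFO' : ∀ l : Fin k, Fc f (cO' k st' l.1)
      = f (Function.update n l (m l)) - f (fun i => i.1) := by
    intro l
    refine Fc_eq f (adm_cO' hS l.2).card (update_mono_up hn hi l) fun i => ?_
    by_cases h1 : i = l
    · subst h1
      rw [Function.update_self, ← hmuE i]
      exact mem_insert_self _ _
    · rw [Function.update_of_ne h1, ← hmuO i]
      refine mem_insert_of_mem (mem_erase.mpr ⟨fun h2 => ?_, (mem_cO hS).mpr ⟨i.1, i.2, rfl⟩⟩)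
      have := hS.mu_inj h2
      exact h1 (Fin.ext (by omega))
  have hFE' : ∀ l : Fin k, Fc f (cE' k st' l.1)
      = f (Function.update m l (n l)) - f (fun i => i.1) := by
    intro l
    refine Fc_eq f (adm_cE' hS l.2).card (update_mono_down hm hi l) fun i => ?_
    by_cases h1 : i = l
    · subst h1
      rw [Function.update_self, ← hmuO i]
      exact mem_insert_self _ _
    · rw [Function.update_of_ne h1, ← hmuE i]
      refine mem_insert_of_mem (mem_erase.mpr ⟨fun h2 => ?_, (mem_cE hS).mpr ⟨i.1, i.2, rfl⟩⟩)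
      have := hS.mu_inj h2
      exact h1 (Fin.ext (by omega))
  set Λ : ℕ → ℝ := fun l => if h : l < k then lipAt f ⟨l, h⟩ ^ p else 0 with hΛ
  have hCmp : Cmp p k H st' Λ := by
    constructor
    · intro l hl
      have e1 : Λ l = lipAt f ⟨l, hl⟩ ^ p := dif_pos hl
      have e2 : H (cO k st') - H (cO' k st' l)
          = Z.ev (f n - f (Function.update n ⟨l, hl⟩ (m ⟨l, hl⟩))) := by
        have e3 := hFO' ⟨l, hl⟩
        simp only at e3
        rw [hH]
        simp only
        rw [hFO, e3, ← map_sub, sub_sub_sub_cancel_right]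
      rw [e1, e2]
      refine BV_ev hp0 Z ?_
      rw [← dist_eq_norm]
      refine le_lipAt hB hn (update_mono_up hn hi _) ⟨l, hl⟩ (fun i hne => ?_) ?_
      · rw [Function.update_of_ne hne]
      · rw [Function.update_self]
        exact hi.1 _
    · intro l hl
      have e1 : Λ l = lipAt f ⟨l, hl⟩ ^ p := dif_pos hl
      have e2 : H (cE' k st' l) - H (cE k st')
          = Z.ev (f (Function.update m ⟨l, hl⟩ (n ⟨l, hl⟩)) - f m) := by
        have e3 := hFE' ⟨l, hl⟩
        simp only at e3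
        rw [hH]
        simp only
        rw [hFE, e3, ← map_sub, sub_sub_sub_cancel_right]
      rw [e1, e2]
      refine BV_ev hp0 Z ?_
      rw [← dist_eq_norm]
      refine le_lipAt hB (update_mono_down hm hi _) hm ⟨l, hl⟩ (fun i hne => ?_) ?_
      · rw [Function.update_of_ne hne]
      · rw [Function.update_self]
        exact hi.1 _
  have hsum : ∑ l ∈ range k, Λ l = ∑ j, lipAt f j ^ p := by
    rw [Finset.sum_range]
    exact sum_congr rfl fun i _ => dif_pos i.2
  have hDD : DD k H st' = Z.ev (f n - f m) := by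
    unfold DD
    rw [hH]
    simp only
    rw [hFO, hFE, ← map_sub, sub_sub_sub_cancel_right]
  have hc1 : 0 ≤ c1 p := by
    unfold c1
    positivity
  have hsum0 : 0 ≤ ∑ j, lipAt f j ^ p :=
    sum_nonneg fun j _ => Real.rpow_nonneg (lipAt_nonneg j) _
  rw [dist_eq_norm]
  refine Z.lb _ _ (by positivity) fun F hF => ?_
  have h1 := main_det hp hHB hHc hS hη1 hη0.le hCmp F hF
  rw [hDD, hsum] at h1
  linarith

theorem hic (hp : 1 < p) (Z : JSys p X) : HIC p X := by
  have hp0 : 0 < p := by linarith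
  have hc1 : 0 ≤ c1 p := by
    unfold c1
    positivity
  refine ⟨(c1 p + 1) ^ (1 / p), by positivity, fun k f hf => ?_⟩
  obtain ⟨B, hB⟩ := hf
  have hsum0 : 0 ≤ ∑ j, lipAt f j ^ p :=
    sum_nonneg fun j _ => Real.rpow_nonneg (lipAt_nonneg j) _
  rcases hsum0.eq_or_lt with h0 | h0
  · refine ⟨Set.univ, Set.infinite_univ, fun n m hn hm _ _ hi => ?_⟩
    have h1 : ∀ j, lipAt f j = 0 := by
      intro j
      have h2 := (sum_eq_zero_iff_of_nonneg fun j _ =>
        Real.rpow_nonneg (lipAt_nonneg (f := f) j) p).mp h0.symm j (mem_univ j)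
      exact (Real.rpow_eq_zero (lipAt_nonneg j) hp0.ne').mp h2
    have h2 := dist_le_sum hB hn hm hi
    simp only [h1, sum_const_zero] at h2
    refine h2.trans ?_
    positivity
  · obtain ⟨M, hM1, hM2⟩ := approx hp.le Z f hB h0
    refine ⟨M, hM1, fun n m hn hm hnM hmM hi => ?_⟩
    have h1 := hM2 n m hn hm hnM hmM hi
    have h2 : dist (f n) (f m) ^ p ≤ (c1 p + 1) * ∑ j, lipAt f j ^ p := by linarith
    calc dist (f n) (f m) = (dist (f n) (f m) ^ p) ^ (1 / p) := by
          rw [← Real.rpow_mul dist_nonneg, mul_one_div_cancel hp0.ne', Real.rpow_one]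
      _ ≤ ((c1 p + 1) * ∑ j, lipAt f j ^ p) ^ (1 / p) :=
          Real.rpow_le_rpow (Real.rpow_nonneg dist_nonneg _) h2 (by positivity)
      _ = (c1 p + 1) ^ (1 / p) * (∑ j, lipAt f j ^ p) ^ (1 / p) :=
          Real.mul_rpow (by positivity) hsum0

/-- The final statement. -/
theorem exists_space (p : ℝ) (hp : 1 < p) :
    ∃ (X : Type) (_ : NormedAddCommGroup X) (_ : NormedSpace ℝ X), CompleteSpace X ∧
      ¬ FiniteDimensional ℝ X ∧ HIC p X ∧ TopologicalSpace.SeparableSpace X ∧
      ¬ TopologicalSpace.SeparableSpace (StrongDual ℝ X) ∧ ¬ IsAsplund X := by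
  have hp1 : (1 : ENNReal) ≤ ENNReal.ofReal p := by
    rw [← ENNReal.ofReal_one]
    exact ENNReal.ofReal_le_ofReal hp.le
  have : Fact ((1 : ENNReal) ≤ ENNReal.ofReal p) := ⟨hp1⟩
  have hpt : ENNReal.ofReal p ≠ ⊤ := ENNReal.ofReal_ne_top
  have hpr : (ENNReal.ofReal p).toReal = p := ENNReal.toReal_ofReal (by linarith)
  have Z : JSys p (JT (ENNReal.ofReal p) hpt) := by
    have := sysJ (ENNReal.ofReal p) hpt
    rwa [hpr] at this
  have hp0 : 0 < p := by linarith
  refine ⟨JT (ENNReal.ofReal p) hpt, inferInstance, inferInstance, inferInstance, fun hfd => ?_,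
    hic hp Z, inferInstance, not_sep hp0 Z, fun hA => ?_⟩
  · refine not_sep hp0 Z ?_
    have := FiniteDimensional.proper_real (StrongDual ℝ (JT (ENNReal.ofReal p) hpt))
    infer_instance
  · refine not_sep_top hp0 Z (hA ⊤ (by simp) ?_)
    exact inferInstance

end Pool.Agent.Helper52.JamesTree
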