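import Mathlib

set_option autoImplicit false

open Filter Topology

namespace Pool.Agent.Helper52.Newman

/-! ### Positivity of the Fejer kernel in the closed disc -/

theorem fejer_circle (n : ℕ) (u : ℂ) (hu : ‖u‖ = 1) :
    Complex.normSq (∑ k ∈ Finset.range (n + 1), u ^ k)
      = (n + 1) + 2 * ∑ l ∈ Finset.range n, ((n : ℝ) - l) * (u ^ (l + 1)).re := by
  have hpow : ∀ k, Complex.normSq (u ^ k) = 1 := by
    intro k
    rw [Complex.normSq_eq_norm_sq, norm_pow, hu, one_pow, one_pow]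
  induction n with
  | zero => simp
  | succ n ih =>
    rw [Finset.sum_range_succ, Complex.normSq_add, ih, hpow]
    have h1 : ((∑ k ∈ Finset.range (n + 1), u ^ k) * (starRingEnd ℂ) (u ^ (n + 1))).re
        = ∑ l ∈ Finset.range (n + 1), (u ^ (l + 1)).re := by
      rw [Finset.sum_mul, Complex.re_sum, ← Finset.sum_range_reflect]
      refine Finset.sum_congr rfl fun k hk => ?_
      have hk' := Finset.mem_range.mp hk
      have e1 : n + 1 = (n + 1 - 1 - k) + (k + 1) := by omega
      have e2 : u ^ (n + 1) = u ^ (n + 1 - 1 - k) * u ^ (k + 1) := by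
        rw [← pow_add]
        congr 1
      rw [e2, map_mul, ← mul_assoc, Complex.mul_conj, hpow, Complex.ofReal_one, one_mul,
        Complex.conj_re]
    rw [h1]
    have h2 : ∑ l ∈ Finset.range (n + 1), (((n + 1 : ℕ) : ℝ) - l) * (u ^ (l + 1)).re
        = ∑ l ∈ Finset.range n, ((n : ℝ) - l) * (u ^ (l + 1)).re
          + ∑ l ∈ Finset.range (n + 1), (u ^ (l + 1)).re := by
      rw [Finset.sum_range_succ, Finset.sum_range_succ (fun l => (u ^ (l + 1)).re) n, ← add_assoc,
        ← Finset.sum_add_distrib]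
      congr 1
      · refine Finset.sum_congr rfl fun l _ => ?_
        push_cast
        ring
      · push_cast
        ring
    rw [h2]
    push_cast
    ring

theorem fejer_disc (n : ℕ) (u : ℂ) (hu : ‖u‖ ≤ 1) :
    0 ≤ 1 + ∑ l ∈ Finset.range n, 2 * (((n : ℝ) - l) / (n + 1)) * (u ^ (l + 1)).re := by
  set Q : ℂ → ℂ := fun u =>
    1 + ∑ l ∈ Finset.range n, ((2 * (((n : ℝ) - l) / (n + 1)) : ℝ) : ℂ) * u ^ (l + 1) with hQ
  have hre : ∀ u, (Q u).re
      = 1 + ∑ l ∈ Finset.range n, 2 * (((n : ℝ) - l) / (n + 1)) * (u ^ (l + 1)).re := by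
    intro u
    rw [hQ]
    simp only [Complex.add_re, Complex.one_re, Complex.re_sum, Complex.re_ofReal_mul]
  rw [← hre]
  have hdiff : Differentiable ℂ fun u => Complex.exp (-Q u) := by
    rw [hQ]
    fun_prop
  have hcirc : ∀ z ∈ frontier (Metric.ball (0 : ℂ) 1), ‖Complex.exp (-Q z)‖ ≤ 1 := by
    intro z hz
    rw [frontier_ball (0 : ℂ) one_ne_zero, mem_sphere_zero_iff_norm] at hz
    rw [Complex.norm_exp, Real.exp_le_one_iff, Complex.neg_re, neg_nonpos, hre]
    have h1 := fejer_circle n z hz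
    have h2 := Complex.normSq_nonneg (∑ k ∈ Finset.range (n + 1), z ^ k)
    have hn : (0 : ℝ) < n + 1 := by positivity
    have h3 : 1 + ∑ l ∈ Finset.range n, 2 * (((n : ℝ) - l) / (n + 1)) * (z ^ (l + 1)).re
        = ((n + 1) + 2 * ∑ l ∈ Finset.range n, ((n : ℝ) - l) * (z ^ (l + 1)).re) / (n + 1) := by
      rw [add_div, div_self hn.ne', Finset.mul_sum, Finset.sum_div]
      congr 1
      refine Finset.sum_congr rfl fun l _ => ?_
      ring
    rw [h3, ← h1]
    positivity
  have h4 := Complex.norm_le_of_forall_mem_frontier_norm_le Metric.isBounded_ball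
    hdiff.diffContOnCl hcirc (z := u) (by
      rw [closure_ball (0 : ℂ) one_ne_zero, mem_closedBall_zero_iff]
      exact hu)
  rw [Complex.norm_exp, Real.exp_le_one_iff, Complex.neg_re, neg_nonpos] at h4
  exact h4

/-! ### Harmonic sums -/

/-- The sums `∑ (1 - (l+1)/(n+1)) / (l+1)`. -/
noncomputable def AA (n : ℕ) : ℝ :=
  ∑ l ∈ Finset.range n, (((n : ℝ) - l) / (n + 1)) / (l + 1)

theorem AA_eq (n : ℕ) : AA n = ∑ l ∈ Finset.range (n + 1), 1 / ((l : ℝ) + 1) - 1 := by
  have h1 : ∀ l ∈ Finset.range n, (((n : ℝ) - l) / (n + 1)) / (l + 1)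
      = 1 / ((l : ℝ) + 1) - 1 / (n + 1) := by
    intro l _
    have h1 : (l : ℝ) + 1 ≠ 0 := by positivity
    have h2 : (n : ℝ) + 1 ≠ 0 := by positivity
    field_simp
    ring
  unfold AA
  rw [Finset.sum_congr rfl h1, Finset.sum_sub_distrib, Finset.sum_const, Finset.card_range,
    nsmul_eq_mul, Finset.sum_range_succ]
  have h2 : (n : ℝ) + 1 ≠ 0 := by positivity
  field_simp
  ring

theorem AA_zero : AA 0 = 0 := by simp [AA]

theorem AA_succ_le (n : ℕ) : AA (n + 1) ≤ AA n + 1 := by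
  rw [AA_eq, AA_eq, Finset.sum_range_succ _ (n + 1)]
  have : 1 / (((n + 1 : ℕ) : ℝ) + 1) ≤ 1 := by
    rw [div_le_one (by positivity)]
    have : (0 : ℝ) ≤ ((n + 1 : ℕ) : ℝ) := by positivity
    linarith
  linarith

theorem exists_AA (y : ℝ) (hy : 0 ≤ y) : ∃ n, AA n ≤ y ∧ y < AA n + 1 := by
  have hex : ∃ n, y < AA n := by
    have h1 := Real.tendsto_sum_range_one_div_nat_succ_atTop
    obtain ⟨n, hn⟩ := (h1.eventually (eventually_gt_atTop (y + 1))).exists_forall_of_atTop
    refine ⟨n, ?_⟩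
    rw [AA_eq]
    have := hn (n + 1) (by omega)
    linarith
  classical
  have h0 : Nat.find hex ≠ 0 := by
    intro h
    have := Nat.find_spec hex
    rw [h, AA_zero] at this
    linarith
  obtain ⟨k, hk⟩ := Nat.exists_eq_succ_of_ne_zero h0
  refine ⟨k, ?_, ?_⟩
  · exact not_lt.mp (Nat.find_min hex (by omega))
  · have h1 := Nat.find_spec hex
    rw [hk] at h1
    exact lt_of_lt_of_le h1 (AA_succ_le k)

/-! ### Finitely supported sequences and the pairing -/

/-- Finite support. -/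
def FS (h : ℕ → ℝ) : Prop := ∃ D, ∀ i, D ≤ i → h i = 0

theorem FS.add {g h : ℕ → ℝ} (hg : FS g) (hh : FS h) : FS (g + h) := by
  obtain ⟨D, hD⟩ := hg
  obtain ⟨E, hE⟩ := hh
  refine ⟨max D E, fun i hi => ?_⟩
  rw [Pi.add_apply, hD i (le_trans (le_max_left _ _) hi), hE i (le_trans (le_max_right _ _) hi),
    add_zero]

theorem FS.sub {g h : ℕ → ℝ} (hg : FS g) (hh : FS h) : FS (g - h) := by
  obtain ⟨D, hD⟩ := hg
  obtain ⟨E, hE⟩ := hh
  refine ⟨max D E, fun i hi => ?_⟩
  rw [Pi.sub_apply, hD i (le_trans (le_max_left _ _) hi), hE i (le_trans (le_max_right _ _) hi),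
    sub_zero]

theorem FS.summable_mul {h : ℕ → ℝ} (hh : FS h) (F : ℕ → ℝ) : Summable fun i => h i * F i := by
  obtain ⟨D, hD⟩ := hh
  refine summable_of_ne_finset_zero (s := Finset.range D) fun i hi => ?_
  rw [hD i (by simpa using hi), zero_mul]

theorem FS.summable_mulC {h : ℕ → ℝ} (hh : FS h) (F : ℕ → ℂ) :
    Summable fun i => (h i : ℂ) * F i := by
  obtain ⟨D, hD⟩ := hh
  refine summable_of_ne_finset_zero (s := Finset.range D) fun i hi => ?_
  rw [hD i (by simpa using hi), Complex.ofReal_zero, zero_mul]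

/-- The pairing `T(h,c)(m) = ∑ h_i c_{i+1+m} / (i+1+m)`. -/
noncomputable def TT (h c : ℕ → ℝ) (m : ℕ) : ℝ :=
  ∑' i : ℕ, h i * (c (i + 1 + m) / ((i : ℝ) + 1 + m))

theorem TT_add (g h c : ℕ → ℝ) (hg : FS g) (hh : FS h) (m : ℕ) :
    TT (g + h) c m = TT g c m + TT h c m := by
  unfold TT
  rw [← (hg.summable_mul _).tsum_add (hh.summable_mul _)]
  refine tsum_congr fun i => ?_
  rw [Pi.add_apply]
  ring

theorem TT_sub (h c e : ℕ → ℝ) (hh : FS h) (m : ℕ) :
    TT h (c - e) m = TT h c m - TT h e m := by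
  unfold TT
  rw [← (hh.summable_mul _).tsum_sub (hh.summable_mul _)]
  refine tsum_congr fun i => ?_
  rw [Pi.sub_apply]
  ring

/-- If `c` vanishes from `D` on, then so does the pairing. -/
theorem TT_eq_zero (h c : ℕ → ℝ) (D m : ℕ) (hc : ∀ n, D ≤ n → c n = 0) (hm : D ≤ m) :
    TT h c m = 0 := by
  unfold TT
  refine (tsum_congr fun i => ?_).trans tsum_zero
  rw [hc _ (by omega), zero_div, mul_zero]

theorem TT_small (h e : ℕ → ℝ) (hh : FS h) (M : ℕ) (hM : 0 < M) (he : ∀ n, n ≤ M → e n = 0)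
    (he1 : ∀ n, |e n| ≤ 1) (m : ℕ) : |TT h e m| ≤ (∑' i, |h i|) / M := by
  have hs : Summable fun i => |h i| := by
    obtain ⟨D, hD⟩ := hh
    refine summable_of_ne_finset_zero (s := Finset.range D) fun i hi => ?_
    rw [hD i (by simpa using hi), abs_zero]
  have hMr : (0 : ℝ) < M := by exact_mod_cast hM
  unfold TT
  rw [← tsum_div_const]
  have h1 : ∀ i, ‖h i * (e (i + 1 + m) / ((i : ℝ) + 1 + m))‖ ≤ |h i| / M := by
    intro i
    rw [Real.norm_eq_abs, abs_mul, abs_div]
    by_cases hi : i + 1 + m ≤ M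
    · rw [he _ hi]
      simp
      positivity
    · push Not at hi
      have h2 : (M : ℝ) ≤ (i : ℝ) + 1 + m := by exact_mod_cast hi.le
      have h3 : |(i : ℝ) + 1 + m| = (i : ℝ) + 1 + m := abs_of_pos (by positivity)
      rw [h3, mul_div_assoc']
      apply div_le_div₀ (abs_nonneg _) _ hMr h2
      exact mul_le_of_le_one_right (abs_nonneg _) (he1 _)
  have h2 := tsum_of_norm_bounded (hs.div_const (M : ℝ)).hasSum h1
  rwa [Real.norm_eq_abs] at h2

/-- The generation block of coefficients. -/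
noncomputable def gg (x : ℝ) (M n : ℕ) (i : ℕ) : ℝ :=
  ∑ l ∈ Finset.range n, if i = M * (l + 1) then 2 * x * (((n : ℝ) - l) / (n + 1)) else 0

theorem gg_nonneg (x : ℝ) (hx : 0 ≤ x) (M n i : ℕ) : 0 ≤ gg x M n i := by
  unfold gg
  refine Finset.sum_nonneg fun l hl => ?_
  have : (l : ℝ) ≤ n := by exact_mod_cast (Finset.mem_range.mp hl).le
  split_ifs
  · have h1 : 0 ≤ (n : ℝ) - l := by linarith
    positivity
  · exact le_rfl

theorem gg_eq_zero (x : ℝ) (M n i : ℕ) (hi : i < M) : gg x M n i = 0 := by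
  unfold gg
  refine Finset.sum_eq_zero fun l _ => ?_
  rw [if_neg]
  intro h
  have : M ≤ M * (l + 1) := Nat.le_mul_of_pos_right M (by omega)
  omega

theorem gg_FS (x : ℝ) (M n : ℕ) : FS (gg x M n) := by
  refine ⟨M * n + 1, fun i hi => ?_⟩
  unfold gg
  refine Finset.sum_eq_zero fun l hl => ?_
  rw [if_neg]
  intro h
  have h1 : l + 1 ≤ n := Finset.mem_range.mp hl
  have : M * (l + 1) ≤ M * n := Nat.mul_le_mul_left M h1
  omega

theorem gg_hasSum (x : ℝ) (M n : ℕ) (F : ℕ → ℝ) :
    HasSum (fun i => gg x M n i * F i)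
      (∑ l ∈ Finset.range n, 2 * x * (((n : ℝ) - l) / (n + 1)) * F (M * (l + 1))) := by
  have h1 : (fun i => gg x M n i * F i) = fun i => ∑ l ∈ Finset.range n,
      (if i = M * (l + 1) then 2 * x * (((n : ℝ) - l) / (n + 1)) * F (M * (l + 1)) else 0) := by
    funext i
    unfold gg
    rw [Finset.sum_mul]
    refine Finset.sum_congr rfl fun l _ => ?_
    split_ifs with h
    · rw [← h]
    · rw [zero_mul]
  rw [h1]
  exact hasSum_sum fun l _ => hasSum_ite_eq _ _

theorem gg_hasSumC (x : ℝ) (M n : ℕ) (F : ℕ → ℂ) :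
    HasSum (fun i => (gg x M n i : ℂ) * F i)
      (∑ l ∈ Finset.range n, ((2 * x * (((n : ℝ) - l) / (n + 1)) : ℝ) : ℂ)
        * F (M * (l + 1))) := by
  have h1 : (fun i => (gg x M n i : ℂ) * F i) = fun i => ∑ l ∈ Finset.range n,
      (if i = M * (l + 1) then ((2 * x * (((n : ℝ) - l) / (n + 1)) : ℝ) : ℂ)
        * F (M * (l + 1)) else 0) := by
    funext i
    unfold gg
    rw [Complex.ofReal_sum, Finset.sum_mul]
    refine Finset.sum_congr rfl fun l _ => ?_
    split_ifs with h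
    · rw [← h]
    · rw [Complex.ofReal_zero, zero_mul]
  rw [h1]
  exact hasSum_sum fun l _ => hasSum_ite_eq _ _

/-- The new values of the functional. -/
def en (β : ℕ → ℝ) (M n : ℕ) (r : ℕ) : ℝ :=
  if M + 1 ≤ r ∧ r ≤ M * (n + 1) then β ((r - 1) % M) else 0

theorem TT_gg (x : ℝ) (M n : ℕ) (c : ℕ → ℝ) (m : ℕ) :
    TT (gg x M n) c m = ∑ l ∈ Finset.range n, 2 * x * (((n : ℝ) - l) / (n + 1)) *
      (c (M * (l + 1) + 1 + m) / (((M * (l + 1) : ℕ) : ℝ) + 1 + m)) :=
  (gg_hasSum x M n (fun i => c (i + 1 + m) / ((i : ℝ) + 1 + m))).tsum_eq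

theorem gg_cost (x : ℝ) (M n : ℕ) (hx : 0 ≤ x) (hM : 0 < M) :
    ∑' i, gg x M n i * (1 / ((i : ℝ) + 1)) ≤ x * (2 / M * AA n) := by
  rw [(gg_hasSum x M n (fun i => 1 / ((i : ℝ) + 1))).tsum_eq]
  unfold AA
  rw [Finset.mul_sum, Finset.mul_sum]
  refine Finset.sum_le_sum fun l hl => ?_
  have hMr : (0 : ℝ) < M := by exact_mod_cast hM
  have hl' : (l : ℝ) ≤ n := by exact_mod_cast (Finset.mem_range.mp hl).le
  have h1 : 0 ≤ ((n : ℝ) - l) / (n + 1) := by
    have : 0 ≤ (n : ℝ) - l := by linarith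
    positivity
  have h2 : x * (2 / M * (((n : ℝ) - l) / (n + 1) / (l + 1)))
      = 2 * x * (((n : ℝ) - l) / (n + 1)) * (1 / (M * ((l : ℝ) + 1))) := by
    field_simp
  rw [h2]
  refine mul_le_mul_of_nonneg_left ?_ (by positivity)
  refine one_div_le_one_div_of_le (by positivity) ?_
  push_cast
  linarith

/-- One generation. -/
theorem generation (h c : ℕ → ℝ) (hh : FS h) (hc : FS c) (hc1 : ∀ n, |c n| ≤ 1) (K : ℕ)
    (β : ℕ → ℝ) (hβ : ∀ m, |β m| ≤ 1) (hβ0 : ∀ m, K ≤ m → β m = 0) (x H η : ℝ) (hx : 0 < x)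
    (hH : 0 ≤ H) (hη : 0 < η) (K0 : ℕ) :
    ∃ g e : ℕ → ℝ, FS g ∧ FS e ∧ (∀ i, 0 ≤ g i) ∧ (∀ i, i < K0 → g i = 0) ∧
      (∀ i, i < K0 → e i = 0) ∧ (∀ n, |(c - e) n| ≤ 1) ∧
      ∑' i, g i * (1 / ((i : ℝ) + 1)) ≤ x * H ∧
      (∀ z : ℂ, ‖z‖ ≤ 1 → 0 ≤ x + (∑' i, (g i : ℂ) * z ^ i).re) ∧
      (∀ m, m < K → |TT (h + g) (c - e) m - (TT h c m - x * H * β m)| ≤ η) ∧
      (∀ m, K ≤ m → |TT (h + g) (c - e) m| ≤ max |TT h c m| (x * H) + η) := by
  obtain ⟨D, hD⟩ := hc
  set S : ℝ := ∑' i, |h i| with hS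
  have hS0 : 0 ≤ S := tsum_nonneg fun i => abs_nonneg _
  obtain ⟨M, hM⟩ : ∃ M : ℕ, max (max K0 K) D + 1 ≤ M ∧ (2 * x + K * (x * H) + S) / η ≤ M := by
    obtain ⟨M1, hM1⟩ := exists_nat_ge ((2 * x + K * (x * H) + S) / η)
    refine ⟨max (max (max K0 K) D + 1) M1, le_max_left _ _, ?_⟩
    refine hM1.trans ?_
    exact_mod_cast le_max_right _ _
  obtain ⟨hMa, hMb⟩ := hM
  have hMK0 : K0 ≤ M := by
    have := le_max_left K0 K
    have := le_max_left (max K0 K) D
    omega
  have hMK : K ≤ M := by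
    have := le_max_right K0 K
    have := le_max_left (max K0 K) D
    omega
  have hMD : D ≤ M := by
    have := le_max_right (max K0 K) D
    omega
  have hMpos : 0 < M := by omega
  have hMr : (0 : ℝ) < M := by exact_mod_cast hMpos
  have herr : (2 * x + K * (x * H) + S) / M ≤ η := by
    rw [div_le_iff₀ hη] at hMb
    rw [div_le_iff₀ hMr]
    linarith
  obtain ⟨n, hn1, hn2⟩ := exists_AA (H * M / 2) (by positivity)
  have hA1 : 2 / M * AA n ≤ H := by
    have : 2 / (M : ℝ) * AA n ≤ 2 / M * (H * M / 2) :=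
      mul_le_mul_of_nonneg_left hn1 (by positivity)
    refine this.trans (le_of_eq ?_)
    field_simp
  have hA2 : H - 2 / M ≤ 2 / M * AA n := by
    have : 2 / (M : ℝ) * (H * M / 2) ≤ 2 / M * (AA n + 1) :=
      mul_le_mul_of_nonneg_left hn2.le (by positivity)
    have h2 : 2 / (M : ℝ) * (H * M / 2) = H := by field_simp
    rw [h2] at this
    linarith
  have he0 : ∀ r, r ≤ M → en β M n r = 0 := by
    intro r hr
    unfold en
    rw [if_neg]
    omega
  have he1 : ∀ r, |en β M n r| ≤ 1 := by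
    intro r
    unfold en
    split_ifs
    · exact hβ _
    · simp
  have hFSe : FS (en β M n) := by
    refine ⟨M * (n + 1) + 1, fun r hr => ?_⟩
    unfold en
    rw [if_neg]
    omega
  have hFSg := gg_FS x M n
  -- decomposition
  have hdec : ∀ m, TT (h + gg x M n) (c - en β M n) m
      = TT h c m - TT h (en β M n) m - TT (gg x M n) (en β M n) m := by
    intro m
    rw [TT_add h (gg x M n) _ hh hFSg, TT_sub h c _ hh, TT_sub (gg x M n) c _ hFSg]
    have hz : TT (gg x M n) c m = 0 := by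
      rw [TT_gg]
      refine Finset.sum_eq_zero fun l _ => ?_
      have h1 : M ≤ M * (l + 1) := Nat.le_mul_of_pos_right M (by omega)
      rw [hD _ (by omega), zero_div, mul_zero]
    rw [hz]
    ring
  have hsmall : ∀ m, |TT h (en β M n) m| ≤ S / M := fun m =>
    TT_small h _ hh M hMpos he0 he1 m
  -- values of the main pairing
  have hval : ∀ m, m < M → TT (gg x M n) (en β M n) m
      = β m * ∑ l ∈ Finset.range n, 2 * x * (((n : ℝ) - l) / (n + 1)) *
        (1 / (((M * (l + 1) : ℕ) : ℝ) + 1 + m)) := by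
    intro m hm
    rw [TT_gg, Finset.mul_sum]
    refine Finset.sum_congr rfl fun l hl => ?_
    have hl' : l + 1 ≤ n := Finset.mem_range.mp hl
    have h1 : en β M n (M * (l + 1) + 1 + m) = β m := by
      unfold en
      have h2 : M ≤ M * (l + 1) := Nat.le_mul_of_pos_right M (by omega)
      have h3 : M * (l + 1) + M ≤ M * (n + 1) := by
        calc M * (l + 1) + M = M * (l + 1 + 1) := by ring
          _ ≤ M * (n + 1) := Nat.mul_le_mul_left M (by omega)
      rw [if_pos ⟨by omega, by omega⟩]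
      have h4 : M * (l + 1) + 1 + m - 1 = m + M * (l + 1) := by omega
      rw [h4, Nat.add_mul_mod_self_left, Nat.mod_eq_of_lt hm]
    rw [h1]
    ring
  -- weights
  have hw : ∀ l ∈ Finset.range n, 0 ≤ 2 * x * (((n : ℝ) - l) / (n + 1)) := by
    intro l hl
    have hl' : (l : ℝ) ≤ n := by exact_mod_cast (Finset.mem_range.mp hl).le
    have : 0 ≤ (n : ℝ) - l := by linarith
    positivity
  have htot : ∑ l ∈ Finset.range n, 2 * x * (((n : ℝ) - l) / (n + 1)) *
      (1 / (M * ((l : ℝ) + 1))) = x * (2 / M * AA n) := by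
    unfold AA
    rw [Finset.mul_sum, Finset.mul_sum]
    refine Finset.sum_congr rfl fun l _ => ?_
    field_simp
  refine ⟨gg x M n, en β M n, hFSg, hFSe, gg_nonneg x hx.le M n, ?_, ?_, ?_, ?_, ?_, ?_, ?_⟩
  · intro i hi
    exact gg_eq_zero x M n i (by omega)
  · intro i hi
    exact he0 i (by omega)
  · intro r
    rw [Pi.sub_apply]
    by_cases hr : r ≤ M
    · rw [he0 r hr, sub_zero]
      exact hc1 r
    · rw [hD r (by omega), zero_sub, abs_neg]
      exact he1 r
  · refine (gg_cost x M n hx.le hMpos).trans ?_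
    exact mul_le_mul_of_nonneg_left hA1 hx.le
  · intro z hz
    rw [(gg_hasSumC x M n (fun i => z ^ i)).tsum_eq, Complex.re_sum]
    have h1 := fejer_disc n (z ^ M) (by
      rw [norm_pow]
      exact pow_le_one₀ (norm_nonneg _) hz)
    have h2 : x + ∑ l ∈ Finset.range n,
        (((2 * x * (((n : ℝ) - l) / (n + 1)) : ℝ) : ℂ) * z ^ (M * (l + 1))).re
        = x * (1 + ∑ l ∈ Finset.range n, 2 * (((n : ℝ) - l) / (n + 1))
          * ((z ^ M) ^ (l + 1)).re) := by
      rw [mul_add, mul_one, Finset.mul_sum]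
      congr 1
      refine Finset.sum_congr rfl fun l _ => ?_
      rw [Complex.re_ofReal_mul, pow_mul]
      ring
    rw [h2]
    positivity
  · intro m hm
    rw [hdec, hval m (by omega)]
    have hb1 : ∑ l ∈ Finset.range n, 2 * x * (((n : ℝ) - l) / (n + 1)) *
        (1 / (((M * (l + 1) : ℕ) : ℝ) + 1 + m)) ≤ x * (2 / M * AA n) := by
      rw [← htot]
      refine Finset.sum_le_sum fun l hl => mul_le_mul_of_nonneg_left ?_ (hw l hl)
      refine one_div_le_one_div_of_le (by positivity) ?_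
      push_cast
      have : (0 : ℝ) ≤ m := by positivity
      linarith
    have hb2 : x * (2 / M * AA n) - (K / M) * (x * (2 / M * AA n))
        ≤ ∑ l ∈ Finset.range n, 2 * x * (((n : ℝ) - l) / (n + 1)) *
        (1 / (((M * (l + 1) : ℕ) : ℝ) + 1 + m)) := by
      rw [← htot, Finset.mul_sum, ← Finset.sum_sub_distrib]
      refine Finset.sum_le_sum fun l hl => ?_
      have h5 : (1 - (K : ℝ) / M) * (1 / (M * ((l : ℝ) + 1)))
          ≤ 1 / (((M * (l + 1) : ℕ) : ℝ) + 1 + m) := by
        push_cast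
        have hKm : (m : ℝ) + 1 ≤ K := by exact_mod_cast hm
        have hl0 : (0 : ℝ) ≤ l := by positivity
        have hm0 : (0 : ℝ) ≤ m := by positivity
        have hK0' : (K : ℝ) ≤ M := by exact_mod_cast hMK
        have hp1 : (0 : ℝ) < M * ((l : ℝ) + 1) := by positivity
        have hp2 : (0 : ℝ) < M * ((l : ℝ) + 1) + 1 + m := by positivity
        have h6 : (1 - (K : ℝ) / M) * (1 / (M * ((l : ℝ) + 1)))
            = ((M : ℝ) - K) / (M * (M * ((l : ℝ) + 1))) := by
          field_simp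
        rw [h6, div_le_div_iff₀ (by positivity) hp2]
        have h7 : (M : ℝ) ≤ M * ((l : ℝ) + 1) := by nlinarith
        nlinarith [mul_nonneg (sub_nonneg.mpr hK0') hm0]
      have h8 := mul_le_mul_of_nonneg_left h5 (hw l hl)
      calc 2 * x * (((n : ℝ) - l) / (n + 1)) * (1 / (M * ((l : ℝ) + 1)))
          - K / M * (2 * x * (((n : ℝ) - l) / (n + 1)) * (1 / (M * ((l : ℝ) + 1))))
          = 2 * x * (((n : ℝ) - l) / (n + 1)) * ((1 - (K : ℝ) / M) * (1 / (M * ((l : ℝ) + 1)))) := by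
            ring
        _ ≤ _ := h8
    set S1 := ∑ l ∈ Finset.range n, 2 * x * (((n : ℝ) - l) / (n + 1)) *
        (1 / (((M * (l + 1) : ℕ) : ℝ) + 1 + m)) with hS1
    have hu : x * H - S1 ≤ 2 * x / M + (K / M) * (x * H) := by
      have h9 : (K : ℝ) / M * (x * (2 / M * AA n)) ≤ K / M * (x * H) := by gcongr
      have h10 : x * H - x * (2 / M * AA n) ≤ 2 * x / M := by
        have : x * (H - 2 / M) ≤ x * (2 / M * AA n) := mul_le_mul_of_nonneg_left hA2 hx.le
        have h11 : x * (H - 2 / M) = x * H - 2 * x / M := by ring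
        linarith
      linarith
    have hl : 0 ≤ x * H - S1 := by
      have : x * (2 / M * AA n) ≤ x * H := mul_le_mul_of_nonneg_left hA1 hx.le
      linarith
    have h12 : TT h c m - TT h (en β M n) m - β m * S1 - (TT h c m - x * H * β m)
        = β m * (x * H - S1) - TT h (en β M n) m := by ring
    rw [h12]
    refine le_trans (abs_sub _ _) ?_
    rw [abs_mul, abs_of_nonneg hl]
    have h13 : |β m| * (x * H - S1) ≤ 1 * (x * H - S1) :=
      mul_le_mul_of_nonneg_right (hβ m) hl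
    have h14 : 2 * x / M + (K / M) * (x * H) + S / M ≤ η := by
      refine le_trans (le_of_eq ?_) herr
      field_simp
    have h15 := hsmall m
    linarith
  · intro m hm
    rw [hdec]
    by_cases hmM : m < M
    · rw [hval m hmM, hβ0 m hm, zero_mul, sub_zero]
      refine le_trans (abs_sub _ _) ?_
      have h15 := hsmall m
      have h16 : S / M ≤ η := by
        refine le_trans ?_ herr
        gcongr
        have : 0 ≤ 2 * x + K * (x * H) := by positivity
        linarith
      have := le_max_left |TT h c m| (x * H)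
      linarith
    · push Not at hmM
      rw [TT_eq_zero h c D m hD (by omega), zero_sub]
      have h17 : |TT (gg x M n) (en β M n) m| ≤ x * H := by
        rw [TT_gg]
        refine (Finset.abs_sum_le_sum_abs _ _).trans ?_
        refine le_trans ?_ (mul_le_mul_of_nonneg_left hA1 hx.le)
        rw [← htot]
        refine Finset.sum_le_sum fun l hl => ?_
        rw [abs_mul, abs_of_nonneg (hw l hl), abs_div]
        refine mul_le_mul_of_nonneg_left ?_ (hw l hl)
        have h18 : |(((M * (l + 1) : ℕ) : ℝ) + 1 + m)| = ((M * (l + 1) : ℕ) : ℝ) + 1 + m :=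
          abs_of_pos (by positivity)
        rw [h18]
        refine div_le_div₀ zero_le_one (he1 _) (by positivity) ?_
        push_cast
        have : (0 : ℝ) ≤ m := by positivity
        linarith
      have h15 := hsmall m
      have h16 : S / M ≤ η := by
        refine le_trans ?_ herr
        gcongr
        have : 0 ≤ 2 * x + K * (x * H) := by positivity
        linarith
      have h19 := le_max_right |TT h c m| (x * H)
      calc |-TT h (en β M n) m - TT (gg x M n) (en β M n) m|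
          ≤ |-TT h (en β M n) m| + |TT (gg x M n) (en β M n) m| := abs_sub _ _
        _ ≤ η + x * H := by
            rw [abs_neg]
            linarith
        _ ≤ _ := by
            have h20 : x * H ≤ max |(0 : ℝ)| (x * H) := le_max_right _ _
            linarith

end Pool.Agent.Helper52.Newman
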