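import Mathlib
import Pool.Agent.Helper52.NewmanGen

set_option autoImplicit false

open Filter Topology

namespace Pool.Agent.Helper52.Newman

theorem FS.zero : FS (0 : ℕ → ℝ) := ⟨0, fun _ _ => rfl⟩

theorem tsum_add_mul {g h : ℕ → ℝ} (hg : FS g) (hh : FS h) (F : ℕ → ℝ) :
    ∑' i, (g + h) i * F i = ∑' i, g i * F i + ∑' i, h i * F i := by
  rw [← (hg.summable_mul F).tsum_add (hh.summable_mul F)]
  exact tsum_congr fun i => by rw [Pi.add_apply]; ring

theorem tsum_add_mulC {g h : ℕ → ℝ} (hg : FS g) (hh : FS h) (F : ℕ → ℂ) :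
    ∑' i, (((g + h) i : ℝ) : ℂ) * F i = ∑' i, (g i : ℂ) * F i + ∑' i, (h i : ℂ) * F i := by
  rw [← (hg.summable_mulC F).tsum_add (hh.summable_mulC F)]
  exact tsum_congr fun i => by rw [Pi.add_apply]; push_cast; ring

/-- A block of generations. -/
theorem block (h c : ℕ → ℝ) (hh : FS h) (hc : FS c) (hc1 : ∀ n, |c n| ≤ 1) (δ : ℝ)
    (hδ : 0 < δ) (hT : ∀ m, |TT h c m| ≤ δ) (κ : ℝ) (hκ : 0 < κ) (δ' : ℝ) (hδ' : 0 < δ')
    (K0 : ℕ) :
    ∃ g e : ℕ → ℝ, FS g ∧ FS e ∧ (∀ i, 0 ≤ g i) ∧ (∀ i, i < K0 → g i = 0) ∧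
      (∀ i, i < K0 → e i = 0) ∧ (∀ n, |(c - e) n| ≤ 1) ∧
      ∑' i, g i * (1 / ((i : ℝ) + 1)) ≤ δ ∧
      (∀ z : ℂ, ‖z‖ ≤ 1 → 0 ≤ κ + (∑' i, (g i : ℂ) * z ^ i).re) ∧
      (∀ m, |TT (h + g) (c - e) m| ≤ δ') := by
  obtain ⟨D, hD⟩ := hc
  have hFSc : FS c := ⟨D, hD⟩
  obtain ⟨N, hN1, hN2⟩ : ∃ N : ℕ, 1 ≤ N ∧ 2 * δ / δ' ≤ N := by
    obtain ⟨N, hN⟩ := exists_nat_ge (2 * δ / δ')
    refine ⟨max N 1, le_max_right _ _, hN.trans ?_⟩
    exact_mod_cast le_max_left _ _
  have hNr : (0 : ℝ) < N := by exact_mod_cast hN1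
  have hδN : δ / N ≤ δ' / 2 := by
    rw [div_le_iff₀ hδ'] at hN2
    rw [div_le_iff₀ hNr]
    linarith
  set η : ℝ := δ' / (2 * N) with hη
  have hηpos : 0 < η := by positivity
  have hNη : (N : ℝ) * η = δ' / 2 := by
    rw [hη]
    field_simp
  have hxH : κ / N * (δ / κ) = δ / N := by
    field_simp
  have main : ∀ j : ℕ, ∃ g e : ℕ → ℝ, FS g ∧ FS e ∧ (∀ i, 0 ≤ g i) ∧ (∀ i, i < K0 → g i = 0) ∧
      (∀ i, i < K0 → e i = 0) ∧ (∀ n, |(c - e) n| ≤ 1) ∧
      ∑' i, g i * (1 / ((i : ℝ) + 1)) ≤ j * (δ / N) ∧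
      (∀ z : ℂ, ‖z‖ ≤ 1 → 0 ≤ j * (κ / N) + (∑' i, (g i : ℂ) * z ^ i).re) ∧
      (∀ m, m < D → |TT (h + g) (c - e) m - (1 - j / N) * TT h c m| ≤ j * η) ∧
      (∀ m, D ≤ m → |TT (h + g) (c - e) m| ≤ δ / N + j * η) := by
    intro j
    induction j with
    | zero =>
      refine ⟨0, 0, FS.zero, FS.zero, fun _ => le_rfl, fun _ _ => rfl, fun _ _ => rfl, ?_, ?_,
        ?_, ?_, ?_⟩
      · intro n
        rw [sub_zero]
        exact hc1 n
      · simp
      · intro z _
        simp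
      · intro m _
        rw [add_zero, sub_zero]
        simp
      · intro m hm
        rw [add_zero, sub_zero, TT_eq_zero h c D m hD hm]
        simp
        positivity
    | succ j ih =>
      obtain ⟨g, e, hg, he, hg0, hgK, heK, hce, hcost, hre, hlow, hhigh⟩ := ih
      obtain ⟨g', e', hg', he', hg0', hgK', heK', hce', hcost', hre', hlow', hhigh'⟩ :=
        generation (h + g) (c - e) (hh.add hg) (hFSc.sub he) hce D (fun m => TT h c m / δ)
          (fun m => by
            rw [abs_div, abs_of_pos hδ, div_le_one hδ]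
            exact hT m)
          (fun m hm => by
            rw [TT_eq_zero h c D m hD hm, zero_div])
          (κ / N) (δ / κ) η (by positivity) (by positivity) hηpos K0
      refine ⟨g + g', e + e', hg.add hg', he.add he', ?_, ?_, ?_, ?_, ?_, ?_, ?_, ?_⟩
      · intro i
        exact add_nonneg (hg0 i) (hg0' i)
      · intro i hi
        rw [Pi.add_apply, hgK i hi, hgK' i hi, add_zero]
      · intro i hi
        rw [Pi.add_apply, heK i hi, heK' i hi, add_zero]
      · intro n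
        rw [← sub_sub]
        exact hce' n
      · rw [tsum_add_mul hg hg']
        rw [hxH] at hcost'
        push_cast
        linarith
      · intro z hz
        rw [tsum_add_mulC hg hg', Complex.add_re]
        have h1 := hre z hz
        have h2 := hre' z hz
        push_cast
        linarith
      · intro m hm
        have h1 := hlow m hm
        have h2 := hlow' m hm
        rw [← add_assoc, ← sub_sub]
        have h3 : κ / N * (δ / κ) * (TT h c m / δ) = TT h c m / N := by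
          rw [hxH]
          field_simp
        rw [h3] at h2
        have h4 : TT (h + g + g') (c - e - e') m - (1 - ((j + 1 : ℕ) : ℝ) / N) * TT h c m
            = (TT (h + g + g') (c - e - e') m - (TT (h + g) (c - e) m - TT h c m / N))
              + (TT (h + g) (c - e) m - (1 - j / N) * TT h c m) := by
          push_cast
          field_simp
          ring
        rw [h4]
        refine (abs_add_le _ _).trans ?_
        push_cast
        linarith
      · intro m hm
        have h1 := hhigh m hm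
        have h2 := hhigh' m hm
        rw [← add_assoc, ← sub_sub]
        rw [hxH] at h2
        have h3 : max |TT (h + g) (c - e) m| (δ / N) ≤ δ / N + j * η := by
          refine max_le h1 ?_
          have : 0 ≤ (j : ℝ) * η := by positivity
          linarith
        push_cast
        linarith
  obtain ⟨g, e, hg, he, hg0, hgK, heK, hce, hcost, hre, hlow, hhigh⟩ := main N
  refine ⟨g, e, hg, he, hg0, hgK, heK, hce, ?_, ?_, ?_⟩
  · refine hcost.trans (le_of_eq ?_)
    field_simp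
  · intro z hz
    have h1 := hre z hz
    have h2 : (N : ℝ) * (κ / N) = κ := by field_simp
    rwa [h2] at h1
  · intro m
    rcases lt_or_ge m D with hm | hm
    · have h1 := hlow m hm
      rw [div_self hNr.ne', sub_self, zero_mul, sub_zero] at h1
      linarith
    · have h1 := hhigh m hm
      linarith

/-- The invariant of the construction. -/
structure Good (k : ℕ) (s : (ℕ → ℝ) × (ℕ → ℝ) × ℕ) : Prop where
  le : k ≤ s.2.2
  hD : ∀ i, s.2.2 ≤ i → s.1 i = 0
  cD : ∀ n, s.2.2 ≤ n → s.2.1 n = 0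
  h0 : ∀ i, 0 ≤ s.1 i
  c1 : ∀ n, |s.2.1 n| ≤ 1
  two : 2 ≤ s.2.2
  cz : s.2.1 0 = 0
  co : s.2.1 1 = 1
  cost : ∑' i, s.1 i * (1 / ((i : ℝ) + 1)) ≤ 3 - 2 * (1 / 2) ^ k
  re : ∀ z : ℂ, ‖z‖ ≤ 1 → 1 / 2 + (1 / 2) ^ (k + 1) ≤ (∑' i, (s.1 i : ℂ) * z ^ i).re
  T : ∀ m, |TT s.1 s.2.1 m| ≤ (1 / 2) ^ k

theorem good_zero :
    Good 0 (fun i => if i = 0 then 1 else 0, fun n => if n = 1 then 1 else 0, 2) where
  le := by norm_num
  hD i hi := by
    have : (2 : ℕ) ≤ i := hi
    simp only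
    rw [if_neg (by omega)]
  cD n hn := by
    have : (2 : ℕ) ≤ n := hn
    simp only
    rw [if_neg (by omega)]
  h0 i := by
    simp only
    split_ifs <;> norm_num
  c1 n := by
    simp only
    split_ifs <;> norm_num
  two := le_rfl
  cz := by simp
  co := by simp
  cost := by
    have h1 : ∀ i : ℕ, (if i = 0 then (1 : ℝ) else 0) * (1 / ((i : ℝ) + 1))
        = if i = 0 then (1 : ℝ) else 0 := by
      intro i
      split_ifs with h
      · subst h
        norm_num
      · rw [zero_mul]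
    simp only [h1, tsum_ite_eq]
    norm_num
  re z hz := by
    have h1 : ∀ i : ℕ, (((if i = 0 then (1 : ℝ) else 0 : ℝ)) : ℂ) * z ^ i
        = if i = 0 then (1 : ℂ) else 0 := by
      intro i
      split_ifs with h
      · subst h
        simp
      · simp
    simp only [h1, tsum_ite_eq]
    norm_num
  T m := by
    have h1 : ∀ i : ℕ, (if i = 0 then (1 : ℝ) else 0) *
        ((if i + 1 + m = 1 then (1 : ℝ) else 0) / ((i : ℝ) + 1 + m))
        = if i = 0 then ((if m = 0 then (1 : ℝ) else 0) / (1 + m)) else 0 := by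
      intro i
      split_ifs <;> first | omega | simp_all
    unfold TT
    simp only [h1, tsum_ite_eq]
    split_ifs with h
    · subst h
      norm_num
    · norm_num

theorem good_step (k : ℕ) (s : (ℕ → ℝ) × (ℕ → ℝ) × ℕ) (hs : Good k s) :
    ∃ s' : (ℕ → ℝ) × (ℕ → ℝ) × ℕ, Good (k + 1) s' ∧ (∀ i, i < s.2.2 → s'.1 i = s.1 i) ∧
      (∀ n, n < s.2.2 → s'.2.1 n = s.2.1 n) ∧ (∀ i, s.1 i ≤ s'.1 i) := by
  obtain ⟨h, c, D⟩ := s
  have hFSh : FS h := ⟨D, hs.hD⟩
  have hFSc : FS c := ⟨D, hs.cD⟩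
  obtain ⟨g, e, hg, he, hg0, hgK, heK, hce, hcost, hre, hT⟩ :=
    block h c hFSh hFSc hs.c1 ((1 / 2) ^ k) (by positivity) hs.T ((1 / 2) ^ (k + 2))
      (by positivity) ((1 / 2) ^ (k + 1)) (by positivity) D
  obtain ⟨Dg, hDg⟩ := hg
  obtain ⟨De, hDe⟩ := he
  have hFSg : FS g := ⟨Dg, hDg⟩
  have hFSe : FS e := ⟨De, hDe⟩
  have h2 : (2 : ℕ) ≤ D := hs.two
  refine ⟨(h + g, c - e, max (max D (k + 1)) (max Dg De)), ?_, ?_, ?_, ?_⟩
  · constructor
    · exact (le_max_right _ _).trans (le_max_left _ _)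
    · intro i hi
      have h3 : D ≤ i := ((le_max_left _ _).trans (le_max_left _ _)).trans hi
      have h4 : Dg ≤ i := ((le_max_left _ _).trans (le_max_right _ _)).trans hi
      have h5 : h i = 0 := hs.hD i h3
      change h i + g i = 0
      rw [h5, hDg i h4, add_zero]
    · intro i hi
      have h3 : D ≤ i := ((le_max_left _ _).trans (le_max_left _ _)).trans hi
      have h4 : De ≤ i := ((le_max_right _ _).trans (le_max_right _ _)).trans hi
      have h5 : c i = 0 := hs.cD i h3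
      change c i - e i = 0
      rw [h5, hDe i h4, sub_zero]
    · intro i
      exact add_nonneg (hs.h0 i) (hg0 i)
    · exact hce
    · exact h2.trans ((le_max_left _ _).trans (le_max_left _ _))
    · change c 0 - e 0 = 0
      rw [heK 0 (by omega), sub_zero]
      exact hs.cz
    · change c 1 - e 1 = 1
      rw [heK 1 (by omega), sub_zero]
      exact hs.co
    · change ∑' i, (h + g) i * (1 / ((i : ℝ) + 1)) ≤ _
      rw [tsum_add_mul hFSh hFSg]
      have h3 := hs.cost
      simp only at h3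
      have h4 : (1 / 2 : ℝ) ^ (k + 1) = (1 / 2) ^ k / 2 := by rw [pow_succ]; ring
      rw [h4]
      linarith
    · intro z hz
      change _ ≤ (∑' i, (((h + g) i : ℝ) : ℂ) * z ^ i).re
      rw [tsum_add_mulC hFSh hFSg, Complex.add_re]
      have h3 := hs.re z hz
      simp only at h3
      have h4 := hre z hz
      have h5 : (1 / 2 : ℝ) ^ (k + 1 + 1) = (1 / 2) ^ (k + 2) := rfl
      have h6 : (1 / 2 : ℝ) ^ (k + 1) = 2 * (1 / 2) ^ (k + 2) := by
        rw [pow_succ _ (k + 1)]; ring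
      rw [h5]
      linarith
    · exact hT
  · intro i hi
    change h i + g i = h i
    rw [hgK i hi, add_zero]
  · intro i hi
    change c i - e i = c i
    rw [heK i hi, sub_zero]
  · intro i
    change h i ≤ h i + g i
    linarith [hg0 i]

theorem exists_seq : ∃ S : ℕ → (ℕ → ℝ) × (ℕ → ℝ) × ℕ, ∀ k, Good k (S k) ∧
    (∀ i, i < (S k).2.2 → (S (k + 1)).1 i = (S k).1 i) ∧
    (∀ n, n < (S k).2.2 → (S (k + 1)).2.1 n = (S k).2.1 n) ∧
    (∀ i, (S k).1 i ≤ (S (k + 1)).1 i) := by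
  classical
  have hstep : ∀ (k : ℕ) (s : (ℕ → ℝ) × (ℕ → ℝ) × ℕ), ∃ s' : (ℕ → ℝ) × (ℕ → ℝ) × ℕ,
      Good k s → (Good (k + 1) s' ∧ (∀ i, i < s.2.2 → s'.1 i = s.1 i) ∧
      (∀ n, n < s.2.2 → s'.2.1 n = s.2.1 n) ∧ (∀ i, s.1 i ≤ s'.1 i)) := by
    intro k s
    by_cases hs : Good k s
    · obtain ⟨s', hs'⟩ := good_step k s hs
      exact ⟨s', fun _ => hs'⟩
    · exact ⟨s, fun h => absurd h hs⟩
  choose nxt hnxt using hstep
  let S : ℕ → (ℕ → ℝ) × (ℕ → ℝ) × ℕ := fun k => Nat.rec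
    (fun i => if i = 0 then (1 : ℝ) else 0, fun n => if n = 1 then (1 : ℝ) else 0, 2)
    (fun k s => nxt k s) k
  have hgood : ∀ k, Good k (S k) := by
    intro k
    induction k with
    | zero => exact good_zero
    | succ k ih => exact (hnxt k (S k) ih).1
  refine ⟨S, fun k => ⟨hgood k, ?_⟩⟩
  exact (hnxt k (S k) (hgood k)).2

/-- The final sequences. -/
theorem exists_final : ∃ h c : ℕ → ℝ, (∀ i, 0 ≤ h i) ∧ (∀ n, |c n| ≤ 1) ∧ c 0 = 0 ∧ c 1 = 1 ∧
    Summable (fun i : ℕ => h i * (1 / ((i : ℝ) + 1))) ∧ (∀ m, TT h c m = 0) ∧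
    ∃ H : ℕ → ℕ → ℝ, (∀ k, FS (H k)) ∧ (∀ k i, 0 ≤ H k i) ∧ (∀ k i, H k i ≤ h i) ∧
      (∀ i, ∀ᶠ k in atTop, H k i = h i) ∧
      (∀ k, ∀ z : ℂ, ‖z‖ ≤ 1 → 1 / 2 ≤ (∑' i, (H k i : ℂ) * z ^ i).re) := by
  obtain ⟨S, hS⟩ := exists_seq
  set h : ℕ → ℝ := fun i => (S (i + 1)).1 i with hh
  set c : ℕ → ℝ := fun n => (S (n + 1)).2.1 n with hc
  have heqh : ∀ i k, i < k → (S k).1 i = h i := by
    intro i k hik
    induction k, hik using Nat.le_induction with
    | base => rfl
    | succ k hk ih =>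
      rw [← ih]
      refine (hS k).2.1 i ?_
      have := (hS k).1.le
      omega
  have heqc : ∀ i k, i < k → (S k).2.1 i = c i := by
    intro i k hik
    induction k, hik using Nat.le_induction with
    | base => rfl
    | succ k hk ih =>
      rw [← ih]
      refine (hS k).2.2.1 i ?_
      have := (hS k).1.le
      omega
  have hmono : ∀ i, Monotone fun k => (S k).1 i := fun i =>
    monotone_nat_of_le_succ fun k => (hS k).2.2.2 i
  have hle : ∀ k i, (S k).1 i ≤ h i := by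
    intro k i
    have h1 : (S k).1 i ≤ (S (max k (i + 1))).1 i := hmono i (le_max_left _ _)
    rwa [heqh i (max k (i + 1)) (lt_of_lt_of_le (Nat.lt_succ_self i) (le_max_right _ _))] at h1
  have h0 : ∀ i, 0 ≤ h i := fun i => (hS (i + 1)).1.h0 i
  have hFS : ∀ k, FS (S k).1 := fun k => ⟨(S k).2.2, (hS k).1.hD⟩
  have hsum : Summable (fun i : ℕ => h i * (1 / ((i : ℝ) + 1))) := by
    refine summable_of_sum_range_le (c := 3) (fun i => mul_nonneg (h0 i) (by positivity)) ?_
    intro n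
    have h1 : ∑ i ∈ Finset.range n, h i * (1 / ((i : ℝ) + 1))
        = ∑ i ∈ Finset.range n, (S n).1 i * (1 / ((i : ℝ) + 1)) := by
      refine Finset.sum_congr rfl fun i hi => ?_
      rw [heqh i n (Finset.mem_range.mp hi)]
    rw [h1]
    have h2 : ∑ i ∈ Finset.range n, (S n).1 i * (1 / ((i : ℝ) + 1))
        ≤ ∑' i, (S n).1 i * (1 / ((i : ℝ) + 1)) :=
      ((hFS n).summable_mul _).sum_le_tsum _ fun i _ =>
        mul_nonneg ((hS n).1.h0 i) (by positivity)
    have h3 := (hS n).1.cost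
    have h4 : (0 : ℝ) ≤ 2 * (1 / 2) ^ n := by positivity
    linarith
  have hc1 : ∀ n, |c n| ≤ 1 := fun n => (hS (n + 1)).1.c1 n
  refine ⟨h, c, h0, hc1, (hS 1).1.cz, (hS 2).1.co, hsum, ?_, fun k => (S k).1, hFS,
    fun k => (hS k).1.h0, hle, ?_, ?_⟩
  · intro m
    have hlim : Tendsto (fun k => TT (S k).1 (S k).2.1 m) atTop (𝓝 (TT h c m)) := by
      unfold TT
      refine tendsto_tsum_of_dominated_convergence hsum ?_ ?_
      · intro i
        refine tendsto_const_nhds.congr' ?_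
        filter_upwards [eventually_gt_atTop (i + 1 + m)] with k hk
        rw [heqh i k (by omega), heqc (i + 1 + m) k (by omega)]
      · refine Eventually.of_forall fun k i => ?_
        rw [Real.norm_eq_abs, abs_mul, abs_of_nonneg ((hS k).1.h0 i), abs_div]
        have h3 : |(i : ℝ) + 1 + m| = (i : ℝ) + 1 + m := abs_of_pos (by positivity)
        rw [h3]
        refine mul_le_mul (hle k i) ?_ (by positivity) (h0 i)
        refine div_le_div₀ zero_le_one ((hS k).1.c1 _) (by positivity) ?_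
        have : (0 : ℝ) ≤ m := by positivity
        linarith
    have hlim0 : Tendsto (fun k => TT (S k).1 (S k).2.1 m) atTop (𝓝 0) := by
      have h5 : Tendsto (fun k : ℕ => (1 / 2 : ℝ) ^ k) atTop (𝓝 0) :=
        tendsto_pow_atTop_nhds_zero_of_lt_one (by norm_num) (by norm_num)
      exact squeeze_zero_norm (fun k => by
        rw [Real.norm_eq_abs]
        exact (hS k).1.T m) h5
    exact tendsto_nhds_unique hlim hlim0
  · intro i
    filter_upwards [eventually_gt_atTop i] with k hk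
    exact heqh i k hk
  · intro k z hz
    have h1 := (hS k).1.re z hz
    have h2 : (0 : ℝ) ≤ (1 / 2) ^ (k + 1) := by positivity
    linarith

end Pool.Agent.Helper52.Newman
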