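import Mathlib
import Pool.Agent.Helper52.NewmanSeq

set_option autoImplicit false

open Filter Topology

namespace Pool.Agent.Helper52.Newman

open ComplexConjugate

theorem inj_finite (H : ℕ → ℝ) (hH : FS H)
    (hre : ∀ z : ℂ, ‖z‖ ≤ 1 → 1 / 2 ≤ (∑' i, (H i : ℂ) * z ^ i).re) (z₁ z₂ : ℂ)
    (h₁ : ‖z₁‖ ≤ 1) (h₂ : ‖z₂‖ ≤ 1) :
    1 / 2 * ‖z₂ - z₁‖ ^ 2 ≤ ((∑' i, (H i : ℂ) * (z₂ ^ (i + 1) / ((i : ℂ) + 1)) -
      ∑' i, (H i : ℂ) * (z₁ ^ (i + 1) / ((i : ℂ) + 1))) * conj (z₂ - z₁)).re := by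
  obtain ⟨D, hD⟩ := hH
  have hfin : ∀ F : ℕ → ℂ, ∑' i, (H i : ℂ) * F i = ∑ i ∈ Finset.range D, (H i : ℂ) * F i := by
    intro F
    refine tsum_eq_sum fun i hi => ?_
    rw [hD i (by simpa using hi)]
    simp
  set G : ℂ → ℂ := fun w => ∑ i ∈ Finset.range D, (H i : ℂ) * (w ^ (i + 1) / ((i : ℂ) + 1)) with hG
  have hG' : ∀ w : ℂ, HasDerivAt G (∑ i ∈ Finset.range D, (H i : ℂ) * w ^ i) w := by
    intro w
    rw [hG]
    refine HasDerivAt.fun_sum fun i _ => ?_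
    have h1 := ((hasDerivAt_pow (i + 1) w).div_const ((i : ℂ) + 1)).const_mul (H i : ℂ)
    have h2 : (i : ℂ) + 1 ≠ 0 := by exact_mod_cast Nat.succ_ne_zero i
    have h3 : (H i : ℂ) * (((i + 1 : ℕ) : ℂ) * w ^ (i + 1 - 1) / ((i : ℂ) + 1))
        = (H i : ℂ) * w ^ i := by
      rw [Nat.add_sub_cancel]
      push_cast
      field_simp
    rw [h3] at h1
    exact h1
  set F : ℂ → ℂ := fun t => G (z₁ + t * (z₂ - z₁)) * conj (z₂ - z₁) with hF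
  have hF' : ∀ t : ℂ, HasDerivAt F
      ((∑ i ∈ Finset.range D, (H i : ℂ) * (z₁ + t * (z₂ - z₁)) ^ i) * (z₂ - z₁)
        * conj (z₂ - z₁)) t := by
    intro t
    have h1 : HasDerivAt (fun t : ℂ => z₁ + t * (z₂ - z₁)) (z₂ - z₁) t := by
      simpa using ((hasDerivAt_id t).mul_const (z₂ - z₁)).const_add z₁
    exact ((hG' (z₁ + t * (z₂ - z₁))).comp t h1).mul_const _
  have hreal : ∀ t : ℝ, HasDerivAt (fun x : ℝ => (F x).re)
      (((∑ i ∈ Finset.range D, (H i : ℂ) * (z₁ + (t : ℂ) * (z₂ - z₁)) ^ i) * (z₂ - z₁)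
        * conj (z₂ - z₁)).re) t := fun t => (hF' (t : ℂ)).real_of_complex
  obtain ⟨t, ht, hslope⟩ := exists_hasDerivAt_eq_slope (fun x : ℝ => (F x).re) _
    (zero_lt_one) (fun x _ => (hreal x).continuousAt.continuousWithinAt)
    (fun x _ => hreal x)
  have hzt : ‖z₁ + (t : ℂ) * (z₂ - z₁)‖ ≤ 1 := by
    have h3 : z₁ + (t : ℂ) * (z₂ - z₁) = ((1 - t : ℝ) : ℂ) * z₁ + (t : ℂ) * z₂ := by
      push_cast
      ring
    rw [h3]
    refine (norm_add_le _ _).trans ?_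
    rw [norm_mul, norm_mul, Complex.norm_real, Complex.norm_real, Real.norm_eq_abs,
      Real.norm_eq_abs, abs_of_nonneg (by linarith [ht.2]), abs_of_nonneg ht.1.le]
    have h4 : (1 - t) * ‖z₁‖ ≤ (1 - t) * 1 :=
      mul_le_mul_of_nonneg_left h₁ (by linarith [ht.2])
    have h5 : t * ‖z₂‖ ≤ t * 1 := mul_le_mul_of_nonneg_left h₂ ht.1.le
    linarith
  have h6 := hre _ hzt
  rw [hfin] at h6
  simp only [hF, Complex.ofReal_one, Complex.ofReal_zero, one_mul, zero_mul, add_zero, sub_zero,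
    div_one] at hslope
  rw [hfin, hfin]
  have h7 : z₁ + (z₂ - z₁) = z₂ := by ring
  rw [h7] at hslope
  have h8 : ((∑ i ∈ Finset.range D, (H i : ℂ) * (z₂ ^ (i + 1) / ((i : ℂ) + 1)) -
      ∑ i ∈ Finset.range D, (H i : ℂ) * (z₁ ^ (i + 1) / ((i : ℂ) + 1))) * conj (z₂ - z₁)).re
      = (G z₂ * conj (z₂ - z₁)).re - (G z₁ * conj (z₂ - z₁)).re := by
    rw [sub_mul, Complex.sub_re]
  rw [h8, ← hslope, mul_assoc, Complex.mul_conj, Complex.normSq_eq_norm_sq, Complex.re_mul_ofReal]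
  exact mul_le_mul_of_nonneg_right h6 (by positivity)

/-- The limit function. -/
theorem inj_limit (h : ℕ → ℝ) (hh : ∀ i, 0 ≤ h i)
    (hs : Summable (fun i : ℕ => h i * (1 / ((i : ℝ) + 1)))) (H : ℕ → ℕ → ℝ)
    (hFS : ∀ k, FS (H k)) (h0 : ∀ k i, 0 ≤ H k i) (hle : ∀ k i, H k i ≤ h i)
    (hev : ∀ i, ∀ᶠ k in atTop, H k i = h i)
    (hre : ∀ k, ∀ z : ℂ, ‖z‖ ≤ 1 → 1 / 2 ≤ (∑' i, (H k i : ℂ) * z ^ i).re) (z₁ z₂ : ℂ)
    (h₁ : ‖z₁‖ ≤ 1) (h₂ : ‖z₂‖ ≤ 1)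
    (heq : ∑' i, (h i : ℂ) * (z₁ ^ (i + 1) / ((i : ℂ) + 1))
      = ∑' i, (h i : ℂ) * (z₂ ^ (i + 1) / ((i : ℂ) + 1))) : z₁ = z₂ := by
  have hlim : ∀ z : ℂ, ‖z‖ ≤ 1 →
      Tendsto (fun k => ∑' i, (H k i : ℂ) * (z ^ (i + 1) / ((i : ℂ) + 1))) atTop
        (𝓝 (∑' i, (h i : ℂ) * (z ^ (i + 1) / ((i : ℂ) + 1)))) := by
    intro z hz
    refine tendsto_tsum_of_dominated_convergence hs ?_ ?_
    · intro i
      refine tendsto_const_nhds.congr' ?_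
      filter_upwards [hev i] with k hk
      rw [hk]
    · refine Eventually.of_forall fun k i => ?_
      rw [norm_mul, Complex.norm_real, Real.norm_eq_abs, abs_of_nonneg (h0 k i), norm_div,
        norm_pow]
      have h3 : ‖(i : ℂ) + 1‖ = (i : ℝ) + 1 := by
        have : (i : ℂ) + 1 = (((i : ℝ) + 1 : ℝ) : ℂ) := by push_cast; rfl
        rw [this, Complex.norm_real, Real.norm_eq_abs, abs_of_pos (by positivity)]
      rw [h3]
      refine mul_le_mul (hle k i) ?_ (by positivity) (hh i)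
      refine div_le_div_of_nonneg_right ?_ (by positivity)
      exact pow_le_one₀ (norm_nonneg _) hz
  have hineq : 1 / 2 * ‖z₂ - z₁‖ ^ 2 ≤ ((∑' i, (h i : ℂ) * (z₂ ^ (i + 1) / ((i : ℂ) + 1)) -
      ∑' i, (h i : ℂ) * (z₁ ^ (i + 1) / ((i : ℂ) + 1))) * conj (z₂ - z₁)).re := by
    have hl := (Complex.continuous_re.tendsto _).comp
        (((hlim z₂ h₂).sub (hlim z₁ h₁)).mul_const (conj (z₂ - z₁)))
    exact ge_of_tendsto' hl fun k => inj_finite (H k) (hFS k) (hre k) z₁ z₂ h₁ h₂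
  rw [heq, sub_self, zero_mul, Complex.zero_re] at hineq
  have h4 : ‖z₂ - z₁‖ ^ 2 ≤ 0 := by linarith
  have h5 : ‖z₂ - z₁‖ = 0 := by
    have := sq_nonneg ‖z₂ - z₁‖
    exact pow_eq_zero_iff (two_ne_zero) |>.mp (le_antisymm h4 this)
  exact (sub_eq_zero.mp (norm_eq_zero.mp h5)).symm

end Pool.Agent.Helper52.Newman
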