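import Mathlib
import Pool.Agent.Helper52.NewmanInj

set_option autoImplicit false

open Filter Topology

namespace Pool.Agent.Helper52.Newman

/-- Absolutely summable coefficients. -/
def WW (P : PowerSeries ℂ) : Prop := Summable (fun n : ℕ => ‖PowerSeries.coeff n P‖)

theorem WW.mul {P Q : PowerSeries ℂ} (hP : WW P) (hQ : WW Q) : WW (P * Q) := by
  have h1 := summable_norm_sum_mul_antidiagonal_of_summable_norm
    (f := fun n => PowerSeries.coeff n P) (g := fun n => PowerSeries.coeff n Q) hP hQ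
  refine h1.congr fun n => ?_
  rw [PowerSeries.coeff_mul]

theorem WW.one : WW (1 : PowerSeries ℂ) := by
  unfold WW
  refine summable_of_ne_finset_zero (s := {0}) fun n hn => ?_
  rw [PowerSeries.coeff_one, if_neg (by simpa using hn), norm_zero]

theorem WW.pow {P : PowerSeries ℂ} (hP : WW P) (q : ℕ) : WW (P ^ q) := by
  induction q with
  | zero => rw [pow_zero]; exact WW.one
  | succ q ih => rw [pow_succ]; exact ih.mul hP

/-- The functional. -/
noncomputable def Phi (c : ℕ → ℝ) (P : PowerSeries ℂ) : ℂ :=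
  ∑' n, (c n : ℂ) * PowerSeries.coeff n P

theorem Phi_summable {c : ℕ → ℝ} (hc : ∀ n, |c n| ≤ 1) {P : PowerSeries ℂ} (hP : WW P) :
    Summable (fun n => (c n : ℂ) * PowerSeries.coeff n P) := by
  refine Summable.of_norm_bounded hP fun n => ?_
  rw [norm_mul, Complex.norm_real, Real.norm_eq_abs]
  calc |c n| * ‖PowerSeries.coeff n P‖ ≤ 1 * ‖PowerSeries.coeff n P‖ :=
        mul_le_mul_of_nonneg_right (hc n) (norm_nonneg _)
    _ = _ := one_mul _

/-- The power series. -/
noncomputable def fser (h : ℕ → ℝ) : PowerSeries ℂ :=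
  PowerSeries.mk fun n => if n = 0 then 0 else ((h (n - 1) / n : ℝ) : ℂ)

theorem coeff_fser_zero (h : ℕ → ℝ) : PowerSeries.coeff 0 (fser h) = 0 := by
  simp [fser]

theorem coeff_fser_succ (h : ℕ → ℝ) (n : ℕ) :
    PowerSeries.coeff (n + 1) (fser h) = (h n : ℂ) / ((n : ℂ) + 1) := by
  simp [fser]

theorem norm_coeff_fser_succ (h : ℕ → ℝ) (hh : ∀ i, 0 ≤ h i) (n : ℕ) :
    ‖PowerSeries.coeff (n + 1) (fser h)‖ = h n * (1 / ((n : ℝ) + 1)) := by
  rw [coeff_fser_succ, norm_div, Complex.norm_real, Real.norm_eq_abs, abs_of_nonneg (hh n)]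
  have h3 : ‖(n : ℂ) + 1‖ = (n : ℝ) + 1 := by
    have : (n : ℂ) + 1 = (((n : ℝ) + 1 : ℝ) : ℂ) := by push_cast; rfl
    rw [this, Complex.norm_real, Real.norm_eq_abs, abs_of_pos (by positivity)]
  rw [h3]
  ring

theorem WW_fser (h : ℕ → ℝ) (hh : ∀ i, 0 ≤ h i)
    (hs : Summable (fun i : ℕ => h i * (1 / ((i : ℝ) + 1)))) : WW (fser h) := by
  unfold WW
  rw [← summable_nat_add_iff 1]
  simpa only [norm_coeff_fser_succ h hh] using hs

theorem coeff_pow_succ (h : ℕ → ℝ) (q n : ℕ) :
    ((n : ℂ) + 1) * PowerSeries.coeff (n + 1) (fser h ^ (q + 1))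
      = ((q : ℂ) + 1) * ∑ x ∈ Finset.HasAntidiagonal.antidiagonal n,
          PowerSeries.coeff x.1 (fser h ^ q) * (h x.2 : ℂ) := by
  have h1 : PowerSeries.coeff n (PowerSeries.derivative ℂ (fser h ^ (q + 1)))
      = PowerSeries.coeff (n + 1) (fser h ^ (q + 1)) * ((n : ℂ) + 1) :=
    PowerSeries.coeff_derivative _ _
  have h2 : PowerSeries.derivative ℂ (fser h ^ (q + 1))
      = PowerSeries.C ((q : ℂ) + 1) * (fser h ^ q * PowerSeries.derivative ℂ (fser h)) := by
    rw [Derivation.leibniz_pow, Nat.add_sub_cancel, smul_eq_mul, nsmul_eq_mul]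
    congr 1
    simp
  rw [mul_comm, ← h1, h2, PowerSeries.coeff_C_mul, PowerSeries.coeff_mul]
  congr 1
  refine Finset.sum_congr rfl fun x _ => ?_
  rw [PowerSeries.coeff_derivative, coeff_fser_succ]
  have h3 : (x.2 : ℂ) + 1 ≠ 0 := by exact_mod_cast Nat.succ_ne_zero x.2
  field_simp

/-- The functional kills the powers. -/
theorem Phi_pow_succ (h c : ℕ → ℝ) (hh : ∀ i, 0 ≤ h i)
    (hs : Summable (fun i : ℕ => h i * (1 / ((i : ℝ) + 1)))) (hc : ∀ n, |c n| ≤ 1)
    (hc0 : c 0 = 0) (hT : ∀ m, TT h c m = 0) (q : ℕ) : Phi c (fser h ^ (q + 1)) = 0 := by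
  have hW : WW (fser h) := WW_fser h hh hs
  set F : ℕ × ℕ → ℂ := fun x => PowerSeries.coeff x.1 (fser h ^ q) *
    ((h x.2 * (c (x.2 + 1 + x.1) / ((x.2 : ℝ) + 1 + x.1)) : ℝ) : ℂ) with hF
  have hFs : Summable F := by
    have h1 : Summable fun x : ℕ × ℕ => ‖PowerSeries.coeff x.1 (fser h ^ q)‖ *
        (h x.2 * (1 / ((x.2 : ℝ) + 1))) :=
      (hW.pow q).mul_of_nonneg hs (fun _ => norm_nonneg _)
        fun i => mul_nonneg (hh i) (by positivity)
    refine Summable.of_norm_bounded h1 fun x => ?_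
    rw [hF]
    simp only
    rw [norm_mul, Complex.norm_real, Real.norm_eq_abs, abs_mul, abs_of_nonneg (hh x.2), abs_div]
    have h3 : |(x.2 : ℝ) + 1 + x.1| = (x.2 : ℝ) + 1 + x.1 := abs_of_pos (by positivity)
    rw [h3]
    refine mul_le_mul_of_nonneg_left (mul_le_mul_of_nonneg_left ?_ (hh x.2)) (norm_nonneg _)
    refine div_le_div₀ zero_le_one (hc _) (by positivity) ?_
    have : (0 : ℝ) ≤ x.1 := by positivity
    linarith
  have hzero : ∑' x, F x = 0 := by
    rw [hFs.tsum_prod]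
    have h1 : ∀ i : ℕ, ∑' j : ℕ, F (i, j) = 0 := by
      intro i
      rw [hF]
      simp only
      rw [tsum_mul_left, ← Complex.ofReal_tsum]
      have h2 : ∑' j : ℕ, h j * (c (j + 1 + i) / ((j : ℝ) + 1 + i)) = 0 := hT i
      rw [h2]
      simp
    simp only [h1, tsum_zero]
  have hanti : ∑' n : ℕ, ∑ x ∈ Finset.HasAntidiagonal.antidiagonal n, F x = 0 := by
    rw [← hzero, ← Finset.HasAntidiagonal.sigmaAntidiagonalEquivProd.tsum_eq]
    have h2 : Summable (F ∘ Finset.HasAntidiagonal.sigmaAntidiagonalEquivProd) :=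
      (Finset.HasAntidiagonal.sigmaAntidiagonalEquivProd.summable_iff).mpr hFs
    have h3 := h2.tsum_sigma
    simp only [Function.comp] at h3
    rw [h3]
    refine tsum_congr fun n => ?_
    rw [tsum_fintype]
    exact (Finset.sum_coe_sort _ _).symm
  unfold Phi
  rw [(Phi_summable hc (hW.pow (q + 1))).tsum_eq_zero_add, hc0, Complex.ofReal_zero, zero_mul,
    zero_add]
  have h4 : ∀ n : ℕ, (c (n + 1) : ℂ) * PowerSeries.coeff (n + 1) (fser h ^ (q + 1))
      = ((q : ℂ) + 1) * ∑ x ∈ Finset.HasAntidiagonal.antidiagonal n, F x := by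
    intro n
    have h5 := coeff_pow_succ h q n
    have h6 : (n : ℂ) + 1 ≠ 0 := by exact_mod_cast Nat.succ_ne_zero n
    have h7 : PowerSeries.coeff (n + 1) (fser h ^ (q + 1)) = ((q : ℂ) + 1) *
        (∑ x ∈ Finset.HasAntidiagonal.antidiagonal n,
          PowerSeries.coeff x.1 (fser h ^ q) * (h x.2 : ℂ)) / ((n : ℂ) + 1) := by
      rw [← h5]
      field_simp
    rw [h7, Finset.mul_sum, Finset.sum_div, Finset.mul_sum, Finset.mul_sum]
    refine Finset.sum_congr rfl fun x hx => ?_
    have h8 : x.1 + x.2 = n := Finset.HasAntidiagonal.mem_antidiagonal.mp hx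
    have h9 : x.2 + 1 + x.1 = n + 1 := by omega
    have h10 : (x.2 : ℝ) + 1 + x.1 = (n : ℝ) + 1 := by exact_mod_cast h9
    rw [hF]
    simp only
    rw [h9, h10]
    push_cast
    ring
  simp only [h4]
  rw [tsum_mul_left, hanti, mul_zero]

theorem Phi_one (c : ℕ → ℝ) (hc0 : c 0 = 0) : Phi c 1 = 0 := by
  unfold Phi
  have : ∀ n : ℕ, (c n : ℂ) * PowerSeries.coeff n (1 : PowerSeries ℂ) = 0 := by
    intro n
    rw [PowerSeries.coeff_one]
    split_ifs with hn
    · rw [hn, hc0]
      simp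
    · simp
  simp only [this, tsum_zero]

theorem Phi_pow (h c : ℕ → ℝ) (hh : ∀ i, 0 ≤ h i)
    (hs : Summable (fun i : ℕ => h i * (1 / ((i : ℝ) + 1)))) (hc : ∀ n, |c n| ≤ 1)
    (hc0 : c 0 = 0) (hT : ∀ m, TT h c m = 0) (q : ℕ) : Phi c (fser h ^ q) = 0 := by
  cases q with
  | zero => rw [pow_zero]; exact Phi_one c hc0
  | succ q => exact Phi_pow_succ h c hh hs hc hc0 hT q

/-- The functional kills the polynomials. -/
theorem Phi_aeval (h c : ℕ → ℝ) (hh : ∀ i, 0 ≤ h i)
    (hs : Summable (fun i : ℕ => h i * (1 / ((i : ℝ) + 1)))) (hc : ∀ n, |c n| ≤ 1)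
    (hc0 : c 0 = 0) (hT : ∀ m, TT h c m = 0) (p : Polynomial ℂ) :
    WW (Polynomial.aeval (fser h) p) ∧ Phi c (Polynomial.aeval (fser h) p) = 0 := by
  have hW : WW (fser h) := WW_fser h hh hs
  induction p using Polynomial.induction_on' with
  | add p q hp hq =>
    rw [map_add]
    constructor
    · refine Summable.of_nonneg_of_le (fun _ => norm_nonneg _) (fun n => ?_) (hp.1.add hq.1)
      rw [map_add]
      exact norm_add_le _ _
    · have h1 : Phi c (Polynomial.aeval (fser h) p + Polynomial.aeval (fser h) q)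
          = Phi c (Polynomial.aeval (fser h) p) + Phi c (Polynomial.aeval (fser h) q) := by
        unfold Phi
        rw [← (Phi_summable hc hp.1).tsum_add (Phi_summable hc hq.1)]
        exact tsum_congr fun n => by rw [map_add, mul_add]
      rw [h1, hp.2, hq.2, add_zero]
  | monomial n a =>
    have h1 : Polynomial.aeval (fser h) (Polynomial.monomial n a)
        = PowerSeries.C a * fser h ^ n := by
      rw [Polynomial.aeval_monomial]
      rfl
    rw [h1]
    constructor
    · unfold WW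
      simp only [PowerSeries.coeff_C_mul, norm_mul]
      exact (hW.pow n).mul_left _
    · have h2 : Phi c (PowerSeries.C a * fser h ^ n) = a * Phi c (fser h ^ n) := by
        unfold Phi
        rw [← tsum_mul_left]
        exact tsum_congr fun n => by rw [PowerSeries.coeff_C_mul]; ring
      rw [h2, Phi_pow h c hh hs hc hc0 hT n, mul_zero]

theorem Phi_X (c : ℕ → ℝ) (hc1 : c 1 = 1) : Phi c PowerSeries.X = 1 := by
  unfold Phi
  have : ∀ n : ℕ, (c n : ℂ) * PowerSeries.coeff n (PowerSeries.X : PowerSeries ℂ)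
      = if n = 1 then 1 else 0 := by
    intro n
    rw [PowerSeries.coeff_X]
    split_ifs with hn
    · rw [hn, hc1]
      simp
    · simp
  simp only [this, tsum_ite_eq]

theorem WW_X : WW (PowerSeries.X : PowerSeries ℂ) := by
  unfold WW
  refine summable_of_ne_finset_zero (s := {1}) fun n hn => ?_
  rw [PowerSeries.coeff_X, if_neg (by simpa using hn), norm_zero]

/-- The full statement. -/
theorem disproof : ∃ f : PowerSeries ℂ, Summable (fun n : ℕ => ‖PowerSeries.coeff n f‖) ∧
    Set.InjOn (fun z : ℂ => ∑' n : ℕ, PowerSeries.coeff n f * z ^ n)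
        (Metric.closedBall (0 : ℂ) 1) ∧
    ∀ p : Polynomial ℂ, 1 ≤ ∑' n : ℕ, ‖PowerSeries.coeff n (Polynomial.aeval f p)
      - PowerSeries.coeff n (PowerSeries.X : PowerSeries ℂ)‖ := by
  obtain ⟨h, c, hh, hc, hc0, hc1, hs, hT, H, hFS, hH0, hHle, hHev, hHre⟩ := exists_final
  have hW : WW (fser h) := WW_fser h hh hs
  refine ⟨fser h, hW, ?_, ?_⟩
  · have hval : ∀ z : ℂ, ‖z‖ ≤ 1 → ∑' n : ℕ, PowerSeries.coeff n (fser h) * z ^ n
        = ∑' i, (h i : ℂ) * (z ^ (i + 1) / ((i : ℂ) + 1)) := by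
      intro z hz
      have h1 : Summable (fun n : ℕ => PowerSeries.coeff n (fser h) * z ^ n) := by
        refine Summable.of_norm_bounded hW fun n => ?_
        rw [norm_mul, norm_pow]
        exact mul_le_of_le_one_right (norm_nonneg _) (pow_le_one₀ (norm_nonneg _) hz)
      rw [h1.tsum_eq_zero_add, coeff_fser_zero, zero_mul, zero_add]
      refine tsum_congr fun n => ?_
      rw [coeff_fser_succ]
      ring
    intro z₁ hz₁ z₂ hz₂ heq
    rw [mem_closedBall_zero_iff] at hz₁ hz₂
    simp only at heq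
    rw [hval z₁ hz₁, hval z₂ hz₂] at heq
    exact inj_limit h hh hs H hFS hH0 hHle hHev hHre z₁ z₂ hz₁ hz₂ heq
  · intro p
    obtain ⟨hp1, hp2⟩ := Phi_aeval h c hh hs hc hc0 hT p
    have hX := Phi_X c hc1
    have hdiff : WW (Polynomial.aeval (fser h) p - PowerSeries.X) := by
      refine Summable.of_nonneg_of_le (fun _ => norm_nonneg _) (fun n => ?_) (hp1.add WW_X)
      rw [map_sub]
      exact norm_sub_le _ _
    have h1 : Phi c (Polynomial.aeval (fser h) p - PowerSeries.X) = -1 := by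
      have h2 : Phi c (Polynomial.aeval (fser h) p - PowerSeries.X)
          = Phi c (Polynomial.aeval (fser h) p) - Phi c PowerSeries.X := by
        unfold Phi
        rw [← (Phi_summable hc hp1).tsum_sub (Phi_summable hc WW_X)]
        exact tsum_congr fun n => by rw [map_sub, mul_sub]
      rw [h2, hp2, hX, zero_sub]
    have h3 : ‖Phi c (Polynomial.aeval (fser h) p - PowerSeries.X)‖ = 1 := by
      rw [h1, norm_neg, norm_one]
    rw [← h3]
    unfold Phi
    have h4 : ∀ n, ‖(c n : ℂ) * PowerSeries.coeff n (Polynomial.aeval (fser h) p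
        - PowerSeries.X)‖ ≤ ‖PowerSeries.coeff n (Polynomial.aeval (fser h) p)
          - PowerSeries.coeff n (PowerSeries.X : PowerSeries ℂ)‖ := by
      intro n
      rw [norm_mul, Complex.norm_real, Real.norm_eq_abs, map_sub]
      exact mul_le_of_le_one_left (norm_nonneg _) (hc n)
    have h5 : Summable fun n => ‖PowerSeries.coeff n (Polynomial.aeval (fser h) p)
          - PowerSeries.coeff n (PowerSeries.X : PowerSeries ℂ)‖ := by
      refine hdiff.congr fun n => ?_
      rw [map_sub]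
    exact tsum_of_norm_bounded h5.hasSum h4

end Pool.Agent.Helper52.Newman
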