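import Mathlib

set_option autoImplicit false

open Filter Topology

namespace Pool.Agent.Helper52.Smulyan

variable {X : Type} [NormedAddCommGroup X] [NormedSpace ℝ X]

/-- A sublinear function whose kinks vanish in a total set of directions has linear directional
derivatives. -/
theorem gateaux_of_kink (N : X → ℝ) (C : ℝ) (hC0 : 0 ≤ C)
    (hC : ∀ x, N x ≤ C * ‖x‖)
    (hadd : ∀ x y, N (x + y) ≤ N x + N y) (hsmul : ∀ (a : ℝ) (x : X), N (a • x) = |a| * N x)
    (x : X) (D : Set X) (hD : (Submodule.span ℝ D).topologicalClosure = ⊤)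
    (hk : ∀ v ∈ D, Tendsto (fun t : ℝ => (N (x + t • v) + N (x + (-t) • v) - 2 * N x) / t)
      (𝓝[>] 0) (𝓝 0)) :
    ∃ L : X →L[ℝ] ℝ, ∀ v : X, HasLineDerivAt ℝ N (L v) x v := by
  have hneg : ∀ v, N (-v) = N v := by
    intro v
    have := hsmul (-1) v
    rw [neg_one_smul, abs_neg, abs_one, one_mul] at this
    exact this
  have hdiff : ∀ (y z : X), N y - N z ≤ N (y - z) := by
    intro y z
    have := hadd z (y - z)
    rw [add_sub_cancel] at this
    linarith
  set q : X → ℝ → ℝ := fun v t => (N (x + t • v) - N x) / t with hq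
  have hqb : ∀ v t, 0 < t → |q v t| ≤ N v := by
    intro v t ht
    rw [hq]
    simp only
    rw [abs_div, abs_of_pos ht, div_le_iff₀ ht, abs_le]
    have h1 := hdiff (x + t • v) x
    have h2 := hdiff x (x + t • v)
    rw [add_sub_cancel_left, hsmul, abs_of_pos ht] at h1
    have h3 : x - (x + t • v) = -(t • v) := by abel
    rw [h3, hneg, hsmul, abs_of_pos ht] at h2
    constructor <;> linarith
  have hqm : ∀ v, MonotoneOn (q v) (Set.Ioi 0) := by
    intro v s hs t ht hst
    have hs' : (0 : ℝ) < s := hs
    have ht' : (0 : ℝ) < t := ht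
    rw [hq]
    simp only
    rw [div_le_div_iff₀ hs' ht']
    have h1 : t • (x + s • v) = (t - s) • x + s • (x + t • v) := by
      rw [smul_add, smul_add, sub_smul, smul_smul, smul_smul, mul_comm s t]
      abel
    have h2 := hadd ((t - s) • x) (s • (x + t • v))
    rw [← h1, hsmul, hsmul, hsmul, abs_of_pos ht', abs_of_pos hs',
      abs_of_nonneg (sub_nonneg.mpr hst)] at h2
    linarith
  have hp : ∀ v, ∃ p : ℝ, Tendsto (q v) (𝓝[>] 0) (𝓝 p) := by
    intro v
    refine ⟨_, (hqm v).tendsto_nhdsGT ⟨-N v, ?_⟩⟩
    rintro _ ⟨t, ht, rfl⟩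
    exact (abs_le.mp (hqb v t ht)).1
  choose p hp using hp
  have hscale : ∀ r : ℝ, 0 < r → Tendsto (fun t : ℝ => r * t) (𝓝[>] 0) (𝓝[>] 0) := by
    intro r hr
    refine tendsto_nhdsWithin_iff.mpr ⟨?_, ?_⟩
    · have h2 : Tendsto (fun t : ℝ => r * t) (𝓝 0) (𝓝 (r * 0)) :=
        (continuous_const.mul continuous_id).tendsto 0
      rw [mul_zero] at h2
      exact h2.mono_left nhdsWithin_le_nhds
    · filter_upwards [self_mem_nhdsWithin] with t ht
      exact mul_pos hr ht
  have hple : ∀ v, |p v| ≤ N v := by
    intro v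
    refine le_of_tendsto (hp v).abs ?_
    filter_upwards [self_mem_nhdsWithin] with t ht
    exact hqb v t ht
  have hpadd : ∀ v w, p (v + w) ≤ p v + p w := by
    intro v w
    refine le_of_tendsto_of_tendsto (hp (v + w))
      (((hp v).comp (hscale 2 two_pos)).add ((hp w).comp (hscale 2 two_pos))) ?_
    filter_upwards [self_mem_nhdsWithin] with t ht
    have ht' : (0 : ℝ) < t := ht
    simp only [hq, Function.comp]
    have h1 : (2 : ℝ) • (x + t • (v + w)) = (x + (2 * t) • v) + (x + (2 * t) • w) := by
      rw [smul_add, two_smul, smul_smul, smul_add]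
      abel
    have h2 := hadd (x + (2 * t) • v) (x + (2 * t) • w)
    rw [← h1, hsmul, abs_two] at h2
    rw [← add_div, div_le_div_iff₀ ht' (by positivity)]
    nlinarith
  have hp0 : p 0 = 0 := by
    have h1 := hple 0
    have h2 : N (0 : X) = 0 := by
      have := hsmul 0 0
      rw [zero_smul, abs_zero, zero_mul] at this
      exact this
    rw [h2] at h1
    exact abs_nonpos_iff.mp h1
  have hpsmul : ∀ (r : ℝ) v, 0 < r → p (r • v) = r * p v := by
    intro r v hr
    have h1 : Tendsto (fun t => r * q v (r * t)) (𝓝[>] 0) (𝓝 (r * p v)) :=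
      ((hp v).comp (hscale r hr)).const_mul r
    refine tendsto_nhds_unique (hp (r • v)) (h1.congr' ?_)
    filter_upwards [self_mem_nhdsWithin] with t ht
    have ht' : (0 : ℝ) < t := ht
    simp only [hq]
    rw [smul_smul, mul_comm t r]
    field_simp
  -- the kernel of the kink
  let K : Submodule ℝ X :=
    { carrier := {v | p v + p (-v) = 0}
      add_mem' := by
        intro v w hv hw
        have hv' : p v + p (-v) = 0 := hv
        have hw' : p w + p (-w) = 0 := hw
        change p (v + w) + p (-(v + w)) = 0
        have h1 := hpadd v w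
        have h2 := hpadd (-v) (-w)
        rw [← neg_add] at h2
        have h3 := hpadd (v + w) (-(v + w))
        rw [add_neg_cancel, hp0] at h3
        linarith
      zero_mem' := by
        change p 0 + p (-0) = 0
        rw [neg_zero, hp0, add_zero]
      smul_mem' := by
        intro r v hv
        have hv' : p v + p (-v) = 0 := hv
        change p (r • v) + p (-(r • v)) = 0
        rcases lt_trichotomy r 0 with hr | hr | hr
        · have h1 : r • v = (-r) • (-v) := by rw [smul_neg, neg_smul, neg_neg]
          have h2 : -(r • v) = (-r) • v := by rw [neg_smul]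
          rw [h2, h1, hpsmul _ _ (neg_pos.mpr hr), hpsmul _ _ (neg_pos.mpr hr), ← mul_add,
            add_comm, hv', mul_zero]
        · rw [hr, zero_smul, neg_zero, hp0, add_zero]
        · rw [← smul_neg, hpsmul _ _ hr, hpsmul _ _ hr, ← mul_add, hv', mul_zero] }
  have hpc : Continuous p := by
    have hlip : LipschitzWith ⟨C, hC0⟩ p := LipschitzWith.of_dist_le_mul fun v w => by
      rw [Real.dist_eq, dist_eq_norm]
      change |p v - p w| ≤ C * ‖v - w‖
      have h1 := hpadd w (v - w)
      rw [add_sub_cancel] at h1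
      have h2 := hpadd v (w - v)
      rw [add_sub_cancel] at h2
      have h3 := (abs_le.mp (hple (v - w))).2
      have h4 := (abs_le.mp (hple (w - v))).2
      have h5 := hC (v - w)
      have h6 := hC (w - v)
      rw [norm_sub_rev w v] at h6
      rw [abs_le]
      constructor <;> linarith
    exact hlip.continuous
  have hKcl : IsClosed (K : Set X) :=
    isClosed_eq (hpc.add (hpc.comp continuous_neg)) continuous_const
  have hKtop : K = ⊤ := by
    rw [eq_top_iff, ← hD]
    refine Submodule.topologicalClosure_minimal _ ?_ hKcl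
    rw [Submodule.span_le]
    intro v hv
    change p v + p (-v) = 0
    refine tendsto_nhds_unique ((hp v).add (hp (-v))) ((hk v hv).congr' ?_)
    filter_upwards [self_mem_nhdsWithin] with t ht
    have ht' : (0 : ℝ) < t := ht
    simp only [hq]
    rw [smul_neg, neg_smul, ← add_div]
    congr 1
    ring
  have hodd : ∀ v, p (-v) = - p v := by
    intro v
    have h1 : v ∈ K := by rw [hKtop]; exact Submodule.mem_top
    have h2 : p v + p (-v) = 0 := h1
    linarith
  let Lin : X →ₗ[ℝ] ℝ :=
    { toFun := p
      map_add' := by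
        intro v w
        have h1 := hpadd v w
        have h2 := hpadd (v + w) (-w)
        rw [add_neg_cancel_right, hodd] at h2
        linarith
      map_smul' := by
        intro r v
        rw [RingHom.id_apply, smul_eq_mul]
        rcases lt_trichotomy r 0 with hr | hr | hr
        · have h1 : r • v = -((-r) • v) := by rw [neg_smul, neg_neg]
          rw [h1, hodd, hpsmul _ _ (neg_pos.mpr hr)]
          ring
        · rw [hr, zero_smul, hp0, zero_mul]
        · exact hpsmul r v hr }
  refine ⟨Lin.mkContinuous C fun v => (hple v).trans (hC v), fun v => ?_⟩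
  change HasDerivAt (fun t : ℝ => N (x + t • v)) (p v) 0
  rw [hasDerivAt_iff_tendsto_slope_zero, ← nhdsLT_sup_nhdsGT, tendsto_sup]
  constructor
  · have hm : Tendsto (fun t : ℝ => -t) (𝓝[<] 0) (𝓝[>] 0) := by
      refine tendsto_nhdsWithin_iff.mpr ⟨?_, ?_⟩
      · have h2 : Tendsto (fun t : ℝ => -t) (𝓝 0) (𝓝 (-0)) := continuous_neg.tendsto 0
        rw [neg_zero] at h2
        exact h2.mono_left nhdsWithin_le_nhds
      · filter_upwards [self_mem_nhdsWithin] with t ht
        have : t < 0 := ht
        exact neg_pos.mpr this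
    have h1 := ((hp (-v)).comp hm).neg
    rw [hodd, neg_neg] at h1
    refine h1.congr' ?_
    filter_upwards [self_mem_nhdsWithin] with t ht
    have ht' : t < 0 := ht
    simp only [hq, Function.comp, zero_add, zero_smul, add_zero, smul_eq_mul]
    rw [smul_neg, neg_smul, neg_neg, div_neg, neg_neg, div_eq_inv_mul]
  · refine (hp v).congr' ?_
    filter_upwards [self_mem_nhdsWithin] with t ht
    simp only [hq, zero_add, zero_smul, add_zero, smul_eq_mul]
    rw [div_eq_inv_mul]

end Pool.Agent.Helper52.Smulyan
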