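import Mathlib

set_option autoImplicit false

open Finset

namespace Pool.Agent.Helper52.Smulyan

variable {Γ : Type} [LinearOrder Γ]

/-- The adequate family: `#(A ∩ [a,b)) ≤ e a b` for all `a < b` in `A`. -/
def AA (e : Γ → Γ → ℕ) (A : Finset Γ) : Prop :=
  ∀ a ∈ A, ∀ b ∈ A, a < b → (A.filter (fun x => a ≤ x ∧ x < b)).card ≤ e a b

variable {e : Γ → Γ → ℕ}

theorem AA.subset {A B : Finset Γ} (hB : AA e B) (h : A ⊆ B) : AA e A := fun a ha b hb hab =>
  (card_le_card (filter_subset_filter _ h)).trans (hB a (h ha) b (h hb) hab)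

theorem AA.empty : AA e (∅ : Finset Γ) := fun a ha => absurd ha (notMem_empty a)

theorem AA.singleton (c : Γ) : AA e ({c} : Finset Γ) := by
  intro a ha b hb hab
  rw [mem_singleton] at ha hb
  subst ha; subst hb
  exact absurd hab (lt_irrefl _)

theorem AA.union {s t : Finset Γ} (hs : AA e s) (ht : AA e t) (hlt : ∀ a ∈ s, ∀ b ∈ t, a < b)
    (hfar : ∀ a ∈ s, ∀ b ∈ t, s.card + t.card ≤ e a b) : AA e (s ∪ t) := by
  intro a ha b hb hab
  rcases mem_union.mp ha with ha | ha <;> rcases mem_union.mp hb with hb | hb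
  · have h1 : (s ∪ t).filter (fun x => a ≤ x ∧ x < b) = s.filter (fun x => a ≤ x ∧ x < b) := by
      ext x
      simp only [mem_filter, mem_union]
      constructor
      · rintro ⟨hx | hx, h2⟩
        · exact ⟨hx, h2⟩
        · exact absurd (hlt b hb x hx) (not_lt.mpr h2.2.le)
      · rintro ⟨hx, h2⟩
        exact ⟨Or.inl hx, h2⟩
    rw [h1]
    exact hs a ha b hb hab
  · refine (card_filter_le _ _).trans ((card_union_le _ _).trans (hfar a ha b hb))
  · exact absurd (hlt b hb a ha) (not_lt.mpr hab.le)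
  · have h1 : (s ∪ t).filter (fun x => a ≤ x ∧ x < b) = t.filter (fun x => a ≤ x ∧ x < b) := by
      ext x
      simp only [mem_filter, mem_union]
      constructor
      · rintro ⟨hx | hx, h2⟩
        · exact absurd (hlt x hx a ha) (not_lt.mpr h2.1)
        · exact ⟨hx, h2⟩
      · rintro ⟨hx, h2⟩
        exact ⟨Or.inr hx, h2⟩
    rw [h1]
    exact ht a ha b hb hab

/-- Smallness at infinity. -/
def Tail (e : Γ → Γ → ℕ) (y : Γ → ℝ) : Prop :=
  ∀ ε : ℝ, 0 < ε → ∃ S : Finset Γ, ∀ A : Finset Γ, AA e A → Disjoint A S →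
    ∑ a ∈ A, |y a| ≤ ε

/-- A normed space with a coordinate system adapted to the family. -/
structure Sys (e : Γ → Γ → ℕ) (X : Type) [NormedAddCommGroup X] [NormedSpace ℝ X] where
  co : X →ₗ[ℝ] (Γ → ℝ)
  v : Γ → X
  co_v : ∀ a b, co (v a) b = if b = a then 1 else 0
  tail : ∀ x, Tail e (co x)
  ub : ∀ x A, AA e A → ∑ a ∈ A, |co x a| ≤ 2 * ‖x‖
  lb : ∀ x C, (∀ A, AA e A → ∑ a ∈ A, |co x a| ≤ C) → ‖x‖ ≤ C
  dense : (Submodule.span ℝ (Set.range v)).topologicalClosure = ⊤

/-- Finite-to-one in the first variable. -/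
def FTO (e : Γ → Γ → ℕ) : Prop := ∀ (b : Γ) (n : ℕ), {a : Γ | a < b ∧ e a b ≤ n}.Finite

/-- Each element of a set all of whose finite subsets are in the family has finitely many
predecessors in this set. -/
theorem finite_below [WellFoundedLT Γ] (C : Set Γ) (b : Γ) (hb : ∀ c ∈ C, c < b)
    (hC : ∀ T : Finset Γ, (∀ c ∈ T, c ∈ C) → AA e (insert b T)) : C.Finite := by
  by_contra hinf
  have hinf' : C.Infinite := hinf
  obtain ⟨m, hm, hmin⟩ : ∃ m ∈ C, ∀ c ∈ C, m ≤ c := by
    refine ⟨WellFounded.min (wellFounded_lt : WellFounded ((· < ·) : Γ → Γ → Prop)) C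
      hinf'.nonempty, WellFounded.min_mem _ _ _, fun c hc => ?_⟩
    exact not_lt.mp (WellFounded.not_lt_min _ _ hc)
  obtain ⟨T, hT, hcard⟩ := hinf'.exists_subset_card_eq (e m b + 1)
  have h1 := hC (insert m T) (fun c hc => by
    rcases mem_insert.mp hc with rfl | hc
    · exact hm
    · exact hT hc)
  have h2 := h1 m (by simp) b (by simp) (hb m hm)
  have h3 : T ⊆ (insert b (insert m T)).filter (fun x => m ≤ x ∧ x < b) := by
    intro x hx
    rw [mem_filter]
    exact ⟨by simp [hx], hmin x (hT hx), hb x (hT hx)⟩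
  have h4 := card_le_card h3
  omega

end Pool.Agent.Helper52.Smulyan
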