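import Mathlib
import Pool.Agent.Helper52.SmDefs

set_option autoImplicit false

open Finset

namespace Pool.Agent.Helper52.Smulyan

variable {Γ : Type} [LinearOrder Γ] {e : Γ → Γ → ℕ}

/-- Every countable family is bounded. -/
def CB (Γ : Type) [LinearOrder Γ] : Prop := ∀ u : ℕ → Γ, ∃ ξ : Γ, ∀ n, u n < ξ

theorem CB.finset (hcb : CB Γ) [Nonempty Γ] (s : Finset Γ) : ∃ ξ : Γ, ∀ a ∈ s, a < ξ := by
  obtain ⟨u, hu⟩ := (s.countable_toSet.union (Set.countable_singleton
    (Classical.arbitrary Γ))).exists_eq_range ⟨Classical.arbitrary Γ, by simp⟩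
  obtain ⟨ξ, hξ⟩ := hcb u
  refine ⟨ξ, fun a ha => ?_⟩
  have h1 : a ∈ Set.range u := by
    rw [← hu]
    exact Or.inl ha
  obtain ⟨n, rfl⟩ := h1
  exact hξ n

theorem CB.set (hcb : CB Γ) [Nonempty Γ] (s : Set Γ) (hs : s.Countable) :
    ∃ ξ : Γ, ∀ a ∈ s, a < ξ := by
  obtain ⟨u, hu⟩ := (hs.union (Set.countable_singleton
    (Classical.arbitrary Γ))).exists_eq_range ⟨Classical.arbitrary Γ, by simp⟩
  obtain ⟨ξ, hξ⟩ := hcb u
  refine ⟨ξ, fun a ha => ?_⟩
  have h1 : a ∈ Set.range u := by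
    rw [← hu]
    exact Or.inl ha
  obtain ⟨n, rfl⟩ := h1
  exact hξ n

/-- A block: a nonnegative vector of mass `m` on `S` above `ξ`, with small coefficients, and of
norm at most two. -/
def Blk (e : Γ → Γ → ℕ) (S : Set Γ) (m : ℕ) (η : ℝ) (ξ : Γ) (C : Finset Γ) (z : Γ → ℝ) : Prop :=
  (∀ a ∈ C, a ∈ S ∧ ξ < a) ∧ (∀ a, 0 ≤ z a) ∧ (∀ a, z a ≤ η) ∧ (∀ a, a ∉ C → z a = 0) ∧
    ∑ a ∈ C, z a = m ∧ ∀ A, AA e A → ∑ a ∈ A, z a ≤ 2

/-- The average of four blocks adapted to a point above. -/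
theorem four_blocks (S : Set Γ) (m : ℕ) (η : ℝ) (hη : 0 < η) (ξ : ℕ → Γ)
    (C : ℕ → Finset Γ) (z : ℕ → Γ → ℝ)
    (hB : ∀ j : ℕ, Blk e S m (η / ((j : ℝ) + 1)) (ξ j) (C j) (z j))
    (hmono : ∀ i j, i < j → ∀ a ∈ C i, ∀ b ∈ C j, a < b) (β : Γ) (hβ : ∀ j, ∀ a ∈ C j, a < β) :
    ∃ (D : Finset Γ) (x : Γ → ℝ), (∀ a ∈ D, ∃ j, a ∈ C j) ∧ (∀ a, 0 ≤ x a) ∧ (∀ a, x a ≤ η) ∧
      (∀ a, a ∉ D → x a = 0) ∧ ∑ a ∈ D, x a = m ∧ (∀ A, AA e A → ∑ a ∈ A, x a ≤ 2) ∧
      (∀ A, AA e A → β ∈ A → ∑ a ∈ A, x a ≤ 1) := by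
  have hpos : ∀ j : ℕ, (0 : ℝ) < (j : ℝ) + 1 := fun j => by positivity
  -- choice of the next index
  have hnext : ∀ i : ℕ, ∃ j : ℕ, i < j ∧ ∀ i' ≤ i, ∀ a ∈ C i',
      (e a β : ℝ) * (η / ((j : ℝ) + 1)) ≤ 1 / 8 := by
    intro i
    set E : ℕ := (Finset.range (i + 1)).sup fun i' => (C i').sup fun a => e a β with hE
    obtain ⟨j, hj⟩ := exists_nat_ge (8 * (E : ℝ) * η)
    refine ⟨max j (i + 1), lt_of_lt_of_le (Nat.lt_succ_self i) (le_max_right _ _), ?_⟩
    intro i' hi' a ha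
    have h1 : e a β ≤ E := by
      have h2 : e a β ≤ (C i').sup fun a => e a β := Finset.le_sup (f := fun a => e a β) ha
      refine h2.trans ?_
      exact Finset.le_sup (f := fun i' => (C i').sup fun a => e a β)
        (Finset.mem_range.mpr (Nat.lt_succ_of_le hi'))
    have h3 : (e a β : ℝ) ≤ E := by exact_mod_cast h1
    have h4 : (j : ℝ) ≤ ((max j (i + 1) : ℕ) : ℝ) := by exact_mod_cast le_max_left _ _
    rw [mul_div_assoc', div_le_iff₀ (hpos _)]
    have h5 : (e a β : ℝ) * η ≤ E * η := mul_le_mul_of_nonneg_right h3 hη.le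
    linarith
  choose nx hnx1 hnx2 using hnext
  set j1 : ℕ := 0 with hj1
  set j2 : ℕ := nx j1 with hj2
  set j3 : ℕ := nx j2 with hj3
  set j4 : ℕ := nx j3 with hj4
  have h12 : j1 < j2 := hnx1 j1
  have h23 : j2 < j3 := hnx1 j2
  have h34 : j3 < j4 := hnx1 j3
  -- smallness of later blocks
  have key : ∀ (i j : ℕ), i < j → (∀ a ∈ C i, (e a β : ℝ) * (η / ((j : ℝ) + 1)) ≤ 1 / 8) →
      ∀ A, AA e A → β ∈ A → (∃ a ∈ A, a ∈ C i) → ∑ a ∈ A, z j a ≤ 1 / 8 := by
    intro i j hij hsm A hA hβA ⟨a, haA, haC⟩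
    have h1 : ∑ b ∈ A, z j b = ∑ b ∈ A.filter (fun x => a ≤ x ∧ x < β), z j b := by
      symm
      refine sum_subset (filter_subset _ _) fun b hbA hb => ?_
      by_contra hne
      have hbC : b ∈ C j := by
        by_contra h
        exact hne ((hB j).2.2.2.1 b h)
      exact hb (mem_filter.mpr ⟨hbA, (hmono i j hij a haC b hbC).le, hβ j b hbC⟩)
    have h2 := hA a haA β hβA (hβ i a haC)
    rw [h1]
    calc ∑ b ∈ A.filter (fun x => a ≤ x ∧ x < β), z j b
        ≤ ∑ b ∈ A.filter (fun x => a ≤ x ∧ x < β), (η / (j + 1)) :=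
          sum_le_sum fun b _ => (hB j).2.2.1 b
      _ = ((A.filter (fun x => a ≤ x ∧ x < β)).card : ℝ) * (η / (j + 1)) := by
          rw [sum_const, nsmul_eq_mul]
      _ ≤ (e a β : ℝ) * (η / (j + 1)) := by
          refine mul_le_mul_of_nonneg_right (by exact_mod_cast h2) ?_
          exact div_nonneg hη.le (hpos j).le
      _ ≤ 1 / 8 := hsm a haC
  have hzle : ∀ j a, z j a ≤ η := by
    intro j a
    refine ((hB j).2.2.1 a).trans ?_
    rw [div_le_iff₀ (hpos j)]
    have : (0 : ℝ) ≤ (j : ℝ) := by positivity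
    nlinarith
  have hzero : ∀ j A, (¬ ∃ a ∈ A, a ∈ C j) → ∑ a ∈ A, z j a = 0 := by
    intro j A h
    refine sum_eq_zero fun a ha => ?_
    refine (hB j).2.2.2.1 a fun hc => h ⟨a, ha, hc⟩
  have hle2 : ∀ j A, AA e A → ∑ a ∈ A, z j a ≤ 2 := fun j A hA => (hB j).2.2.2.2.2 A hA
  refine ⟨C j1 ∪ C j2 ∪ C j3 ∪ C j4, fun a => (z j1 a + z j2 a + z j3 a + z j4 a) / 4,
    ?_, ?_, ?_, ?_, ?_, ?_, ?_⟩
  · intro a ha
    simp only [mem_union] at ha
    rcases ha with ((h | h) | h) | h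
    · exact ⟨_, h⟩
    · exact ⟨_, h⟩
    · exact ⟨_, h⟩
    · exact ⟨_, h⟩
  · intro a
    have h1 := (hB j1).2.1 a
    have h2 := (hB j2).2.1 a
    have h3 := (hB j3).2.1 a
    have h4 := (hB j4).2.1 a
    exact div_nonneg (by linarith) (by norm_num)
  · intro a
    have h1 := hzle j1 a
    have h2 := hzle j2 a
    have h3 := hzle j3 a
    have h4 := hzle j4 a
    linarith
  · intro a ha
    simp only [mem_union, not_or] at ha
    obtain ⟨⟨⟨h1, h2⟩, h3⟩, h4⟩ := ha
    simp only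
    rw [(hB j1).2.2.2.1 a h1, (hB j2).2.2.2.1 a h2, (hB j3).2.2.2.1 a h3, (hB j4).2.2.2.1 a h4]
    norm_num
  · have hsup : ∀ j, (C j ⊆ C j1 ∪ C j2 ∪ C j3 ∪ C j4) →
        ∑ a ∈ C j1 ∪ C j2 ∪ C j3 ∪ C j4, z j a = m := by
      intro j hj
      rw [← (hB j).2.2.2.2.1]
      symm
      exact sum_subset hj fun a _ ha => (hB j).2.2.2.1 a ha
    have s1 := hsup j1 (fun a ha => by simp [ha])
    have s2 := hsup j2 (fun a ha => by simp [ha])
    have s3 := hsup j3 (fun a ha => by simp [ha])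
    have s4 := hsup j4 (fun a ha => by simp [ha])
    rw [← sum_div, sum_add_distrib, sum_add_distrib, sum_add_distrib, s1, s2, s3, s4]
    ring
  · intro A hA
    rw [← sum_div, sum_add_distrib, sum_add_distrib, sum_add_distrib]
    have h1 := hle2 j1 A hA
    have h2 := hle2 j2 A hA
    have h3 := hle2 j3 A hA
    have h4 := hle2 j4 A hA
    linarith
  · intro A hA hβA
    rw [← sum_div, sum_add_distrib, sum_add_distrib, sum_add_distrib]
    have h1 := hle2 j1 A hA
    have h2 := hle2 j2 A hA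
    have h3 := hle2 j3 A hA
    have h4 := hle2 j4 A hA
    by_cases c1 : ∃ a ∈ A, a ∈ C j1
    · have k2 := key j1 j2 h12 (fun a ha => hnx2 j1 j1 le_rfl a ha) A hA hβA c1
      have k3 := key j1 j3 (h12.trans h23) (fun a ha => hnx2 j2 j1 h12.le a ha) A hA hβA c1
      have k4 := key j1 j4 (h12.trans (h23.trans h34))
        (fun a ha => hnx2 j3 j1 (h12.trans h23).le a ha) A hA hβA c1
      linarith
    · rw [hzero j1 A c1]
      by_cases c2 : ∃ a ∈ A, a ∈ C j2
      · have k3 := key j2 j3 h23 (fun a ha => hnx2 j2 j2 le_rfl a ha) A hA hβA c2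
        have k4 := key j2 j4 (h23.trans h34) (fun a ha => hnx2 j3 j2 h23.le a ha) A hA hβA c2
        linarith
      · rw [hzero j2 A c2]
        linarith

theorem exists_blk (hcb : CB Γ) [Nonempty Γ] (S : Set Γ) (hS : ∀ ξ, ∃ a ∈ S, ξ < a) (m : ℕ) :
    ∀ (η : ℝ), 0 < η → ∀ ξ : Γ, ∃ (C : Finset Γ) (z : Γ → ℝ), Blk e S m η ξ C z := by
  induction m with
  | zero =>
    intro η hη ξ
    refine ⟨∅, fun _ => 0, ?_, fun _ => le_rfl, fun _ => hη.le, fun _ _ => rfl, ?_, ?_⟩
    · intro a ha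
      exact absurd ha (notMem_empty a)
    · simp
    · intro A _
      simp
  | succ m ih =>
    intro η hη ξ
    -- the sequence of blocks
    have hstep : ∀ (j : ℕ) (ζ : Γ), ∃ p : Finset Γ × (Γ → ℝ) × Γ,
        Blk e S m (η / 2 / ((j : ℝ) + 1)) ζ p.1 p.2.1 ∧ ζ < p.2.2 ∧ ∀ a ∈ p.1, a < p.2.2 := by
      intro j ζ
      obtain ⟨C, z, hz⟩ := ih (η / 2 / ((j : ℝ) + 1)) (by positivity) ζ
      obtain ⟨ζ', hζ'⟩ := hcb.finset (insert ζ C)
      exact ⟨⟨C, z, ζ'⟩, hz, hζ' ζ (by simp), fun a ha => hζ' a (by simp [ha])⟩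
    choose nx hnx using hstep
    let ζ : ℕ → Γ := fun j => Nat.rec (motive := fun _ => Γ) ξ (fun j w => (nx j w).2.2) j
    have hζs : ∀ j, ζ (j + 1) = (nx j (ζ j)).2.2 := fun j => rfl
    have hζmono : StrictMono ζ := strictMono_nat_of_lt_succ fun j => by
      rw [hζs]
      exact (hnx j (ζ j)).2.1
    have hmono : ∀ i j, i < j → ∀ a ∈ (nx i (ζ i)).1, ∀ b ∈ (nx j (ζ j)).1, a < b := by
      intro i j hij a ha b hb
      have h1 : a < ζ (i + 1) := by
        rw [hζs]
        exact (hnx i (ζ i)).2.2 a ha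
      have h2 : ζ j < b := ((hnx j (ζ j)).1.1 b hb).2
      exact h1.trans_le ((hζmono.monotone hij).trans h2.le)
    obtain ⟨δ, hδ⟩ := hcb ζ
    -- the points above
    choose up hup1 hup2 using hS
    let β : ℕ → Γ := fun i => Nat.rec (motive := fun _ => Γ) (up δ) (fun _ w => up w) i
    have hβs : ∀ i, β (i + 1) = up (β i) := fun i => rfl
    have hβmono : StrictMono β := strictMono_nat_of_lt_succ fun i => by
      rw [hβs]
      exact hup2 (β i)
    have hβS : ∀ i, β i ∈ S := by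
      intro i
      cases i with
      | zero => exact hup1 δ
      | succ i => exact hup1 _
    have hβδ : ∀ i, δ < β i := fun i =>
      (hup2 δ).trans_le (hβmono.monotone (Nat.zero_le i))
    have hCδ : ∀ j, ∀ a ∈ (nx j (ζ j)).1, a < δ := fun j a ha => by
      have h1 : a < ζ (j + 1) := by
        rw [hζs]
        exact (hnx j (ζ j)).2.2 a ha
      exact h1.trans (hδ (j + 1))
    have h4 := fun i : ℕ => four_blocks S m (η / 2) (by positivity) ζ (fun j => (nx j (ζ j)).1)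
      (fun j => (nx j (ζ j)).2.1) (fun j : ℕ => (hnx j (ζ j)).1) hmono (β i)
      (fun j a ha => (hCδ j a ha).trans (hβδ i))
    choose D x hD1 hx0 hxη hxD hxm hx2 hx1 using h4
    obtain ⟨n, hn⟩ := exists_nat_gt (2 / η)
    have hn0 : (0 : ℝ) < n := lt_trans (by positivity) hn
    have hn1 : 1 / (n : ℝ) ≤ η / 2 := by
      rw [div_le_iff₀ hn0]
      rw [div_lt_iff₀ hη] at hn
      linarith
    set zz : Γ → ℝ := fun a : Γ =>
      (∑ i ∈ Finset.range n, ((if a = β i then (1 : ℝ) else 0) + x i a)) / (n : ℝ) with hzz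
    set CC : Finset Γ := (range n).biUnion fun i => insert (β i) (D i) with hCC
    refine ⟨CC, zz, ?_, ?_, ?_, ?_, ?_, ?_⟩
    · intro a ha
      rw [hCC, mem_biUnion] at ha
      obtain ⟨i, _, hi⟩ := ha
      rcases mem_insert.mp hi with rfl | hi
      · refine ⟨hβS i, ?_⟩
        have : ξ < δ := by
          have := hδ 0
          exact this
        exact this.trans (hβδ i)
      · obtain ⟨j, hj⟩ := hD1 i a hi
        have h5 := (hnx j (ζ j)).1.1 a hj
        refine ⟨h5.1, lt_of_le_of_lt ?_ h5.2⟩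
        exact hζmono.monotone (Nat.zero_le j)
    · intro a
      rw [hzz]
      refine div_nonneg (sum_nonneg fun i _ => add_nonneg ?_ (hx0 i a)) hn0.le
      split_ifs <;> norm_num
    · intro a
      rw [hzz]
      simp only
      rw [div_le_iff₀ hn0, sum_add_distrib]
      have h5 : ∑ i ∈ range n, (if a = β i then (1 : ℝ) else 0) ≤ 1 := by
        by_cases h : ∃ i ∈ range n, a = β i
        · obtain ⟨i, hi, rfl⟩ := h
          have h6 : ∀ i' ∈ range n, (if β i = β i' then (1 : ℝ) else 0) = if i' = i then 1 else 0 := by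
            intro i' _
            by_cases h7 : i' = i
            · subst h7
              simp
            · rw [if_neg h7, if_neg fun h8 => h7 (hβmono.injective h8).symm]
          rw [sum_congr rfl h6, sum_ite_eq' (range n) i]
          split_ifs <;> norm_num
        · push Not at h
          rw [sum_eq_zero]
          · norm_num
          · intro i hi
            rw [if_neg (h i hi)]
      have h6 : ∑ i ∈ range n, x i a ≤ n * (η / 2) := by
        calc ∑ i ∈ range n, x i a ≤ ∑ i ∈ range n, (η / 2) := sum_le_sum fun i _ => hxη i a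
          _ = n * (η / 2) := by rw [sum_const, card_range, nsmul_eq_mul]
      have h7 : (1 : ℝ) ≤ n * (η / 2) := by
        rw [div_le_iff₀ hn0] at hn1
        linarith
      linarith
    · intro a ha
      rw [hzz]
      simp only
      rw [sum_eq_zero, zero_div]
      intro i hi
      rw [hCC, mem_biUnion] at ha
      push Not at ha
      have h5 := ha i hi
      rw [mem_insert, not_or] at h5
      rw [if_neg h5.1, hxD i a h5.2, add_zero]
    · rw [hzz]
      simp only
      rw [← sum_div, sum_comm]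
      have h5 : ∀ i ∈ range n, ∑ a ∈ CC, ((if a = β i then (1 : ℝ) else 0) + x i a) = m + 1 := by
        intro i hi
        rw [sum_add_distrib, sum_ite_eq' CC (β i) (fun _ => (1 : ℝ)), if_pos]
        · have h6 : ∑ a ∈ CC, x i a = m := by
            rw [← hxm i]
            symm
            refine sum_subset ?_ fun a _ ha => hxD i a ha
            intro a ha
            rw [hCC, mem_biUnion]
            exact ⟨i, hi, mem_insert_of_mem ha⟩
          rw [h6]
          ring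
        · rw [hCC, mem_biUnion]
          exact ⟨i, hi, mem_insert_self _ _⟩
      rw [sum_congr rfl h5, sum_const, card_range, nsmul_eq_mul]
      push_cast
      field_simp
    · intro A hA
      rw [hzz]
      simp only
      rw [← sum_div, sum_comm, div_le_iff₀ hn0]
      have h5 : ∀ i ∈ range n, ∑ a ∈ A, ((if a = β i then (1 : ℝ) else 0) + x i a) ≤ 2 := by
        intro i _
        rw [sum_add_distrib, sum_ite_eq' A (β i) (fun _ => (1 : ℝ))]
        split_ifs with h
        · linarith [hx1 i A hA h]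
        · linarith [hx2 i A hA]
      calc ∑ i ∈ range n, ∑ a ∈ A, ((if a = β i then (1 : ℝ) else 0) + x i a)
          ≤ ∑ i ∈ range n, (2 : ℝ) := sum_le_sum h5
        _ = 2 * n := by rw [sum_const, card_range, nsmul_eq_mul]; ring

variable {X : Type} [NormedAddCommGroup X] [NormedSpace ℝ X]

/-- The linear combination of basis vectors. -/
theorem exists_vec (Z : Sys e X) (C : Finset Γ) (z : Γ → ℝ) (hz : ∀ a, a ∉ C → z a = 0) (a : Γ) :
    Z.co (∑ c ∈ C, z c • Z.v c) a = z a := by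
  rw [map_sum, Finset.sum_apply]
  have h1 : ∀ c ∈ C, (Z.co (z c • Z.v c)) a = if a = c then z c else 0 := by
    intro c _
    rw [map_smul, Pi.smul_apply, Z.co_v, smul_eq_mul]
    split_ifs <;> simp
  rw [sum_congr rfl h1, sum_ite_eq C a z]
  split_ifs with h
  · rfl
  · exact (hz a h).symm

theorem countable_level (hcb : CB Γ) [Nonempty Γ] (hct : ∀ ξ : Γ, (Set.Iic ξ).Countable)
    (Z : Sys e X) (f : X → ℝ)
    (hadd : ∀ x y, f (x + y) = f x + f y) (hsmul : ∀ (c : ℝ) x, f (c • x) = c * f x)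
    (hf : ∀ x, |f x| ≤ ‖x‖) (ε : ℝ) (hε : 0 < ε) : {a : Γ | ε ≤ f (Z.v a)}.Countable := by
  by_contra hunc
  have hS : ∀ ξ, ∃ a ∈ {a : Γ | ε ≤ f (Z.v a)}, ξ < a := by
    intro ξ
    by_contra h
    push Not at h
    exact hunc ((hct ξ).mono h)
  obtain ⟨m, hm⟩ := exists_nat_gt (2 / ε)
  obtain ⟨C, z, hC, hz0, -, hzC, hzm, hz2⟩ := exists_blk (e := e) hcb _ hS m 1 one_pos
    (Classical.arbitrary Γ)
  have hf0 : f 0 = 0 := by
    have := hsmul 0 0
    rw [zero_smul, zero_mul] at this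
    exact this
  have hfs : ∀ D : Finset Γ, f (∑ c ∈ D, z c • Z.v c) = ∑ c ∈ D, z c * f (Z.v c) := by
    intro D
    induction D using Finset.induction_on with
    | empty => simpa using hf0
    | insert a s ha ih => rw [sum_insert ha, sum_insert ha, hadd, hsmul, ih]
  have h1 : ε * m ≤ f (∑ c ∈ C, z c • Z.v c) := by
    rw [hfs, ← hzm, mul_sum]
    refine sum_le_sum fun c hc => ?_
    rw [mul_comm]
    exact mul_le_mul_of_nonneg_left (hC c hc).1 (hz0 c)
  have h2 : ‖∑ c ∈ C, z c • Z.v c‖ ≤ 2 := by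
    refine Z.lb _ 2 fun A hA => ?_
    have h3 : ∀ a ∈ A, |Z.co (∑ c ∈ C, z c • Z.v c) a| = z a := by
      intro a _
      rw [exists_vec Z C z hzC a, abs_of_nonneg (hz0 a)]
    rw [sum_congr rfl h3]
    exact hz2 A hA
  have h3 := (le_abs_self _).trans (hf (∑ c ∈ C, z c • Z.v c))
  rw [div_lt_iff₀ hε] at hm
  linarith

theorem countable_support (hcb : CB Γ) [Nonempty Γ] (hct : ∀ ξ : Γ, (Set.Iic ξ).Countable)
    (Z : Sys e X) (f : X → ℝ)
    (hadd : ∀ x y, f (x + y) = f x + f y) (hsmul : ∀ (c : ℝ) x, f (c • x) = c * f x)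
    (hf : ∀ x, |f x| ≤ ‖x‖) : (Function.support fun a => f (Z.v a)).Countable := by
  have h1 : (Function.support fun a => f (Z.v a)) ⊆
      (⋃ n : ℕ, {a : Γ | 1 / ((n : ℝ) + 1) ≤ f (Z.v a)}) ∪
      ⋃ n : ℕ, {a : Γ | 1 / ((n : ℝ) + 1) ≤ (fun x => -f x) (Z.v a)} := by
    intro a ha
    rw [Function.mem_support] at ha
    rcases lt_or_gt_of_ne ha with h | h
    · right
      obtain ⟨n, hn⟩ := exists_nat_one_div_lt (neg_pos.mpr h)
      exact Set.mem_iUnion.mpr ⟨n, hn.le⟩
    · left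
      obtain ⟨n, hn⟩ := exists_nat_one_div_lt h
      exact Set.mem_iUnion.mpr ⟨n, hn.le⟩
  refine Set.Countable.mono h1 (Set.Countable.union ?_ ?_)
  · exact Set.countable_iUnion fun n =>
      countable_level hcb hct Z f hadd hsmul hf _ (by positivity)
  · refine Set.countable_iUnion fun n =>
      countable_level hcb hct Z (fun x => -f x) ?_ ?_ ?_ _ (by positivity)
    · intro x y
      rw [hadd]
      ring
    · intro c x
      rw [hsmul]
      ring
    · intro x
      rw [abs_neg]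
      exact hf x

end Pool.Agent.Helper52.Smulyan
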