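import Mathlib
import Pool.Agent.Helper52.SmWLD

set_option autoImplicit false

open Finset Filter Topology

namespace Pool.Agent.Helper52.Smulyan

variable {Γ : Type} [LinearOrder Γ] {e : Γ → Γ → ℕ}
variable {X : Type} [NormedAddCommGroup X] [NormedSpace ℝ X]

/-- Finite functionals. -/
noncomputable def HH (Z : Sys e X) (s : Finset Γ) (θ : Γ → ℝ) (x : X) : ℝ :=
  ∑ a ∈ s, θ a * Z.co x a

/-- Signed finite sets above `ξ`. -/
def Sg (e : Γ → Γ → ℕ) (ξ : Γ) (t : Finset Γ) (θ : Γ → ℝ) : Prop :=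
  AA e t ∧ (∀ a ∈ t, ξ < a) ∧ (∀ a, |θ a| ≤ 1) ∧ ∀ a, a ∉ t → θ a = 0

/-- Upper bound for all functionals above `ξ`. -/
def UB (Z : Sys e X) (M : X → ℝ) (L : ℝ) (ξ : Γ) : Prop :=
  ∀ t θ, Sg e ξ t θ → ∀ x, HH Z t θ x ≤ L * M x

theorem HH_abs_le (Z : Sys e X) (ξ : Γ) (t : Finset Γ) (θ : Γ → ℝ) (h : Sg e ξ t θ) (x : X) :
    |HH Z t θ x| ≤ 2 * ‖x‖ := by
  refine (abs_sum_le_sum_abs _ _).trans ((sum_le_sum fun a _ => ?_).trans (Z.ub x t h.1))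
  rw [abs_mul]
  exact mul_le_of_le_one_left (abs_nonneg _) (h.2.2.1 a)

theorem UB.mono (Z : Sys e X) {M : X → ℝ} (hM : ∀ x, 0 ≤ M x) {L L' : ℝ} {ξ ξ' : Γ}
    (h : UB Z M L ξ) (hL : L ≤ L') (hξ : ξ ≤ ξ') : UB Z M L' ξ' := by
  intro t θ ht x
  refine (h t θ ⟨ht.1, fun a ha => hξ.trans_lt (ht.2.1 a ha), ht.2.2⟩ x).trans ?_
  exact mul_le_mul_of_nonneg_right hL (hM x)

theorem HH_union (Z : Sys e X) {s t : Finset Γ} {θ θ' : Γ → ℝ} (hd : Disjoint s t)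
    (hθ : ∀ a, a ∉ s → θ a = 0) (hθ' : ∀ a, a ∉ t → θ' a = 0) (x : X) :
    HH Z (s ∪ t) (θ + θ') x = HH Z s θ x + HH Z t θ' x := by
  unfold HH
  rw [sum_union hd]
  congr 1
  · refine sum_congr rfl fun a ha => ?_
    rw [Pi.add_apply, hθ' a (disjoint_left.mp hd ha), add_zero]
  · refine sum_congr rfl fun a ha => ?_
    rw [Pi.add_apply, hθ a (disjoint_right.mp hd ha), zero_add]

theorem HH_neg (Z : Sys e X) (t : Finset Γ) (θ : Γ → ℝ) (x : X) :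
    HH Z t (-θ) x = - HH Z t θ x := by
  unfold HH
  rw [← sum_neg_distrib]
  exact sum_congr rfl fun a _ => by rw [Pi.neg_apply]; ring

theorem Sg.union {ξ : Γ} {s t : Finset Γ} {θ θ' : Γ → ℝ} (hs : Sg e ξ s θ)
    (hAA : AA e (s ∪ t)) (ht : ∀ a ∈ t, ξ < a) (h1 : ∀ a, |θ' a| ≤ 1)
    (h0 : ∀ a, a ∉ t → θ' a = 0) (hd : Disjoint s t) : Sg e ξ (s ∪ t) (θ + θ') := by
  refine ⟨hAA, ?_, ?_, ?_⟩
  · intro a ha
    rcases mem_union.mp ha with h | h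
    · exact hs.2.1 a h
    · exact ht a h
  · intro a
    rw [Pi.add_apply]
    by_cases ha : a ∈ s
    · rw [h0 a (disjoint_left.mp hd ha), add_zero]
      exact hs.2.2.1 a
    · rw [hs.2.2.2 a ha, zero_add]
      exact h1 a
  · intro a ha
    rw [mem_union, not_or] at ha
    rw [Pi.add_apply, hs.2.2.2 a ha.1, h0 a ha.2, add_zero]

/-- Good signed sets: they can be extended far above with almost maximal norm. -/
def Good (Z : Sys e X) (M : X → ℝ) (L0 : ℝ) (S : Finset Γ) (θ : Γ → ℝ) : Prop :=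
  ∀ (N : ℕ) (ξ : Γ) (L : ℝ), L < L0 → ∃ t θ', Sg e ξ t θ' ∧
    (∀ a ∈ S, ∀ b ∈ t, N + t.card ≤ e a b) ∧ ∃ x, L * M x < HH Z S θ x + HH Z t θ' x

theorem exists_L0 (hcb : CB Γ) [Nonempty Γ] (Z : Sys e X) (M : X → ℝ) (c C : ℝ) (hc : 0 < c)
    (hC : 0 < C) (hM1 : ∀ x, c * ‖x‖ ≤ M x) (hM2 : ∀ x, M x ≤ C * ‖x‖) :
    ∃ (L0 : ℝ) (ξ0 : Γ), 0 < L0 ∧ UB Z M L0 ξ0 ∧ ∀ L < L0, ∀ ξ, ¬ UB Z M L ξ := by
  have hM0 : ∀ x, 0 ≤ M x := fun x => (by positivity : 0 ≤ c * ‖x‖).trans (hM1 x)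
  set T : Set ℝ := {L | ∃ ξ, UB Z M L ξ} with hT
  have hne : T.Nonempty := by
    refine ⟨2 / c, Classical.arbitrary Γ, fun t θ ht x => ?_⟩
    refine ((le_abs_self _).trans (HH_abs_le Z _ t θ ht x)).trans ?_
    rw [div_mul_eq_mul_div, le_div_iff₀ hc]
    nlinarith [hM1 x]
  have hlow : ∀ L ∈ T, 1 / C ≤ L := by
    rintro L ⟨ξ, hL⟩
    obtain ⟨a, ha⟩ := hcb.finset ({ξ} : Finset Γ)
    have ha' : ξ < a := ha ξ (mem_singleton_self _)
    have h1 := hL {a} (fun b => if b = a then 1 else 0) ⟨AA.singleton a, fun b hb => by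
        rw [mem_singleton.mp hb]; exact ha', fun b => by
        simp only
        split_ifs <;> simp, fun b hb => by
        simp only
        rw [if_neg (by simpa using hb)]⟩ (Z.v a)
    have h2 : HH Z {a} (fun b => if b = a then 1 else 0) (Z.v a) = 1 := by
      unfold HH
      rw [sum_singleton, Z.co_v]
      simp
    rw [h2] at h1
    have h3 : ‖Z.v a‖ ≤ 1 := by
      refine Z.lb _ 1 fun A _ => ?_
      have h4 : ∀ b ∈ A, |Z.co (Z.v a) b| = if b = a then 1 else 0 := by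
        intro b _
        rw [Z.co_v]
        split_ifs <;> simp
      rw [sum_congr rfl h4, sum_ite_eq' A a (fun _ => (1 : ℝ))]
      split_ifs <;> norm_num
    have h5 : M (Z.v a) ≤ C := (hM2 _).trans (by nlinarith)
    have h6 := hM0 (Z.v a)
    rw [div_le_iff₀ hC]
    by_contra hcon
    push Not at hcon
    rcases le_or_gt L 0 with hL0 | hL0
    · nlinarith
    · nlinarith
  have hbdd : BddBelow T := ⟨1 / C, fun L hL => hlow L hL⟩
  refine ⟨sInf T, ?_⟩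
  have hpos : 0 < sInf T := lt_of_lt_of_le (by positivity) (le_csInf hne hlow)
  have hseq : ∀ n : ℕ, ∃ ξ, UB Z M (sInf T + 1 / ((n : ℝ) + 1)) ξ := by
    intro n
    have h1 : sInf T < sInf T + 1 / ((n : ℝ) + 1) := by
      have : (0 : ℝ) < 1 / ((n : ℝ) + 1) := by positivity
      linarith
    obtain ⟨L, ⟨ξ, hL⟩, hlt⟩ := exists_lt_of_csInf_lt hne h1
    exact ⟨ξ, hL.mono Z hM0 hlt.le le_rfl⟩
  choose ξ hξ using hseq
  obtain ⟨ξ0, hξ0⟩ := hcb ξ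
  refine ⟨ξ0, hpos, ?_, ?_⟩
  · intro t θ ht x
    have h1 : ∀ n : ℕ, HH Z t θ x ≤ (sInf T + 1 / ((n : ℝ) + 1)) * M x := fun n =>
      ((hξ n).mono Z hM0 le_rfl (hξ0 n).le) t θ ht x
    have h2 : Tendsto (fun n : ℕ => (sInf T + 1 / ((n : ℝ) + 1)) * M x) atTop
        (𝓝 ((sInf T + 0) * M x)) :=
      (tendsto_const_nhds.add tendsto_one_div_add_atTop_nhds_zero_nat).mul_const _
    rw [add_zero] at h2
    exact ge_of_tendsto' h2 h1
  · intro L hL ξ hub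
    exact absurd (csInf_le hbdd ⟨ξ, hub⟩) (not_le.mpr hL)

/-- The extension lemma. -/
theorem extend (hcb : CB Γ) [Nonempty Γ] (hfto : FTO e) (Z : Sys e X) (M : X → ℝ)
    (hM0 : ∀ x, 0 ≤ M x) (L0 : ℝ) (ξ0 : Γ) (hUB : UB Z M L0 ξ0) (S : Finset Γ) (θ : Γ → ℝ)
    (hS : Sg e ξ0 S θ) (hgood : Good Z M L0 S θ) (T : Finset Γ → (Γ → ℝ) → Prop)
    (hT1 : ∀ ξ, ∃ t θ', T t θ' ∧ ∀ a ∈ t, ξ < a)
    (hT2 : ∀ t θ', T t θ' → AA e (S ∪ t) ∧ (∀ a, |θ' a| ≤ 1) ∧ (∀ a, a ∉ t → θ' a = 0)) :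
    ∃ t θ', T t θ' ∧ (∀ a ∈ t, ξ0 < a) ∧ (∀ a ∈ S, ∀ b ∈ t, a < b) ∧
      Good Z M L0 (S ∪ t) (θ + θ') := by
  by_contra hcon
  push Not at hcon
  -- a bound above everything in S and ξ0
  obtain ⟨ζ0, hζ0⟩ := hcb.finset (insert ξ0 S)
  -- failing sets with parameters
  set Wp : ℕ → ℕ → ℕ → Finset Γ → (Γ → ℝ) → Prop := fun N k m t θ' =>
    T t θ' ∧ t.card = m ∧ ∃ ξ, ∀ t'' θ'', Sg e ξ t'' θ'' →
      (∀ a ∈ S ∪ t, ∀ b ∈ t'', N + t''.card ≤ e a b) → ∀ x,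
      HH Z (S ∪ t) (θ + θ') x + HH Z t'' θ'' x ≤ (L0 - 1 / ((k : ℝ) + 1)) * M x with hWp
  have hW1 : ∀ t θ', T t θ' → (∀ a ∈ t, ζ0 < a) → ∃ N k m, Wp N k m t θ' := by
    intro t θ' ht hζ
    have h1 := hcon t θ' ht (fun a ha => (hζ0 ξ0 (by simp)).trans (hζ a ha))
      (fun a ha b hb => (hζ0 a (by simp [ha])).trans (hζ b hb))
    unfold Good at h1
    push Not at h1
    obtain ⟨N, ξ, L, hL, h1⟩ := h1
    obtain ⟨k, hk⟩ := exists_nat_one_div_lt (sub_pos.mpr hL)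
    refine ⟨N, k, t.card, ht, rfl, ξ, fun t'' θ'' h2 h3 x => ?_⟩
    refine (h1 t'' θ'' h2 h3 x).trans ?_
    refine mul_le_mul_of_nonneg_right ?_ (hM0 x)
    linarith
  obtain ⟨N, k, m, hW2⟩ : ∃ N k m, ∀ ξ, ∃ t θ', Wp N k m t θ' ∧ ∀ a ∈ t, ξ < a := by
    by_contra h
    push Not at h
    choose ξf hξf using h
    obtain ⟨u, hu⟩ := hcb.set ((Set.range fun p : ℕ × ℕ × ℕ => ξf p.1 p.2.1 p.2.2) ∪ {ζ0})
      ((Set.countable_range _).union (Set.countable_singleton _))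
    obtain ⟨t, θ', ht, htu⟩ := hT1 u
    obtain ⟨N, k, m, hW⟩ := hW1 t θ' ht (fun a ha => (hu ζ0 (Or.inr rfl)).trans (htu a ha))
    obtain ⟨a, ha, hle⟩ := hξf N k m t θ' hW
    have h2 := hu (ξf N k m) (Or.inl ⟨(N, k, m), rfl⟩)
    exact absurd (h2.trans (htu a ha)) (not_lt.mpr hle)
  -- a sequence
  choose Ft Fθ hF1 hF2 using hW2
  have hnext : ∀ ξ : Γ, ∃ ξ', ξ < ξ' ∧ ∀ a ∈ Ft ξ, a < ξ' := by
    intro ξ
    obtain ⟨ξ', h⟩ := hcb.finset (insert ξ (Ft ξ))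
    exact ⟨ξ', h ξ (by simp), fun a ha => h a (by simp [ha])⟩
  choose nx hnx1 hnx2 using hnext
  let ξs : ℕ → Γ := fun i => Nat.rec (motive := fun _ => Γ) ζ0 (fun _ w => nx w) i
  have hξs : ∀ i, ξs (i + 1) = nx (ξs i) := fun i => rfl
  have hmono : StrictMono ξs := strictMono_nat_of_lt_succ fun i => by
    rw [hξs]
    exact hnx1 _
  have hlt : ∀ i j, i < j → ∀ a ∈ Ft (ξs i), ∀ b ∈ Ft (ξs j), a < b := by
    intro i j hij a ha b hb
    have h1 : a < ξs (i + 1) := by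
      rw [hξs]
      exact hnx2 _ a ha
    exact h1.trans_le ((hmono.monotone hij).trans (hF2 (ξs j) b hb).le)
  have hfail : ∀ i, ∃ ξ, ∀ t'' θ'', Sg e ξ t'' θ'' →
      (∀ a ∈ S ∪ Ft (ξs i), ∀ b ∈ t'', N + t''.card ≤ e a b) → ∀ x,
      HH Z (S ∪ Ft (ξs i)) (θ + Fθ (ξs i)) x + HH Z t'' θ'' x
        ≤ (L0 - 1 / ((k : ℝ) + 1)) * M x := fun i => (hF1 (ξs i)).2.2
  choose ζf hζf using hfail
  obtain ⟨u, hu⟩ := hcb.set ((Set.range ζf) ∪ Set.range ξs)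
    ((Set.countable_range _).union (Set.countable_range _))
  have hk : (0 : ℝ) < 1 / ((k : ℝ) + 1) := by positivity
  obtain ⟨t, θt, ht, hfar, x, hx⟩ := hgood (N + S.card + m) u (L0 - 1 / ((k : ℝ) + 1) / 2)
    (by linarith)
  -- the finite set of bad points
  have hbad : (⋃ b ∈ t, {a : Γ | a < b ∧ e a b ≤ N + S.card + m + t.card}).Finite :=
    Set.Finite.biUnion t.finite_toSet fun b _ => hfto b _
  obtain ⟨i, hi⟩ : ∃ i, ∀ a ∈ Ft (ξs i), a ∉ ⋃ b ∈ t,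
      {a : Γ | a < b ∧ e a b ≤ N + S.card + m + t.card} := by
    by_contra h
    push Not at h
    choose f hf1 hf2 using h
    have hinj : Function.Injective f := by
      intro i j hij
      by_contra hne
      rcases lt_or_gt_of_ne hne with h | h
      · exact absurd hij (hlt i j h _ (hf1 i) _ (hf1 j)).ne
      · exact absurd hij (hlt j i h _ (hf1 j) _ (hf1 i)).ne'
    exact (Set.infinite_of_injective_forall_mem hinj hf2) hbad
  have htlt : ∀ a ∈ Ft (ξs i), ∀ b ∈ t, a < b := by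
    intro a ha b hb
    have h1 : a < ξs (i + 1) := by
      rw [hξs]
      exact hnx2 _ a ha
    exact h1.trans ((hu _ (Or.inr ⟨i + 1, rfl⟩)).trans (ht.2.1 b hb))
  have hζlt : ∀ b ∈ t, ζ0 < b := by
    intro b hb
    exact (hu _ (Or.inr ⟨0, rfl⟩)).trans (ht.2.1 b hb)
  have hfar2 : ∀ a ∈ Ft (ξs i), ∀ b ∈ t, N + S.card + m + t.card < e a b := by
    intro a ha b hb
    have h1 := hi a ha
    simp only [Set.mem_iUnion, not_exists] at h1
    have h2 := h1 b hb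
    by_contra h3
    exact h2 ⟨htlt a ha b hb, not_lt.mp h3⟩
  obtain ⟨hTi, hcard, -⟩ := hF1 (ξs i)
  obtain ⟨hAA1, hθ1, hθ0⟩ := hT2 _ _ hTi
  have hξi : ∀ a ∈ Ft (ξs i), ζ0 < a := fun a ha =>
    (hmono.monotone (Nat.zero_le i)).trans_lt (hF2 (ξs i) a ha)
  have hξ0i : ∀ a ∈ Ft (ξs i), ξ0 < a := fun a ha => (hζ0 ξ0 (by simp)).trans (hξi a ha)
  have hSlt : ∀ a ∈ S, ∀ b ∈ Ft (ξs i), a < b := fun a ha b hb =>
    (hζ0 a (by simp [ha])).trans (hξi b hb)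
  have hd1 : Disjoint S (Ft (ξs i)) := disjoint_left.mpr fun a ha hb =>
    absurd (hSlt a ha a hb) (lt_irrefl _)
  have hlt2 : ∀ a ∈ S ∪ Ft (ξs i), ∀ b ∈ t, a < b := by
    intro a ha b hb
    rcases mem_union.mp ha with h | h
    · exact (hζ0 a (by simp [h])).trans (hζlt b hb)
    · exact htlt a h b hb
  have hd2 : Disjoint (S ∪ Ft (ξs i)) t := disjoint_left.mpr fun a ha hb =>
    absurd (hlt2 a ha a hb) (lt_irrefl _)
  have hAA2 : AA e ((S ∪ Ft (ξs i)) ∪ t) := by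
    refine hAA1.union ht.1 hlt2 ?_
    intro a ha b hb
    have h1 : (S ∪ Ft (ξs i)).card ≤ S.card + m := by
      refine (card_union_le _ _).trans ?_
      rw [hcard]
    rcases mem_union.mp ha with h | h
    · have h2 := hfar a h b hb
      omega
    · have h2 := hfar2 a h b hb
      omega
  -- the sign trick
  have hsg : Sg e ξ0 ((S ∪ Ft (ξs i)) ∪ t) ((θ + -Fθ (ξs i)) + θt) := by
    refine Sg.union (hS.union hAA1 hξ0i ?_ ?_ hd1) hAA2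
      (fun a ha => (hζ0 ξ0 (by simp)).trans (hζlt a ha)) ht.2.2.1 ht.2.2.2 hd2
    · intro a
      rw [Pi.neg_apply, abs_neg]
      exact hθ1 a
    · intro a ha
      rw [Pi.neg_apply, hθ0 a ha, neg_zero]
  have hub := hUB _ _ hsg x
  have hS1 : Sg e ξ0 (S ∪ Ft (ξs i)) (θ + -Fθ (ξs i)) := by
    refine hS.union hAA1 hξ0i ?_ ?_ hd1
    · intro a
      rw [Pi.neg_apply, abs_neg]
      exact hθ1 a
    · intro a ha
      rw [Pi.neg_apply, hθ0 a ha, neg_zero]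
  rw [HH_union Z hd2 hS1.2.2.2 ht.2.2.2, HH_union Z hd1 hS.2.2.2 (fun a ha => by
    rw [Pi.neg_apply, hθ0 a ha, neg_zero]), HH_neg] at hub
  have hfin := hζf i t θt ⟨ht.1, fun a ha =>
    (hu _ (Or.inl ⟨i, rfl⟩)).trans (ht.2.1 a ha), ht.2.2⟩ (by
      intro a ha b hb
      rcases mem_union.mp ha with h | h
      · have h2 := hfar a h b hb
        omega
      · have h2 := hfar2 a h b hb
        omega) x
  rw [HH_union Z hd1 hS.2.2.2 hθ0] at hfin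
  nlinarith

end Pool.Agent.Helper52.Smulyan
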