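import Mathlib
import Pool.Agent.Helper52.SmRot

set_option autoImplicit false

open Finset Filter Topology

namespace Pool.Agent.Helper52.Smulyan

variable {Γ : Type} [LinearOrder Γ] {e : Γ → Γ → ℕ}
variable {X : Type} [NormedAddCommGroup X] [NormedSpace ℝ X]

theorem tendsto_sum_of_mono (f : Γ → ℝ) (hf : Summable f) (S : ℕ → Finset Γ) (hS : Monotone S)
    (h0 : ∀ a, (∀ n, a ∉ S n) → f a = 0) :
    Tendsto (fun n => ∑ a ∈ S n, f a) atTop (𝓝 (∑' a, f a)) := by
  intro U hU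
  have h1 := hf.hasSum hU
  rw [Filter.mem_map] at h1
  rw [SummationFilter.unconditional_filter, mem_atTop_sets] at h1
  obtain ⟨u0, hu0⟩ := h1
  have h2 : ∃ N, ∀ a ∈ u0, a ∈ S N ∨ ∀ n, a ∉ S n := by
    have h3 : ∀ a : Γ, ∃ N, a ∈ S N ∨ ∀ n, a ∉ S n := by
      intro a
      by_cases h : ∃ N, a ∈ S N
      · obtain ⟨N, hN⟩ := h
        exact ⟨N, Or.inl hN⟩
      · push Not at h
        exact ⟨0, Or.inr h⟩
    choose Nf hNf using h3
    refine ⟨u0.sup Nf, fun a ha => ?_⟩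
    rcases hNf a with h | h
    · exact Or.inl (hS (Finset.le_sup (f := Nf) ha) h)
    · exact Or.inr h
  obtain ⟨N, hN⟩ := h2
  rw [Filter.mem_map, mem_atTop_sets]
  refine ⟨N, fun n hn => ?_⟩
  have h4 := hu0 (S n ∪ u0) subset_union_right
  have h5 : ∑ a ∈ S n ∪ u0, f a = ∑ a ∈ S n, f a := by
    symm
    refine sum_subset subset_union_left fun a ha ha' => ?_
    rcases mem_union.mp ha with h | h
    · exact absurd h ha'
    · rcases hN a h with h6 | h6
      · exact absurd (hS hn h6) ha'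
      · exact h0 a h6
  rw [Set.mem_preimage] at h4 ⊢
  rw [h5] at h4
  exact h4

theorem tail_countable {y : Γ → ℝ} (hy : Tail e y) : {a | y a ≠ 0}.Countable := by
  have h1 : ∀ n : ℕ, ∃ S : Finset Γ, ∀ A : Finset Γ, AA e A → Disjoint A S →
      ∑ a ∈ A, |y a| ≤ 1 / ((n : ℝ) + 1) := fun n => hy _ (by positivity)
  choose S hS using h1
  refine Set.Countable.mono ?_ (Set.countable_iUnion fun n => (S n).countable_toSet)
  intro a ha
  by_contra h
  simp only [Set.mem_iUnion, Finset.mem_coe, not_exists] at h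
  have h2 : ∀ n : ℕ, |y a| ≤ 1 / ((n : ℝ) + 1) := by
    intro n
    have h3 := hS n {a} (AA.singleton a) (disjoint_singleton_left.mpr (h n))
    rwa [sum_singleton] at h3
  have h4 : |y a| ≤ 0 := ge_of_tendsto' tendsto_one_div_add_atTop_nhds_zero_nat h2
  exact ha (abs_nonpos_iff.mp h4)

/-- No equivalent norm has a strictly convex dual norm. -/
theorem no_rotund (hcb : CB Γ) [Nonempty Γ] (hfto : FTO e) (Z : Sys e X) (M : X → ℝ) (k C : ℝ)
    (hk : 0 < k) (hC : 0 < C) (hM1 : ∀ x, k * ‖x‖ ≤ M x) (hM2 : ∀ x, M x ≤ C * ‖x‖)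
    (hSC : ∀ f g : X →L[ℝ] ℝ, f ≠ g → (∀ x : X, f x ≤ M x) → (∀ x : X, g x ≤ M x) →
          ∃ r : ℝ, r < 1 ∧ ∀ x : X, (1 / 2 : ℝ) * (f x + g x) ≤ r * M x) : False := by
  classical
  have hM0 : ∀ x, 0 ≤ M x := fun x => (by positivity : 0 ≤ k * ‖x‖).trans (hM1 x)
  obtain ⟨L0, ξ0, hL0, hUB, hnUB⟩ := exists_L0 hcb Z M k C hk hC hM1 hM2
  have hne : ∀ x, M x = 0 → x = 0 := by
    intro x hx
    have h1 := hM1 x
    rw [hx] at h1
    have h2 : ‖x‖ ≤ 0 := by
      by_contra h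
      push Not at h
      have := mul_pos hk h
      linarith
    exact norm_le_zero_iff.mp h2
  -- the empty set is good
  have hg0 : Good Z M L0 ∅ 0 := by
    intro N ξ L hL
    have h1 := hnUB L hL ξ
    unfold UB at h1
    push Not at h1
    obtain ⟨t, θ, ht, x, hx⟩ := h1
    refine ⟨t, θ, ht, fun a ha => absurd ha (notMem_empty a), x, ?_⟩
    unfold HH at hx ⊢
    rw [sum_empty, zero_add]
    exact hx
  have hSg0 : Sg e ξ0 ∅ 0 := ⟨AA.empty, fun a ha => absurd ha (notMem_empty a),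
    fun a => by simp, fun _ _ => rfl⟩
  -- the ghost
  obtain ⟨c, hcξ, hgc⟩ : ∃ c, ξ0 < c ∧ Good Z M L0 {c} 0 := by
    obtain ⟨t, θ', ⟨c, rfl, rfl⟩, h1, -, h2⟩ := extend hcb hfto Z M hM0 L0 ξ0 hUB ∅ 0 hSg0 hg0
      (fun t θ' => ∃ c, t = {c} ∧ θ' = 0) (by
        intro ξ
        obtain ⟨c, hc⟩ := hcb.finset ({ξ} : Finset Γ)
        exact ⟨{c}, 0, ⟨c, rfl, rfl⟩, fun a ha => by
          rw [mem_singleton.mp ha]
          exact hc ξ (mem_singleton_self _)⟩) (by
        rintro t θ' ⟨c, rfl, rfl⟩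
        rw [empty_union]
        exact ⟨AA.singleton c, fun a => by simp, fun _ _ => rfl⟩)
    refine ⟨c, h1 c (mem_singleton_self _), ?_⟩
    rwa [empty_union, add_zero] at h2
  -- the invariant
  set Inv : Finset Γ × (Γ → ℝ) × Γ → Prop := fun s => Sg e ξ0 s.1 s.2.1 ∧ Good Z M L0 s.1 s.2.1 ∧
    c ∈ s.1 ∧ s.2.1 c = 0 ∧ ∀ a ∈ s.1, a ≤ s.2.2 with hInv
  have hinit : Inv ({c}, 0, c) := by
    refine ⟨⟨AA.singleton c, fun a ha => by rw [mem_singleton.mp ha]; exact hcξ,
      fun a => by simp, fun _ _ => rfl⟩, hgc, mem_singleton_self _, rfl, ?_⟩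
    intro a ha
    exact (mem_singleton.mp ha).le
  have hstep : ∀ (n : ℕ) (s : Finset Γ × (Γ → ℝ) × Γ), ∃ s' : Finset Γ × (Γ → ℝ) × Γ,
      Inv s → (Inv s' ∧ s.2.2 ≤ s'.2.2 ∧ s.1 ⊆ s'.1 ∧ (∀ a ∈ s.1, s'.2.1 a = s.2.1 a) ∧
        (∀ a ∈ s'.1, a ∉ s.1 → s.2.2 < a) ∧
        ∃ x, (L0 - 1 / ((n : ℝ) + 1)) * M x < HH Z s'.1 s'.2.1 x ∧
          ∀ a, Z.co x a ≠ 0 → a < s'.2.2) := by
    intro n s
    by_cases hs : Inv s
    swap
    · exact ⟨s, fun h => absurd h hs⟩
    obtain ⟨S, θ, ξ⟩ := s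
    obtain ⟨hS, hG, hcS, hθc, hSξ⟩ := hs
    simp only at hS hG hcS hθc hSξ
    have hn : (0 : ℝ) < 1 / ((n : ℝ) + 1) := by positivity
    obtain ⟨t, θ', ⟨ht, hfar, x, hx⟩, hξ0t, hSt, hG'⟩ := extend hcb hfto Z M hM0 L0 ξ0 hUB S θ hS hG
      (fun t θ' => Sg e ξ t θ' ∧ (∀ a ∈ S, ∀ b ∈ t, S.card + t.card ≤ e a b) ∧
        ∃ x, (L0 - 1 / ((n : ℝ) + 1)) * M x < HH Z S θ x + HH Z t θ' x) (by
        intro ζ
        obtain ⟨t, θ', ht, hfar, x, hx⟩ := hG S.card (max ζ ξ) (L0 - 1 / ((n : ℝ) + 1)) (by linarith)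
        exact ⟨t, θ', ⟨⟨ht.1, fun a ha => (le_max_right _ _).trans_lt (ht.2.1 a ha), ht.2.2⟩,
          hfar, x, hx⟩, fun a ha => (le_max_left _ _).trans_lt (ht.2.1 a ha)⟩) (by
        rintro t θ' ⟨ht, hfar, -⟩
        exact ⟨hS.1.union ht.1 (fun a ha b hb => (hSξ a ha).trans_lt (ht.2.1 b hb)) hfar,
          ht.2.2.1, ht.2.2.2⟩)
    have hd : Disjoint S t := disjoint_left.mpr fun a ha hb =>
      absurd (hSt a ha a hb) (lt_irrefl _)
    have hAA : AA e (S ∪ t) := hS.1.union ht.1 hSt hfar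
    obtain ⟨ξ', hξ'⟩ := hcb.set (({a | Z.co x a ≠ 0} ∪ ((S ∪ t : Finset Γ) : Set Γ)) ∪ {ξ})
      (((tail_countable (Z.tail x)).union (S ∪ t).countable_toSet).union
        (Set.countable_singleton _))
    refine ⟨(S ∪ t, θ + θ', ξ'), fun _ => ⟨⟨?_, hG', ?_, ?_, ?_⟩,
      (hξ' ξ (Or.inr rfl)).le, ?_, ?_, ?_, x, ?_, ?_⟩⟩
    · exact hS.union hAA hξ0t ht.2.2.1 ht.2.2.2 hd
    · exact mem_union_left _ hcS
    · change θ c + θ' c = 0
      rw [hθc, ht.2.2.2 c (disjoint_left.mp hd hcS), add_zero]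
    · intro a ha
      exact (hξ' a (Or.inl (Or.inr (Finset.mem_coe.mpr ha)))).le
    · exact subset_union_left
    · intro a ha
      change θ a + θ' a = θ a
      rw [ht.2.2.2 a (disjoint_left.mp hd ha), add_zero]
    · intro a ha ha'
      change ξ < a
      rcases mem_union.mp ha with h | h
      · exact absurd h ha'
      · exact ht.2.1 a h
    · rw [HH_union Z hd hS.2.2.2 ht.2.2.2]
      exact hx
    · intro a ha
      exact hξ' a (Or.inl (Or.inl ha))
  choose nx hnx using hstep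
  let s : ℕ → Finset Γ × (Γ → ℝ) × Γ := fun n =>
    Nat.rec (motive := fun _ => Finset Γ × (Γ → ℝ) × Γ) ({c}, 0, c) (fun n w => nx n w) n
  have hss : ∀ n, s (n + 1) = nx n (s n) := fun n => rfl
  have hinv : ∀ n, Inv (s n) := by
    intro n
    induction n with
    | zero => exact hinit
    | succ n ih =>
      rw [hss]
      exact (hnx n (s n) ih).1
  have hprop : ∀ n, (s n).2.2 ≤ (s (n + 1)).2.2 ∧ (s n).1 ⊆ (s (n + 1)).1 ∧ (∀ a ∈ (s n).1, (s (n + 1)).2.1 a = (s n).2.1 a) ∧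
        (∀ a ∈ (s (n + 1)).1, a ∉ (s n).1 → (s n).2.2 < a) ∧
        ∃ x, (L0 - 1 / ((n : ℝ) + 1)) * M x < HH Z (s (n + 1)).1 (s (n + 1)).2.1 x ∧
          ∀ a, Z.co x a ≠ 0 → a < (s (n + 1)).2.2 := by
    intro n
    rw [hss]
    exact (hnx n (s n) (hinv n)).2
  have hmono : Monotone fun n => (s n).1 := monotone_nat_of_le_succ fun n => (hprop n).2.1
  have hξmono : Monotone fun n => (s n).2.2 := monotone_nat_of_le_succ fun n => (hprop n).1
  have hθeq : ∀ n m, n ≤ m → ∀ a ∈ (s n).1, (s m).2.1 a = (s n).2.1 a := by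
    intro n m hnm a ha
    induction m, hnm using Nat.le_induction with
    | base => rfl
    | succ m hm ih => rw [(hprop m).2.2.1 a (hmono hm ha), ih]
  set θi : Γ → ℝ := fun a => if h : ∃ n, a ∈ (s n).1 then (s (Nat.find h)).2.1 a else 0 with hθi
  have hθi1 : ∀ n, ∀ a ∈ (s n).1, θi a = (s n).2.1 a := by
    intro n a ha
    have h : ∃ n, a ∈ (s n).1 := ⟨n, ha⟩
    rw [hθi]
    simp only
    rw [dif_pos h]
    exact (hθeq _ n (Nat.find_min' h ha) a (Nat.find_spec h)).symm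
  have hθi0 : ∀ a, (∀ n, a ∉ (s n).1) → θi a = 0 := by
    intro a ha
    rw [hθi]
    simp only
    rw [dif_neg (by push Not; exact ha)]
  have hθile : ∀ a, |θi a| ≤ 1 := by
    intro a
    by_cases h : ∃ n, a ∈ (s n).1
    · obtain ⟨n, hn⟩ := h
      rw [hθi1 n a hn]
      exact (hinv n).1.2.2.1 a
    · push Not at h
      rw [hθi0 a h, abs_zero]
      exact zero_le_one
  -- summability
  have hfin : ∀ u : Finset Γ, ∃ n, u.filter (fun a => ∃ n, a ∈ (s n).1) ⊆ (s n).1 := by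
    intro u
    have h3 : ∀ a : Γ, ∃ N, (∃ n, a ∈ (s n).1) → a ∈ (s N).1 := by
      intro a
      by_cases h : ∃ N, a ∈ (s N).1
      · obtain ⟨N, hN⟩ := h
        exact ⟨N, fun _ => hN⟩
      · exact ⟨0, fun h' => absurd h' h⟩
    choose Nf hNf using h3
    refine ⟨u.sup Nf, fun a ha => ?_⟩
    rw [mem_filter] at ha
    exact hmono (Finset.le_sup (f := Nf) ha.1) (hNf a ha.2)
  have hbound : ∀ x : X, ∀ u : Finset Γ, ∑ a ∈ u, ‖θi a * Z.co x a‖ ≤ 2 * ‖x‖ := by
    intro x u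
    obtain ⟨n, hn⟩ := hfin u
    have h1 : ∑ a ∈ u, ‖θi a * Z.co x a‖
        = ∑ a ∈ u.filter (fun a => ∃ n, a ∈ (s n).1), ‖θi a * Z.co x a‖ := by
      symm
      refine sum_subset (filter_subset _ _) fun a ha ha' => ?_
      rw [hθi0 a, zero_mul, norm_zero]
      intro m hm
      exact ha' (mem_filter.mpr ⟨ha, m, hm⟩)
    rw [h1]
    refine (sum_le_sum fun a _ => ?_).trans (Z.ub x _ (AA.subset (hinv n).1.1 hn))
    rw [Real.norm_eq_abs, abs_mul]
    exact mul_le_of_le_one_left (abs_nonneg _) (hθile a)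
  have hsummn : ∀ x : X, Summable fun a => ‖θi a * Z.co x a‖ := fun x =>
    summable_of_sum_le (fun _ => norm_nonneg _) (hbound x)
  have hsumm : ∀ x : X, Summable fun a => θi a * Z.co x a := fun x => (hsummn x).of_norm
  let hlin : X →ₗ[ℝ] ℝ :=
    { toFun := fun x => ∑' a, θi a * Z.co x a
      map_add' := fun x y => by
        rw [← (hsumm x).tsum_add (hsumm y)]
        exact tsum_congr fun a => by rw [map_add, Pi.add_apply]; ring
      map_smul' := fun r x => by
        rw [RingHom.id_apply, smul_eq_mul, ← tsum_mul_left]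
        exact tsum_congr fun a => by rw [map_smul, Pi.smul_apply, smul_eq_mul]; ring }
  let h : X →L[ℝ] ℝ := hlin.mkContinuous 2 (fun x => by
    change ‖∑' a, θi a * Z.co x a‖ ≤ _
    exact (norm_tsum_le_tsum_norm (hsummn x)).trans
      ((hsummn x).tsum_le_of_sum_le (hbound x)))
  let clin : X →ₗ[ℝ] ℝ :=
    { toFun := fun x => Z.co x c
      map_add' := fun x y => by rw [map_add, Pi.add_apply]
      map_smul' := fun r x => by rw [map_smul, Pi.smul_apply]; rfl }
  let cf : X →L[ℝ] ℝ := clin.mkContinuous 2 (fun x => by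
    change ‖Z.co x c‖ ≤ _
    have h1 := Z.ub x {c} (AA.singleton c)
    rwa [sum_singleton] at h1)
  have hh : ∀ x, h x = ∑' a, θi a * Z.co x a := fun x => rfl
  have hcf : ∀ x, cf x = Z.co x c := fun x => rfl
  have hlim : ∀ x, Tendsto (fun n => HH Z (s n).1 (s n).2.1 x) atTop (𝓝 (h x)) := by
    intro x
    rw [hh]
    have h1 := tendsto_sum_of_mono (fun a => θi a * Z.co x a) (hsumm x) (fun n => (s n).1) hmono
      (fun a ha => by rw [hθi0 a ha, zero_mul])
    refine h1.congr fun n => ?_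
    unfold HH
    exact sum_congr rfl fun a ha => by rw [hθi1 n a ha]
  -- bounds for the two functionals
  have hub : ∀ (σ : ℝ), |σ| ≤ 1 → ∀ x, h x + σ * Z.co x c ≤ L0 * M x := by
    intro σ hσ x
    refine le_of_tendsto' ((hlim x).add_const _) fun n => ?_
    have h1 : HH Z (s n).1 (s n).2.1 x + σ * Z.co x c
        = HH Z (s n).1 (fun a => if a = c then σ else (s n).2.1 a) x := by
      unfold HH
      have h2 : ∀ a ∈ (s n).1, (if a = c then σ else (s n).2.1 a) * Z.co x a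
          = (s n).2.1 a * Z.co x a + if a = c then σ * Z.co x a else 0 := by
        intro a _
        split_ifs with h3
        · rw [h3, (hinv n).2.2.2.1]
          ring
        · ring
      rw [sum_congr rfl h2, sum_add_distrib, sum_ite_eq' (s n).1 c, if_pos (hinv n).2.2.1]
    rw [h1]
    refine hUB _ _ ⟨(hinv n).1.1, (hinv n).1.2.1, ?_, ?_⟩ x
    · intro a
      split_ifs
      · exact hσ
      · exact (hinv n).1.2.2.1 a
    · intro a ha
      rw [if_neg, (hinv n).1.2.2.2 a ha]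
      rintro rfl
      exact ha (hinv n).2.2.1
  -- strict convexity
  obtain ⟨r, hr1, hr⟩ := hSC (L0⁻¹ • (h + cf)) (L0⁻¹ • (h - cf)) (by
      intro heq
      have h1 := congrArg (fun F : X →L[ℝ] ℝ => F (Z.v c)) heq
      simp only [_root_.smul_apply, _root_.add_apply,
        _root_.sub_apply, hcf, Z.co_v, if_true, smul_eq_mul] at h1
      have h2 : h (Z.v c) + 1 = h (Z.v c) - 1 :=
        mul_left_cancel₀ (inv_ne_zero hL0.ne') h1
      linarith) (by
      intro x
      have h1 := hub 1 (by simp) x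
      simp only [_root_.smul_apply, _root_.add_apply, hcf,
        smul_eq_mul]
      rw [one_mul] at h1
      rw [inv_mul_le_iff₀ hL0]
      exact h1) (by
      intro x
      have h1 := hub (-1) (by simp) x
      simp only [_root_.smul_apply, _root_.sub_apply, hcf,
        smul_eq_mul]
      rw [inv_mul_le_iff₀ hL0]
      linarith)
  have hr' : ∀ x, h x ≤ r * L0 * M x := by
    intro x
    have h1 := hr x
    simp only [_root_.smul_apply, _root_.add_apply,
      _root_.sub_apply, smul_eq_mul] at h1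
    have h2 : (1 / 2 : ℝ) * (L0⁻¹ * (h x + cf x) + L0⁻¹ * (h x - cf x)) = L0⁻¹ * h x := by ring
    rw [h2, inv_mul_le_iff₀ hL0] at h1
    linarith
  -- the witnesses
  have hwit : ∀ n : ℕ, L0 - 1 / ((n : ℝ) + 1) ≤ r * L0 := by
    intro n
    obtain ⟨-, -, -, -, x, hx1, hx2⟩ := hprop n
    have h1 : h x = HH Z (s (n + 1)).1 (s (n + 1)).2.1 x := by
      refine tendsto_nhds_unique (hlim x) ?_
      refine tendsto_const_nhds.congr' ?_
      filter_upwards [eventually_ge_atTop (n + 1)] with m hm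
      unfold HH
      rw [← sum_subset (hmono hm)]
      · exact sum_congr rfl fun a ha => by rw [hθeq (n + 1) m hm a ha]
      · intro a ha ha'
        have h3 : (s (n + 1)).2.2 < a := by
          clear hx1 hx2
          induction m, hm using Nat.le_induction with
          | base => exact absurd ha ha'
          | succ m hm ih =>
            by_cases h4 : a ∈ (s m).1
            · exact ih h4
            · have h5 := (hprop m).2.2.2.1 a ha h4
              exact lt_of_le_of_lt (hξmono hm) h5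
        have h4 : Z.co x a = 0 := by
          by_contra h5
          exact absurd (hx2 a h5) (not_lt.mpr h3.le)
        rw [h4, mul_zero]
    have h2 := hr' x
    rw [h1] at h2
    have h3 : 0 < M x := by
      rcases (hM0 x).lt_or_eq with h4 | h4
      · exact h4
      · exfalso
        have h5 := hne x h4.symm
        rw [← h4, mul_zero, h5] at hx1
        unfold HH at hx1
        simp at hx1
    have h4 : (L0 - 1 / ((n : ℝ) + 1)) * M x < r * L0 * M x := hx1.trans_le h2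
    exact (lt_of_mul_lt_mul_right h4 h3.le).le
  have hend : L0 ≤ r * L0 := by
    have h1 : Tendsto (fun n : ℕ => L0 - 1 / ((n : ℝ) + 1)) atTop (𝓝 (L0 - 0)) :=
      tendsto_const_nhds.sub tendsto_one_div_add_atTop_nhds_zero_nat
    rw [sub_zero] at h1
    exact le_of_tendsto' h1 hwit
  nlinarith

end Pool.Agent.Helper52.Smulyan
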