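import Mathlib
import Pool.Agent.Helper52.SmRot2

set_option autoImplicit false

open Finset Filter Topology

namespace Pool.Agent.Helper52.Smulyan

variable {Γ : Type} [LinearOrder Γ] {e : Γ → Γ → ℕ}

/-- Position dependent coefficients. -/
noncomputable def cc (A : Finset Γ) (a : Γ) : ℝ :=
  1 + (1 / 2) ^ (A.filter (fun x => x < a)).card + (1 / 2) ^ (A.filter (fun x => a < x)).card

theorem one_le_cc (A : Finset Γ) (a : Γ) : 1 ≤ cc A a := by
  unfold cc
  have h1 : (0 : ℝ) < (1 / 2) ^ (A.filter (fun x => x < a)).card := by positivity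
  have h2 : (0 : ℝ) < (1 / 2) ^ (A.filter (fun x => a < x)).card := by positivity
  linarith

theorem cc_le (A : Finset Γ) (a : Γ) : cc A a ≤ 3 := by
  unfold cc
  have h1 : (1 / 2 : ℝ) ^ (A.filter (fun x => x < a)).card ≤ 1 :=
    pow_le_one₀ (by norm_num) (by norm_num)
  have h2 : (1 / 2 : ℝ) ^ (A.filter (fun x => a < x)).card ≤ 1 :=
    pow_le_one₀ (by norm_num) (by norm_num)
  linarith

theorem cc_anti {A B : Finset Γ} (h : A ⊆ B) (a : Γ) : cc B a ≤ cc A a := by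
  unfold cc
  have h1 : (1 / 2 : ℝ) ^ (B.filter (fun x => x < a)).card
      ≤ (1 / 2) ^ (A.filter (fun x => x < a)).card :=
    pow_le_pow_of_le_one (by norm_num) (by norm_num) (card_le_card (filter_subset_filter _ h))
  have h2 : (1 / 2 : ℝ) ^ (B.filter (fun x => a < x)).card
      ≤ (1 / 2) ^ (A.filter (fun x => a < x)).card :=
    pow_le_pow_of_le_one (by norm_num) (by norm_num) (card_le_card (filter_subset_filter _ h))
  linarith

theorem pow_gap {p q i : ℕ} (h : p + 1 ≤ q) (hi : p ≤ i) :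
    (1 / 2 : ℝ) ^ q ≤ (1 / 2) ^ p - (1 / 2) ^ (i + 1) := by
  have h1 : (1 / 2 : ℝ) ^ q ≤ (1 / 2) ^ (p + 1) :=
    pow_le_pow_of_le_one (by norm_num) (by norm_num) h
  have h2 : (1 / 2 : ℝ) ^ (i + 1) ≤ (1 / 2) ^ (p + 1) :=
    pow_le_pow_of_le_one (by norm_num) (by norm_num) (by omega)
  have h3 : (1 / 2 : ℝ) ^ p = 2 * (1 / 2) ^ (p + 1) := by rw [pow_succ]; ring
  linarith

theorem cc_gap {A B : Finset Γ} (h : A ⊆ B) (b c : Γ) (hcB : c ∈ B) (hcA : c ∉ A) (hcb : c ≠ b)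
    (i : ℕ) (hi : (c < b → (A.filter (fun x => x < b)).card ≤ i) ∧
      (b < c → (A.filter (fun x => b < x)).card ≤ i)) :
    cc B b ≤ cc A b - (1 / 2) ^ (i + 1) := by
  unfold cc
  have key : ∀ (P : Γ → Prop) [DecidablePred P], P c →
      (A.filter P).card + 1 ≤ (B.filter P).card := by
    intro P _ hP
    have h1 : insert c (A.filter P) ⊆ B.filter P := by
      intro x hx
      rcases mem_insert.mp hx with rfl | hx
      · exact mem_filter.mpr ⟨hcB, hP⟩
      · exact mem_filter.mpr ⟨h (mem_filter.mp hx).1, (mem_filter.mp hx).2⟩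
    have h2 := card_le_card h1
    rwa [card_insert_of_notMem (fun h3 => hcA (mem_filter.mp h3).1)] at h2
  rcases lt_or_gt_of_ne hcb with h1 | h1
  · have h2 := pow_gap (key (fun x => x < b) h1) (hi.1 h1)
    have h3 : (1 / 2 : ℝ) ^ (B.filter (fun x => b < x)).card
        ≤ (1 / 2) ^ (A.filter (fun x => b < x)).card :=
      pow_le_pow_of_le_one (by norm_num) (by norm_num) (card_le_card (filter_subset_filter _ h))
    linarith
  · have h2 := pow_gap (key (fun x => b < x) h1) (hi.2 h1)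
    have h3 : (1 / 2 : ℝ) ^ (B.filter (fun x => x < b)).card
        ≤ (1 / 2) ^ (A.filter (fun x => x < b)).card :=
      pow_le_pow_of_le_one (by norm_num) (by norm_num) (card_le_card (filter_subset_filter _ h))
    linarith

/-- Weighted sums. -/
noncomputable def VV (A : Finset Γ) (y : Γ → ℝ) : ℝ := ∑ a ∈ A, cc A a * |y a|

theorem VV_nonneg (A : Finset Γ) (y : Γ → ℝ) : 0 ≤ VV A y :=
  sum_nonneg fun a _ => mul_nonneg (zero_le_one.trans (one_le_cc A a)) (abs_nonneg _)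

theorem VV_ge (A : Finset Γ) (y : Γ → ℝ) : ∑ a ∈ A, |y a| ≤ VV A y :=
  sum_le_sum fun a _ => le_mul_of_one_le_left (abs_nonneg _) (one_le_cc A a)

theorem VV_le (A : Finset Γ) (y : Γ → ℝ) : VV A y ≤ 3 * ∑ a ∈ A, |y a| := by
  rw [mul_sum]
  exact sum_le_sum fun a _ => mul_le_mul_of_nonneg_right (cc_le A a) (abs_nonneg _)

theorem VV_add (A : Finset Γ) (y z : Γ → ℝ) : VV A (y + z) ≤ VV A y + VV A z := by
  unfold VV
  rw [← sum_add_distrib]
  refine sum_le_sum fun a _ => ?_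
  rw [← mul_add]
  exact mul_le_mul_of_nonneg_left (abs_add_le _ _) (zero_le_one.trans (one_le_cc A a))

theorem VV_smul (A : Finset Γ) (r : ℝ) (y : Γ → ℝ) : VV A (r • y) = |r| * VV A y := by
  unfold VV
  rw [mul_sum]
  refine sum_congr rfl fun a _ => ?_
  rw [Pi.smul_apply, smul_eq_mul, abs_mul]
  ring

theorem VV_mono (A : Finset Γ) {y z : Γ → ℝ} (h : ∀ a, |y a| ≤ |z a|) : VV A y ≤ VV A z :=
  sum_le_sum fun a _ => mul_le_mul_of_nonneg_left (h a) (zero_le_one.trans (one_le_cc A a))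

/-- Restricting to the support does not decrease the value. -/
theorem VV_filter (A : Finset Γ) (y : Γ → ℝ) (P : Γ → Prop) [DecidablePred P]
    (hP : ∀ a, y a ≠ 0 → P a) : VV A y ≤ VV (A.filter P) y := by
  unfold VV
  have h1 : ∑ a ∈ A, cc A a * |y a| = ∑ a ∈ A.filter P, cc A a * |y a| := by
    symm
    refine sum_subset (filter_subset _ _) fun a ha ha' => ?_
    have h2 : y a = 0 := by
      by_contra h
      exact ha' (mem_filter.mpr ⟨ha, hP a h⟩)
    rw [h2, abs_zero, mul_zero]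
  rw [h1]
  exact sum_le_sum fun a _ =>
    mul_le_mul_of_nonneg_right (cc_anti (filter_subset _ _) a) (abs_nonneg _)

/-- The norm. -/
noncomputable def Nn (e : Γ → Γ → ℕ) (y : Γ → ℝ) : ℝ := ⨆ A : {A : Finset Γ // AA e A}, VV A.1 y

/-- Bounded sums. -/
def Bd (e : Γ → Γ → ℕ) (y : Γ → ℝ) (C : ℝ) : Prop := ∀ A, AA e A → ∑ a ∈ A, |y a| ≤ C

theorem Bd.bdd {y : Γ → ℝ} {C : ℝ} (h : Bd e y C) :
    BddAbove (Set.range fun A : {A : Finset Γ // AA e A} => VV A.1 y) := by
  refine ⟨3 * C, ?_⟩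
  rintro _ ⟨A, rfl⟩
  exact (VV_le A.1 y).trans (mul_le_mul_of_nonneg_left (h A.1 A.2) (by norm_num))

instance : Nonempty {A : Finset Γ // AA e A} := ⟨⟨∅, AA.empty⟩⟩

theorem le_Nn {y : Γ → ℝ} {C : ℝ} (h : Bd e y C) (A : Finset Γ) (hA : AA e A) :
    VV A y ≤ Nn e y := le_ciSup h.bdd (⟨A, hA⟩ : {A : Finset Γ // AA e A})

theorem Nn_le {y : Γ → ℝ} {K : ℝ} (h : ∀ A, AA e A → VV A y ≤ K) : Nn e y ≤ K :=
  ciSup_le fun A => h A.1 A.2

theorem Nn_nonneg (y : Γ → ℝ) : 0 ≤ Nn e y := Real.iSup_nonneg fun A => VV_nonneg A.1 y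

theorem Nn_le_three {y : Γ → ℝ} {C : ℝ} (h : Bd e y C) : Nn e y ≤ 3 * C :=
  Nn_le fun A hA => (VV_le A y).trans (mul_le_mul_of_nonneg_left (h A hA) (by norm_num))

theorem Bd.add {y z : Γ → ℝ} {C D : ℝ} (hy : Bd e y C) (hz : Bd e z D) : Bd e (y + z) (C + D) := by
  intro A hA
  calc ∑ a ∈ A, |(y + z) a| ≤ ∑ a ∈ A, (|y a| + |z a|) := sum_le_sum fun a _ => abs_add_le _ _
    _ = ∑ a ∈ A, |y a| + ∑ a ∈ A, |z a| := sum_add_distrib
    _ ≤ C + D := add_le_add (hy A hA) (hz A hA)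

theorem Nn_add {y z : Γ → ℝ} {C D : ℝ} (hy : Bd e y C) (hz : Bd e z D) :
    Nn e (y + z) ≤ Nn e y + Nn e z :=
  Nn_le fun A hA => (VV_add A y z).trans (add_le_add (le_Nn hy A hA) (le_Nn hz A hA))

theorem Nn_smul (y : Γ → ℝ) (r : ℝ) : Nn e (r • y) = |r| * Nn e y := by
  unfold Nn
  rw [Real.mul_iSup_of_nonneg (abs_nonneg r)]
  exact iSup_congr fun A => VV_smul A.1 r y

theorem Nn_mono {y z : Γ → ℝ} {C : ℝ} (hz : Bd e z C) (h : ∀ a, |y a| ≤ |z a|) :
    Nn e y ≤ Nn e z := Nn_le fun A hA => (VV_mono A h).trans (le_Nn hz A hA)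

/-- One coordinate vectors. -/
theorem Bd_single (c : Γ) (t : ℝ) : Bd e (fun a => if a = c then t else 0) |t| := by
  intro A _
  have h1 : ∀ a ∈ A, |(if a = c then t else 0 : ℝ)| = if a = c then |t| else 0 := by
    intro a _
    split_ifs <;> simp
  rw [sum_congr rfl h1, sum_ite_eq' A c (fun _ => |t|)]
  split_ifs
  · exact le_rfl
  · exact abs_nonneg t

theorem tail_bd {y : Γ → ℝ} (hy : Tail e y) : ∃ C, Bd e y C := by
  obtain ⟨S, hS⟩ := hy 1 one_pos
  refine ⟨∑ a ∈ S, |y a| + 1, fun A hA => ?_⟩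
  rw [← sum_inter_add_sum_sdiff A S]
  refine add_le_add ?_ ?_
  · exact sum_le_sum_of_subset_of_nonneg inter_subset_right fun a _ _ => abs_nonneg _
  · exact hS _ (hA.subset sdiff_subset) sdiff_disjoint

/-- The gap lemma. -/
theorem gap [WellFoundedLT Γ] {y : Γ → ℝ} (hy : Tail e y) (b0 : Γ) (hb0 : y b0 ≠ 0) (c : Γ)
    (hc : y c = 0) : ∃ δ : ℝ, 0 < δ ∧ ∀ A, AA e A → c ∈ A → VV A y ≤ Nn e y - δ := by
  classical
  obtain ⟨K, hK⟩ := tail_bd hy
  by_contra hcon
  push Not at hcon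
  have h1 : ∀ n : ℕ, ∃ A, AA e A ∧ c ∈ A ∧ Nn e y - 1 / ((n : ℝ) + 1) < VV A y := fun n =>
    hcon _ (by positivity)
  choose A hA hcA hV using h1
  set U : Ultrafilter ℕ := hyperfilter ℕ with hU
  set B : Set Γ := {a | y a ≠ 0 ∧ ∀ᶠ n in (U : Filter ℕ), a ∈ A n} with hB
  have hcB : c ∉ B := fun h => h.1 hc
  -- finite traces
  have htrace : ∀ S : Finset Γ, (∀ a ∈ S, y a ≠ 0) →
      ∀ᶠ n in (U : Filter ℕ), ∀ a ∈ S, (a ∈ A n ↔ a ∈ B) := by
    intro S hS
    rw [Finset.eventually_all]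
    intro a ha
    by_cases h : a ∈ B
    · filter_upwards [h.2] with n hn
      exact ⟨fun _ => h, fun _ => hn⟩
    · have h2 : ¬ ∀ᶠ n in (U : Filter ℕ), a ∈ A n := fun h3 => h ⟨hS a ha, h3⟩
      rw [← Ultrafilter.eventually_not] at h2
      filter_upwards [h2] with n hn
      exact ⟨fun h3 => absurd h3 hn, fun h3 => absurd h3 h⟩
  have hsub : ∀ T : Finset Γ, (∀ a ∈ T, a ∈ B) → AA e (insert c T) := by
    intro T hT
    have h2 : ∀ᶠ n in (U : Filter ℕ), ∀ a ∈ T, a ∈ A n := by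
      rw [Finset.eventually_all]
      exact fun a ha => (hT a ha).2
    obtain ⟨n, hn⟩ := h2.exists
    refine (hA n).subset fun a ha => ?_
    rcases mem_insert.mp ha with rfl | ha
    · exact hcA n
    · exact hn a ha
  -- largeness along the ultrafilter
  have hlarge : ∀ ε : ℝ, 0 < ε → ∀ᶠ n in (U : Filter ℕ), Nn e y - ε < VV (A n) y := by
    intro ε hε
    obtain ⟨m, hm⟩ := exists_nat_one_div_lt hε
    have h2 : ∀ᶠ n in (U : Filter ℕ), m ≤ n := by
      have h3 : ∀ᶠ n in (atTop : Filter ℕ), m ≤ n := eventually_ge_atTop m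
      exact (Nat.hyperfilter_le_atTop h3)
    filter_upwards [h2] with n hn
    have h4 : 1 / ((n : ℝ) + 1) ≤ 1 / ((m : ℝ) + 1) := by
      apply one_div_le_one_div_of_le (by positivity)
      have : (m : ℝ) ≤ n := by exact_mod_cast hn
      linarith
    linarith [hV n]
  -- comparison
  have hcmp : ∀ (S : Finset Γ) (ε : ℝ), (∀ a ∈ S, y a ≠ 0) →
      (∀ A', AA e A' → (∀ a ∈ A', a ∉ S) → ∑ a ∈ A', |y a| ≤ ε) →
      ∀ n, VV (A n) y ≤ ∑ a ∈ A n ∩ S, cc (A n) a * |y a| + 3 * ε := by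
    intro S ε hS hε n
    unfold VV
    rw [← sum_inter_add_sum_sdiff (A n) S]
    have h2 : ∑ a ∈ A n \ S, cc (A n) a * |y a| ≤ 3 * ∑ a ∈ A n \ S, |y a| := by
      rw [mul_sum]
      exact sum_le_sum fun a _ => mul_le_mul_of_nonneg_right (cc_le _ a) (abs_nonneg _)
    have h3 := hε (A n \ S) ((hA n).subset sdiff_subset) (fun a ha => (mem_sdiff.mp ha).2)
    linarith
  -- tail with sets contained in the support
  have htail : ∀ (ε : ℝ), 0 < ε → ∀ T : Finset Γ, (∀ a ∈ T, y a ≠ 0) →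
      ∃ S : Finset Γ, T ⊆ S ∧ (∀ a ∈ S, y a ≠ 0) ∧
      (∀ A', AA e A' → (∀ a ∈ A', a ∉ S) → ∑ a ∈ A', |y a| ≤ ε) := by
    intro ε hε T hT
    obtain ⟨S, hS⟩ := hy ε hε
    refine ⟨S.filter (fun a => y a ≠ 0) ∪ T, subset_union_right, ?_, ?_⟩
    · intro a ha
      rcases mem_union.mp ha with h | h
      · exact (mem_filter.mp h).2
      · exact hT a h
    · intro A' hA' hdis
      have h2 : ∑ a ∈ A', |y a| = ∑ a ∈ A'.filter (fun a => y a ≠ 0), |y a| := by
        symm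
        refine sum_subset (filter_subset _ _) fun a ha ha' => ?_
        have h3 : y a = 0 := by
          by_contra h
          exact ha' (mem_filter.mpr ⟨ha, h⟩)
        rw [h3, abs_zero]
      rw [h2]
      refine hS _ (hA'.subset (filter_subset _ _)) (disjoint_left.mpr fun a ha ha' => ?_)
      rw [mem_filter] at ha
      exact hdis a ha.1 (mem_union_left _ (mem_filter.mpr ⟨ha', ha.2⟩))
  -- B is nonempty
  by_cases hBne : ∃ b, b ∈ B
  swap
  · push Not at hBne
    have hε : 0 < |y b0| / 4 := by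
      have := abs_pos.mpr hb0
      positivity
    obtain ⟨S, -, hS1, hS2⟩ := htail (|y b0| / 4) hε ∅ (fun a ha => absurd ha (notMem_empty a))
    obtain ⟨n, hn1, hn2⟩ := ((htrace S hS1).and (hlarge (|y b0| / 4) hε)).exists
    have h2 := hcmp S _ hS1 hS2 n
    have h3 : A n ∩ S = ∅ := by
      rw [← disjoint_iff_inter_eq_empty, disjoint_left]
      intro a ha ha'
      exact hBne a ((hn1 a ha').mp ha)
    rw [h3, sum_empty, zero_add] at h2
    have h4 := le_Nn hK {b0} (AA.singleton b0)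
    have h5 := VV_ge {b0} y
    rw [sum_singleton] at h5
    linarith
  -- the main case
  obtain ⟨b, i, hbB, hbi⟩ : ∃ b, ∃ i : ℕ, b ∈ B ∧ ∀ S : Finset Γ, (∀ a ∈ S, a ∈ B) →
      (c < b → (S.filter (fun x => x < b)).card ≤ i) ∧
      (b < c → (S.filter (fun x => b < x)).card ≤ i) := by
    by_cases habove : ∃ b ∈ B, c < b
    · obtain ⟨b, hb, hcb⟩ := habove
      have hfin : {a | a ∈ B ∧ a < b}.Finite := by
        refine finite_below (e := e) _ b (fun a ha => ha.2) fun T hT => ?_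
        have h2 := hsub (insert b T) (fun a ha => by
          rcases mem_insert.mp ha with rfl | ha
          · exact hb
          · exact (hT a ha).1)
        exact h2.subset (subset_insert _ _)
      refine ⟨b, hfin.toFinset.card, hb, fun S hS => ⟨fun _ => ?_, fun h => absurd h hcb.asymm⟩⟩
      refine card_le_card fun a ha => ?_
      rw [mem_filter] at ha
      rw [Set.Finite.mem_toFinset]
      exact ⟨hS a ha.1, ha.2⟩
    · push Not at habove
      obtain ⟨b, hb⟩ := hBne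
      have hlt : ∀ a ∈ B, a < c := fun a ha =>
        lt_of_le_of_ne (habove a ha) (fun h => hcB (h ▸ ha))
      have hfin : B.Finite := finite_below (e := e) B c hlt fun T hT => hsub T hT
      refine ⟨b, hfin.toFinset.card, hb, fun S hS => ⟨fun h => absurd h (hlt b hb).asymm,
        fun _ => ?_⟩⟩
      refine card_le_card fun a ha => ?_
      rw [mem_filter] at ha
      rw [Set.Finite.mem_toFinset]
      exact hS a ha.1
  have hyb : 0 < |y b| := abs_pos.mpr hbB.1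
  set g : ℝ := (1 / 2) ^ (i + 1) * |y b| with hg
  have hgpos : 0 < g := by positivity
  obtain ⟨S, hTS, hS1, hS2⟩ := htail (g / 4) (by positivity) {b} (fun a ha => by
    rw [mem_singleton.mp ha]
    exact hbB.1)
  obtain ⟨n, hn1, hn2⟩ := ((htrace S hS1).and (hlarge (g / 4) (by positivity))).exists
  have h2 := hcmp S _ hS1 hS2 n
  have hbS : b ∈ S := hTS (mem_singleton_self b)
  have hbA : b ∈ A n ∩ S := mem_inter.mpr ⟨(hn1 b hbS).mpr hbB, hbS⟩
  have hcS : c ∉ A n ∩ S := fun h => hS1 c (mem_inter.mp h).2 hc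
  have hcneb : c ≠ b := fun h => hbB.1 (h ▸ hc)
  have hsubB : ∀ a ∈ A n ∩ S, a ∈ B := fun a ha =>
    (hn1 a (mem_inter.mp ha).2).mp (mem_inter.mp ha).1
  have h3 : ∑ a ∈ A n ∩ S, cc (A n) a * |y a| ≤ VV (A n ∩ S) y - g := by
    unfold VV
    rw [← add_sum_erase _ _ hbA, ← add_sum_erase (A n ∩ S) (fun a => cc (A n ∩ S) a * |y a|) hbA]
    have h4 : cc (A n) b ≤ cc (A n ∩ S) b - (1 / 2) ^ (i + 1) :=
      cc_gap inter_subset_left b c (hcA n) hcS hcneb i (hbi _ hsubB)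
    have h5 : ∑ a ∈ (A n ∩ S).erase b, cc (A n) a * |y a|
        ≤ ∑ a ∈ (A n ∩ S).erase b, cc (A n ∩ S) a * |y a| :=
      sum_le_sum fun a _ =>
        mul_le_mul_of_nonneg_right (cc_anti inter_subset_left a) (abs_nonneg _)
    have h6 : cc (A n) b * |y b| ≤ cc (A n ∩ S) b * |y b| - g := by
      rw [hg, ← sub_mul]
      exact mul_le_mul_of_nonneg_right h4 hyb.le
    linarith
  have h4 := le_Nn hK (A n ∩ S) ((hA n).subset inter_subset_left)
  linarith

end Pool.Agent.Helper52.Smulyan
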