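import Mathlib
import Pool.Agent.Helper52.SmGat

set_option autoImplicit false

open Finset Filter Topology MeasureTheory

namespace Pool.Agent.Helper52.Smulyan

/-- Scaling factor. -/
noncomputable def rho (s : ℝ) : ℝ := 1 + max 0 (min s 1)

theorem rho_ge (s : ℝ) : 1 ≤ rho s := by
  unfold rho
  linarith [le_max_left 0 (min s 1)]

theorem rho_le (s : ℝ) : rho s ≤ 2 := by
  unfold rho
  have : max 0 (min s 1) ≤ 1 := max_le zero_le_one (min_le_right _ _)
  linarith

theorem rho_eq {s : ℝ} (h0 : 0 ≤ s) (h1 : s ≤ 1) : rho s = 1 + s := by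
  unfold rho
  rw [min_eq_left h1, max_eq_right h0]

theorem rho_cont : Continuous rho := by
  unfold rho
  fun_prop

/-- The law of one coordinate. -/
noncomputable def mu0 : Measure ℝ := volume.restrict (Set.Icc (0 : ℝ) 1)

instance : IsProbabilityMeasure mu0 := ⟨by
  unfold mu0
  rw [Measure.restrict_apply_univ, Real.volume_Icc]
  norm_num⟩

variable {Γ : Type} [LinearOrder Γ] {e : Γ → Γ → ℕ}

/-- The product law. -/
noncomputable def PP (Γ : Type) : Measure (Γ → ℝ) := Measure.infinitePi fun _ : Γ => mu0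

instance : IsProbabilityMeasure (PP Γ) := by
  unfold PP
  infer_instance

/-- Scaled vectors. -/
noncomputable def sc (w : Γ → ℝ) (y : Γ → ℝ) : Γ → ℝ := fun a => rho (w a) * y a

omit [LinearOrder Γ] in
theorem abs_sc_le (w y : Γ → ℝ) (a : Γ) : |sc w y a| ≤ 2 * |y a| := by
  unfold sc
  rw [abs_mul, abs_of_nonneg (zero_le_one.trans (rho_ge _))]
  exact mul_le_mul_of_nonneg_right (rho_le _) (abs_nonneg _)

omit [LinearOrder Γ] in
theorem le_abs_sc (w y : Γ → ℝ) (a : Γ) : |y a| ≤ |sc w y a| := by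
  unfold sc
  rw [abs_mul, abs_of_nonneg (zero_le_one.trans (rho_ge _))]
  exact le_mul_of_one_le_left (abs_nonneg _) (rho_ge _)

theorem Bd.sc {y : Γ → ℝ} {C : ℝ} (h : Bd e y C) (w : Γ → ℝ) : Bd e (sc w y) (2 * C) := by
  intro A hA
  calc ∑ a ∈ A, |Smulyan.sc w y a| ≤ ∑ a ∈ A, 2 * |y a| := sum_le_sum fun a _ => abs_sc_le w y a
    _ = 2 * ∑ a ∈ A, |y a| := by rw [mul_sum]
    _ ≤ 2 * C := mul_le_mul_of_nonneg_left (h A hA) (by norm_num)

theorem Tail.sc {y : Γ → ℝ} (h : Tail e y) (w : Γ → ℝ) : Tail e (sc w y) := by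
  intro ε hε
  obtain ⟨S, hS⟩ := h (ε / 2) (by positivity)
  refine ⟨S, fun A hA hd => ?_⟩
  calc ∑ a ∈ A, |Smulyan.sc w y a| ≤ ∑ a ∈ A, 2 * |y a| := sum_le_sum fun a _ => abs_sc_le w y a
    _ = 2 * ∑ a ∈ A, |y a| := by rw [mul_sum]
    _ ≤ 2 * (ε / 2) := mul_le_mul_of_nonneg_left (hS A hA hd) (by norm_num)
    _ = ε := by ring

omit [LinearOrder Γ] in
theorem sc_add (w y z : Γ → ℝ) : sc w (y + z) = sc w y + sc w z := by
  funext a
  unfold sc
  rw [Pi.add_apply, Pi.add_apply]
  ring

omit [LinearOrder Γ] in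
theorem sc_smul (w y : Γ → ℝ) (r : ℝ) : sc w (r • y) = r • sc w y := by
  funext a
  unfold sc
  rw [Pi.smul_apply, Pi.smul_apply, smul_eq_mul, smul_eq_mul]
  ring

theorem VV_measurable (A : Finset Γ) (y : Γ → ℝ) : Measurable fun w : Γ → ℝ => VV A (sc w y) := by
  unfold VV sc
  refine Finset.measurable_sum _ fun a _ => ?_
  have h1 : Measurable fun w : Γ → ℝ => rho (w a) := rho_cont.measurable.comp (measurable_pi_apply a)
  exact ((h1.mul_const _).abs).const_mul _

theorem Nn_measurable {y : Γ → ℝ} {C : ℝ} (hC : Bd e y C) (hy : {a | y a ≠ 0}.Countable) :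
    Measurable fun w : Γ → ℝ => Nn e (sc w y) := by
  classical
  have : Countable ↥{a | y a ≠ 0} := hy.to_subtype
  set J := {B : Finset ↥{a | y a ≠ 0} // AA e (B.map (Function.Embedding.subtype _))} with hJ
  have hJne : Nonempty J := ⟨⟨∅, by rw [Finset.map_empty]; exact AA.empty⟩⟩
  have heq : (fun w : Γ → ℝ => Nn e (sc w y)) = fun w => ⨆ B : J,
      VV (B.1.map (Function.Embedding.subtype _)) (sc w y) := by
    funext w
    have hbdd : BddAbove (Set.range fun B : J =>
        VV (B.1.map (Function.Embedding.subtype _)) (sc w y)) := by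
      obtain ⟨K, hK⟩ := (hC.sc w).bdd
      refine ⟨K, ?_⟩
      rintro _ ⟨B, rfl⟩
      exact hK ⟨⟨_, B.2⟩, rfl⟩
    apply le_antisymm
    · refine Nn_le fun A hA => ?_
      have h1 : (A.subtype (fun a => y a ≠ 0)).map (Function.Embedding.subtype _)
          = A.filter (fun a => y a ≠ 0) := Finset.subtype_map _
      refine (VV_filter A (sc w y) (fun a => y a ≠ 0) ?_).trans ?_
      · intro a ha h
        apply ha
        unfold sc
        rw [h, mul_zero]
      · have h2 : AA e ((A.subtype (fun a => y a ≠ 0)).map (Function.Embedding.subtype _)) := by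
          rw [h1]
          exact hA.subset (filter_subset _ _)
        have h3 := le_ciSup hbdd (⟨A.subtype (fun a => y a ≠ 0), h2⟩ : J)
        rw [← h1]
        exact h3
    · exact ciSup_le fun B => le_Nn (hC.sc w) _ B.2
  rw [heq]
  exact Measurable.iSup fun B => VV_measurable _ y

/-- The averaged norm. -/
noncomputable def Nb (e : Γ → Γ → ℕ) (y : Γ → ℝ) : ℝ := ∫ w, Nn e (sc w y) ∂(PP Γ)

theorem Nn_integrable {y : Γ → ℝ} {C : ℝ} (hC : Bd e y C) (hy : {a | y a ≠ 0}.Countable) :
    Integrable (fun w : Γ → ℝ => Nn e (sc w y)) (PP Γ) := by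
  refine Integrable.of_bound (Nn_measurable hC hy).aestronglyMeasurable (3 * (2 * C))
    (Eventually.of_forall fun w => ?_)
  rw [Real.norm_eq_abs, abs_of_nonneg (Nn_nonneg _)]
  exact Nn_le_three (hC.sc w)

theorem Nb_add {y z : Γ → ℝ} {C D : ℝ} (hC : Bd e y C) (hy : {a | y a ≠ 0}.Countable)
    (hD : Bd e z D) (hz : {a | z a ≠ 0}.Countable) : Nb e (y + z) ≤ Nb e y + Nb e z := by
  unfold Nb
  rw [← integral_add (Nn_integrable hC hy) (Nn_integrable hD hz)]
  refine integral_mono (Nn_integrable (hC.add hD) ?_)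
    ((Nn_integrable hC hy).add (Nn_integrable hD hz)) fun w => ?_
  · refine (hy.union hz).mono fun a ha => ?_
    by_contra h
    rw [Set.mem_union, not_or] at h
    have h1 : y a = 0 := by simpa using h.1
    have h2 : z a = 0 := by simpa using h.2
    exact ha (by rw [Pi.add_apply, h1, h2, add_zero])
  · simp only
    rw [sc_add]
    exact Nn_add (hC.sc w) (hD.sc w)

theorem Nb_smul (y : Γ → ℝ) (r : ℝ) : Nb e (r • y) = |r| * Nb e y := by
  unfold Nb
  rw [← integral_const_mul]
  refine integral_congr_ae (Eventually.of_forall fun w => ?_)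
  simp only
  rw [sc_smul, Nn_smul]

/-- Resampling one coordinate. -/
theorem map_update (c : Γ) : Measure.map
    (fun p : (Γ → ℝ) × ℝ => Function.update p.1 c p.2) ((PP Γ).prod mu0) = PP Γ := by
  classical
  unfold PP
  refine Measure.eq_infinitePi _ fun s t ht => ?_
  rw [Measure.map_apply measurable_update' (MeasurableSet.pi s.countable_toSet fun i _ => ht i)]
  by_cases hc : c ∈ s
  · have h1 : (fun p : (Γ → ℝ) × ℝ => Function.update p.1 c p.2) ⁻¹' (Set.pi (s : Set Γ) t)
        = (Set.pi ((s.erase c : Finset Γ) : Set Γ) t) ×ˢ (t c) := by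
      ext p
      simp only [Set.mem_preimage, Set.mem_pi, Set.mem_prod, Finset.mem_coe, Finset.mem_erase]
      constructor
      · intro h
        refine ⟨fun i hi => ?_, ?_⟩
        · have h2 := h i hi.2
          rwa [Function.update_of_ne hi.1] at h2
        · have h2 := h c hc
          rwa [Function.update_self] at h2
      · rintro ⟨h2, h3⟩ i hi
        by_cases hic : i = c
        · subst hic
          rwa [Function.update_self]
        · rw [Function.update_of_ne hic]
          exact h2 i ⟨hic, hi⟩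
    rw [h1, Measure.prod_prod, Measure.infinitePi_pi _ (fun i _ => ht i), mul_comm,
      mul_prod_erase s (fun i => mu0 (t i)) hc]
  · have h1 : (fun p : (Γ → ℝ) × ℝ => Function.update p.1 c p.2) ⁻¹' (Set.pi (s : Set Γ) t)
        = (Set.pi (s : Set Γ) t) ×ˢ Set.univ := by
      ext p
      simp only [Set.mem_preimage, Set.mem_pi, Set.mem_prod, Finset.mem_coe, Set.mem_univ,
        and_true]
      constructor
      · intro h i hi
        have h2 := h i hi
        rwa [Function.update_of_ne (ne_of_mem_of_not_mem hi hc)] at h2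
      · intro h i hi
        rw [Function.update_of_ne (ne_of_mem_of_not_mem hi hc)]
        exact h i hi
    rw [h1, Measure.prod_prod, Measure.infinitePi_pi _ (fun i _ => ht i), measure_univ, mul_one]

/-- Integral after resampling. -/
theorem integral_update (c : Γ) (F : (Γ → ℝ) → ℝ) (hF : Measurable F) (K : ℝ)
    (hK : ∀ w, |F w| ≤ K) :
    ∫ w, F w ∂(PP Γ) = ∫ w, ∫ s, F (Function.update w c s) ∂mu0 ∂(PP Γ) := by
  classical
  have hm : Measurable fun p : (Γ → ℝ) × ℝ => Function.update p.1 c p.2 := measurable_update'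
  have h1 : ∫ w, F w ∂(PP Γ) = ∫ p, F (Function.update p.1 c p.2) ∂((PP Γ).prod mu0) := by
    conv_lhs => rw [← map_update c]
    exact integral_map hm.aemeasurable hF.aestronglyMeasurable
  rw [h1, integral_prod]
  refine Integrable.of_bound (hF.comp hm).aestronglyMeasurable K (Eventually.of_forall fun p => ?_)
  exact hK _

end Pool.Agent.Helper52.Smulyan
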