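import Mathlib
import Pool.Agent.Helper52.SmAvg

set_option autoImplicit false

open Finset Filter Topology MeasureTheory

namespace Pool.Agent.Helper52.Smulyan

/-- Symmetric quotients of a differentiable function. -/
theorem sym_quot {g : ℝ → ℝ} (hg : DifferentiableAt ℝ g 0) :
    Tendsto (fun t : ℝ => (g t + g (-t) - 2 * g 0) / t) (𝓝[>] 0) (𝓝 0) := by
  obtain ⟨D, hD⟩ : ∃ D, HasDerivAt g D 0 := ⟨_, hg.hasDerivAt⟩
  rw [hasDerivAt_iff_tendsto_slope_zero] at hD
  have h1 : Tendsto (fun t : ℝ => t⁻¹ • (g (0 + t) - g 0)) (𝓝[>] 0) (𝓝 D) :=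
    hD.mono_left (nhdsWithin_mono _ fun t ht => (ne_of_gt ht))
  have hneg : Tendsto (fun t : ℝ => -t) (𝓝[>] 0) (𝓝[≠] 0) := by
    refine tendsto_nhdsWithin_iff.mpr ⟨?_, ?_⟩
    · have h2 : Tendsto (fun t : ℝ => -t) (𝓝 0) (𝓝 (-0)) := (continuous_neg.tendsto 0)
      rw [neg_zero] at h2
      exact h2.mono_left nhdsWithin_le_nhds
    · filter_upwards [self_mem_nhdsWithin] with t ht
      have : (0 : ℝ) < t := ht
      simp only [Set.mem_compl_iff, Set.mem_singleton_iff, neg_eq_zero]
      exact this.ne'
  have h2 := hD.comp hneg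
  have h3 := h1.sub h2
  rw [sub_self] at h3
  refine h3.congr' ?_
  filter_upwards [self_mem_nhdsWithin] with t ht
  have ht' : (0 : ℝ) < t := ht
  simp only [Function.comp, zero_add, smul_eq_mul]
  field_simp
  ring

/-- Averages over dilations are differentiable. -/
theorem dil_diff {G : ℝ → ℝ} (hG : Continuous G) {u : ℝ} (hu : u ≠ 0) :
    DifferentiableAt ℝ (fun t : ℝ => ∫ s in (0 : ℝ)..1, G ((1 + s) * (u + t))) 0 := by
  set Ψ : ℝ → ℝ := fun x => ∫ r in (0 : ℝ)..x, G r with hΨ
  have hΨd : Differentiable ℝ Ψ := fun x =>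
    (intervalIntegral.integral_hasDerivAt_right (hG.intervalIntegrable _ _)
      hG.stronglyMeasurable.stronglyMeasurableAtFilter hG.continuousAt).differentiableAt
  have heq : (fun t : ℝ => ∫ s in (0 : ℝ)..1, G ((1 + s) * (u + t))) =ᶠ[𝓝 0]
      fun t => (u + t)⁻¹ * (Ψ (2 * (u + t)) - Ψ (u + t)) := by
    have h1 : ∀ᶠ t : ℝ in 𝓝 0, u + t ≠ 0 := by
      have h2 : Tendsto (fun t : ℝ => u + t) (𝓝 0) (𝓝 (u + 0)) :=
        (continuous_const.add continuous_id).tendsto 0
      rw [add_zero] at h2
      exact h2.eventually_ne hu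
    filter_upwards [h1] with t ht
    have h2 : ∀ s : ℝ, G ((1 + s) * (u + t)) = G ((u + t) + (u + t) * s) := by
      intro s
      congr 1
      ring
    simp only [h2]
    rw [intervalIntegral.integral_comp_add_mul (fun x => G x) ht, smul_eq_mul]
    congr 1
    rw [hΨ]
    simp only
    rw [intervalIntegral.integral_interval_sub_left (hG.intervalIntegrable _ _)
      (hG.intervalIntegrable _ _)]
    congr 1 <;> ring
  refine DifferentiableAt.congr_of_eventuallyEq ?_ heq
  have h1 : DifferentiableAt ℝ (fun t : ℝ => u + t) 0 := by fun_prop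
  have h2 : DifferentiableAt ℝ (fun t : ℝ => 2 * (u + t)) 0 := by fun_prop
  refine DifferentiableAt.mul (DifferentiableAt.inv h1 (by simpa using hu)) ?_
  exact ((hΨd _).comp 0 h2).sub ((hΨd _).comp 0 h1)

variable {Γ : Type} [LinearOrder Γ] {e : Γ → Γ → ℕ}

/-- Adding a multiple of a coordinate vector. -/
noncomputable def ad (y : Γ → ℝ) (c : Γ) (t : ℝ) : Γ → ℝ := fun a => y a + if a = c then t else 0

theorem ad_bd {y : Γ → ℝ} {C : ℝ} (h : Bd e y C) (c : Γ) (t : ℝ) : Bd e (ad y c t) (C + |t|) :=
  h.add (Bd_single c t)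

theorem ad_supp {y : Γ → ℝ} (hy : {a | y a ≠ 0}.Countable) (c : Γ) (t : ℝ) :
    {a | ad y c t a ≠ 0}.Countable := by
  refine (hy.union (Set.countable_singleton c)).mono fun a ha => ?_
  by_contra h
  rw [Set.mem_union, not_or] at h
  have h1 : y a = 0 := by simpa using h.1
  have h2 : ¬ a = c := by simpa using h.2
  exact ha (by unfold ad; rw [h1, if_neg h2, add_zero])

/-- Lipschitz dependence on one coordinate. -/
theorem Nn_lip {y : Γ → ℝ} {C : ℝ} (h : Bd e y C) (c : Γ) (t : ℝ) :
    |Nn e (ad y c t) - Nn e y| ≤ 3 * |t| := by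
  have h0 : ∀ s : ℝ, Nn e (fun a : Γ => if a = c then s else 0) ≤ 3 * |s| := fun s =>
    Nn_le_three (Bd_single c s)
  have h1 : Nn e (ad y c t) ≤ Nn e y + 3 * |t| :=
    (Nn_add h (Bd_single c t)).trans (add_le_add_right (h0 t) _)
  have h2 : Nn e y ≤ Nn e (ad y c t) + 3 * |t| := by
    have h3 : y = ad y c t + fun a : Γ => if a = c then -t else 0 := by
      funext a
      unfold ad
      rw [Pi.add_apply]
      split_ifs <;> ring
    conv_lhs => rw [h3]
    refine (Nn_add (ad_bd h c t) (Bd_single c (-t))).trans (add_le_add_right ?_ _)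
    have := h0 (-t)
    rwa [abs_neg] at this
  rw [abs_le]
  constructor <;> linarith

theorem sc_ad (w y : Γ → ℝ) (c : Γ) (t : ℝ) : sc w (ad y c t) = ad (sc w y) c (rho (w c) * t) := by
  funext a
  unfold sc ad
  split_ifs with h
  · rw [h]
    ring
  · ring

theorem Nn_sc_lip {y : Γ → ℝ} {C : ℝ} (h : Bd e y C) (c : Γ) (t : ℝ) (w : Γ → ℝ) :
    |Nn e (sc w (ad y c t)) - Nn e (sc w y)| ≤ 6 * |t| := by
  rw [sc_ad]
  refine (Nn_lip (h.sc w) c _).trans ?_
  rw [abs_mul, abs_of_nonneg (zero_le_one.trans (rho_ge _))]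
  have := mul_le_mul_of_nonneg_right (rho_le (w c)) (abs_nonneg t)
  linarith

/-- Flatness in the zero coordinates. -/
theorem flat [WellFoundedLT Γ] {y : Γ → ℝ} (hy : Tail e y) (b0 : Γ) (hb0 : y b0 ≠ 0) (c : Γ)
    (hc : y c = 0) : ∃ δ : ℝ, 0 < δ ∧ ∀ t : ℝ, |t| ≤ δ → Nn e (ad y c t) = Nn e y := by
  obtain ⟨K, hK⟩ := tail_bd hy
  obtain ⟨δ, hδ, hgap⟩ := gap hy b0 hb0 c hc
  refine ⟨δ / 3, by positivity, fun t ht => le_antisymm ?_ ?_⟩
  · refine Nn_le fun A hA => ?_
    by_cases hcA : c ∈ A
    · refine (VV_add A y (fun a => if a = c then t else 0)).trans ?_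
      have h1 : VV A (fun a => if a = c then t else 0) ≤ 3 * |t| :=
        (VV_le A _).trans (mul_le_mul_of_nonneg_left (Bd_single c t A hA) (by norm_num))
      have h2 := hgap A hA hcA
      linarith
    · have h1 : VV A (ad y c t) = VV A y := by
        unfold VV
        refine sum_congr rfl fun a ha => ?_
        unfold ad
        rw [if_neg (ne_of_mem_of_not_mem ha hcA), add_zero]
      rw [h1]
      exact le_Nn hK A hA
  · refine Nn_mono (ad_bd hK c t) fun a => ?_
    unfold ad
    by_cases h : a = c
    · rw [h, hc, abs_zero]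
      exact abs_nonneg _
    · rw [if_neg h, add_zero]

/-- The kink of the averaged norm vanishes in all coordinate directions. -/
theorem kink [WellFoundedLT Γ] {y : Γ → ℝ} (hy : Tail e y) (hcs : {a | y a ≠ 0}.Countable)
    (b0 : Γ) (hb0 : y b0 ≠ 0) (c : Γ) :
    Tendsto (fun t : ℝ => (Nb e (ad y c t) + Nb e (ad y c (-t)) - 2 * Nb e y) / t)
      (𝓝[>] 0) (𝓝 0) := by
  obtain ⟨K, hK⟩ := tail_bd hy
  by_cases hc : y c = 0
  · -- flat case
    have h1 : ∀ t : ℝ, (Nb e (ad y c t) + Nb e (ad y c (-t)) - 2 * Nb e y) / t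
        = ∫ w, (Nn e (sc w (ad y c t)) + Nn e (sc w (ad y c (-t))) - 2 * Nn e (sc w y)) / t
          ∂(PP Γ) := by
      intro t
      rw [integral_div, integral_sub, integral_add, integral_const_mul]
      · rfl
      · exact Nn_integrable (ad_bd hK c t) (ad_supp hcs c t)
      · exact Nn_integrable (ad_bd hK c (-t)) (ad_supp hcs c (-t))
      · exact (Nn_integrable (ad_bd hK c t) (ad_supp hcs c t)).add
          (Nn_integrable (ad_bd hK c (-t)) (ad_supp hcs c (-t)))
      · exact (Nn_integrable hK hcs).const_mul 2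
    simp only [h1]
    suffices h2 : Tendsto (fun t : ℝ => ∫ w, (Nn e (sc w (ad y c t)) +
        Nn e (sc w (ad y c (-t))) - 2 * Nn e (sc w y)) / t ∂(PP Γ)) (𝓝[>] 0)
        (𝓝 (∫ _ : Γ → ℝ, (0 : ℝ) ∂(PP Γ))) by
      rwa [integral_zero] at h2
    refine tendsto_integral_filter_of_dominated_convergence (fun _ => 12) ?_ ?_
      (integrable_const _) ?_
    · refine Eventually.of_forall fun t => ?_
      exact ((((Nn_measurable (ad_bd hK c t) (ad_supp hcs c t)).add
        (Nn_measurable (ad_bd hK c (-t)) (ad_supp hcs c (-t)))).sub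
        ((Nn_measurable hK hcs).const_mul 2)).div_const t).aestronglyMeasurable
    · filter_upwards [self_mem_nhdsWithin] with t ht
      have ht' : (0 : ℝ) < t := ht
      refine Eventually.of_forall fun w => ?_
      rw [Real.norm_eq_abs, abs_div, abs_of_pos ht', div_le_iff₀ ht']
      have h3 := Nn_sc_lip hK c t w
      have h4 := Nn_sc_lip hK c (-t) w
      rw [abs_neg] at h4
      rw [abs_of_pos ht'] at h3 h4
      have h5 := abs_le.mp h3
      have h6 := abs_le.mp h4
      rw [abs_le]
      constructor <;> linarith [h5.1, h5.2, h6.1, h6.2]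
    · refine Eventually.of_forall fun w => ?_
      have hb : sc w y b0 ≠ 0 := by
        unfold sc
        exact mul_ne_zero (ne_of_gt (lt_of_lt_of_le zero_lt_one (rho_ge _))) hb0
      have hc' : sc w y c = 0 := by
        unfold sc
        rw [hc, mul_zero]
      obtain ⟨δ, hδ, hflat⟩ := flat (hy.sc w) b0 hb c hc'
      refine tendsto_const_nhds.congr' ?_
      have h3 : ∀ᶠ t : ℝ in 𝓝[>] 0, t < δ / 2 :=
        nhdsWithin_le_nhds (eventually_lt_nhds (by positivity))
      filter_upwards [self_mem_nhdsWithin, h3] with t ht ht2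
      have ht' : (0 : ℝ) < t := ht
      have h4 : ∀ s : ℝ, |s| = t → Nn e (sc w (ad y c s)) = Nn e (sc w y) := by
        intro s hs
        rw [sc_ad]
        refine hflat _ ?_
        rw [abs_mul, abs_of_nonneg (zero_le_one.trans (rho_ge _)), hs]
        have := mul_le_mul_of_nonneg_right (rho_le (w c)) ht'.le
        linarith
      rw [h4 t (abs_of_pos ht'), h4 (-t) (by rw [abs_neg, abs_of_pos ht'])]
      have : Nn e (sc w y) + Nn e (sc w y) - 2 * Nn e (sc w y) = 0 := by ring
      rw [this, zero_div]
  · -- the dilation case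
    set F : ℝ → (Γ → ℝ) → ℝ := fun t w => Nn e (sc w (ad y c t)) with hF
    have hFm : ∀ t, Measurable (F t) := fun t =>
      Nn_measurable (ad_bd hK c t) (ad_supp hcs c t)
    have hFb : ∀ t w, |F t w| ≤ 3 * (2 * (K + |t|)) := fun t w => by
      rw [hF]
      simp only
      rw [abs_of_nonneg (Nn_nonneg _)]
      exact Nn_le_three ((ad_bd hK c t).sc w)
    set E : ℝ → (Γ → ℝ) → ℝ := fun t w => ∫ s, F t (Function.update w c s) ∂mu0 with hE
    have hmu : Measurable fun p : (Γ → ℝ) × ℝ => Function.update p.1 c p.2 := measurable_update'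
    have hEm : ∀ t, StronglyMeasurable (E t) := fun t =>
      ((hFm t).comp hmu).stronglyMeasurable.integral_prod_right'
    have hEb : ∀ t w, |E t w| ≤ 3 * (2 * (K + |t|)) := by
      intro t w
      have h1 := norm_integral_le_of_norm_le_const (μ := mu0)
        (f := fun s => F t (Function.update w c s)) (C := 3 * (2 * (K + |t|)))
        (Eventually.of_forall fun s => hFb t _)
      simpa using h1
    have hEi : ∀ t, Integrable (E t) (PP Γ) := fun t =>
      Integrable.of_bound (hEm t).aestronglyMeasurable _ (Eventually.of_forall fun w => hEb t w)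
    have hNb : ∀ t, Nb e (ad y c t) = ∫ w, E t w ∂(PP Γ) := fun t =>
      integral_update c (F t) (hFm t) _ (hFb t)
    have had0 : ad y c 0 = y := by
      funext a
      unfold ad
      simp
    have hNb0 : Nb e y = ∫ w, E 0 w ∂(PP Γ) := by
      rw [← hNb 0, had0]
    have h1 : ∀ t : ℝ, (Nb e (ad y c t) + Nb e (ad y c (-t)) - 2 * Nb e y) / t
        = ∫ w, (E t w + E (-t) w - 2 * E 0 w) / t ∂(PP Γ) := by
      intro t
      rw [hNb t, hNb (-t), hNb0, integral_div, integral_sub, integral_add, integral_const_mul]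
      · exact hEi t
      · exact hEi (-t)
      · exact (hEi t).add (hEi (-t))
      · exact (hEi 0).const_mul 2
    simp only [h1]
    suffices h2 : Tendsto (fun t : ℝ => ∫ w, (E t w + E (-t) w - 2 * E 0 w) / t ∂(PP Γ))
        (𝓝[>] 0) (𝓝 (∫ _ : Γ → ℝ, (0 : ℝ) ∂(PP Γ))) by
      rwa [integral_zero] at h2
    have hElip : ∀ t w, |E t w - E 0 w| ≤ 6 * |t| := by
      intro t w
      have hint : ∀ t, Integrable (fun s => F t (Function.update w c s)) mu0 := fun t =>
        Integrable.of_bound ((hFm t).comp (measurable_update w)).aestronglyMeasurable _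
          (Eventually.of_forall fun s => hFb t _)
      have h3 : E t w - E 0 w
          = ∫ s, (F t (Function.update w c s) - F 0 (Function.update w c s)) ∂mu0 :=
        (integral_sub (hint t) (hint 0)).symm
      rw [h3]
      have h4 := norm_integral_le_of_norm_le_const (μ := mu0)
        (f := fun s => F t (Function.update w c s) - F 0 (Function.update w c s)) (C := 6 * |t|)
        (Eventually.of_forall fun s => by
          have h5 := Nn_sc_lip hK c t (Function.update w c s)
          rw [hF]
          simp only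
          rw [had0]
          exact h5)
      simpa using h4
    refine tendsto_integral_filter_of_dominated_convergence (fun _ => 12) ?_ ?_
      (integrable_const _) ?_
    · refine Eventually.of_forall fun t => ?_
      have h3 : StronglyMeasurable fun w => (E t w + E (-t) w - 2 * E 0 w) / t :=
        ((((hEm t).add (hEm (-t))).sub ((hEm 0).const_mul 2)).measurable.div_const
          t).stronglyMeasurable
      exact h3.aestronglyMeasurable
    · filter_upwards [self_mem_nhdsWithin] with t ht
      have ht' : (0 : ℝ) < t := ht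
      refine Eventually.of_forall fun w => ?_
      rw [Real.norm_eq_abs, abs_div, abs_of_pos ht', div_le_iff₀ ht']
      have h3 := hElip t w
      have h4 := hElip (-t) w
      rw [abs_neg] at h4
      rw [abs_of_pos ht'] at h3 h4
      have h5 := abs_le.mp h3
      have h6 := abs_le.mp h4
      rw [abs_le]
      constructor <;> linarith [h5.1, h5.2, h6.1, h6.2]
    · refine Eventually.of_forall fun w => ?_
      -- the function of one variable
      set z : Γ → ℝ := fun a => if a = c then 0 else rho (w a) * y a with hz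
      have hzb : Bd e z (2 * K) := by
        intro A hA
        refine (sum_le_sum fun a _ => ?_).trans ((hK.sc w) A hA)
        rw [hz]
        simp only
        split_ifs
        · rw [abs_zero]
          exact abs_nonneg _
        · exact le_rfl
      set G : ℝ → ℝ := fun r => Nn e (ad z c r) with hG
      have hGc : Continuous G := by
        have hlip : ∀ r r' : ℝ, |G r - G r'| ≤ 3 * |r - r'| := by
          intro r r'
          have h3 : ad z c r = ad (ad z c r') c (r - r') := by
            funext a
            unfold ad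
            split_ifs <;> ring
          have h4 := Nn_lip (ad_bd hzb c r') c (r - r')
          rw [← h3] at h4
          exact h4
        have hlip' : LipschitzWith 3 G := LipschitzWith.of_dist_le_mul fun r r' => by
          rw [Real.dist_eq, Real.dist_eq]
          exact hlip r r'
        exact hlip'.continuous
      have hEG : ∀ t, E t w = ∫ s in (0 : ℝ)..1, G ((1 + s) * (y c + t)) := by
        intro t
        rw [intervalIntegral.integral_of_le zero_le_one, ← integral_Icc_eq_integral_Ioc]
        rw [hE]
        simp only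
        unfold mu0
        refine setIntegral_congr_fun measurableSet_Icc fun s hs => ?_
        rw [hF, hG]
        simp only
        congr 1
        funext a
        unfold sc ad
        rw [hz]
        simp only
        by_cases ha : a = c
        · rw [ha, Function.update_self, if_pos rfl, if_pos rfl, if_pos rfl,
            rho_eq hs.1 hs.2]
          ring
        · rw [Function.update_of_ne ha, if_neg ha, if_neg ha, if_neg ha]
          ring
      have h3 := sym_quot (dil_diff hGc hc)
      simp only [← hEG] at h3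
      exact h3

end Pool.Agent.Helper52.Smulyan
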