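import Mathlib
import Pool.Agent.Helper52.SmDefs

set_option autoImplicit false

open Finset

namespace Pool.Agent.Helper52.Smulyan

variable {Γ : Type} [LinearOrder Γ] (e : Γ → Γ → ℕ)

/-- Index set: the finite members of the family. -/
abbrev Idx := {A : Finset Γ // AA e A}

/-- The ambient Banach space. -/
abbrev LL := lp (fun _ : Idx e => ℝ) ⊤

/-- Singletons. -/
def sg (a : Γ) : Idx e := ⟨{a}, AA.singleton a⟩

/-- The generating vectors. -/
noncomputable def vv (a : Γ) : LL e :=
  ⟨fun A => if a ∈ A.1 then 1 else 0, memℓp_infty ⟨1, by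
    rintro _ ⟨A, rfl⟩
    simp only
    split_ifs <;> simp⟩⟩

theorem vv_apply (a : Γ) (A : Idx e) : (vv e a) A = if a ∈ A.1 then 1 else 0 := rfl

theorem vv_sg (a b : Γ) : (vv e a) (sg e b) = if b = a then 1 else 0 := by
  rw [vv_apply]
  have h : a ∈ (sg e b).1 ↔ b = a := by
    change a ∈ ({b} : Finset Γ) ↔ _
    rw [mem_singleton, eq_comm]
  split_ifs with h1 h2 h2
  · rfl
  · exact absurd (h.mp h1) h2
  · exact absurd (h.mpr h2) h1
  · rfl

theorem ev_cont (A : Idx e) : Continuous (fun y : LL e => y A) := by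
  let L : LL e →ₗ[ℝ] ℝ :=
    { toFun := fun y => y A
      map_add' := fun _ _ => rfl
      map_smul' := fun _ _ => rfl }
  have h : ∀ y, ‖L y‖ ≤ 1 * ‖y‖ := fun y => by
    rw [one_mul]
    exact lp.norm_apply_le_norm (by simp) y A
  exact (L.mkContinuous 1 h).continuous

/-- Additive elements. -/
noncomputable def addS : Submodule ℝ (LL e) where
  carrier := {y | ∀ A : Idx e, y A = ∑ a ∈ A.1, y (sg e a)}
  add_mem' := by
    intro x y hx hy A
    have h1 : (x + y) A = x A + y A := rfl
    rw [h1, hx A, hy A, ← sum_add_distrib]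
    rfl
  zero_mem' := by
    intro A
    have h1 : (0 : LL e) A = 0 := rfl
    rw [h1]
    symm
    exact sum_eq_zero fun a _ => rfl
  smul_mem' := by
    intro c x hx A
    have h1 : (c • x) A = c * x A := rfl
    rw [h1, hx A, mul_sum]
    rfl

theorem addS_closed : IsClosed (addS e : Set (LL e)) := by
  have h : (addS e : Set (LL e)) = ⋂ A : Idx e, {y : LL e | y A = ∑ a ∈ A.1, y (sg e a)} := by
    ext y
    simp only [Set.mem_iInter]
    rfl
  rw [h]
  exact isClosed_iInter fun A =>
    isClosed_eq (ev_cont e A) (continuous_finsetSum _ fun a _ => ev_cont e (sg e a))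

/-- The space. -/
noncomputable def W : Submodule ℝ (LL e) :=
  (Submodule.span ℝ (Set.range (vv e))).topologicalClosure

theorem vv_mem_addS (a : Γ) : vv e a ∈ addS e := by
  intro A
  rw [vv_apply]
  simp only [vv_sg]
  rw [sum_ite_eq' A.1 a (fun _ => (1 : ℝ))]

theorem W_le : W e ≤ addS e := by
  refine Submodule.topologicalClosure_minimal _ ?_ (addS_closed e)
  rw [Submodule.span_le]
  rintro _ ⟨a, rfl⟩
  exact vv_mem_addS e a

theorem abs_sum_le (z : LL e) (hz : z ∈ addS e) (A : Finset Γ) (hA : AA e A) :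
    ∑ a ∈ A, |z (sg e a)| ≤ 2 * ‖z‖ := by
  classical
  have h1 : ∑ a ∈ A, |z (sg e a)| = ∑ a ∈ A.filter (fun a => 0 ≤ z (sg e a)), z (sg e a)
      + -∑ a ∈ A.filter (fun a => ¬ 0 ≤ z (sg e a)), z (sg e a) := by
    rw [← sum_filter_add_sum_filter_not A (fun a => 0 ≤ z (sg e a)), ← sum_neg_distrib]
    congr 1
    · refine sum_congr rfl fun a ha => ?_
      exact abs_of_nonneg (mem_filter.mp ha).2
    · refine sum_congr rfl fun a ha => ?_
      exact abs_of_neg (not_le.mp (mem_filter.mp ha).2)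
  have h2 : ∀ B : Finset Γ, AA e B → |∑ a ∈ B, z (sg e a)| ≤ ‖z‖ := by
    intro B hB
    have h3 := hz ⟨B, hB⟩
    have h4 := lp.norm_apply_le_norm (by simp) z (⟨B, hB⟩ : Idx e)
    rw [h3, Real.norm_eq_abs] at h4
    exact h4
  have h5 := h2 _ (hA.subset (filter_subset (fun a => 0 ≤ z (sg e a)) A))
  have h6 := h2 _ (hA.subset (filter_subset (fun a => ¬ 0 ≤ z (sg e a)) A))
  rw [h1]
  have h7 := abs_le.mp h5
  have h8 := abs_le.mp h6
  linarith [h7.2, h8.1]

theorem span_support (y : LL e) (hy : y ∈ Submodule.span ℝ (Set.range (vv e))) :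
    ∃ S : Finset Γ, ∀ a, a ∉ S → y (sg e a) = 0 := by
  classical
  induction hy using Submodule.span_induction with
  | mem x hx =>
    obtain ⟨a, rfl⟩ := hx
    refine ⟨{a}, fun b hb => ?_⟩
    rw [vv_sg, if_neg]
    rintro rfl
    exact hb (mem_singleton_self _)
  | zero => exact ⟨∅, fun _ _ => rfl⟩
  | add x y _ _ hx hy =>
    obtain ⟨S, hS⟩ := hx
    obtain ⟨T, hT⟩ := hy
    refine ⟨S ∪ T, fun a ha => ?_⟩
    rw [mem_union, not_or] at ha
    have h1 : (x + y) (sg e a) = x (sg e a) + y (sg e a) := rfl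
    rw [h1, hS a ha.1, hT a ha.2, add_zero]
  | smul c x _ hx =>
    obtain ⟨S, hS⟩ := hx
    refine ⟨S, fun a ha => ?_⟩
    have h1 : (c • x) (sg e a) = c * x (sg e a) := rfl
    rw [h1, hS a ha, mul_zero]

/-- Coordinates. -/
noncomputable def coW : W e →ₗ[ℝ] (Γ → ℝ) where
  toFun x := fun a => x.1 (sg e a)
  map_add' _ _ := rfl
  map_smul' _ _ := rfl

/-- Basis vectors. -/
noncomputable def vW (a : Γ) : W e :=
  ⟨vv e a, Submodule.le_topologicalClosure _ (Submodule.subset_span ⟨a, rfl⟩)⟩

theorem coW_tail (x : W e) : Tail e (coW e x) := by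
  intro ε hε
  have hx : x.1 ∈ closure ((Submodule.span ℝ (Set.range (vv e)) : Submodule ℝ (LL e)) :
      Set (LL e)) := x.2
  obtain ⟨y, hy, hxy⟩ := Metric.mem_closure_iff.mp hx (ε / 2) (by positivity)
  obtain ⟨S, hS⟩ := span_support e y hy
  refine ⟨S, fun A hA hdis => ?_⟩
  have hmem : x.1 - y ∈ addS e := (addS e).sub_mem (W_le e x.2)
    (W_le e (Submodule.le_topologicalClosure _ hy))
  have h1 := abs_sum_le e (x.1 - y) hmem A hA
  rw [dist_eq_norm] at hxy
  have h2 : ∑ a ∈ A, |coW e x a| = ∑ a ∈ A, |(x.1 - y) (sg e a)| := by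
    refine sum_congr rfl fun a ha => ?_
    have h3 : (x.1 - y) (sg e a) = x.1 (sg e a) - y (sg e a) := rfl
    rw [h3, hS a (disjoint_left.mp hdis ha), sub_zero]
    rfl
  rw [h2]
  linarith

/-- The coordinate system of the space. -/
noncomputable def sysW : Sys e (W e) where
  co := coW e
  v := vW e
  co_v a b := vv_sg e a b
  tail := coW_tail e
  ub x A hA := abs_sum_le e x.1 (W_le e x.2) A hA
  lb x C hC := by
    have : Nonempty (Idx e) := ⟨⟨∅, AA.empty⟩⟩
    have h : ‖x.1‖ ≤ C := by
      refine lp.norm_le_of_forall_le' C fun A => ?_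
      have h1 := W_le e x.2 A
      rw [h1, Real.norm_eq_abs]
      exact (abs_sum_le_sum_abs _ _).trans (hC A.1 A.2)
    exact h
  dense := by
    rw [eq_top_iff]
    intro x _
    have hx : x.1 ∈ closure ((Submodule.span ℝ (Set.range (vv e)) : Submodule ℝ (LL e)) :
        Set (LL e)) := x.2
    change x ∈ closure ((Submodule.span ℝ (Set.range (vW e)) : Submodule ℝ (W e)) : Set (W e))
    rw [closure_subtype]
    have h1 : (Subtype.val '' ((Submodule.span ℝ (Set.range (vW e)) : Submodule ℝ (W e)) :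
        Set (W e))) = ((Submodule.span ℝ (Set.range (vv e)) : Submodule ℝ (LL e)) :
        Set (LL e)) := by
      have h2 : Submodule.map (W e).subtype (Submodule.span ℝ (Set.range (vW e)))
          = Submodule.span ℝ (Set.range (vv e)) := by
        rw [Submodule.map_span]
        congr 1
        rw [← Set.range_comp]
        rfl
      rw [← h2]
      rfl
    rw [h1]
    exact hx

instance : CompleteSpace (W e) := by
  unfold W
  infer_instance

end Pool.Agent.Helper52.Smulyan
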