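import Mathlib
import Pool.Agent.Helper52.SmAbs
import Pool.Agent.Helper52.SmKink
import Pool.Agent.Helper52.SmSpace
import Pool.Agent.Helper52.SmWLD
import Pool.Agent.Helper52.SmRot2

set_option autoImplicit false

open Finset Filter Topology MeasureTheory

namespace Pool.Agent.Helper52.Smulyan

/-- The first uncountable ordinal, as a type. -/
abbrev Om : Type := (Cardinal.aleph 1).ord.ToType

theorem Om_Iio (ξ : Om) : (Set.Iio ξ).Countable := by
  have h := Cardinal.mk_Iio_lt ξ (by simp)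
  rw [Cardinal.mk_ord_toType, Cardinal.lt_aleph_one_iff] at h
  exact Cardinal.le_aleph0_iff_set_countable.mp h

theorem Om_Iic (ξ : Om) : (Set.Iic ξ).Countable := by
  rw [← Set.Iio_insert]
  exact (Om_Iio ξ).insert ξ

theorem Om_not_countable : ¬ (Set.univ : Set Om).Countable := by
  intro h
  have h1 := Cardinal.le_aleph0_iff_set_countable.mpr h
  rw [Cardinal.mk_univ, Cardinal.mk_ord_toType] at h1
  exact absurd h1 (not_le.mpr Cardinal.aleph0_lt_aleph_one)

instance : Nonempty Om := by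
  by_contra h
  rw [not_nonempty_iff] at h
  exact Om_not_countable (Set.countable_univ)

theorem Om_CB : CB Om := by
  intro u
  by_contra h
  push Not at h
  apply Om_not_countable
  refine (Set.countable_iUnion fun n => Om_Iic (u n)).mono fun ξ _ => ?_
  obtain ⟨n, hn⟩ := h ξ
  exact Set.mem_iUnion.mpr ⟨n, hn⟩

theorem exists_FTO : ∃ e : Om → Om → ℕ, FTO e := by
  classical
  have h : ∀ b : Om, ∃ f : Om → ℕ, Set.InjOn f (Set.Iio b) := fun b =>
    (Set.countable_iff_exists_injOn).mp (Om_Iio b)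
  choose f hf using h
  refine ⟨fun a b => f b a, fun b n => ?_⟩
  refine Set.Finite.of_finite_image (f := f b) ((Set.finite_Iic n).subset ?_)
    ((hf b).mono fun a ha => ha.1)
  rintro _ ⟨a, ha, rfl⟩
  exact ha.2

section Norm

variable {X : Type} [NormedAddCommGroup X] [NormedSpace ℝ X]
variable {Γ : Type} [LinearOrder Γ] {e : Γ → Γ → ℕ}

theorem Z_bd (Z : Sys e X) (x : X) : Bd e (Z.co x) (2 * ‖x‖) := fun A hA => Z.ub x A hA

theorem Z_supp (Z : Sys e X) (x : X) : {a | Z.co x a ≠ 0}.Countable := tail_countable (Z.tail x)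

theorem NX_ge (Z : Sys e X) (x : X) : ‖x‖ ≤ Nb e (Z.co x) := by
  refine Z.lb x _ fun A hA => ?_
  have h1 : ∫ _w, (∑ a ∈ A, |Z.co x a|) ∂(PP Γ) ≤ Nb e (Z.co x) := by
    unfold Nb
    refine integral_mono (integrable_const _) (Nn_integrable (Z_bd Z x) (Z_supp Z x)) fun w => ?_
    exact (sum_le_sum fun a _ => le_abs_sc w (Z.co x) a).trans
      ((VV_ge A _).trans (le_Nn ((Z_bd Z x).sc w) A hA))
  rw [integral_const, probReal_univ, one_smul] at h1
  exact h1

theorem NX_le (Z : Sys e X) (x : X) : Nb e (Z.co x) ≤ 12 * ‖x‖ := by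
  have h1 : Nb e (Z.co x) ≤ ∫ _w, (12 * ‖x‖) ∂(PP Γ) := by
    unfold Nb
    refine integral_mono (Nn_integrable (Z_bd Z x) (Z_supp Z x)) (integrable_const _) fun w => ?_
    refine (Nn_le_three ((Z_bd Z x).sc w)).trans (le_of_eq ?_)
    ring
  rw [integral_const, probReal_univ, one_smul] at h1
  exact h1

theorem NX_add (Z : Sys e X) (x y : X) :
    Nb e (Z.co (x + y)) ≤ Nb e (Z.co x) + Nb e (Z.co y) := by
  rw [map_add]
  exact Nb_add (Z_bd Z x) (Z_supp Z x) (Z_bd Z y) (Z_supp Z y)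

theorem NX_smul (Z : Sys e X) (a : ℝ) (x : X) : Nb e (Z.co (a • x)) = |a| * Nb e (Z.co x) := by
  rw [map_smul]
  exact Nb_smul _ _

theorem co_ad (Z : Sys e X) (x : X) (c : Γ) (t : ℝ) : Z.co (x + t • Z.v c) = ad (Z.co x) c t := by
  funext a
  rw [map_add, map_smul, Pi.add_apply, Pi.smul_apply, Z.co_v, smul_eq_mul]
  unfold ad
  split_ifs <;> simp

theorem NX_gateaux [WellFoundedLT Γ] (Z : Sys e X) (x : X) (hx : x ≠ 0) :
    ∃ L : X →L[ℝ] ℝ, ∀ v : X, HasLineDerivAt ℝ (fun x => Nb e (Z.co x)) (L v) x v := by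
  obtain ⟨b0, hb0⟩ : ∃ b0, Z.co x b0 ≠ 0 := by
    by_contra h
    push Not at h
    apply hx
    refine norm_le_zero_iff.mp (Z.lb x 0 fun A _ => ?_)
    exact le_of_eq (sum_eq_zero fun a _ => by rw [h a, abs_zero])
  refine gateaux_of_kink (fun x => Nb e (Z.co x)) 12 (by norm_num) (NX_le Z) (NX_add Z)
    (NX_smul Z) x (Set.range Z.v) Z.dense ?_
  rintro _ ⟨c, rfl⟩
  have h := kink (Z.tail x) (Z_supp Z x) b0 hb0 c
  simp only [co_ad]
  exact h

end Norm

section Wld

variable {X : Type} [NormedAddCommGroup X] [NormedSpace ℝ X]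
variable {Γ : Type} [LinearOrder Γ] {e : Γ → Γ → ℕ}

theorem wld (hcb : CB Γ) [Nonempty Γ] (hct : ∀ ξ : Γ, (Set.Iic ξ).Countable) (Z : Sys e X) :
    ∃ (Γ : Type) (φ : WeakDual ℝ X → (Γ → ℝ)),
        ContinuousOn φ {f : WeakDual ℝ X | ∀ x : X, |f x| ≤ ‖x‖} ∧
        Set.InjOn φ {f : WeakDual ℝ X | ∀ x : X, |f x| ≤ ‖x‖} ∧
        ∀ f ∈ {f : WeakDual ℝ X | ∀ x : X, |f x| ≤ ‖x‖},
          (Function.support (φ f)).Countable := by
  refine ⟨Γ, fun f a => f (Z.v a), ?_, ?_, ?_⟩
  · refine Continuous.continuousOn (continuous_pi fun a => ?_)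
    exact WeakDual.eval_continuous (Z.v a)
  · intro f _ g _ hfg
    have h1 : ∀ a, f (Z.v a) = g (Z.v a) := fun a => congrFun hfg a
    have h2 : ∀ x : X, f x = g x := by
      intro x
      let F : X →L[ℝ] ℝ := f
      let G : X →L[ℝ] ℝ := g
      have h3 : (Submodule.span ℝ (Set.range Z.v)).topologicalClosure ≤ LinearMap.eqLocus
          F.toLinearMap G.toLinearMap := by
        refine Submodule.topologicalClosure_minimal _ ?_ (isClosed_eq F.continuous G.continuous)
        rw [Submodule.span_le]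
        rintro _ ⟨a, rfl⟩
        exact h1 a
      rw [Z.dense] at h3
      exact h3 (Submodule.mem_top : x ∈ ⊤)
    exact DFunLike.ext _ _ h2
  · intro f hf
    exact countable_support hcb hct Z (fun x => f x) (fun x y => map_add f x y)
      (fun c x => by rw [map_smul, smul_eq_mul]) hf

end Wld

end Pool.Agent.Helper52.Smulyan
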