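import Mathlib

set_option autoImplicit false

open scoped ENNReal

namespace Pool.Agent.Helper52

/-- The Sturmian potential: the value at `n` is `lam` if the fractional part of `ω + n α` lies in
`[1 - α, 1)`, and `0` otherwise. -/
noncomputable def pot (lam α ω : ℝ) (n : ℤ) : ℝ :=
  if Int.fract (ω + n * α) ∈ Set.Ico (1 - α) 1 then lam else 0

/-- The difference expression `n ↦ ψ(n+1) + ψ(n-1) + V(n) ψ(n)` with `V = pot lam α ω`. -/
noncomputable def hamFun (lam α ω : ℝ) (ψ : ℤ → ℂ) (n : ℤ) : ℂ :=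
  ψ (n + 1) + ψ (n - 1) + (pot lam α ω n : ℂ) * ψ n

theorem memlp_shift (k : ℤ) {ψ : ℤ → ℂ} (h : Memℓp ψ 2) :
    Memℓp (fun n : ℤ => ψ (n + k)) 2 := by
  have h := h.summable (by norm_num)
  refine memℓp_gen ?_
  exact (Equiv.addRight k).summable_iff.mpr h

theorem memlp_mul {V : ℤ → ℝ} {B : ℝ} (hV : ∀ n, |V n| ≤ B) {ψ : ℤ → ℂ} (h : Memℓp ψ 2) :
    Memℓp (fun n : ℤ => ((V n : ℂ) * (ψ n : ℂ))) 2 := by
  have h := h.const_mul (B : ℂ)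
  refine Memℓp.mono h.norm ?_
  intro n
  rw [norm_mul, norm_mul]
  refine mul_le_mul_of_nonneg_right ?_ (norm_nonneg _)
  rw [Complex.norm_real, Complex.norm_real, Real.norm_eq_abs, Real.norm_eq_abs]
  exact (hV n).trans (le_abs_self B)

theorem pot_bound (lam α ω : ℝ) (n : ℤ) : |pot lam α ω n| ≤ |lam| := by
  unfold pot
  split_ifs
  · exact le_rfl
  · simp

theorem memlp_ham (lam α ω : ℝ) {ψ : ℤ → ℂ} (h : Memℓp ψ 2) : Memℓp (hamFun lam α ω ψ) 2 := by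
  have h1 := (memlp_shift 1 h).add (memlp_shift (-1) h)
  exact h1.add (memlp_mul (pot_bound lam α ω) h)

/-- The Hilbert space `ℓ²(ℤ)` of square-summable complex sequences indexed by the integers. -/
def L2Z : Type := lp (fun _ : ℤ => ℂ) 2

noncomputable instance instNormedAddCommGroupL2Z : NormedAddCommGroup L2Z :=
  @lp.normedAddCommGroup ℤ (fun _ : ℤ => ℂ) 2 _ ⟨one_le_two⟩

noncomputable instance instNormedSpaceL2Z : NormedSpace ℂ L2Z :=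
  @lp.instNormedSpace ℂ ℤ (fun _ : ℤ => ℂ) 2 _ _ _ ⟨one_le_two⟩

/-- The difference expression as a map of `ℓ²(ℤ)` to itself. -/
noncomputable def hamMap (lam α ω : ℝ) (ψ : L2Z) : L2Z :=
  ⟨hamFun lam α ω ψ.1, memlp_ham lam α ω ψ.2⟩

theorem hamFun_add (lam α ω : ℝ) (ψ φ : ℤ → ℂ) :
    hamFun lam α ω (ψ + φ) = hamFun lam α ω ψ + hamFun lam α ω φ := by
  funext n
  simp only [hamFun, Pi.add_apply]
  ring

theorem hamFun_smul (lam α ω : ℝ) (c : ℂ) (ψ : ℤ → ℂ) :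
    hamFun lam α ω (c • ψ) = c • hamFun lam α ω ψ := by
  funext n
  simp only [hamFun, Pi.smul_apply, smul_eq_mul]
  ring

theorem hamMap_add (lam α ω : ℝ) (ψ φ : L2Z) :
    hamMap lam α ω (ψ + φ) = hamMap lam α ω ψ + hamMap lam α ω φ :=
  Subtype.ext (hamFun_add lam α ω ψ.1 φ.1)

theorem hamMap_smul (lam α ω : ℝ) (c : ℂ) (ψ : L2Z) :
    hamMap lam α ω (c • ψ) = c • hamMap lam α ω ψ :=
  Subtype.ext (hamFun_smul lam α ω c ψ.1)

theorem norm_shift (k : ℤ) (ψ : lp (fun _ : ℤ => ℂ) 2) :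
    ‖(⟨fun n => ψ (n + k), memlp_shift k ψ.2⟩ : lp (fun _ : ℤ => ℂ) 2)‖ ≤ ‖ψ‖ := by
  refine lp.norm_le_of_tsum_le (by norm_num) (norm_nonneg _) ?_
  rw [lp.norm_rpow_eq_tsum (by norm_num) ψ]
  exact le_of_eq ((Equiv.addRight k).tsum_eq (fun n => ‖ψ n‖ ^ (2 : ℝ≥0∞).toReal))

theorem norm_mul_le {V : ℤ → ℝ} {B : ℝ} (hV : ∀ n, |V n| ≤ B) (ψ : lp (fun _ : ℤ => ℂ) 2) :
    ‖(⟨fun n => (V n : ℂ) * ψ n, memlp_mul hV ψ.2⟩ : lp (fun _ : ℤ => ℂ) 2)‖ ≤ B * ‖ψ‖ := by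
  have hB : 0 ≤ B := (abs_nonneg _).trans (hV 0)
  refine lp.norm_le_of_tsum_le (by norm_num) (by positivity) ?_
  have h3 : ‖ψ‖ ^ (2 : ℝ≥0∞).toReal = ∑' n, ‖ψ n‖ ^ (2 : ℝ≥0∞).toReal :=
    lp.norm_rpow_eq_tsum (by norm_num) ψ
  rw [Real.mul_rpow hB (norm_nonneg _), h3, ← tsum_mul_left]
  have hs : Summable fun n => ‖ψ n‖ ^ (2 : ℝ≥0∞).toReal :=
    (lp.memℓp ψ).summable (by norm_num)
  have hle : ∀ n : ℤ, ‖(V n : ℂ) * ψ n‖ ^ (2 : ℝ≥0∞).toReal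
      ≤ B ^ (2 : ℝ≥0∞).toReal * ‖ψ n‖ ^ (2 : ℝ≥0∞).toReal := by
    intro n
    rw [← Real.mul_rpow hB (norm_nonneg _)]
    refine Real.rpow_le_rpow (norm_nonneg _) ?_ (by norm_num)
    rw [norm_mul]
    refine mul_le_mul_of_nonneg_right ?_ (norm_nonneg _)
    rw [Complex.norm_real, Real.norm_eq_abs]
    exact hV n
  refine Summable.tsum_le_tsum hle ?_ (hs.mul_left _)
  exact (Summable.of_nonneg_of_le (fun n => by positivity) hle (hs.mul_left _))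

theorem hamMap_bound (lam α ω : ℝ) (ψ : L2Z) : ‖hamMap lam α ω ψ‖ ≤ (2 + |lam|) * ‖ψ‖ := by
  change ‖((⟨fun n => ψ.1 (n + 1), memlp_shift 1 ψ.2⟩ : lp (fun _ : ℤ => ℂ) 2)
    + (⟨fun n => ψ.1 (n + (-1)), memlp_shift (-1) ψ.2⟩ : lp (fun _ : ℤ => ℂ) 2))
    + (⟨fun n => (pot lam α ω n : ℂ) * ψ.1 n, memlp_mul (pot_bound lam α ω) ψ.2⟩ :
        lp (fun _ : ℤ => ℂ) 2)‖ ≤ (2 + |lam|) * ‖(show lp (fun _ : ℤ => ℂ) 2 from ψ)‖
  refine (norm_add_le _ _).trans ?_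
  refine (add_le_add (norm_add_le _ _) (norm_mul_le (pot_bound lam α ω) ψ)).trans ?_
  have h1 := norm_shift 1 ψ
  have h2 := norm_shift (-1) ψ
  linarith

/-- The Sturmian Hamiltonian
`(H ψ)(n) = ψ(n+1) + ψ(n-1) + V(n) ψ(n)` as a bounded operator on `ℓ²(ℤ)`,
with `V = pot lam α ω`. -/
noncomputable def ham (lam α ω : ℝ) : L2Z →L[ℂ] L2Z :=
  LinearMap.mkContinuous
    { toFun := hamMap lam α ω
      map_add' := hamMap_add lam α ω
      map_smul' := hamMap_smul lam α ω } (2 + |lam|) (hamMap_bound lam α ω)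

/-- The spectrum of the Sturmian Hamiltonian, as a set of real numbers. -/
def spec (lam α ω : ℝ) : Set ℝ := {E : ℝ | (E : ℂ) ∈ spectrum ℂ (ham lam α ω)}

/-- Two subsets of the real line are diffeomorphic if there is a `C¹` diffeomorphism `f : U → V`
(with inverse `g`) between open intervals `U ⊇ A` and `V ⊇ B` with `f(A) = B`. -/
def Diffeomorphic (A B : Set ℝ) : Prop :=
  ∃ (U V : Set ℝ) (f g : ℝ → ℝ), IsOpen U ∧ U.OrdConnected ∧ IsOpen V ∧ V.OrdConnected ∧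
    A ⊆ U ∧ B ⊆ V ∧ Set.MapsTo f U V ∧ Set.MapsTo g V U ∧
    Set.LeftInvOn g f U ∧ Set.RightInvOn g f V ∧
    ContDiffOn ℝ 1 f U ∧ ContDiffOn ℝ 1 g V ∧ f '' A = B

/-- The Gauss map `x ↦ 1/x - ⌊1/x⌋`. -/
noncomputable def gauss (x : ℝ) : ℝ := Int.fract (x⁻¹)

/-- The continued fraction digits of `x ∈ (0,1)`: if `x = [a_1, a_2, …]` then
`digit x i = a_{i+1} = ⌊1 / gauss^i(x)⌋`. -/
noncomputable def digit (x : ℝ) (i : ℕ) : ℤ := ⌊(gauss^[i] x)⁻¹⌋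

/-- Tail-equivalence: the digit sequences agree after deleting finite initial blocks. -/
def TailEquiv (α β : ℝ) : Prop := ∃ m n : ℕ, ∀ i : ℕ, digit β (m + i) = digit α (n + i)

end Pool.Agent.Helper52
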