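import Mathlib
import Pool.Agent.Helper52.SturmStatement

set_option autoImplicit false

open scoped ENNReal

namespace Pool.Agent.Helper52

/-- The Hilbert space of square-summable complex sequences indexed by the integers. -/
abbrev Ell2 : Type := lp (fun _ : ℤ => ℂ) 2

/-- The shift operator `(S_k ψ)(n) = ψ(n + k)`. -/
noncomputable def shiftOp (k : ℤ) : Ell2 →L[ℂ] Ell2 :=
  LinearMap.mkContinuous
    { toFun := fun ψ => ⟨fun n => ψ (n + k), memlp_shift k ψ.2⟩
      map_add' := fun ψ φ => by ext n; rfl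
      map_smul' := fun c ψ => by ext n; rfl } 1 (by
        intro ψ
        rw [one_mul]
        exact norm_shift k ψ)

/-- The multiplication operator `(M_V ψ)(n) = V(n) ψ(n)` for a bounded potential `V`. -/
noncomputable def mulOp (V : ℤ → ℝ) (B : ℝ) (hV : ∀ n, |V n| ≤ B) : Ell2 →L[ℂ] Ell2 :=
  LinearMap.mkContinuous
    { toFun := fun ψ => ⟨fun n => (V n : ℂ) * ψ n, memlp_mul hV ψ.2⟩
      map_add' := fun ψ φ => by ext n; exact mul_add _ _ _
      map_smul' := fun c ψ => by ext n; exact mul_left_comm _ _ _ } B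
      (fun ψ => norm_mul_le hV ψ)

/-- The Hamiltonian, as a sum of shifts and a multiplication operator. -/
noncomputable def hamI (lam α ω : ℝ) : Ell2 →L[ℂ] Ell2 :=
  shiftOp 1 + shiftOp (-1) + mulOp (pot lam α ω) |lam| (pot_bound lam α ω)

theorem hamI_apply (lam α ω : ℝ) (ψ : Ell2) (n : ℤ) :
    hamI lam α ω ψ n = ψ (n + 1) + ψ (n - 1) + (pot lam α ω n : ℂ) * ψ n := rfl

/-- The spectrum of the Sturmian Hamiltonian, as a set of real numbers. -/
def specI (lam α ω : ℝ) : Set ℝ := {E : ℝ | (E : ℂ) ∈ spectrum ℂ (hamI lam α ω)}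

theorem ham_eq_hamI (lam α ω : ℝ) : (ham lam α ω : Ell2 →L[ℂ] Ell2) = hamI lam α ω := by
  refine ContinuousLinearMap.ext fun ψ => ?_
  rfl

theorem specI_eq (lam α ω : ℝ) : spec lam α ω = specI lam α ω := by
  unfold specI spec
  rw [← ham_eq_hamI]
  rfl

end Pool.Agent.Helper52
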