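import Mathlib
import Pool.Agent.Helper52.SturmDefs

set_option autoImplicit false

open Matrix

namespace Pool.Agent.Helper52

/-! ### Transfer matrices -/

/-- One-step transfer matrix. -/
def stepM {R : Type*} [CommRing R] (E l : R) (w : ℤ) : Matrix (Fin 2) (Fin 2) R :=
  !![E - l * (w : R), -1; 1, 0]

/-- Transfer matrix over `n` sites starting at `a`. -/
def trM {R : Type*} [CommRing R] (E l : R) (W : ℤ → ℤ) (a : ℤ) : ℕ → Matrix (Fin 2) (Fin 2) R
  | 0 => 1
  | n + 1 => stepM E l (W (a + n)) * trM E l W a n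

section

variable {R : Type*} [CommRing R] (E l : R)

theorem stepM_det (w : ℤ) : (stepM E l w).det = 1 := by
  simp [stepM, Matrix.det_fin_two]

theorem trM_det (W : ℤ → ℤ) (a : ℤ) (n : ℕ) : (trM E l W a n).det = 1 := by
  induction n with
  | zero => simp [trM]
  | succ n ih => rw [trM, Matrix.det_mul, ih, stepM_det, one_mul]

theorem trM_congr {W W' : ℤ → ℤ} {a b : ℤ} {n : ℕ}
    (h : ∀ i : ℕ, i < n → W (a + i) = W' (b + i)) : trM E l W a n = trM E l W' b n := by
  induction n with
  | zero => rfl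
  | succ n ih =>
    rw [trM, trM, ih (fun i hi => h i (by omega)), h n (by omega)]

theorem trM_succ' (W : ℤ → ℤ) (a : ℤ) (n : ℕ) :
    trM E l W a (n + 1) = trM E l W (a + 1) n * stepM E l (W a) := by
  induction n with
  | zero => simp [trM]
  | succ n ih =>
    rw [trM, ih, trM, Matrix.mul_assoc]
    congr 3
    push_cast
    ring

theorem trM_trace_succ {W : ℤ → ℤ} {q : ℕ} (hW : ∀ m, W (m + q) = W m) (a : ℤ) :
    (trM E l W (a + 1) q).trace = (trM E l W a q).trace := by
  have h1 : trM E l W (a + 1) q * stepM E l (W a) = stepM E l (W a) * trM E l W a q := by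
    rw [← trM_succ', trM, hW]
  have h2 : stepM E l (W a) * (stepM E l (W a)).adjugate = 1 := by
    rw [Matrix.mul_adjugate, stepM_det, one_smul]
  have h3 : (stepM E l (W a)).adjugate * stepM E l (W a) = 1 := by
    rw [Matrix.adjugate_mul, stepM_det, one_smul]
  have h4 : trM E l W (a + 1) q
      = stepM E l (W a) * trM E l W a q * (stepM E l (W a)).adjugate := by
    rw [← h1, Matrix.mul_assoc, h2, Matrix.mul_one]
  rw [h4, Matrix.trace_mul_comm, ← Matrix.mul_assoc, h3, Matrix.one_mul]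

theorem trM_trace {W : ℤ → ℤ} {q : ℕ} (hW : ∀ m, W (m + q) = W m) (a b : ℤ) :
    (trM E l W a q).trace = (trM E l W b q).trace := by
  have key : ∀ (a : ℤ) (n : ℕ), (trM E l W (a + n) q).trace = (trM E l W a q).trace := by
    intro a n
    induction n with
    | zero => simp
    | succ n ih =>
      rw [← ih, ← trM_trace_succ E l hW (a + n)]
      congr 2
      push_cast
      ring
  rcases le_total a b with h | h
  · obtain ⟨n, hn⟩ := Int.eq_ofNat_of_zero_le (sub_nonneg.mpr h)
    rw [show b = a + n by omega, key]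
  · obtain ⟨n, hn⟩ := Int.eq_ofNat_of_zero_le (sub_nonneg.mpr h)
    rw [show a = b + n by omega, key]

theorem trM_map {S : Type*} [CommRing S] (f : R →+* S) (W : ℤ → ℤ) (a : ℤ) (n : ℕ) :
    (trM E l W a n).map f = trM (f E) (f l) W a n := by
  induction n with
  | zero =>
    simp [trM, Matrix.map_one]
  | succ n ih =>
    rw [trM, trM, Matrix.map_mul, ih]
    congr 1
    ext i j
    fin_cases i <;> fin_cases j <;> simp [stepM]

theorem trM_trace_map {S : Type*} [CommRing S] (f : R →+* S) (W : ℤ → ℤ) (a : ℤ) (n : ℕ) :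
    f (trM E l W a n).trace = (trM (f E) (f l) W a n).trace := by
  rw [← trM_map]
  simp [Matrix.trace_fin_two]

theorem trM_mulVec {u : ℤ → R} {W : ℤ → ℤ} {a : ℤ} {n : ℕ}
    (hu : ∀ m : ℤ, a ≤ m → m < a + n → u (m + 1) = (E - l * (W m : R)) * u m - u (m - 1)) :
    trM E l W a n *ᵥ ![u a, u (a - 1)] = ![u (a + n), u (a + n - 1)] := by
  induction n with
  | zero => simp [trM]
  | succ n ih =>
    rw [trM, ← Matrix.mulVec_mulVec, ih (fun m h1 h2 => hu m h1 (by push_cast; omega))]
    have h1 := hu (a + n) (by omega) (by push_cast; omega)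
    ext i
    fin_cases i
    · simp only [stepM, Fin.zero_eta, Matrix.mulVec, Matrix.of_apply, Matrix.cons_val', Matrix.cons_val_zero,
        Matrix.cons_val_fin_one, dotProduct, Fin.sum_univ_two, Matrix.cons_val_one]
      push_cast
      rw [show a + ((n : ℤ) + 1) = a + n + 1 by ring, h1]
      ring
    · simp only [stepM, Fin.mk_one, Matrix.mulVec, Matrix.of_apply, Matrix.cons_val', Matrix.cons_val_zero,
        Matrix.cons_val_fin_one, dotProduct, Fin.sum_univ_two, Matrix.cons_val_one]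
      push_cast
      rw [show a + ((n : ℤ) + 1) - 1 = a + n by ring]
      ring

/-- Cayley-Hamilton for `2 × 2` matrices of determinant one. -/
theorem sq_eq (M : Matrix (Fin 2) (Fin 2) R) (hM : M.det = 1) : M * M = M.trace • M - 1 := by
  rw [Matrix.det_fin_two] at hM
  ext i j
  fin_cases i <;> fin_cases j <;>
    simp [Matrix.mul_apply, Fin.sum_univ_two, Matrix.trace_fin_two] <;>
    first | linear_combination -hM | ring

end

/-! ### Mechanical words -/

/-- The mechanical word of slope `p/q` and phase `j`. -/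
def wp (p q j m : ℤ) : ℤ := ((m + 1) * p + j) / q - (m * p + j) / q

theorem wp_add_q {p q : ℤ} (hq : 0 < q) (j m : ℤ) : wp p q j (m + q) = wp p q j m := by
  unfold wp
  rw [show (m + q + 1) * p + j = (m + 1) * p + j + p * q by ring,
    show (m + q) * p + j = m * p + j + p * q by ring,
    Int.add_mul_ediv_right _ _ hq.ne', Int.add_mul_ediv_right _ _ hq.ne']
  ring

theorem wp_shift (p q j m n : ℤ) : wp p q j (m + n) = wp p q (j + n * p) m := by
  unfold wp
  congr 2 <;> ring_nf

theorem wp_phase {p q : ℤ} (hq : 0 < q) (j k m : ℤ) : wp p q (j + k * q) m = wp p q j m := by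
  unfold wp
  rw [← add_assoc, ← add_assoc,
    Int.add_mul_ediv_right _ _ hq.ne', Int.add_mul_ediv_right _ _ hq.ne']
  ring

theorem ediv_sub_one {a q : ℤ} (hq : 0 < q) (h : ¬ q ∣ a) : (a - 1) / q = a / q := by
  have h1 := Int.emod_add_mul_ediv a q
  have h2 : a % q ≠ 0 := fun h' => h (Int.dvd_of_emod_eq_zero h')
  have h3 := Int.emod_nonneg a hq.ne'
  have h4 := Int.emod_lt_of_pos a hq
  rw [show a - 1 = (a % q - 1) + q * (a / q) by linarith,
    Int.add_mul_ediv_left _ _ hq.ne', Int.ediv_eq_zero_of_lt (by omega) (by omega)]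
  ring

theorem not_dvd_mul {p q m : ℤ} (hpq : IsCoprime p q) (h1 : 0 < m) (h2 : m < q) : ¬ q ∣ m * p := by
  intro h
  have h3 : q ∣ m := hpq.symm.dvd_of_dvd_mul_right h
  have := Int.le_of_dvd h1 h3
  omega

theorem wp_agree {p q : ℤ} (hpq : IsCoprime p q) {m : ℤ} (h1 : 0 < m) (h2 : m + 1 < q) :
    wp p q (-1) m = wp p q 0 m := by
  unfold wp
  have hq : 0 < q := by omega
  rw [add_zero, add_zero, ← sub_eq_add_neg, ← sub_eq_add_neg,
    ediv_sub_one hq (not_dvd_mul hpq (by omega) h2), ediv_sub_one hq (not_dvd_mul hpq h1 (by omega))]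

theorem wp_zero_last {p q : ℤ} (hp : 0 < p) (hpq : p < q) : wp p q 0 (q - 1) = 1 := by
  unfold wp
  rw [show (q - 1 + 1) * p + 0 = 0 + p * q by ring, show (q - 1) * p + 0 = (q - p) + (p - 1) * q by ring,
    Int.add_mul_ediv_right _ _ (by omega), Int.add_mul_ediv_right _ _ (by omega),
    Int.ediv_eq_zero_of_lt (a := q - p) (by omega) (by omega), Int.zero_ediv]
  ring

theorem wp_zero_q {p q : ℤ} (hp : 0 < p) (hpq : p < q) : wp p q 0 q = 0 := by
  unfold wp
  rw [show (q + 1) * p + 0 = p + p * q by ring, show q * p + 0 = 0 + p * q by ring,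
    Int.add_mul_ediv_right _ _ (by omega), Int.add_mul_ediv_right _ _ (by omega),
    Int.ediv_eq_zero_of_lt (by omega) (by omega), Int.zero_ediv]
  ring

theorem wp_neg_last {p q : ℤ} (hp : 0 < p) (hpq : p < q) : wp p q (-1) (q - 1) = 0 := by
  unfold wp
  rw [show (q - 1 + 1) * p + -1 = (q - 1) + (p - 1) * q by ring,
    show (q - 1) * p + -1 = (q - p - 1) + (p - 1) * q by ring,
    Int.add_mul_ediv_right _ _ (by omega), Int.add_mul_ediv_right _ _ (by omega),
    Int.ediv_eq_zero_of_lt (by omega) (by omega), Int.ediv_eq_zero_of_lt (by omega) (by omega)]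
  ring

theorem wp_neg_q {p q : ℤ} (hp : 0 < p) (hpq : p < q) : wp p q (-1) q = 1 := by
  unfold wp
  rw [show (q + 1) * p + -1 = (p - 1) + p * q by ring,
    show q * p + -1 = (q - 1) + (p - 1) * q by ring,
    Int.add_mul_ediv_right _ _ (by omega), Int.add_mul_ediv_right _ _ (by omega),
    Int.ediv_eq_zero_of_lt (by omega) (by omega), Int.ediv_eq_zero_of_lt (by omega) (by omega)]
  ring

section

variable {R : Type*} [CommRing R] (E l : R)

theorem trM_wp_zero {p : ℤ} {n : ℕ} (hp : 0 < p) (hpq : p < (n + 2 : ℕ)) :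
    trM E l (wp p (n + 2 : ℕ) 0) 1 (n + 2)
      = stepM E l 0 * (stepM E l 1 * trM E l (wp p (n + 2 : ℕ) 0) 1 n) := by
  rw [trM, trM]
  congr 1
  · congr 1
    have := wp_zero_q hp hpq
    rw [show (1 : ℤ) + ((n + 1 : ℕ) : ℤ) = ((n + 2 : ℕ) : ℤ) by push_cast; ring]
    exact this
  · congr 2
    have := wp_zero_last hp hpq
    rw [show (1 : ℤ) + (n : ℤ) = ((n + 2 : ℕ) : ℤ) - 1 by push_cast; ring]
    exact this

theorem trM_wp_neg {p : ℤ} {n : ℕ} (hp : 0 < p) (hpq : p < (n + 2 : ℕ))
    (hcop : IsCoprime p ((n + 2 : ℕ) : ℤ)) :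
    trM E l (wp p (n + 2 : ℕ) (-1)) 1 (n + 2)
      = stepM E l 1 * (stepM E l 0 * trM E l (wp p (n + 2 : ℕ) 0) 1 n) := by
  rw [trM, trM]
  congr 1
  · congr 1
    have := wp_neg_q hp hpq
    rw [show (1 : ℤ) + ((n + 1 : ℕ) : ℤ) = ((n + 2 : ℕ) : ℤ) by push_cast; ring]
    exact this
  · congr 1
    · congr 1
      have := wp_neg_last hp hpq
      rw [show (1 : ℤ) + (n : ℤ) = ((n + 2 : ℕ) : ℤ) - 1 by push_cast; ring]
      exact this
    · refine trM_congr E l fun i hi => ?_
      exact wp_agree hcop (by omega) (by push_cast; omega)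

theorem trace_wp {p : ℤ} {q : ℕ} (hq : 0 < q) (hcop : IsCoprime p (q : ℤ)) (j a : ℤ) :
    (trM E l (wp p q j) a q).trace = (trM E l (wp p q 0) 1 q).trace := by
  obtain ⟨x, y, hxy⟩ := hcop
  have hq' : (0 : ℤ) < q := by exact_mod_cast hq
  -- `x * p + y * q = 1`
  have h1 : ∀ m, wp p q j m = wp p q 0 (m + j * x) := by
    intro m
    rw [wp_shift, ← wp_phase hq' (0 + j * x * p) (j * y) m]
    congr 1
    linear_combination (-j) * hxy
  have h2 : trM E l (wp p q j) a q = trM E l (wp p q 0) (a + j * x) q := by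
    refine trM_congr E l fun i _ => ?_
    rw [h1]
    congr 1
    ring
  rw [h2]
  exact trM_trace E l (fun m => wp_add_q hq' 0 m) _ _

end

end Pool.Agent.Helper52
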