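import Mathlib
import Pool.Agent.Helper52.SturmWords

set_option autoImplicit false

open Matrix

namespace Pool.Agent.Helper52

/-- A real number `t` with `|t| > 2` is `μ + μ⁻¹` with `|μ| > 1`. -/
theorem exists_mu {t : ℝ} (ht : 2 < |t|) : ∃ μ : ℝ, 1 < |μ| ∧ t = μ + μ⁻¹ := by
  have hd : 0 < t ^ 2 - 4 := by
    have : 2 ^ 2 < |t| ^ 2 := by gcongr
    rw [sq_abs] at this
    linarith
  set s := Real.sqrt (t ^ 2 - 4) with hs
  have hs2 : s ^ 2 = t ^ 2 - 4 := Real.sq_sqrt hd.le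
  have hspos : 0 < s := Real.sqrt_pos.mpr hd
  rcases lt_or_ge t 0 with h | h
  · rw [abs_of_neg h] at ht
    refine ⟨(t - s) / 2, ?_, ?_⟩
    · rw [abs_of_neg (by linarith)]
      linarith
    · have h3 : ((t - s) / 2) * ((t + s) / 2) = 1 := by nlinarith
      rw [inv_eq_of_mul_eq_one_right h3]
      ring
  · rw [abs_of_nonneg h] at ht
    refine ⟨(t + s) / 2, ?_, ?_⟩
    · rw [abs_of_pos (by linarith)]
      linarith
    · have h3 : ((t + s) / 2) * ((t - s) / 2) = 1 := by nlinarith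
      rw [inv_eq_of_mul_eq_one_right h3]
      ring

/-- A complex number of modulus one with `t = μ + μ⁻¹`, if `|t| ≤ 2`. -/
theorem exists_mu_circle {t : ℝ} (ht : |t| ≤ 2) : ∃ μ : ℂ, ‖μ‖ = 1 ∧ (t : ℂ) = μ + μ⁻¹ := by
  have hd : 0 ≤ 4 - t ^ 2 := by
    have : |t| ^ 2 ≤ 2 ^ 2 := by gcongr
    rw [sq_abs] at this
    linarith
  set s := Real.sqrt (4 - t ^ 2) with hs
  have hs2 : s ^ 2 = 4 - t ^ 2 := Real.sq_sqrt hd
  have hnorm : Complex.normSq (⟨t / 2, s / 2⟩ : ℂ) = 1 := by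
    rw [Complex.normSq_mk]
    nlinarith
  refine ⟨⟨t / 2, s / 2⟩, ?_, ?_⟩
  · rw [← Complex.sq_norm] at hnorm
    have h0 : 0 ≤ ‖(⟨t / 2, s / 2⟩ : ℂ)‖ := norm_nonneg _
    nlinarith
  · rw [Complex.inv_def, hnorm]
    apply Complex.ext
    · simp
    · simp

theorem scalar_hyp {μ t : ℂ} (hμ : 1 < ‖μ‖) (ht : t = μ + μ⁻¹) {z : ℕ → ℂ}
    (hz : ∀ n, z (n + 2) = t * z (n + 1) - z n) {C : ℝ} (hC : ∀ n : ℕ, ‖z n‖ ≤ C * (1 + n)) :
    z 1 = μ⁻¹ * z 0 := by
  have hμ0 : μ ≠ 0 := by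
    rintro rfl
    simp at hμ
    linarith
  set y : ℕ → ℂ := fun n => z (n + 1) - μ⁻¹ * z n with hy
  have hrec : ∀ n, y (n + 1) = μ * y n := by
    intro n
    simp only [hy]
    rw [hz n, ht]
    field_simp
    ring
  have hpow : ∀ n, y n = μ ^ n * y 0 := by
    intro n
    induction n with
    | zero => simp
    | succ n ih => rw [hrec, ih]; ring
  have hinv : ‖μ⁻¹‖ < 1 := by
    rw [norm_inv]
    exact inv_lt_one_of_one_lt₀ hμ
  have hbound : ∀ n : ℕ, ‖y 0‖ ≤ (2 * C) * (((n : ℝ) * ‖μ⁻¹‖ ^ n) + 2 * ‖μ⁻¹‖ ^ n) := by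
    intro n
    have h1 : ‖y n‖ ≤ C * (2 + n) + C * (1 + n) := by
      calc ‖y n‖ ≤ ‖z (n + 1)‖ + ‖μ⁻¹ * z n‖ := norm_sub_le _ _
        _ ≤ C * (1 + (n + 1 : ℕ)) + 1 * (C * (1 + n)) := by
          rw [norm_mul]
          have := hC (n + 1)
          have h2 := hC n
          have h3 : 0 ≤ ‖z n‖ := norm_nonneg _
          have h4 : ‖μ⁻¹‖ * ‖z n‖ ≤ 1 * (C * (1 + n)) :=
            mul_le_mul hinv.le h2 h3 zero_le_one
          linarith
        _ = _ := by push_cast; ring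
    have hC0 : 0 ≤ C := by
      have := (norm_nonneg _).trans (hC 0)
      simpa using this
    have h5 : ‖y 0‖ = ‖μ⁻¹‖ ^ n * ‖y n‖ := by
      rw [hpow n, norm_mul, norm_pow, ← mul_assoc, ← mul_pow, ← norm_mul, inv_mul_cancel₀ hμ0]
      simp
    rw [h5]
    calc ‖μ⁻¹‖ ^ n * ‖y n‖ ≤ ‖μ⁻¹‖ ^ n * (C * (2 + n) + C * (1 + n)) :=
          mul_le_mul_of_nonneg_left h1 (by positivity)
      _ ≤ ‖μ⁻¹‖ ^ n * ((2 * C) * (n + 2)) := by
          refine mul_le_mul_of_nonneg_left ?_ (by positivity)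
          nlinarith
      _ = _ := by ring
  have hlim : Filter.Tendsto (fun n : ℕ => (2 * C) * (((n : ℝ) * ‖μ⁻¹‖ ^ n) + 2 * ‖μ⁻¹‖ ^ n))
      Filter.atTop (nhds ((2 * C) * (0 + 2 * 0))) := by
    refine Filter.Tendsto.const_mul _ (Filter.Tendsto.add ?_ (Filter.Tendsto.const_mul _ ?_))
    · exact tendsto_self_mul_const_pow_of_lt_one (norm_nonneg _) hinv
    · exact tendsto_pow_atTop_nhds_zero_of_lt_one (norm_nonneg _) hinv
  have h0 : ‖y 0‖ ≤ 0 := by
    have := ge_of_tendsto' hlim hbound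
    simpa using this
  have h1 : y 0 = 0 := norm_le_zero_iff.mp h0
  simp only [hy] at h1
  exact sub_eq_zero.mp h1

/-- The key computation for the interface. -/
theorem interface_algebra {E lam μ : ℂ} {P : Matrix (Fin 2) (Fin 2) ℂ} {x : Fin 2 → ℂ}
    (hμ : 1 < ‖μ‖) (hx : x ≠ 0)
    (h1 : (stepM E lam 0 * (stepM E lam 1 * P)) *ᵥ x = μ⁻¹ • x)
    (h2 : (stepM E lam 1 * (stepM E lam 0 * P)) *ᵥ x = μ • x) :
    (μ + μ⁻¹) ^ 2 = 4 + lam ^ 2 := by
  have hμ0 : μ ≠ 0 := by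
    rintro rfl
    simp at hμ
    linarith
  have hδ : μ - μ⁻¹ ≠ 0 := by
    intro h
    have h3 : μ = μ⁻¹ := sub_eq_zero.mp h
    have h4 : ‖μ‖ = ‖μ‖⁻¹ := by
      rw [← norm_inv, ← h3]
    have h5 : ‖μ‖⁻¹ < 1 := inv_lt_one_of_one_lt₀ hμ
    linarith
  obtain ⟨y, hy⟩ : ∃ y : Fin 2 → ℂ, y = P *ᵥ x := ⟨_, rfl⟩
  rw [← Matrix.mulVec_mulVec, ← Matrix.mulVec_mulVec, ← hy] at h1 h2
  have e1 := congrFun h1 0
  have e2 := congrFun h1 1
  have e3 := congrFun h2 0
  have e4 := congrFun h2 1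
  simp only [stepM, Matrix.mulVec, dotProduct, Fin.sum_univ_two, Matrix.of_apply,
    Matrix.cons_val', Matrix.cons_val_zero, Matrix.cons_val_one, Matrix.cons_val_fin_one,
    Pi.smul_apply, smul_eq_mul, Int.cast_zero, Int.cast_one] at e1 e2 e3 e4
  set ν := μ⁻¹ with hν
  have hμν : μ * ν = 1 := mul_inv_cancel₀ hμ0
  have f1 : lam * y 1 = (μ - ν) * x 0 := by linear_combination e3 - e1
  have f2 : lam * y 0 = (μ - ν) * x 1 := by linear_combination e4 - e2
  by_cases hy0 : y 0 = 0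
  · exfalso
    rw [hy0, mul_zero] at f2
    have hx1 : x 1 = 0 := by
      rcases mul_eq_zero.mp f2.symm with h | h
      · exact absurd h hδ
      · exact h
    have hy1 : y 1 = 0 := by
      rw [hy0, hx1] at e4
      linear_combination -e4
    have hx0 : x 0 = 0 := by
      rw [hy1, mul_zero] at f1
      rcases mul_eq_zero.mp f1.symm with h | h
      · exact absurd h hδ
      · exact h
    apply hx
    ext i
    fin_cases i
    · exact hx0
    · exact hx1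
  · have g1 : (μ - ν) * y 1 = ((μ - ν) * E - μ * lam) * y 0 := by
      linear_combination (-(μ - ν)) * e4 + μ * f2
    have g2 : (μ - ν) ^ 2 * (E * (E - lam) - 1) * y 0
        = ((μ - ν) * E + ν * lam) * ((μ - ν) * y 1) := by
      linear_combination (μ - ν) ^ 2 * e1 - ν * (μ - ν) * f1
    rw [g1] at g2
    have g3 : ((μ - ν) ^ 2 - lam ^ 2) * y 0 = 0 := by
      linear_combination (-1) * g2 + (lam ^ 2) * y 0 * hμν
    rcases mul_eq_zero.mp g3 with h | h
    · linear_combination h + 4 * hμν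
    · exact absurd h hy0

/-- The discriminant at slope `p/q`. -/
noncomputable def dsc (lam : ℝ) (p : ℤ) (q : ℕ) (E : ℝ) : ℝ := (trM E lam (wp p q 0) 1 q).trace

theorem dsc_cast (lam : ℝ) (p : ℤ) (q : ℕ) (E : ℝ) :
    ((dsc lam p q E : ℝ) : ℂ) = (trM (E : ℂ) (lam : ℂ) (wp p q 0) 1 q).trace := by
  unfold dsc
  exact trM_trace_map E lam Complex.ofRealHom (wp p q 0) 1 q

/-- `u` solves the difference equation with potential `lam * W`. -/
def Sol (E lam : ℂ) (W : ℤ → ℤ) (u : ℤ → ℂ) : Prop :=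
  ∀ m : ℤ, u (m + 1) = (E - lam * (W m : ℂ)) * u m - u (m - 1)

theorem Sol.zero {E lam : ℂ} {W : ℤ → ℤ} {u : ℤ → ℂ} (h : Sol E lam W u) {b : ℤ} (h0 : u b = 0)
    (h1 : u (b - 1) = 0) : ∀ m, u m = 0 := by
  have hup : ∀ n : ℕ, u (b + n) = 0 ∧ u (b + n - 1) = 0 := by
    intro n
    induction n with
    | zero => simp [h0, h1]
    | succ n ih =>
      refine ⟨?_, ?_⟩
      · push_cast
        rw [← add_assoc, h (b + n), ih.1, ih.2]
        ring
      · push_cast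
        rw [show b + ((n : ℤ) + 1) - 1 = b + n by ring]
        exact ih.1
  have hdown : ∀ n : ℕ, u (b - n) = 0 ∧ u (b - n - 1) = 0 := by
    intro n
    induction n with
    | zero => simp [h0, h1]
    | succ n ih =>
      have h2 := h (b - n - 1)
      rw [show b - (n : ℤ) - 1 + 1 = b - n by ring, ih.1, ih.2] at h2
      refine ⟨?_, ?_⟩
      · push_cast
        rw [show b - ((n : ℤ) + 1) = b - n - 1 by ring]
        exact ih.2
      · push_cast
        rw [show b - ((n : ℤ) + 1) - 1 = b - n - 1 - 1 by ring]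
        linear_combination h2
  intro m
  rcases le_total b m with hm | hm
  · obtain ⟨n, hn⟩ := Int.eq_ofNat_of_zero_le (sub_nonneg.mpr hm)
    rw [show m = b + n by omega]
    exact (hup n).1
  · obtain ⟨n, hn⟩ := Int.eq_ofNat_of_zero_le (sub_nonneg.mpr hm)
    rw [show m = b - n by omega]
    exact (hdown n).1

theorem Sol.step {E lam : ℂ} {W : ℤ → ℤ} {u : ℤ → ℂ} (h : Sol E lam W u) (a : ℤ) (n : ℕ) :
    trM E lam W a n *ᵥ ![u a, u (a - 1)] = ![u (a + n), u (a + n - 1)] :=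
  trM_mulVec E lam (fun m _ _ => h m)

theorem Sol.rec2 {E lam : ℂ} {W : ℤ → ℤ} {u : ℤ → ℂ} (h : Sol E lam W u) {a : ℤ} {q : ℕ}
    (hper : ∀ m : ℤ, a ≤ m → m < a + q → W (m + q) = W m) {t : ℂ}
    (ht : (trM E lam W a q).trace = t) :
    u (a + 2 * q) = t * u (a + q) - u a ∧ u (a + 2 * q - 1) = t * u (a + q - 1) - u (a - 1) := by
  have h1 := h.step a q
  have h2 := h.step (a + q) q
  have h3 : trM E lam W (a + q) q = trM E lam W a q := by
    refine trM_congr E lam fun i hi => ?_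
    rw [← hper (a + i) (by omega) (by omega)]
    congr 1
    ring
  rw [h3, ← h1, Matrix.mulVec_mulVec, sq_eq _ (trM_det E lam W a q), Matrix.sub_mulVec,
    Matrix.smul_mulVec, h1, Matrix.one_mulVec, ht] at h2
  have e0 := congrFun h2 0
  have e1 := congrFun h2 1
  simp only [Pi.sub_apply, Pi.smul_apply, Matrix.cons_val_zero, Matrix.cons_val_one,
    smul_eq_mul] at e0 e1
  rw [show a + (q : ℤ) + q = a + 2 * q by ring] at e0 e1
  exact ⟨e0.symm, e1.symm⟩

/-- Linear growth. -/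
def LinGrowth (u : ℤ → ℂ) : Prop := ∃ C : ℝ, ∀ m : ℤ, ‖u m‖ ≤ C * (1 + |(m : ℝ)|)

theorem LinGrowth.seq {u : ℤ → ℂ} (h : LinGrowth u) (m s : ℤ) :
    ∃ C : ℝ, ∀ n : ℕ, ‖u (m + n * s)‖ ≤ C * (1 + n) := by
  obtain ⟨C, hC⟩ := h
  have hC0 : 0 ≤ C := by
    have := (norm_nonneg _).trans (hC 0)
    simpa using this
  refine ⟨C * (1 + |(m : ℝ)| + |(s : ℝ)|), fun n => ?_⟩
  refine (hC _).trans ?_
  rw [mul_assoc]
  refine mul_le_mul_of_nonneg_left ?_ hC0
  push_cast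
  have h1 : |(m : ℝ) + n * s| ≤ |(m : ℝ)| + n * |(s : ℝ)| := by
    calc |(m : ℝ) + n * s| ≤ |(m : ℝ)| + |(n : ℝ) * s| := abs_add_le _ _
      _ = _ := by rw [abs_mul, abs_of_nonneg (by positivity : (0:ℝ) ≤ n)]
  have h2 : 0 ≤ |(m : ℝ)| := abs_nonneg _
  have h3 : 0 ≤ |(s : ℝ)| := abs_nonneg _
  have h4 : (0:ℝ) ≤ n := by positivity
  nlinarith [mul_nonneg h2 h4]

theorem periodic_case {lam E : ℝ} {p : ℤ} {q : ℕ} (hq : 0 < q) (hcop : IsCoprime p (q : ℤ))
    {j : ℤ} {u : ℤ → ℂ} (hu : Sol E lam (wp p q j) u) (hg : LinGrowth u) {m₀ : ℤ}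
    (hne : u m₀ ≠ 0) : |dsc lam p q E| ≤ 2 := by
  by_contra hcon
  push Not at hcon
  obtain ⟨μ, hμ, ht⟩ := exists_mu hcon
  have hq' : (0 : ℤ) < q := by exact_mod_cast hq
  have hμc : 1 < ‖(μ : ℂ)‖ := by rw [Complex.norm_real]; exact hμ
  have htc : ((dsc lam p q E : ℝ) : ℂ) = (μ : ℂ) + (μ : ℂ)⁻¹ := by rw [ht]; push_cast; rfl
  have htr : ∀ a, (trM (E : ℂ) (lam : ℂ) (wp p q j) a q).trace = ((dsc lam p q E : ℝ) : ℂ) := by
    intro a
    rw [trace_wp _ _ hq hcop, dsc_cast]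
  have hrec : ∀ a : ℤ, u (a + 2 * q) = ((dsc lam p q E : ℝ) : ℂ) * u (a + q) - u a := fun a =>
    (hu.rec2 (fun m _ _ => wp_add_q hq' j m) (htr a)).1
  obtain ⟨C₁, hC₁⟩ := hg.seq m₀ q
  obtain ⟨C₂, hC₂⟩ := hg.seq m₀ (-q)
  have h1 := scalar_hyp hμc htc (z := fun n : ℕ => u (m₀ + n * q)) (fun n => by
    have := hrec (m₀ + n * q)
    push_cast
    rw [show m₀ + ((n : ℤ) + 2) * q = m₀ + n * q + 2 * q by ring,
      show m₀ + ((n : ℤ) + 1) * q = m₀ + n * q + q by ring]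
    exact this) hC₁
  have h2 := scalar_hyp hμc htc (z := fun n : ℕ => u (m₀ + n * (-(q : ℤ)))) (fun n => by
    have := hrec (m₀ + (n + 2) * (-(q : ℤ)))
    push_cast
    rw [show m₀ + ((n : ℤ) + 2) * -(q : ℤ) + 2 * q = m₀ + n * -(q : ℤ) by ring,
      show m₀ + ((n : ℤ) + 2) * -(q : ℤ) + q = m₀ + (n + 1) * -(q : ℤ) by ring] at this
    linear_combination this) hC₂
  have h3 := hrec (m₀ - q)
  rw [show m₀ - (q : ℤ) + 2 * q = m₀ + q by ring, show m₀ - (q : ℤ) + q = m₀ by ring] at h3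
  simp only [Nat.cast_one, one_mul, Nat.cast_zero, zero_mul, add_zero] at h1 h2
  rw [show m₀ + -(q : ℤ) = m₀ - q by ring] at h2
  rw [h1, h2, htc] at h3
  have h4 : ((μ : ℂ) - (μ : ℂ)⁻¹) * u m₀ = 0 := by linear_combination -h3
  rcases mul_eq_zero.mp h4 with h | h
  · have h5 : (μ : ℂ) = (μ : ℂ)⁻¹ := sub_eq_zero.mp h
    have h6 : ‖(μ : ℂ)‖ = ‖(μ : ℂ)‖⁻¹ := by
      rw [← norm_inv, ← h5]
    have h7 : ‖(μ : ℂ)‖⁻¹ < 1 := inv_lt_one_of_one_lt₀ hμc
    linarith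
  · exact hne h

theorem interface_case {lam E : ℝ} {p : ℤ} {q : ℕ} (hp : 0 < p) (hpq : p < q)
    (hcop : IsCoprime p (q : ℤ)) {W : ℤ → ℤ} (hWl : ∀ m, m ≤ -2 → W m = wp p q (-1) m)
    (hWr : ∀ m, -1 ≤ m → W m = wp p q 0 m)
    {u : ℤ → ℂ} (hu : Sol E lam W u) (hg : LinGrowth u) {m₀ : ℤ}
    (hne : u m₀ ≠ 0) : |dsc lam p q E| ≤ 2 ∨ (dsc lam p q E) ^ 2 = 4 + lam ^ 2 := by
  by_cases hcon : |dsc lam p q E| ≤ 2
  · exact Or.inl hcon
  right
  push Not at hcon
  obtain ⟨μ, hμ, ht⟩ := exists_mu hcon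
  have hq : 0 < q := by omega
  have hq' : (0 : ℤ) < q := by omega
  have hμc : 1 < ‖(μ : ℂ)‖ := by rw [Complex.norm_real]; exact hμ
  have hμ0 : (μ : ℂ) ≠ 0 := by
    intro h
    rw [h] at hμc
    simp at hμc
    linarith
  have htc : ((dsc lam p q E : ℝ) : ℂ) = (μ : ℂ) + (μ : ℂ)⁻¹ := by rw [ht]; push_cast; rfl
  -- the potential is `wp 0` on `m ≥ -q + 1`
  have hWr' : ∀ m : ℤ, -(q : ℤ) + 1 ≤ m → W m = wp p q 0 m := by
    intro m hm
    by_cases h : -1 ≤ m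
    · exact hWr m h
    · rw [hWl m (by omega), ← wp_add_q hq' (-1) m, ← wp_add_q hq' 0 m]
      exact wp_agree hcop (by omega) (by omega)
  set b : ℤ := -(q : ℤ) + 1 with hb
  have hR : ∀ n : ℕ, u (b + n * q + 2 * q) = ((dsc lam p q E : ℝ) : ℂ) * u (b + n * q + q) - u (b + n * q)
      ∧ u (b + n * q + 2 * q - 1) = ((dsc lam p q E : ℝ) : ℂ) * u (b + n * q + q - 1)
        - u (b + n * q - 1) := by
    intro n
    have hnq : (0 : ℤ) ≤ n * q := by positivity
    refine hu.rec2 (fun m h1 _ => ?_) ?_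
    · rw [hWr' (m + q) (by omega), hWr' m (by omega), wp_add_q hq' 0 m]
    · rw [trM_congr _ _ (W' := wp p q 0) (b := b + n * q) (fun i _ => hWr' _ (by omega)),
        trace_wp _ _ hq hcop, dsc_cast]
  have hL : ∀ n : ℕ, u (b - (n + 2) * q + 2 * q)
        = ((dsc lam p q E : ℝ) : ℂ) * u (b - (n + 2) * q + q) - u (b - (n + 2) * q)
      ∧ u (b - (n + 2) * q + 2 * q - 1)
        = ((dsc lam p q E : ℝ) : ℂ) * u (b - (n + 2) * q + q - 1) - u (b - (n + 2) * q - 1) := by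
    intro n
    have hnq : (0 : ℤ) ≤ n * q := by positivity
    have hexp : b - ((n : ℤ) + 2) * q = b - n * q - 2 * q := by ring
    refine hu.rec2 (fun m h1 h2 => ?_) ?_
    · rw [hWl (m + q) (by omega), hWl m (by omega), wp_add_q hq' (-1) m]
    · rw [trM_congr _ _ (W' := wp p q (-1)) (b := b - (n + 2) * q) (fun i hi => hWl _ (by omega)),
        trace_wp _ _ hq hcop, dsc_cast]
  have key : ∀ c : ℤ, (c = b ∨ c = b - 1) → u (c + q) = (μ : ℂ)⁻¹ * u c ∧
      u (c - q) = (μ : ℂ)⁻¹ * u c := by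
    intro c hc
    obtain ⟨C₁, hC₁⟩ := hg.seq c q
    obtain ⟨C₂, hC₂⟩ := hg.seq c (-q)
    have h1 := scalar_hyp hμc htc (z := fun n : ℕ => u (c + n * q)) (fun n => by
      push_cast
      rcases hc with hc | hc
      · have := (hR n).1
        rw [hc, show b + ((n : ℤ) + 2) * q = b + n * q + 2 * q by ring,
          show b + ((n : ℤ) + 1) * q = b + n * q + q by ring]
        exact this
      · have := (hR n).2
        rw [hc, show b - 1 + ((n : ℤ) + 2) * q = b + n * q + 2 * q - 1 by ring,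
          show b - 1 + ((n : ℤ) + 1) * q = b + n * q + q - 1 by ring,
          show b - 1 + (n : ℤ) * q = b + n * q - 1 by ring]
        exact this) hC₁
    have h2 := scalar_hyp hμc htc (z := fun n : ℕ => u (c + n * (-(q : ℤ)))) (fun n => by
      push_cast
      rcases hc with hc | hc
      · have := (hL n).1
        rw [show b - ((n : ℤ) + 2) * q + 2 * q = b - n * q by ring,
          show b - ((n : ℤ) + 2) * q + q = b - (n + 1) * q by ring] at this
        rw [hc, show b + ((n : ℤ) + 2) * -(q : ℤ) = b - (n + 2) * q by ring,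
          show b + ((n : ℤ) + 1) * -(q : ℤ) = b - (n + 1) * q by ring,
          show b + (n : ℤ) * -(q : ℤ) = b - n * q by ring]
        linear_combination this
      · have := (hL n).2
        rw [show b - ((n : ℤ) + 2) * q + 2 * q - 1 = b - n * q - 1 by ring,
          show b - ((n : ℤ) + 2) * q + q - 1 = b - (n + 1) * q - 1 by ring] at this
        rw [hc, show b - 1 + ((n : ℤ) + 2) * -(q : ℤ) = b - (n + 2) * q - 1 by ring,
          show b - 1 + ((n : ℤ) + 1) * -(q : ℤ) = b - (n + 1) * q - 1 by ring,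
          show b - 1 + (n : ℤ) * -(q : ℤ) = b - n * q - 1 by ring]
        linear_combination this) hC₂
    simp only [Nat.cast_one, one_mul, Nat.cast_zero, zero_mul, add_zero] at h1 h2
    exact ⟨h1, h2⟩
  have k0 := key b (Or.inl rfl)
  have k1 := key (b - 1) (Or.inr rfl)
  obtain ⟨n, rfl⟩ : ∃ n : ℕ, q = n + 2 := ⟨q - 2, by omega⟩
  set x : Fin 2 → ℂ := ![u b, u (b - 1)] with hx
  have hx0 : x ≠ 0 := by
    intro h
    have h0 := congrFun h 0
    have h1 := congrFun h 1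
    simp only [hx, Matrix.cons_val_zero, Matrix.cons_val_one, Pi.zero_apply] at h0 h1
    exact hne (hu.zero h0 h1 m₀)
  have hplus : trM (E : ℂ) (lam : ℂ) (wp p ((n + 2 : ℕ) : ℤ) 0) 1 (n + 2) *ᵥ x = (μ : ℂ)⁻¹ • x := by
    have h1 := hu.step b (n + 2)
    rw [trM_congr _ _ (W' := wp p ((n + 2 : ℕ) : ℤ) 0) (b := 1) (fun i _ => by
      rw [hWr' _ (by omega), ← wp_add_q hq' 0 (b + i)]
      congr 1
      rw [hb]
      ring)] at h1
    rw [hx, h1]
    ext i
    fin_cases i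
    · exact k0.1
    · change u (b + ((n + 2 : ℕ) : ℤ) - 1) = (μ : ℂ)⁻¹ * u (b - 1)
      rw [← k1.1]
      congr 1
      ring
  have hminus : trM (E : ℂ) (lam : ℂ) (wp p ((n + 2 : ℕ) : ℤ) (-1)) 1 (n + 2) *ᵥ x = (μ : ℂ) • x := by
    have h1 := hu.step (b - (n + 2 : ℕ)) (n + 2)
    rw [trM_congr _ _ (W' := wp p ((n + 2 : ℕ) : ℤ) (-1)) (b := 1) (fun i _ => by
      rw [hWl _ (by omega), ← wp_add_q hq' (-1) (b - (n + 2 : ℕ) + i),
        ← wp_add_q hq' (-1) (b - (n + 2 : ℕ) + i + (n + 2 : ℕ))]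
      congr 1
      rw [hb]
      ring)] at h1
    rw [show b - ((n + 2 : ℕ) : ℤ) + ((n + 2 : ℕ) : ℤ) = b by ring, k0.2,
      show b - ((n + 2 : ℕ) : ℤ) - 1 = b - 1 - ((n + 2 : ℕ) : ℤ) by ring, k1.2] at h1
    have h2 : (![(μ : ℂ)⁻¹ * u b, (μ : ℂ)⁻¹ * u (b - 1)] : Fin 2 → ℂ) = (μ : ℂ)⁻¹ • x := by
      ext i
      fin_cases i <;> simp [hx]
    rw [h2, Matrix.mulVec_smul] at h1
    rw [← hx] at h1
    calc _ = (μ : ℂ) • ((μ : ℂ)⁻¹ • (trM (E : ℂ) (lam : ℂ) (wp p ((n + 2 : ℕ) : ℤ) (-1)) 1 (n + 2) *ᵥ x)) := by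
          rw [smul_smul, mul_inv_cancel₀ hμ0, one_smul]
      _ = _ := by rw [h1]
  rw [trM_wp_zero _ _ hp hpq] at hplus
  rw [trM_wp_neg _ _ hp hpq hcop] at hminus
  have hfin := interface_algebra hμc hx0 hplus hminus
  rw [← htc] at hfin
  exact_mod_cast hfin

theorem LinGrowth.shift {u : ℤ → ℂ} (h : LinGrowth u) (s : ℤ) :
    LinGrowth (fun m => u (m + s)) := by
  obtain ⟨C, hC⟩ := h
  have hC0 : 0 ≤ C := by
    have := (norm_nonneg _).trans (hC 0)
    simpa using this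
  refine ⟨C * (1 + |(s : ℝ)|), fun m => ?_⟩
  refine (hC _).trans ?_
  rw [mul_assoc]
  refine mul_le_mul_of_nonneg_left ?_ hC0
  push_cast
  have h1 : |(m : ℝ) + s| ≤ |(m : ℝ)| + |(s : ℝ)| := abs_add_le _ _
  have h2 : 0 ≤ |(m : ℝ)| := abs_nonneg _
  have h3 : 0 ≤ |(s : ℝ)| := abs_nonneg _
  nlinarith [mul_nonneg h2 h3]

/-- The height function. -/
def hgt (p : ℤ) (q : ℕ) (κ : ℤ → ℤ) (m : ℤ) : ℤ := (m * p + κ m) / q

theorem limit_case {lam E : ℝ} {p : ℤ} {q : ℕ} (hp : 0 < p) (hpq : p < q)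
    (hcop : IsCoprime p (q : ℤ)) {κ : ℤ → ℤ}
    (hκ : ∀ m m', m ≤ m' → κ m ≤ κ m' ∧ κ m' ≤ κ m + 1)
    {u : ℤ → ℂ} (hu : Sol E lam (fun m => hgt p q κ (m + 1) - hgt p q κ m) u)
    (hg : LinGrowth u) {m₀ : ℤ} (hne : u m₀ ≠ 0) :
    |dsc lam p q E| ≤ 2 ∨ (dsc lam p q E) ^ 2 = 4 + lam ^ 2 := by
  have hq' : (0 : ℤ) < q := by omega
  by_cases hconst : ∀ m, κ m = κ 0
  · left
    have hW : (fun m => hgt p q κ (m + 1) - hgt p q κ m) = wp p q (κ 0) := by
      funext m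
      unfold hgt wp
      rw [hconst m, hconst (m + 1)]
    rw [hW] at hu
    exact periodic_case (by omega) hcop hu hg hne
  · push Not at hconst
    obtain ⟨m₁, hm₁⟩ := hconst
    obtain ⟨a, b, j, ha, hb⟩ : ∃ a b j, κ a = j ∧ κ b = j + 1 := by
      rcases le_total 0 m₁ with h | h
      · have := hκ 0 m₁ h
        exact ⟨0, m₁, κ 0, rfl, by omega⟩
      · have := hκ m₁ 0 h
        exact ⟨m₁, 0, κ m₁, rfl, by omega⟩
    obtain ⟨τ, hτ, hτmin⟩ : ∃ τ, κ τ = j + 1 ∧ ∀ z, κ z = j + 1 → τ ≤ z := by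
      refine Int.exists_least_of_bdd (P := fun z => κ z = j + 1) ⟨a, fun z hz => ?_⟩ ⟨b, hb⟩
      by_contra hcon
      push Not at hcon
      have := hκ z a hcon.le
      omega
    have hlt : ∀ m, m < τ → κ m = j := by
      intro m hm
      have h1 := hκ m τ hm.le
      have h2 : κ m ≠ j + 1 := fun h => absurd (hτmin m h) (by omega)
      omega
    have hge : ∀ m, τ ≤ m → κ m = j + 1 := by
      intro m hm
      have h1 := hκ τ m hm
      by_cases h : τ ≤ a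
      · have h2 := hκ τ a h
        omega
      · have h2 := hκ a m (by omega)
        omega
    obtain ⟨x, y, hxy⟩ := id hcop
    set n₁ : ℤ := τ + ((-(j + 1) * x - τ) % q) with hn₁
    have hr0 := Int.emod_nonneg (-(j + 1) * x - τ) hq'.ne'
    have hr1 := Int.emod_lt_of_pos (-(j + 1) * x - τ) hq'
    obtain ⟨k, hk⟩ : ∃ k, n₁ * p + j + 1 = k * q := by
      have h1 := Int.emod_add_mul_ediv (-(j + 1) * x - τ) q
      refine ⟨(j + 1) * y - p * ((-(j + 1) * x - τ) / q), ?_⟩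
      rw [hn₁]
      linear_combination p * h1 - (j + 1) * hxy
    have hnd : ∀ m, τ ≤ m → m < n₁ → ¬ (q : ℤ) ∣ m * p + (j + 1) := by
      intro m h1 h2 h3
      have h4 : (q : ℤ) ∣ (n₁ - m) * p := by
        have h5 : (n₁ - m) * p = k * q - (m * p + (j + 1)) := by linear_combination hk
        rw [h5]
        exact dvd_sub (Dvd.intro_left k rfl) h3
      exact not_dvd_mul hcop (by omega) (by omega) h4
    have hneg : ∀ m, m < 0 → hgt p q κ (m + n₁) = (m * p + -1) / q + k := by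
      intro m hm
      unfold hgt
      have h1 : (m + n₁) * p + j = (m * p + -1) + k * q := by linear_combination hk
      by_cases h : m + n₁ < τ
      · rw [hlt _ h, h1, Int.add_mul_ediv_right _ _ hq'.ne']
      · rw [hge _ (by omega), ← ediv_sub_one hq' (hnd _ (by omega) (by omega)),
          show (m + n₁) * p + (j + 1) - 1 = (m * p + -1) + k * q by linear_combination hk,
          Int.add_mul_ediv_right _ _ hq'.ne']
    have hpos : ∀ m, 0 ≤ m → hgt p q κ (m + n₁) = (m * p + 0) / q + k := by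
      intro m hm
      unfold hgt
      rw [hge _ (by omega), show (m + n₁) * p + (j + 1) = (m * p + 0) + k * q by
        linear_combination hk, Int.add_mul_ediv_right _ _ hq'.ne']
    refine interface_case (W := fun m => hgt p q κ (m + n₁ + 1) - hgt p q κ (m + n₁))
      (u := fun m => u (m + n₁)) (m₀ := m₀ - n₁) hp hpq hcop ?_ ?_ ?_ (hg.shift n₁) ?_
    · intro m hm
      rw [show m + n₁ + 1 = (m + 1) + n₁ by ring, hneg (m + 1) (by omega), hneg m (by omega)]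
      unfold wp
      ring
    · intro m hm
      by_cases h : 0 ≤ m
      · rw [show m + n₁ + 1 = (m + 1) + n₁ by ring, hpos (m + 1) (by omega), hpos m h]
        unfold wp
        ring
      · have hm1 : m = -1 := by omega
        subst hm1
        rw [show -1 + n₁ + 1 = 0 + n₁ by ring, hpos 0 le_rfl, hneg (-1) (by omega)]
        unfold wp
        have e1 : (-1 * p + -1) / (q : ℤ) = -1 := by
          rw [show -1 * p + -1 = (q - p - 1) + (-1) * (q : ℤ) by ring,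
            Int.add_mul_ediv_right _ _ hq'.ne', Int.ediv_eq_zero_of_lt (by omega) (by omega)]
          ring
        have e2 : (-1 * p + 0) / (q : ℤ) = -1 := by
          rw [show -1 * p + 0 = (q - p) + (-1) * (q : ℤ) by ring,
            Int.add_mul_ediv_right _ _ hq'.ne', Int.ediv_eq_zero_of_lt (by omega) (by omega)]
          ring
        rw [e1, e2]
        norm_num
    · intro m
      have := hu (m + n₁)
      simp only at this ⊢
      rw [show m + 1 + n₁ = m + n₁ + 1 by ring, show m - 1 + n₁ = m + n₁ - 1 by ring]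
      exact this
    · simpa using hne

end Pool.Agent.Helper52
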