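import Mathlib
import Pool.Agent.Helper52.SturmDefs

set_option autoImplicit false

open scoped ENNReal InnerProductSpace

namespace Pool.Agent.Helper52

section Abstract

variable {H : Type*} [NormedAddCommGroup H] [InnerProductSpace ℂ H] [CompleteSpace H]

theorem isUnit_of_bddBelow {T : H →L[ℂ] H} (hT : IsSelfAdjoint T) {c : ℝ} (hc : 0 < c)
    (h : ∀ x, c * ‖x‖ ≤ ‖T x‖) : IsUnit T := by
  rw [ContinuousLinearMap.isUnit_iff_bijective,
    ContinuousLinearMap.bijective_iff_dense_range_and_antilipschitz]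
  refine ⟨?_, ⟨(Real.toNNReal c)⁻¹, T.antilipschitz_of_bound fun x => ?_⟩⟩
  · rw [Submodule.topologicalClosure_eq_top_iff, Submodule.eq_bot_iff]
    intro x hx
    have h1 : T x = 0 := by
      have h2 : ⟪T (T x), x⟫_ℂ = 0 := hx (T (T x)) ⟨T x, rfl⟩
      have h3 : ⟪T (T x), x⟫_ℂ = ⟪T x, T x⟫_ℂ := by
        have := (ContinuousLinearMap.isSelfAdjoint_iff_isSymmetric.mp hT) (T x) x
        simpa using this
      rw [h3] at h2
      exact inner_self_eq_zero.mp h2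
    have h4 := h x
    rw [h1, norm_zero] at h4
    have : ‖x‖ ≤ 0 := by
      by_contra hcon
      push Not at hcon
      have := mul_pos hc hcon
      linarith
    exact norm_le_zero_iff.mp this
  · rw [NNReal.coe_inv, Real.coe_toNNReal c hc.le, inv_mul_eq_div, le_div_iff₀ hc]
    have := h x
    rw [mul_comm] at this
    exact this

theorem isSelfAdjoint_sub_real {T : H →L[ℂ] H} (hT : IsSelfAdjoint T) (E : ℝ) :
    IsSelfAdjoint (T - (E : ℂ) • (1 : H →L[ℂ] H)) := by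
  refine hT.sub ?_
  rw [IsSelfAdjoint, star_smul, star_one]
  congr 1
  exact Complex.conj_ofReal E

theorem not_mem_spectrum_of_bddBelow {T : H →L[ℂ] H} (hT : IsSelfAdjoint T) (E : ℝ) {c : ℝ}
    (hc : 0 < c) (h : ∀ x, c * ‖x‖ ≤ ‖T x - (E : ℂ) • x‖) : (E : ℂ) ∉ spectrum ℂ T := by
  rw [spectrum.notMem_iff, IsUnit.sub_iff, Algebra.algebraMap_eq_smul_one]
  exact isUnit_of_bddBelow (isSelfAdjoint_sub_real hT E) hc (fun x => by simpa using h x)

theorem exists_mem_spectrum_of_approx {T : H →L[ℂ] H} (hT : IsSelfAdjoint T) (E : ℝ) {ε : ℝ}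
    {x : H} (hx : x ≠ 0) (h : ‖T x - (E : ℂ) • x‖ ≤ ε * ‖x‖) :
    ∃ E' : ℝ, (E' : ℂ) ∈ spectrum ℂ T ∧ |E' - E| ≤ ε := by
  have hxpos : 0 < ‖x‖ := norm_pos_iff.mpr hx
  have hε : 0 ≤ ε := by
    by_contra hcon
    push Not at hcon
    have := mul_neg_of_neg_of_pos hcon hxpos
    have := norm_nonneg (T x - (E : ℂ) • x)
    linarith
  by_cases hE : (E : ℂ) ∈ spectrum ℂ T
  · exact ⟨E, hE, by simpa using hε⟩
  · have : Nontrivial H := ⟨x, 0, hx⟩
    set S : H →L[ℂ] H := T - (E : ℂ) • (1 : H →L[ℂ] H) with hS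
    have hSsa : IsSelfAdjoint S := isSelfAdjoint_sub_real hT E
    have hSu : IsUnit S := by
      rw [spectrum.notMem_iff, IsUnit.sub_iff, Algebra.algebraMap_eq_smul_one] at hE
      exact hE
    obtain ⟨u, hu⟩ := hSu
    have hinvsa : IsSelfAdjoint (↑u⁻¹ : H →L[ℂ] H) := by
      have h1 : IsSelfAdjoint (u : H →L[ℂ] H) := hu ▸ hSsa
      have h2 : IsSelfAdjoint u := by
        rw [IsSelfAdjoint]
        ext1
        exact h1
      have h3 : IsSelfAdjoint u⁻¹ := h2.inv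
      rw [IsSelfAdjoint] at h3 ⊢
      exact congrArg Units.val h3
    obtain ⟨k, hk, hknorm⟩ := spectrum.exists_nnnorm_eq_spectralRadius (↑u⁻¹ : H →L[ℂ] H)
    rw [hinvsa.spectralRadius_eq_nnnorm] at hknorm
    have hk2 : ‖k‖ = ‖(↑u⁻¹ : H →L[ℂ] H)‖ := by
      have : ‖k‖₊ = ‖(↑u⁻¹ : H →L[ℂ] H)‖₊ := by exact_mod_cast hknorm
      exact congrArg NNReal.toReal this
    have hSx : S x = T x - (E : ℂ) • x := by simp [hS]
    have h5 : ‖x‖ ≤ ‖k‖ * (ε * ‖x‖) := by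
      have h6 : (↑u⁻¹ : H →L[ℂ] H) (S x) = x := by
        have : ((↑u⁻¹ : H →L[ℂ] H) * (u : H →L[ℂ] H)) x = x := by simp
        rw [← hu]
        exact this
      calc ‖x‖ = ‖(↑u⁻¹ : H →L[ℂ] H) (S x)‖ := by rw [h6]
        _ ≤ ‖(↑u⁻¹ : H →L[ℂ] H)‖ * ‖S x‖ := ContinuousLinearMap.le_opNorm _ _
        _ ≤ ‖k‖ * (ε * ‖x‖) := by
            rw [hk2, hSx]
            exact mul_le_mul_of_nonneg_left h (norm_nonneg _)
    have h7 : 1 ≤ ‖k‖ * ε := by
      have : 1 * ‖x‖ ≤ (‖k‖ * ε) * ‖x‖ := by linarith [h5]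
      exact le_of_mul_le_mul_right this hxpos
    have hk0 : k ≠ 0 := by
      rintro rfl
      simp at h7
      linarith
    have h8 : k⁻¹ ∈ spectrum ℂ S := by
      have := (spectrum.inv_mem_iff (r := Units.mk0 k hk0) (a := u⁻¹)).mp hk
      rw [inv_inv, hu] at this
      exact this
    have h9 : k⁻¹ + (E : ℂ) ∈ spectrum ℂ T := by
      have h10 : T = algebraMap ℂ (H →L[ℂ] H) (E : ℂ) + S := by
        rw [hS, Algebra.algebraMap_eq_smul_one]
        abel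
      rw [h10, spectrum.add_mem_add_iff]
      exact h8
    have h11 := hT.mem_spectrum_eq_re h9
    refine ⟨(k⁻¹ + (E : ℂ)).re, ?_, ?_⟩
    · rw [← h11]
      exact h9
    · have h12 : (((k⁻¹ + (E : ℂ)).re - E : ℝ) : ℂ) = k⁻¹ := by
        push_cast
        rw [← h11]
        ring
      rw [← Real.norm_eq_abs, ← Complex.norm_real, h12, norm_inv]
      have hkpos : 0 < ‖k‖ := norm_pos_iff.mpr hk0
      rw [inv_le_iff_one_le_mul₀ hkpos]
      linarith [mul_comm ‖k‖ ε]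

end Abstract

theorem shiftOp_apply (k : ℤ) (ψ : Ell2) (n : ℤ) : shiftOp k ψ n = ψ (n + k) := rfl

theorem mulOp_apply (V : ℤ → ℝ) (B : ℝ) (hV : ∀ n, |V n| ≤ B) (ψ : Ell2) (n : ℤ) :
    mulOp V B hV ψ n = (V n : ℂ) * ψ n := rfl

theorem shiftOp_inner (k : ℤ) (f g : Ell2) : ⟪shiftOp k f, g⟫_ℂ = ⟪f, shiftOp (-k) g⟫_ℂ := by
  rw [lp.inner_eq_tsum, lp.inner_eq_tsum]
  rw [← (Equiv.addRight k).tsum_eq (fun n => ⟪(f n : ℂ), (shiftOp (-k) g) n⟫_ℂ)]
  refine tsum_congr fun n => ?_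
  simp only [Equiv.coe_addRight, shiftOp_apply]
  congr 2
  ring_nf

theorem mulOp_inner (V : ℤ → ℝ) (B : ℝ) (hV : ∀ n, |V n| ≤ B) (f g : Ell2) :
    ⟪mulOp V B hV f, g⟫_ℂ = ⟪f, mulOp V B hV g⟫_ℂ := by
  rw [lp.inner_eq_tsum, lp.inner_eq_tsum]
  refine tsum_congr fun n => ?_
  simp only [mulOp_apply]
  simp only [RCLike.inner_apply, map_mul, Complex.conj_ofReal]
  ring

theorem ham_selfAdjoint (lam α ω : ℝ) : IsSelfAdjoint (hamI lam α ω) := by
  rw [ContinuousLinearMap.isSelfAdjoint_iff_isSymmetric]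
  intro f g
  change ⟪hamI lam α ω f, g⟫_ℂ = ⟪f, hamI lam α ω g⟫_ℂ
  unfold hamI
  simp only [add_apply, inner_add_left, inner_add_right]
  rw [shiftOp_inner, shiftOp_inner, mulOp_inner, neg_neg]
  ring

theorem norm_shiftOp_le (k : ℤ) : ‖shiftOp k‖ ≤ 1 :=
  LinearMap.mkContinuous_norm_le _ zero_le_one _

theorem norm_hamI_le (lam α ω : ℝ) : ‖hamI lam α ω‖ ≤ 2 + |lam| := by
  unfold hamI
  have h1 := norm_shiftOp_le 1
  have h2 := norm_shiftOp_le (-1)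
  have h3 : ‖mulOp (pot lam α ω) |lam| (pot_bound lam α ω)‖ ≤ |lam| :=
    LinearMap.mkContinuous_norm_le _ (abs_nonneg _) _
  calc _ ≤ ‖shiftOp 1 + shiftOp (-1)‖ + ‖mulOp (pot lam α ω) |lam| (pot_bound lam α ω)‖ :=
        norm_add_le _ _
    _ ≤ (‖shiftOp 1‖ + ‖shiftOp (-1)‖) + ‖mulOp (pot lam α ω) |lam| (pot_bound lam α ω)‖ := by
        gcongr
        exact norm_add_le _ _
    _ ≤ 2 + |lam| := by linarith

instance : Nontrivial Ell2 := by
  refine ⟨lp.single 2 (0 : ℤ) (1 : ℂ), 0, ?_⟩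
  intro h
  have h1 : (lp.single 2 (0 : ℤ) (1 : ℂ) : Ell2) 0 = (0 : Ell2) 0 := by rw [h]
  rw [lp.single_apply_self] at h1
  simp at h1

theorem spec_bound {lam α ω E : ℝ} (h : E ∈ specI lam α ω) : |E| ≤ 2 + |lam| := by
  have h1 := spectrum.norm_le_norm_of_mem (𝕜 := ℂ) h
  rw [Complex.norm_real, Real.norm_eq_abs] at h1
  exact h1.trans (norm_hamI_le lam α ω)

theorem spec_isCompact (lam α ω : ℝ) : IsCompact (specI lam α ω) := by
  have h1 : IsClosed (specI lam α ω) := by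
    have : specI lam α ω = Complex.ofReal ⁻¹' (spectrum ℂ (hamI lam α ω)) := rfl
    rw [this]
    exact (spectrum.isClosed (𝕜 := ℂ) (hamI lam α ω)).preimage Complex.continuous_ofReal
  refine Metric.isCompact_of_isClosed_isBounded h1 ?_
  refine (Metric.isBounded_closedBall (x := (0:ℝ)) (r := 2 + |lam|)).subset ?_
  intro E hE
  rw [Metric.mem_closedBall, dist_zero_right, Real.norm_eq_abs]
  exact spec_bound hE

theorem ell2_summable (ψ : Ell2) : Summable fun n : ℤ => ‖(ψ n : ℂ)‖ ^ 2 := by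
  have h := (lp.memℓp ψ).summable (by norm_num)
  refine h.congr fun n => ?_
  norm_num

theorem ell2_norm_sq (ψ : Ell2) : ‖ψ‖ ^ 2 = ∑' n : ℤ, ‖(ψ n : ℂ)‖ ^ 2 := by
  have h := lp.norm_rpow_eq_tsum (p := 2) (by norm_num) ψ
  norm_num at h
  exact h

/-- The weight function. -/
noncomputable def wt (m : ℤ) : ℝ := 1 / (1 + |(m : ℝ)|) ^ 2

theorem wt_nonneg (m : ℤ) : 0 ≤ wt m := by unfold wt; positivity

theorem summable_wt : Summable wt := by
  have h1 : Summable fun n : ℕ => 1 / (((n + 1 : ℕ) : ℝ)) ^ 2 :=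
    (summable_nat_add_iff (f := fun n : ℕ => 1 / ((n : ℝ)) ^ 2) 1).mpr
      (Real.summable_one_div_nat_pow.mpr (by norm_num))
  refine Summable.of_nat_of_neg ?_ ?_
  · refine h1.congr fun n => ?_
    unfold wt
    push_cast
    rw [abs_of_nonneg (by positivity : (0:ℝ) ≤ n)]
    ring
  · refine h1.congr fun n => ?_
    unfold wt
    push_cast
    rw [abs_neg, abs_of_nonneg (by positivity : (0:ℝ) ≤ n)]
    ring

/-- A constant, large enough. -/
noncomputable def K0 : ℝ := 2 + 2 * ∑' m, wt m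

theorem K0_pos : 0 < K0 := by
  unfold K0
  have : 0 ≤ ∑' m, wt m := tsum_nonneg wt_nonneg
  linarith

theorem sum_wt_le (F : Finset ℤ) : ∑ m ∈ F, wt m / K0 ^ 2 ≤ 1 / 2 := by
  rw [← Finset.sum_div]
  have h1 : ∑ m ∈ F, wt m ≤ ∑' m, wt m := summable_wt.sum_le_tsum F (fun m _ => wt_nonneg m)
  have h0 : 0 ≤ ∑' m, wt m := tsum_nonneg wt_nonneg
  rw [div_le_div_iff₀ (by have := K0_pos; positivity) (by norm_num)]
  unfold K0
  nlinarith

theorem window_not_mem (N : ℕ) (lam α ω E : ℝ)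
    (h : ∀ j : ℤ, ∀ ψ : ℤ → ℂ, ‖ψ 0‖ = 1 → (∀ m : ℤ, |m| ≤ N → ‖ψ m‖ ≤ K0 * (1 + |(m : ℝ)|)) →
      (∀ m : ℤ, |m| ≤ N →
        ‖ψ (m + 1) + ψ (m - 1) + (pot lam α ω (m + j) : ℂ) * ψ m - (E : ℂ) * ψ m‖ ≤ 1 / (N + 1)) →
      False) :
    E ∉ specI lam α ω := by
  set F : Finset ℤ := Finset.Icc (-(N : ℤ)) N with hF
  have hFmem : ∀ m : ℤ, m ∈ F ↔ |m| ≤ N := by
    intro m
    rw [hF, Finset.mem_Icc, abs_le]
  set D : ℝ := ((N : ℝ) + 1) ^ 2 * F.card with hD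
  have hFpos : 0 < (F.card : ℝ) := by
    have : 0 < F.card := Finset.card_pos.mpr ⟨0, (hFmem 0).mpr (by simp)⟩
    exact_mod_cast this
  have hDpos : 0 < D := by positivity
  refine not_mem_spectrum_of_bddBelow (ham_selfAdjoint lam α ω) E
    (c := Real.sqrt (1 / (2 * D))) (Real.sqrt_pos.mpr (by positivity)) ?_
  intro ψ
  set e : Ell2 := hamI lam α ω ψ - (E : ℂ) • ψ with he
  have he_apply : ∀ n : ℤ, e n = ψ (n + 1) + ψ (n - 1) + (pot lam α ω n : ℂ) * ψ n - (E : ℂ) * ψ n := by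
    intro n
    rw [he]
    rfl
  -- pointwise inequality
  have hpt : ∀ j : ℤ, ‖(ψ j : ℂ)‖ ^ 2 ≤ ∑ m ∈ F, wt m / K0 ^ 2 * ‖(ψ (j + m) : ℂ)‖ ^ 2
      + ((N : ℝ) + 1) ^ 2 * ∑ m ∈ F, ‖(e (j + m) : ℂ)‖ ^ 2 := by
    intro j
    have hs1 : 0 ≤ ∑ m ∈ F, wt m / K0 ^ 2 * ‖(ψ (j + m) : ℂ)‖ ^ 2 :=
      Finset.sum_nonneg fun m _ => by have := wt_nonneg m; positivity
    have hs2 : 0 ≤ ((N : ℝ) + 1) ^ 2 * ∑ m ∈ F, ‖(e (j + m) : ℂ)‖ ^ 2 := by positivity
    by_cases h0 : (ψ j : ℂ) = 0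
    · rw [h0]
      simp only [norm_zero]
      linarith [sq_nonneg (0:ℝ)]
    have hnpos : 0 < ‖(ψ j : ℂ)‖ := norm_pos_iff.mpr h0
    by_contra hcon
    push Not at hcon
    refine h j (fun m => (ψ (m + j) : ℂ) / ‖(ψ j : ℂ)‖) ?_ ?_ ?_
    · simp [h0]
    · intro m hm
      have h1 : wt m / K0 ^ 2 * ‖(ψ (j + m) : ℂ)‖ ^ 2 < ‖(ψ j : ℂ)‖ ^ 2 := by
        have := Finset.single_le_sum (f := fun m => wt m / K0 ^ 2 * ‖(ψ (j + m) : ℂ)‖ ^ 2)
          (fun m _ => by have := wt_nonneg m; positivity) ((hFmem m).mpr hm)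
        simp only at this
        linarith
      have hK := K0_pos
      have habs : 0 < 1 + |(m : ℝ)| := by positivity
      have h2 : ‖(ψ (j + m) : ℂ)‖ ^ 2 ≤ (K0 * (1 + |(m : ℝ)|) * ‖(ψ j : ℂ)‖) ^ 2 := by
        have h3 : wt m / K0 ^ 2 * ‖(ψ (j + m) : ℂ)‖ ^ 2
            = ‖(ψ (j + m) : ℂ)‖ ^ 2 / (K0 * (1 + |(m : ℝ)|)) ^ 2 := by
          unfold wt
          field_simp
        rw [h3, div_lt_iff₀ (by positivity)] at h1
        calc ‖(ψ (j + m) : ℂ)‖ ^ 2 ≤ ‖(ψ j : ℂ)‖ ^ 2 * (K0 * (1 + |(m : ℝ)|)) ^ 2 := h1.le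
          _ = _ := by ring
      have h4 := abs_le_of_sq_le_sq' h2 (by positivity)
      simp only [norm_div, Complex.norm_real, norm_norm]
      rw [div_le_iff₀ hnpos, add_comm m j]
      exact h4.2
    · intro m hm
      have h1 : ((N : ℝ) + 1) ^ 2 * ‖(e (j + m) : ℂ)‖ ^ 2 < ‖(ψ j : ℂ)‖ ^ 2 := by
        have := Finset.single_le_sum (f := fun m => ‖(e (j + m) : ℂ)‖ ^ 2)
          (fun m _ => by positivity) ((hFmem m).mpr hm)
        simp only at this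
        have h5 : ((N : ℝ) + 1) ^ 2 * ‖(e (j + m) : ℂ)‖ ^ 2
            ≤ ((N : ℝ) + 1) ^ 2 * ∑ m ∈ F, ‖(e (j + m) : ℂ)‖ ^ 2 :=
          mul_le_mul_of_nonneg_left this (by positivity)
        linarith
      have h2 : (((N : ℝ) + 1) * ‖(e (j + m) : ℂ)‖) ^ 2 ≤ ‖(ψ j : ℂ)‖ ^ 2 := by
        rw [mul_pow]
        exact h1.le
      have h4 := (abs_le_of_sq_le_sq' h2 (by positivity)).2
      have h6 : (ψ (m + 1 + j) : ℂ) / ‖(ψ j : ℂ)‖ + (ψ (m - 1 + j) : ℂ) / ‖(ψ j : ℂ)‖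
          + (pot lam α ω (m + j) : ℂ) * ((ψ (m + j) : ℂ) / ‖(ψ j : ℂ)‖)
          - (E : ℂ) * ((ψ (m + j) : ℂ) / ‖(ψ j : ℂ)‖) = e (j + m) / ‖(ψ j : ℂ)‖ := by
        rw [he_apply, add_comm j m, show m + 1 + j = m + j + 1 by ring,
          show m - 1 + j = m + j - 1 by ring]
        ring
      rw [h6, norm_div, Complex.norm_real, norm_norm, div_le_div_iff₀ hnpos (by positivity)]
      linarith
  -- sum over j
  have ha := ell2_summable ψ
  have hb := ell2_summable e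
  have hashift : ∀ m : ℤ, Summable fun j : ℤ => ‖(ψ (j + m) : ℂ)‖ ^ 2 := fun m =>
    (Equiv.addRight m).summable_iff.mpr ha
  have hbshift : ∀ m : ℤ, Summable fun j : ℤ => ‖(e (j + m) : ℂ)‖ ^ 2 := fun m =>
    (Equiv.addRight m).summable_iff.mpr hb
  have hatsum : ∀ m : ℤ, ∑' j : ℤ, ‖(ψ (j + m) : ℂ)‖ ^ 2 = ‖ψ‖ ^ 2 := fun m => by
    rw [ell2_norm_sq]
    exact (Equiv.addRight m).tsum_eq (fun j : ℤ => ‖(ψ j : ℂ)‖ ^ 2)
  have hbtsum : ∀ m : ℤ, ∑' j : ℤ, ‖(e (j + m) : ℂ)‖ ^ 2 = ‖e‖ ^ 2 := fun m => by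
    rw [ell2_norm_sq]
    exact (Equiv.addRight m).tsum_eq (fun j : ℤ => ‖(e j : ℂ)‖ ^ 2)
  have hsumR1 : Summable fun j : ℤ => ∑ m ∈ F, wt m / K0 ^ 2 * ‖(ψ (j + m) : ℂ)‖ ^ 2 :=
    summable_sum fun m _ => (hashift m).mul_left _
  have hsumR2 : Summable fun j : ℤ => ((N : ℝ) + 1) ^ 2 * ∑ m ∈ F, ‖(e (j + m) : ℂ)‖ ^ 2 :=
    (summable_sum fun m _ => hbshift m).mul_left _
  have hmain : ‖ψ‖ ^ 2 ≤ (∑ m ∈ F, wt m / K0 ^ 2) * ‖ψ‖ ^ 2 + D * ‖e‖ ^ 2 := by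
    calc ‖ψ‖ ^ 2 = ∑' j : ℤ, ‖(ψ j : ℂ)‖ ^ 2 := ell2_norm_sq ψ
      _ ≤ ∑' j : ℤ, (∑ m ∈ F, wt m / K0 ^ 2 * ‖(ψ (j + m) : ℂ)‖ ^ 2
          + ((N : ℝ) + 1) ^ 2 * ∑ m ∈ F, ‖(e (j + m) : ℂ)‖ ^ 2) :=
        Summable.tsum_le_tsum hpt ha (hsumR1.add hsumR2)
      _ = ∑' j : ℤ, (∑ m ∈ F, wt m / K0 ^ 2 * ‖(ψ (j + m) : ℂ)‖ ^ 2)
          + ∑' j : ℤ, ((N : ℝ) + 1) ^ 2 * ∑ m ∈ F, ‖(e (j + m) : ℂ)‖ ^ 2 :=
        hsumR1.tsum_add hsumR2
      _ = (∑ m ∈ F, wt m / K0 ^ 2) * ‖ψ‖ ^ 2 + D * ‖e‖ ^ 2 := by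
        congr 1
        · rw [Summable.tsum_finsetSum (fun m _ => (hashift m).mul_left _), Finset.sum_mul]
          refine Finset.sum_congr rfl fun m _ => ?_
          rw [tsum_mul_left, hatsum]
        · rw [tsum_mul_left, Summable.tsum_finsetSum (fun m _ => hbshift m)]
          rw [Finset.sum_congr rfl fun m _ => hbtsum m, Finset.sum_const, hD, nsmul_eq_mul]
          ring
  have hhalf := sum_wt_le F
  have hfin : ‖ψ‖ ^ 2 ≤ 2 * D * ‖e‖ ^ 2 := by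
    have : (∑ m ∈ F, wt m / K0 ^ 2) * ‖ψ‖ ^ 2 ≤ 1 / 2 * ‖ψ‖ ^ 2 :=
      mul_le_mul_of_nonneg_right hhalf (by positivity)
    linarith
  have hfin2 : (Real.sqrt (1 / (2 * D)) * ‖ψ‖) ^ 2 ≤ ‖e‖ ^ 2 := by
    rw [mul_pow, Real.sq_sqrt (by positivity)]
    rw [div_mul_eq_mul_div, one_mul, div_le_iff₀ (by positivity)]
    linarith
  exact (abs_le_of_sq_le_sq' hfin2 (norm_nonneg _)).2

/-- The truncation of a function to `[a, a+n)`. -/
noncomputable def trunc (u : ℤ → ℂ) (a : ℤ) (n : ℕ) (m : ℤ) : ℂ :=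
  if a ≤ m ∧ m < a + n then u m else 0

theorem trunc_memlp (u : ℤ → ℂ) (a : ℤ) (n : ℕ) : Memℓp (trunc u a n) 2 := by
  refine memℓp_gen ?_
  refine summable_of_hasFiniteSupport ?_
  refine (Set.finite_Ico a (a + n)).subset ?_
  intro m hm
  rw [Function.mem_support] at hm
  by_contra hcon
  apply hm
  unfold trunc
  rw [if_neg (fun h => hcon ⟨h.1, h.2⟩)]
  norm_num

/-- The truncation as an element of the Hilbert space. -/
noncomputable def truncL (u : ℤ → ℂ) (a : ℤ) (n : ℕ) : Ell2 := ⟨trunc u a n, trunc_memlp u a n⟩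

theorem truncL_apply (u : ℤ → ℂ) (a : ℤ) (n : ℕ) (m : ℤ) : truncL u a n m = trunc u a n m := rfl

theorem truncL_norm_sq (u : ℤ → ℂ) (a : ℤ) (n : ℕ) :
    ‖truncL u a n‖ ^ 2 = ∑ i ∈ Finset.range n, ‖u (a + i)‖ ^ 2 := by
  rw [ell2_norm_sq]
  rw [tsum_eq_sum (s := Finset.Ico a (a + n))]
  · have : Finset.Ico a (a + n) = (Finset.range n).image (fun i : ℕ => a + (i : ℤ)) := by
      ext m
      simp only [Finset.mem_Ico, Finset.mem_image, Finset.mem_range]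
      constructor
      · rintro ⟨h1, h2⟩
        exact ⟨(m - a).toNat, by omega, by omega⟩
      · rintro ⟨i, hi, rfl⟩
        omega
    rw [this, Finset.sum_image (by intro i _ j _ h; simpa using h)]
    refine Finset.sum_congr rfl fun i hi => ?_
    rw [Finset.mem_range] at hi
    rw [truncL_apply, trunc, if_pos (by omega)]
  · intro m hm
    rw [Finset.mem_Ico] at hm
    rw [truncL_apply, trunc, if_neg hm]
    simp

theorem trial_error (lam α ω E : ℝ) (u : ℤ → ℂ) (a : ℤ) (n : ℕ) (hn : 2 ≤ n)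
    (hu : ∀ m : ℤ, a ≤ m → m < a + n →
      u (m + 1) + u (m - 1) + (pot lam α ω m : ℂ) * u m = (E : ℂ) * u m) :
    ‖hamI lam α ω (truncL u a n) - (E : ℂ) • truncL u a n‖ ^ 2
      ≤ ‖u (a - 1)‖ ^ 2 + ‖u a‖ ^ 2 + ‖u (a + n - 1)‖ ^ 2 + ‖u (a + n)‖ ^ 2 := by
  set e : Ell2 := hamI lam α ω (truncL u a n) - (E : ℂ) • truncL u a n with he
  have he_apply : ∀ m : ℤ, e m = trunc u a n (m + 1) + trunc u a n (m - 1)
      + (pot lam α ω m : ℂ) * trunc u a n m - (E : ℂ) * trunc u a n m := by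
    intro m
    rw [he]
    rfl
  have hval : ∀ m : ℤ, m ≠ a - 1 → m ≠ a → m ≠ a + n - 1 → m ≠ a + n → e m = 0 := by
    intro m h1 h2 h3 h4
    rw [he_apply]
    by_cases hm : a ≤ m ∧ m < a + n
    · have h5 := hu m hm.1 hm.2
      unfold trunc
      rw [if_pos (by omega), if_pos (by omega), if_pos (by omega)]
      linear_combination h5
    · unfold trunc
      rw [if_neg (by omega), if_neg (by omega), if_neg (by omega)]
      ring
  have h1 : e (a - 1) = u a := by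
    rw [he_apply]
    unfold trunc
    rw [if_pos (by omega), if_neg (by omega), if_neg (by omega)]
    rw [show a - 1 + 1 = a by ring]
    ring
  have h2 : e a = - u (a - 1) := by
    rw [he_apply]
    have h5 := hu a le_rfl (by omega)
    unfold trunc
    rw [if_pos (by omega), if_neg (by omega), if_pos (by omega)]
    linear_combination h5
  have h3 : e (a + n - 1) = - u (a + n) := by
    rw [he_apply]
    have h5 := hu (a + n - 1) (by omega) (by omega)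
    unfold trunc
    rw [if_neg (by omega), if_pos (by omega), if_pos (by omega)]
    rw [show a + (n : ℤ) - 1 + 1 = a + n by ring] at h5
    linear_combination h5
  have h4 : e (a + n) = u (a + n - 1) := by
    rw [he_apply]
    unfold trunc
    rw [if_neg (by omega), if_pos (by omega), if_neg (by omega)]
    ring
  rw [ell2_norm_sq, tsum_eq_sum (s := {a - 1, a, a + n - 1, a + n})]
  · rw [Finset.sum_insert, Finset.sum_insert, Finset.sum_insert, Finset.sum_singleton, h1, h2, h3,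
      h4, norm_neg, norm_neg]
    · linarith
    · simp
    · simp only [Finset.mem_insert, Finset.mem_singleton, not_or]
      omega
    · simp only [Finset.mem_insert, Finset.mem_singleton, not_or]
      omega
  · intro m hm
    simp only [Finset.mem_insert, Finset.mem_singleton, not_or] at hm
    rw [hval m hm.1 hm.2.1 hm.2.2.1 hm.2.2.2]
    simp

end Pool.Agent.Helper52
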