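import Mathlib
import Pool.Agent.Helper52.SturmHyp
import Pool.Agent.Helper52.SturmOp

set_option autoImplicit false

open Filter Topology

namespace Pool.Agent.Helper52

theorem pot_eq {lam α ω : ℝ} (h0 : 0 < α) (h1 : α < 1) (m : ℤ) :
    pot lam α ω m = lam * ((⌊ω + (m + 1 : ℤ) * α⌋ - ⌊ω + m * α⌋ : ℤ) : ℝ) := by
  have hx := Int.floor_add_fract (ω + m * α)
  have hf0 := Int.fract_nonneg (ω + m * α)
  have hf1 := Int.fract_lt_one (ω + m * α)
  unfold pot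
  by_cases h : 1 - α ≤ Int.fract (ω + m * α)
  · rw [if_pos ⟨h, hf1⟩]
    have : ⌊ω + (m + 1 : ℤ) * α⌋ = ⌊ω + m * α⌋ + 1 := by
      rw [Int.floor_eq_iff]
      push_cast
      constructor <;> nlinarith
    rw [this]
    simp
  · rw [if_neg (fun h' => h h'.1)]
    push Not at h
    have : ⌊ω + (m + 1 : ℤ) * α⌋ = ⌊ω + m * α⌋ := by
      rw [Int.floor_eq_iff]
      push_cast
      constructor <;> nlinarith
    rw [this]
    simp

theorem pot_shift (lam α ω : ℝ) (m j : ℤ) : pot lam α ω (m + j) = pot lam α (ω + j * α) m := by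
  unfold pot
  have : ω + ((m + j : ℤ) : ℝ) * α = ω + j * α + m * α := by push_cast; ring
  rw [this]

/-- The slowly varying phase. -/
noncomputable def kap (p : ℤ) (q : ℕ) (α ω : ℝ) (m : ℤ) : ℤ :=
  ⌊(q : ℝ) * Int.fract ω + m * (q * α - p)⌋

theorem floor_eq_hgt {p : ℤ} {q : ℕ} (hq : 0 < q) (α ω : ℝ) (m : ℤ) :
    ⌊ω + m * α⌋ = hgt p q (kap p q α ω) m + ⌊ω⌋ := by
  have hq' : (0 : ℝ) < q := by exact_mod_cast hq
  have h1 : ω + m * α = (((m * p : ℤ) : ℝ) + ((q : ℝ) * Int.fract ω + m * (q * α - p))) / (q : ℕ)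
      + (⌊ω⌋ : ℤ) := by
    have := Int.floor_add_fract ω
    push_cast
    field_simp
    linear_combination (-(q : ℝ)) * this
  rw [h1, Int.floor_add_intCast, Int.floor_div_natCast, Int.floor_intCast_add]
  rfl

theorem pot_eq_hgt {lam α ω : ℝ} {p : ℤ} {q : ℕ} (hq : 0 < q) (h0 : 0 < α) (h1 : α < 1) (m : ℤ) :
    pot lam α ω m
      = lam * ((hgt p q (kap p q α ω) (m + 1) - hgt p q (kap p q α ω) m : ℤ) : ℝ) := by
  rw [pot_eq h0 h1, floor_eq_hgt (p := p) hq, floor_eq_hgt (p := p) hq]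
  push_cast
  ring

theorem kap_mono {p : ℤ} {q : ℕ} {α : ℝ} (ω : ℝ) (h : 0 < q * α - p) {m m' : ℤ} (hm : m ≤ m') :
    kap p q α ω m ≤ kap p q α ω m' := by
  unfold kap
  refine Int.floor_le_floor ?_
  have : (m : ℝ) ≤ m' := by exact_mod_cast hm
  nlinarith

theorem kap_le_succ {p : ℤ} {q : ℕ} {α : ℝ} (ω : ℝ) {m m' : ℤ}
    (h : ((m' : ℝ) - m) * (q * α - p) ≤ 1) :
    kap p q α ω m' ≤ kap p q α ω m + 1 := by
  unfold kap
  rw [← Int.floor_add_one]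
  refine Int.floor_le_floor ?_
  linarith

theorem kap_bound {p : ℤ} {q : ℕ} {α : ℝ} (ω : ℝ) {m : ℤ}
    (h : |(m : ℝ) * (q * α - p)| ≤ 1) :
    kap p q α ω m ∈ Set.Icc (-1 : ℤ) (q + 1) := by
  have h0 := Int.fract_nonneg ω
  have h1 := Int.fract_lt_one ω
  have hq : (0 : ℝ) ≤ q := by positivity
  have h2 := abs_le.mp h
  unfold kap
  constructor
  · rw [Int.le_floor]
    push_cast
    nlinarith
  · rw [← Int.lt_add_one_iff, Int.floor_lt]
    push_cast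
    nlinarith

theorem ultra_int {F : Ultrafilter ℕ} {f : ℕ → ℤ} {a b : ℤ} (h : ∀ᶠ N in (F : Filter ℕ), f N ∈ Set.Icc a b) :
    ∃ c, ∀ᶠ N in (F : Filter ℕ), f N = c := by
  have h1 : ∀ᶠ N in (F : Filter ℕ), ∃ c ∈ Set.Icc a b, f N = c := by
    filter_upwards [h] with N hN
    exact ⟨f N, hN, rfl⟩
  rw [Ultrafilter.eventually_exists_mem_iff (Set.finite_Icc a b)] at h1
  obtain ⟨c, -, hc⟩ := h1
  exact ⟨c, hc⟩

theorem ultra_lim {X : Type*} [TopologicalSpace X] {F : Ultrafilter ℕ} {f : ℕ → X} {s : Set X}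
    (hs : IsCompact s) (h : ∀ᶠ N in (F : Filter ℕ), f N ∈ s) :
    ∃ c ∈ s, Tendsto f (F : Filter ℕ) (𝓝 c) := by
  have h1 : s ∈ F.map f := h
  obtain ⟨c, hc, hle⟩ := hs.ultrafilter_le_nhds' (F.map f) h1
  exact ⟨c, hc, hle⟩

theorem compactness {lam R : ℝ} {p : ℤ} {q : ℕ} (hp : 0 < p) (hpq : p < q)
    (hcop : IsCoprime p (q : ℤ)) (α ω E : ℕ → ℝ) (ψ : ℕ → ℤ → ℂ)
    (hα0 : ∀ N, 0 < α N) (hα1 : ∀ N, α N < 1)
    (hα : ∀ N : ℕ, 0 < α N - (p : ℝ) / q ∧ α N - (p : ℝ) / q < 1 / ((N : ℝ) + 1))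
    (hE : ∀ N, |E N| ≤ R) (h0 : ∀ N, ‖ψ N 0‖ = 1)
    (hg : ∀ N : ℕ, ∀ m : ℤ, |m| ≤ N → ‖ψ N m‖ ≤ K0 * (1 + |(m : ℝ)|))
    (he : ∀ N : ℕ, ∀ m : ℤ, |m| ≤ N → ‖ψ N (m + 1) + ψ N (m - 1)
      + (pot lam (α N) (ω N) m : ℂ) * ψ N m - (E N : ℂ) * ψ N m‖ ≤ 1 / (N + 1)) :
    ∃ E' : ℝ, (|dsc lam p q E'| ≤ 2 ∨ (dsc lam p q E') ^ 2 = 4 + lam ^ 2) ∧
      ∀ ε : ℝ, 0 < ε → ∃ N, |E N - E'| < ε := by
  have hq : 0 < q := by omega
  have hqr : (0 : ℝ) < q := by exact_mod_cast hq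
  set F : Ultrafilter ℕ := hyperfilter ℕ with hF
  have hFat : (F : Filter ℕ) ≤ atTop := Nat.hyperfilter_le_atTop
  -- closeness
  have hδ : ∀ N : ℕ, 0 < q * α N - p ∧ q * α N - p < q / ((N : ℝ) + 1) := by
    intro N
    have h1 := hα N
    have h2 : (q : ℝ) * (α N - (p : ℝ) / q) = q * α N - p := by field_simp
    rw [← h2]
    refine ⟨mul_pos hqr h1.1, ?_⟩
    calc (q : ℝ) * (α N - (p : ℝ) / q) < q * (1 / ((N : ℝ) + 1)) :=
          mul_lt_mul_of_pos_left h1.2 hqr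
      _ = _ := by ring
  have hsmall : ∀ C : ℝ, ∀ᶠ N in (F : Filter ℕ), |C| * (q * α N - p) ≤ 1 := by
    intro C
    have h1 : ∀ᶠ N : ℕ in atTop, |C| * q ≤ N := tendsto_natCast_atTop_atTop.eventually_ge_atTop _
    filter_upwards [hFat h1] with N hN
    have h2 := hδ N
    have h3 : (0 : ℝ) < (N : ℝ) + 1 := by positivity
    calc |C| * (q * α N - p) ≤ |C| * (q / ((N : ℝ) + 1)) :=
          mul_le_mul_of_nonneg_left h2.2.le (abs_nonneg _)
      _ = (|C| * q) / ((N : ℝ) + 1) := by ring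
      _ ≤ 1 := by rw [div_le_one h3]; linarith
  -- limit of the energies
  obtain ⟨E', -, hE'⟩ := ultra_lim (F := F) (f := E) (isCompact_Icc (a := -R) (b := R))
    (Eventually.of_forall fun N => abs_le.mp (hE N))
  -- limit of the functions
  have hψ : ∀ m : ℤ, ∃ c, c ∈ Metric.closedBall (0 : ℂ) (K0 * (1 + |(m : ℝ)|)) ∧
      Tendsto (fun N => ψ N m) (F : Filter ℕ) (𝓝 c) := by
    intro m
    refine ultra_lim (isCompact_closedBall _ _) ?_
    have h1 : ∀ᶠ N : ℕ in atTop, m.natAbs ≤ N := eventually_ge_atTop _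
    filter_upwards [hFat h1] with N hN
    rw [mem_closedBall_zero_iff]
    exact hg N m (by rw [Int.abs_eq_natAbs]; exact_mod_cast hN)
  choose u hu_mem hu_lim using hψ
  -- limit of the phases
  have hκ : ∀ m : ℤ, ∃ c, ∀ᶠ N in (F : Filter ℕ), kap p q (α N) (ω N) m = c := by
    intro m
    refine ultra_int (a := -1) (b := q + 1) ?_
    filter_upwards [hsmall (m : ℝ)] with N hN
    refine kap_bound _ ?_
    rw [abs_mul, abs_of_pos (hδ N).1]
    exact hN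
  choose κ hκ_ev using hκ
  have hκ_prop : ∀ m m', m ≤ m' → κ m ≤ κ m' ∧ κ m' ≤ κ m + 1 := by
    intro m m' hm
    have hev : ∀ᶠ N in (F : Filter ℕ), κ m ≤ κ m' ∧ κ m' ≤ κ m + 1 := by
      filter_upwards [hκ_ev m, hκ_ev m', hsmall ((m' : ℝ) - m)] with N h1 h2 h3
      rw [← h1, ← h2]
      refine ⟨kap_mono _ (hδ N).1 hm, kap_le_succ _ ?_⟩
      refine le_trans ?_ h3
      exact mul_le_mul_of_nonneg_right (le_abs_self _) (hδ N).1.le
    obtain ⟨N, hN⟩ := hev.exists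
    exact hN
  -- the limit equation
  have hsol : Sol (E' : ℂ) (lam : ℂ) (fun m => hgt p q κ (m + 1) - hgt p q κ m) u := by
    intro m
    have hlim : Tendsto (fun N => ψ N (m + 1) + ψ N (m - 1)
        + (pot lam (α N) (ω N) m : ℂ) * ψ N m - (E N : ℂ) * ψ N m) (F : Filter ℕ)
        (𝓝 (u (m + 1) + u (m - 1)
          + ((lam : ℂ) * ((hgt p q κ (m + 1) - hgt p q κ m : ℤ) : ℂ)) * u m - (E' : ℂ) * u m)) := by
      have hpot : Tendsto (fun N => (pot lam (α N) (ω N) m : ℂ)) (F : Filter ℕ)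
          (𝓝 ((lam : ℂ) * ((hgt p q κ (m + 1) - hgt p q κ m : ℤ) : ℂ))) := by
        refine tendsto_const_nhds.congr' ?_
        filter_upwards [hκ_ev m, hκ_ev (m + 1)] with N h1 h2
        rw [pot_eq_hgt (p := p) hq (hα0 N) (hα1 N)]
        unfold hgt
        rw [h1, h2]
        push_cast
        rfl
      have hEc : Tendsto (fun N => (E N : ℂ)) (F : Filter ℕ) (𝓝 (E' : ℂ)) :=
        (Complex.continuous_ofReal.tendsto E').comp hE'
      exact (((hu_lim (m + 1)).add (hu_lim (m - 1))).add (hpot.mul (hu_lim m))).sub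
        (hEc.mul (hu_lim m))
    have hzero : Tendsto (fun N => ψ N (m + 1) + ψ N (m - 1)
        + (pot lam (α N) (ω N) m : ℂ) * ψ N m - (E N : ℂ) * ψ N m) (F : Filter ℕ) (𝓝 0) := by
      rw [tendsto_zero_iff_norm_tendsto_zero]
      have h1 : Tendsto (fun N : ℕ => 1 / ((N : ℝ) + 1)) (F : Filter ℕ) (𝓝 0) :=
        tendsto_one_div_add_atTop_nhds_zero_nat.mono_left hFat
      refine squeeze_zero' (Eventually.of_forall fun N => norm_nonneg _) ?_ h1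
      have h2 : ∀ᶠ N : ℕ in atTop, m.natAbs ≤ N := eventually_ge_atTop _
      filter_upwards [hFat h2] with N hN
      exact he N m (by rw [Int.abs_eq_natAbs]; exact_mod_cast hN)
    have := tendsto_nhds_unique hlim hzero
    linear_combination this
  have hgrow : LinGrowth u := ⟨K0, fun m => by
    have := hu_mem m
    rwa [mem_closedBall_zero_iff] at this⟩
  have hu0 : u 0 ≠ 0 := by
    have h1 : Tendsto (fun N => ‖ψ N 0‖) (F : Filter ℕ) (𝓝 ‖u 0‖) := (hu_lim 0).norm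
    have h2 : Tendsto (fun N => ‖ψ N 0‖) (F : Filter ℕ) (𝓝 1) := by
      simp only [h0]
      exact tendsto_const_nhds
    have h3 := tendsto_nhds_unique h1 h2
    intro h4
    rw [h4, norm_zero] at h3
    norm_num at h3
  refine ⟨E', limit_case hp hpq hcop hκ_prop hsol hgrow hu0, fun ε hε => ?_⟩
  have h1 : ∀ᶠ N in (F : Filter ℕ), |E N - E'| < ε := by
    have := hE'.eventually (Metric.ball_mem_nhds E' hε)
    filter_upwards [this] with N hN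
    rwa [Real.dist_eq] at hN
  exact h1.exists

/-- Spectra at frequencies slightly above `p/q` are close to the limiting set. -/
theorem prop_upper (lam : ℝ) {p : ℤ} {q : ℕ} (hp : 0 < p) (hpq : p < q)
    (hcop : IsCoprime p (q : ℤ)) {η : ℝ} (hη : 0 < η) :
    ∃ ε : ℝ, 0 < ε ∧ ∀ α ω E : ℝ, 0 < α → α < 1 → 0 < α - (p : ℝ) / q → α - (p : ℝ) / q < ε →
      E ∈ specI lam α ω →
      ∃ E' : ℝ, (|dsc lam p q E'| ≤ 2 ∨ (dsc lam p q E') ^ 2 = 4 + lam ^ 2) ∧ |E - E'| < η := by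
  by_contra hcon
  push Not at hcon
  have h1 : ∀ N : ℕ, ∃ α ω E : ℝ, ∃ ψ : ℤ → ℂ, 0 < α ∧ α < 1 ∧ 0 < α - (p : ℝ) / q ∧
      α - (p : ℝ) / q < 1 / ((N : ℝ) + 1) ∧ |E| ≤ 2 + |lam| ∧
      (∀ E' : ℝ, (|dsc lam p q E'| ≤ 2 ∨ (dsc lam p q E') ^ 2 = 4 + lam ^ 2) → η ≤ |E - E'|) ∧
      ‖ψ 0‖ = 1 ∧ (∀ m : ℤ, |m| ≤ N → ‖ψ m‖ ≤ K0 * (1 + |(m : ℝ)|)) ∧
      (∀ m : ℤ, |m| ≤ N → ‖ψ (m + 1) + ψ (m - 1)
        + (pot lam α ω m : ℂ) * ψ m - (E : ℂ) * ψ m‖ ≤ 1 / (N + 1)) := by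
    intro N
    obtain ⟨α, ω, E, h0, h1, h2, h3, h4, h5⟩ := hcon (1 / ((N : ℝ) + 1)) (by positivity)
    by_contra hno
    apply window_not_mem N lam α ω E ?_ h4
    intro j ψ g1 g2 g3
    apply hno
    refine ⟨α, ω + j * α, E, ψ, h0, h1, h2, h3, spec_bound h4, h5, g1, g2, fun m hm => ?_⟩
    rw [← pot_shift]
    exact g3 m hm
  choose α ω E ψ h0 h1' h2 h3 h4 h5 h6 h7 h8 using h1
  obtain ⟨E', hE', hlim⟩ := compactness hp hpq hcop α ω E ψ h0 h1' (fun N => ⟨h2 N, h3 N⟩)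
    h4 h6 h7 h8
  obtain ⟨N, hN⟩ := hlim η hη
  have := h5 N E' hE'
  linarith

end Pool.Agent.Helper52
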