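import Mathlib
import Pool.Agent.Helper52.SturmCompact

set_option autoImplicit false

open Filter Topology Matrix

namespace Pool.Agent.Helper52

/-- Solutions with Floquet multiplier of modulus one. -/
theorem exists_bloch {E lam : ℂ} {W : ℤ → ℤ} {q : ℕ} (hW : ∀ m, W (m + q) = W m) (a : ℤ) {μ : ℂ}
    (hμ : ‖μ‖ = 1) (ht : (trM E lam W a q).trace = μ + μ⁻¹) :
    ∃ u : ℤ → ℂ, (u a ≠ 0 ∨ u (a - 1) ≠ 0) ∧
      (∀ m : ℤ, a ≤ m → u (m + 1) + u (m - 1) + lam * (W m : ℂ) * u m = E * u m) ∧
      (∀ m : ℤ, a ≤ m + 1 → u (m + q) = μ * u m) := by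
  have hμ0 : μ ≠ 0 := by
    rintro rfl
    simp at hμ
  set M := trM E lam W a q with hM
  have hdet : (M - μ • (1 : Matrix (Fin 2) (Fin 2) ℂ)).det = 0 := by
    have h1 := trM_det E lam W a q
    rw [← hM, Matrix.det_fin_two] at h1
    rw [Matrix.trace_fin_two] at ht
    rw [Matrix.det_fin_two]
    simp only [Matrix.sub_apply, Matrix.smul_apply, Matrix.one_apply_eq, smul_eq_mul, mul_one,
      Matrix.one_apply_ne (by decide : (0 : Fin 2) ≠ 1),
      Matrix.one_apply_ne (by decide : (1 : Fin 2) ≠ 0), mul_zero, sub_zero]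
    have h2 : μ * (M 0 0 + M 1 1) = μ ^ 2 + 1 := by
      rw [ht]
      field_simp
    linear_combination h1 - h2
  obtain ⟨x, hx0, hx⟩ := Matrix.exists_mulVec_eq_zero_iff.mpr hdet
  have hMx : M *ᵥ x = μ • x := by
    rw [Matrix.sub_mulVec, Matrix.smul_mulVec, Matrix.one_mulVec] at hx
    exact sub_eq_zero.mp hx
  set U : ℕ → (Fin 2 → ℂ) := fun k => trM E lam W a k *ᵥ x with hU
  have hU0 : U 0 = x := Matrix.one_mulVec x
  have hUs0 : ∀ k, U (k + 1) 0 = (E - lam * (W (a + k) : ℂ)) * U k 0 - U k 1 := by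
    intro k
    simp only [hU, trM]
    rw [← Matrix.mulVec_mulVec]
    generalize trM E lam W a k *ᵥ x = y
    simp [stepM, Matrix.mulVec, dotProduct, Fin.sum_univ_two]
    ring
  have hUs1 : ∀ k, U (k + 1) 1 = U k 0 := by
    intro k
    simp only [hU, trM]
    rw [← Matrix.mulVec_mulVec]
    generalize trM E lam W a k *ᵥ x = y
    simp [stepM, Matrix.mulVec, dotProduct, Fin.sum_univ_two]
  have hper : ∀ k, U (k + q) = μ • U k := by
    intro k
    have h1 : ∀ k, trM E lam W a (k + q) = trM E lam W a k * M := by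
      intro k
      induction k with
      | zero => simp [trM, hM]
      | succ k ih =>
        rw [show k + 1 + q = (k + q) + 1 by ring, trM, ih, trM, Matrix.mul_assoc]
        congr 2
        have := hW (a + k)
        push_cast
        rw [← this]
        congr 1
        ring
    simp only [hU]
    rw [h1, ← Matrix.mulVec_mulVec, hMx, Matrix.mulVec_smul]
  set u : ℤ → ℂ := fun m => if m = a - 1 then x 1 else U (m - a).toNat 0 with hu
  have hua : ∀ k : ℕ, u (a + k) = U k 0 := by
    intro k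
    simp only [hu]
    rw [if_neg (by omega)]
    congr 2
    omega
  have hua1 : ∀ k : ℕ, u (a + k - 1) = U k 1 := by
    intro k
    cases k with
    | zero =>
      simp only [hu, hU0]
      rw [if_pos (by simp)]
    | succ k =>
      rw [hUs1, ← hua]
      congr 1
      push_cast
      ring
  refine ⟨u, ?_, ?_, ?_⟩
  · by_contra hcon
    push Not at hcon
    apply hx0
    have h1 := hua 0
    have h2 := hua1 0
    simp only [Nat.cast_zero, add_zero] at h1 h2
    ext i
    fin_cases i
    · change x 0 = 0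
      rw [← hU0, ← h1]
      exact hcon.1
    · change x 1 = 0
      rw [← hU0, ← h2]
      exact hcon.2
  · intro m hm
    obtain ⟨k, hk⟩ := Int.eq_ofNat_of_zero_le (sub_nonneg.mpr hm)
    have hm' : m = a + k := by omega
    have h1 := hua (k + 1)
    rw [show a + ((k + 1 : ℕ) : ℤ) = m + 1 by omega] at h1
    have h2 := hua1 k
    rw [← hm'] at h2
    have h3 := hua k
    rw [← hm'] at h3
    rw [h1, h2, h3, hUs0, ← hm']
    ring
  · intro m hm
    obtain ⟨k, hk⟩ := Int.eq_ofNat_of_zero_le (sub_nonneg.mpr hm)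
    have h1 := hua1 k
    have h2 := hua1 (k + q)
    rw [show a + (k : ℤ) - 1 = m by omega] at h1
    rw [show a + ((k + q : ℕ) : ℤ) - 1 = m + q by omega] at h2
    rw [h1, h2, hper, Pi.smul_apply, smul_eq_mul]

/-- Spectra at frequencies slightly above `p/q` approximate the periodic spectrum. -/
theorem prop_lower (lam : ℝ) {p : ℤ} {q : ℕ} (hp : 0 < p) (hpq : p < q)
    (hcop : IsCoprime p (q : ℤ)) {η : ℝ} (hη : 0 < η) :
    ∃ ε : ℝ, 0 < ε ∧ ∀ α ω E : ℝ, 0 < α → α < 1 → 0 < α - (p : ℝ) / q → α - (p : ℝ) / q < ε →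
      |dsc lam p q E| ≤ 2 → ∃ E' ∈ specI lam α ω, |E - E'| < η := by
  have hq : 0 < q := by omega
  have hq' : (0 : ℤ) < q := by omega
  have hqr : (0 : ℝ) < q := by exact_mod_cast hq
  obtain ⟨L, hL⟩ := exists_nat_gt (max 1 (8 / η ^ 2))
  have hL1 : (1 : ℝ) < L := (le_max_left _ _).trans_lt hL
  have hL2 : 8 / η ^ 2 < L := (le_max_right _ _).trans_lt hL
  have hL0 : 0 < L := by
    have : (0:ℝ) < L := by linarith
    exact_mod_cast this
  set n : ℕ := q * L with hn
  have hn2 : 2 ≤ n := by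
    have h1 : 2 ≤ q := by omega
    calc 2 ≤ q * 1 := by omega
      _ ≤ q * L := Nat.mul_le_mul_left _ hL0
  have hnr : (0 : ℝ) < n := by
    have : 0 < n := by omega
    exact_mod_cast this
  refine ⟨1 / (2 * n * q), by positivity, ?_⟩
  intro α ω E h0 h1 h2 h3 hE
  have hδ0 : 0 < q * α - p := by
    have : (q : ℝ) * (α - (p : ℝ) / q) = q * α - p := by field_simp
    rw [← this]
    positivity
  have hδ1 : (2 * n : ℝ) * (q * α - p) ≤ 1 := by
    have h4 : (q : ℝ) * (α - (p : ℝ) / q) = q * α - p := by field_simp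
    rw [← h4]
    have h5 : (2 * n * q : ℝ) * (α - (p : ℝ) / q) ≤ (2 * n * q : ℝ) * (1 / (2 * n * q)) :=
      mul_le_mul_of_nonneg_left h3.le (by positivity)
    rw [mul_one_div_cancel (by positivity)] at h5
    linarith
  set κ := kap p q α ω with hκ
  have hmono : ∀ m m' : ℤ, m ≤ m' → κ m ≤ κ m' := fun m m' h => kap_mono ω hδ0 h
  have hstep : κ (2 * n) ≤ κ 0 + 1 := by
    refine kap_le_succ ω ?_
    push_cast
    linarith
  -- a window on which the phase is constant
  obtain ⟨a, j, haj⟩ : ∃ a j : ℤ, ∀ m, a ≤ m → m ≤ a + n → κ m = j := by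
    by_cases h : κ n = κ 0
    · refine ⟨0, κ 0, fun m hm1 hm2 => ?_⟩
      have h4 := hmono 0 m hm1
      have h5 := hmono m n (by omega)
      omega
    · refine ⟨n, κ n, fun m hm1 hm2 => ?_⟩
      have h4 := hmono n m hm1
      have h5 := hmono m (2 * n) (by omega)
      have h6 := hmono 0 n (by omega)
      omega
  have hpot : ∀ m : ℤ, a ≤ m → m < a + n → pot lam α ω m = lam * ((wp p q j m : ℤ) : ℝ) := by
    intro m hm1 hm2
    rw [pot_eq_hgt (p := p) hq h0 h1, ← hκ]
    unfold hgt wp
    rw [haj m hm1 hm2.le, haj (m + 1) (by omega) (by omega)]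
  obtain ⟨μ, hμ, ht⟩ := exists_mu_circle hE
  obtain ⟨u, hune, husol, humul⟩ := exists_bloch (E := (E : ℂ)) (lam := (lam : ℂ))
    (W := wp p q j) (q := q) (fun m => wp_add_q hq' j m) a hμ (by
      rw [trace_wp _ _ hq hcop, ← dsc_cast, ht])
  have hunorm : ∀ m : ℤ, a ≤ m + 1 → ‖u (m + q)‖ = ‖u m‖ := fun m hm => by
    rw [humul m hm, norm_mul, hμ, one_mul]
  -- the norms
  set f : ℕ → ℝ := fun i => ‖u (a + i)‖ ^ 2 with hf
  have hfper : ∀ i, f (i + q) = f i := by
    intro i
    simp only [hf]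
    rw [← hunorm (a + i) (by omega)]
    congr 3
    push_cast
    ring
  have hfmul : ∀ l i, f (q * l + i) = f i := by
    intro l
    induction l with
    | zero => intro i; simp
    | succ l ih =>
      intro i
      rw [show q * (l + 1) + i = (q * l + i) + q by ring, hfper, ih]
  set S : ℝ := ∑ i ∈ Finset.range q, f i with hS
  have hsum : ∀ l : ℕ, ∑ i ∈ Finset.range (q * l), f i = l * S := by
    intro l
    induction l with
    | zero => simp
    | succ l ih =>
      rw [show q * (l + 1) = q * l + q by ring, Finset.sum_range_add, ih,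
        Finset.sum_congr rfl (fun i _ => hfmul l i), ← hS]
      push_cast
      ring
  have hS2 : ‖u (a - 1)‖ ^ 2 + ‖u a‖ ^ 2 ≤ S := by
    have e1 : ‖u (a - 1)‖ = ‖u (a + (q - 1 : ℕ))‖ := by
      rw [← hunorm (a - 1) (by omega)]
      congr 2
      omega
    have e2 : ‖u (a - 1)‖ ^ 2 + ‖u a‖ ^ 2 = ∑ i ∈ ({q - 1, 0} : Finset ℕ), f i := by
      rw [Finset.sum_pair (by omega), e1]
      simp [hf]
    rw [e2, hS]
    refine Finset.sum_le_sum_of_subset_of_nonneg ?_ (fun i _ _ => by positivity)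
    intro i hi
    simp only [Finset.mem_insert, Finset.mem_singleton] at hi
    rw [Finset.mem_range]
    omega
  have hSpos : 0 < S := by
    refine lt_of_lt_of_le ?_ hS2
    rcases hune with h | h
    · have : 0 < ‖u a‖ := norm_pos_iff.mpr h
      positivity
    · have : 0 < ‖u (a - 1)‖ := norm_pos_iff.mpr h
      positivity
  have hnorm : ‖truncL u a n‖ ^ 2 = L * S := by
    rw [truncL_norm_sq, hn]
    exact hsum L
  have herr := trial_error lam α ω E u a n hn2 (fun m hm1 hm2 => by
    rw [hpot m hm1 hm2]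
    push_cast
    exact husol m hm1)
  have herr2 : ‖hamI lam α ω (truncL u a n) - (E : ℂ) • truncL u a n‖ ^ 2 ≤ 2 * S := by
    refine herr.trans ?_
    have e3 : ‖u (a + n)‖ ^ 2 = ‖u a‖ ^ 2 := by
      have := hfmul L 0
      simp only [hf, add_zero, Nat.cast_zero] at this
      rw [← this, hn]
    have e4 : ‖u (a + n - 1)‖ ^ 2 = ‖u (a - 1)‖ ^ 2 := by
      have h4 := hfmul (L - 1) (q - 1)
      have h5 : q * (L - 1) + (q - 1) = n - 1 := by
        obtain ⟨L', rfl⟩ : ∃ L', L = L' + 1 := ⟨L - 1, by omega⟩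
        rw [hn]
        simp only [Nat.add_sub_cancel]
        rw [show q * (L' + 1) = q * L' + q by ring]
        omega
      rw [h5] at h4
      simp only [hf] at h4
      rw [show a + (n : ℤ) - 1 = a + ((n - 1 : ℕ) : ℤ) by omega, h4]
      congr 1
      rw [← hunorm (a - 1) (by omega)]
      congr 2
      omega
    rw [e3, e4]
    linarith
  have hne : truncL u a n ≠ 0 := by
    intro h
    rw [h] at hnorm
    simp only [norm_zero] at hnorm
    have : 0 < (L : ℝ) * S := by
      have : (0 : ℝ) < L := by linarith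
      positivity
    norm_num at hnorm
    rcases hnorm with h | h <;> linarith
  have hfinal : ‖hamI lam α ω (truncL u a n) - (E : ℂ) • truncL u a n‖
      ≤ (η / 2) * ‖truncL u a n‖ := by
    refine (abs_le_of_sq_le_sq' ?_ (by positivity)).2
    refine herr2.trans ?_
    rw [mul_pow, hnorm]
    have h6 : 8 < L * η ^ 2 := by
      rwa [div_lt_iff₀ (by positivity)] at hL2
    nlinarith
  obtain ⟨E', hE', hEE'⟩ := exists_mem_spectrum_of_approx (ham_selfAdjoint lam α ω) E hne hfinal
  refine ⟨E', hE', ?_⟩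
  rw [abs_sub_comm]
  linarith

end Pool.Agent.Helper52
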