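import Mathlib
import Pool.Agent.Helper52.SturmLower

set_option autoImplicit false

open Polynomial Matrix

namespace Pool.Agent.Helper52

/-- The discriminant polynomial. -/
noncomputable def dpoly (lam : ℝ) (p : ℤ) (q : ℕ) : ℝ[X] :=
  (trM (X : ℝ[X]) (C lam) (wp p q 0) 1 q).trace

theorem eval_trM (lam E : ℝ) (W : ℤ → ℤ) (a : ℤ) (n : ℕ) (i j : Fin 2) :
    (trM (X : ℝ[X]) (C lam) W a n i j).eval E = trM E lam W a n i j := by
  have h := trM_map (X : ℝ[X]) (C lam) (evalRingHom E) W a n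
  simp only [coe_evalRingHom, eval_X, eval_C] at h
  rw [← h]
  rfl

theorem eval_dpoly (lam : ℝ) (p : ℤ) (q : ℕ) (E : ℝ) : (dpoly lam p q).eval E = dsc lam p q E := by
  unfold dpoly dsc
  rw [Matrix.trace_fin_two, Matrix.trace_fin_two, eval_add, eval_trM, eval_trM]

theorem continuous_dsc (lam : ℝ) (p : ℤ) (q : ℕ) : Continuous (dsc lam p q) := by
  have : dsc lam p q = fun E => (dpoly lam p q).eval E := by
    funext E
    rw [eval_dpoly]
  rw [this]
  exact (dpoly lam p q).continuous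

section entries

variable {R : Type*} [CommRing R] (E l : R) (W : ℤ → ℤ) (a : ℤ)

theorem trM_succ_00 (n : ℕ) : trM E l W a (n + 1) 0 0
    = (E - l * (W (a + n) : R)) * trM E l W a n 0 0 - trM E l W a n 1 0 := by
  simp [trM, stepM, Matrix.mul_apply, Fin.sum_univ_two]
  ring

theorem trM_succ_01 (n : ℕ) : trM E l W a (n + 1) 0 1
    = (E - l * (W (a + n) : R)) * trM E l W a n 0 1 - trM E l W a n 1 1 := by
  simp [trM, stepM, Matrix.mul_apply, Fin.sum_univ_two]
  ring

theorem trM_succ_10 (n : ℕ) : trM E l W a (n + 1) 1 0 = trM E l W a n 0 0 := by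
  simp [trM, stepM, Matrix.mul_apply, Fin.sum_univ_two]

theorem trM_succ_11 (n : ℕ) : trM E l W a (n + 1) 1 1 = trM E l W a n 0 1 := by
  simp [trM, stepM, Matrix.mul_apply, Fin.sum_univ_two]

end entries

theorem trM_degrees (lam : ℝ) (W : ℤ → ℤ) (a : ℤ) (n : ℕ) :
    (trM (X : ℝ[X]) (C lam) W a n 0 0).Monic ∧
    (trM (X : ℝ[X]) (C lam) W a n 0 0).natDegree = n ∧
    (trM (X : ℝ[X]) (C lam) W a n 0 1).degree < n ∧
    (trM (X : ℝ[X]) (C lam) W a n 1 0).degree < n ∧
    (trM (X : ℝ[X]) (C lam) W a n 1 1).degree < n + 1 := by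
  induction n with
  | zero =>
    simp [trM]
  | succ n ih =>
    obtain ⟨h1, h2, h3, h4, h5⟩ := ih
    have hc : (X : ℝ[X]) - C lam * ((W (a + n) : ℤ) : ℝ[X]) = X - C (lam * (W (a + n) : ℝ)) := by
      simp
    have hdeg00 : (trM (X : ℝ[X]) (C lam) W a n 0 0).degree = n := by
      rw [degree_eq_natDegree h1.ne_zero, h2]
    have hlt : (n : WithBot ℕ) < ((n + 1 : ℕ) : WithBot ℕ) := by exact_mod_cast Nat.lt_succ_self n
    have hmon : ((X - C (lam * (W (a + n) : ℝ))) * trM (X : ℝ[X]) (C lam) W a n 0 0).Monic :=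
      (monic_X_sub_C _).mul h1
    have hdeg : ((X - C (lam * (W (a + n) : ℝ))) * trM (X : ℝ[X]) (C lam) W a n 0 0).degree
        = ((n + 1 : ℕ) : WithBot ℕ) := by
      rw [degree_mul, degree_X_sub_C, hdeg00]
      push_cast
      ring
    have hmon2 : (trM (X : ℝ[X]) (C lam) W a (n + 1) 0 0).Monic := by
      rw [trM_succ_00, hc]
      exact hmon.sub_of_left (by rw [hdeg]; exact h4.trans hlt)
    have hdeg2 : (trM (X : ℝ[X]) (C lam) W a (n + 1) 0 0).degree = ((n + 1 : ℕ) : WithBot ℕ) := by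
      rw [trM_succ_00, hc, degree_sub_eq_left_of_degree_lt, hdeg]
      rw [hdeg]
      exact h4.trans hlt
    refine ⟨hmon2, natDegree_eq_of_degree_eq_some hdeg2, ?_, ?_, ?_⟩
    · rw [trM_succ_01, hc]
      refine (degree_sub_le _ _).trans_lt (max_lt ?_ ?_)
      · by_cases h0 : trM (X : ℝ[X]) (C lam) W a n 0 1 = 0
        · rw [h0, mul_zero, degree_zero]
          exact WithBot.bot_lt_coe _
        · rw [degree_mul, degree_X_sub_C, degree_eq_natDegree h0]
          rw [degree_eq_natDegree h0] at h3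
          have : (trM (X : ℝ[X]) (C lam) W a n 0 1).natDegree < n := by exact_mod_cast h3
          have h6 : 1 + (trM (X : ℝ[X]) (C lam) W a n 0 1).natDegree < n + 1 := by omega
          exact_mod_cast h6
      · push_cast
        exact h5
    · rw [trM_succ_10, hdeg00]
      exact hlt
    · rw [trM_succ_11]
      refine h3.trans (hlt.trans ?_)
      have : n + 1 < (n + 1) + 1 := Nat.lt_succ_self _
      exact_mod_cast this

theorem dpoly_degree (lam : ℝ) (p : ℤ) {q : ℕ} (hq : 0 < q) :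
    (dpoly lam p q).Monic ∧ (dpoly lam p q).natDegree = q := by
  obtain ⟨n, rfl⟩ : ∃ n, q = n + 1 := ⟨q - 1, by omega⟩
  obtain ⟨h1, h2, -, -, -⟩ := trM_degrees lam (wp p (n + 1 : ℕ) 0) 1 (n + 1)
  obtain ⟨-, -, h3, -, -⟩ := trM_degrees lam (wp p (n + 1 : ℕ) 0) 1 n
  have hdeg00 : (trM (X : ℝ[X]) (C lam) (wp p (n + 1 : ℕ) 0) 1 (n + 1) 0 0).degree
      = ((n + 1 : ℕ) : WithBot ℕ) := by
    rw [degree_eq_natDegree h1.ne_zero, h2]
  have h4 : (trM (X : ℝ[X]) (C lam) (wp p (n + 1 : ℕ) 0) 1 (n + 1) 1 1).degree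
      < (trM (X : ℝ[X]) (C lam) (wp p (n + 1 : ℕ) 0) 1 (n + 1) 0 0).degree := by
    rw [trM_succ_11, hdeg00]
    refine h3.trans ?_
    exact_mod_cast Nat.lt_succ_self n
  unfold dpoly
  rw [Matrix.trace_fin_two]
  refine ⟨h1.add_of_left h4, ?_⟩
  apply natDegree_eq_of_degree_eq_some
  rw [degree_add_eq_left_of_degree_lt h4, hdeg00]

section deriv

/-- Entrywise derivative. -/
noncomputable def dM (M : Matrix (Fin 2) (Fin 2) ℝ[X]) : Matrix (Fin 2) (Fin 2) ℝ[X] :=
  M.map (fun f => derivative f)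

theorem dM_mul (M N : Matrix (Fin 2) (Fin 2) ℝ[X]) : dM (M * N) = dM M * N + M * dM N := by
  ext1 i j
  simp only [dM, Matrix.map_apply, Matrix.mul_apply, Fin.sum_univ_two, derivative_add,
    derivative_mul, Matrix.add_apply]
  ring

/-- The nilpotent matrix. -/
noncomputable def NM : Matrix (Fin 2) (Fin 2) ℝ[X] := !![0, 0; -1, 0]

theorem dM_step (lam : ℝ) (w : ℤ) :
    dM (stepM (X : ℝ[X]) (C lam) w) = stepM (X : ℝ[X]) (C lam) w * NM := by
  ext1 i j
  fin_cases i <;> fin_cases j <;>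
    simp [dM, stepM, NM, Matrix.mul_apply, Fin.sum_univ_two]

theorem dM_trM (lam : ℝ) (W : ℤ → ℤ) (a : ℤ) (n : ℕ) :
    dM (trM (X : ℝ[X]) (C lam) W a n) = trM (X : ℝ[X]) (C lam) W a n *
      ∑ j ∈ Finset.range n, (trM (X : ℝ[X]) (C lam) W a j).adjugate * NM
        * trM (X : ℝ[X]) (C lam) W a j := by
  induction n with
  | zero =>
    simp only [trM, Finset.range_zero, Finset.sum_empty, Matrix.mul_zero]
    ext1 i j
    fin_cases i <;> fin_cases j <;> simp [dM]
  | succ n ih =>
    have h1 : trM (X : ℝ[X]) (C lam) W a n * (trM (X : ℝ[X]) (C lam) W a n).adjugate = 1 := by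
      rw [Matrix.mul_adjugate, trM_det, one_smul]
    rw [Finset.sum_range_succ, Matrix.mul_add, trM, dM_mul, ih, dM_step]
    rw [Matrix.mul_assoc (stepM _ _ _) NM, Matrix.mul_assoc (stepM _ _ _) (trM _ _ _ _ _),
      Matrix.mul_assoc (stepM _ _ _) (trM _ _ _ _ _)]
    have h2 : trM (X : ℝ[X]) (C lam) W a n * ((trM (X : ℝ[X]) (C lam) W a n).adjugate * NM
        * trM (X : ℝ[X]) (C lam) W a n) = NM * trM (X : ℝ[X]) (C lam) W a n := by
      rw [← Matrix.mul_assoc, ← Matrix.mul_assoc, h1, Matrix.one_mul]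
    rw [h2]
    rw [add_comm]

theorem deriv_dpoly (lam : ℝ) (p : ℤ) (q : ℕ) (E : ℝ) :
    (derivative (dpoly lam p q)).eval E = ∑ j ∈ Finset.range q,
      ((trM E lam (wp p q 0) 1 j 0 1) ^ 2 * trM E lam (wp p q 0) 1 q 1 0
        + (trM E lam (wp p q 0) 1 j 0 0) * (trM E lam (wp p q 0) 1 j 0 1)
          * (trM E lam (wp p q 0) 1 q 0 0 - trM E lam (wp p q 0) 1 q 1 1)
        - (trM E lam (wp p q 0) 1 j 0 0) ^ 2 * trM E lam (wp p q 0) 1 q 0 1) := by
  have h1 : derivative (dpoly lam p q) = (dM (trM (X : ℝ[X]) (C lam) (wp p q 0) 1 q)).trace := by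
    unfold dpoly
    rw [Matrix.trace_fin_two, Matrix.trace_fin_two, derivative_add]
    rfl
  rw [h1, dM_trM, Matrix.mul_sum, Matrix.trace_sum, eval_finsetSum]
  refine Finset.sum_congr rfl fun j _ => ?_
  simp only [Matrix.trace_fin_two, Matrix.mul_apply, Fin.sum_univ_two, Matrix.adjugate_fin_two,
    NM, Matrix.of_apply, Matrix.cons_val', Matrix.cons_val_zero, Matrix.cons_val_one,
    Matrix.cons_val_fin_one, eval_add, eval_mul, eval_neg, eval_trM, eval_zero, eval_one]
  ring

end deriv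

theorem trM_ne_scalar {lam : ℝ} (hlam : lam ≠ 0) {p : ℤ} {q : ℕ} (hp : 0 < p) (hpq : p < q)
    (hcop : IsCoprime p (q : ℤ)) (E c : ℝ) (hc : c ≠ 0) :
    trM E lam (wp p q 0) 1 q ≠ c • (1 : Matrix (Fin 2) (Fin 2) ℝ) := by
  intro h
  obtain ⟨n, rfl⟩ : ∃ n : ℕ, q = n + 2 := ⟨q - 2, by omega⟩
  have htr := trace_wp E lam (by omega : 0 < n + 2) hcop (-1) 1
  rw [trM_wp_neg E lam hp hpq hcop] at htr
  rw [h] at htr
  rw [trM_wp_zero E lam hp hpq] at h
  set P := trM E lam (wp p ((n + 2 : ℕ) : ℤ) 0) 1 n with hP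
  have e00 := congrFun (congrFun h 0) 0
  have e01 := congrFun (congrFun h 0) 1
  have e10 := congrFun (congrFun h 1) 0
  have e11 := congrFun (congrFun h 1) 1
  simp only [stepM, Matrix.mul_apply, Fin.sum_univ_two, Matrix.of_apply, Matrix.cons_val',
    Matrix.cons_val_zero, Matrix.cons_val_one, Matrix.cons_val_fin_one, Matrix.smul_apply,
    Matrix.one_apply_eq, smul_eq_mul, Int.cast_zero, Int.cast_one,
    Matrix.one_apply_ne (by decide : (0 : Fin 2) ≠ 1),
    Matrix.one_apply_ne (by decide : (1 : Fin 2) ≠ 0)] at e00 e01 e10 e11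
  simp only [stepM, Matrix.trace_fin_two, Matrix.mul_apply, Fin.sum_univ_two, Matrix.of_apply,
    Matrix.cons_val', Matrix.cons_val_zero, Matrix.cons_val_one, Matrix.cons_val_fin_one,
    Matrix.smul_apply, Matrix.one_apply_eq, smul_eq_mul, Int.cast_zero, Int.cast_one] at htr
  -- solve for the entries of `P`
  have p00 : P 0 0 = -c := by linear_combination E * e10 - e00
  have p01 : P 0 1 = c * E := by linear_combination E * e11 - e01
  have p10 : P 1 0 = -c * (E - lam) := by
    linear_combination (E - lam) * (E * e10 - e00) - e10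
  have p11 : P 1 1 = c * (E * (E - lam) - 1) := by
    linear_combination (E - lam) * (E * e11 - e01) - e11
  rw [p00, p01, p10, p11] at htr
  have h5 : c * lam ^ 2 = 0 := by linear_combination htr
  rcases mul_eq_zero.mp h5 with h6 | h6
  · exact hc h6
  · exact hlam (by simpa using h6)

theorem deriv_ne_zero {lam : ℝ} (hlam : lam ≠ 0) {p : ℤ} {q : ℕ} (hp : 0 < p) (hpq : p < q)
    (hcop : IsCoprime p (q : ℤ)) {E : ℝ} (hE : |dsc lam p q E| ≤ 2) :
    (derivative (dpoly lam p q)).eval E ≠ 0 := by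
  intro hzero
  rw [deriv_dpoly] at hzero
  set M := trM E lam (wp p q 0) 1 q with hM
  have hdet : M 0 0 * M 1 1 - M 0 1 * M 1 0 = 1 := by
    rw [← Matrix.det_fin_two, hM, trM_det]
  have hq2 : 2 ≤ q := by omega
  have htr : (M 0 0 + M 1 1) ^ 2 ≤ 4 := by
    have h1 : dsc lam p q E = M 0 0 + M 1 1 := by
      unfold dsc
      rw [← hM, Matrix.trace_fin_two]
    rw [← h1]
    have h2 : |dsc lam p q E| ^ 2 ≤ 2 ^ 2 := by gcongr
    rw [sq_abs] at h2
    linarith
  -- if the off-diagonal entries vanish then `M` is scalar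
  have hoff : ¬ (M 0 1 = 0 ∧ M 1 0 = 0) := by
    rintro ⟨h01, h10⟩
    rw [h01, zero_mul, sub_zero] at hdet
    have h3 : (M 0 0 - M 1 1) ^ 2 ≤ 0 := by nlinarith
    have h4 : M 0 0 = M 1 1 := by
      have := sq_nonneg (M 0 0 - M 1 1)
      have h5 : (M 0 0 - M 1 1) ^ 2 = 0 := le_antisymm h3 this
      have h6 : M 0 0 - M 1 1 = 0 := by simpa using h5
      linarith
    have h7 : M 0 0 ≠ 0 := by
      intro h8
      rw [h8, zero_mul] at hdet
      norm_num at hdet
    refine trM_ne_scalar hlam hp hpq hcop E (M 0 0) h7 ?_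
    rw [← hM]
    ext i j
    fin_cases i <;> fin_cases j <;> simp [h01, h10, h4]
  -- the terms
  set Q : ℝ → ℝ → ℝ := fun a b => b ^ 2 * M 1 0 + a * b * (M 0 0 - M 1 1) - a ^ 2 * M 0 1 with hQ
  have hsum : ∑ j ∈ Finset.range q, Q (trM E lam (wp p q 0) 1 j 0 0) (trM E lam (wp p q 0) 1 j 0 1)
      = 0 := hzero
  have hall : ∃ c : ℝ, c ≠ 0 ∧ ∀ a b, 0 ≤ c * Q a b := by
    by_cases h10 : M 1 0 = 0
    · have h01 : M 0 1 ≠ 0 := fun h => hoff ⟨h, h10⟩
      refine ⟨-4 * M 0 1, by simpa using h01, fun a b => ?_⟩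
      have : -4 * M 0 1 * Q a b = (2 * M 0 1 * a - (M 0 0 - M 1 1) * b) ^ 2
          + (4 - (M 0 0 + M 1 1) ^ 2) * b ^ 2 := by
        simp only [hQ]
        linear_combination (4 * b ^ 2) * hdet
      rw [this]
      have h8 : 0 ≤ 4 - (M 0 0 + M 1 1) ^ 2 := by linarith
      positivity
    · refine ⟨4 * M 1 0, by simpa using h10, fun a b => ?_⟩
      have : 4 * M 1 0 * Q a b = (2 * M 1 0 * b + (M 0 0 - M 1 1) * a) ^ 2
          + (4 - (M 0 0 + M 1 1) ^ 2) * a ^ 2 := by
        simp only [hQ]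
        linear_combination (4 * a ^ 2) * hdet
      rw [this]
      have h8 : 0 ≤ 4 - (M 0 0 + M 1 1) ^ 2 := by linarith
      positivity
  obtain ⟨c, hc, hcQ⟩ := hall
  have hsum2 : ∑ j ∈ Finset.range q, c * Q (trM E lam (wp p q 0) 1 j 0 0)
      (trM E lam (wp p q 0) 1 j 0 1) = 0 := by
    rw [← Finset.mul_sum, hsum, mul_zero]
  rw [Finset.sum_eq_zero_iff_of_nonneg (fun j _ => hcQ _ _)] at hsum2
  have t0 := hsum2 0 (by rw [Finset.mem_range]; omega)
  have t1 := hsum2 1 (by rw [Finset.mem_range]; omega)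
  have u0 : Q 1 0 = 0 := by
    rcases mul_eq_zero.mp t0 with h | h
    · exact absurd h hc
    · simpa [trM] using h
  have u1 : Q (trM E lam (wp p q 0) 1 1 0 0) (-1) = 0 := by
    rcases mul_eq_zero.mp t1 with h | h
    · exact absurd h hc
    · have h9 : trM E lam (wp p q 0) 1 1 0 1 = -1 := by
        simp [trM, stepM]
      rwa [h9] at h
  have h01 : M 0 1 = 0 := by
    simp only [hQ] at u0
    linarith
  rw [h01, zero_mul, sub_zero] at hdet
  have h4 : M 0 0 = M 1 1 := by
    have h3 : (M 0 0 - M 1 1) ^ 2 ≤ 0 := by nlinarith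
    have := sq_nonneg (M 0 0 - M 1 1)
    have h5 : (M 0 0 - M 1 1) ^ 2 = 0 := le_antisymm h3 this
    have h6 : M 0 0 - M 1 1 = 0 := by simpa using h5
    linarith
  have h10 : M 1 0 = 0 := by
    simp only [hQ] at u1
    rw [h01, h4] at u1
    linarith
  exact hoff ⟨h01, h10⟩

theorem evalc (f : ℝ[X]) (x : ℝ) : eval₂ Complex.ofRealHom (x : ℂ) f = ((f.eval x : ℝ) : ℂ) :=
  eval₂_at_apply Complex.ofRealHom x

/-- A complex zero of the discriminant is real. -/
theorem im_eq_zero_of_trace {lam : ℝ} {p : ℤ} {q : ℕ} (hq : 2 ≤ q) {z : ℂ}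
    (hz : (trM z (lam : ℂ) (wp p q 0) 1 q).trace = 0) : z.im = 0 := by
  have hq' : (0 : ℤ) < q := by omega
  obtain ⟨u, hune, husol, humul⟩ := exists_bloch (E := z) (lam := (lam : ℂ)) (W := wp p q 0)
    (q := q) (fun m => wp_add_q hq' 0 m) 1 (μ := Complex.I) Complex.norm_I (by
      rw [hz, Complex.inv_I]; ring)
  set w : ℤ → ℝ := fun m => ((starRingEnd ℂ) (u m) * u (m + 1)).im with hw
  have hstep : ∀ m : ℤ, 1 ≤ m → w m - w (m - 1) = z.im * ‖u m‖ ^ 2 := by
    intro m hm
    have h1 := husol m hm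
    have h2 : (starRingEnd ℂ) (u m) * u (m + 1) + (starRingEnd ℂ) (u m) * u (m - 1)
        = (z - (lam : ℂ) * ((wp p q 0 m : ℤ) : ℂ)) * (u m * (starRingEnd ℂ) (u m)) := by
      linear_combination (starRingEnd ℂ) (u m) * h1
    have h3 := congrArg Complex.im h2
    rw [Complex.mul_conj, Complex.add_im] at h3
    have h4 : ((starRingEnd ℂ) (u m) * u (m - 1)).im = - w (m - 1) := by
      simp only [hw]
      rw [sub_add_cancel]
      simp only [Complex.mul_im, Complex.conj_re, Complex.conj_im]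
      ring
    have h5 : ((z - (lam : ℂ) * ((wp p q 0 m : ℤ) : ℂ)) * ((Complex.normSq (u m) : ℝ) : ℂ)).im
        = z.im * ‖u m‖ ^ 2 := by
      rw [Complex.mul_im, Complex.ofReal_im, Complex.ofReal_re, Complex.sub_im, ← Complex.sq_norm]
      have : ((lam : ℂ) * ((wp p q 0 m : ℤ) : ℂ)).im = 0 := by
        rw [Complex.mul_im, Complex.ofReal_im, Complex.intCast_im]
        ring
      rw [this]
      ring
    rw [h4, h5] at h3
    have h6 : w m = ((starRingEnd ℂ) (u m) * u (m + 1)).im := rfl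
    rw [h6]
    linarith
  have htel : ∀ n : ℕ, w n - w 0 = z.im * ∑ i ∈ Finset.range n, ‖u ((i : ℤ) + 1)‖ ^ 2 := by
    intro n
    induction n with
    | zero => simp
    | succ n ih =>
      rw [Finset.sum_range_succ, mul_add, ← ih]
      have := hstep (n + 1) (by omega)
      rw [add_sub_cancel_right] at this
      push_cast
      linarith
  have hper : w q = w 0 := by
    simp only [hw]
    have h1 := humul 0 (by omega)
    have h2 := humul 1 (by omega)
    rw [zero_add] at h1
    rw [show (q : ℤ) + 1 = 1 + q by ring, h1, h2]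
    rw [zero_add]
    have : (starRingEnd ℂ) (Complex.I * u 0) * (Complex.I * u 1)
        = (starRingEnd ℂ) (u 0) * u 1 := by
      rw [map_mul, Complex.conj_I]
      linear_combination (-(starRingEnd ℂ) (u 0) * u 1) * Complex.I_mul_I
    rw [this]
  have hfin := htel q
  rw [hper, sub_self] at hfin
  have hpos : 0 < ∑ i ∈ Finset.range q, ‖u ((i : ℤ) + 1)‖ ^ 2 := by
    refine Finset.sum_pos' (fun i _ => by positivity) ?_
    rcases hune with h | h
    · exact ⟨0, by rw [Finset.mem_range]; omega, by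
        have : 0 < ‖u 1‖ := norm_pos_iff.mpr h
        simp only [Nat.cast_zero, zero_add]
        positivity⟩
    · refine ⟨q - 1, by rw [Finset.mem_range]; omega, ?_⟩
      have h1 := humul 0 (by omega)
      rw [show (((q - 1 : ℕ) : ℤ) + 1) = 0 + q by omega, h1]
      rw [show (1 : ℤ) - 1 = 0 by norm_num] at h
      have : 0 < ‖u 0‖ := norm_pos_iff.mpr h
      rw [norm_mul, Complex.norm_I, one_mul]
      positivity
  rcases mul_eq_zero.mp hfin.symm with h | h
  · exact h
  · exact absurd h hpos.ne'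

theorem card_real_roots {lam : ℝ} (hlam : lam ≠ 0) {p : ℤ} {q : ℕ} (hp : 0 < p) (hpq : p < q)
    (hcop : IsCoprime p (q : ℤ)) : (dpoly lam p q).roots.toFinset.card = q := by
  have hq : 0 < q := by omega
  obtain ⟨hmon, hdeg⟩ := dpoly_degree lam p hq
  set f := dpoly lam p q with hf
  set g : ℂ[X] := f.map Complex.ofRealHom with hg
  have hg0 : g ≠ 0 := (hmon.map _).ne_zero
  have hgdeg : g.natDegree = q := by rw [hg, hmon.natDegree_map, hdeg]
  have heval : ∀ z : ℂ, g.eval z = (trM z (lam : ℂ) (wp p q 0) 1 q).trace := by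
    intro z
    rw [hg, eval_map, hf]
    unfold dpoly
    have h1 := trM_trace_map (X : ℝ[X]) (C lam) (eval₂RingHom Complex.ofRealHom z) (wp p q 0) 1 q
    simp only [coe_eval₂RingHom, eval₂_X, eval₂_C] at h1
    exact h1
  have hreal : ∀ z : ℂ, g.IsRoot z → z.im = 0 := by
    intro z hz
    rw [IsRoot.def, heval] at hz
    exact im_eq_zero_of_trace (by omega) hz
  have hnodup : g.roots.Nodup := by
    rw [Multiset.nodup_iff_count_le_one]
    intro z
    rw [count_roots]
    by_contra hcon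
    push Not at hcon
    rw [one_lt_rootMultiplicity_iff_isRoot hg0] at hcon
    obtain ⟨h1, h2⟩ := hcon
    have him := hreal z h1
    obtain ⟨x, rfl⟩ : ∃ x : ℝ, z = x := ⟨z.re, by apply Complex.ext <;> simp [him]⟩
    have h3 : f.eval x = 0 := by
      rw [IsRoot.def, hg, eval_map, evalc] at h1
      exact_mod_cast h1
    have h4 : (derivative f).eval x = 0 := by
      rw [IsRoot.def, hg, derivative_map, eval_map, evalc] at h2
      exact_mod_cast h2
    rw [hf, eval_dpoly] at h3
    exact deriv_ne_zero hlam hp hpq hcop (by rw [h3]; norm_num) h4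
  have hcard : g.roots.toFinset.card = q := by
    rw [Multiset.toFinset_card_of_nodup hnodup, IsAlgClosed.card_roots_eq_natDegree, hgdeg]
  have himg : g.roots.toFinset = f.roots.toFinset.image (fun x : ℝ => (x : ℂ)) := by
    ext z
    simp only [Multiset.mem_toFinset, Finset.mem_image, mem_roots hg0, mem_roots hmon.ne_zero]
    constructor
    · intro hz
      have him := hreal z hz
      refine ⟨z.re, ?_, by apply Complex.ext <;> simp [him]⟩
      have hzr : z = ((z.re : ℝ) : ℂ) := by apply Complex.ext <;> simp [him]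
      rw [hzr, IsRoot.def, hg, eval_map, evalc] at hz
      rw [IsRoot.def]
      exact_mod_cast hz
    · rintro ⟨x, hx, rfl⟩
      rw [IsRoot.def] at hx
      rw [IsRoot.def, hg, eval_map, evalc, hx]
      simp
  rw [himg, Finset.card_image_of_injective _ Complex.ofReal_injective] at hcard
  exact hcard

/-- The alternating points: zeros of the discriminant and gap points between them. -/
theorem exists_alternating {lam : ℝ} (hlam : lam ≠ 0) {p : ℤ} {q : ℕ} (hp : 0 < p) (hpq : p < q)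
    (hcop : IsCoprime p (q : ℤ)) :
    ∃ x y : ℕ → ℝ, (∀ i, i < q → dsc lam p q (x i) = 0) ∧
      ∀ i, i + 1 < q → x i < y i ∧ y i < x (i + 1) ∧ 2 < |dsc lam p q (y i)| ∧
        (dsc lam p q (y i)) ^ 2 < 4 + lam ^ 2 := by
  have hq : 0 < q := by omega
  obtain ⟨hmon, hdeg⟩ := dpoly_degree lam p hq
  have hcard := card_real_roots hlam hp hpq hcop
  set e := (dpoly lam p q).roots.toFinset.orderEmbOfFin hcard with he
  set x : ℕ → ℝ := fun i => if h : i < q then e ⟨i, h⟩ else 0 with hx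
  have hx0 : ∀ i, i < q → dsc lam p q (x i) = 0 := by
    intro i hi
    have h1 := Finset.orderEmbOfFin_mem _ hcard ⟨i, hi⟩
    rw [Multiset.mem_toFinset, mem_roots hmon.ne_zero, IsRoot.def, eval_dpoly] at h1
    simp only [hx, dif_pos hi]
    exact h1
  have hlt : ∀ i, i + 1 < q → x i < x (i + 1) := by
    intro i hi
    simp only [hx, dif_pos hi, dif_pos (show i < q by omega)]
    apply e.strictMono
    rw [Fin.mk_lt_mk]
    omega
  have hy : ∀ i, ∃ y : ℝ, i + 1 < q → x i < y ∧ y < x (i + 1) ∧ 2 < |dsc lam p q y| ∧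
        (dsc lam p q y) ^ 2 < 4 + lam ^ 2 := by
    intro i
    by_cases hi : i + 1 < q
    · have hcont := continuous_dsc lam p q
      obtain ⟨c, hc, hdc⟩ := exists_deriv_eq_zero (f := fun E => (dpoly lam p q).eval E) (hlt i hi)
        (dpoly lam p q).continuous.continuousOn (by
          simp only [eval_dpoly]
          rw [hx0 i (by omega), hx0 (i + 1) hi])
      rw [Polynomial.deriv] at hdc
      have hbig : 2 < |dsc lam p q c| := by
        by_contra hcon
        push Not at hcon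
        exact deriv_ne_zero hlam hp hpq hcop hcon hdc
      -- intermediate value for the absolute value
      have hsq : (2 : ℝ) < Real.sqrt (4 + lam ^ 2) := by
        rw [Real.lt_sqrt (by norm_num)]
        have : 0 < lam ^ 2 := by positivity
        linarith
      obtain ⟨v, hv1, hv2⟩ := exists_between (lt_min hbig hsq)
      have hcont2 : ContinuousOn (fun E => |dsc lam p q E|) (Set.Icc (x i) c) :=
        hcont.abs.continuousOn
      have hmem : v ∈ Set.Icc |dsc lam p q (x i)| |dsc lam p q c| := by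
        rw [hx0 i (by omega)]
        refine ⟨by simp; linarith, (hv2.trans_le (min_le_left _ _)).le⟩
      obtain ⟨y, hy, hyv⟩ := intermediate_value_Icc hc.1.le hcont2 hmem
      simp only at hyv
      refine ⟨y, fun _ => ⟨?_, ?_, ?_, ?_⟩⟩
      · rcases hy.1.lt_or_eq with h | h
        · exact h
        · exfalso
          rw [← h, hx0 i (by omega)] at hyv
          simp at hyv
          linarith
      · exact hy.2.trans_lt hc.2
      · rw [hyv]
        exact hv1
      · rw [← sq_abs, hyv]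
        have h1 : v < Real.sqrt (4 + lam ^ 2) := hv2.trans_le (min_le_right _ _)
        have h2 : 0 ≤ 4 + lam ^ 2 := by positivity
        calc v ^ 2 < (Real.sqrt (4 + lam ^ 2)) ^ 2 := by
              have : 0 ≤ v := by linarith
              gcongr
          _ = 4 + lam ^ 2 := Real.sq_sqrt h2
    · exact ⟨0, fun h => absurd h hi⟩
  choose y hy using hy
  exact ⟨x, y, hx0, fun i hi => hy i hi⟩

end Pool.Agent.Helper52
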