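import Mathlib
import Pool.Agent.Helper52.SturmPoly

set_option autoImplicit false

open Polynomial Filter Topology

namespace Pool.Agent.Helper52

/-- `S` has at least `m` gaps of length at least `2 g`. -/
def HasGaps (S : Set ℝ) (m : ℕ) (g : ℝ) : Prop :=
  ∃ k z : ℕ → ℝ, (∀ i, i ≤ m → k i ∈ S) ∧
    ∀ i, i < m → k i < z i ∧ z i < k (i + 1) ∧ ∀ s ∈ S, g ≤ |s - z i|

theorem HasGaps.mono {S : Set ℝ} {m : ℕ} {g g' : ℝ} (h : HasGaps S m g) (hg : g' ≤ g) :
    HasGaps S m g' := by
  obtain ⟨k, z, h1, h2⟩ := h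
  exact ⟨k, z, h1, fun i hi => ⟨(h2 i hi).1, (h2 i hi).2.1, fun s hs => hg.trans ((h2 i hi).2.2 s hs)⟩⟩

/-- The limiting set. -/
def Klim (lam : ℝ) (p : ℤ) (q : ℕ) : Set ℝ :=
  {E | |dsc lam p q E| ≤ 2 ∨ (dsc lam p q E) ^ 2 = 4 + lam ^ 2}

/-- Many gaps. -/
theorem many_gaps {lam : ℝ} (hlam : lam ≠ 0) {p : ℤ} {q : ℕ} (hp : 0 < p) (hpq : p < q)
    (hcop : IsCoprime p (q : ℤ)) :
    ∃ g : ℝ, 0 < g ∧ ∃ ε : ℝ, 0 < ε ∧ ∀ α ω : ℝ, 0 < α → α < 1 → 0 < α - (p : ℝ) / q →
      α - (p : ℝ) / q < ε → HasGaps (specI lam α ω) (q - 1) g := by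
  obtain ⟨x, y, hx, hxy⟩ := exists_alternating hlam hp hpq hcop
  have hq : 0 < q := by omega
  -- each `y i` has a neighbourhood free of the limiting set
  have hloc : ∀ i, i < q - 1 → ∀ᶠ g : ℝ in 𝓝[>] 0, ∀ E', |E' - y i| < 2 * g →
      E' ∉ Klim lam p q := by
    intro i hi
    obtain ⟨-, -, h1, h2⟩ := hxy i (by omega)
    have hcont := continuous_dsc lam p q
    have hev : ∀ᶠ E' in 𝓝 (y i), 2 < |dsc lam p q E'| ∧ (dsc lam p q E') ^ 2 < 4 + lam ^ 2 :=
      ((hcont.abs.tendsto (y i)).eventually_const_lt h1).and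
        (((hcont.pow 2).tendsto (y i)).eventually_lt_const h2)
    rw [Metric.eventually_nhds_iff] at hev
    obtain ⟨δ, hδ, hev⟩ := hev
    have : ∀ᶠ g : ℝ in 𝓝[>] 0, g < δ / 2 :=
      (eventually_lt_nhds (by positivity : (0:ℝ) < δ / 2)).filter_mono nhdsWithin_le_nhds
    filter_upwards [this] with g hg E' hE' hmem
    have h3 := hev (y := E') (by rw [Real.dist_eq]; linarith)
    rcases hmem with h | h
    · linarith [h3.1]
    · linarith [h3.2]
  have hall : ∀ᶠ g : ℝ in 𝓝[>] 0, ∀ i ∈ Finset.range (q - 1), ∀ E', |E' - y i| < 2 * g →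
      E' ∉ Klim lam p q := by
    rw [Filter.eventually_all_finset]
    intro i hi
    exact hloc i (Finset.mem_range.mp hi)
  obtain ⟨g, hg, hgpos⟩ := (hall.and self_mem_nhdsWithin).exists
  obtain ⟨ε₁, hε₁, hup⟩ := prop_upper lam hp hpq hcop hgpos
  obtain ⟨ε₂, hε₂, hlow⟩ := prop_lower lam hp hpq hcop hgpos
  refine ⟨g, hgpos, min ε₁ ε₂, lt_min hε₁ hε₂, ?_⟩
  intro α ω h0 h1 h2 h3
  have hk : ∀ i, ∃ k, i < q → k ∈ specI lam α ω ∧ |x i - k| < g := by
    intro i
    by_cases hi : i < q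
    · obtain ⟨E', hE', hd⟩ := hlow α ω (x i) h0 h1 h2 (h3.trans_le (min_le_right _ _))
        (by rw [hx i hi]; norm_num)
      exact ⟨E', fun _ => ⟨hE', hd⟩⟩
    · exact ⟨0, fun h => absurd h hi⟩
  choose k hk using hk
  refine ⟨k, y, fun i hi => (hk i (by omega)).1, fun i hi => ?_⟩
  have hyK : ∀ E', E' ∈ Klim lam p q → 2 * g ≤ |E' - y i| := by
    intro E' hE'
    by_contra hcon
    push Not at hcon
    exact hg i (Finset.mem_range.mpr hi) E' hcon hE'
  have hxi : x i ∈ Klim lam p q := Or.inl (by rw [hx i (by omega)]; norm_num)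
  have hxi1 : x (i + 1) ∈ Klim lam p q := Or.inl (by rw [hx (i + 1) (by omega)]; norm_num)
  obtain ⟨g1, g2, -, -⟩ := hxy i (by omega)
  refine ⟨?_, ?_, ?_⟩
  · have h4 := hyK _ hxi
    rw [abs_of_neg (by linarith)] at h4
    have h5 := (abs_lt.mp (hk i (by omega)).2).1
    linarith
  · have h4 := hyK _ hxi1
    rw [abs_of_pos (by linarith)] at h4
    have h5 := (abs_lt.mp (hk (i + 1) (by omega)).2).2
    linarith
  · intro s hs
    obtain ⟨E', hE', hd⟩ := hup α ω s h0 h1 h2 (h3.trans_le (min_le_left _ _)) hs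
    have h4 := hyK E' hE'
    have h5 : |E' - y i| ≤ |E' - s| + |s - y i| := abs_sub_le _ _ _
    rw [abs_sub_comm E' s] at h5
    linarith

/-- Few gaps. -/
theorem few_gaps {lam : ℝ} {p : ℤ} {q : ℕ} (hp : 0 < p) (hpq : p < q)
    (hcop : IsCoprime p (q : ℤ)) {η : ℝ} (hη : 0 < η) :
    ∃ ε : ℝ, 0 < ε ∧ ∀ α ω : ℝ, 0 < α → α < 1 → 0 < α - (p : ℝ) / q →
      α - (p : ℝ) / q < ε → ∀ m, HasGaps (specI lam α ω) m η → m ≤ 4 * q + 1 := by
  have hq : 0 < q := by omega
  obtain ⟨ε₁, hε₁, hup⟩ := prop_upper lam hp hpq hcop hη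
  obtain ⟨ε₂, hε₂, hlow⟩ := prop_lower lam hp hpq hcop hη
  refine ⟨min ε₁ ε₂, lt_min hε₁ hε₂, ?_⟩
  intro α ω h0 h1 h2 h3 m hm
  obtain ⟨k, z, hk, hz⟩ := hm
  obtain ⟨hmon, hdeg⟩ := dpoly_degree lam p hq
  have hcont := continuous_dsc lam p q
  have hz2 : ∀ i, i < m → 2 < |dsc lam p q (z i)| := by
    intro i hi
    by_contra hcon
    push Not at hcon
    obtain ⟨E', hE', hd⟩ := hlow α ω (z i) h0 h1 h2 (h3.trans_le (min_le_right _ _)) hcon
    have := (hz i hi).2.2 E' hE'
    rw [abs_sub_comm] at this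
    linarith
  set F : ℝ[X] := ((dpoly lam p q) ^ 2 - C 4) * ((dpoly lam p q) ^ 2 - C (4 + lam ^ 2)) with hF
  have hdeg2 : ∀ c : ℝ, ((dpoly lam p q) ^ 2 - C c).natDegree = 2 * q := by
    intro c
    rw [natDegree_sub_C, hmon.natDegree_pow, hdeg]
  have hne : ∀ c : ℝ, (dpoly lam p q) ^ 2 - C c ≠ 0 := by
    intro c h
    have := hdeg2 c
    rw [h, natDegree_zero] at this
    omega
  have hF0 : F ≠ 0 := mul_ne_zero (hne _) (hne _)
  have hFdeg : F.natDegree = 4 * q := by
    rw [hF, natDegree_mul (hne _) (hne _), hdeg2, hdeg2]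
    ring
  -- a root between consecutive gap points
  have hroot : ∀ i, ∃ r, i + 1 < m → z i < r ∧ r < z (i + 1) ∧ F.eval r = 0 := by
    intro i
    by_cases hi : i + 1 < m
    · obtain ⟨E', hE', hd⟩ := hup α ω (k (i + 1)) h0 h1 h2 (h3.trans_le (min_le_left _ _))
        (hk (i + 1) (by omega))
      have a1 := (hz i (by omega)).2.2 _ (hk (i + 1) (by omega))
      have a2 := (hz (i + 1) hi).2.2 _ (hk (i + 1) (by omega))
      rw [abs_of_pos (by linarith [(hz i (by omega)).2.1])] at a1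
      rw [abs_of_neg (by linarith [(hz (i + 1) hi).1])] at a2
      have a3 := abs_lt.mp hd
      have b1 : z i < E' := by linarith
      have b2 : E' < z (i + 1) := by linarith
      rcases hE' with h | h
      · have hmem : (2 : ℝ) ∈ Set.Icc |dsc lam p q E'| |dsc lam p q (z i)| :=
          ⟨h, (hz2 i (by omega)).le⟩
        obtain ⟨r, hr, hrv⟩ := intermediate_value_Icc' b1.le hcont.abs.continuousOn hmem
        simp only at hrv
        refine ⟨r, fun _ => ⟨?_, hr.2.trans_lt b2, ?_⟩⟩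
        · rcases hr.1.lt_or_eq with h' | h'
          · exact h'
          · exfalso
            rw [← h'] at hrv
            linarith [hz2 i (by omega)]
        · rw [hF, eval_mul, eval_sub, eval_pow, eval_C, eval_dpoly, ← sq_abs, hrv]
          norm_num
      · refine ⟨E', fun _ => ⟨b1, b2, ?_⟩⟩
        rw [hF, eval_mul, eval_sub, eval_sub, eval_pow, eval_C, eval_C, eval_dpoly, h, sub_self,
          mul_zero]
    · exact ⟨0, fun h => absurd h hi⟩
  choose r hr using hroot
  by_contra hcon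
  push Not at hcon
  have hinj : Set.InjOn r (Finset.range (m - 1)) := by
    have hmono : ∀ i j, i < j → j + 1 < m → r i < r j := by
      intro i j hij hj
      have hzz : ∀ l, i + 1 + l < m → z (i + 1) ≤ z (i + 1 + l) := by
        intro l
        induction l with
        | zero => intro _; exact le_rfl
        | succ l ih =>
          intro hl
          refine (ih (by omega)).trans ?_
          have c1 := (hz (i + 1 + l) (by omega)).2.1
          have c2 := (hz (i + 1 + l + 1) (by omega)).1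
          exact (c1.trans c2).le
      have h4 := hzz (j - (i + 1)) (by omega)
      rw [show i + 1 + (j - (i + 1)) = j by omega] at h4
      exact (hr i (by omega)).2.1.trans_le (h4.trans (hr j hj).1.le)
    intro i hi j hj hij
    rw [Finset.coe_range, Set.mem_Iio] at hi hj
    rcases lt_trichotomy i j with h | h | h
    · have := hmono i j h (by omega)
      linarith
    · exact h
    · have := hmono j i h (by omega)
      linarith
  have hsub : (Finset.range (m - 1)).image r ⊆ F.roots.toFinset := by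
    intro s hs
    rw [Finset.mem_image] at hs
    obtain ⟨i, hi, rfl⟩ := hs
    rw [Finset.mem_range] at hi
    rw [Multiset.mem_toFinset, mem_roots hF0, IsRoot.def]
    exact (hr i (by omega)).2.2
  have h5 := Finset.card_le_card hsub
  rw [Finset.card_image_of_injOn hinj, Finset.card_range] at h5
  have h6 : F.roots.toFinset.card ≤ 4 * q := by
    calc F.roots.toFinset.card ≤ Multiset.card F.roots := Multiset.toFinset_card_le _
      _ ≤ F.natDegree := F.card_roots'
      _ = 4 * q := hFdeg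
  omega

end Pool.Agent.Helper52
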