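import Mathlib
import Pool.Agent.Helper52.SturmGaps

set_option autoImplicit false

open Filter Topology

namespace Pool.Agent.Helper52

theorem lipschitz_on_Icc {f : ℝ → ℝ} {U : Set ℝ} (hU : IsOpen U) (hf : ContDiffOn ℝ 1 f U)
    {a b : ℝ} (hab : Set.Icc a b ⊆ U) :
    ∃ C : ℝ, 0 < C ∧ ∀ x ∈ Set.Icc a b, ∀ y ∈ Set.Icc a b, |f x - f y| ≤ C * |x - y| := by
  have hd : ContinuousOn (deriv f) U := hf.continuousOn_deriv_of_isOpen hU le_rfl
  obtain ⟨C, hC⟩ := isCompact_Icc.exists_bound_of_continuousOn (hd.mono hab)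
  refine ⟨max C 1, lt_max_of_lt_right one_pos, fun x hx y hy => ?_⟩
  have hdiff : ∀ x ∈ Set.Icc a b, DifferentiableAt ℝ f x := fun x hx =>
    (hf.differentiableOn (by norm_num)).differentiableAt (hU.mem_nhds (hab hx))
  have h1 := Convex.norm_image_sub_le_of_norm_deriv_le hdiff hC (convex_Icc a b) hy hx
  rw [Real.norm_eq_abs, Real.norm_eq_abs] at h1
  exact h1.trans (mul_le_mul_of_nonneg_right (le_max_left _ _) (abs_nonneg _))

theorem diffeo_gaps {A B : Set ℝ} (hA : IsCompact A) (h : Diffeomorphic A B) :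
    ∃ C : ℝ, 0 < C ∧ ∀ m g, 1 ≤ m → HasGaps B m g → HasGaps A m (g / C) := by
  obtain ⟨U, V, f, G, hU, hUc, hV, hVc, hAU, hBV, hfUV, hGVU, hleft, hright, hf, hG, himg⟩ := h
  by_cases hne : A.Nonempty
  swap
  · refine ⟨1, one_pos, fun m g _ hm => ?_⟩
    obtain ⟨k, z, hk, -⟩ := hm
    exfalso
    have h1 := hk 0 (Nat.zero_le _)
    rw [← himg] at h1
    obtain ⟨x, hx, -⟩ := h1
    exact hne ⟨x, hx⟩
  have hB : IsCompact B := by
    rw [← himg]
    exact hA.image_of_continuousOn (hf.continuousOn.mono hAU)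
  have hBne : B.Nonempty := by
    rw [← himg]
    exact hne.image f
  set a := sInf A with ha
  set b := sSup A with hb
  set c := sInf B with hc
  set d := sSup B with hd
  have haA : a ∈ A := hA.sInf_mem hne
  have hbA : b ∈ A := hA.sSup_mem hne
  have hcB : c ∈ B := hB.sInf_mem hBne
  have hdB : d ∈ B := hB.sSup_mem hBne
  have hAab : ∀ x ∈ A, x ∈ Set.Icc a b := fun x hx =>
    ⟨csInf_le hA.bddBelow hx, le_csSup hA.bddAbove hx⟩
  have hBcd : ∀ x ∈ B, x ∈ Set.Icc c d := fun x hx =>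
    ⟨csInf_le hB.bddBelow hx, le_csSup hB.bddAbove hx⟩
  have habU : Set.Icc a b ⊆ U := hUc.out (hAU haA) (hAU hbA)
  have hcdV : Set.Icc c d ⊆ V := hVc.out (hBV hcB) (hBV hdB)
  obtain ⟨C, hC, hlip⟩ := lipschitz_on_Icc hU hf habU
  have hGA : ∀ y ∈ B, G y ∈ A := by
    intro y hy
    rw [← himg] at hy
    obtain ⟨x, hx, rfl⟩ := hy
    rw [hleft (hAU hx)]
    exact hx
  have hfB : ∀ x ∈ A, f x ∈ B := fun x hx => by
    rw [← himg]
    exact ⟨x, hx, rfl⟩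
  have hcd : c ≤ d := (hBcd c hcB).2
  have hGinj : Set.InjOn G (Set.Icc c d) := by
    intro x hx y hy hxy
    rw [← hright (hcdV hx), ← hright (hcdV hy), hxy]
  have hGcont : ContinuousOn G (Set.Icc c d) := hG.continuousOn.mono hcdV
  refine ⟨C, hC, fun m g hm hgap => ?_⟩
  obtain ⟨k, z, hk, hz⟩ := hgap
  have hzcd : ∀ i, i < m → z i ∈ Set.Icc c d := fun i hi =>
    ⟨(hBcd _ (hk i hi.le)).1.trans (hz i hi).1.le,
      (hz i hi).2.1.le.trans (hBcd _ (hk (i + 1) hi)).2⟩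
  have hdist : ∀ i, i < m → G (z i) ∈ Set.Icc a b → ∀ s ∈ A, g / C ≤ |s - G (z i)| := by
    intro i hi hmem s hs
    have h1 := (hz i hi).2.2 (f s) (hfB s hs)
    have h2 := hlip s (hAab s hs) (G (z i)) hmem
    rw [hright (hcdV (hzcd i hi))] at h2
    rw [div_le_iff₀ hC]
    linarith
  rcases hGcont.strictMonoOn_of_injOn_Icc' hcd hGinj with hmono | hanti
  · refine ⟨fun i => G (k i), fun i => G (z i), fun i hi => hGA _ (hk i hi), fun i hi => ?_⟩
    have h1 : G (k i) < G (z i) := hmono (hBcd _ (hk i hi.le)) (hzcd i hi) (hz i hi).1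
    have h2 : G (z i) < G (k (i + 1)) := hmono (hzcd i hi) (hBcd _ (hk (i + 1) hi)) (hz i hi).2.1
    refine ⟨h1, h2, hdist i hi ⟨?_, ?_⟩⟩
    · exact (hAab _ (hGA _ (hk i hi.le))).1.trans h1.le
    · exact h2.le.trans (hAab _ (hGA _ (hk (i + 1) hi))).2
  · refine ⟨fun i => G (k (m - i)), fun i => G (z (m - 1 - i)),
      fun i hi => hGA _ (hk _ (by omega)), fun i hi => ?_⟩
    have hj : m - 1 - i < m := by omega
    have e1 : m - i = m - 1 - i + 1 := by omega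
    have e2 : m - (i + 1) = m - 1 - i := by omega
    have h1 : G (k (m - 1 - i + 1)) < G (z (m - 1 - i)) :=
      hanti (hzcd _ hj) (hBcd _ (hk _ (by omega))) (hz _ hj).2.1
    have h2 : G (z (m - 1 - i)) < G (k (m - 1 - i)) :=
      hanti (hBcd _ (hk _ (by omega))) (hzcd _ hj) (hz _ hj).1
    simp only [e1, e2]
    refine ⟨h1, h2, hdist _ hj ⟨?_, ?_⟩⟩
    · exact (hAab _ (hGA _ (hk _ (by omega)))).1.trans h1.le
    · exact h2.le.trans (hAab _ (hGA _ (hk _ (by omega)))).2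

/-- The local obstruction near `P/Q`. -/
theorem local_obstruction {lam : ℝ} (hlam : lam ≠ 0) {P Q : ℕ} (hP : 0 < P) (hPQ : P < Q)
    (hcop : Nat.Coprime P Q) (n : ℕ) :
    ∃ ε : ℝ, 0 < ε ∧ ∀ θ : ℝ, 0 < θ → θ < 1 → (P : ℝ) / Q - ε < θ → θ < (P : ℝ) / Q →
      ∃ g : ℝ, 0 < g ∧ (∀ ω, HasGaps (specI lam (1 / (7 + θ)) ω) (7 * Q + P - 1) g) ∧
        ∀ ω m, HasGaps (specI lam (1 / (1 + θ)) ω) m (g / (n + 1)) → m ≤ 4 * (P + Q) + 1 := by
  have hQ : 0 < Q := by omega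
  have hQr : (0 : ℝ) < Q := by exact_mod_cast hQ
  have hPr : (0 : ℝ) < P := by exact_mod_cast hP
  have hcopZ : IsCoprime (Q : ℤ) (P : ℤ) := Nat.isCoprime_iff_coprime.mpr hcop.symm
  have hcop1 : IsCoprime (Q : ℤ) ((P + Q : ℕ) : ℤ) := by
    push_cast
    have := hcopZ.add_mul_left_right 1
    simpa using this
  have hcop7 : IsCoprime (Q : ℤ) ((7 * Q + P : ℕ) : ℤ) := by
    push_cast
    have := hcopZ.add_mul_left_right 7
    rw [mul_comm 7 (Q : ℤ), add_comm]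
    exact this
  obtain ⟨g, hg, ε₁, hε₁, h1⟩ := many_gaps hlam (p := Q) (q := 7 * Q + P) (by exact_mod_cast hQ)
    (by push_cast; omega) hcop7
  obtain ⟨ε₂, hε₂, h2⟩ := few_gaps (lam := lam) (p := Q) (q := P + Q) (by exact_mod_cast hQ)
    (by push_cast; omega) hcop1 (η := g / (n + 1)) (by positivity)
  refine ⟨min ε₁ ε₂, lt_min hε₁ hε₂, fun θ hθ0 hθ1 hθl hθu => ⟨g, hg, fun ω => ?_, fun ω m => ?_⟩⟩
  · have key : 1 / (7 + θ) - (((Q : ℕ) : ℤ) : ℝ) / ((7 * Q + P : ℕ) : ℝ)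
        = ((P : ℝ) / Q - θ) / ((7 + θ) * (7 + (P : ℝ) / Q)) := by
      push_cast
      field_simp
      ring
    have hd : 0 < (P : ℝ) / Q - θ := by linarith
    have hPQr : 0 < (P : ℝ) / Q := by positivity
    refine h1 (1 / (7 + θ)) ω (by positivity) ?_ ?_ ?_
    · rw [div_lt_one (by linarith)]
      linarith
    · rw [key]
      positivity
    · rw [key, div_lt_iff₀ (by positivity)]
      have h3 : (P : ℝ) / Q - θ < ε₁ := by
        have := min_le_left ε₁ ε₂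
        linarith
      have h4 : 1 ≤ (7 + θ) * (7 + (P : ℝ) / Q) := by nlinarith
      nlinarith
  · have key : 1 / (1 + θ) - (((Q : ℕ) : ℤ) : ℝ) / ((P + Q : ℕ) : ℝ)
        = ((P : ℝ) / Q - θ) / ((1 + θ) * (1 + (P : ℝ) / Q)) := by
      push_cast
      field_simp
      ring
    have hd : 0 < (P : ℝ) / Q - θ := by linarith
    have hPQr : 0 < (P : ℝ) / Q := by positivity
    refine h2 (1 / (1 + θ)) ω (by positivity) ?_ ?_ ?_ m
    · rw [div_lt_one (by linarith)]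
      linarith
    · rw [key]
      positivity
    · rw [key, div_lt_iff₀ (by positivity)]
      have h3 : (P : ℝ) / Q - θ < ε₂ := by
        have := min_le_right ε₁ ε₂
        linarith
      have h4 : 1 ≤ (1 + θ) * (1 + (P : ℝ) / Q) := by nlinarith
      nlinarith

/-- Existence of a suitable Liouville-type number. -/
theorem exists_theta {lam : ℝ} (hlam : lam ≠ 0) :
    ∃ θ : ℝ, 0 < θ ∧ θ < 1 ∧ Irrational θ ∧ ∀ n : ℕ, ∃ P Q : ℕ, 0 < P ∧ P < Q ∧
      ∃ g : ℝ, 0 < g ∧ (∀ ω, HasGaps (specI lam (1 / (7 + θ)) ω) (7 * Q + P - 1) g) ∧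
        ∀ ω m, HasGaps (specI lam (1 / (1 + θ)) ω) m (g / (n + 1)) → m ≤ 4 * (P + Q) + 1 := by
  set S : ℕ → Set ℝ := fun n => {θ : ℝ | θ < 0} ∪ {θ : ℝ | 1 < θ} ∪
    interior {θ : ℝ | 0 < θ ∧ θ < 1 ∧ ∃ P Q : ℕ, 0 < P ∧ P < Q ∧
      ∃ g : ℝ, 0 < g ∧ (∀ ω, HasGaps (specI lam (1 / (7 + θ)) ω) (7 * Q + P - 1) g) ∧
        ∀ ω m, HasGaps (specI lam (1 / (1 + θ)) ω) m (g / (n + 1)) → m ≤ 4 * (P + Q) + 1} with hS
  have hopen : ∀ n, IsOpen (S n) := fun n =>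
    ((isOpen_gt' 0).union (isOpen_lt' 1)).union isOpen_interior
  have hdense : ∀ n, Dense (S n) := by
    intro n
    rw [dense_iff_inter_open]
    intro W hW hWne
    obtain ⟨x, hx⟩ := hWne
    by_cases hx0 : x < 0
    · exact ⟨x, hx, Or.inl (Or.inl hx0)⟩
    by_cases hx1 : 1 < x
    · exact ⟨x, hx, Or.inl (Or.inr hx1)⟩
    push Not at hx0 hx1
    -- a rational in `W ∩ (0,1)`
    have hWI : (W ∩ Set.Ioo 0 1).Nonempty := by
      have hcl : x ∈ closure (Set.Ioo (0:ℝ) 1) := by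
        rw [closure_Ioo (by norm_num)]
        exact ⟨hx0, hx1⟩
      exact mem_closure_iff.mp hcl W hW hx
    obtain ⟨r, hr⟩ : ∃ r : ℚ, (r : ℝ) ∈ W ∩ Set.Ioo 0 1 := by
      obtain ⟨y, hy, ⟨r, rfl⟩⟩ := (Rat.denseRange_cast (𝕜 := ℝ)).inter_open_nonempty
        (W ∩ Set.Ioo 0 1) (hW.inter isOpen_Ioo) hWI
      exact ⟨r, hy⟩
    obtain ⟨hrW, hr0, hr1⟩ := hr
    have hr0' : 0 < r := by exact_mod_cast hr0
    have hr1' : r < 1 := by exact_mod_cast hr1
    set P : ℕ := r.num.natAbs with hPdef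
    set Q : ℕ := r.den with hQdef
    have hnum : 0 < r.num := Rat.num_pos.mpr hr0'
    have hP : 0 < P := by omega
    have hPQ : P < Q := by
      have : r.num < r.den := Rat.num_lt_denom_iff.mpr hr1'
      omega
    have hcop : Nat.Coprime P Q := r.reduced
    have hrPQ : (r : ℝ) = (P : ℝ) / Q := by
      have h1 : (r : ℝ) = (r.num : ℝ) / (r.den : ℝ) := by exact_mod_cast (Rat.num_div_den r).symm
      rw [h1]
      congr 1
      have : (r.num : ℤ) = (P : ℤ) := by omega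
      exact_mod_cast this
    obtain ⟨ε, hε, hloc⟩ := local_obstruction hlam hP hPQ hcop n
    -- the interval just below `r`
    have hsub : Set.Ioo (max 0 ((P : ℝ) / Q - ε)) ((P : ℝ) / Q) ⊆
        {θ : ℝ | 0 < θ ∧ θ < 1 ∧ ∃ P Q : ℕ, 0 < P ∧ P < Q ∧
          ∃ g : ℝ, 0 < g ∧ (∀ ω, HasGaps (specI lam (1 / (7 + θ)) ω) (7 * Q + P - 1) g) ∧
          ∀ ω m, HasGaps (specI lam (1 / (1 + θ)) ω) m (g / (n + 1)) → m ≤ 4 * (P + Q) + 1} := by
      intro θ hθ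
      have h1 : 0 < θ := (le_max_left _ _).trans_lt hθ.1
      have h2 : θ < 1 := by
        rw [← hrPQ] at hθ
        exact hθ.2.trans hr1
      exact ⟨h1, h2, P, Q, hP, hPQ, hloc θ h1 h2 ((le_max_right _ _).trans_lt hθ.1) hθ.2⟩
    have hint : Set.Ioo (max 0 ((P : ℝ) / Q - ε)) ((P : ℝ) / Q) ⊆ S n :=
      fun θ hθ => Or.inr (interior_maximal hsub isOpen_Ioo hθ)
    have hmax : max 0 ((P : ℝ) / Q - ε) < (P : ℝ) / Q := by
      rw [← hrPQ]
      exact max_lt hr0 (by linarith)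
    have hcl : (r : ℝ) ∈ closure (Set.Ioo (max 0 ((P : ℝ) / Q - ε)) ((P : ℝ) / Q)) := by
      rw [closure_Ioo hmax.ne, hrPQ]
      exact ⟨hmax.le, le_rfl⟩
    obtain ⟨y, hyW, hy⟩ := mem_closure_iff.mp hcl W hW hrW
    exact ⟨y, hyW, hint hy⟩
  have hirr : Dense {x : ℝ | Irrational x} := dense_irrational
  have hBaire : Dense ((⋂ n, S n) ∩ {x : ℝ | Irrational x}) := by
    refine Dense.inter_of_Gδ ?_ IsGδ.setOfPred_irrational ?_ hirr
    · exact IsGδ.iInter_of_isOpen hopen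
    · exact dense_iInter_of_isOpen_nat hopen hdense
  obtain ⟨θ, hθ01, hθS, hθirr⟩ := hBaire.inter_open_nonempty (Set.Ioo 0 1) isOpen_Ioo
    ⟨1 / 2, by norm_num, by norm_num⟩
  refine ⟨θ, hθ01.1, hθ01.2, hθirr, fun n => ?_⟩
  have h1 := Set.mem_iInter.mp hθS n
  rcases h1 with (h1 | h1) | h1
  · exact absurd h1 (not_lt.mpr hθ01.1.le)
  · exact absurd h1 (not_lt.mpr hθ01.2.le)
  · exact (interior_subset h1).2.2

theorem tailEquiv_of {θ : ℝ} (h0 : 0 < θ) (h1 : θ < 1) : TailEquiv (1 / (1 + θ)) (1 / (7 + θ)) := by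
  have hf : Int.fract θ = θ := Int.fract_eq_self.mpr ⟨h0.le, h1⟩
  have g1 : gauss (1 / (1 + θ)) = θ := by
    unfold gauss
    rw [one_div, inv_inv, add_comm, Int.fract_add_one, hf]
  have g7 : gauss (1 / (7 + θ)) = θ := by
    unfold gauss
    rw [one_div, inv_inv, show (7 : ℝ) + θ = θ + (7 : ℕ) by push_cast; ring,
      Int.fract_add_natCast, hf]
  refine ⟨1, 1, fun i => ?_⟩
  unfold digit
  rw [Nat.add_comm 1 i, Function.iterate_succ_apply, Function.iterate_succ_apply, g1, g7]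

theorem main_theorem (lam : ℝ) (hlam : 0 < lam) :
    ∃ α β : ℝ, α ∈ Set.Ioo (0 : ℝ) 1 ∧ β ∈ Set.Ioo (0 : ℝ) 1 ∧ Irrational α ∧ Irrational β ∧
      TailEquiv α β ∧ ∀ ω ω' : ℝ, ¬ Diffeomorphic (spec lam α ω) (spec lam β ω') := by
  obtain ⟨θ, hθ0, hθ1, hθirr, hθ⟩ := exists_theta hlam.ne'
  refine ⟨1 / (1 + θ), 1 / (7 + θ), ⟨by positivity, ?_⟩, ⟨by positivity, ?_⟩, ?_, ?_,
    tailEquiv_of hθ0 hθ1, ?_⟩
  · rw [div_lt_one (by linarith)]
    linarith
  · rw [div_lt_one (by linarith)]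
    linarith
  · rw [one_div]
    have : Irrational (((1 : ℕ) : ℝ) + θ) := hθirr.natCast_add 1
    have h2 := this.inv
    push_cast at h2
    exact h2
  · rw [one_div]
    have : Irrational (((7 : ℕ) : ℝ) + θ) := hθirr.natCast_add 7
    have h2 := this.inv
    push_cast at h2
    exact h2
  · intro ω ω' hdiff
    rw [specI_eq, specI_eq] at hdiff
    obtain ⟨C, hC, hgaps⟩ := diffeo_gaps (spec_isCompact _ _ _) hdiff
    obtain ⟨n, hn⟩ := exists_nat_gt C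
    obtain ⟨P, Q, hP, hPQ, g, hg, hmany, hfew⟩ := hθ n
    have h1 := hgaps (7 * Q + P - 1) g (by omega) (hmany ω')
    have h2 : g / ((n : ℝ) + 1) ≤ g / C := by
      apply div_le_div_of_nonneg_left hg.le hC
      linarith
    have h3 := hfew ω _ (h1.mono h2)
    omega

end Pool.Agent.Helper52
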