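import Mathlib

open Filter Topology

namespace Pool.Agent.Helper52.Tj

/-- A tree order on the natural numbers, compatible with the usual order. -/
structure TreeOrd where
  le : ℕ → ℕ → Prop
  refl : ∀ a, le a a
  trans : ∀ a b c, le a b → le b c → le a c
  le_nat : ∀ a b, le a b → a ≤ b
  lin : ∀ a b c, le a c → le b c → le a b ∨ le b a

/-- The norm of `∑_{a ∈ A} c a • e_a` for a normalized 1-unconditional basis which is
boundedly complete. -/
structure UN where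
  n : Finset ℕ → (ℕ → ℝ) → ℝ
  mono : ∀ A B c d, (∀ a ∈ A, c a = 0 ∨ (a ∈ B ∧ |c a| ≤ |d a|)) → n A c ≤ n B d
  add : ∀ A c d, n A (c + d) ≤ n A c + n A d
  smul : ∀ A (t : ℝ) c, n A (t • c) = |t| * n A c
  single : ∀ a c, n {a} c = |c a|
  norming : ∀ A c (ε : ℝ), 0 < ε → ∃ w : ℕ → ℝ, (∀ B d, |∑ a ∈ B, w a * d a| ≤ n B d) ∧
    n A c - ε ≤ ∑ a ∈ A, w a * c a
  bc : ∀ (A : ℕ → Finset ℕ) (c : ℕ → ℝ) (ε : ℝ), 0 < ε →
    (∀ k l, k < l → ∀ a ∈ A k, ∀ b ∈ A l, a < b) → (∀ k, ε ≤ n (A k) c) →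
    ∀ M : ℝ, ∃ K, M < n ((Finset.range K).biUnion A) c

/-- the basis is asymptotically `c_0` -/
structure AC (U : UN) where
  C0 : ℝ
  g : ℕ → ℕ
  gmono : Monotone g
  ac : ∀ (m : ℕ) (A : ℕ → Finset ℕ) (c : ℕ → ℝ) (a : ℝ), 0 ≤ a →
    (∀ j < m, ∀ x ∈ A j, g m ≤ x) →
    (∀ i j, i < j → j < m → ∀ a ∈ A i, ∀ b ∈ A j, a < b) →
    (∀ j < m, U.n (A j) c ≤ a) → U.n ((Finset.range m).biUnion A) c ≤ C0 * a

/-- `m` disjoint vectors of the unit ball supported after `g` never behave like `ℓ_1^m` -/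
structure NL (U : UN) where
  m : ℕ
  mpos : 0 < m
  θ : ℝ
  θ_lt : θ < 1
  g : ℕ
  nl : ∀ (A : ℕ → Finset ℕ) (c : ℕ → ℝ), (∀ j < m, ∀ x ∈ A j, g ≤ x) →
    (∀ i j, i < j → j < m → Disjoint (A i) (A j)) →
    (∀ j < m, U.n (A j) c ≤ 1) → U.n ((Finset.range m).biUnion A) c ≤ θ * m

/-- tails of norm one functionals are small -/
def TailProp (U : UN) : Prop :=
  ∀ w : ℕ → ℝ, (∀ B d, |∑ a ∈ B, w a * d a| ≤ U.n B d) → ∀ ε : ℝ, 0 < ε →
    ∃ N, ∀ (B : Finset ℕ) (d : ℕ → ℝ), (∀ a ∈ B, N ≤ a) → |∑ a ∈ B, w a * d a| ≤ ε * U.n B d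

namespace UN

variable (U : UN)

theorem n_congr {A : Finset ℕ} {c d : ℕ → ℝ} (h : ∀ a ∈ A, c a = d a) : U.n A c = U.n A d :=
  le_antisymm (U.mono _ _ _ _ fun a ha => Or.inr ⟨ha, by rw [h a ha]⟩)
    (U.mono _ _ _ _ fun a ha => Or.inr ⟨ha, by rw [h a ha]⟩)

theorem n_zero (A : Finset ℕ) : U.n A 0 = 0 := by
  have := U.smul A 0 0
  simpa using this

theorem n_empty (c : ℕ → ℝ) : U.n ∅ c = 0 := by
  rw [U.n_congr (d := 0) (by simp), U.n_zero]

theorem n_nonneg (A : Finset ℕ) (c : ℕ → ℝ) : 0 ≤ U.n A c := by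
  rw [← U.n_empty c]
  exact U.mono _ _ _ _ (by simp)

theorem n_sub {A B : Finset ℕ} (h : A ⊆ B) (c : ℕ → ℝ) : U.n A c ≤ U.n B c :=
  U.mono _ _ _ _ fun a ha => Or.inr ⟨h ha, le_rfl⟩

theorem n_abs {A : Finset ℕ} {c d : ℕ → ℝ} (h : ∀ a ∈ A, |c a| ≤ |d a|) : U.n A c ≤ U.n A d :=
  U.mono _ _ _ _ fun a ha => Or.inr ⟨ha, h a ha⟩

theorem n_zero' {A : Finset ℕ} {c : ℕ → ℝ} (h : ∀ a ∈ A, c a = 0) : U.n A c = 0 := by
  rw [U.n_congr (d := 0) (by simpa using h), U.n_zero]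

theorem n_add (A : Finset ℕ) (c d : ℕ → ℝ) : U.n A (fun a => c a + d a) ≤ U.n A c + U.n A d :=
  U.add A c d

theorem n_neg (A : Finset ℕ) (c : ℕ → ℝ) : U.n A (fun a => - c a) = U.n A c :=
  le_antisymm (U.n_abs fun a _ => by simp) (U.n_abs fun a _ => by simp)

theorem n_sub' (A : Finset ℕ) (c d : ℕ → ℝ) : U.n A (fun a => c a - d a) ≤ U.n A c + U.n A d := by
  have := U.n_add A c (fun a => - d a)
  rw [U.n_neg] at this
  simpa [sub_eq_add_neg] using this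

theorem n_union (A B : Finset ℕ) (c : ℕ → ℝ) : U.n (A ∪ B) c ≤ U.n A c + U.n B c := by
  classical
  have h1 : U.n (A ∪ B) c = U.n (A ∪ B) (fun a => (if a ∈ A then c a else 0) +
      (if a ∈ A then 0 else c a)) := U.n_congr fun a _ => by by_cases h : a ∈ A <;> simp [h]
  rw [h1]
  refine (U.n_add _ _ _).trans (add_le_add ?_ ?_)
  · refine U.mono _ _ _ _ fun a _ => ?_
    by_cases h : a ∈ A
    · right; simp [h]
    · left; simp [h]
  · refine U.mono _ _ _ _ fun a ha => ?_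
    by_cases h : a ∈ A
    · left; simp [h]
    · right
      have : a ∈ B := by
        rcases Finset.mem_union.mp ha with h' | h'
        · exact (h h').elim
        · exact h'
      simp [h, this]

theorem n_biUnion {ι : Type*} (s : Finset ι) (B : ι → Finset ℕ) (c : ℕ → ℝ) :
    U.n (s.biUnion B) c ≤ ∑ i ∈ s, U.n (B i) c := by
  classical
  induction s using Finset.induction_on with
  | empty => simp [U.n_empty]
  | insert i s hi ih =>
    rw [Finset.biUnion_insert, Finset.sum_insert hi]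
    exact (U.n_union _ _ _).trans (by linarith)

theorem n_le_sum (A : Finset ℕ) (c : ℕ → ℝ) : U.n A c ≤ ∑ a ∈ A, |c a| := by
  have h1 : A = A.biUnion (fun a => {a}) := by ext; simp
  calc U.n A c = U.n (A.biUnion (fun a => {a})) c := by rw [← h1]
    _ ≤ ∑ i ∈ A, U.n {i} c := U.n_biUnion _ _ _
    _ = _ := by simp [U.single]

theorem abs_le_n {A : Finset ℕ} {a : ℕ} (ha : a ∈ A) (c : ℕ → ℝ) : |c a| ≤ U.n A c := by
  rw [← U.single a c]
  exact U.n_sub (by simpa using ha) c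

theorem n_limit {I : Type*} (V : Filter I) [NeBot V] (A : Finset ℕ) (c : I → ℕ → ℝ) (d : ℕ → ℝ)
    (h : ∀ a ∈ A, Tendsto (fun i => c i a) V (𝓝 (d a))) (C : ℝ)
    (hC : ∀ᶠ i in V, U.n A (c i) ≤ C) : U.n A d ≤ C := by
  have h1 : Tendsto (fun i => C + ∑ a ∈ A, |d a - c i a|) V (𝓝 (C + ∑ a ∈ A, |d a - d a|)) := by
    refine tendsto_const_nhds.add (tendsto_finsetSum _ fun a ha => ?_)
    exact (tendsto_const_nhds.sub (h a ha)).abs
  have h2 : ∀ᶠ i in V, U.n A d ≤ C + ∑ a ∈ A, |d a - c i a| := by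
    filter_upwards [hC] with i hi
    have e : U.n A d = U.n A (fun a => c i a + (d a - c i a)) := U.n_congr fun a _ => by ring
    rw [e]
    exact (U.n_add _ _ _).trans (add_le_add hi (U.n_le_sum _ _))
  have := ge_of_tendsto h1 h2
  simpa using this

end UN

namespace AC

variable {U : UN} (H : AC U)

theorem C0_nonneg : 0 ≤ H.C0 := by
  have := H.ac 0 (fun _ => ∅) 0 1 zero_le_one (by simp) (by simp) (by simp)
  simpa [U.n_empty] using this

/-- few coordinates, far out -/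
theorem n_few (A : Finset ℕ) (c : ℕ → ℝ) (a : ℝ) (ha : 0 ≤ a) (h : ∀ x ∈ A, H.g A.card ≤ x)
    (hc : ∀ x ∈ A, |c x| ≤ a) : U.n A c ≤ H.C0 * a := by
  classical
  let B : ℕ → Finset ℕ := fun j => if hj : j < A.card then {A.orderEmbOfFin rfl ⟨j, hj⟩} else ∅
  have hB : A = (Finset.range A.card).biUnion B := by
    ext x
    simp only [Finset.mem_biUnion, Finset.mem_range]
    constructor
    · intro hx
      have : x ∈ Set.range (A.orderEmbOfFin rfl) := by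
        rw [Finset.range_orderEmbOfFin]; exact hx
      obtain ⟨i, rfl⟩ := this
      exact ⟨i.1, i.2, by simp [B]⟩
    · rintro ⟨j, hj, hx⟩
      simp only [B, hj, dif_pos, Finset.mem_singleton] at hx
      rw [hx]
      exact Finset.orderEmbOfFin_mem _ _ _
  have := H.ac A.card B c a ha ?_ ?_ ?_
  · rw [← hB] at this
    exact this
  · intro j hj x hx
    simp only [B, hj, dif_pos, Finset.mem_singleton] at hx
    rw [hx]
    exact h _ (Finset.orderEmbOfFin_mem _ _ _)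
  · intro i j hij hj x hx y hy
    simp only [B, hj, dif_pos, Finset.mem_singleton] at hy
    simp only [B, hij.trans hj, dif_pos, Finset.mem_singleton] at hx
    rw [hx, hy]
    exact (A.orderEmbOfFin rfl).lt_iff_lt.mpr (by simpa using hij)
  · intro j hj
    simp only [B, hj, dif_pos, U.single]
    exact hc _ (Finset.orderEmbOfFin_mem _ _ _)

end AC

/-- `S` is a segment (empty, finite or infinite) which starts at `a` unless it is empty. -/
structure IsSeg (T : TreeOrd) (a : ℕ) (S : Set ℕ) : Prop where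
  ge : ∀ γ ∈ S, T.le a γ
  conv : ∀ γ ∈ S, ∀ β, T.le a β → T.le β γ → β ∈ S
  chain : ∀ γ ∈ S, ∀ γ' ∈ S, T.le γ γ' ∨ T.le γ' γ

theorem IsSeg.empty (T : TreeOrd) (a : ℕ) : IsSeg T a ∅ := ⟨by simp, by simp, by simp⟩

theorem IsSeg.trunc {T : TreeOrd} {a : ℕ} {S : Set ℕ} (h : IsSeg T a S) (n : ℕ) :
    IsSeg T a (S ∩ Set.Iio n) where
  ge γ hγ := h.ge γ hγ.1
  conv γ hγ β h1 h2 := ⟨h.conv γ hγ.1 β h1 h2, lt_of_le_of_lt (T.le_nat _ _ h2) hγ.2⟩
  chain γ hγ γ' hγ' := h.chain γ hγ.1 γ' hγ'.1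

theorem IsSeg.start_mem {T : TreeOrd} {a : ℕ} {S : Set ℕ} (h : IsSeg T a S) (hS : S.Nonempty) :
    a ∈ S := by
  obtain ⟨γ, hγ⟩ := hS
  exact h.conv γ hγ a (T.refl a) (h.ge γ hγ)

theorem IsSeg.le_of_mem {T : TreeOrd} {a : ℕ} {S : Set ℕ} (h : IsSeg T a S) {γ : ℕ}
    (hγ : γ ∈ S) : a ≤ γ := T.le_nat _ _ (h.ge γ hγ)

/-- the part of a segment above `n` is a segment -/
theorem IsSeg.upper {T : TreeOrd} {a : ℕ} {S : Set ℕ} (h : IsSeg T a S) (n : ℕ)
    (hS : (S ∩ Set.Ici n).Nonempty) : ∃ a', n ≤ a' ∧ IsSeg T a' (S ∩ Set.Ici n) := by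
  classical
  have hex : ∃ k, k ∈ S ∩ Set.Ici n := hS
  refine ⟨Nat.find hex, (Nat.find_spec hex).2, ⟨?_, ?_, ?_⟩⟩
  · intro γ hγ
    have h1 : Nat.find hex ≤ γ := Nat.find_min' hex hγ
    rcases h.chain _ (Nat.find_spec hex).1 γ hγ.1 with h2 | h2
    · exact h2
    · have := T.le_nat _ _ h2
      have e : Nat.find hex = γ := le_antisymm h1 this
      rw [e]
      exact T.refl _
  · intro γ hγ β h1 h2
    refine ⟨h.conv γ hγ.1 β (T.trans _ _ _ (h.ge _ (Nat.find_spec hex).1) h1) h2, ?_⟩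
    exact le_trans (Nat.find_spec hex).2 (T.le_nat _ _ h1)
  · intro γ hγ γ' hγ'
    exact h.chain γ hγ.1 γ' hγ'.1

/-- `val` is a valuation of segments in the class `𝒞`, bounded by `M`. -/
def VB (U : UN) (T : TreeOrd) (𝒞 : Set ℕ → Prop) (val : Set ℕ → ℝ) (M : ℝ) : Prop :=
  ∀ (A : Finset ℕ) (s : ℕ → Set ℕ), (∀ a ∈ A, IsSeg T a (s a) ∧ 𝒞 (s a)) →
    (∀ a ∈ A, ∀ b ∈ A, a ≠ b → Disjoint (s a) (s b)) → U.n A (fun a => val (s a)) ≤ M

theorem seq_contra {U : UN} {T : TreeOrd} {𝒞 : Set ℕ → Prop} {val : Set ℕ → ℝ} {M : ℝ}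
    (h : VB U T 𝒞 val M) (A : ℕ → Finset ℕ) (s : ℕ → ℕ → Set ℕ)
    (hs : ∀ k, ∀ a ∈ A k, IsSeg T a (s k a) ∧ 𝒞 (s k a))
    (hd : ∀ k, ∀ a ∈ A k, ∀ b ∈ A k, a ≠ b → Disjoint (s k a) (s k b))
    (hlt : ∀ k l, k < l → ∀ a ∈ A k, ∀ b ∈ A l, a < b)
    (hdd : ∀ k l, k < l → ∀ a ∈ A k, ∀ b ∈ A l, Disjoint (s k a) (s l b))
    (ε : ℝ) (hε : 0 < ε) (hn : ∀ k, ε ≤ U.n (A k) (fun a => val (s k a))) : False := by
  classical
  let kk : ℕ → ℕ := fun a => if h : ∃ k, a ∈ A k then h.choose else 0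
  have hkk : ∀ k, ∀ a ∈ A k, kk a = k := by
    intro k a ha
    have hex : ∃ k, a ∈ A k := ⟨k, ha⟩
    have h1 : a ∈ A (kk a) := by
      simp only [kk, dif_pos hex]
      exact hex.choose_spec
    by_contra hne
    rcases lt_or_gt_of_ne hne with h2 | h2
    · exact lt_irrefl _ (hlt _ _ h2 a h1 a ha)
    · exact lt_irrefl _ (hlt _ _ h2 a ha a h1)
  obtain ⟨K, hK⟩ := U.bc A (fun a => val (s (kk a) a)) ε hε hlt (fun k => by
    rw [U.n_congr (d := fun a => val (s k a)) (fun a ha => by rw [hkk k a ha])]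
    exact hn k) M
  have := h ((Finset.range K).biUnion A) (fun a => s (kk a) a) ?_ ?_
  · linarith
  · intro a ha
    obtain ⟨k, _, hk⟩ := Finset.mem_biUnion.mp ha
    rw [hkk k a hk]
    exact hs k a hk
  · intro a ha b hb hab
    obtain ⟨k, _, hk⟩ := Finset.mem_biUnion.mp ha
    obtain ⟨l, _, hl⟩ := Finset.mem_biUnion.mp hb
    rw [hkk k a hk, hkk l b hl]
    rcases lt_trichotomy k l with h1 | h1 | h1
    · exact hdd k l h1 a hk b hl
    · subst h1
      exact hd k a hk b hl hab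
    · exact (hdd l k h1 b hl a hk).symm

theorem extract {U : UN} {T : TreeOrd} {𝒞 : Set ℕ → Prop} {val : Set ℕ → ℝ} {M : ℝ}
    (h : VB U T 𝒞 val M) (A : ℕ → Finset ℕ) (s : ℕ → ℕ → Set ℕ)
    (hs : ∀ k, ∀ a ∈ A k, IsSeg T a (s k a) ∧ 𝒞 (s k a))
    (hd : ∀ k, ∀ a ∈ A k, ∀ b ∈ A k, a ≠ b → Disjoint (s k a) (s k b))
    (ε : ℝ) (hε : 0 < ε) (hn : ∀ k, ε ≤ U.n (A k) (fun a => val (s k a)))
    (conf : ℕ → ℕ → Finset ℕ)
    (hconf : ∀ k l, ∀ b ∈ A l, (∃ a ∈ A k, b ≤ a ∨ ¬ Disjoint (s k a) (s l b)) → b ∈ conf k l)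
    (hsmall : ∀ k, ∀ η > 0, ∀ᶠ l in atTop, U.n (conf k l) (fun a => val (s l a)) ≤ η) :
    False := by
  classical
  obtain ⟨f, -, hf⟩ := exists_seq_of_forall_finset_exists (α := ℕ) (fun _ => True)
    (fun k l => k < l ∧ U.n (conf k l) (fun a => val (s l a)) ≤ ε / 2 ^ (k + 2)) (by
      intro S _
      have h1 : ∀ k ∈ S, ∀ᶠ l in atTop, (k < l ∧
          U.n (conf k l) (fun a => val (s l a)) ≤ ε / 2 ^ (k + 2)) := by
        intro k _
        exact (eventually_gt_atTop k).and (hsmall k _ (by positivity))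
      obtain ⟨l, hl⟩ := ((Filter.eventually_all_finset S).mpr h1).exists
      exact ⟨l, trivial, hl⟩)
  have hmono : StrictMono f := fun i j hij => (hf i j hij).1
  let A' : ℕ → Finset ℕ := fun j =>
    (A (f j)).filter (fun b => ∀ i < j, b ∉ conf (f i) (f j))
  have hsub : ∀ j, A' j ⊆ A (f j) := fun j => Finset.filter_subset _ _
  refine seq_contra h A' (fun j => s (f j)) (fun k a ha => hs _ _ (hsub k ha))
    (fun k a ha b hb hab => hd _ a (hsub k ha) b (hsub k hb) hab) ?_ ?_ (ε / 2) (by linarith) ?_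
  · intro k l hkl a ha b hb
    by_contra hlt
    push Not at hlt
    have h1 := (Finset.mem_filter.mp hb).2 k hkl
    exact h1 (hconf _ _ b (hsub l hb) ⟨a, hsub k ha, Or.inl hlt⟩)
  · intro k l hkl a ha b hb
    by_contra hlt
    have h1 := (Finset.mem_filter.mp hb).2 k hkl
    exact h1 (hconf _ _ b (hsub l hb) ⟨a, hsub k ha, Or.inr hlt⟩)
  · intro j
    have h1 : A (f j) ⊆ A' j ∪ (Finset.range j).biUnion (fun i => conf (f i) (f j)) := by
      intro b hb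
      by_cases h2 : ∀ i < j, b ∉ conf (f i) (f j)
      · exact Finset.mem_union_left _ (Finset.mem_filter.mpr ⟨hb, h2⟩)
      · push Not at h2
        obtain ⟨i, hi, hb'⟩ := h2
        exact Finset.mem_union_right _ (Finset.mem_biUnion.mpr ⟨i, Finset.mem_range.mpr hi, hb'⟩)
    have h2 := (hn (f j)).trans ((U.n_sub h1 _).trans (U.n_union _ _ _))
    have h3 : U.n ((Finset.range j).biUnion (fun i => conf (f i) (f j)))
        (fun a => val (s (f j) a)) ≤ ε / 2 := by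
      refine (U.n_biUnion _ _ _).trans ?_
      have h4 : ∀ i ∈ Finset.range j, U.n (conf (f i) (f j)) (fun a => val (s (f j) a)) ≤
          ε / 4 * (1 / 2) ^ i := by
        intro i hi
        refine (hf i j (Finset.mem_range.mp hi)).2.trans ?_
        have h5 : i ≤ f i := hmono.id_le i
        rw [one_div, inv_pow, ← div_eq_mul_inv, div_div]
        refine div_le_div_of_nonneg_left hε.le (by positivity) ?_
        calc (4 : ℝ) * 2 ^ i = 2 ^ (i + 2) := by ring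
          _ ≤ 2 ^ (f i + 2) := pow_le_pow_right₀ (by norm_num) (by omega)
      refine (Finset.sum_le_sum h4).trans ?_
      rw [← Finset.mul_sum]
      have h6 : ∑ i ∈ Finset.range j, (1 / 2 : ℝ) ^ i ≤ 2 := by
        rw [geom_sum_eq (by norm_num)]
        have : (0 : ℝ) < (1 / 2) ^ j := by positivity
        rw [div_le_iff_of_neg (by norm_num)]
        linarith
      nlinarith
    linarith

end Pool.Agent.Helper52.Tj
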