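import Mathlib

open Filter Topology

namespace Pool.Agent.Helper52.Tj

/-- `φ` is a coarse embedding: there are nondecreasing `ρ, ω : [0, ∞) → [0, ∞)` with `ρ → ∞` and
`ρ (d (x, x')) ≤ d (φ x, φ x') ≤ ω (d (x, x'))` for all `x, x'`. -/
def IsCoarseEmbedding {X Y : Type*} [PseudoMetricSpace X] [PseudoMetricSpace Y]
    (φ : X → Y) : Prop :=
  ∃ ρ ω : ℝ → ℝ, MonotoneOn ρ (Set.Ici 0) ∧ MonotoneOn ω (Set.Ici 0) ∧
    (∀ t, 0 ≤ t → 0 ≤ ρ t ∧ 0 ≤ ω t) ∧ Tendsto ρ atTop atTop ∧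
    ∀ x x', ρ (dist x x') ≤ dist (φ x) (φ x') ∧ dist (φ x) (φ x') ≤ ω (dist x x')

/-- The segment `[α, β]` of the full binary tree of finite 0-1 sequences ordered by extension. -/
def segment (α β : List Bool) : Set (List Bool) := {γ | α <+: γ ∧ γ <+: β}

open Classical in
/-- `S(x) = ∑_{γ ∈ S} x(γ)` for a finitely supported `x`. -/
noncomputable def segSum (S : Set (List Bool)) (x : List Bool →₀ ℝ) : ℝ :=
  ∑ γ ∈ x.support.filter (fun γ => γ ∈ S), x γ

/-- The James tree norm over the norm `nE` of finite combinations of the basis of `E`: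
the supremum of `‖∑ S_i(x) e_{o(S_i)}‖_E` over finite families of pairwise disjoint segments. -/
noncomputable def jtNorm (nE : (ℕ →₀ ℝ) → ℝ) (o : List Bool ≃ ℕ) (x : List Bool →₀ ℝ) : ℝ :=
  sSup {r | ∃ (k : ℕ) (α β : Fin k → List Bool), (∀ i, α i <+: β i) ∧
    (∀ i j, i ≠ j → Disjoint (segment (α i) (β i)) (segment (α j) (β j))) ∧
    r = nE (∑ i, Finsupp.single (o (α i)) (segSum (segment (α i) (β i)) x))}

/-- `Y` with the map `ι` is the completion of the finitely supported functions on the tree under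
the James tree norm, that is, `Y` is the James tree space over the basis. -/
structure IsJamesTree (nE : (ℕ →₀ ℝ) → ℝ) (o : List Bool ≃ ℕ) (Y : Type*)
    [NormedAddCommGroup Y] [NormedSpace ℝ Y] (ι : (List Bool →₀ ℝ) →ₗ[ℝ] Y) : Prop where
  complete : CompleteSpace Y
  dense : DenseRange ι
  norm_eq : ∀ x, ‖ι x‖ = jtNorm nE o x

/-- Finite sets `n ≤ E_1 < ... < E_n`; the coordinate `i` carries the number `i + s`, so that
`s = 0` and `s = 1` correspond to numbering the coordinates from `0` and from `1`. -/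
def Admissible (s n : ℕ) (E : Fin n → Finset ℕ) : Prop :=
  (∀ j, ∀ i ∈ E j, n ≤ i + s) ∧ ∀ j j', j < j' → ∀ i ∈ E j, ∀ i' ∈ E j', i < i'

/-- `N` is the Figiel–Johnson norm on `c_00`:
`N x = max (‖x‖_∞, 1/2 sup ∑_j N (E_j x))`, the supremum over admissible families. -/
structure IsTsirelsonNorm (s : ℕ) (N : (ℕ →₀ ℝ) → ℝ) : Prop where
  add_le : ∀ x y, N (x + y) ≤ N x + N y
  smul_eq : ∀ (t : ℝ) x, N (t • x) = |t| * N x
  isLUB : ∀ x : ℕ →₀ ℝ, IsLUB ({r | ∃ i, r = |x i|} ∪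
    {r | ∃ (n : ℕ) (E : Fin n → Finset ℕ), Admissible s n E ∧
      r = 1 / 2 * ∑ j, N (x.filter (fun i => i ∈ E j))}) (N x)

/-- The norm of `∑ y_i e_i^*` in the dual: the supremum of `∑ x_i y_i` over `N x ≤ 1`. -/
noncomputable def dualNorm (N : (ℕ →₀ ℝ) → ℝ) (y : ℕ →₀ ℝ) : ℝ :=
  sSup {r | ∃ x : ℕ →₀ ℝ, N x ≤ 1 ∧ r = y.sum (fun i t => x i * t)}

/-- Under the norm `nE` the unit vectors of `c_00` are a normalized unconditional basis which is
boundedly complete and asymptotically `c_0`: for some `C` and all `n`, any `n` successive blocks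
that are supported far enough have a sum of norm at most `C` times the largest of their norms. -/
structure IsAsymptoticC0Basis (nE : (ℕ →₀ ℝ) → ℝ) : Prop where
  add_le : ∀ x y, nE (x + y) ≤ nE x + nE y
  smul_eq : ∀ (t : ℝ) x, nE (t • x) = |t| * nE x
  normalized : ∀ i, nE (Finsupp.single i 1) = 1
  unconditional : ∃ K : ℝ, ∀ x y : ℕ →₀ ℝ, (∀ i, |x i| ≤ |y i|) → nE x ≤ K * nE y
  boundedly_complete : ∀ a : ℕ → ℝ,
    (∃ M, ∀ n, nE (∑ i ∈ Finset.range n, Finsupp.single i (a i)) ≤ M) →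
    ∀ ε > 0, ∃ n₀, ∀ m n, n₀ ≤ m → m ≤ n →
      nE (∑ i ∈ Finset.Ico m n, Finsupp.single i (a i)) ≤ ε
  asymptotic_c0 : ∃ C : ℝ, ∀ n : ℕ, ∃ p : ℕ, ∀ z : Fin n → ℕ →₀ ℝ,
    (∀ j, ∀ i ∈ (z j).support, p ≤ i) →
    (∀ j j', j < j' → ∀ i ∈ (z j).support, ∀ i' ∈ (z j').support, i < i') →
    ∀ a, 0 ≤ a → (∀ j, nE (z j) ≤ a) → nE (∑ j, z j) ≤ C * a

end Pool.Agent.Helper52.Tj
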