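import Mathlib

namespace Pool.Agent.Helper52.Tj

/-- Under the norm `nE` the unit vectors of `c_00` form a normalized unconditional boundedly
complete basis (of the completion `E`). -/
structure IsUnconditionalBCBasis (nE : (ℕ →₀ ℝ) → ℝ) : Prop where
  add_le : ∀ x y, nE (x + y) ≤ nE x + nE y
  smul_eq : ∀ (t : ℝ) x, nE (t • x) = |t| * nE x
  normalized : ∀ i, nE (Finsupp.single i 1) = 1
  unconditional : ∃ K : ℝ, ∀ x y : ℕ →₀ ℝ, (∀ i, |x i| ≤ |y i|) → nE x ≤ K * nE y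
  boundedly_complete : ∀ a : ℕ → ℝ,
    (∃ M, ∀ n, nE (∑ i ∈ Finset.range n, Finsupp.single i (a i)) ≤ M) →
    ∀ ε > 0, ∃ n₀, ∀ m n, n₀ ≤ m → m ≤ n →
      nE (∑ i ∈ Finset.Ico m n, Finsupp.single i (a i)) ≤ ε

/-- The basis is asymptotically `c_0`: for some `C` and all `n`, any `n` successive blocks
supported far enough have a sum of norm at most `C` times the largest of their norms. -/
def IsAsymptoticallyC0 (nE : (ℕ →₀ ℝ) → ℝ) : Prop :=
  ∃ C : ℝ, ∀ n : ℕ, ∃ p : ℕ, ∀ z : Fin n → ℕ →₀ ℝ,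
    (∀ j, ∀ i ∈ (z j).support, p ≤ i) →
    (∀ j j', j < j' → ∀ i ∈ (z j).support, ∀ i' ∈ (z j').support, i < i') →
    ∀ a, 0 ≤ a → (∀ j, nE (z j) ≤ a) → nE (∑ j, z j) ≤ C * a

/-- Averages of disjointly supported far vectors of the unit ball are small: for every `ε > 0`
there are `n ≥ 1` and `p` such that any `n` disjointly supported vectors of the unit ball
supported after `p` have a sum of norm at most `ε * n`. -/
def HasSmallDisjointAverages (nE : (ℕ →₀ ℝ) → ℝ) : Prop :=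
  ∀ ε : ℝ, 0 < ε → ∃ n p : ℕ, 0 < n ∧ ∀ z : Fin n → ℕ →₀ ℝ,
    (∀ j, ∀ i ∈ (z j).support, p ≤ i) →
    (∀ j j', j ≠ j' → Disjoint (z j).support (z j').support) →
    (∀ j, nE (z j) ≤ 1) → nE (∑ j, z j) ≤ ε * n

end Pool.Agent.Helper52.Tj
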