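import Pool.Agent.Helper52.TjDefs
import Pool.Agent.Helper52.TjCore

open Filter Topology

namespace Pool.Agent.Helper52.Tj

/-- normalized, boundedly complete, with unconditional constant one -/
structure IsGood (nE : (ℕ →₀ ℝ) → ℝ) : Prop where
  add_le : ∀ x y, nE (x + y) ≤ nE x + nE y
  smul_eq : ∀ (t : ℝ) x, nE (t • x) = |t| * nE x
  normalized : ∀ i, nE (Finsupp.single i 1) = 1
  unconditional : ∀ x y : ℕ →₀ ℝ, (∀ i, |x i| ≤ |y i|) → nE x ≤ nE y
  boundedly_complete : ∀ a : ℕ → ℝ,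
    (∃ M, ∀ n, nE (∑ i ∈ Finset.range n, Finsupp.single i (a i)) ≤ M) →
    ∀ ε > 0, ∃ n₀, ∀ m n, n₀ ≤ m → m ≤ n →
      nE (∑ i ∈ Finset.Ico m n, Finsupp.single i (a i)) ≤ ε

/-- asymptotically `c_0` -/
def AsC0 (nE : (ℕ →₀ ℝ) → ℝ) : Prop :=
  ∃ C : ℝ, ∀ n : ℕ, ∃ p : ℕ, ∀ z : Fin n → ℕ →₀ ℝ,
    (∀ j, ∀ i ∈ (z j).support, p ≤ i) →
    (∀ j j', j < j' → ∀ i ∈ (z j).support, ∀ i' ∈ (z j').support, i < i') →
    ∀ a, 0 ≤ a → (∀ j, nE (z j) ≤ a) → nE (∑ j, z j) ≤ C * a

/-- for some `n`, no `n` disjoint vectors of the unit ball supported far out behave like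
the unit vectors of `ℓ_1^n` -/
def NoL1 (nE : (ℕ →₀ ℝ) → ℝ) : Prop :=
  ∃ (n p : ℕ) (θ : ℝ), 0 < n ∧ θ < 1 ∧ ∀ z : Fin n → ℕ →₀ ℝ,
    (∀ j, ∀ i ∈ (z j).support, p ≤ i) →
    (∀ j j', j ≠ j' → Disjoint (z j).support (z j').support) →
    (∀ j, nE (z j) ≤ 1) → nE (∑ j, z j) ≤ θ * n

/-- the vector `∑_{a ∈ A} c a e_a` -/
noncomputable def vec (A : Finset ℕ) (c : ℕ → ℝ) : ℕ →₀ ℝ := ∑ a ∈ A, Finsupp.single a (c a)

theorem vec_apply (A : Finset ℕ) (c : ℕ → ℝ) (i : ℕ) : vec A c i = if i ∈ A then c i else 0 := by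
  classical
  unfold vec
  rw [Finsupp.finsetSum_apply]
  simp only [Finsupp.single_apply]
  rw [Finset.sum_ite_eq' A i]

theorem vec_add (A : Finset ℕ) (c d : ℕ → ℝ) : vec A (c + d) = vec A c + vec A d := by
  unfold vec
  rw [← Finset.sum_add_distrib]
  exact Finset.sum_congr rfl fun a _ => by rw [Pi.add_apply, Finsupp.single_add]

theorem vec_smul (A : Finset ℕ) (t : ℝ) (c : ℕ → ℝ) : vec A (t • c) = t • vec A c := by
  unfold vec
  rw [Finset.smul_sum]
  exact Finset.sum_congr rfl fun a _ => by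
    rw [Pi.smul_apply, smul_eq_mul, Finsupp.smul_single, smul_eq_mul]

namespace IsGood

variable {nE : (ℕ →₀ ℝ) → ℝ} (h : IsGood nE)

include h

theorem neg (x : ℕ →₀ ℝ) : nE (-x) = nE x := by
  have := h.smul_eq (-1) x
  simpa using this

theorem zero : nE 0 = 0 := by
  have := h.smul_eq 0 0
  simpa using this

theorem nonneg (x : ℕ →₀ ℝ) : 0 ≤ nE x := by
  rw [← h.zero]
  exact h.unconditional _ _ fun i => by simp

theorem norming (A : Finset ℕ) (c : ℕ → ℝ) : ∃ w : ℕ → ℝ,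
    (∀ B d, |∑ a ∈ B, w a * d a| ≤ nE (vec B d)) ∧ nE (vec A c) ≤ ∑ a ∈ A, w a * c a := by
  by_cases hz : vec A c = 0
  · refine ⟨fun _ => 0, fun B d => by simpa using h.nonneg _, ?_⟩
    rw [hz, h.zero]
    simp
  · let f : (ℕ →₀ ℝ) →ₗ.[ℝ] ℝ := LinearPMap.mkSpanSingleton (vec A c) (nE (vec A c)) hz
    have hf : ∀ (t : ℝ) (hx : t • vec A c ∈ f.domain), f ⟨t • vec A c, hx⟩ = t * nE (vec A c) :=
      fun t hx => LinearPMap.mkSpanSingleton'_apply _ _ _ t hx
    obtain ⟨g, hg1, hg2⟩ := exists_extension_of_le_sublinear f nE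
      (fun t ht x => by rw [h.smul_eq, abs_of_pos ht]) h.add_le (by
        rintro ⟨x, hx⟩
        obtain ⟨t, rfl⟩ := Submodule.mem_span_singleton.mp hx
        rw [hf, h.smul_eq]
        exact mul_le_mul_of_nonneg_right (le_abs_self t) (h.nonneg _))
    have hsum : ∀ B d, ∑ a ∈ B, g (Finsupp.single a 1) * d a = g (vec B d) := by
      intro B d
      unfold vec
      rw [map_sum]
      refine Finset.sum_congr rfl fun a _ => ?_
      have : Finsupp.single a (d a) = d a • Finsupp.single a (1 : ℝ) := by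
        rw [Finsupp.smul_single, smul_eq_mul, mul_one]
      rw [this, map_smul, smul_eq_mul, mul_comm]
    refine ⟨fun a => g (Finsupp.single a 1), fun B d => ?_, ?_⟩
    · rw [hsum, abs_le]
      refine ⟨?_, hg2 _⟩
      have := hg2 (-(vec B d))
      rw [map_neg, h.neg] at this
      linarith
    · rw [hsum]
      have hmem : (1 : ℝ) • vec A c ∈ f.domain :=
        Submodule.mem_span_singleton.mpr ⟨1, rfl⟩
      have h1 := hg1 ⟨(1 : ℝ) • vec A c, hmem⟩
      rw [hf] at h1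
      simp only [one_smul, one_mul] at h1
      exact h1.symm.le

theorem bc (A : ℕ → Finset ℕ) (c : ℕ → ℝ) (ε : ℝ) (hε : 0 < ε)
    (hA : ∀ k l, k < l → ∀ a ∈ A k, ∀ b ∈ A l, a < b) (hn : ∀ k, ε ≤ nE (vec (A k) c))
    (M : ℝ) : ∃ K, M < nE (vec ((Finset.range K).biUnion A) c) := by
  classical
  by_contra hcon
  push Not at hcon
  have hne : ∀ k, (A k).Nonempty := by
    intro k
    by_contra h1
    rw [Finset.not_nonempty_iff_eq_empty] at h1
    have h2 := hn k
    rw [h1] at h2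
    have h3 : vec ∅ c = 0 := by simp [vec]
    rw [h3, h.zero] at h2
    linarith
  have hge : ∀ k, ∀ a ∈ A k, k ≤ a := by
    intro k
    induction k with
    | zero => intro a _; exact Nat.zero_le a
    | succ k ih =>
      intro a ha
      obtain ⟨b, hb⟩ := hne k
      have h1 := hA k (k + 1) (Nat.lt_succ_self k) b hb a ha
      have h2 := ih b hb
      omega
  let a : ℕ → ℝ := fun i => if ∃ k, i ∈ A k then c i else 0
  have hbd : ∃ M, ∀ n, nE (∑ i ∈ Finset.range n, Finsupp.single i (a i)) ≤ M := by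
    refine ⟨M, fun n => ?_⟩
    refine (h.unconditional _ _ fun i => ?_).trans (hcon n)
    change |vec (Finset.range n) a i| ≤ _
    rw [vec_apply, vec_apply]
    by_cases hi : i ∈ Finset.range n
    · rw [if_pos hi]
      by_cases hk : ∃ k, i ∈ A k
      · have hk' := hk
        obtain ⟨k, hk⟩ := hk
        have h1 : i ∈ (Finset.range n).biUnion A := Finset.mem_biUnion.mpr
          ⟨k, Finset.mem_range.mpr (lt_of_le_of_lt (hge k i hk) (Finset.mem_range.mp hi)), hk⟩
        rw [if_pos h1]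
        simp only [a, if_pos hk']
        exact le_rfl
      · simp only [a, if_neg hk, abs_zero]
        exact abs_nonneg _
    · rw [if_neg hi, abs_zero]
      exact abs_nonneg _
  obtain ⟨n₀, hn₀⟩ := h.boundedly_complete a hbd (ε / 2) (by linarith)
  have h1 := hn₀ n₀ (max n₀ ((A n₀).sup id + 1)) le_rfl (le_max_left _ _)
  have h2 : nE (vec (A n₀) c) ≤ ε / 2 := by
    refine (h.unconditional _ _ fun i => ?_).trans h1
    change _ ≤ |vec (Finset.Ico n₀ (max n₀ ((A n₀).sup id + 1))) a i|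
    rw [vec_apply, vec_apply]
    by_cases hi : i ∈ A n₀
    · rw [if_pos hi]
      have h3 : i ∈ Finset.Ico n₀ (max n₀ ((A n₀).sup id + 1)) := by
        rw [Finset.mem_Ico]
        refine ⟨hge _ _ hi, ?_⟩
        have : i ≤ (A n₀).sup id := Finset.le_sup (f := id) hi
        exact lt_of_lt_of_le (by omega) (le_max_right _ _)
      rw [if_pos h3]
      have h4 : ∃ k, i ∈ A k := ⟨n₀, hi⟩
      simp only [a, if_pos h4]
      exact le_rfl
    · rw [if_neg hi, abs_zero]
      exact abs_nonneg _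
  have := hn n₀
  linarith

/-- the abstract norm -/
noncomputable def toUN : UN where
  n A c := nE (vec A c)
  mono A B c d hcd := by
    refine h.unconditional _ _ fun i => ?_
    rw [vec_apply, vec_apply]
    by_cases hi : i ∈ A
    · rw [if_pos hi]
      rcases hcd i hi with h1 | h1
      · rw [h1, abs_zero]; exact abs_nonneg _
      · rw [if_pos h1.1]; exact h1.2
    · rw [if_neg hi, abs_zero]; exact abs_nonneg _
  add A c d := by rw [vec_add]; exact h.add_le _ _
  smul A t c := by rw [vec_smul]; exact h.smul_eq _ _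
  single a c := by
    have : vec {a} c = c a • Finsupp.single a (1 : ℝ) := by
      unfold vec
      rw [Finset.sum_singleton, Finsupp.smul_single, smul_eq_mul, mul_one]
    rw [this, h.smul_eq, h.normalized, mul_one]
  norming A c ε hε := by
    obtain ⟨w, h1, h2⟩ := h.norming A c
    exact ⟨w, h1, by linarith⟩
  bc := h.bc

theorem toUN_n (A : Finset ℕ) (c : ℕ → ℝ) : h.toUN.n A c = nE (vec A c) := rfl

omit h in
theorem vec_biUnion (m : ℕ) (A : ℕ → Finset ℕ) (c : ℕ → ℝ)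
    (h2 : ∀ i j, i < j → j < m → Disjoint (A i) (A j)) :
    vec ((Finset.range m).biUnion A) c = ∑ j : Fin m, vec (A j) c := by
  classical
  rw [Fin.sum_univ_eq_sum_range (fun j => vec (A j) c) m]
  unfold vec
  rw [Finset.sum_biUnion]
  intro i hi j hj hij
  rw [Function.onFun]
  have hi' := Finset.mem_range.mp (Finset.mem_coe.mp hi)
  have hj' := Finset.mem_range.mp (Finset.mem_coe.mp hj)
  rcases lt_or_gt_of_ne hij with h5 | h5
  · exact h2 i j h5 hj'
  · exact (h2 j i h5 hi').symm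

omit h in
theorem vec_supp (A : Finset ℕ) (c : ℕ → ℝ) : ∀ i ∈ (vec A c).support, i ∈ A := by
  intro i hi
  rw [Finsupp.mem_support_iff, vec_apply] at hi
  by_contra h5
  exact hi (if_neg h5)

omit h in
theorem ac (hC : AsC0 nE) : ∃ (C : ℝ) (g : ℕ → ℕ), Monotone g ∧
    ∀ (m : ℕ) (A : ℕ → Finset ℕ) (c : ℕ → ℝ) (a : ℝ), 0 ≤ a →
    (∀ j < m, ∀ x ∈ A j, g m ≤ x) →
    (∀ i j, i < j → j < m → ∀ a ∈ A i, ∀ b ∈ A j, a < b) →
    (∀ j < m, nE (vec (A j) c) ≤ a) → nE (vec ((Finset.range m).biUnion A) c) ≤ C * a := by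
  classical
  obtain ⟨C, hC⟩ := hC
  choose p hp using hC
  refine ⟨C, fun n => (Finset.range (n + 1)).sup p, ?_, ?_⟩
  · intro m n hmn
    exact Finset.sup_mono (Finset.range_mono (by omega))
  · intro m A c a h0 h1 h2 h3
    rw [vec_biUnion m A c fun i j hij hj => by
      rw [Finset.disjoint_left]
      intro x hx hx'
      exact lt_irrefl _ (h2 i j hij hj x hx x hx')]
    refine hp m _ (fun j i hi => ?_) (fun j j' hjj' i hi i' hi' => ?_) a h0
      (fun j => h3 j j.2)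
    · have h5 := h1 j j.2 i (vec_supp _ _ i hi)
      have h6 : p m ≤ (Finset.range (m + 1)).sup p :=
        Finset.le_sup (Finset.mem_range.mpr (Nat.lt_succ_self m))
      exact h6.trans h5
    · exact h2 j j' hjj' j'.2 i (vec_supp _ _ i hi) i' (vec_supp _ _ i' hi')

theorem toAC (hC : AsC0 nE) : Nonempty (AC h.toUN) := by
  obtain ⟨C, g, h1, h2⟩ := ac hC
  exact ⟨⟨C, g, h1, h2⟩⟩

theorem toNL (hC : NoL1 nE) : Nonempty (NL h.toUN) := by
  obtain ⟨n, p, θ, h1, h2, h3⟩ := hC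
  refine ⟨⟨n, h1, θ, h2, p, fun A c g1 g2 g3 => ?_⟩⟩
  rw [h.toUN_n, vec_biUnion n A c g2]
  refine h3 _ (fun j i hi => g1 j j.2 i (vec_supp _ _ i hi)) (fun j j' hjj' => ?_)
    (fun j => g3 j j.2)
  have hd : Disjoint (A j) (A j') := by
    rcases lt_or_gt_of_ne hjj' with h5 | h5
    · exact g2 j j' h5 j'.2
    · exact (g2 j' j h5 j.2).symm
  rw [Finset.disjoint_left] at hd ⊢
  exact fun i hi hi' => hd (vec_supp _ _ i hi) (vec_supp _ _ i hi')

end IsGood

end Pool.Agent.Helper52.Tj
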