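import Pool.Agent.Helper52.TjT
import Pool.Agent.Helper52.TjGood

open Filter Topology

namespace Pool.Agent.Helper52.Tj

/-- the pairing of finitely supported sequences -/
noncomputable def pair (y x : ℕ →₀ ℝ) : ℝ := y.sum (fun i t => x i * t)

theorem pair_eq {S : Finset ℕ} {y : ℕ →₀ ℝ} (h : y.support ⊆ S) (x : ℕ →₀ ℝ) :
    pair y x = ∑ i ∈ S, x i * y i := by
  unfold pair
  exact Finsupp.sum_of_support_subset y h _ (fun i _ => by simp)

theorem pair_add_left (y y' x : ℕ →₀ ℝ) : pair (y + y') x = pair y x + pair y' x := by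
  unfold pair
  exact Finsupp.sum_add_index' (fun i => by simp) (fun i a b => by ring)

theorem pair_smul_left (t : ℝ) (y x : ℕ →₀ ℝ) : pair (t • y) x = t * pair y x := by
  have h1 : (t • y).support ⊆ y.support := Finsupp.support_smul
  rw [pair_eq h1, pair_eq (Finset.Subset.refl y.support), Finset.mul_sum]
  refine Finset.sum_congr rfl fun i _ => ?_
  rw [Finsupp.smul_apply, smul_eq_mul]
  ring

theorem pair_add_right (y x x' : ℕ →₀ ℝ) : pair y (x + x') = pair y x + pair y x' := by
  rw [pair_eq (Finset.Subset.refl y.support), pair_eq (Finset.Subset.refl y.support),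
    pair_eq (Finset.Subset.refl y.support), ← Finset.sum_add_distrib]
  refine Finset.sum_congr rfl fun i _ => ?_
  rw [Finsupp.add_apply]
  ring

theorem pair_smul_right (t : ℝ) (y x : ℕ →₀ ℝ) : pair y (t • x) = t * pair y x := by
  rw [pair_eq (Finset.Subset.refl y.support), pair_eq (Finset.Subset.refl y.support),
    Finset.mul_sum]
  refine Finset.sum_congr rfl fun i _ => ?_
  rw [Finsupp.smul_apply, smul_eq_mul]
  ring

theorem pair_zero_right (y : ℕ →₀ ℝ) : pair y 0 = 0 := by
  have := pair_smul_right 0 y 0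
  simpa using this

theorem pair_zero_left (x : ℕ →₀ ℝ) : pair 0 x = 0 := by
  have := pair_smul_left 0 0 x
  simpa using this

theorem pair_sum_left {ι : Type*} (S : Finset ι) (f : ι → ℕ →₀ ℝ) (x : ℕ →₀ ℝ) :
    pair (∑ j ∈ S, f j) x = ∑ j ∈ S, pair (f j) x := by
  classical
  induction S using Finset.induction_on with
  | empty => simp [pair_zero_left]
  | insert i S hi ih => rw [Finset.sum_insert hi, Finset.sum_insert hi, pair_add_left, ih]

/-- the pairing only sees the coordinates of the support -/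
theorem pair_congr {y x x' : ℕ →₀ ℝ} (h : ∀ i ∈ y.support, x i = x' i) : pair y x = pair y x' := by
  rw [pair_eq (Finset.Subset.refl y.support), pair_eq (Finset.Subset.refl y.support)]
  exact Finset.sum_congr rfl fun i hi => by rw [h i hi]

section
variable {s : ℕ} {N : (ℕ →₀ ℝ) → ℝ} (hN : IsTsirelsonNorm s N)

include hN

theorem dual_bdd (y : ℕ →₀ ℝ) : BddAbove {r | ∃ x : ℕ →₀ ℝ, N x ≤ 1 ∧ r = pair y x} := by
  refine ⟨∑ i ∈ y.support, |y i|, ?_⟩
  rintro _ ⟨x, hx, rfl⟩
  rw [pair_eq (Finset.Subset.refl y.support)]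
  refine Finset.sum_le_sum fun i _ => ?_
  refine (le_abs_self _).trans ?_
  rw [abs_mul]
  calc |x i| * |y i| ≤ 1 * |y i| :=
        mul_le_mul_of_nonneg_right ((hN.abs_le x i).trans hx) (abs_nonneg _)
    _ = |y i| := one_mul _

theorem dual_ne (y : ℕ →₀ ℝ) : {r | ∃ x : ℕ →₀ ℝ, N x ≤ 1 ∧ r = pair y x}.Nonempty :=
  ⟨_, 0, by rw [hN.zero]; exact zero_le_one, rfl⟩

theorem dual_ge {y x : ℕ →₀ ℝ} (hx : N x ≤ 1) : pair y x ≤ dualNorm N y :=
  le_csSup (dual_bdd hN y) ⟨x, hx, rfl⟩

theorem dual_le {y : ℕ →₀ ℝ} {B : ℝ} (h : ∀ x, N x ≤ 1 → pair y x ≤ B) : dualNorm N y ≤ B := by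
  refine csSup_le (dual_ne hN y) ?_
  rintro _ ⟨x, hx, rfl⟩
  exact h x hx

theorem dual_nonneg (y : ℕ →₀ ℝ) : 0 ≤ dualNorm N y := by
  have := dual_ge hN (y := y) (x := 0) (by rw [hN.zero]; exact zero_le_one)
  rwa [pair_zero_right] at this

theorem pair_le (y x : ℕ →₀ ℝ) : pair y x ≤ dualNorm N y * N x := by
  rcases (hN.nonneg x).eq_or_lt with h | h
  · have hx : x = 0 := by
      ext i
      have := hN.abs_le x i
      rw [← h] at this
      simpa using abs_eq_zero.mp (le_antisymm this (abs_nonneg _))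
    rw [hx, pair_zero_right, hN.zero, mul_zero]
  · have h1 := dual_ge hN (y := y) (x := (1 / N x) • x) (by
      rw [hN.smul_eq, abs_of_pos (by positivity)]
      field_simp
      exact le_rfl)
    rw [pair_smul_right, one_div, inv_mul_le_iff₀ h] at h1
    linarith

theorem dual_smul_le (t : ℝ) (y : ℕ →₀ ℝ) : dualNorm N (t • y) ≤ |t| * dualNorm N y := by
  refine dual_le hN fun x hx => ?_
  rw [pair_smul_left]
  have h1 := pair_le hN y x
  have h2 := pair_le hN y (-x)
  rw [hN.neg] at h2
  have h3 : pair y (-x) = - pair y x := by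
    have := pair_smul_right (-1) y x
    simpa using this
  rw [h3] at h2
  have h4 : |pair y x| ≤ dualNorm N y := by
    have h5 : dualNorm N y * N x ≤ dualNorm N y := by
      have := mul_le_mul_of_nonneg_left hx (dual_nonneg hN y)
      linarith
    rw [abs_le]
    constructor <;> linarith
  calc t * pair y x ≤ |t * pair y x| := le_abs_self _
    _ = |t| * |pair y x| := abs_mul _ _
    _ ≤ _ := mul_le_mul_of_nonneg_left h4 (abs_nonneg _)

theorem dual_smul (t : ℝ) (y : ℕ →₀ ℝ) : dualNorm N (t • y) = |t| * dualNorm N y := by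
  refine le_antisymm (dual_smul_le hN t y) ?_
  by_cases ht : t = 0
  · rw [ht, abs_zero, zero_mul]
    exact dual_nonneg hN _
  · have h1 := dual_smul_le hN t⁻¹ (t • y)
    rw [smul_smul, inv_mul_cancel₀ ht, one_smul, abs_inv] at h1
    have h2 : 0 < |t| := abs_pos.mpr ht
    rwa [le_inv_mul_iff₀ h2] at h1

theorem dual_uncond (x y : ℕ →₀ ℝ) (h : ∀ i, |x i| ≤ |y i|) : dualNorm N x ≤ dualNorm N y := by
  classical
  refine dual_le hN fun z hz => ?_
  have hsub : x.support ⊆ y.support := by
    intro i hi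
    rw [Finsupp.mem_support_iff] at hi ⊢
    intro h0
    have := h i
    rw [h0, abs_zero] at this
    exact hi (abs_eq_zero.mp (le_antisymm this (abs_nonneg _)))
  have hsgn : ∀ i, ∃ t : ℝ, |t| ≤ 1 ∧ t * y i = |y i| := by
    intro i
    rcases abs_cases (y i) with h1 | h1
    · exact ⟨1, by simp, by rw [h1.1]; ring⟩
    · exact ⟨-1, by simp, by rw [h1.1]; ring⟩
  choose t ht1 ht2 using hsgn
  let z' : ℕ →₀ ℝ := vec y.support (fun i => t i * |z i|)
  have hz' : N z' ≤ 1 := by
    refine (hN.mono (y := z) fun i => ?_).trans hz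
    rw [vec_apply]
    split_ifs
    · rw [abs_mul, abs_abs]
      calc |t i| * |z i| ≤ 1 * |z i| := mul_le_mul_of_nonneg_right (ht1 i) (abs_nonneg _)
        _ = |z i| := one_mul _
    · rw [abs_zero]; exact abs_nonneg _
  refine le_trans ?_ (dual_ge hN hz')
  rw [pair_eq hsub, pair_eq (Finset.Subset.refl y.support)]
  refine Finset.sum_le_sum fun i hi => ?_
  rw [vec_apply, if_pos hi]
  calc z i * x i ≤ |z i| * |x i| := by rw [← abs_mul]; exact le_abs_self _
    _ ≤ |z i| * |y i| := mul_le_mul_of_nonneg_left (h i) (abs_nonneg _)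
    _ = t i * |z i| * y i := by rw [← ht2 i]; ring

theorem dual_bc (a : ℕ → ℝ)
    (hbd : ∃ M, ∀ n, dualNorm N (∑ i ∈ Finset.range n, Finsupp.single i (a i)) ≤ M)
    (ε : ℝ) (hε : 0 < ε) : ∃ n₀, ∀ m n, n₀ ≤ m → m ≤ n →
      dualNorm N (∑ i ∈ Finset.Ico m n, Finsupp.single i (a i)) ≤ ε := by
  classical
  by_contra hcon
  push Not at hcon
  obtain ⟨M, hM⟩ := hbd
  obtain ⟨f, hf1, hf2⟩ := exists_seq_of_forall_finset_exists (α := ℕ × ℕ)
    (fun o => o.1 < o.2 ∧ ε < dualNorm N (vec (Finset.Ico o.1 o.2) a))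
    (fun o o' => o.2 ≤ o'.1) (by
      intro S _
      obtain ⟨m, n, h1, h2, h3⟩ := hcon (S.sup fun o => o.2)
      refine ⟨(m, n), ⟨?_, h3⟩, ?_⟩
      · rcases h2.eq_or_lt with h4 | h4
        · rw [h4, Finset.Ico_self, Finset.sum_empty] at h3
          have := dual_smul hN 0 0
          rw [abs_zero, zero_mul, zero_smul] at this
          rw [this] at h3
          linarith
        · exact h4
      · intro o ho
        have : o.2 ≤ S.sup fun o => o.2 := Finset.le_sup (f := fun o : ℕ × ℕ => o.2) ho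
        exact this.trans h1)
  have hpick : ∀ k, ∃ y : ℕ →₀ ℝ, N y ≤ 1 ∧
      ε ≤ pair (vec (Finset.Ico (f k).1 (f k).2) a) y ∧
      ∀ i, i ∉ Finset.Ico (f k).1 (f k).2 → y i = 0 := by
    intro k
    obtain ⟨r, ⟨x, hx, rfl⟩, hr⟩ := exists_lt_of_lt_csSup
      (dual_ne hN (vec (Finset.Ico (f k).1 (f k).2) a)) (hf1 k).2
    refine ⟨x.filter (fun i => i ∈ Finset.Ico (f k).1 (f k).2), (hN.filter_le _ _).trans hx,
      ?_, ?_⟩
    · have e : pair (vec (Finset.Ico (f k).1 (f k).2) a)
          (x.filter (fun i => i ∈ Finset.Ico (f k).1 (f k).2)) =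
          pair (vec (Finset.Ico (f k).1 (f k).2) a) x := by
        refine pair_congr fun i hi => ?_
        rw [Finsupp.mem_support_iff, vec_apply] at hi
        have hi' : i ∈ Finset.Ico (f k).1 (f k).2 := by
          by_contra h5
          exact hi (if_neg h5)
        exact Finsupp.filter_apply_pos _ _ hi'
      rw [e]
      exact hr.le
    · intro i hi
      exact Finsupp.filter_apply_neg _ _ hi
  choose y hy1 hy2 hy3 using hpick
  have hge : ∀ k, k ≤ (f k).1 := by
    intro k
    induction k with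
    | zero => exact Nat.zero_le _
    | succ k ih =>
      have h1 := hf2 k (k + 1) (Nat.lt_succ_self k)
      have h2 := (hf1 k).1
      omega
  refine hN.no_l1 y hy1 (fun k i hi => hy3 k i (by
    rw [Finset.mem_Ico]
    have := hge k
    omega)) (ε / max M 1) (by positivity) ?_
  intro u hu
  -- eventually the partial sums act on `u`
  have hconv : Convex ℝ {u : ℕ →₀ ℝ | ∃ n₀, ∀ n, n₀ ≤ n → ε ≤ pair (vec (Finset.range n) a) u} := by
    rintro x ⟨n₁, h1⟩ x' ⟨n₂, h2⟩ t t' ht ht' htt
    refine ⟨max n₁ n₂, fun n hn => ?_⟩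
    rw [pair_add_right, pair_smul_right, pair_smul_right]
    have g1 := h1 n ((le_max_left _ _).trans hn)
    have g2 := h2 n ((le_max_right _ _).trans hn)
    calc ε = t * ε + t' * ε := by rw [← add_mul, htt, one_mul]
      _ ≤ _ := add_le_add (mul_le_mul_of_nonneg_left g1 ht) (mul_le_mul_of_nonneg_left g2 ht')
  have hsub : Set.range y ⊆
      {u : ℕ →₀ ℝ | ∃ n₀, ∀ n, n₀ ≤ n → ε ≤ pair (vec (Finset.range n) a) u} := by
    rintro _ ⟨k, rfl⟩
    refine ⟨(f k).2, fun n hn => ?_⟩
    refine (hy2 k).trans (le_of_eq ?_)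
    have e1 : (vec (Finset.Ico (f k).1 (f k).2) a).support ⊆ Finset.range n := by
      intro i hi
      rw [Finsupp.mem_support_iff, vec_apply] at hi
      have hi' : i ∈ Finset.Ico (f k).1 (f k).2 := by
        by_contra h5
        exact hi (if_neg h5)
      rw [Finset.mem_Ico] at hi'
      exact Finset.mem_range.mpr (by omega)
    have e2 : (vec (Finset.range n) a).support ⊆ Finset.range n := by
      intro i hi
      rw [Finsupp.mem_support_iff, vec_apply] at hi
      by_contra h5
      exact hi (if_neg h5)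
    rw [pair_eq e1, pair_eq e2]
    refine Finset.sum_congr rfl fun i hi => ?_
    rw [vec_apply, vec_apply, if_pos hi]
    by_cases h5 : i ∈ Finset.Ico (f k).1 (f k).2
    · rw [if_pos h5]
    · rw [hy3 k i h5]; ring
  obtain ⟨n₀, hn₀⟩ := convexHull_min hsub hconv hu
  have h1 := (hn₀ n₀ le_rfl).trans (pair_le hN _ _)
  have h2 : dualNorm N (vec (Finset.range n₀) a) * N u ≤ max M 1 * N u :=
    mul_le_mul_of_nonneg_right ((hM n₀).trans (le_max_left _ _)) (hN.nonneg u)
  rw [div_le_iff₀ (by positivity)]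
  linarith

/-- the unit vectors of `T*` form a good basis -/
theorem dual_good : IsGood (dualNorm N) where
  add_le y y' := dual_le hN fun x hx => by
    rw [pair_add_left]
    exact add_le_add (dual_ge hN hx) (dual_ge hN hx)
  smul_eq := dual_smul hN
  normalized i := by
    refine le_antisymm (dual_le hN fun x hx => ?_) ?_
    · rw [pair_eq (S := {i}) (Finsupp.support_single_subset)]
      rw [Finset.sum_singleton, Finsupp.single_eq_same, mul_one]
      exact (le_abs_self _).trans ((hN.abs_le x i).trans hx)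
    · have h1 := dual_ge hN (y := Finsupp.single i 1) (hN.single_one i)
      rw [pair_eq (S := {i}) (Finsupp.support_single_subset)] at h1
      rw [Finset.sum_singleton, Finsupp.single_eq_same, mul_one] at h1
      exact h1
  unconditional := dual_uncond hN
  boundedly_complete a h ε hε := dual_bc hN a h ε hε

/-- the unit vectors of `T*` are asymptotically `c_0` -/
theorem dual_asc0 : AsC0 (dualNorm N) := by
    classical
    refine ⟨2, fun n => ⟨n, fun z h1 h2 a ha h3 => dual_le hN fun x hx => ?_⟩⟩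
    rw [pair_sum_left]
    have hE : Admissible s n (fun j => (z j).support) :=
      ⟨fun j i hi => (h1 j i hi).trans (Nat.le_add_right _ _),
        fun j j' hjj' i hi i' hi' => h2 j j' hjj' i hi i' hi'⟩
    have h4 := hN.lower x hE
    have h5 : ∀ j : Fin n, pair (z j) x ≤ a * N (x.filter (fun i => i ∈ (z j).support)) := by
      intro j
      have e : pair (z j) x = pair (z j) (x.filter (fun i => i ∈ (z j).support)) :=
        pair_congr fun i hi => (Finsupp.filter_apply_pos _ _ hi).symm
      rw [e]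
      exact (pair_le hN _ _).trans (mul_le_mul_of_nonneg_right (h3 j) (hN.nonneg _))
    refine (Finset.sum_le_sum fun j _ => h5 j).trans ?_
    rw [← Finset.mul_sum]
    have h6 : ∑ j, N (x.filter (fun i => i ∈ (z j).support)) ≤ 2 := by linarith
    calc a * ∑ j, N (x.filter (fun i => i ∈ (z j).support)) ≤ a * 2 :=
          mul_le_mul_of_nonneg_left h6 ha
      _ = 2 * a := by ring

end

end Pool.Agent.Helper52.Tj
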