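import Mathlib

open Filter Topology

namespace Pool.Agent.Helper52.Tj

/-- Nested alternating quantifier: for almost all `a`, for almost all `b`, and so on, `r` times. -/
def NU {A : Type} (𝓕 : Filter A) : ℕ → (List A → List A → Prop) → Prop
  | 0, P => P [] []
  | (r + 1), P => ∀ᶠ a in 𝓕, ∀ᶠ b in 𝓕, NU 𝓕 r (fun l l' => P (a :: l) (b :: l'))

theorem NU_mono {A : Type} {𝓕 : Filter A} : ∀ (r : ℕ) {P Q : List A → List A → Prop},
    (∀ l l', P l l' → Q l l') → NU 𝓕 r P → NU 𝓕 r Q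
  | 0, _, _, h, hP => h _ _ hP
  | (r + 1), P, Q, h, hP => by
    simp only [NU] at hP ⊢
    filter_upwards [hP] with a ha
    filter_upwards [ha] with b hb
    exact NU_mono r (fun l l' hl => h _ _ hl) hb

theorem NU_and {A : Type} {𝓕 : Filter A} : ∀ (r : ℕ) {P Q : List A → List A → Prop},
    NU 𝓕 r P → NU 𝓕 r Q → NU 𝓕 r (fun l l' => P l l' ∧ Q l l')
  | 0, _, _, hP, hQ => ⟨hP, hQ⟩
  | (r + 1), P, Q, hP, hQ => by
    simp only [NU] at hP hQ ⊢
    filter_upwards [hP, hQ] with a ha ha'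
    filter_upwards [ha, ha'] with b hb hb'
    exact NU_and r hb hb'

/-- The abstract data on which the iterated limit argument runs. -/
structure EData (X Φ Q Ψ : Type) [SeminormedAddCommGroup X] where
  e : Φ → X → ℝ
  bQ : Q → ℝ
  d : Ψ → Q → ℝ
  hat : Φ → Ψ
  h1 : ∀ ν x y, |e ν x - e ν y| ≤ ‖x - y‖
  h3 : ∀ (v : ℕ → X) (C : ℝ), (∀ l, ‖v l‖ ≤ C) → ∀ U : Ultrafilter ℕ,
    ∃ x q, ‖x‖ ≤ C ∧ bQ q ≤ 2 * C ∧
      ∀ ν, Tendsto (fun l => e ν (v l)) U (𝓝 (e ν x + d (hat ν) q))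
  h4 : ∀ (I : Type) (U : Ultrafilter I) (ν : I → Φ),
    ∃ ν', ∀ x, Tendsto (fun i => e (ν i) x) U (𝓝 (e ν' x))
  h5 : ∀ (I : Type) (U : Ultrafilter I) (ψ : I → Ψ),
    ∃ ψ', ∀ q, Tendsto (fun i => d (ψ i) q) U (𝓝 (d ψ' q))
  h6 : ∀ (I : Type) (U : Ultrafilter I) (q : I → Q) (C : ℝ), (∀ i, bQ (q i) ≤ C) →
    ∃ q', bQ q' ≤ C ∧ ∀ ψ, Tendsto (fun i => d ψ (q i)) U (𝓝 (d ψ q'))

namespace EData

variable {X Φ Q Ψ : Type} [SeminormedAddCommGroup X] (D : EData X Φ Q Ψ)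

/-- the pairing after `r` vector limits -/
noncomputable def b (r : ℕ) (φ : Φ × (ℕ → Ψ)) (v : X × (ℕ → Q)) : ℝ :=
  D.e φ.1 v.1 + ∑ j ∈ Finset.range r, D.d (φ.2 j) (v.2 j)

def Bd (r : ℕ) (C : ℝ) (v : X × (ℕ → Q)) : Prop :=
  ‖v.1‖ ≤ C ∧ ∀ j < r, D.bQ (v.2 j) ≤ C

noncomputable def plus (r : ℕ) (φ : Φ × (ℕ → Ψ)) : Φ × (ℕ → Ψ) :=
  (φ.1, Function.update φ.2 r (D.hat φ.1))

/-- functional limits -/
theorem limF {I : Type} (U : Ultrafilter I) (φ : I → Φ × (ℕ → Ψ)) :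
    ∃ φ' : Φ × (ℕ → Ψ), ∀ r v, Tendsto (fun i => D.b r (φ i) v) U (𝓝 (D.b r φ' v)) := by
  obtain ⟨ν', hν⟩ := D.h4 I U (fun i => (φ i).1)
  have : ∀ j, ∃ ψ', ∀ q, Tendsto (fun i => D.d ((φ i).2 j) q) U (𝓝 (D.d ψ' q)) :=
    fun j => D.h5 I U (fun i => (φ i).2 j)
  choose ψ' hψ using this
  refine ⟨(ν', ψ'), fun r v => ?_⟩
  simp only [b]
  exact (hν v.1).add (tendsto_finsetSum _ fun j _ => hψ j _)

/-- vector limits along the integers -/
theorem limV (U : Ultrafilter ℕ) (r : ℕ) (v : ℕ → X × (ℕ → Q)) :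
    ∃ v' : X × (ℕ → Q), ∀ C, 0 ≤ C → (∀ l, D.Bd r C (v l)) → (D.Bd (r + 1) (2 * C) v' ∧
      ∀ φ, Tendsto (fun l => D.b r φ (v l)) U (𝓝 (D.b (r + 1) (D.plus r φ) v'))) := by
  by_cases hC : ∃ C, 0 ≤ C ∧ (∀ l, D.Bd r C (v l))
  swap
  · refine ⟨v 0, fun C h0 hb => (hC ⟨C, h0, hb⟩).elim⟩
  -- use the infimum of the bounds, here we simply use the sup of the norms
  have key : ∀ C, 0 ≤ C → (∀ l, D.Bd r C (v l)) →
      ∃ v' : X × (ℕ → Q), D.Bd (r + 1) (2 * C) v' ∧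
      ∀ φ, Tendsto (fun l => D.b r φ (v l)) U (𝓝 (D.b (r + 1) (D.plus r φ) v')) := by
    intro C h0 hb
    obtain ⟨x, q, hx, hq, hlim⟩ := D.h3 (fun l => (v l).1) C (fun l => (hb l).1) U
    have : ∀ j, ∃ q', (j < r → D.bQ q' ≤ C) ∧
        (j < r → ∀ ψ, Tendsto (fun i => D.d ψ ((v i).2 j)) U (𝓝 (D.d ψ q'))) := by
      intro j
      by_cases hj : j < r
      · obtain ⟨q', h1, h2⟩ := D.h6 ℕ U (fun l => (v l).2 j) C (fun l => (hb l).2 j hj)
        exact ⟨q', fun _ => h1, fun _ => h2⟩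
      · exact ⟨q, fun h => (hj h).elim, fun h => (hj h).elim⟩
    choose q' hq1 hq2 using this
    refine ⟨(x, Function.update q' r q), ⟨by simpa using hx.trans (by linarith), ?_⟩, ?_⟩
    · intro j hj
      rcases Nat.lt_succ_iff_lt_or_eq.mp hj with h | h
      · have : j ≠ r := by omega
        simp only [Function.update_of_ne this]
        exact (hq1 j h).trans (by linarith)
      · subst h
        simpa using hq
    · intro φ
      simp only [b, plus, Finset.sum_range_succ, Function.update_self]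
      have e1 : ∀ j ∈ Finset.range r, D.d (Function.update φ.2 r (D.hat φ.1) j)
          (Function.update q' r q j) = D.d (φ.2 j) (q' j) := by
        intro j hj
        have : j ≠ r := by
          have := Finset.mem_range.mp hj
          omega
        simp [Function.update_of_ne this]
      rw [Finset.sum_congr rfl e1]
      have := (hlim φ.1).add (tendsto_finsetSum (Finset.range r)
        fun j hj => hq2 j (Finset.mem_range.mp hj) (φ.2 j))
      convert this using 2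
      ring
  -- the least bound
  set S : Set ℝ := {C | 0 ≤ C ∧ ∀ l, D.Bd r C (v l)} with hS
  have hne : S.Nonempty := hC
  have hbd : BddBelow S := ⟨0, fun C h => h.1⟩
  have hmem : sInf S ∈ S := by
    have h0 : 0 ≤ sInf S := le_csInf hne fun C h => h.1
    refine ⟨h0, fun l => ⟨?_, fun j hj => ?_⟩⟩
    · exact le_csInf hne fun C h => (h.2 l).1
    · exact le_csInf hne fun C h => (h.2 l).2 j hj
  obtain ⟨v', h1, h2⟩ := key _ hmem.1 hmem.2
  refine ⟨v', fun C h0 hb => ⟨⟨?_, ?_⟩, h2⟩⟩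
  · have : sInf S ≤ C := csInf_le hbd ⟨h0, hb⟩
    exact h1.1.trans (by linarith)
  · intro j hj
    have : sInf S ≤ C := csInf_le hbd ⟨h0, hb⟩
    exact (h1.2 j hj).trans (by linarith)

/-- vector limits along a countably complete filter -/
theorem limO [SecondCountableTopology X] {I : Type} (𝓕 : Filter I) [NeBot 𝓕]
    [CountableInterFilter 𝓕] (r : ℕ) (v : I → X × (ℕ → Q)) :
    ∃ (V : Ultrafilter I) (v' : X × (ℕ → Q)), (V : Filter I) ≤ 𝓕 ∧
      ∀ C, 0 ≤ C → (∀ l, D.Bd r C (v l)) → (D.Bd r C v' ∧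
      ∀ φ, Tendsto (fun l => D.b r φ (v l)) V (𝓝 (D.b r φ v'))) := by
  have hL : IsLindelof (Set.univ : Set X) := isLindelof_univ
  obtain ⟨x, -, hx⟩ := hL (f := map (fun i => (v i).1) 𝓕) (by simp)
  have hx' : MapClusterPt x 𝓕 (fun i => (v i).1) := hx
  obtain ⟨V, hV1, hV2⟩ := mapClusterPt_iff_ultrafilter.mp hx'
  by_cases hC : ∃ C, 0 ≤ C ∧ (∀ l, D.Bd r C (v l))
  swap
  · have hne : Nonempty I := nonempty_of_neBot 𝓕
    exact ⟨V, v (Classical.arbitrary I), hV1, fun C h0 hb => (hC ⟨C, h0, hb⟩).elim⟩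
  have key : ∀ C, 0 ≤ C → (∀ l, D.Bd r C (v l)) →
      ∃ v' : X × (ℕ → Q), D.Bd r C v' ∧
      ∀ φ, Tendsto (fun l => D.b r φ (v l)) V (𝓝 (D.b r φ v')) := by
    intro C h0 hb
    have : ∀ j, ∃ q', (j < r → D.bQ q' ≤ C) ∧
        (j < r → ∀ ψ, Tendsto (fun i => D.d ψ ((v i).2 j)) V (𝓝 (D.d ψ q'))) := by
      intro j
      by_cases hj : j < r
      · obtain ⟨q', h1, h2⟩ := D.h6 I V (fun l => (v l).2 j) C (fun l => (hb l).2 j hj)
        exact ⟨q', fun _ => h1, fun _ => h2⟩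
      · have hne : Nonempty I := nonempty_of_neBot 𝓕
        exact ⟨(v (Classical.arbitrary I)).2 0, fun h => (hj h).elim, fun h => (hj h).elim⟩
    choose q' hq1 hq2 using this
    refine ⟨(x, q'), ⟨?_, fun j hj => hq1 j hj⟩, ?_⟩
    · have ht : Tendsto (fun i => ‖(v i).1‖) V (𝓝 ‖x‖) := (continuous_norm.tendsto x).comp hV2
      exact le_of_tendsto ht (Eventually.of_forall fun i => (hb i).1)
    · intro φ
      simp only [b]
      refine Tendsto.add ?_ (tendsto_finsetSum (Finset.range r)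
        fun j hj => hq2 j (Finset.mem_range.mp hj) (φ.2 j))
      rw [tendsto_iff_dist_tendsto_zero]
      have h0 : Tendsto (fun i => ‖(v i).1 - x‖) V (𝓝 0) := by
        have := (tendsto_iff_norm_sub_tendsto_zero.mp hV2)
        exact this
      refine squeeze_zero (fun _ => dist_nonneg) (fun i => ?_) h0
      rw [Real.dist_eq]
      exact D.h1 _ _ _
  set S : Set ℝ := {C | 0 ≤ C ∧ ∀ l, D.Bd r C (v l)} with hS
  have hne : S.Nonempty := hC
  have hbd : BddBelow S := ⟨0, fun C h => h.1⟩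
  have hmem : sInf S ∈ S := by
    have h0 : 0 ≤ sInf S := le_csInf hne fun C h => h.1
    refine ⟨h0, fun l => ⟨?_, fun j hj => ?_⟩⟩
    · exact le_csInf hne fun C h => (h.2 l).1
    · exact le_csInf hne fun C h => (h.2 l).2 j hj
  obtain ⟨v', h1, h2⟩ := key _ hmem.1 hmem.2
  refine ⟨V, v', hV1, fun C h0 hb => ⟨⟨?_, ?_⟩, h2⟩⟩
  · exact h1.1.trans (csInf_le hbd ⟨h0, hb⟩)
  · intro j hj
    exact (h1.2 j hj).trans (csInf_le hbd ⟨h0, hb⟩)

/-- iterated limits along the integers -/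
theorem intLimit (U : Ultrafilter ℕ) (r0 : ℕ) : ∀ r : ℕ,
    ∃ (L : (List ℕ → X × (ℕ → Q)) → X × (ℕ → Q))
      (M : (List ℕ → Φ × (ℕ → Ψ)) → Φ × (ℕ → Ψ)),
      (∀ C, 0 ≤ C → ∀ G, (∀ l, D.Bd r0 C (G l)) → D.Bd (r0 + r) (2 ^ r * C) (L G)) ∧
      ∀ C, 0 ≤ C → ∀ F G G' δ, (∀ l, D.Bd r0 C (G l)) → (∀ l, D.Bd r0 C (G' l)) →
        NU (U : Filter ℕ) r (fun l l' => δ ≤ D.b r0 (F l) (G l') - D.b r0 (F l) (G' l')) →
        δ ≤ D.b (r0 + r) (M F) (L G) - D.b (r0 + r) (M F) (L G')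
  | 0 => by
    refine ⟨fun G => G [], fun F => F [], fun C _ G h => by simpa using h [], ?_⟩
    intro C _ F G G' δ _ _ h
    simpa [NU] using h
  | (r + 1) => by
    obtain ⟨L, M, h1, h2⟩ := intLimit U r0 r
    choose LV hLV using D.limV U (r0 + r)
    choose LF hLF using fun φ => D.limF (I := ℕ) U φ
    refine ⟨fun G => LV (fun b => L (fun l => G (b :: l))),
      fun F => LF (fun a => D.plus (r0 + r) (M (fun l => F (a :: l)))), ?_, ?_⟩
    · intro C hC G hG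
      have := (hLV (fun b => L (fun l => G (b :: l))) (2 ^ r * C) (by positivity)
        (fun b => h1 C hC _ fun l => hG _)).1
      have e : 2 * (2 ^ r * C) = 2 ^ (r + 1) * C := by ring
      rw [e] at this
      exact this
    · intro C hC F G G' δ hG hG' h
      simp only [NU] at h
      have g1 := (hLV (fun b => L (fun l => G (b :: l))) (2 ^ r * C) (by positivity)
        (fun b => h1 C hC _ fun l => hG _)).2
      have g2 := (hLV (fun b => L (fun l => G' (b :: l))) (2 ^ r * C) (by positivity)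
        (fun b => h1 C hC _ fun l => hG' _)).2
      have h3 : ∀ᶠ a in (U : Filter ℕ), δ ≤
          D.b (r0 + r + 1) (D.plus (r0 + r) (M (fun l => F (a :: l))))
            (LV (fun b => L (fun l => G (b :: l)))) -
          D.b (r0 + r + 1) (D.plus (r0 + r) (M (fun l => F (a :: l))))
            (LV (fun b => L (fun l => G' (b :: l)))) := by
        filter_upwards [h] with a ha
        have h4 : ∀ᶠ b in (U : Filter ℕ), δ ≤
            D.b (r0 + r) (M (fun l => F (a :: l))) (L (fun l => G (b :: l))) -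
            D.b (r0 + r) (M (fun l => F (a :: l))) (L (fun l => G' (b :: l))) := by
          filter_upwards [ha] with b hb
          exact h2 C hC _ _ _ δ (fun l => hG _) (fun l => hG' _) hb
        exact ge_of_tendsto ((g1 _).sub (g2 _)) h4
      have g3 := hLF (fun a => D.plus (r0 + r) (M (fun l => F (a :: l)))) (r0 + r + 1)
      exact ge_of_tendsto ((g3 _).sub (g3 _)) h3

/-- iterated limits along a countably complete filter -/
theorem ordLimit [SecondCountableTopology X] {I : Type} (𝓕 : Filter I) [NeBot 𝓕]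
    [CountableInterFilter 𝓕] (r0 : ℕ) : ∀ r : ℕ,
    ∃ (L : (List I → X × (ℕ → Q)) → X × (ℕ → Q))
      (M : (List I → Φ × (ℕ → Ψ)) → Φ × (ℕ → Ψ)),
      (∀ C, 0 ≤ C → ∀ G, (∀ l, D.Bd r0 C (G l)) → D.Bd r0 C (L G)) ∧
      ∀ C, 0 ≤ C → ∀ F G (s : ℝ) v δ, (∀ l, D.Bd r0 C (G l)) →
        NU 𝓕 r (fun l l' => δ ≤ s * (D.b r0 (F l) (G l') - D.b r0 (F l) v)) →
        δ ≤ s * (D.b r0 (M F) (L G) - D.b r0 (M F) v)
  | 0 => by
    refine ⟨fun G => G [], fun F => F [], fun C _ G h => by simpa using h [], ?_⟩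
    intro C _ F G s v δ _ h
    simpa [NU] using h
  | (r + 1) => by
    obtain ⟨L, M, h1, h2⟩ := ordLimit 𝓕 r0 r
    choose UV LV hLV hLV' using D.limO 𝓕 r0
    choose LF hLF using fun φ => D.limF (Ultrafilter.of 𝓕) φ
    refine ⟨fun G => LV (fun b => L (fun l => G (b :: l))),
      fun F => LF (fun a => M (fun l => F (a :: l))), ?_, ?_⟩
    · intro C hC G hG
      exact (hLV' (fun b => L (fun l => G (b :: l))) C hC
        (fun b => h1 C hC _ fun l => hG _)).1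
    · intro C hC F G s v δ hG h
      simp only [NU] at h
      have g1 := (hLV' (fun b => L (fun l => G (b :: l))) C hC
        (fun b => h1 C hC _ fun l => hG _)).2
      have h3 : ∀ᶠ a in 𝓕, δ ≤
          s * (D.b r0 (M (fun l => F (a :: l)))
            (LV (fun b => L (fun l => G (b :: l)))) -
          D.b r0 (M (fun l => F (a :: l))) v) := by
        filter_upwards [h] with a ha
        have h4 : ∀ᶠ b in 𝓕, δ ≤
            s * (D.b r0 (M (fun l => F (a :: l))) (L (fun l => G (b :: l))) -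
            D.b r0 (M (fun l => F (a :: l))) v) := by
          filter_upwards [ha] with b hb
          exact h2 C hC _ _ s v δ (fun l => hG _) hb
        exact ge_of_tendsto (((g1 _).sub tendsto_const_nhds).const_mul s)
          (h4.filter_mono (hLV (fun b => L (fun l => G (b :: l)))))
      have g3 := hLF (fun a => M (fun l => F (a :: l))) r0
      exact ge_of_tendsto (((g3 _).sub (g3 _)).const_mul s) (h3.filter_mono (Ultrafilter.of_le 𝓕))

/-- The engine: no bounded family can satisfy the separated interlaced inequalities. -/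
theorem engine [SecondCountableTopology X] [Inhabited Q] [Inhabited Ψ] {I : Type}
    (𝓕 : Filter I) [NeBot 𝓕]
    [CountableInterFilter 𝓕] (U : Ultrafilter ℕ) (R r1 r2 : ℕ)
    (G : List I → List ℕ → List ℕ → X) (F : List I → List I → List ℕ → List ℕ → Φ)
    (C δ : ℝ) (hC : ∀ σ n k, ‖G σ n k‖ ≤ C) (hδ : 0 < δ)
    (H : NU 𝓕 R (fun σ τ => NU 𝓕 R (fun σ' τ' =>
      NU (U : Filter ℕ) r1 (fun n n' => NU (U : Filter ℕ) r2 (fun k k' =>
        δ ≤ D.e (F σ σ' n k) (G τ n' k') - D.e (F σ σ' n k) (G τ' n' k')))))) : False := by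
  have hC0 : 0 ≤ C := (norm_nonneg _).trans (hC [] [] [])
  obtain ⟨L2, M2, a1, a2⟩ := D.intLimit U 0 r2
  obtain ⟨L1, M1, b1, b2⟩ := D.intLimit U (0 + r2) r1
  obtain ⟨L0, M0, c1, c2⟩ := D.ordLimit 𝓕 (0 + r2 + r1) R
  -- embed
  let G2 : List I → List ℕ → List ℕ → X × (ℕ → Q) := fun σ n k => (G σ n k, fun _ => default)
  let F2 : List I → List I → List ℕ → List ℕ → Φ × (ℕ → Ψ) :=
    fun σ σ' n k => (F σ σ' n k, fun _ => default)
  let G1 : List I → List ℕ → X × (ℕ → Q) := fun σ n => L2 (G2 σ n)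
  let F1 : List I → List I → List ℕ → Φ × (ℕ → Ψ) := fun σ σ' n => M2 (F2 σ σ' n)
  let G0 : List I → X × (ℕ → Q) := fun σ => L1 (G1 σ)
  let F0 : List I → List I → Φ × (ℕ → Ψ) := fun σ σ' => M1 (F1 σ σ')
  have hG2 : ∀ σ n k, D.Bd 0 C (G2 σ n k) := fun σ n k => ⟨hC _ _ _, fun j hj => by omega⟩
  have hG1 : ∀ σ n, D.Bd (0 + r2) (2 ^ r2 * C) (G1 σ n) := fun σ n => a1 C hC0 _ (hG2 σ n)
  have hG0 : ∀ σ, D.Bd (0 + r2 + r1) (2 ^ r1 * (2 ^ r2 * C)) (G0 σ) := fun σ =>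
    b1 _ (by positivity) _ (hG1 σ)
  have H0 : NU 𝓕 R (fun σ τ => NU 𝓕 R (fun σ' τ' =>
      δ ≤ (-1) * (D.b (0 + r2 + r1) (F0 σ σ') (G0 τ') - D.b (0 + r2 + r1) (F0 σ σ') (G0 τ)))) := by
    refine NU_mono R (fun σ τ h => NU_mono R (fun σ' τ' h' => ?_) h) H
    have := b2 (2 ^ r2 * C) (by positivity) (F1 σ σ') (G1 τ) (G1 τ') δ (hG1 τ) (hG1 τ')
      (NU_mono r1 (fun n n' h'' => ?_) h')
    · have e : (-1) * (D.b (0 + r2 + r1) (F0 σ σ') (G0 τ') - D.b (0 + r2 + r1) (F0 σ σ') (G0 τ)) =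
        D.b (0 + r2 + r1) (F0 σ σ') (G0 τ) - D.b (0 + r2 + r1) (F0 σ σ') (G0 τ') := by ring
      rw [e]
      exact this
    · refine a2 C hC0 (F2 σ σ' n) (G2 τ n') (G2 τ' n') δ (hG2 _ _) (hG2 _ _)
        (NU_mono r2 (fun k k' h3 => ?_) h'')
      simpa [b, F2, G2] using h3
  have H1 : NU 𝓕 R (fun σ τ => δ ≤ 1 * (D.b (0 + r2 + r1) (M0 (F0 σ)) (G0 τ) -
      D.b (0 + r2 + r1) (M0 (F0 σ)) (L0 G0))) := by
    refine NU_mono R (fun σ τ h => ?_) H0
    have := c2 _ (by positivity) (F0 σ) G0 (-1) (G0 τ) δ hG0 h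
    have e : 1 * (D.b (0 + r2 + r1) (M0 (F0 σ)) (G0 τ) -
      D.b (0 + r2 + r1) (M0 (F0 σ)) (L0 G0)) = (-1) * (D.b (0 + r2 + r1) (M0 (F0 σ)) (L0 G0) -
      D.b (0 + r2 + r1) (M0 (F0 σ)) (G0 τ)) := by ring
    rw [e]
    exact this
  have H2 := c2 _ (by positivity) (fun σ => M0 (F0 σ)) G0 1 (L0 G0) δ hG0 H1
  simp only [sub_self, mul_zero] at H2
  linarith

end EData

end Pool.Agent.Helper52.Tj
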