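import Pool.Agent.Helper52.TjDefs

open Filter Topology

namespace Pool.Agent.Helper52.Tj

section exist

variable (s : ℕ)

/-- the set whose supremum defines the next iterate -/
def thSet (N : (ℕ →₀ ℝ) → ℝ) (x : ℕ →₀ ℝ) : Set ℝ :=
  {r | ∃ i, r = |x i|} ∪
    {r | ∃ (n : ℕ) (E : Fin n → Finset ℕ), Admissible s n E ∧
      r = 1 / 2 * ∑ j, N (x.filter (fun i => i ∈ E j))}

/-- the next iterate -/
noncomputable def th (N : (ℕ →₀ ℝ) → ℝ) (x : ℕ →₀ ℝ) : ℝ := sSup (thSet s N x)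

/-- the `ℓ_1` norm -/
noncomputable def l1 (x : ℕ →₀ ℝ) : ℝ := ∑ i ∈ x.support, |x i|

theorem l1_eq {S : Finset ℕ} {x : ℕ →₀ ℝ} (h : x.support ⊆ S) : l1 x = ∑ i ∈ S, |x i| := by
  unfold l1
  refine Finset.sum_subset h fun i _ hi => ?_
  rw [Finsupp.notMem_support_iff.mp hi, abs_zero]

theorem l1_nonneg (x : ℕ →₀ ℝ) : 0 ≤ l1 x := Finset.sum_nonneg fun i _ => abs_nonneg _

theorem abs_le_l1 (x : ℕ →₀ ℝ) (i : ℕ) : |x i| ≤ l1 x := by
  by_cases hi : i ∈ x.support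
  · exact Finset.single_le_sum (f := fun i => |x i|) (fun _ _ => abs_nonneg _) hi
  · rw [Finsupp.notMem_support_iff.mp hi, abs_zero]
    exact l1_nonneg x

theorem sum_l1_filter {n : ℕ} {E : Fin n → Finset ℕ} (hE : Admissible s n E) (x : ℕ →₀ ℝ) :
    ∑ j, l1 (x.filter (fun i => i ∈ E j)) ≤ l1 x := by
  classical
  have h1 : ∀ j, l1 (x.filter (fun i => i ∈ E j)) =
      ∑ i ∈ x.support, if i ∈ E j then |x i| else 0 := by
    intro j
    rw [l1_eq (S := x.support) (by rw [Finsupp.support_filter]; exact Finset.filter_subset _ _)]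
    refine Finset.sum_congr rfl fun i _ => ?_
    rw [Finsupp.filter_apply]
    split_ifs <;> simp
  simp only [h1]
  rw [Finset.sum_comm]
  unfold l1
  refine Finset.sum_le_sum fun i _ => ?_
  by_cases hex : ∃ j0, i ∈ E j0
  · obtain ⟨j0, hj0⟩ := hex
    rw [Finset.sum_eq_single j0]
    · rw [if_pos hj0]
    · intro j _ hj
      rw [if_neg]
      intro h2
      rcases lt_or_gt_of_ne hj with h6 | h6
      · exact lt_irrefl _ (hE.2 _ _ h6 i h2 i hj0)
      · exact lt_irrefl _ (hE.2 _ _ h6 i hj0 i h2)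
    · exact fun h => (h (Finset.mem_univ _)).elim
  · push Not at hex
    rw [Finset.sum_eq_zero fun j _ => if_neg (hex j)]
    exact abs_nonneg _

variable {s}

section step

variable {N : (ℕ →₀ ℝ) → ℝ} (hb : ∀ x, N x ≤ l1 x)

include hb

theorem thSet_le (x : ℕ →₀ ℝ) : ∀ r ∈ thSet s N x, r ≤ l1 x := by
  rintro r (⟨i, rfl⟩ | ⟨n, E, hE, rfl⟩)
  · exact abs_le_l1 x i
  · have h1 : ∑ j, N (x.filter (fun i => i ∈ E j)) ≤ l1 x :=
      (Finset.sum_le_sum fun j _ => hb _).trans (sum_l1_filter s hE x)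
    have := l1_nonneg x
    linarith

theorem thSet_bdd (x : ℕ →₀ ℝ) : BddAbove (thSet s N x) := ⟨l1 x, thSet_le hb x⟩

omit hb in
theorem thSet_ne (x : ℕ →₀ ℝ) : (thSet s N x).Nonempty := ⟨_, Or.inl ⟨0, rfl⟩⟩

theorem th_ge_abs (x : ℕ →₀ ℝ) (i : ℕ) : |x i| ≤ th s N x :=
  le_csSup (thSet_bdd hb x) (Or.inl ⟨i, rfl⟩)

theorem th_ge_sum (x : ℕ →₀ ℝ) {n : ℕ} {E : Fin n → Finset ℕ} (hE : Admissible s n E) :
    1 / 2 * ∑ j, N (x.filter (fun i => i ∈ E j)) ≤ th s N x :=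
  le_csSup (thSet_bdd hb x) (Or.inr ⟨n, E, hE, rfl⟩)

theorem th_nonneg (x : ℕ →₀ ℝ) : 0 ≤ th s N x := (abs_nonneg _).trans (th_ge_abs hb x 0)

theorem th_le_l1 (x : ℕ →₀ ℝ) : th s N x ≤ l1 x := csSup_le (thSet_ne x) (thSet_le hb x)

omit hb in
theorem th_le {x : ℕ →₀ ℝ} {B : ℝ} (h1 : ∀ i, |x i| ≤ B)
    (h2 : ∀ (n : ℕ) (E : Fin n → Finset ℕ), Admissible s n E →
      1 / 2 * ∑ j, N (x.filter (fun i => i ∈ E j)) ≤ B) : th s N x ≤ B := by
  refine csSup_le (thSet_ne x) ?_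
  rintro r (⟨i, rfl⟩ | ⟨n, E, hE, rfl⟩)
  · exact h1 i
  · exact h2 n E hE

theorem th_add (ha : ∀ x y, N (x + y) ≤ N x + N y) (x y : ℕ →₀ ℝ) :
    th s N (x + y) ≤ th s N x + th s N y := by
  refine th_le (fun i => ?_) (fun n E hE => ?_)
  · rw [Finsupp.add_apply]
    exact (abs_add_le _ _).trans (add_le_add (th_ge_abs hb x i) (th_ge_abs hb y i))
  · refine le_trans ?_ (add_le_add (th_ge_sum hb x hE) (th_ge_sum hb y hE))
    rw [← mul_add, ← Finset.sum_add_distrib]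
    refine mul_le_mul_of_nonneg_left (Finset.sum_le_sum fun j _ => ?_) (by norm_num)
    rw [Finsupp.filter_add]
    exact ha _ _

theorem th_smul_le (hs : ∀ (t : ℝ) x, N (t • x) = |t| * N x) (t : ℝ) (x : ℕ →₀ ℝ) :
    th s N (t • x) ≤ |t| * th s N x := by
  refine th_le (fun i => ?_) (fun n E hE => ?_)
  · rw [Finsupp.smul_apply, smul_eq_mul, abs_mul]
    exact mul_le_mul_of_nonneg_left (th_ge_abs hb x i) (abs_nonneg _)
  · have h1 : 1 / 2 * ∑ j, N ((t • x).filter (fun i => i ∈ E j)) =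
        |t| * (1 / 2 * ∑ j, N (x.filter (fun i => i ∈ E j))) := by
      simp only [Finsupp.filter_smul, hs]
      rw [← Finset.mul_sum]
      ring
    rw [h1]
    exact mul_le_mul_of_nonneg_left (th_ge_sum hb x hE) (abs_nonneg _)

theorem th_smul (hs : ∀ (t : ℝ) x, N (t • x) = |t| * N x) (t : ℝ) (x : ℕ →₀ ℝ) :
    th s N (t • x) = |t| * th s N x := by
  refine le_antisymm (th_smul_le hb hs t x) ?_
  by_cases ht : t = 0
  · rw [ht, abs_zero, zero_mul]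
    exact th_nonneg hb _
  · have h1 := th_smul_le (s := s) hb hs t⁻¹ (t • x)
    rw [smul_smul, inv_mul_cancel₀ ht, one_smul, abs_inv] at h1
    have h2 : 0 < |t| := abs_pos.mpr ht
    rwa [le_inv_mul_iff₀ h2] at h1

end step

variable (s)

/-- the iterates -/
noncomputable def itN : ℕ → (ℕ →₀ ℝ) → ℝ
  | 0 => fun _ => 0
  | (m + 1) => th s (itN m)

theorem itN_l1 : ∀ (m : ℕ) (x : ℕ →₀ ℝ), itN s m x ≤ l1 x
  | 0, x => l1_nonneg x
  | (m + 1), x => th_le_l1 (itN_l1 m) x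

theorem itN_nonneg : ∀ (m : ℕ) (x : ℕ →₀ ℝ), 0 ≤ itN s m x
  | 0, _ => le_rfl
  | (m + 1), x => th_nonneg (itN_l1 s m) x

theorem itN_add : ∀ (m : ℕ) (x y : ℕ →₀ ℝ), itN s m (x + y) ≤ itN s m x + itN s m y
  | 0, _, _ => by simp [itN]
  | (m + 1), x, y => th_add (itN_l1 s m) (itN_add m) x y

theorem itN_smul : ∀ (m : ℕ) (t : ℝ) (x : ℕ →₀ ℝ), itN s m (t • x) = |t| * itN s m x
  | 0, _, _ => by simp [itN]
  | (m + 1), t, x => th_smul (itN_l1 s m) (itN_smul m) t x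

theorem itN_succ : ∀ (m : ℕ) (x : ℕ →₀ ℝ), itN s m x ≤ itN s (m + 1) x
  | 0, x => itN_nonneg s 1 x
  | (m + 1), x => by
    refine th_le (fun i => th_ge_abs (itN_l1 s (m + 1)) x i) (fun n E hE => ?_)
    refine le_trans ?_ (th_ge_sum (itN_l1 s (m + 1)) x hE)
    exact mul_le_mul_of_nonneg_left (Finset.sum_le_sum fun j _ => itN_succ m _) (by norm_num)

theorem itN_mono (x : ℕ →₀ ℝ) : Monotone (fun m => itN s m x) :=
  monotone_nat_of_le_succ fun m => itN_succ s m x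

theorem itN_bdd (x : ℕ →₀ ℝ) : BddAbove (Set.range fun m => itN s m x) :=
  ⟨l1 x, by rintro _ ⟨m, rfl⟩; exact itN_l1 s m x⟩

/-- the Figiel–Johnson norm exists -/
theorem exists_tsirelson : ∃ N, IsTsirelsonNorm s N := by
  refine ⟨fun x => ⨆ m, itN s m x, ⟨fun x y => ?_, fun t x => ?_, fun x => ⟨?_, ?_⟩⟩⟩
  · refine ciSup_le fun m => (itN_add s m x y).trans ?_
    exact add_le_add (le_ciSup (itN_bdd s x) m) (le_ciSup (itN_bdd s y) m)
  · simp only [itN_smul]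
    rw [Real.mul_iSup_of_nonneg (abs_nonneg t)]
  · rintro r (⟨i, rfl⟩ | ⟨n, E, hE, rfl⟩)
    · exact (th_ge_abs (itN_l1 s 0) x i).trans (le_ciSup (itN_bdd s x) 1)
    · have h1 : Tendsto (fun m => 1 / 2 * ∑ j, itN s m (x.filter (fun i => i ∈ E j))) atTop
          (𝓝 (1 / 2 * ∑ j, ⨆ m, itN s m (x.filter (fun i => i ∈ E j)))) := by
        refine Tendsto.const_mul _ (tendsto_finsetSum _ fun j _ => ?_)
        exact tendsto_atTop_ciSup (itN_mono s _) (itN_bdd s _)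
      refine le_of_tendsto h1 (Eventually.of_forall fun m => ?_)
      exact (th_ge_sum (itN_l1 s m) x hE).trans (le_ciSup (itN_bdd s x) (m + 1))
  · intro B hB
    refine ciSup_le fun m => ?_
    cases m with
    | zero => exact (abs_nonneg _).trans (hB (Or.inl ⟨0, rfl⟩))
    | succ m =>
      refine th_le (fun i => hB (Or.inl ⟨i, rfl⟩)) (fun n E hE => ?_)
      refine le_trans ?_ (hB (Or.inr ⟨n, E, hE, rfl⟩))
      exact mul_le_mul_of_nonneg_left
        (Finset.sum_le_sum fun j _ => le_ciSup (itN_bdd s _) m) (by norm_num)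

end exist

end Pool.Agent.Helper52.Tj
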