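import Pool.Agent.Helper52.TjTransfer
import Pool.Agent.Helper52.TjDual
import Pool.Agent.Helper52.TjExist

open Filter Topology ZeroAtInfty

namespace Pool.Agent.Helper52.Tj

/-- uniqueness of the Figiel–Johnson norm -/
theorem tsirelson_unique_aux {s : ℕ} {N N' : (ℕ →₀ ℝ) → ℝ} (hN : IsTsirelsonNorm s N)
    (hN' : IsTsirelsonNorm s N') : ∀ (m : ℕ) (x : ℕ →₀ ℝ), x.support.card ≤ m → N x ≤ N' x := by
  intro m
  induction m with
  | zero =>
    intro x hm
    have hx : x = 0 := Finsupp.support_eq_empty.mp (Finset.card_eq_zero.mp (by omega))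
    rw [hx, hN.zero, hN'.zero]
  | succ m ih =>
    intro x hm
    have key : N x ≤ max (N' x) (1 / 2 * N x) := by
      refine hN.le_of x (fun i => ?_) (fun n E hE => ?_)
      · exact (hN'.abs_le x i).trans (le_max_left _ _)
      · by_cases hall : ∃ j0, x.support ⊆ E j0
        · obtain ⟨j0, hj0⟩ := hall
          refine le_trans ?_ (le_max_right _ _)
          have h1 : ∀ j, j ≠ j0 → x.filter (fun i => i ∈ E j) = 0 := by
            intro j hj
            ext i
            rw [Finsupp.filter_apply]
            split_ifs with h2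
            · by_contra h3
              have h5 := hj0 (Finsupp.mem_support_iff.mpr h3)
              rcases lt_or_gt_of_ne hj with h6 | h6
              · exact lt_irrefl _ (hE.2 _ _ h6 i h2 i h5)
              · exact lt_irrefl _ (hE.2 _ _ h6 i h5 i h2)
            · rfl
          have h2 : x.filter (fun i => i ∈ E j0) = x := by
            rw [Finsupp.filter_eq_self_iff]
            intro i hi
            exact hj0 (Finsupp.mem_support_iff.mpr hi)
          rw [Finset.sum_eq_single j0 (fun j _ hj => by rw [h1 j hj, hN.zero])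
            (fun h => (h (Finset.mem_univ _)).elim), h2]
        · push Not at hall
          refine le_trans ?_ (le_max_left _ _)
          refine le_trans ?_ (hN'.lower x hE)
          refine mul_le_mul_of_nonneg_left (Finset.sum_le_sum fun j _ => ?_) (by norm_num)
          refine ih _ ?_
          have h1 : (x.filter (fun i => i ∈ E j)).support ⊂ x.support := by
            rw [Finsupp.support_filter]
            refine (Finset.filter_ssubset).mpr ?_
            have := hall j
            rw [Finset.not_subset] at this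
            exact this
          have := Finset.card_lt_card h1
          omega
    rcases le_max_iff.mp key with h1 | h1
    · exact h1
    · have := hN'.nonneg x
      linarith

theorem exists_unique_tsirelson (s : ℕ) : ∃! N, IsTsirelsonNorm s N := by
  obtain ⟨N, hN⟩ := exists_tsirelson s
  refine ⟨N, hN, fun N' hN' => ?_⟩
  funext x
  exact le_antisymm (tsirelson_unique_aux hN' hN _ x le_rfl)
    (tsirelson_unique_aux hN hN' _ x le_rfl)

section
variable (o : List Bool ≃ ℕ) (ho : ∀ α β, α <+: β → α ≠ β → o α < o β)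
variable {nE : (ℕ →₀ ℝ) → ℝ} (h : IsGood nE)

theorem J_dense : DenseRange (J o ho h) := by
  intro x
  rw [Metric.mem_closure_iff]
  intro ε hε
  obtain ⟨n₀, hn⟩ := dense_PX x (ε / 2) (by linarith)
  refine ⟨PX n₀ x, ?_, ?_⟩
  · refine ⟨∑ γ ∈ Finset.range n₀, x.1 γ • Finsupp.single (o.symm γ) 1, ?_⟩
    rw [PX_eq_sum, map_sum]
    refine Finset.sum_congr rfl fun γ _ => ?_
    rw [map_smul]
    congr 1
    unfold J
    rw [Finsupp.linearCombination_single, one_smul, Equiv.apply_symm_apply]
  · rw [dist_eq_norm]
    exact lt_of_le_of_lt (hn n₀ le_rfl) (by linarith)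

include ho h in
/-- the James tree space exists -/
theorem exists_jamesTree : ∃ (Y : Type) (_ : NormedAddCommGroup Y) (_ : NormedSpace ℝ Y)
    (ι : (List Bool →₀ ℝ) →ₗ[ℝ] Y), IsJamesTree nE o Y ι := by
  refine ⟨UniformSpace.Completion (XS h.toUN (treeOf o ho)), inferInstance, inferInstance,
    (UniformSpace.Completion.toComplL (𝕜 := ℝ) (E := XS h.toUN (treeOf o ho))).toLinearMap ∘ₗ
      J o ho h, ⟨inferInstance, ?_, ?_⟩⟩
  · have h1 : DenseRange (UniformSpace.Completion.toComplL (𝕜 := ℝ)
      (E := XS h.toUN (treeOf o ho))) := UniformSpace.Completion.denseRange_coe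
    have h2 := h1.comp (J_dense o ho h)
      (UniformSpace.Completion.toComplL (𝕜 := ℝ) (E := XS h.toUN (treeOf o ho))).continuous
    exact h2
  · intro x
    rw [← norm_J o ho h x]
    exact UniformSpace.Completion.norm_coe (J o ho h x)

end

/-- the answer to the second question -/
theorem tsirelson_answer (s : ℕ) (N : (ℕ →₀ ℝ) → ℝ) (hN : IsTsirelsonNorm s N)
    (o : List Bool ≃ ℕ) (ho : ∀ α β, α <+: β → α ≠ β → o α < o β)
    (Y : Type*) [NormedAddCommGroup Y] [NormedSpace ℝ Y] (ι : (List Bool →₀ ℝ) →ₗ[ℝ] Y)
    (hY : IsJamesTree (dualNorm N) o Y ι) : ¬ ∃ φ : C₀(ℕ, ℝ) → Y, IsCoarseEmbedding φ := by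
  refine no_coarse o ho (dual_good hN) (Or.inl (dual_asc0 hN)) ι hY.dense 1 one_pos (fun x => ?_) (fun x => ?_)
  · rw [norm_J, hY.norm_eq, one_mul]
  · rw [norm_J, hY.norm_eq, one_mul]

end Pool.Agent.Helper52.Tj
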