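import Pool.Agent.Helper52.TjFinal
import Pool.Agent.Helper52.TjDefs2

open Filter Topology ZeroAtInfty

namespace Pool.Agent.Helper52.Tj

section renorm

variable {nE : (ℕ →₀ ℝ) → ℝ} (h : IsUnconditionalBCBasis nE)

/-- the equivalent 1-unconditional norm -/
noncomputable def ren (nE : (ℕ →₀ ℝ) → ℝ) (x : ℕ →₀ ℝ) : ℝ :=
  sSup {r | ∃ y : ℕ →₀ ℝ, (∀ i, |y i| ≤ |x i|) ∧ r = nE y}

theorem ren_ne (x : ℕ →₀ ℝ) : {r | ∃ y : ℕ →₀ ℝ, (∀ i, |y i| ≤ |x i|) ∧ r = nE y}.Nonempty :=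
  ⟨_, x, fun _ => le_rfl, rfl⟩

variable {K : ℝ} (hK : ∀ x y : ℕ →₀ ℝ, (∀ i, |x i| ≤ |y i|) → nE x ≤ K * nE y)

include hK in
theorem ren_bdd (x : ℕ →₀ ℝ) : BddAbove {r | ∃ y : ℕ →₀ ℝ, (∀ i, |y i| ≤ |x i|) ∧ r = nE y} :=
  ⟨K * nE x, by rintro _ ⟨y, hy, rfl⟩; exact hK y x hy⟩

include hK in
theorem le_ren (x : ℕ →₀ ℝ) : nE x ≤ ren nE x := le_csSup (ren_bdd hK x) ⟨x, fun _ => le_rfl, rfl⟩

include hK in
theorem ren_ge {x y : ℕ →₀ ℝ} (hxy : ∀ i, |y i| ≤ |x i|) : nE y ≤ ren nE x :=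
  le_csSup (ren_bdd hK x) ⟨y, hxy, rfl⟩

include hK in
theorem ren_le (x : ℕ →₀ ℝ) : ren nE x ≤ K * nE x :=
  csSup_le (ren_ne x) (by rintro _ ⟨y, hy, rfl⟩; exact hK y x hy)

include hK in
theorem ren_mono (x y : ℕ →₀ ℝ) (hxy : ∀ i, |x i| ≤ |y i|) : ren nE x ≤ ren nE y :=
  csSup_le (ren_ne x) (by
    rintro _ ⟨z, hz, rfl⟩
    exact ren_ge hK fun i => (hz i).trans (hxy i))

include h hK in
theorem one_le_K : 1 ≤ K := by
  have := hK (Finsupp.single 0 1) (Finsupp.single 0 1) (fun _ => le_rfl)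
  rw [h.normalized] at this
  linarith

include h hK in
theorem ren_add (x x' : ℕ →₀ ℝ) : ren nE (x + x') ≤ ren nE x + ren nE x' := by
  refine csSup_le (ren_ne _) ?_
  rintro _ ⟨y, hy, rfl⟩
  have hy' : ∀ i, |y i| ≤ |x i| + |x' i| := fun i => (hy i).trans (by
    rw [Finsupp.add_apply]; exact abs_add_le _ _)
  let u : ℕ →₀ ℝ := vec y.support (fun i => y i * (|x i| / (|x i| + |x' i|)))
  let v : ℕ →₀ ℝ := vec y.support (fun i => y i * (|x' i| / (|x i| + |x' i|)))
  have hfrac : ∀ a b c : ℝ, 0 ≤ a → 0 ≤ b → |c| ≤ a + b → |c * (a / (a + b))| ≤ a := by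
    intro a b c ha hb hc
    rcases (add_nonneg ha hb).eq_or_lt with h0 | h0
    · rw [← h0, div_zero, mul_zero, abs_zero]
      exact ha
    · rw [abs_mul, abs_div, abs_of_nonneg ha, abs_of_pos h0, mul_div_assoc', div_le_iff₀ h0]
      calc |c| * a ≤ (a + b) * a := mul_le_mul_of_nonneg_right hc ha
        _ = a * (a + b) := by ring
  have hu : ∀ i, |u i| ≤ |x i| := by
    intro i
    rw [vec_apply]
    split_ifs
    · exact hfrac _ _ _ (abs_nonneg _) (abs_nonneg _) (hy' i)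
    · rw [abs_zero]; exact abs_nonneg _
  have hv : ∀ i, |v i| ≤ |x' i| := by
    intro i
    rw [vec_apply]
    split_ifs
    · rw [add_comm (|x i|)]
      exact hfrac _ _ _ (abs_nonneg _) (abs_nonneg _) (by rw [add_comm]; exact hy' i)
    · rw [abs_zero]; exact abs_nonneg _
  have huv : y = u + v := by
    ext i
    rw [Finsupp.add_apply, vec_apply, vec_apply]
    by_cases hi : i ∈ y.support
    · rw [if_pos hi, if_pos hi]
      have hpos : 0 < |x i| + |x' i| :=
        lt_of_lt_of_le (abs_pos.mpr (Finsupp.mem_support_iff.mp hi)) (hy' i)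
      field_simp
    · rw [if_neg hi, if_neg hi, Finsupp.notMem_support_iff.mp hi, add_zero]
  rw [huv]
  exact (h.add_le _ _).trans (add_le_add (ren_ge hK hu) (ren_ge hK hv))

include h hK in
theorem ren_smul_le (t : ℝ) (x : ℕ →₀ ℝ) : ren nE (t • x) ≤ |t| * ren nE x := by
  refine csSup_le (ren_ne _) ?_
  rintro _ ⟨y, hy, rfl⟩
  by_cases ht : t = 0
  · have : y = 0 := by
      ext i
      have := hy i
      rw [ht, zero_smul] at this
      simpa using this
    have h0 : nE 0 = 0 := by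
      have := h.smul_eq 0 0
      simpa using this
    rw [this, h0, ht, abs_zero, zero_mul]
  · have h1 : y = t • (t⁻¹ • y) := by rw [smul_smul, mul_inv_cancel₀ ht, one_smul]
    rw [h1, h.smul_eq]
    refine mul_le_mul_of_nonneg_left (ren_ge hK fun i => ?_) (abs_nonneg _)
    have h2 := hy i
    rw [Finsupp.smul_apply, smul_eq_mul, abs_mul] at h2
    rw [Finsupp.smul_apply, smul_eq_mul, abs_mul, abs_inv]
    rw [inv_mul_le_iff₀ (abs_pos.mpr ht)]
    exact h2

include h hK in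
theorem ren_nonneg (x : ℕ →₀ ℝ) : 0 ≤ ren nE x := by
  have h0 : nE 0 = 0 := by
    have := h.smul_eq 0 0
    simpa using this
  rw [← h0]
  exact ren_ge hK fun i => by simp

include h hK in
theorem ren_smul (t : ℝ) (x : ℕ →₀ ℝ) : ren nE (t • x) = |t| * ren nE x := by
  refine le_antisymm (ren_smul_le h hK t x) ?_
  by_cases ht : t = 0
  · rw [ht, abs_zero, zero_mul]
    exact ren_nonneg h hK _
  · have h1 := ren_smul_le h hK t⁻¹ (t • x)
    rw [smul_smul, inv_mul_cancel₀ ht, one_smul, abs_inv] at h1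
    have h2 : 0 < |t| := abs_pos.mpr ht
    rwa [le_inv_mul_iff₀ h2] at h1

include h hK in
theorem ren_good : IsGood (ren nE) where
  add_le := ren_add h hK
  smul_eq := ren_smul h hK
  normalized i := by
    refine le_antisymm (csSup_le (ren_ne _) ?_) ?_
    · rintro _ ⟨y, hy, rfl⟩
      have h1 : y = (y i) • Finsupp.single i 1 := by
        ext j
        rw [Finsupp.smul_apply, Finsupp.single_apply, smul_eq_mul]
        split_ifs with hij
        · rw [hij, mul_one]
        · have := hy j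
          rw [Finsupp.single_apply, if_neg hij, abs_zero] at this
          rw [mul_zero]
          exact abs_eq_zero.mp (le_antisymm this (abs_nonneg _))
      rw [h1, h.smul_eq, h.normalized, mul_one]
      have := hy i
      rwa [Finsupp.single_eq_same, abs_one] at this
    · have := le_ren hK (Finsupp.single i 1)
      rwa [h.normalized] at this
  unconditional := ren_mono hK
  boundedly_complete a hbd ε hε := by
    have hK1 := one_le_K h hK
    obtain ⟨M, hM⟩ := hbd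
    obtain ⟨n₀, hn₀⟩ := h.boundedly_complete a ⟨M, fun n => (le_ren hK _).trans (hM n)⟩
      (ε / K) (by positivity)
    refine ⟨n₀, fun m n hm hn => (ren_le hK _).trans ?_⟩
    calc K * nE (∑ i ∈ Finset.Ico m n, Finsupp.single i (a i)) ≤ K * (ε / K) :=
          mul_le_mul_of_nonneg_left (hn₀ m n hm hn) (by linarith)
      _ = ε := by
          have : K ≠ 0 := by positivity
          field_simp

include h hK in
theorem ren_asc0 (hA : IsAsymptoticallyC0 nE) : AsC0 (ren nE) := by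
  have hK1 := one_le_K h hK
  obtain ⟨C, hC⟩ := hA
  refine ⟨K * C, fun n => ?_⟩
  obtain ⟨p, hp⟩ := hC n
  refine ⟨p, fun z h1 h2 a ha h3 => (ren_le hK _).trans ?_⟩
  rw [mul_assoc]
  exact mul_le_mul_of_nonneg_left (hp z h1 h2 a ha fun j => (le_ren hK _).trans (h3 j))
    (by linarith)

include h hK in
theorem ren_nol1 (hB : HasSmallDisjointAverages nE) : NoL1 (ren nE) := by
  have hK1 := one_le_K h hK
  obtain ⟨n, p, hn, hp⟩ := hB (1 / (2 * K)) (by positivity)
  refine ⟨n, p, 1 / 2, hn, by norm_num, fun z h1 h2 h3 => (ren_le hK _).trans ?_⟩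
  have := hp z h1 h2 fun j => (le_ren hK _).trans (h3 j)
  calc K * nE (∑ j, z j) ≤ K * (1 / (2 * K) * n) := mul_le_mul_of_nonneg_left this (by linarith)
    _ = 1 / 2 * n := by
        have : K ≠ 0 := by positivity
        field_simp

end renorm

/-- The general theorem. -/
theorem general_answer (nE : (ℕ →₀ ℝ) → ℝ) (h : IsUnconditionalBCBasis nE)
    (hAB : IsAsymptoticallyC0 nE ∨ HasSmallDisjointAverages nE)
    (o : List Bool ≃ ℕ) (ho : ∀ α β, α <+: β → α ≠ β → o α < o β)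
    (Y : Type*) [NormedAddCommGroup Y] [NormedSpace ℝ Y] (ι : (List Bool →₀ ℝ) →ₗ[ℝ] Y)
    (hY : IsJamesTree nE o Y ι) : ¬ ∃ φ : C₀(ℕ, ℝ) → Y, IsCoarseEmbedding φ := by
  obtain ⟨K, hK⟩ := h.unconditional
  have hK1 := one_le_K h hK
  have hgood := ren_good h hK
  have hne : ∀ x, {r | ∃ (k : ℕ) (α β : Fin k → List Bool), (∀ i, α i <+: β i) ∧
    (∀ i j, i ≠ j → Disjoint (segment (α i) (β i)) (segment (α j) (β j))) ∧
    r = nE (∑ i, Finsupp.single (o (α i)) (segSum (segment (α i) (β i)) x))}.Nonempty :=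
    fun x => ⟨_, 0, Fin.elim0, Fin.elim0, fun i => i.elim0, fun i => i.elim0, rfl⟩
  have hne' : ∀ x, {r | ∃ (k : ℕ) (α β : Fin k → List Bool), (∀ i, α i <+: β i) ∧
    (∀ i j, i ≠ j → Disjoint (segment (α i) (β i)) (segment (α j) (β j))) ∧
    r = ren nE (∑ i, Finsupp.single (o (α i)) (segSum (segment (α i) (β i)) x))}.Nonempty :=
    fun x => ⟨_, 0, Fin.elim0, Fin.elim0, fun i => i.elim0, fun i => i.elim0, rfl⟩
  have h1 : ∀ x, jtNorm nE o x ≤ jtNorm (ren nE) o x := by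
    intro x
    refine csSup_le (hne x) ?_
    rintro _ ⟨k, α, β, g1, g2, rfl⟩
    exact (le_ren hK _).trans (le_csSup (jt_bdd o ho hgood x) ⟨k, α, β, g1, g2, rfl⟩)
  have hbdd : ∀ x, BddAbove {r | ∃ (k : ℕ) (α β : Fin k → List Bool), (∀ i, α i <+: β i) ∧
    (∀ i j, i ≠ j → Disjoint (segment (α i) (β i)) (segment (α j) (β j))) ∧
    r = nE (∑ i, Finsupp.single (o (α i)) (segSum (segment (α i) (β i)) x))} := by
    intro x
    refine ⟨jtNorm (ren nE) o x, ?_⟩
    rintro _ ⟨k, α, β, g1, g2, rfl⟩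
    exact (le_ren hK _).trans (le_csSup (jt_bdd o ho hgood x) ⟨k, α, β, g1, g2, rfl⟩)
  have h2 : ∀ x, jtNorm (ren nE) o x ≤ K * jtNorm nE o x := by
    intro x
    refine csSup_le (hne' x) ?_
    rintro _ ⟨k, α, β, g1, g2, rfl⟩
    refine (ren_le hK _).trans (mul_le_mul_of_nonneg_left ?_ (by linarith))
    exact le_csSup (hbdd x) ⟨k, α, β, g1, g2, rfl⟩
  refine no_coarse o ho hgood ?_ ι hY.dense K (by linarith) (fun x => ?_) (fun x => ?_)
  · rcases hAB with hA | hB
    · exact Or.inl (ren_asc0 h hK hA)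
    · exact Or.inr (ren_nol1 h hK hB)
  · rw [norm_J, hY.norm_eq]
    exact h2 x
  · rw [norm_J, hY.norm_eq]
    refine (h1 x).trans ?_
    have h3 : 0 ≤ jtNorm (ren nE) o x := by
      rw [← norm_J o ho hgood]
      exact norm_nonneg _
    nlinarith

end Pool.Agent.Helper52.Tj
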