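import Pool.Agent.Helper52.TjEngine

open Filter Topology

namespace Pool.Agent.Helper52.Tj

section tower

theorem exists_dom (S : Set (ℕ → ℕ)) (hS : S.Countable) :
    ∃ h : ℕ → ℕ, ∀ g ∈ S, ∀ᶠ n in atTop, g n < h n := by
  rcases S.eq_empty_or_nonempty with h0 | h0
  · exact ⟨fun _ => 0, by simp [h0]⟩
  · obtain ⟨g, rfl⟩ := hS.exists_eq_range h0
    refine ⟨fun n => (Finset.range (n + 1)).sup (fun k => g k n) + 1, ?_⟩
    rintro _ ⟨k, rfl⟩
    filter_upwards [eventually_ge_atTop k] with n hn
    have : g k n ≤ (Finset.range (n + 1)).sup (fun k => g k n) :=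
      Finset.le_sup (f := fun k => g k n) (Finset.mem_range.mpr (by omega))
    omega

variable {I : Type} [LinearOrder I] [WellFoundedLT I]

open Classical in
/-- a sequence of functions increasing modulo finite sets -/
noncomputable def towerF : I → ℕ → ℕ :=
  WellFounded.fix (C := fun _ => ℕ → ℕ) (wellFounded_lt (α := I)) (fun β ih =>
    Classical.epsilon (fun h => ∀ α (hα : α < β), ∀ᶠ n in atTop, ih α hα n < h n))

theorem towerF_lt (hI : ∀ i : I, (Set.Iio i).Countable) (α β : I) (h : α < β) :
    ∀ᶠ n in atTop, towerF α n < towerF β n := by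
  have h1 : (towerF (I := I)) β = Classical.epsilon (fun h => ∀ α (_ : α < β),
      ∀ᶠ n in atTop, towerF α n < h n) := by
    unfold towerF
    rw [WellFounded.fix_eq]
  have h2 : ∃ h : ℕ → ℕ, ∀ α (_ : α < β), ∀ᶠ n in atTop, towerF α n < h n := by
    obtain ⟨g, hg⟩ := exists_dom (towerF '' Set.Iio β) ((hI β).image _)
    exact ⟨g, fun α hα => hg _ ⟨α, hα, rfl⟩⟩
  have h3 := Classical.epsilon_spec h2
  rw [← h1] at h3
  exact h3 α h

/-- a tower of sets of integers -/
theorem exists_tower (hI : ∀ i : I, (Set.Iio i).Countable) :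
    ∃ B : I → Set ℕ, ∀ α β, α < β → (B α \ B β).Finite ∧ (B β \ B α).Infinite := by
  refine ⟨fun α => {i | (Nat.unpair i).2 ≤ towerF α (Nat.unpair i).1}, fun α β h => ?_⟩
  obtain ⟨N, hN⟩ := Filter.eventually_atTop.mp (towerF_lt hI α β h)
  constructor
  · let K := (Finset.range N).sup (towerF α)
    have h1 : ((fun p : ℕ × ℕ => Nat.pair p.1 p.2) '' (Set.Iio N ×ˢ Set.Iic K)).Finite :=
      ((Set.finite_Iio N).prod (Set.finite_Iic K)).image _
    refine h1.subset ?_
    rintro i ⟨h2, h3⟩
    simp only [Set.mem_setOf_eq, not_le] at h2 h3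
    have h4 : (Nat.unpair i).1 < N := by
      by_contra h5
      have := hN _ (not_lt.mp h5)
      omega
    refine ⟨Nat.unpair i, ⟨h4, ?_⟩, Nat.pair_unpair i⟩
    exact h2.trans (Finset.le_sup (f := towerF α) (Finset.mem_range.mpr h4))
  · refine Set.infinite_of_injective_forall_mem
      (f := fun m : ℕ => Nat.pair (m + N) (towerF β (m + N))) ?_ ?_
    · intro m m' h2
      have := (Nat.pair_eq_pair.mp h2).1
      omega
    · intro m
      refine ⟨?_, ?_⟩
      · simp
      · have := hN (m + N) (by omega)
        simp only [Set.mem_setOf_eq, Nat.unpair_pair, not_le]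
        exact this

end tower

section index

/-- the first uncountable well-ordered set -/
abbrev OI : Type := (Cardinal.aleph 1).ord.ToType

theorem OI_countable (i : OI) : (Set.Iio i).Countable := by
  have h := Cardinal.mk_Iio_lt i (by simp)
  rw [Cardinal.mk_ord_toType, Cardinal.lt_aleph_one_iff] at h
  exact (Cardinal.le_aleph0_iff_set_countable).mp h

instance : NeBot (Filter.cocountable (α := OI)) := by
  rw [neBot_iff]
  intro h
  have h1 : (∅ : Set OI) ∈ Filter.cocountable (α := OI) := by rw [h]; exact mem_bot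
  rw [Filter.mem_cocountable, Set.compl_empty] at h1
  have h2 := (Cardinal.le_aleph0_iff_set_countable).mpr h1
  rw [Cardinal.mk_univ, Cardinal.mk_ord_toType] at h2
  exact absurd h2 (not_le.mpr Cardinal.aleph0_lt_aleph_one)

instance : CountableInterFilter (Filter.cocountable (α := OI)) :=
  CardinalInterFilter.toCountableInterFilter _ Cardinal.aleph0_lt_aleph_one

theorem OI_eventually (κ : OI) : ∀ᶠ a in Filter.cocountable (α := OI), κ < a := by
  rw [Filter.eventually_iff, Filter.mem_cocountable]
  have : ({a | κ < a}ᶜ : Set OI) = insert κ (Set.Iio κ) := by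
    ext a
    simp only [Set.mem_compl_iff, Set.mem_setOf_eq, not_lt, Set.mem_insert_iff, Set.mem_Iio]
    exact le_iff_eq_or_lt
  rw [this]
  exact (OI_countable κ).insert κ

end index

section lists

/-- strictly interlaced lists above `κ` -/
def Inter {A : Type} [LinearOrder A] : A → List A → List A → Prop
  | _, [], [] => True
  | κ, a :: l, b :: l' => κ < a ∧ a < b ∧ Inter b l l'
  | _, _, _ => False

theorem NU_inter {A : Type} [LinearOrder A] {𝓕 : Filter A} (h : ∀ κ, ∀ᶠ a in 𝓕, κ < a) :
    ∀ (r : ℕ) (κ : A), NU 𝓕 r (fun l l' => Inter κ l l' ∧ l.length = r)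
  | 0, κ => by simp [NU, Inter]
  | (r + 1), κ => by
    simp only [NU]
    filter_upwards [h κ] with a ha
    filter_upwards [h a] with b hb
    refine NU_mono r (fun l l' hl => ?_) (NU_inter h r b)
    exact ⟨⟨ha, hb, hl.1⟩, by simp [hl.2]⟩

variable {A : Type} [LinearOrder A]

theorem Inter.gt : ∀ {κ : A} {l l' : List A}, Inter κ l l' →
    (∀ a ∈ l, κ < a) ∧ (∀ a ∈ l', κ < a) ∧ l.length = l'.length
  | _, [], [], _ => by simp
  | κ, a :: l, b :: l', h => by
    obtain ⟨h1, h2, h3⟩ := h
    obtain ⟨h4, h5, h6⟩ := h3.gt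
    refine ⟨?_, ?_, by simp [h6]⟩
    · intro c hc
      rcases List.mem_cons.mp hc with rfl | hc
      · exact h1
      · exact h1.trans (h2.trans (h4 c hc))
    · intro c hc
      rcases List.mem_cons.mp hc with rfl | hc
      · exact h1.trans h2
      · exact h1.trans (h2.trans (h5 c hc))

theorem countP_all {Q : A → Bool} {l : List A} (h : ∀ a ∈ l, Q a = true) :
    l.countP Q = l.length := by
  rw [List.countP_eq_length]
  exact h

theorem countP_up (Q : A → Bool) : ∀ {κ : A} {l l' : List A}, Inter κ l l' →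
    (∀ a ∈ l ++ l', ∀ b ∈ l ++ l', a < b → Q a = true → Q b = true) →
    l.countP Q ≤ l'.countP Q ∧ l'.countP Q ≤ l.countP Q + 1
  | _, [], [], _, _ => by simp
  | κ, a :: l, b :: l', h, hQ => by
    obtain ⟨h1, h2, h3⟩ := h
    have hQ' : ∀ a ∈ l ++ l', ∀ b ∈ l ++ l', a < b → Q a = true → Q b = true := by
      intro x hx y hy
      refine hQ x ?_ y ?_
      · simp only [List.mem_append, List.mem_cons] at hx ⊢
        tauto
      · simp only [List.mem_append, List.mem_cons] at hy ⊢
        tauto
    have ih := countP_up Q h3 hQ'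
    obtain ⟨h4, h5, h6⟩ := h3.gt
    by_cases hb : Q b = true
    · have e1 : l.countP Q = l.length := countP_all fun c hc =>
        hQ b (by simp) c (by simp [hc]) (h4 c hc) hb
      have e2 : l'.countP Q = l'.length := countP_all fun c hc =>
        hQ b (by simp) c (by simp [hc]) (h5 c hc) hb
      by_cases ha : Q a = true
      · rw [List.countP_cons_of_pos ha, List.countP_cons_of_pos hb]
        omega
      · rw [List.countP_cons_of_neg ha, List.countP_cons_of_pos hb]
        omega
    · have ha : ¬ Q a = true := fun ha => hb (hQ a (by simp) b (by simp) h2 ha)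
      rw [List.countP_cons_of_neg ha, List.countP_cons_of_neg hb]
      exact ih

theorem countP_down (Q : A → Bool) {κ : A} {l l' : List A} (h : Inter κ l l')
    (hQ : ∀ a ∈ l ++ l', ∀ b ∈ l ++ l', a < b → Q b = true → Q a = true) :
    l'.countP Q ≤ l.countP Q ∧ l.countP Q ≤ l'.countP Q + 1 := by
  have h1 := countP_up (fun a => !Q a) h (by
    intro a ha b hb hab h2
    simp only [Bool.not_eq_true', Bool.not_eq_true] at h2 ⊢
    by_contra h3
    rw [Bool.not_eq_false] at h3
    have := hQ a ha b hb hab h3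
    rw [h2] at this
    exact Bool.false_ne_true this)
  have h2 := List.length_eq_countP_add_countP Q (l := l)
  have h3 := List.length_eq_countP_add_countP Q (l := l')
  have e : (fun a => !Q a) = (fun a => decide ¬ Q a = true) := by
    ext a
    cases Q a <;> simp
  rw [← e] at h2 h3
  have h4 := h.gt.2.2
  omega

end lists

section grid

variable (B : OI → Set ℕ) (R : ℕ)

open Classical in
/-- the grid points -/
noncomputable def gp (σ : List OI) (n k : List ℕ) (i : ℕ) : ℕ :=
  min R (min (σ.countP (fun s => decide (i ∈ B s)))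
    (min (n.countP (fun m => decide (m < i))) (k.countP (fun m => decide (i ≤ m)))))

theorem gp_le (σ : List OI) (n k : List ℕ) (i : ℕ) : gp B R σ n k i ≤ R := min_le_left _ _

theorem gp_supp (σ : List OI) (n k : List ℕ) : ∃ N, ∀ i, N ≤ i → gp B R σ n k i = 0 := by
  refine ⟨k.foldr max 0 + 1, fun i hi => ?_⟩
  have h1 : ∀ l : List ℕ, ∀ m ∈ l, m ≤ l.foldr max 0 := by
    intro l
    induction l with
    | nil => simp
    | cons a l ih =>
      intro m hm
      rcases List.mem_cons.mp hm with rfl | hm
      · simp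
      · simp only [List.foldr_cons]
        exact (ih m hm).trans (le_max_right _ _)
  have h2 : k.countP (fun m => decide (i ≤ m)) = 0 := by
    rw [List.countP_eq_zero]
    intro m hm
    have := h1 k m hm
    simp only [decide_eq_true_eq, not_le]
    omega
  simp [gp, h2]

/-- beyond all discrepancies -/
def Bey (L : List OI) (N : ℕ) : Prop := ∀ α ∈ L, ∀ β ∈ L, α < β → ∀ i, N < i → i ∈ B α → i ∈ B β

theorem exists_bey (hB : ∀ α β, α < β → (B α \ B β).Finite ∧ (B β \ B α).Infinite)
    (L : List OI) : ∃ N, Bey B L N := by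
  classical
  have h1 : ∀ p ∈ L.toFinset ×ˢ L.toFinset, ∃ N, p.1 < p.2 → ∀ i, N < i → i ∈ B p.1 → i ∈ B p.2 := by
    rintro ⟨α, β⟩ _
    by_cases h : α < β
    · obtain ⟨N, hN⟩ := (hB α β h).1.bddAbove
      refine ⟨N, fun _ i hi h2 => ?_⟩
      by_contra h3
      have := hN ⟨h2, h3⟩
      omega
    · exact ⟨0, fun h' => (h h').elim⟩
  choose! N hN using h1
  refine ⟨(L.toFinset ×ˢ L.toFinset).sup N, ?_⟩
  intro α hα β hβ hab i hi h2
  have hmem : (α, β) ∈ L.toFinset ×ˢ L.toFinset := by simp [hα, hβ]
  have h3 : N (α, β) ≤ (L.toFinset ×ˢ L.toFinset).sup N := Finset.le_sup hmem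
  exact hN (α, β) hmem hab i (by omega) h2

theorem Bey.mono {L L' : List OI} {N : ℕ} (h : Bey B L N) (hL : ∀ a ∈ L', a ∈ L) : Bey B L' N :=
  fun α hα β hβ => h α (hL α hα) β (hL β hβ)

/-- interlaced parameters give points at distance at most one -/
theorem gp_close {κ : OI} {σ τ : List OI} (h1 : Inter κ σ τ) {N : ℕ} (hN : Bey B (σ ++ τ) N)
    {n n' : List ℕ} (h2 : Inter N n n') {K : ℕ} {k k' : List ℕ} (h3 : Inter K k k') (i : ℕ) :
    gp B R σ n k i ≤ gp B R τ n' k' i + 1 ∧ gp B R τ n' k' i ≤ gp B R σ n k i + 1 := by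
  classical
  by_cases hi : i ≤ N
  · have e1 : n.countP (fun m => decide (m < i)) = 0 := by
      rw [List.countP_eq_zero]
      intro m hm
      have := h2.gt.1 m hm
      simp only [decide_eq_true_eq, not_lt]
      omega
    have e2 : n'.countP (fun m => decide (m < i)) = 0 := by
      rw [List.countP_eq_zero]
      intro m hm
      have := h2.gt.2.1 m hm
      simp only [decide_eq_true_eq, not_lt]
      omega
    simp [gp, e1, e2]
  · push Not at hi
    have e1 := countP_up (fun s => decide (i ∈ B s)) h1 (by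
      intro a ha b hb hab h4
      simp only [decide_eq_true_eq] at h4 ⊢
      exact hN a ha b hb hab i hi h4)
    have e2 := countP_down (fun m => decide (m < i)) h2 (by
      intro a _ b _ hab h4
      simp only [decide_eq_true_eq] at h4 ⊢
      omega)
    have e3 := countP_up (fun m => decide (i ≤ m)) h3 (by
      intro a _ b _ hab h4
      simp only [decide_eq_true_eq] at h4 ⊢
      omega)
    unfold gp
    omega

/-- separated parameters give points at distance `R` -/
theorem gp_far (hR : 0 < R)
    (hB : ∀ α β, α < β → (B α \ B β).Finite ∧ (B β \ B α).Infinite)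
    {σ σ' : List OI} (hσ : σ.length = R) (hσ' : σ'.length = R)
    (hlt : ∀ a ∈ σ, ∀ b ∈ σ', a < b) {N : ℕ} (hN : Bey B (σ ++ σ') N)
    {n : List ℕ} (hn : n.length = R) : ∃ K, ∀ k : List ℕ, k.length = R → (∀ m ∈ k, K < m) →
      gp B R σ n k K = 0 ∧ gp B R σ' n k K = R := by
  classical
  have h0 : σ.toFinset.Nonempty := by
    have : 0 < σ.length := by omega
    obtain ⟨a, ha⟩ := List.exists_mem_of_length_pos this
    exact ⟨a, by simpa using ha⟩
  have h0' : σ'.toFinset.Nonempty := by
    have : 0 < σ'.length := by omega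
    obtain ⟨a, ha⟩ := List.exists_mem_of_length_pos this
    exact ⟨a, by simpa using ha⟩
  set s := σ.toFinset.max' h0 with hs
  set s' := σ'.toFinset.min' h0' with hs'
  have hsm : s ∈ σ := by
    have := σ.toFinset.max'_mem h0
    simpa using this
  have hsm' : s' ∈ σ' := by
    have := σ'.toFinset.min'_mem h0'
    simpa using this
  have hbase : (B s' \ B s).Infinite := (hB s s' (hlt s hsm s' hsm')).2
  obtain ⟨K, hK, hgt⟩ := hbase.exists_gt (N + n.sum)
  refine ⟨K, fun k hk hk' => ?_⟩
  have hin : ∀ b ∈ σ', K ∈ B b := by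
    intro b hb
    have h1 : s' ≤ b := σ'.toFinset.min'_le b (by simpa using hb)
    rcases h1.eq_or_lt with h2 | h2
    · rw [← h2]; exact hK.1
    · exact hN s' (by simp [hsm']) b (by simp [hb]) h2 K (by omega) hK.1
  have hout : ∀ a ∈ σ, K ∉ B a := by
    intro a ha h3
    have h1 : a ≤ s := σ.toFinset.le_max' a (by simpa using ha)
    rcases h1.eq_or_lt with h2 | h2
    · rw [h2] at h3; exact hK.2 h3
    · exact hK.2 (hN a (by simp [ha]) s (by simp [hsm]) h2 K (by omega) h3)
  have e1 : σ.countP (fun s => decide (K ∈ B s)) = 0 := by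
    rw [List.countP_eq_zero]
    intro a ha
    simpa using hout a ha
  have e2 : σ'.countP (fun s => decide (K ∈ B s)) = R := by
    rw [← hσ', List.countP_eq_length]
    intro a ha
    simpa using hin a ha
  have e3 : n.countP (fun m => decide (m < K)) = R := by
    rw [← hn, List.countP_eq_length]
    intro m hm
    have := List.single_le_sum (l := n) (by simp) m hm
    simp only [decide_eq_true_eq]
    omega
  have e4 : k.countP (fun m => decide (K ≤ m)) = R := by
    rw [← hk, List.countP_eq_length]
    intro m hm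
    have := hk' m hm
    simp only [decide_eq_true_eq]
    omega
  simp [gp, e1, e2, e3, e4]

end grid

end Pool.Agent.Helper52.Tj
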