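import Pool.Agent.Helper52.TjN
import Pool.Agent.Helper52.TjGrid

open Filter Topology ZeroAtInfty

namespace Pool.Agent.Helper52.Tj

/-- a finitely supported integer sequence as an element of `c_0` -/
noncomputable def toC0 (p : ℕ → ℕ) (hp : ∃ N, ∀ i, N ≤ i → p i = 0) : C₀(ℕ, ℝ) where
  toFun i := (p i : ℝ)
  continuous_toFun := continuous_of_discreteTopology
  zero_at_infty' := by
    obtain ⟨N, hN⟩ := hp
    refine Tendsto.congr' ?_ tendsto_const_nhds
    rw [Filter.cocompact_eq_cofinite, Nat.cofinite_eq_atTop]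
    filter_upwards [eventually_ge_atTop N] with i hi
    simp [hN i hi]

theorem toC0_apply (p : ℕ → ℕ) (hp : ∃ N, ∀ i, N ≤ i → p i = 0) (i : ℕ) :
    toC0 p hp i = (p i : ℝ) := rfl

theorem c0_dist_le {f g : C₀(ℕ, ℝ)} {C : ℝ} (hC : 0 ≤ C) (h : ∀ i, |f i - g i| ≤ C) :
    dist f g ≤ C := by
  rw [← ZeroAtInftyContinuousMap.dist_toBCF_eq_dist]
  refine (BoundedContinuousFunction.dist_le hC).mpr fun i => ?_
  rw [Real.dist_eq]
  exact h i

theorem c0_le_dist (f g : C₀(ℕ, ℝ)) (i : ℕ) : |f i - g i| ≤ dist f g := by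
  rw [← ZeroAtInftyContinuousMap.dist_toBCF_eq_dist, ← Real.dist_eq]
  exact BoundedContinuousFunction.dist_coe_le_dist (f := f.toBCF) (g := g.toBCF) i

theorem hyper_eventually (κ : ℕ) : ∀ᶠ a in (hyperfilter ℕ : Filter ℕ), κ < a := by
  have h1 : (hyperfilter ℕ : Filter ℕ) ≤ atTop := by
    rw [← Nat.cofinite_eq_atTop]
    exact hyperfilter_le_cofinite
  exact h1 (eventually_gt_atTop κ)

theorem exists_list_bound {A : Type} [LinearOrder A] (κ : A) (L : List A) :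
    ∃ κ', ∀ a ∈ L, a ≤ κ' := by
  induction L with
  | nil => exact ⟨κ, by simp⟩
  | cons b l ih =>
    obtain ⟨κ', h⟩ := ih
    refine ⟨max b κ', fun a ha => ?_⟩
    rcases List.mem_cons.mp ha with rfl | ha
    · exact le_max_left _ _
    · exact (h a ha).trans (le_max_right _ _)

theorem main_X (U : UN) (T : TreeOrd) (hT : TailProp U) (hR' : ReflProp U T) (φ : C₀(ℕ, ℝ) → XS U T) (C1 : ℝ)
    (h1 : ∀ x y, dist x y ≤ 1 → ‖φ x - φ y‖ ≤ C1)
    (hbd : ∀ R : ℝ, ∃ C, ∀ x, dist x 0 ≤ R → ‖φ x‖ ≤ C) (R : ℕ) (hR : 0 < R)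
    (h2 : ∀ x y, (R : ℝ) ≤ dist x y → 2 * C1 + 2 ≤ ‖φ x - φ y‖) : False := by
  classical
  obtain ⟨B, hB⟩ := exists_tower OI_countable
  let p : List OI → List ℕ → List ℕ → C₀(ℕ, ℝ) := fun σ n k =>
    toC0 (gp B R σ n k) (gp_supp B R σ n k)
  have hp : ∀ σ n k i, p σ n k i = (gp B R σ n k i : ℝ) := fun σ n k i => rfl
  let G : List OI → List ℕ → List ℕ → XS U T := fun σ n k => φ (p σ n k)
  have hF : ∀ σ σ' n k, ∃ ν : Phi U T, ‖G σ n k - G σ' n k‖ - 1 ≤
      ev ν (G σ n k - G σ' n k) := fun σ σ' n k => phi_h2 _ 1 one_pos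
  choose F hF using hF
  obtain ⟨C, hC⟩ := hbd R
  have hGC : ∀ σ n k, ‖G σ n k‖ ≤ C := by
    intro σ n k
    apply hC
    refine c0_dist_le (by positivity) fun i => ?_
    rw [hp]
    have h3 : (gp B R σ n k i : ℝ) ≤ R := by exact_mod_cast gp_le B R σ n k i
    have h4 : (0 : ℝ) ≤ (gp B R σ n k i : ℝ) := by positivity
    simp only [ZeroAtInftyContinuousMap.coe_zero, Pi.zero_apply, sub_zero]
    rw [abs_of_nonneg h4]
    exact h3
  have hne : Nonempty OI := nonempty_of_neBot (Filter.cocountable (α := OI))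
  haveI : Inhabited (QS U T) := ⟨0⟩
  haveI : Inhabited (Psi U T) := ⟨⟨0, fun q => by simp⟩⟩
  refine (edata U T hT hR').engine (Filter.cocountable (α := OI)) (hyperfilter ℕ) R R R G F C 1 hGC
    one_pos ?_
  refine NU_mono R (fun σ τ hστ => ?_)
    (NU_inter OI_eventually R (Classical.arbitrary OI))
  obtain ⟨κ', hκ'⟩ := exists_list_bound (Classical.arbitrary OI) (σ ++ τ)
  refine NU_mono R (fun σ' τ' hστ' => ?_) (NU_inter OI_eventually R κ')
  obtain ⟨N, hN⟩ := exists_bey B hB (σ ++ τ ++ (σ' ++ τ'))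
  refine NU_mono R (fun n n' hn => ?_) (NU_inter hyper_eventually R N)
  have hlt : ∀ a ∈ σ, ∀ b ∈ σ', a < b := fun a ha b hb =>
    lt_of_le_of_lt (hκ' a (by simp [ha])) (hστ'.1.gt.1 b hb)
  obtain ⟨K, hK⟩ := gp_far B R hR hB hστ.2 hστ'.2 hlt
    (hN.mono B (L' := σ ++ σ') (by
      intro a ha
      simp only [List.mem_append] at ha ⊢
      tauto)) hn.2
  refine NU_mono R (fun k k' hk => ?_) (NU_inter hyper_eventually R K)
  change 1 ≤ ev (F σ σ' n k) (G τ n' k') - ev (F σ σ' n k) (G τ' n' k')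
  have c1 : ‖G σ n k - G τ n' k'‖ ≤ C1 := by
    apply h1
    refine c0_dist_le zero_le_one fun i => ?_
    rw [hp, hp]
    have := gp_close B R hστ.1 (hN.mono B (L' := σ ++ τ) (by
      intro a ha
      simp only [List.mem_append] at ha ⊢
      tauto)) hn.1 hk.1 i
    have g1 : (gp B R σ n k i : ℝ) ≤ gp B R τ n' k' i + 1 := by exact_mod_cast this.1
    have g2 : (gp B R τ n' k' i : ℝ) ≤ gp B R σ n k i + 1 := by exact_mod_cast this.2
    rw [abs_le]
    constructor <;> linarith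
  have c2 : ‖G σ' n k - G τ' n' k'‖ ≤ C1 := by
    apply h1
    refine c0_dist_le zero_le_one fun i => ?_
    rw [hp, hp]
    have := gp_close B R hστ'.1 (hN.mono B (L' := σ' ++ τ') (by
      intro a ha
      simp only [List.mem_append] at ha ⊢
      tauto)) hn.1 hk.1 i
    have g1 : (gp B R σ' n k i : ℝ) ≤ gp B R τ' n' k' i + 1 := by exact_mod_cast this.1
    have g2 : (gp B R τ' n' k' i : ℝ) ≤ gp B R σ' n k i + 1 := by exact_mod_cast this.2
    rw [abs_le]
    constructor <;> linarith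
  have c3 : 2 * C1 + 2 ≤ ‖G σ n k - G σ' n k‖ := by
    apply h2
    refine le_trans ?_ (c0_le_dist _ _ K)
    have := hK k hk.2 hk.1.gt.1
    rw [hp, hp, this.1, this.2]
    simp
  have c4 := hF σ σ' n k
  rw [ev_sub] at c4
  have c5 := (edata U T hT hR').h1 (F σ σ' n k) (G σ n k) (G τ n' k')
  have c6 := (edata U T hT hR').h1 (F σ σ' n k) (G σ' n k) (G τ' n' k')
  change |ev (F σ σ' n k) (G σ n k) - ev (F σ σ' n k) (G τ n' k')| ≤ _ at c5
  change |ev (F σ σ' n k) (G σ' n k) - ev (F σ σ' n k) (G τ' n' k')| ≤ _ at c6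
  have c7 := abs_le.mp (c5.trans c1)
  have c8 := abs_le.mp (c6.trans c2)
  linarith [c7.1, c7.2, c8.1, c8.2]

end Pool.Agent.Helper52.Tj
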