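import Pool.Agent.Helper52.TjR
import Pool.Agent.Helper52.TjEngine

open Filter Topology

namespace Pool.Agent.Helper52.Tj

/-- the norming set: coefficient sequences together with families of disjoint segments -/
structure Phi (U : UN) (T : TreeOrd) where
  w : ℕ → ℝ
  hw : ∀ B d, |∑ a ∈ B, w a * d a| ≤ U.n B d
  s : Fam T

section
variable {U : UN} {T : TreeOrd}

theorem abs_sum_le' {w : ℕ → ℝ} (hw : ∀ B d, |∑ a ∈ B, w a * d a| ≤ U.n B d)
    (B : Finset ℕ) (d : ℕ → ℝ) : ∑ a ∈ B, |w a * d a| ≤ U.n B d := by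
  have h1 : ∀ a, ∃ t : ℝ, |t| = |d a| ∧ w a * t = |w a * d a| := by
    intro a
    rcases abs_cases (w a * d a) with h | h
    · exact ⟨d a, rfl, h.1.symm⟩
    · exact ⟨- d a, abs_neg _, by rw [h.1]; ring⟩
  choose t ht1 ht2 using h1
  calc ∑ a ∈ B, |w a * d a| = ∑ a ∈ B, w a * t a := Finset.sum_congr rfl fun a _ => (ht2 a).symm
    _ ≤ |∑ a ∈ B, w a * t a| := le_abs_self _
    _ ≤ U.n B t := hw B t
    _ ≤ U.n B d := U.n_abs fun a _ => (ht1 a).le

theorem summable_of_hw {w : ℕ → ℝ} (hw : ∀ B d, |∑ a ∈ B, w a * d a| ≤ U.n B d)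
    {c : ℕ → ℝ} {C : ℝ} (hc : ∀ B, U.n B c ≤ C) : Summable (fun a => w a * c a) := by
  have : Summable (fun a => |w a * c a|) :=
    summable_of_sum_le (fun a => abs_nonneg _) (c := C)
      fun B => (abs_sum_le' hw B c).trans (hc B)
  exact this.of_abs

theorem tsum_abs_le {w : ℕ → ℝ} (hw : ∀ B d, |∑ a ∈ B, w a * d a| ≤ U.n B d)
    {c : ℕ → ℝ} {C : ℝ} (hc : ∀ B, U.n B c ≤ C) : |∑' a, w a * c a| ≤ C := by
  have h := (summable_of_hw hw hc).hasSum
  exact le_of_tendsto h.abs (Eventually.of_forall fun B => (hw B c).trans (hc B))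

/-- normalized witnesses far out -/
theorem tail_pick {w : ℕ → ℝ} (hw : ∀ B d, |∑ a ∈ B, w a * d a| ≤ U.n B d) (ε : ℝ)
    (h : ∀ N, ∃ (B : Finset ℕ) (d : ℕ → ℝ), (∀ a ∈ B, N ≤ a) ∧ ε * U.n B d < |∑ a ∈ B, w a * d a|)
    (N : ℕ) : ∃ (B : Finset ℕ) (d : ℕ → ℝ), (∀ a ∈ B, N ≤ a) ∧ U.n B d ≤ 1 ∧
      ε ≤ ∑ a ∈ B, w a * d a := by
  obtain ⟨B, d, h1, h2⟩ := h N
  have hpos : 0 < U.n B d := by
    rcases (U.n_nonneg B d).eq_or_lt with h3 | h3
    · have := hw B d
      rw [← h3] at this h2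
      linarith
    · exact h3
  obtain ⟨t, ht1, ht2⟩ : ∃ t : ℝ, |t| = 1 ∧ t * (∑ a ∈ B, w a * d a) =
      |∑ a ∈ B, w a * d a| := by
    rcases abs_cases (∑ a ∈ B, w a * d a) with h1 | h1
    · exact ⟨1, by simp, by rw [h1.1]; ring⟩
    · exact ⟨-1, by simp, by rw [h1.1]; ring⟩
  refine ⟨B, (t / U.n B d) • d, h1, ?_, ?_⟩
  · rw [U.smul, abs_div, ht1, abs_of_pos hpos]
    field_simp
    exact le_rfl
  · simp only [Pi.smul_apply, smul_eq_mul]
    have e : ∑ a ∈ B, w a * (t / U.n B d * d a) =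
        (t * ∑ a ∈ B, w a * d a) / U.n B d := by
      rw [Finset.mul_sum, Finset.sum_div]
      exact Finset.sum_congr rfl fun a _ => by ring
    rw [e, ht2, le_div_iff₀ hpos]
    exact h2.le

/-- a successive sequence of normalized witnesses, glued together -/
theorem tail_seq {w : ℕ → ℝ} (hw : ∀ B d, |∑ a ∈ B, w a * d a| ≤ U.n B d) (ε : ℝ)
    (h : ∀ N, ∃ (B : Finset ℕ) (d : ℕ → ℝ), (∀ a ∈ B, N ≤ a) ∧ ε * U.n B d < |∑ a ∈ B, w a * d a|)
    (N : ℕ) : ∃ (A : ℕ → Finset ℕ) (c : ℕ → ℝ), (∀ k, ∀ a ∈ A k, N ≤ a) ∧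
      (∀ k l, k < l → ∀ a ∈ A k, ∀ b ∈ A l, a < b) ∧ (∀ k, U.n (A k) c ≤ 1) ∧
      ∀ m : ℕ, m * ε ≤ ∑ a ∈ (Finset.range m).biUnion A, w a * c a := by
  classical
  obtain ⟨f, hf1, hf2⟩ := exists_seq_of_forall_finset_exists (α := Finset ℕ × (ℕ → ℝ))
    (fun o => (∀ a ∈ o.1, N ≤ a) ∧ U.n o.1 o.2 ≤ 1 ∧ ε ≤ ∑ a ∈ o.1, w a * o.2 a)
    (fun o o' => ∀ a ∈ o.1, ∀ b ∈ o'.1, a < b) (by
      intro S _
      obtain ⟨B, d, h1, h2, h3⟩ := tail_pick hw ε h (N + 1 + S.sup fun o => o.1.sup id)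
      refine ⟨(B, d), ⟨fun a ha => ?_, h2, h3⟩, ?_⟩
      · have := h1 a ha
        omega
      · intro o ho a ha b hb
        have h3 : a ≤ o.1.sup id := Finset.le_sup (f := id) ha
        have h4 : o.1.sup id ≤ S.sup fun o => o.1.sup id :=
          Finset.le_sup (f := fun o : Finset ℕ × (ℕ → ℝ) => o.1.sup id) ho
        have h5 := h1 b hb
        omega)
  let kk : ℕ → ℕ := fun a => if h : ∃ k, a ∈ (f k).1 then h.choose else 0
  have hkk : ∀ k, ∀ a ∈ (f k).1, kk a = k := by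
    intro k a ha
    have hex : ∃ k, a ∈ (f k).1 := ⟨k, ha⟩
    have h1 : a ∈ (f (kk a)).1 := by
      simp only [kk, dif_pos hex]
      exact hex.choose_spec
    by_contra hne
    rcases lt_or_gt_of_ne hne with h2 | h2
    · exact lt_irrefl _ (hf2 _ _ h2 a h1 a ha)
    · exact lt_irrefl _ (hf2 _ _ h2 a ha a h1)
  refine ⟨fun k => (f k).1, fun a => (f (kk a)).2 a, fun k => (hf1 k).1,
    fun k l hkl => hf2 k l hkl, fun k => ?_, fun m => ?_⟩
  · rw [U.n_congr (d := (f k).2) (fun a ha => by rw [hkk k a ha])]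
    exact (hf1 k).2.1
  · have h2 : ∑ a ∈ (Finset.range m).biUnion (fun k => (f k).1), w a * (f (kk a)).2 a =
        ∑ j ∈ Finset.range m, ∑ a ∈ (f j).1, w a * (f j).2 a := by
      rw [Finset.sum_biUnion]
      · refine Finset.sum_congr rfl fun j _ => Finset.sum_congr rfl fun a ha => ?_
        rw [hkk j a ha]
      · intro i _ j _ hij
        rw [Function.onFun, Finset.disjoint_left]
        intro a ha hb
        exact hij ((hkk i a ha).symm.trans (hkk j a hb))
    rw [h2]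
    have h4 := Finset.card_nsmul_le_sum (Finset.range m)
      (fun j => ∑ a ∈ (f j).1, w a * (f j).2 a) ε (fun j _ => (hf1 j).2.2)
    rw [Finset.card_range, nsmul_eq_mul] at h4
    exact h4

/-- tails of norm one functionals are small, asymptotically `c_0` case -/
theorem tail_of_ac (H : AC U) : TailProp U := by
  intro w hw ε hε
  by_contra hcon
  push Not at hcon
  obtain ⟨m, hm⟩ := exists_nat_gt (H.C0 / ε)
  obtain ⟨A, c, h1, h2, h3, h4⟩ := tail_seq hw ε hcon (H.g m)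
  have h5 := H.ac m A c 1 zero_le_one (fun j _ => h1 j) (fun i j hij _ => h2 i j hij)
    (fun j _ => h3 j)
  have h6 := (le_abs_self _).trans (hw ((Finset.range m).biUnion A) c)
  have h7 := h4 m
  rw [div_lt_iff₀ hε] at hm
  linarith

/-- tails of norm one functionals are small, case of no disjoint `ℓ_1^m` -/
theorem tail_of_nl (H : NL U) : TailProp U := by
  intro w hw ε hε
  by_contra hcon
  push Not at hcon
  have hmpos : (0 : ℝ) < H.m := by exact_mod_cast H.mpos
  have hθ0 : 0 ≤ H.θ := by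
    have h1 := H.nl (fun _ => ∅) 0 (by simp) (by simp) (by simp [U.n_empty])
    have h2 := (U.n_nonneg _ _).trans h1
    by_contra h3
    push Not at h3
    nlinarith
  have hθ1 := H.θ_lt
  have hlam : 1 < 2 / (1 + H.θ) := by
    rw [lt_div_iff₀ (by positivity)]
    linarith
  have hk : ∀ k : ℕ, ∀ N, ∃ (B : Finset ℕ) (d : ℕ → ℝ), (∀ a ∈ B, N ≤ a) ∧
      (2 / (1 + H.θ)) ^ k * ε * U.n B d < |∑ a ∈ B, w a * d a| := by
    intro k
    induction k with
    | zero => intro N; simpa using hcon N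
    | succ k ih =>
      intro N
      obtain ⟨A, c, h1, h2, h3, h4⟩ := tail_seq hw _ ih (max N H.g)
      refine ⟨(Finset.range H.m).biUnion A, c, fun a ha => ?_, ?_⟩
      · obtain ⟨j, _, hj⟩ := Finset.mem_biUnion.mp ha
        exact (le_max_left _ _).trans (h1 j a hj)
      · have h5 := H.nl A c (fun j _ x hx => (le_max_right _ _).trans (h1 j x hx))
          (fun i j hij _ => by
            rw [Finset.disjoint_left]
            intro a ha ha'
            exact lt_irrefl _ (h2 i j hij a ha a ha')) (fun j _ => h3 j)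
        refine lt_of_lt_of_le ?_ ((h4 H.m).trans (le_abs_self _))
        set δ : ℝ := (2 / (1 + H.θ)) ^ k * ε with hδ
        have hδ0 : 0 < δ := by positivity
        calc (2 / (1 + H.θ)) ^ (k + 1) * ε * U.n ((Finset.range H.m).biUnion A) c
            = 2 / (1 + H.θ) * δ * U.n ((Finset.range H.m).biUnion A) c := by rw [hδ]; ring
          _ ≤ 2 / (1 + H.θ) * δ * (H.θ * H.m) :=
              mul_le_mul_of_nonneg_left h5 (by positivity)
          _ = (2 * H.θ / (1 + H.θ)) * (H.m * δ) := by field_simp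
          _ < 1 * (H.m * δ) := by
              refine mul_lt_mul_of_pos_right ?_ (by positivity)
              rw [div_lt_one (by positivity)]
              linarith
          _ = H.m * δ := one_mul _
  obtain ⟨k, hk1⟩ := pow_unbounded_of_one_lt (1 / ε) hlam
  obtain ⟨B, d, -, h2⟩ := hk k 0
  rw [div_lt_iff₀ hε] at hk1
  have h3 := hw B d
  have h4 : 1 * U.n B d ≤ (2 / (1 + H.θ)) ^ k * ε * U.n B d :=
    mul_le_mul_of_nonneg_right hk1.le (U.n_nonneg _ _)
  linarith

/-- tail estimate for the full sums -/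
theorem tsum_tail (hT : TailProp U) {w : ℕ → ℝ} (hw : ∀ B d, |∑ a ∈ B, w a * d a| ≤ U.n B d) (ε : ℝ)
    (hε : 0 < ε) : ∃ N, ∀ (c : ℕ → ℝ) (C : ℝ), (∀ B, U.n B c ≤ C) →
      |∑' a, w a * c a - ∑ a ∈ Finset.range N, w a * c a| ≤ ε * C := by
  obtain ⟨N, hN⟩ := hT w hw ε hε
  refine ⟨N, fun c C hC => ?_⟩
  have h := (summable_of_hw hw hC).hasSum.tendsto_sum_nat
  have h1 := (h.sub_const (∑ a ∈ Finset.range N, w a * c a)).abs
  refine le_of_tendsto h1 ?_
  filter_upwards [eventually_ge_atTop N] with M hM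
  have e : ∑ a ∈ Finset.range M, w a * c a - ∑ a ∈ Finset.range N, w a * c a =
      ∑ a ∈ Finset.Ico N M, w a * c a := (Finset.sum_Ico_eq_sub _ hM).symm
  rw [e]
  refine (hN _ c fun a ha => (Finset.mem_Ico.mp ha).1).trans ?_
  exact mul_le_mul_of_nonneg_left (hC _) hε.le

theorem val_bd (x : XS U T) (s : Fam T) (B : Finset ℕ) :
    U.n B (fun a => val (s.1 a) x.1) ≤ ‖x‖ :=
  VB_all x B s.1 (fun a _ => ⟨s.2.1 a, trivial⟩) (fun a _ b _ => s.2.2 a b)

open Classical in
/-- values of a function on branches along a family -/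
noncomputable def qv (s : Fam T) (q : Set ℕ → ℝ) (a : ℕ) : ℝ :=
  if (s.1 a).Infinite then q (tgt T (s.1 a)) else 0

theorem qv_bd (q : QS U T) (s : Fam T) (B : Finset ℕ) :
    U.n B (qv s q.1) ≤ ‖q‖ := by
  classical
  refine le_trans ?_ (VBQ q (B.filter (fun a => (s.1 a).Infinite)) s.1
    (fun a ha => ⟨s.2.1 a, (Finset.mem_filter.mp ha).2⟩) (fun a _ b _ => s.2.2 a b))
  refine U.mono _ _ _ _ fun a ha => ?_
  by_cases h : (s.1 a).Infinite
  · exact Or.inr ⟨Finset.mem_filter.mpr ⟨ha, h⟩, by simp [qv, h]⟩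
  · exact Or.inl (by simp [qv, h])

/-- evaluation of a norming functional -/
noncomputable def ev (ν : Phi U T) (x : XS U T) : ℝ := ∑' a, ν.w a * val (ν.s.1 a) x.1

theorem ev_sub (ν : Phi U T) (x y : XS U T) : ev ν (x - y) = ev ν x - ev ν y := by
  unfold ev
  rw [← (summable_of_hw ν.hw (val_bd x ν.s)).tsum_sub (summable_of_hw ν.hw (val_bd y ν.s))]
  refine tsum_congr fun a => ?_
  rw [val_sub x y (ν.s.2.1 a)]
  ring

theorem ev_le (ν : Phi U T) (x : XS U T) : |ev ν x| ≤ ‖x‖ := tsum_abs_le ν.hw (val_bd x ν.s)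

/-- action on functions on branches -/
noncomputable def hatPsi (ν : Phi U T) : Psi U T :=
  ⟨{ toFun := fun q => ∑' a, ν.w a * qv ν.s q.1 a
     map_add' := by
      intro q r
      rw [← (summable_of_hw ν.hw (qv_bd q ν.s)).tsum_add (summable_of_hw ν.hw (qv_bd r ν.s))]
      refine tsum_congr fun a => ?_
      rw [SupSp.coe_add]
      by_cases h : (ν.s.1 a).Infinite
      · simp only [qv, h, if_true, Pi.add_apply]; ring
      · simp [qv, h]
     map_smul' := by
      intro t q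
      rw [smul_eq_mul, ← tsum_mul_left]
      refine tsum_congr fun a => ?_
      rw [SupSp.coe_smul]
      by_cases h : (ν.s.1 a).Infinite
      · simp only [qv, h, if_true, Pi.smul_apply, smul_eq_mul, RingHom.id_apply]; ring
      · simp [qv, h] },
   fun q => tsum_abs_le ν.hw (qv_bd q ν.s)⟩

theorem hatPsi_apply (ν : Phi U T) (q : QS U T) :
    (hatPsi ν).1 q = ∑' a, ν.w a * qv ν.s q.1 a := rfl

theorem sing_seg (γ : ℕ) : IsSeg T γ {γ} where
  ge δ h := by
    rw [Set.mem_singleton_iff] at h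
    subst h
    exact T.refl _
  conv δ h β h1 h2 := by
    rw [Set.mem_singleton_iff] at h
    subst h
    rw [Set.mem_singleton_iff]
    exact le_antisymm (T.le_nat _ _ h2) (T.le_nat _ _ h1)
  chain δ h δ' h' := by
    rw [Set.mem_singleton_iff] at h h'
    subst h; subst h'
    exact Or.inl (T.refl _)

theorem coord_le (x : XS U T) (γ : ℕ) : |x.1 γ| ≤ ‖x‖ := by
  have h1 := seg_le x (sing_seg (T := T) γ) (γ + 1)
  have h2 : sm {γ} (γ + 1) x.1 = x.1 γ := by
    unfold sm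
    rw [Finset.sum_eq_single γ]
    · simp
    · intro b _ hb
      simp [hb]
    · intro h
      exact (h (Finset.mem_range.mpr (Nat.lt_succ_self γ))).elim
  rwa [h2] at h1

theorem sm_limit {I : Type*} {V : Filter I} {v : I → ℕ → ℝ} {v0 : ℕ → ℝ}
    (h : ∀ γ, Tendsto (fun i => v i γ) V (𝓝 (v0 γ))) (S : Set ℕ) (N : ℕ) :
    Tendsto (fun i => sm S N (v i)) V (𝓝 (sm S N v0)) := by
  unfold sm
  refine tendsto_finsetSum _ fun γ _ => ?_
  by_cases hγ : γ ∈ S
  · simpa [hγ] using h γ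
  · simpa [hγ] using tendsto_const_nhds

theorem tgt_diff {a : ℕ} {S : Set ℕ} (h : IsSeg T a S) (hS : S.Infinite) :
    tgt T S \ S ⊆ Set.Iio a := by
  rintro γ ⟨⟨δ, h1, h2⟩, h3⟩
  rcases T.lin γ a δ h2 (h.ge δ h1) with h4 | h4
  · have h5 := T.le_nat _ _ h4
    have h6 : γ ≠ a := by
      intro h6
      subst h6
      exact h3 (h.start_mem hS.nonempty)
    exact lt_of_le_of_ne h5 h6
  · exact (h3 (h.conv δ h1 γ h4 h2)).elim

theorem IsBr.seg {b : Set ℕ} (hb : IsBr T b) : ∃ a, IsSeg T a b := by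
  classical
  have hex : ∃ a, a ∈ b := hb.inf.nonempty
  refine ⟨Nat.find hex, ⟨?_, ?_, hb.chain⟩⟩
  · intro γ hγ
    rcases (Nat.find_min' hex hγ).eq_or_lt with h | h
    · rw [h]; exact T.refl _
    · exact hb.le_of_lt (Nat.find_spec hex) hγ h
  · intro γ hγ β _ h2
    exact hb.lower γ hγ β h2

theorem val_tgt (x : XS U T) {a : ℕ} {S : Set ℕ} (h : IsSeg T a S) (hS : S.Infinite) :
    val (tgt T S) x.1 = sm (tgt T S \ S) a x.1 + val S x.1 := by
  obtain ⟨a', ha'⟩ := (tgt_isBr h hS).seg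
  refine tendsto_nhds_unique (tendsto_val x ha') ?_
  have h1 := (tendsto_val x h).const_add (sm (tgt T S \ S) a x.1)
  refine h1.congr' ?_
  filter_upwards [eventually_ge_atTop a] with N hN
  rw [← sm_of_subset (tgt_diff h hS) hN]
  unfold sm
  rw [← Finset.sum_add_distrib]
  refine Finset.sum_congr rfl fun γ _ => ?_
  by_cases h2 : γ ∈ S
  · simp [h2, subset_tgt (T := T) S h2]
  · by_cases h3 : γ ∈ tgt T S <;> simp [h2, h3]

/-- (Q3): limits of bounded sequences -/
theorem phi_h3 (hT : TailProp U) (v : ℕ → XS U T) (C : ℝ) (hC : ∀ l, ‖v l‖ ≤ C) (V : Ultrafilter ℕ) :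
    ∃ (x : XS U T) (q : QS U T), ‖x‖ ≤ C ∧ ‖q‖ ≤ 2 * C ∧
      ∀ ν : Phi U T, Tendsto (fun l => ev ν (v l)) V (𝓝 (ev ν x + (hatPsi ν).1 q)) := by
  have hC0 : 0 ≤ C := (norm_nonneg _).trans (hC 0)
  have h1 : ∀ γ, ∃ L, Tendsto (fun l => (v l).1 γ) V (𝓝 L) := by
    intro γ
    obtain ⟨L, -, hL⟩ := exists_ultra_lim V (fun l => (v l).1 γ) C
      (fun l => (coord_le (v l) γ).trans (hC l))
    exact ⟨L, hL⟩
  choose v0 hv0 using h1
  have hbd : ∀ (s : Fam T) N, U.n (Finset.range N) (fun a => sm (s.1 a) N v0) ≤ C := by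
    intro s N
    refine U.n_limit (V : Filter ℕ) _ (fun l a => sm (s.1 a) N (v l).1) _
      (fun a _ => sm_limit hv0 _ N) C (Eventually.of_forall fun l => ?_)
    exact (SupSp.le_norm (pX U T) (v l) (s, N)).trans (hC l)
  let x : XS U T := ⟨v0, mem_of_bound hbd⟩
  have hx : ‖x‖ ≤ C := SupSp.norm_le _ hC0 fun j => by rw [pX_apply]; exact hbd j.1 j.2
  let y : ℕ → XS U T := fun l => v l - x
  have hy : ∀ l, ‖y l‖ ≤ 2 * C := fun l => (norm_sub_le _ _).trans (by have := hC l; linarith)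
  have hy0 : ∀ γ, Tendsto (fun l => (y l).1 γ) V (𝓝 ((0 : ℕ → ℝ) γ)) := by
    intro γ
    have := (hv0 γ).sub_const (v0 γ)
    rw [sub_self] at this
    exact this
  have h2 : ∀ b : Set ℕ, ∃ L, IsBr T b → Tendsto (fun l => val b (y l).1) V (𝓝 L) := by
    intro b
    by_cases hb : IsBr T b
    · obtain ⟨a, ha⟩ := hb.seg
      obtain ⟨L, -, hL⟩ := exists_ultra_lim V (fun l => val b (y l).1) (2 * C)
        (fun l => (val_le (y l) ha).trans (hy l))
      exact ⟨L, fun _ => hL⟩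
    · exact ⟨0, fun h => (hb h).elim⟩
  choose L hL using h2
  have h3 : ∀ a S, IsSeg T a S → S.Infinite →
      Tendsto (fun l => val S (y l).1) V (𝓝 (L (tgt T S))) := by
    intro a S h hS
    have h4 := (hL _ (tgt_isBr h hS)).sub (sm_limit hy0 (tgt T S \ S) a)
    have h5 : sm (tgt T S \ S) a (0 : ℕ → ℝ) = 0 := by
      have := sm_smul (tgt T S \ S) a 0 0
      simpa using this
    rw [h5, sub_zero] at h4
    refine h4.congr fun l => ?_
    rw [val_tgt (y l) h hS]
    ring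
  have hqbd : ∀ j : IF T, U.n j.A (fun a => L (tgt T (j.s a))) ≤ 2 * C := by
    intro j
    refine U.n_limit (V : Filter ℕ) j.A (fun l a => val (j.s a) (y l).1) _
      (fun a ha => h3 a _ (j.seg a ha).1 (j.seg a ha).2) _ (Eventually.of_forall fun l => ?_)
    exact (VB_all (y l) j.A j.s (fun a ha => ⟨(j.seg a ha).1, trivial⟩) j.disj).trans (hy l)
  let q : QS U T := ⟨L, 2 * C, fun j => hqbd j⟩
  have hq : ‖q‖ ≤ 2 * C := SupSp.norm_le _ (by linarith) hqbd
  refine ⟨x, q, hx, hq, fun ν => ?_⟩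
  have h4 : Tendsto (fun l => ev ν (y l)) V (𝓝 ((hatPsi ν).1 q)) := by
    rw [Metric.tendsto_nhds]
    intro ε hε
    obtain ⟨N, hN⟩ := tsum_tail hT ν.hw (ε / (8 * (C + 1))) (by positivity)
    have h5 : Tendsto (fun l => ∑ a ∈ Finset.range N, ν.w a * val (ν.s.1 a) (y l).1) V
        (𝓝 (∑ a ∈ Finset.range N, ν.w a * qv ν.s q.1 a)) := by
      refine tendsto_finsetSum _ fun a _ => Tendsto.const_mul _ ?_
      by_cases h : (ν.s.1 a).Infinite
      · simp only [qv, h, if_true]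
        exact h3 a _ (ν.s.2.1 a) h
      · simp only [qv, h, if_false]
        rw [Set.not_infinite] at h
        obtain ⟨m, hm⟩ := h.bddAbove
        have h6 : ν.s.1 a ⊆ Set.Iio (m + 1) := fun γ hγ => Nat.lt_succ_of_le (hm hγ)
        have h7 := sm_limit hy0 (ν.s.1 a) (m + 1)
        have h8 : sm (ν.s.1 a) (m + 1) (0 : ℕ → ℝ) = 0 := by
          have := sm_smul (ν.s.1 a) (m + 1) 0 0
          simpa using this
        rw [h8] at h7
        exact h7.congr fun l => (val_of_subset h6 _).symm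
    have h6 := (Metric.tendsto_nhds.mp h5) (ε / 4) (by linarith)
    filter_upwards [h6] with l hl
    rw [Real.dist_eq] at hl ⊢
    have h7 := hN _ _ (val_bd (y l) ν.s)
    have h8 := hN _ _ (qv_bd q ν.s)
    have h9 : ε / (8 * (C + 1)) * ‖y l‖ ≤ ε / 4 := by
      calc ε / (8 * (C + 1)) * ‖y l‖ ≤ ε / (8 * (C + 1)) * (2 * C) :=
            mul_le_mul_of_nonneg_left (hy l) (by positivity)
        _ ≤ ε / 4 := by
          rw [div_mul_eq_mul_div, div_le_div_iff₀ (by positivity) (by norm_num)]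
          nlinarith
    have h10 : ε / (8 * (C + 1)) * ‖q‖ ≤ ε / 4 := by
      calc ε / (8 * (C + 1)) * ‖q‖ ≤ ε / (8 * (C + 1)) * (2 * C) :=
            mul_le_mul_of_nonneg_left hq (by positivity)
        _ ≤ ε / 4 := by
          rw [div_mul_eq_mul_div, div_le_div_iff₀ (by positivity) (by norm_num)]
          nlinarith
    have h11 := abs_le.mp (h7.trans h9)
    have h12 := abs_le.mp (h8.trans h10)
    have h13 := abs_lt.mp hl
    rw [hatPsi_apply]
    unfold ev
    rw [abs_lt]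
    constructor <;> linarith [h11.1, h11.2, h12.1, h12.2, h13.1, h13.2]
  have h5 := h4.const_add (ev ν x)
  refine h5.congr fun l => ?_
  rw [show y l = v l - x from rfl, ev_sub]
  ring

theorem val_PX (x : XS U T) {a : ℕ} {S : Set ℕ} (h : IsSeg T a S) (n : ℕ) :
    val S (PX n x).1 = sm S n x.1 := by
  refine tendsto_nhds_unique (tendsto_val (PX n x) h) ?_
  refine Tendsto.congr' ?_ tendsto_const_nhds
  filter_upwards [eventually_ge_atTop n] with N hN
  rw [PX_coe, sm_P, min_eq_left hN]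

theorem ev_PX (ν : Phi U T) (x : XS U T) (n : ℕ) :
    ev ν (PX n x) = ∑ a ∈ Finset.range n, ν.w a * sm (ν.s.1 a) n x.1 := by
  unfold ev
  rw [tsum_eq_sum (s := Finset.range n)]
  · exact Finset.sum_congr rfl fun a _ => by rw [val_PX x (ν.s.2.1 a)]
  · intro a ha
    rw [val_PX x (ν.s.2.1 a), sm_start (ν.s.2.1 a) (by simpa using ha), mul_zero]

/-- (Q4): compactness of the norming set -/
theorem phi_h4 (I : Type) (V : Ultrafilter I) (ν : I → Phi U T) :
    ∃ ν' : Phi U T, ∀ x : XS U T, Tendsto (fun i => ev (ν i) x) V (𝓝 (ev ν' x)) := by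
  have h1 : ∀ a, ∃ L, Tendsto (fun i => (ν i).w a) V (𝓝 L) := by
    intro a
    obtain ⟨L, -, hL⟩ := exists_ultra_lim V (fun i => (ν i).w a) 1 (fun i => by
      have := (ν i).hw {a} (fun _ => 1)
      rw [U.single] at this
      simpa using this)
    exact ⟨L, hL⟩
  choose w hw using h1
  let s : ℕ → Set ℕ := fun a => {γ | ∀ᶠ i in (V : Filter I), γ ∈ (ν i).s.1 a}
  have hs : (∀ a, IsSeg T a (s a)) ∧ ∀ a b, a ≠ b → Disjoint (s a) (s b) := by
    refine ⟨fun a => ⟨?_, ?_, ?_⟩, ?_⟩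
    · intro γ hγ
      obtain ⟨i, hi⟩ := Eventually.exists (f := (V : Filter I)) hγ
      exact ((ν i).s.2.1 a).ge γ hi
    · intro γ hγ β h2 h3
      have hγ' : ∀ᶠ i in (V : Filter I), γ ∈ (ν i).s.1 a := hγ
      change ∀ᶠ i in (V : Filter I), β ∈ (ν i).s.1 a
      filter_upwards [hγ'] with i hi
      exact ((ν i).s.2.1 a).conv γ hi β h2 h3
    · intro γ hγ γ' hγ'
      obtain ⟨i, hi, hi'⟩ := Eventually.exists (f := (V : Filter I)) (Eventually.and hγ hγ')
      exact ((ν i).s.2.1 a).chain γ hi γ' hi'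
    · intro a b hab
      rw [Set.disjoint_left]
      intro γ hγ hγ'
      obtain ⟨i, hi, hi'⟩ := Eventually.exists (f := (V : Filter I)) (Eventually.and hγ hγ')
      exact Set.disjoint_left.mp ((ν i).s.2.2 a b hab) hi hi'
  let ν' : Phi U T := ⟨w, fun B d => by
    have h2 : Tendsto (fun i => |∑ a ∈ B, (ν i).w a * d a|) V (𝓝 |∑ a ∈ B, w a * d a|) :=
      (tendsto_finsetSum _ fun a _ => (hw a).mul_const _).abs
    exact le_of_tendsto h2 (Eventually.of_forall fun i => (ν i).hw B d), ⟨s, hs⟩⟩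
  refine ⟨ν', fun x => ?_⟩
  rw [Metric.tendsto_nhds]
  intro ε hε
  obtain ⟨n, hn⟩ := dense_PX x (ε / 4) (by linarith)
  have hn' := hn n le_rfl
  have h2 : Tendsto (fun i => ev (ν i) (PX n x)) V (𝓝 (ev ν' (PX n x))) := by
    simp only [ev_PX]
    refine tendsto_finsetSum _ fun a _ => (hw a).mul ?_
    unfold sm
    refine tendsto_finsetSum _ fun γ _ => ?_
    refine Tendsto.congr' ?_ tendsto_const_nhds
    by_cases hγ : γ ∈ s a
    · have hγ' : ∀ᶠ i in (V : Filter I), γ ∈ (ν i).s.1 a := hγ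
      filter_upwards [hγ'] with i hi
      change (s a).indicator x.1 γ = _
      simp [hγ, hi]
    · have hγ' : ∀ᶠ i in (V : Filter I), γ ∉ (ν i).s.1 a := Ultrafilter.eventually_not.mpr hγ
      filter_upwards [hγ'] with i hi
      change (s a).indicator x.1 γ = _
      simp [hγ, hi]
  filter_upwards [(Metric.tendsto_nhds.mp h2) (ε / 4) (by linarith)] with i hi
  rw [Real.dist_eq] at hi ⊢
  have h3 := ev_le (ν i) (x - PX n x)
  have h4 := ev_le ν' (x - PX n x)
  rw [ev_sub] at h3 h4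
  have h5 := abs_le.mp (h3.trans hn')
  have h6 := abs_le.mp (h4.trans hn')
  have h7 := abs_lt.mp hi
  rw [abs_lt]
  constructor <;> linarith [h5.1, h5.2, h6.1, h6.2, h7.1, h7.2]

/-- the set is norming -/
theorem phi_h2 (x : XS U T) (ε : ℝ) (hε : 0 < ε) : ∃ ν : Phi U T, ‖x‖ - ε ≤ ev ν x := by
  classical
  by_cases h0 : 0 ≤ ‖x‖ - ε / 2
  · obtain ⟨⟨s, N⟩, hsN⟩ := SupSp.lt_norm (pX U T) h0 (show ‖x‖ - ε / 2 < ‖x‖ by linarith)
    rw [pX_apply] at hsN
    obtain ⟨w, hw1, hw2⟩ := U.norming (Finset.range N) (fun a => sm (s.1 a) N x.1) (ε / 2)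
      (by linarith)
    refine ⟨⟨fun a => if a < N then w a else 0, ?_, ⟨fun a => s.1 a ∩ Set.Iio N, ?_, ?_⟩⟩, ?_⟩
    · intro B d
      have e : ∑ a ∈ B, (if a < N then w a else 0) * d a =
          ∑ a ∈ B.filter (fun a => a < N), w a * d a := by
        rw [Finset.sum_filter]
        exact Finset.sum_congr rfl fun a _ => by split_ifs <;> simp
      rw [e]
      exact (hw1 _ d).trans (U.n_sub (Finset.filter_subset _ _) d)
    · exact fun a => (s.2.1 a).trunc N
    · exact fun a b hab => (s.2.2 a b hab).mono Set.inter_subset_left Set.inter_subset_left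
    · unfold ev
      rw [tsum_eq_sum (s := Finset.range N)]
      · have e : ∑ a ∈ Finset.range N, (if a < N then w a else 0) *
            val (s.1 a ∩ Set.Iio N) x.1 = ∑ a ∈ Finset.range N, w a * sm (s.1 a) N x.1 := by
          refine Finset.sum_congr rfl fun a ha => ?_
          rw [if_pos (Finset.mem_range.mp ha), val_of_subset (n := N) Set.inter_subset_right,
            sm_trunc le_rfl]
        rw [e]
        simp only at hsN
        linarith
      · intro a ha
        have ha' : ¬ a < N := by simpa using ha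
        simp only [ha', if_false, zero_mul]
  · refine ⟨⟨fun _ => 0, fun B d => by simpa using U.n_nonneg B d,
      ⟨fun _ => ∅, fun a => IsSeg.empty T a, fun a b _ => by simp⟩⟩, ?_⟩
    unfold ev
    simp only [zero_mul, tsum_zero]
    push Not at h0
    linarith

/-- the concrete data for the engine -/
noncomputable def edata (U : UN) (T : TreeOrd) (hT : TailProp U) (hR : ReflProp U T) : EData (XS U T) (Phi U T) (QS U T) (Psi U T) where
  e := ev
  bQ := fun q => ‖q‖
  d := fun ψ q => ψ.1 q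
  hat := hatPsi
  h1 := fun ν x y => by rw [← ev_sub]; exact ev_le ν _
  h3 := phi_h3 hT
  h4 := phi_h4
  h5 := by
    intro I V ψ
    have h1 : ∀ q, ∃ L, |L| ≤ ‖q‖ ∧ Tendsto (fun i => (ψ i).1 q) V (𝓝 L) := fun q =>
      exists_ultra_lim V (fun i => (ψ i).1 q) ‖q‖ (fun i => (ψ i).2 q)
    choose L hL1 hL2 using h1
    refine ⟨⟨{ toFun := L, map_add' := ?_, map_smul' := ?_ }, hL1⟩, hL2⟩
    · intro q r
      refine tendsto_nhds_unique (hL2 (q + r)) ?_
      exact ((hL2 q).add (hL2 r)).congr fun i => by rw [map_add]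
    · intro t q
      refine tendsto_nhds_unique (hL2 (t • q)) ?_
      exact ((hL2 q).const_mul t).congr fun i => by rw [map_smul, smul_eq_mul]
  h6 := Q_weak hR

end

end Pool.Agent.Helper52.Tj
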