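import Pool.Agent.Helper52.TjX

open Filter Topology

namespace Pool.Agent.Helper52.Tj

/-- infinite branches: infinite downward closed chains -/
structure IsBr (T : TreeOrd) (b : Set ℕ) : Prop where
  lower : ∀ γ ∈ b, ∀ β, T.le β γ → β ∈ b
  chain : ∀ γ ∈ b, ∀ γ' ∈ b, T.le γ γ' ∨ T.le γ' γ
  inf : b.Infinite

/-- the branch along which an infinite segment runs -/
def tgt (T : TreeOrd) (S : Set ℕ) : Set ℕ := {β | ∃ γ ∈ S, T.le β γ}

/-- finite families of pairwise disjoint infinite segments -/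
structure IF (T : TreeOrd) where
  A : Finset ℕ
  s : ℕ → Set ℕ
  seg : ∀ a ∈ A, IsSeg T a (s a) ∧ (s a).Infinite
  disj : ∀ a ∈ A, ∀ b ∈ A, a ≠ b → Disjoint (s a) (s b)

section basic
variable {T : TreeOrd}

theorem subset_tgt (S : Set ℕ) : S ⊆ tgt T S := fun γ h => ⟨γ, h, T.refl γ⟩

theorem tgt_isBr {a : ℕ} {S : Set ℕ} (h : IsSeg T a S) (hS : S.Infinite) : IsBr T (tgt T S) where
  lower γ hγ β hβ := by
    obtain ⟨δ, h1, h2⟩ := hγ
    exact ⟨δ, h1, T.trans _ _ _ hβ h2⟩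
  chain γ hγ γ' hγ' := by
    obtain ⟨δ, h1, h2⟩ := hγ
    obtain ⟨δ', h1', h2'⟩ := hγ'
    rcases h.chain δ h1 δ' h1' with h3 | h3
    · exact T.lin γ γ' δ' (T.trans _ _ _ h2 h3) h2'
    · exact T.lin γ γ' δ h2 (T.trans _ _ _ h2' h3)
  inf := hS.mono (subset_tgt S)

theorem exists_gt_of_inf {S : Set ℕ} (hS : S.Infinite) (n : ℕ) : ∃ γ ∈ S, n < γ := by
  obtain ⟨γ, h1, h2⟩ := hS.exists_gt n
  exact ⟨γ, h1, h2⟩

/-- a chain containing infinitely many elements of a lower chain contains nothing else below -/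
theorem IsBr.le_of_lt {b : Set ℕ} (hb : IsBr T b) {β γ : ℕ} (h1 : β ∈ b) (h2 : γ ∈ b)
    (h : β < γ) : T.le β γ := by
  rcases hb.chain β h1 γ h2 with h3 | h3
  · exact h3
  · have := T.le_nat _ _ h3
    omega

theorem IsBr.subset_of_inter {b c : Set ℕ} (hb : IsBr T b) (hc : IsBr T c)
    (h : (b ∩ c).Infinite) : b ⊆ c := by
  intro β hβ
  obtain ⟨γ, hγ, hlt⟩ := exists_gt_of_inf h β
  exact hc.lower γ hγ.2 β (hb.le_of_lt hβ hγ.1 hlt)

theorem IsBr.eq_of_inter {b c : Set ℕ} (hb : IsBr T b) (hc : IsBr T c)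
    (h : (b ∩ c).Infinite) : b = c :=
  Set.Subset.antisymm (hb.subset_of_inter hc h)
    (hc.subset_of_inter hb (by rwa [Set.inter_comm] at h))

theorem IsBr.inter_finite {b c : Set ℕ} (hb : IsBr T b) (hc : IsBr T c) (h : b ≠ c) :
    (b ∩ c).Finite := by
  by_contra h1
  exact h (hb.eq_of_inter hc h1)

/-- the infinite segment of the branch `b` from `a` on -/
def up (T : TreeOrd) (a : ℕ) (b : Set ℕ) : Set ℕ := {γ ∈ b | T.le a γ}

theorem up_seg {b : Set ℕ} (hb : IsBr T b) (a : ℕ) : IsSeg T a (up T a b) where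
  ge γ h := h.2
  conv γ hγ β h1 h2 := ⟨hb.lower γ hγ.1 β h2, h1⟩
  chain γ hγ γ' hγ' := hb.chain γ hγ.1 γ' hγ'.1

theorem up_inf {b : Set ℕ} (hb : IsBr T b) {a : ℕ} (ha : a ∈ b) : (up T a b).Infinite := by
  have h1 : b ⊆ up T a b ∪ Set.Iic a := by
    intro γ hγ
    by_cases h : γ ≤ a
    · exact Or.inr h
    · exact Or.inl ⟨hγ, hb.le_of_lt ha hγ (not_le.mp h)⟩
  intro hfin
  exact hb.inf ((hfin.union (Set.finite_Iic a)).subset h1)

theorem up_tgt {b : Set ℕ} (hb : IsBr T b) {a : ℕ} (ha : a ∈ b) : tgt T (up T a b) = b := by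
  refine (tgt_isBr (up_seg hb a) (up_inf hb ha)).eq_of_inter hb ?_
  refine (up_inf hb ha).mono fun γ hγ => ⟨subset_tgt _ hγ, hγ.1⟩

theorem tgt_ne {a a' : ℕ} {S S' : Set ℕ} (h : IsSeg T a S) (h' : IsSeg T a' S') (hS : S.Infinite)
    (hS' : S'.Infinite) (hd : Disjoint S S') : tgt T S ≠ tgt T S' := by
  intro he
  have hb := tgt_isBr h hS
  have ha : a ∈ tgt T S := subset_tgt _ (h.start_mem hS.nonempty)
  have ha' : a' ∈ tgt T S := by rw [he]; exact subset_tgt _ (h'.start_mem hS'.nonempty)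
  obtain ⟨γ, hγ, hlt⟩ := exists_gt_of_inf hb.inf (max a a')
  have h1 : T.le a γ := hb.le_of_lt ha hγ (lt_of_le_of_lt (le_max_left _ _) hlt)
  have h2 : T.le a' γ := hb.le_of_lt ha' hγ (lt_of_le_of_lt (le_max_right _ _) hlt)
  have h3 : γ ∈ S := by
    obtain ⟨δ, h4, h5⟩ := hγ
    exact h.conv δ h4 γ h1 h5
  have h4 : γ ∈ S' := by
    rw [he] at hγ
    obtain ⟨δ, h4, h5⟩ := hγ
    exact h'.conv δ h4 γ h2 h5
  exact Set.disjoint_left.mp hd h3 h4

end basic

/-- the seminorms defining the space of functions on branches -/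
noncomputable def pQ (U : UN) (T : TreeOrd) (j : IF T) : Seminorm ℝ (Set ℕ → ℝ) :=
  Seminorm.of (fun q => U.n j.A (fun a => q (tgt T (j.s a))))
    (by
      intro x y
      simp only [Pi.add_apply]
      exact U.n_add _ _ _)
    (by
      intro t x
      exact U.smul _ t (fun a => x (tgt T (j.s a))))

theorem pQ_apply (U : UN) (T : TreeOrd) (j : IF T) (q : Set ℕ → ℝ) :
    pQ U T j q = U.n j.A (fun a => q (tgt T (j.s a))) := rfl

/-- the space of functions on branches -/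
abbrev QS (U : UN) (T : TreeOrd) : Type := SupSp (pQ U T)

section
variable {U : UN} {T : TreeOrd}

theorem VBQ (q : QS U T) : VB U T (fun S => S.Infinite) (fun S => q.1 (tgt T S)) ‖q‖ := by
  intro A s hs hd
  exact SupSp.le_norm (pQ U T) q ⟨A, s, hs, hd⟩

theorem q_le (q : QS U T) {b : Set ℕ} (hb : IsBr T b) : |q.1 b| ≤ ‖q‖ := by
  obtain ⟨a, ha⟩ := hb.inf.nonempty
  have := VBQ q {a} (fun _ => up T a b) (by
    intro c hc
    simp at hc
    subst hc
    exact ⟨up_seg hb _, up_inf hb ha⟩) (by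
    intro c hc d hd hcd
    simp at hc hd
    exact (hcd (hc.trans hd.symm)).elim)
  rw [U.single] at this
  have h2 : |q.1 (tgt T (up T a b))| ≤ ‖q‖ := this
  rwa [up_tgt hb ha] at h2

/-- only finitely many branches carry a big value -/
theorem finite_big (q : QS U T) (c : ℝ) (hc : 0 < c) : {b | IsBr T b ∧ c ≤ |q.1 b|}.Finite := by
  classical
  by_contra hinf
  have hinf' : {b | IsBr T b ∧ c ≤ |q.1 b|}.Infinite := hinf
  let b : ℕ → Set ℕ := fun j => (hinf'.natEmbedding _ j : Set ℕ)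
  have hb : ∀ j, IsBr T (b j) ∧ c ≤ |q.1 (b j)| := fun j => (hinf'.natEmbedding _ j).2
  have hinj : Function.Injective b := fun i j hij =>
    (hinf'.natEmbedding _).injective (Subtype.ext hij)
  let V : Ultrafilter ℕ := hyperfilter ℕ
  let B : Set ℕ := {γ | ∀ᶠ j in (V : Filter ℕ), γ ∈ b j}
  have hBchain : ∀ γ ∈ B, ∀ γ' ∈ B, T.le γ γ' ∨ T.le γ' γ := by
    intro γ hγ γ' hγ'
    obtain ⟨j, h1, h2⟩ := (hγ.and hγ').exists
    exact (hb j).1.chain γ h1 γ' h2
  have hnot : ∀ γ, γ ∉ B → ∀ᶠ j in (V : Filter ℕ), γ ∉ b j := by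
    intro γ hγ
    exact (Ultrafilter.eventually_not).mpr hγ
  have hexa : ∀ j, b j ≠ B → ∃ a, a ∈ b j ∧ a ∉ B := by
    intro j hj
    by_contra hcon
    push Not at hcon
    apply hj
    refine Set.Subset.antisymm hcon ?_
    intro β hβ
    obtain ⟨γ, hγ, hlt⟩ := exists_gt_of_inf (hb j).1.inf β
    rcases hBchain β hβ γ (hcon γ hγ) with h | h
    · exact (hb j).1.lower γ hγ β h
    · have := T.le_nat _ _ h
      omega
  choose! a ha1 ha2 using hexa
  have hne : ∀ᶠ j in (V : Filter ℕ), b j ≠ B := by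
    by_cases h : ∃ j, b j = B
    · obtain ⟨j, hj⟩ := h
      have : ∀ᶠ i in (V : Filter ℕ), i ≠ j := by
        have h1 : ({j} : Set ℕ)ᶜ ∈ V := by
          rw [Ultrafilter.compl_mem_iff_notMem]
          exact (Set.finite_singleton j).notMem_hyperfilter
        exact h1
      filter_upwards [this] with i hi h2
      exact hi (hinj (h2.trans hj.symm))
    · push Not at h
      exact Eventually.of_forall h
  obtain ⟨f, hf1, hf2⟩ := exists_seq_of_forall_finset_exists (α := ℕ) (fun j => b j ≠ B)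
    (fun i j => a i ∉ b j ∧ a i < a j) (by
      intro S hS
      have h1 : ∀ i ∈ S, ∀ᶠ j in (V : Filter ℕ), (a i ∉ b j ∧ (b j ≠ B → a i < a j)) := by
        intro i hi
        have h2 : ∀ᶠ j in (V : Filter ℕ), ∀ γ ∈ Finset.range (a i + 1), (γ ∉ B → γ ∉ b j) := by
          rw [Filter.eventually_all_finset]
          intro γ _
          by_cases hγ : γ ∈ B
          · exact Eventually.of_forall fun j h => (h hγ).elim
          · filter_upwards [hnot γ hγ] with j hj _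
            exact hj
        filter_upwards [hnot _ (ha2 i (hS i hi)), h2] with j h3 h4
        refine ⟨h3, fun h5 => ?_⟩
        by_contra h6
        push Not at h6
        exact h4 (a j) (Finset.mem_range.mpr (by omega)) (ha2 j h5) (ha1 j h5)
      obtain ⟨j, hj, hj'⟩ := (((Filter.eventually_all_finset S).mpr h1).and hne).exists
      exact ⟨j, hj', fun i hi => ⟨(hj i hi).1, (hj i hi).2 hj'⟩⟩)
  refine seq_contra (VBQ q) (fun k => {a (f k)}) (fun k _ => up T (a (f k)) (b (f k)))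
    ?_ ?_ ?_ ?_ c hc ?_
  · intro k x hx
    rw [Finset.mem_singleton] at hx
    subst hx
    exact ⟨up_seg (hb _).1 _, up_inf (hb _).1 (ha1 _ (hf1 k))⟩
  · intro k x hx y hy hxy
    simp at hx hy
    exact (hxy (hx.trans hy.symm)).elim
  · intro k l hkl x hx y hy
    simp at hx hy
    subst hx; subst hy
    exact (hf2 k l hkl).2
  · intro k l hkl x _ y _
    rw [Set.disjoint_left]
    intro γ h1 h2
    exact (hf2 k l hkl).1 ((hb _).1.lower γ h2.1 _ h1.2)
  · intro k
    rw [U.single, up_tgt (hb _).1 (ha1 _ (hf1 k))]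
    exact (hb _).2

section families

variable (q : QS U T) (o : ℕ → IF T)
  (ho : ∀ k l, k ≠ l → ∀ a ∈ (o k).A, ∀ b ∈ (o l).A, tgt T ((o k).s a) ≠ tgt T ((o l).s b))

include ho

theorem early_sup (η : ℝ) (hη : 0 < η) :
    ∀ᶠ l in atTop, ∀ a ∈ (o l).A, |q.1 (tgt T ((o l).s a))| < η := by
  have hfin := finite_big q η hη
  have h1 : (⋃ b ∈ {b | IsBr T b ∧ η ≤ |q.1 b|},
      {l | ∃ a ∈ (o l).A, tgt T ((o l).s a) = b}).Finite := by
    refine hfin.biUnion fun b _ => ?_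
    refine Set.Subsingleton.finite ?_
    rintro k ⟨a, ha, ha'⟩ l ⟨a', hb, hb'⟩
    by_contra hkl
    exact ho k l hkl a ha a' hb (ha'.trans hb'.symm)
  have h2 : ∀ᶠ l in atTop, l ∉ (⋃ b ∈ {b | IsBr T b ∧ η ≤ |q.1 b|},
      {l | ∃ a ∈ (o l).A, tgt T ((o l).s a) = b}) := by
    rw [← Nat.cofinite_eq_atTop]
    exact h1.eventually_cofinite_notMem
  filter_upwards [h2] with l hl a ha
  by_contra hcon
  push Not at hcon
  apply hl
  simp only [Set.mem_iUnion]
  exact ⟨tgt T ((o l).s a), ⟨tgt_isBr ((o l).seg a ha).1 ((o l).seg a ha).2, hcon⟩, a, ha, rfl⟩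

theorem early (N : ℕ) (η : ℝ) (hη : 0 < η) : ∀ᶠ l in atTop,
    U.n ((o l).A.filter (fun a => a ≤ N)) (fun a => q.1 (tgt T ((o l).s a))) ≤ η := by
  filter_upwards [early_sup q o ho (η / (N + 1)) (by positivity)] with l hl
  refine (U.n_le_sum _ _).trans ?_
  have h1 : ∀ a ∈ (o l).A.filter (fun a => a ≤ N), |q.1 (tgt T ((o l).s a))| ≤ η / (N + 1) :=
    fun a ha => (hl a (Finset.mem_filter.mp ha).1).le
  refine (Finset.sum_le_card_nsmul _ _ _ h1).trans ?_
  have h2 : ((o l).A.filter (fun a => a ≤ N)).card ≤ N + 1 := by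
    calc ((o l).A.filter (fun a => a ≤ N)).card ≤ (Finset.range (N + 1)).card :=
          Finset.card_le_card fun a ha => Finset.mem_range.mpr
            (Nat.lt_succ_of_le (Finset.mem_filter.mp ha).2)
      _ = N + 1 := Finset.card_range _
  rw [nsmul_eq_mul]
  calc (((o l).A.filter (fun a => a ≤ N)).card : ℝ) * (η / (N + 1)) ≤
      (N + 1) * (η / (N + 1)) := by
        refine mul_le_mul_of_nonneg_right ?_ (by positivity)
        exact_mod_cast h2
    _ = η := by field_simp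

open Classical in
theorem step1 {b : Set ℕ} (hb : IsBr T b) (η : ℝ) (hη : 0 < η) : ∀ᶠ l in atTop,
    U.n ((o l).A.filter (fun a => a ∈ b)) (fun a => q.1 (tgt T ((o l).s a))) ≤ η := by
  by_contra hcon
  rw [Filter.not_eventually] at hcon
  have h1 : ∀ᶠ l in atTop, ∀ a ∈ (o l).A, tgt T ((o l).s a) ≠ b := by
    have h2 : {l | ∃ a ∈ (o l).A, tgt T ((o l).s a) = b}.Finite := by
      refine Set.Subsingleton.finite ?_
      rintro k ⟨a, ha, ha'⟩ l ⟨a', hb, hb'⟩
      by_contra hkl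
      exact ho k l hkl a ha a' hb (ha'.trans hb'.symm)
    have h3 : ∀ᶠ l in atTop, l ∉ {l | ∃ a ∈ (o l).A, tgt T ((o l).s a) = b} := by
      rw [← Nat.cofinite_eq_atTop]
      exact h2.eventually_cofinite_notMem
    filter_upwards [h3] with l hl a ha h4
    exact hl ⟨a, ha, h4⟩
  obtain ⟨φ, hφ, hφ'⟩ := Filter.extraction_of_frequently_atTop (hcon.and_eventually h1)
  have hN : ∀ k, ∃ N, ∀ a ∈ (o (φ k)).A, a ≤ N ∧ ∀ γ ∈ b ∩ tgt T ((o (φ k)).s a), γ ≤ N := by
    intro k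
    have h2 : ∀ a ∈ (o (φ k)).A, ∃ N, a ≤ N ∧ ∀ γ ∈ b ∩ tgt T ((o (φ k)).s a), γ ≤ N := by
      intro a ha
      have hfin : (b ∩ tgt T ((o (φ k)).s a)).Finite :=
        hb.inter_finite (tgt_isBr ((o _).seg a ha).1 ((o _).seg a ha).2)
          (Ne.symm ((hφ' k).2 a ha))
      obtain ⟨N, hN⟩ := hfin.bddAbove
      exact ⟨max a N, le_max_left _ _, fun γ hγ => (hN hγ).trans (le_max_right _ _)⟩
    choose! N hN using h2
    refine ⟨(o (φ k)).A.sup N, fun a ha => ?_⟩
    have h3 : N a ≤ (o (φ k)).A.sup N := Finset.le_sup ha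
    exact ⟨(hN a ha).1.trans h3, fun γ hγ => ((hN a ha).2 γ hγ).trans h3⟩
  choose N hN using hN
  refine extract (VBQ q) (fun k => (o (φ k)).A.filter (fun a => a ∈ b)) (fun k => (o (φ k)).s)
    (fun k a ha => (o (φ k)).seg a (Finset.mem_filter.mp ha).1)
    (fun k a ha c hc hac => (o (φ k)).disj a (Finset.mem_filter.mp ha).1 c
      (Finset.mem_filter.mp hc).1 hac) η hη (fun k => (not_le.mp (hφ' k).1).le)
    (fun k l => (o (φ l)).A.filter (fun a => a ≤ N k)) ?_ ?_
  · rintro k l c hc ⟨a, ha, h2⟩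
    have hc' := Finset.mem_filter.mp hc
    have ha' := Finset.mem_filter.mp ha
    refine Finset.mem_filter.mpr ⟨hc'.1, ?_⟩
    rcases h2 with h2 | h2
    · exact h2.trans (hN k a ha'.1).1
    · rw [Set.not_disjoint_iff] at h2
      obtain ⟨γ, h3, h4⟩ := h2
      refine (hN k a ha'.1).2 c ⟨hc'.2, ⟨γ, h3, ?_⟩⟩
      exact ((o (φ l)).seg c hc'.1).1.ge γ h4
  · intro k η' hη'
    exact hφ.tendsto_atTop.eventually (early q o ho (N k) η' hη')

open Classical in
theorem families_small (ε : ℝ) (hε : 0 < ε)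
    (hn : ∀ k, ε ≤ U.n (o k).A (fun a => q.1 (tgt T ((o k).s a)))) : False := by
  refine extract (VBQ q) (fun k => (o k).A) (fun k => (o k).s)
    (fun k => (o k).seg) (fun k => (o k).disj) ε hε hn
    (fun k l => (o l).A.filter (fun a => a ≤ (o k).A.sup id) ∪
      (o k).A.biUnion (fun a => (o l).A.filter (fun c => c ∈ tgt T ((o k).s a)))) ?_ ?_
  · rintro k l c hc ⟨a, ha, h2⟩
    rcases h2 with h2 | h2
    · refine Finset.mem_union_left _ (Finset.mem_filter.mpr ⟨hc, h2.trans ?_⟩)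
      exact Finset.le_sup (f := id) ha
    · rw [Set.not_disjoint_iff] at h2
      obtain ⟨γ, h3, h4⟩ := h2
      refine Finset.mem_union_right _ (Finset.mem_biUnion.mpr
        ⟨a, ha, Finset.mem_filter.mpr ⟨hc, ⟨γ, h3, ?_⟩⟩⟩)
      exact ((o l).seg c hc).1.ge γ h4
  · intro k η hη
    have h1 : ∀ᶠ l in atTop, ∀ a ∈ (o k).A,
        U.n ((o l).A.filter (fun c => c ∈ tgt T ((o k).s a)))
          (fun a => q.1 (tgt T ((o l).s a))) ≤ η / (2 * ((o k).A.card + 1)) := by
      rw [Filter.eventually_all_finset]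
      intro a ha
      exact step1 q o ho (tgt_isBr ((o k).seg a ha).1 ((o k).seg a ha).2) _ (by positivity)
    filter_upwards [early q o ho ((o k).A.sup id) (η / 2) (by linarith), h1] with l h2 h3
    refine (U.n_union _ _ _).trans ?_
    have h4 : U.n ((o k).A.biUnion (fun a => (o l).A.filter (fun c => c ∈ tgt T ((o k).s a))))
        (fun a => q.1 (tgt T ((o l).s a))) ≤ η / 2 := by
      refine (U.n_biUnion _ _ _).trans ((Finset.sum_le_card_nsmul _ _ _ h3).trans ?_)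
      rw [nsmul_eq_mul, mul_div_assoc', div_le_div_iff₀ (by positivity) (by norm_num)]
      nlinarith
    linarith

end families

open Classical in
/-- restriction of a function on branches -/
noncomputable def RQ (𝒮 : Set (Set ℕ)) (q : QS U T) : QS U T :=
  ⟨𝒮.indicator q.1, by
    refine ⟨‖q‖, fun j => ?_⟩
    refine le_trans ?_ (SupSp.le_norm (pQ U T) q j)
    rw [pQ_apply, pQ_apply]
    refine U.n_abs fun a _ => ?_
    by_cases h : tgt T (j.s a) ∈ 𝒮 <;> simp [h]⟩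

theorem RQ_coe (𝒮 : Set (Set ℕ)) (q : QS U T) : (RQ 𝒮 q).1 = 𝒮.indicator q.1 := rfl

theorem RQ_norm (𝒮 : Set (Set ℕ)) (q : QS U T) : ‖RQ 𝒮 q‖ ≤ ‖q‖ := by
  refine SupSp.norm_le _ (norm_nonneg _) fun j => ?_
  refine le_trans ?_ (SupSp.le_norm (pQ U T) q j)
  rw [pQ_apply, pQ_apply]
  refine U.n_abs fun a _ => ?_
  by_cases h : tgt T (j.s a) ∈ 𝒮 <;> simp [RQ_coe, h]

theorem RQ_split (𝒮 : Set (Set ℕ)) (q : QS U T) : q = RQ 𝒮 q + RQ 𝒮ᶜ q := by
  apply Subtype.ext
  rw [SupSp.coe_add, RQ_coe, RQ_coe]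
  exact (Set.indicator_self_add_compl 𝒮 q.1).symm

/-- finitely supported functions on branches are dense -/
theorem tail_small (q : QS U T) (ε : ℝ) (hε : 0 < ε) :
    ∃ F : Finset (Set ℕ), ‖RQ ((F : Set (Set ℕ))ᶜ) q‖ ≤ ε := by
  classical
  by_contra hcon
  push Not at hcon
  obtain ⟨o, ho1, ho2⟩ := exists_seq_of_forall_finset_exists (α := IF T)
    (fun o => ε ≤ U.n o.A (fun a => q.1 (tgt T (o.s a))))
    (fun o o' => ∀ a ∈ o.A, ∀ b ∈ o'.A, tgt T (o.s a) ≠ tgt T (o'.s b)) (by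
      intro S _
      set F : Finset (Set ℕ) := S.biUnion (fun o => o.A.image (fun a => tgt T (o.s a))) with hF
      obtain ⟨j, hj⟩ := SupSp.lt_norm (pQ U T) hε.le (hcon F)
      rw [pQ_apply, RQ_coe] at hj
      refine ⟨⟨j.A.filter (fun a => tgt T (j.s a) ∉ F), j.s,
        fun a ha => j.seg a (Finset.mem_filter.mp ha).1,
        fun a ha b hb hab => j.disj a (Finset.mem_filter.mp ha).1 b
          (Finset.mem_filter.mp hb).1 hab⟩, ?_, ?_⟩
      · refine hj.le.trans (U.mono _ _ _ _ fun a ha => ?_)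
        by_cases h : tgt T (j.s a) ∈ F
        · left; simp [h]
        · right
          refine ⟨Finset.mem_filter.mpr ⟨ha, h⟩, ?_⟩
          simp [h]
      · intro o ho a ha b hb he
        have h1 := (Finset.mem_filter.mp hb).2
        apply h1
        rw [hF, Finset.mem_biUnion]
        exact ⟨o, ho, Finset.mem_image.mpr ⟨a, ha, he⟩⟩)
  refine families_small q o ?_ ε hε ho1
  intro k l hkl a ha b hb
  rcases lt_or_gt_of_ne hkl with h | h
  · exact ho2 k l h a ha b hb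
  · exact (ho2 l k h b hb a ha).symm

end

end Pool.Agent.Helper52.Tj
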