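import Pool.Agent.Helper52.TjQ

open Filter Topology

namespace Pool.Agent.Helper52.Tj

/-- functionals of norm at most one on the space of functions on branches -/
def Psi (U : UN) (T : TreeOrd) : Type := {c : QS U T →ₗ[ℝ] ℝ // ∀ q, |c q| ≤ ‖q‖}

/-- every norm one functional is a norm limit of finite combinations of evaluations -/
def ReflProp (U : UN) (T : TreeOrd) : Prop :=
  ∀ (ψ : Psi U T) (ε : ℝ), 0 < ε → ∃ F : Finset (Set ℕ),
    ∀ q : QS U T, (∀ b ∈ F, q.1 b = 0) → |ψ.1 q| ≤ ε * ‖q‖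

theorem exists_ultra_lim {I : Type*} (V : Ultrafilter I) (f : I → ℝ) (C : ℝ)
    (h : ∀ i, |f i| ≤ C) : ∃ L, |L| ≤ C ∧ Tendsto f V (𝓝 L) := by
  obtain ⟨L, hL, hlim⟩ := (isCompact_Icc (a := -C) (b := C)).ultrafilter_le_nhds' (V.map f)
    (by
      rw [Ultrafilter.mem_map]
      exact Filter.univ_mem' fun i => abs_le.mp (h i))
  exact ⟨L, abs_le.mpr hL, hlim⟩

section
variable {U : UN} {T : TreeOrd}

theorem IF.inj (j : IF T) {a b : ℕ} (ha : a ∈ j.A) (hb : b ∈ j.A)
    (h : tgt T (j.s a) = tgt T (j.s b)) : a = b := by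
  by_contra hab
  exact tgt_ne (j.seg a ha).1 (j.seg b hb).1 (j.seg a ha).2 (j.seg b hb).2
    (j.disj a ha b hb hab) h

theorem IF.br (j : IF T) {a : ℕ} (ha : a ∈ j.A) : IsBr T (tgt T (j.s a)) :=
  tgt_isBr (j.seg a ha).1 (j.seg a ha).2

open Classical in
theorem RQ_fin_norm (F : Finset (Set ℕ)) (q : QS U T) :
    ‖RQ (F : Set (Set ℕ)) q‖ ≤ ∑ b ∈ F, if IsBr T b then |q.1 b| else 0 := by
  refine SupSp.norm_le _ (Finset.sum_nonneg fun b _ => by split_ifs <;> positivity) fun j => ?_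
  rw [pQ_apply, RQ_coe]
  refine (U.n_le_sum _ _).trans ?_
  have h1 : ∀ a ∈ j.A, |(F : Set (Set ℕ)).indicator q.1 (tgt T (j.s a))| =
      (fun b => if b ∈ F then (if IsBr T b then |q.1 b| else 0) else 0) (tgt T (j.s a)) := by
    intro a ha
    by_cases h : tgt T (j.s a) ∈ F
    · simp [h, j.br ha]
    · simp [h]
  rw [Finset.sum_congr rfl h1]
  rw [← Finset.sum_image (s := j.A) (g := fun a => tgt T (j.s a))
    (f := fun b => if b ∈ F then (if IsBr T b then |q.1 b| else 0) else 0)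
    (fun a ha b hb h => j.inj ha hb h)]
  rw [← Finset.sum_filter]
  refine Finset.sum_le_sum_of_subset_of_nonneg ?_ ?_
  · intro b hb
    exact (Finset.mem_filter.mp hb).2
  · intro b _ _
    split_ifs <;> positivity

section approx
variable (ψ : Psi U T) (ε : ℝ) (hε : 0 < ε)
  (h : ∀ F : Finset (Set ℕ), ∃ q : QS U T, (∀ b ∈ F, q.1 b = 0) ∧ ε * ‖q‖ < |ψ.1 q|)

include hε h

open Classical in
theorem pick1 (F : Finset (Set ℕ)) : ∃ (G : Finset (Set ℕ)) (r : QS U T), Disjoint F G ∧
    (∀ b, b ∉ G → r.1 b = 0) ∧ ‖r‖ ≤ 1 ∧ ε ≤ ψ.1 r := by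
  obtain ⟨q, hq1, hq2⟩ := h F
  have hpos : 0 < ‖q‖ := by
    rcases (norm_nonneg q).eq_or_lt with h1 | h1
    · have := ψ.2 q
      rw [← h1] at this hq2
      linarith
    · exact h1
  obtain ⟨t, ht1, ht2⟩ : ∃ t : ℝ, |t| = 1 ∧ t * ψ.1 q = |ψ.1 q| := by
    rcases abs_cases (ψ.1 q) with h1 | h1
    · exact ⟨1, by simp, by rw [h1.1]; ring⟩
    · exact ⟨-1, by simp, by rw [h1.1]; ring⟩
  set q1 : QS U T := (t / ‖q‖) • q with hq1d
  have n1 : ‖q1‖ = 1 := by
    rw [hq1d, norm_smul, Real.norm_eq_abs, abs_div, ht1, abs_of_pos hpos]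
    field_simp
  have p1 : ε < ψ.1 q1 := by
    rw [hq1d, map_smul, smul_eq_mul, div_mul_eq_mul_div, ht2, lt_div_iff₀ hpos]
    exact hq2
  obtain ⟨F', hF'⟩ := tail_small q1 (ψ.1 q1 - ε) (by linarith)
  refine ⟨F' \ F, RQ (F' : Set (Set ℕ)) q1, ?_, ?_, ?_, ?_⟩
  · exact Finset.disjoint_sdiff
  · intro b hb
    rw [RQ_coe]
    by_cases h1 : b ∈ F'
    · have h2 : b ∈ F := by
        by_contra h2
        exact hb (Finset.mem_sdiff.mpr ⟨h1, h2⟩)
      have h3 : q1.1 b = 0 := by
        rw [hq1d, SupSp.coe_smul, Pi.smul_apply, hq1 b h2, smul_zero]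
      simp [h1, h3]
    · simp [h1]
  · exact (RQ_norm _ _).trans n1.le
  · have h1 := RQ_split (F' : Set (Set ℕ)) q1
    have h2 : ψ.1 q1 = ψ.1 (RQ (F' : Set (Set ℕ)) q1) + ψ.1 (RQ ((F' : Set (Set ℕ))ᶜ) q1) := by
      rw [← map_add, ← h1]
    have h3 := (le_abs_self _).trans ((ψ.2 (RQ ((F' : Set (Set ℕ))ᶜ) q1)).trans hF')
    linarith

open Classical in
theorem pick2 (F : Finset (Set ℕ)) : ∀ n : ℕ, ∃ (G : Finset (Set ℕ)) (r : QS U T), Disjoint F G ∧
    (∀ b, b ∉ G → r.1 b = 0) ∧ ‖r‖ ≤ n ∧ n * ε ≤ ψ.1 r ∧ ∀ b, IsBr T b → |r.1 b| ≤ 1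
  | 0 => by
    refine ⟨∅, 0, by simp, fun b _ => by rw [SupSp.coe_zero]; rfl, by simp, by simp,
      fun b _ => by rw [SupSp.coe_zero]; simp⟩
  | (n + 1) => by
    obtain ⟨G, r, h1, h2, h3, h4, h5⟩ := pick2 F n
    obtain ⟨G', r', h1', h2', h3', h4'⟩ := pick1 ψ ε hε h (F ∪ G)
    refine ⟨G ∪ G', r + r', ?_, ?_, ?_, ?_, ?_⟩
    · rw [Finset.disjoint_union_right]
      exact ⟨h1, (Finset.disjoint_union_left.mp h1').1⟩
    · intro b hb
      rw [Finset.mem_union, not_or] at hb
      rw [SupSp.coe_add, Pi.add_apply, h2 b hb.1, h2' b hb.2, add_zero]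
    · push_cast
      exact (norm_add_le _ _).trans (add_le_add h3 h3')
    · rw [map_add]
      push_cast
      linarith
    · intro b hb
      rw [SupSp.coe_add, Pi.add_apply]
      by_cases hG : b ∈ G'
      · have : b ∉ G := fun h6 =>
          Finset.disjoint_left.mp (Finset.disjoint_union_left.mp h1').2 h6 hG
        rw [h2 b this, zero_add]
        exact (q_le r' hb).trans h3'
      · rw [h2' b hG, add_zero]
        exact h5 b hb

theorem pick3 (F : Finset (Set ℕ)) (n : ℕ) : ∃ (G : Finset (Set ℕ)) (r : QS U T), Disjoint F G ∧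
    (∀ b, b ∉ G → r.1 b = 0) ∧ ‖r‖ ≤ 1 ∧ ε ≤ ψ.1 r ∧ ∀ b, IsBr T b → |r.1 b| ≤ 1 / (n + 1) := by
  obtain ⟨G, r, h1, h2, h3, h4, h5⟩ := pick2 ψ ε hε h F (n + 1)
  have hn : (0 : ℝ) < n + 1 := by positivity
  push_cast at h3 h4
  refine ⟨G, (1 / ((n : ℝ) + 1)) • r, h1, ?_, ?_, ?_, ?_⟩
  · intro b hb
    rw [SupSp.coe_smul, Pi.smul_apply, h2 b hb, smul_zero]
  · rw [norm_smul, Real.norm_eq_abs, abs_of_pos (by positivity), one_div, inv_mul_le_iff₀ hn]
    linarith
  · rw [map_smul, smul_eq_mul, one_div, le_inv_mul_iff₀ hn]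
    exact h4
  · intro b hb
    rw [SupSp.coe_smul, Pi.smul_apply, smul_eq_mul, abs_mul, abs_of_pos (by positivity)]
    have := h5 b hb
    calc 1 / ((n : ℝ) + 1) * |r.1 b| ≤ 1 / ((n : ℝ) + 1) * 1 :=
          mul_le_mul_of_nonneg_left this (by positivity)
      _ = _ := by ring

open Classical in
theorem seq_bound (H : AC U) (m : ℕ) : ∃ r : QS U T, m * ε ≤ ψ.1 r ∧
    ‖r‖ ≤ 1 + H.C0 * (H.C0 + 2) + H.C0 := by
  choose G r h1 h2 h3 h4 h5 using pick3 ψ ε hε h
  let st : ℕ → ℕ × Finset (Set ℕ) := fun j => Nat.rec (m + H.g m, ∅)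
    (fun _ p => (p.1 + H.g (p.2 ∪ G p.2 p.1).card, p.2 ∪ G p.2 p.1)) j
  let M : ℕ → ℕ := fun j => (st j).1
  let F : ℕ → Finset (Set ℕ) := fun j => (st j).2
  let g : ℕ → Finset (Set ℕ) := fun j => G (F j) (M j)
  let ρ : ℕ → QS U T := fun j => r (F j) (M j)
  have hM0 : M 0 = m + H.g m := rfl
  have hF0 : F 0 = ∅ := rfl
  have hMs : ∀ j, M (j + 1) = M j + H.g (F (j + 1)).card := fun j => rfl
  have hFs : ∀ j, F (j + 1) = F j ∪ g j := fun j => rfl
  have hMmono : Monotone M := monotone_nat_of_le_succ fun j => by rw [hMs]; omega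
  have hFM : ∀ j, H.g (F j).card ≤ M j := by
    intro j
    induction j with
    | zero =>
      rw [hF0, hM0, Finset.card_empty]
      exact (H.gmono (Nat.zero_le m)).trans (Nat.le_add_left _ _)
    | succ j ih =>
      rw [hMs]
      omega
  have hFmono : Monotone F := monotone_nat_of_le_succ fun j => by
    rw [hFs]; exact Finset.subset_union_left
  have hgF : ∀ i j, i < j → g i ⊆ F j := by
    intro i j hij
    have : g i ⊆ F (i + 1) := by rw [hFs]; exact Finset.subset_union_right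
    exact this.trans (hFmono hij)
  have hdis : ∀ j, Disjoint (F j) (g j) := fun j => h1 _ _
  have hsupp : ∀ j b, b ∉ g j → (ρ j).1 b = 0 := fun j => h2 _ _
  have hnorm : ∀ j, ‖ρ j‖ ≤ 1 := fun j => h3 _ _
  have hψ : ∀ j, ε ≤ ψ.1 (ρ j) := fun j => h4 _ _
  have hval : ∀ j b, IsBr T b → |(ρ j).1 b| ≤ 1 / ((M j : ℝ) + 1) := fun j => h5 _ _
  -- sums over intervals of indices
  have hN : ∀ b, IsBr T b → ∀ j k, j ≤ k →
      |∑ i ∈ Finset.Ico j k, (ρ i).1 b| ≤ 1 / ((M j : ℝ) + 1) := by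
    intro b hb j k hjk
    induction k, hjk using Nat.le_induction with
    | base => simp; positivity
    | succ k hjk ih =>
      rw [Finset.sum_Ico_succ_top hjk]
      by_cases hk : b ∈ g k
      · have h6 : ∑ i ∈ Finset.Ico j k, (ρ i).1 b = 0 := by
          refine Finset.sum_eq_zero fun i hi => hsupp i b fun h7 => ?_
          exact Finset.disjoint_left.mp (hdis k) (hgF i k (Finset.mem_Ico.mp hi).2 h7) hk
        rw [h6, zero_add]
        refine (hval k b hb).trans ?_
        have : (M j : ℝ) ≤ M k := by exact_mod_cast hMmono hjk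
        exact one_div_le_one_div_of_le (by positivity) (by linarith)
      · rw [hsupp k b hk, add_zero]
        exact ih
  have hold : ∀ j b, b ∉ F j → ∑ i ∈ Finset.range j, (ρ i).1 b = 0 := by
    intro j b hb
    refine Finset.sum_eq_zero fun i hi => hsupp i b fun h7 => hb ?_
    exact hgF i j (Finset.mem_range.mp hi) h7
  have hold1 : ∀ j b, IsBr T b → |∑ i ∈ Finset.range j, (ρ i).1 b| ≤ 1 := by
    intro j b hb
    have := hN b hb 0 j (Nat.zero_le _)
    rw [← Finset.range_eq_Ico] at this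
    refine this.trans ?_
    rw [div_le_one (by positivity)]
    have : (0 : ℝ) ≤ M 0 := by positivity
    linarith
  refine ⟨∑ j ∈ Finset.range m, ρ j, ?_, ?_⟩
  · rw [map_sum]
    have := Finset.card_nsmul_le_sum (Finset.range m) (fun j => ψ.1 (ρ j)) ε (fun j _ => hψ j)
    rw [Finset.card_range, nsmul_eq_mul] at this
    exact this
  · have hcoe : ∀ s : Finset ℕ, (∑ j ∈ s, ρ j).1 = fun b => ∑ j ∈ s, (ρ j).1 b := by
      intro s
      induction s using Finset.induction_on with
      | empty => rfl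
      | insert i s hi ih =>
        rw [Finset.sum_insert hi, SupSp.coe_add, ih]
        ext b
        simp [Finset.sum_insert hi]
    have hC0 := H.C0_nonneg
    refine SupSp.norm_le _ (by positivity) fun J => ?_
    rw [pQ_apply, hcoe]
    set v : ℕ → ℝ := fun a => ∑ j ∈ Finset.range m, (ρ j).1 (tgt T (J.s a)) with hv
    -- windows
    set W : ℕ → Finset ℕ := fun j => J.A.filter (fun a => M j ≤ a ∧ a < M (j + 1)) with hW
    have hcov : J.A ⊆ (J.A.filter (fun a => a < M 0) ∪ (Finset.range m).biUnion W) ∪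
        J.A.filter (fun a => M m ≤ a) := by
      intro a ha
      by_cases h6 : a < M 0
      · exact Finset.mem_union_left _ (Finset.mem_union_left _ (Finset.mem_filter.mpr ⟨ha, h6⟩))
      by_cases h7 : M m ≤ a
      · exact Finset.mem_union_right _ (Finset.mem_filter.mpr ⟨ha, h7⟩)
      · refine Finset.mem_union_left _ (Finset.mem_union_right _ ?_)
        push Not at h6 h7
        have hex : ∃ j, a < M j := ⟨m, h7⟩
        have hne : Nat.find hex ≠ 0 := fun h8 => by
          have := Nat.find_spec hex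
          rw [h8] at this
          omega
        obtain ⟨k, hk⟩ := Nat.exists_eq_succ_of_ne_zero hne
        have hk1 : a < M (k + 1) := by
          have := Nat.find_spec hex
          rwa [hk] at this
        have hk2 : M k ≤ a := by
          have := Nat.find_min hex (m := k) (by omega)
          omega
        have hkm : k < m := by
          have := Nat.find_min' hex h7
          omega
        exact Finset.mem_biUnion.mpr ⟨k, Finset.mem_range.mpr hkm,
          Finset.mem_filter.mpr ⟨ha, hk2, hk1⟩⟩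
    -- old part bound
    have hfew : ∀ (B : Finset ℕ) j, B ⊆ J.A → (∀ a ∈ B, M j ≤ a) →
        U.n B (fun a => ∑ i ∈ Finset.range j, (ρ i).1 (tgt T (J.s a))) ≤ H.C0 * 1 := by
      intro B j hB hBM
      set B' := B.filter (fun a => tgt T (J.s a) ∈ F j) with hB'
      have h6 : U.n B (fun a => ∑ i ∈ Finset.range j, (ρ i).1 (tgt T (J.s a))) ≤
          U.n B' (fun a => ∑ i ∈ Finset.range j, (ρ i).1 (tgt T (J.s a))) := by
        refine U.mono _ _ _ _ fun a ha => ?_
        by_cases h7 : tgt T (J.s a) ∈ F j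
        · exact Or.inr ⟨Finset.mem_filter.mpr ⟨ha, h7⟩, le_rfl⟩
        · exact Or.inl (hold j _ h7)
      refine h6.trans (H.n_few B' _ 1 zero_le_one ?_ ?_)
      · intro x hx
        have h7 : B'.card ≤ (F j).card := by
          refine Finset.card_le_card_of_injOn (fun a => tgt T (J.s a)) ?_ ?_
          · intro a ha
            exact (Finset.mem_filter.mp ha).2
          · intro a ha b hb hab
            exact J.inj (hB (Finset.mem_filter.mp ha).1) (hB (Finset.mem_filter.mp hb).1) hab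
        exact ((H.gmono h7).trans (hFM j)).trans (hBM x (Finset.mem_filter.mp hx).1)
      · intro x hx
        exact hold1 j _ (J.br (hB (Finset.mem_filter.mp hx).1))
    -- few small coordinates
    have hsmall : ∀ (B : Finset ℕ) (K : ℕ) (w : ℕ → ℝ), (∀ a ∈ B, a < K) →
        (∀ a ∈ B, |w a| ≤ 1 / ((K : ℝ) + 1)) → U.n B w ≤ 1 := by
      intro B K w hB hw
      refine (U.n_le_sum _ _).trans ((Finset.sum_le_card_nsmul _ _ _ hw).trans ?_)
      have h6 : B.card ≤ K := by
        calc B.card ≤ (Finset.range K).card :=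
              Finset.card_le_card fun a ha => Finset.mem_range.mpr (hB a ha)
          _ = K := Finset.card_range _
      have h6' : (B.card : ℝ) ≤ K := by exact_mod_cast h6
      rw [nsmul_eq_mul, mul_one_div, div_le_one (by positivity)]
      linarith
    have e1 : U.n (J.A.filter (fun a => a < M 0)) v ≤ 1 := by
      refine hsmall _ (M 0) v (fun a ha => (Finset.mem_filter.mp ha).2) fun a ha => ?_
      have := hN _ (J.br (Finset.mem_filter.mp ha).1) 0 m (Nat.zero_le _)
      rwa [← Finset.range_eq_Ico] at this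
    have e2 : U.n (J.A.filter (fun a => M m ≤ a)) v ≤ H.C0 * 1 :=
      hfew _ m (Finset.filter_subset _ _) (fun a ha => (Finset.mem_filter.mp ha).2)
    have e3 : ∀ j < m, U.n (W j) v ≤ H.C0 + 2 := by
      intro j hj
      have hWsub : W j ⊆ J.A := Finset.filter_subset _ _
      have h6 : U.n (W j) v = U.n (W j) (fun a =>
          (∑ i ∈ Finset.range j, (ρ i).1 (tgt T (J.s a)) + (ρ j).1 (tgt T (J.s a))) +
          ∑ i ∈ Finset.Ico (j + 1) m, (ρ i).1 (tgt T (J.s a))) := by
        refine U.n_congr fun a _ => ?_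
        rw [hv, ← Finset.sum_range_succ]
        exact (Finset.sum_range_add_sum_Ico _ hj).symm
      rw [h6]
      refine (U.n_add _ _ _).trans ?_
      have h7 : U.n (W j) (fun a => ∑ i ∈ Finset.Ico (j + 1) m, (ρ i).1 (tgt T (J.s a))) ≤ 1 := by
        refine hsmall _ (M (j + 1)) _ (fun a ha => (Finset.mem_filter.mp ha).2.2) fun a ha => ?_
        exact hN _ (J.br (hWsub ha)) (j + 1) m hj
      have h8 : U.n (W j) (fun a => (ρ j).1 (tgt T (J.s a))) ≤ 1 :=
        (VBQ (ρ j) (W j) J.s (fun a ha => J.seg a (hWsub ha))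
          (fun a ha b hb hab => J.disj a (hWsub ha) b (hWsub hb) hab)).trans (hnorm j)
      have h9 := hfew (W j) j hWsub (fun a ha => (Finset.mem_filter.mp ha).2.1)
      have h10 := U.n_add (W j) (fun a => ∑ i ∈ Finset.range j, (ρ i).1 (tgt T (J.s a)))
        (fun a => (ρ j).1 (tgt T (J.s a)))
      linarith
    have e4 : U.n ((Finset.range m).biUnion W) v ≤ H.C0 * (H.C0 + 2) := by
      refine H.ac m W v _ (by linarith) ?_ ?_ e3
      · intro j _ x hx
        have h6 := (Finset.mem_filter.mp hx).2.1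
        have h7 : M 0 ≤ M j := hMmono (Nat.zero_le _)
        rw [hM0] at h7
        omega
      · intro i j hij _ a ha b hb
        have h6 := (Finset.mem_filter.mp ha).2.2
        have h7 := (Finset.mem_filter.mp hb).2.1
        have h8 : M (i + 1) ≤ M j := hMmono hij
        omega
    calc U.n J.A v ≤ _ := U.n_sub hcov v
      _ ≤ _ := U.n_union _ _ _
      _ ≤ _ := add_le_add_left (U.n_union _ _ _) _
      _ ≤ 1 + H.C0 * (H.C0 + 2) + H.C0 := by linarith

open Classical in
theorem nl_step (H : NL U) (F : Finset (Set ℕ)) :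
    ∃ q : QS U T, (∀ b ∈ F, q.1 b = 0) ∧ 2 / (1 + H.θ) * ε * ‖q‖ < |ψ.1 q| := by
  have hmpos : (0 : ℝ) < H.m := by exact_mod_cast H.mpos
  have hθ0 : 0 ≤ H.θ := by
    have h1 := H.nl (fun _ => ∅) 0 (by simp) (by simp) (by simp [U.n_empty])
    have h2 := (U.n_nonneg _ _).trans h1
    by_contra h3
    push Not at h3
    nlinarith
  have hθ1 := H.θ_lt
  set η : ℝ := (1 - H.θ) / 4 with hη
  have hη0 : 0 < η := by rw [hη]; linarith
  obtain ⟨M, hM⟩ := exists_nat_gt ((H.g : ℝ) / (η * H.m))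
  have hgM : (H.g : ℝ) * (1 / ((M : ℝ) + 1)) ≤ η * H.m := by
    rw [div_lt_iff₀ (by positivity)] at hM
    rw [mul_one_div, div_le_iff₀ (by positivity)]
    nlinarith [mul_pos hη0 hmpos]
  obtain ⟨f, hf1, hf2⟩ := exists_seq_of_forall_finset_exists (α := Finset (Set ℕ) × QS U T)
    (fun o => Disjoint F o.1 ∧ (∀ b, b ∉ o.1 → o.2.1 b = 0) ∧ ‖o.2‖ ≤ 1 ∧ ε ≤ ψ.1 o.2 ∧
      ∀ b, IsBr T b → |o.2.1 b| ≤ 1 / ((M : ℝ) + 1))
    (fun o o' => Disjoint o.1 o'.1) (by
      intro S _
      obtain ⟨G, r, h1, h2⟩ := pick3 ψ ε hε h (F ∪ S.biUnion (fun o => o.1)) M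
      rw [Finset.disjoint_union_left] at h1
      refine ⟨(G, r), ⟨h1.1, h2⟩, fun o ho => ?_⟩
      exact h1.2.mono_left (Finset.subset_biUnion_of_mem (fun o : Finset (Set ℕ) × QS U T => o.1) ho))
  have hdis : ∀ i j, i ≠ j → Disjoint (f i).1 (f j).1 := by
    intro i j hij
    rcases lt_or_gt_of_ne hij with h1 | h1
    · exact hf2 i j h1
    · exact (hf2 j i h1).symm
  have hother : ∀ i j b, i ≠ j → b ∈ (f j).1 → (f i).2.1 b = 0 := fun i j b hij hb =>
    (hf1 i).2.1 b fun hb' => Finset.disjoint_left.mp (hdis i j hij) hb' hb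
  have hcoe : ∀ s : Finset ℕ, (∑ j ∈ s, (f j).2).1 = fun b => ∑ j ∈ s, (f j).2.1 b := by
    intro s
    induction s using Finset.induction_on with
    | empty => rfl
    | insert i s hi ih =>
      rw [Finset.sum_insert hi, SupSp.coe_add, ih]
      ext b
      simp [Finset.sum_insert hi]
  set q : QS U T := ∑ j ∈ Finset.range H.m, (f j).2 with hq
  have hval : ∀ b, IsBr T b → |∑ j ∈ Finset.range H.m, (f j).2.1 b| ≤ 1 / ((M : ℝ) + 1) := by
    intro b hb
    by_cases hex : ∃ j ∈ Finset.range H.m, b ∈ (f j).1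
    · obtain ⟨j, hj, hbj⟩ := hex
      rw [Finset.sum_eq_single j (fun i _ hij => hother i j b hij hbj)
        (fun h' => (h' hj).elim)]
      exact (hf1 j).2.2.2.2 b hb
    · push Not at hex
      rw [Finset.sum_eq_zero fun j hj => (hf1 j).2.1 b (hex j hj), abs_zero]
      positivity
  have hnorm : ‖q‖ ≤ (H.θ + η) * H.m := by
    refine SupSp.norm_le _ (by positivity) fun J => ?_
    rw [pQ_apply, hq, hcoe]
    set c : ℕ → ℝ := fun a => ∑ j ∈ Finset.range H.m, (f j).2.1 (tgt T (J.s a)) with hc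
    set A : ℕ → Finset ℕ := fun j => J.A.filter (fun a => H.g ≤ a ∧ tgt T (J.s a) ∈ (f j).1)
      with hA
    have h1 : U.n J.A c ≤ U.n (J.A.filter (fun a => a < H.g)) c +
        U.n ((Finset.range H.m).biUnion A) c := by
      refine le_trans (U.mono _ (J.A.filter (fun a => a < H.g) ∪ (Finset.range H.m).biUnion A)
        _ c fun a ha => ?_) (U.n_union _ _ _)
      by_cases hg : a < H.g
      · exact Or.inr ⟨Finset.mem_union_left _ (Finset.mem_filter.mpr ⟨ha, hg⟩), le_rfl⟩
      · by_cases hex : ∃ j ∈ Finset.range H.m, tgt T (J.s a) ∈ (f j).1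
        · obtain ⟨j, hj, hbj⟩ := hex
          exact Or.inr ⟨Finset.mem_union_right _ (Finset.mem_biUnion.mpr ⟨j, hj,
            Finset.mem_filter.mpr ⟨ha, not_lt.mp hg, hbj⟩⟩), le_rfl⟩
        · push Not at hex
          exact Or.inl (Finset.sum_eq_zero fun j hj => (hf1 j).2.1 _ (hex j hj))
    have h2 : U.n (J.A.filter (fun a => a < H.g)) c ≤ η * H.m := by
      refine (U.n_le_sum _ _).trans (le_trans (Finset.sum_le_card_nsmul _ _ (1 / ((M : ℝ) + 1))
        fun a ha => hval _ (J.br (Finset.mem_filter.mp ha).1)) ?_)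
      rw [nsmul_eq_mul]
      refine le_trans (mul_le_mul_of_nonneg_right ?_ (by positivity)) hgM
      have : (J.A.filter (fun a => a < H.g)).card ≤ H.g := by
        calc (J.A.filter (fun a => a < H.g)).card ≤ (Finset.range H.g).card :=
              Finset.card_le_card fun a ha => Finset.mem_range.mpr (Finset.mem_filter.mp ha).2
          _ = H.g := Finset.card_range _
      exact_mod_cast this
    have h3 : U.n ((Finset.range H.m).biUnion A) c ≤ H.θ * H.m := by
      refine H.nl A c (fun j _ x hx => (Finset.mem_filter.mp hx).2.1) ?_ ?_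
      · intro i j hij _
        rw [Finset.disjoint_left]
        intro a ha ha'
        exact Finset.disjoint_left.mp (hdis i j hij.ne) (Finset.mem_filter.mp ha).2.2
          (Finset.mem_filter.mp ha').2.2
      · intro j hj
        have h4 : U.n (A j) c = U.n (A j) (fun a => (f j).2.1 (tgt T (J.s a))) := by
          refine U.n_congr fun a ha => ?_
          exact Finset.sum_eq_single j
            (fun i _ hij => hother i j _ hij (Finset.mem_filter.mp ha).2.2)
            (fun h' => (h' (Finset.mem_range.mpr hj)).elim)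
        rw [h4]
        have hsub : A j ⊆ J.A := Finset.filter_subset _ _
        exact (VBQ (f j).2 (A j) J.s (fun a ha => J.seg a (hsub ha))
          (fun a ha b hb hab => J.disj a (hsub ha) b (hsub hb) hab)).trans (hf1 j).2.2.1
    linarith
  refine ⟨q, fun b hb => ?_, ?_⟩
  · rw [hq, hcoe]
    refine Finset.sum_eq_zero fun j _ => (hf1 j).2.1 b fun hb' => ?_
    exact Finset.disjoint_left.mp (hf1 j).1 hb hb'
  · have h1 : H.m * ε ≤ ψ.1 q := by
      rw [hq, map_sum]
      have := Finset.card_nsmul_le_sum (Finset.range H.m) (fun j => ψ.1 (f j).2) ε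
        (fun j _ => (hf1 j).2.2.2.1)
      rw [Finset.card_range, nsmul_eq_mul] at this
      exact this
    refine lt_of_lt_of_le ?_ (h1.trans (le_abs_self _))
    calc 2 / (1 + H.θ) * ε * ‖q‖ ≤ 2 / (1 + H.θ) * ε * ((H.θ + η) * H.m) :=
          mul_le_mul_of_nonneg_left hnorm (by positivity)
      _ = (2 * (H.θ + η) / (1 + H.θ)) * (ε * H.m) := by field_simp
      _ < 1 * (ε * H.m) := by
          refine mul_lt_mul_of_pos_right ?_ (by positivity)
          rw [div_lt_one (by positivity), hη]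
          linarith
      _ = H.m * ε := by ring

end approx

/-- reflexivity, asymptotically `c_0` case -/
theorem refl_of_ac (H : AC U) : ReflProp U T := by
  intro ψ ε hε
  by_contra hcon
  push Not at hcon
  obtain ⟨m, hm⟩ := exists_nat_gt ((1 + H.C0 * (H.C0 + 2) + H.C0) / ε)
  obtain ⟨r, h1, h2⟩ := seq_bound ψ ε hε hcon H m
  have h3 := (le_abs_self _).trans (ψ.2 r)
  rw [div_lt_iff₀ hε] at hm
  linarith

/-- reflexivity, case of no disjoint `ℓ_1^m` -/
theorem refl_of_nl (H : NL U) : ReflProp U T := by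
  intro ψ ε hε
  by_contra hcon
  push Not at hcon
  have hθ0 : 0 ≤ H.θ := by
    have h1 := H.nl (fun _ => ∅) 0 (by simp) (by simp) (by simp [U.n_empty])
    have h2 := (U.n_nonneg _ _).trans h1
    have hmpos : (0 : ℝ) < H.m := by exact_mod_cast H.mpos
    by_contra h3
    push Not at h3
    nlinarith
  have hθ1 := H.θ_lt
  have hlam : 1 < 2 / (1 + H.θ) := by
    rw [lt_div_iff₀ (by positivity)]
    linarith
  have hk : ∀ k : ℕ, ∀ F : Finset (Set ℕ), ∃ q : QS U T, (∀ b ∈ F, q.1 b = 0) ∧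
      (2 / (1 + H.θ)) ^ k * ε * ‖q‖ < |ψ.1 q| := by
    intro k
    induction k with
    | zero => intro F; simpa using hcon F
    | succ k ih =>
      intro F
      obtain ⟨q, h1, h2⟩ := nl_step ψ ((2 / (1 + H.θ)) ^ k * ε) (by positivity) ih H F
      refine ⟨q, h1, ?_⟩
      have e : (2 / (1 + H.θ)) ^ (k + 1) * ε * ‖q‖ =
          2 / (1 + H.θ) * ((2 / (1 + H.θ)) ^ k * ε) * ‖q‖ := by ring
      rw [e]
      exact h2
  obtain ⟨k, hk1⟩ := pow_unbounded_of_one_lt (1 / ε) hlam
  obtain ⟨q, -, h2⟩ := hk k ∅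
  rw [div_lt_iff₀ hε] at hk1
  have h3 := ψ.2 q
  have h4 : 1 * ‖q‖ ≤ (2 / (1 + H.θ)) ^ k * ε * ‖q‖ :=
    mul_le_mul_of_nonneg_right hk1.le (norm_nonneg _)
  linarith

open Classical in
/-- weak compactness of balls -/
theorem Q_weak (hR : ReflProp U T) (I : Type) (V : Ultrafilter I) (q : I → QS U T) (C : ℝ) (hC : ∀ i, ‖q i‖ ≤ C) :
    ∃ q' : QS U T, ‖q'‖ ≤ C ∧ ∀ ψ : Psi U T, Tendsto (fun i => ψ.1 (q i)) V (𝓝 (ψ.1 q')) := by
  have hne : Nonempty I := nonempty_of_neBot (V : Filter I)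
  have hC0 : 0 ≤ C := (norm_nonneg _).trans (hC (Classical.arbitrary I))
  have h1 : ∀ b : Set ℕ, ∃ L, IsBr T b → Tendsto (fun i => (q i).1 b) V (𝓝 L) := by
    intro b
    by_cases hb : IsBr T b
    · obtain ⟨L, -, hL⟩ := exists_ultra_lim V (fun i => (q i).1 b) C
        (fun i => (q_le (q i) hb).trans (hC i))
      exact ⟨L, fun _ => hL⟩
    · exact ⟨0, fun h => (hb h).elim⟩
  choose L hL using h1
  have hbd : ∀ j : IF T, U.n j.A (fun a => L (tgt T (j.s a))) ≤ C := by
    intro j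
    refine U.n_limit (V : Filter I) j.A (fun i a => (q i).1 (tgt T (j.s a))) _
      (fun a ha => hL _ (j.br ha)) C (Eventually.of_forall fun i => ?_)
    exact (SupSp.le_norm (pQ U T) (q i) j).trans (hC i)
  let q' : QS U T := ⟨L, C, fun j => hbd j⟩
  have hq' : ‖q'‖ ≤ C := SupSp.norm_le _ hC0 hbd
  refine ⟨q', hq', fun ψ => ?_⟩
  rw [Metric.tendsto_nhds]
  intro ε hε
  obtain ⟨F, hF⟩ := hR ψ (ε / (4 * (C + 1))) (by positivity)
  have h2 : Tendsto (fun i => ∑ b ∈ F, if IsBr T b then |(q i - q').1 b| else 0) V (𝓝 0) := by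
    have : Tendsto (fun i => ∑ b ∈ F, if IsBr T b then |(q i - q').1 b| else 0) V
        (𝓝 (∑ b ∈ F, (0 : ℝ))) := by
      refine tendsto_finsetSum _ fun b _ => ?_
      by_cases hb : IsBr T b
      · simp only [hb, if_true]
        have h3 : Tendsto (fun i => (q i).1 b - L b) V (𝓝 (L b - L b)) :=
          (hL b hb).sub tendsto_const_nhds
        rw [sub_self] at h3
        have := h3.abs
        rw [abs_zero] at this
        exact this
      · simp only [hb, if_false]
        exact tendsto_const_nhds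
    simpa using this
  have h3 : ∀ᶠ i in (V : Filter I), (∑ b ∈ F, if IsBr T b then |(q i - q').1 b| else 0) < ε / 2 :=
    h2.eventually_lt_const (by linarith)
  filter_upwards [h3] with i hi
  rw [Real.dist_eq, ← map_sub]
  have h4 := RQ_split (F : Set (Set ℕ)) (q i - q')
  rw [h4, map_add]
  refine lt_of_le_of_lt (abs_add_le _ _) ?_
  have h5 : |ψ.1 (RQ (F : Set (Set ℕ)) (q i - q'))| < ε / 2 :=
    lt_of_le_of_lt ((ψ.2 _).trans (RQ_fin_norm F _)) hi
  have h6 : |ψ.1 (RQ ((F : Set (Set ℕ))ᶜ) (q i - q'))| ≤ ε / 2 := by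
    refine (hF _ ?_).trans ?_
    · intro b hb
      rw [RQ_coe]
      simp [hb]
    · have h7 : ‖RQ ((F : Set (Set ℕ))ᶜ) (q i - q')‖ ≤ 2 * C := by
        refine (RQ_norm _ _).trans ((norm_sub_le _ _).trans ?_)
        have := hC i
        linarith
      calc ε / (4 * (C + 1)) * ‖RQ ((F : Set (Set ℕ))ᶜ) (q i - q')‖ ≤
          ε / (4 * (C + 1)) * (2 * C) := mul_le_mul_of_nonneg_left h7 (by positivity)
        _ ≤ ε / 2 := by
          rw [div_mul_eq_mul_div, div_le_div_iff₀ (by positivity) (by norm_num)]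
          nlinarith
  linarith

end

end Pool.Agent.Helper52.Tj
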