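import Mathlib

open Filter Topology

namespace Pool.Agent.Helper52.Tj

section
variable {V : Type} [AddCommGroup V] [Module ℝ V] {J : Type} (p : J → Seminorm ℝ V)

/-- the vectors on which all the seminorms are uniformly bounded -/
def SupSub : Submodule ℝ V where
  carrier := {v | ∃ M, ∀ j, p j v ≤ M}
  add_mem' := by
    rintro a b ⟨M, hM⟩ ⟨N, hN⟩
    exact ⟨M + N, fun j => (map_add_le_add (p j) a b).trans (add_le_add (hM j) (hN j))⟩
  zero_mem' := ⟨0, fun j => by simp⟩
  smul_mem' := by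
    rintro c x ⟨M, hM⟩
    refine ⟨‖c‖ * M, fun j => ?_⟩
    rw [map_smul_eq_mul]
    exact mul_le_mul_of_nonneg_left (hM j) (norm_nonneg _)

/-- the space of vectors with finite supremum norm -/
def SupSp : Type := ↥(SupSub p)

noncomputable instance : AddCommGroup (SupSp p) := inferInstanceAs (AddCommGroup ↥(SupSub p))
noncomputable instance : Module ℝ (SupSp p) := inferInstanceAs (Module ℝ ↥(SupSub p))

theorem SupSp.bdd (v : SupSp p) : BddAbove (Set.range fun j => p j v.1) := by
  obtain ⟨M, hM⟩ := v.2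
  exact ⟨M, by rintro _ ⟨j, rfl⟩; exact hM j⟩

theorem SupSp.coe_add (v w : SupSp p) : (v + w).1 = v.1 + w.1 := rfl
theorem SupSp.coe_sub (v w : SupSp p) : (v - w).1 = v.1 - w.1 := rfl
theorem SupSp.coe_neg (v : SupSp p) : (-v).1 = -v.1 := rfl
theorem SupSp.coe_zero : (0 : SupSp p).1 = 0 := rfl
theorem SupSp.coe_smul (t : ℝ) (v : SupSp p) : (t • v).1 = t • v.1 := rfl

/-- the supremum seminorm -/
noncomputable def supNorm : Seminorm ℝ (SupSp p) :=
  Seminorm.of (fun v => ⨆ j, p j v.1)
    (by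
      intro v w
      refine Real.iSup_le (fun j => ?_)
        (add_nonneg (Real.iSup_nonneg fun j => apply_nonneg _ _)
          (Real.iSup_nonneg fun j => apply_nonneg _ _))
      rw [SupSp.coe_add]
      exact (map_add_le_add (p j) _ _).trans
        (add_le_add (le_ciSup (SupSp.bdd p v) j) (le_ciSup (SupSp.bdd p w) j)))
    (by
      intro t v
      simp only [SupSp.coe_smul, map_smul_eq_mul]
      rw [Real.mul_iSup_of_nonneg (norm_nonneg t)])

noncomputable instance : SeminormedAddCommGroup (SupSp p) :=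
  (supNorm p).toAddGroupSeminorm.toSeminormedAddCommGroup

theorem SupSp.norm_def (v : SupSp p) : ‖v‖ = ⨆ j, p j v.1 := rfl

noncomputable instance : NormedSpace ℝ (SupSp p) where
  norm_smul_le t v := by
    have := map_smul_eq_mul (supNorm p) t v
    exact this.le

theorem SupSp.le_norm (v : SupSp p) (j : J) : p j v.1 ≤ ‖v‖ := le_ciSup (SupSp.bdd p v) j

theorem SupSp.norm_le {v : SupSp p} {C : ℝ} (hC : 0 ≤ C) (h : ∀ j, p j v.1 ≤ C) : ‖v‖ ≤ C :=
  Real.iSup_le h hC

theorem SupSp.lt_norm {v : SupSp p} {c : ℝ} (hc : 0 ≤ c) (h : c < ‖v‖) : ∃ j, c < p j v.1 := by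
  by_contra hcon
  push Not at hcon
  exact absurd (SupSp.norm_le p hc hcon) (not_le.mpr h)

end

end Pool.Agent.Helper52.Tj
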