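import Pool.Agent.Helper52.TjDefs

open Filter Topology

namespace Pool.Agent.Helper52.Tj

namespace IsTsirelsonNorm

variable {s : ℕ} {N : (ℕ →₀ ℝ) → ℝ} (hN : IsTsirelsonNorm s N)

include hN

theorem abs_le (x : ℕ →₀ ℝ) (i : ℕ) : |x i| ≤ N x :=
  (hN.isLUB x).1 (Or.inl ⟨i, rfl⟩)

theorem nonneg (x : ℕ →₀ ℝ) : 0 ≤ N x := (abs_nonneg _).trans (hN.abs_le x 0)

theorem zero : N 0 = 0 := by
  have := hN.smul_eq 0 0
  simpa using this

theorem neg (x : ℕ →₀ ℝ) : N (-x) = N x := by
  have := hN.smul_eq (-1) x
  simpa using this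

theorem lower (x : ℕ →₀ ℝ) {n : ℕ} {E : Fin n → Finset ℕ} (hE : Admissible s n E) :
    1 / 2 * ∑ j, N (x.filter (fun i => i ∈ E j)) ≤ N x :=
  (hN.isLUB x).1 (Or.inr ⟨n, E, hE, rfl⟩)

theorem le_of (x : ℕ →₀ ℝ) {B : ℝ} (h1 : ∀ i, |x i| ≤ B)
    (h2 : ∀ (n : ℕ) (E : Fin n → Finset ℕ), Admissible s n E →
      1 / 2 * ∑ j, N (x.filter (fun i => i ∈ E j)) ≤ B) : N x ≤ B := by
  refine (hN.isLUB x).2 ?_
  rintro r (⟨i, rfl⟩ | ⟨n, E, hE, rfl⟩)
  · exact h1 i
  · exact h2 n E hE

theorem sum_le {ι : Type*} (S : Finset ι) (f : ι → ℕ →₀ ℝ) :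
    N (∑ i ∈ S, f i) ≤ ∑ i ∈ S, N (f i) := by
  classical
  induction S using Finset.induction_on with
  | empty => simp [hN.zero]
  | insert i S hi ih =>
    rw [Finset.sum_insert hi, Finset.sum_insert hi]
    exact (hN.add_le _ _).trans (by linarith)

/-- the norm is monotone in the moduli of the coordinates -/
theorem mono_aux : ∀ (m : ℕ) (x y : ℕ →₀ ℝ), y.support.card ≤ m → (∀ i, |x i| ≤ |y i|) →
    N x ≤ N y := by
  intro m
  induction m with
  | zero =>
    intro x y hm h
    have hy : y = 0 := by
      have : y.support = ∅ := Finset.card_eq_zero.mp (by omega)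
      exact Finsupp.support_eq_empty.mp this
    have hx : x = 0 := by
      ext i
      have := h i
      rw [hy] at this
      simpa using this
    rw [hx, hy]
  | succ m ih =>
    intro x y hm h
    have hsub : x.support ⊆ y.support := by
      intro i hi
      rw [Finsupp.mem_support_iff] at hi ⊢
      intro h0
      have := h i
      rw [h0, abs_zero] at this
      exact hi (abs_eq_zero.mp (le_antisymm this (abs_nonneg _)))
    have key : N x ≤ max (N y) (1 / 2 * N x) := by
      refine hN.le_of x (fun i => ?_) (fun n E hE => ?_)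
      · exact ((h i).trans (hN.abs_le y i)).trans (le_max_left _ _)
      · by_cases hall : ∃ j0, y.support ⊆ E j0
        · obtain ⟨j0, hj0⟩ := hall
          refine le_trans ?_ (le_max_right _ _)
          have h1 : ∀ j, j ≠ j0 → x.filter (fun i => i ∈ E j) = 0 := by
            intro j hj
            ext i
            rw [Finsupp.filter_apply]
            split_ifs with h2
            · by_contra h3
              have h4 : i ∈ x.support := Finsupp.mem_support_iff.mpr h3
              have h5 := hj0 (hsub h4)
              rcases lt_or_gt_of_ne hj with h6 | h6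
              · exact lt_irrefl _ (hE.2 _ _ h6 i h2 i h5)
              · exact lt_irrefl _ (hE.2 _ _ h6 i h5 i h2)
            · rfl
          have h2 : x.filter (fun i => i ∈ E j0) = x := by
            rw [Finsupp.filter_eq_self_iff]
            intro i hi
            exact hj0 (hsub (Finsupp.mem_support_iff.mpr hi))
          rw [Finset.sum_eq_single j0 (fun j _ hj => by rw [h1 j hj, hN.zero])
            (fun h => (h (Finset.mem_univ _)).elim), h2]
        · push Not at hall
          refine le_trans ?_ (le_max_left _ _)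
          refine le_trans ?_ (hN.lower y hE)
          refine mul_le_mul_of_nonneg_left (Finset.sum_le_sum fun j _ => ?_) (by norm_num)
          refine ih _ _ ?_ ?_
          · have h1 : (y.filter (fun i => i ∈ E j)).support ⊂ y.support := by
              rw [Finsupp.support_filter]
              refine (Finset.filter_ssubset).mpr ?_
              have := hall j
              rw [Finset.not_subset] at this
              exact this
            have := Finset.card_lt_card h1
            omega
          · intro i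
            rw [Finsupp.filter_apply, Finsupp.filter_apply]
            split_ifs
            · exact h i
            · simp
    rcases le_max_iff.mp key with h1 | h1
    · exact h1
    · have := hN.nonneg y
      linarith

theorem mono {x y : ℕ →₀ ℝ} (h : ∀ i, |x i| ≤ |y i|) : N x ≤ N y :=
  hN.mono_aux _ x y le_rfl h

theorem filter_le (x : ℕ →₀ ℝ) (P : ℕ → Prop) [DecidablePred P] : N (x.filter P) ≤ N x := by
  refine hN.mono fun i => ?_
  rw [Finsupp.filter_apply]
  split_ifs
  · exact le_rfl
  · simp

theorem single_one (i : ℕ) : N (Finsupp.single i 1) ≤ 1 := by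
  have key : N (Finsupp.single i 1) ≤ max 1 (1 / 2 * N (Finsupp.single i 1)) := by
    refine hN.le_of _ (fun j => ?_) (fun n E hE => ?_)
    · refine le_trans ?_ (le_max_left _ _)
      rw [Finsupp.single_apply]
      split_ifs <;> simp
    · by_cases hex : ∃ j0, i ∈ E j0
      · obtain ⟨j0, hj0⟩ := hex
        refine le_trans ?_ (le_max_right _ _)
        rw [Finset.sum_eq_single j0]
        · exact mul_le_mul_of_nonneg_left (hN.filter_le _ _) (by norm_num)
        · intro j _ hj
          have : (Finsupp.single i (1 : ℝ)).filter (fun i => i ∈ E j) = 0 := by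
            rw [Finsupp.filter_single_of_neg]
            intro h2
            rcases lt_or_gt_of_ne hj with h6 | h6
            · exact lt_irrefl _ (hE.2 _ _ h6 i h2 i hj0)
            · exact lt_irrefl _ (hE.2 _ _ h6 i hj0 i h2)
          rw [this, hN.zero]
        · exact fun h => (h (Finset.mem_univ _)).elim
      · push Not at hex
        refine le_trans ?_ (le_max_left _ _)
        rw [Finset.sum_eq_zero]
        · norm_num
        · intro j _
          rw [Finsupp.filter_single_of_neg _ (hex j), hN.zero]
  rcases le_max_iff.mp key with h1 | h1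
  · exact h1
  · have := hN.nonneg (Finsupp.single i 1)
    linarith

/-- The Figiel–Johnson computation. -/
theorem fj (u0 : ℕ →₀ ℝ) (p : ℕ) (hp : ∀ i, p ≤ i → u0 i = 0) (r : ℕ) (hr : 0 < r)
    (u : ℕ → ℕ →₀ ℝ) (hu0 : ∀ j, ∀ i, i < p → u j i = 0)
    (hu : ∀ j l, j < l → ∀ i, u j i ≠ 0 → ∀ i', u l i' ≠ 0 → i < i')
    (θ : ℝ) (h0 : N u0 ≤ θ) (h1 : ∀ j, N (u j) ≤ θ) :
    N (u0 + (1 / (r : ℝ)) • ∑ j ∈ Finset.range r, u j) ≤
      θ * (3 / 2 + ((p : ℝ) + s + 1) / r) := by
  classical
  have hrpos : (0 : ℝ) < r := by exact_mod_cast hr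
  have hθ : 0 ≤ θ := (hN.nonneg _).trans h0
  set v : ℕ →₀ ℝ := (1 / (r : ℝ)) • ∑ j ∈ Finset.range r, u j with hv
  have hNv : N v ≤ θ := by
    rw [hv, hN.smul_eq, abs_of_pos (by positivity)]
    have h2 := (hN.sum_le (Finset.range r) u).trans
      (Finset.sum_le_card_nsmul _ _ θ fun j _ => h1 j)
    rw [Finset.card_range, nsmul_eq_mul] at h2
    rw [one_div, inv_mul_le_iff₀ hrpos]
    exact h2
  have hvi : ∀ i, |v i| ≤ θ / r := by
    intro i
    have h2 : |∑ j ∈ Finset.range r, u j i| ≤ θ := by
      by_cases h3 : ∃ j ∈ Finset.range r, u j i ≠ 0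
      · obtain ⟨j, hj, hj'⟩ := h3
        rw [Finset.sum_eq_single j]
        · exact (hN.abs_le _ _).trans (h1 j)
        · intro l _ hl
          by_contra h4
          rcases lt_or_gt_of_ne hl with h5 | h5
          · exact lt_irrefl _ (hu l j h5 i h4 i hj')
          · exact lt_irrefl _ (hu j l h5 i hj' i h4)
        · exact fun h => (h hj).elim
      · push Not at h3
        rw [Finset.sum_eq_zero h3]
        simpa using hθ
    have e : v i = (1 / (r : ℝ)) * ∑ j ∈ Finset.range r, u j i := by
      rw [hv, Finsupp.smul_apply, Finsupp.finset_sum_apply, smul_eq_mul]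
    rw [e, abs_mul, abs_of_pos (by positivity : (0 : ℝ) < 1 / r), one_div, inv_mul_le_iff₀ hrpos]
    calc _ ≤ θ := h2
      _ = (r : ℝ) * (θ / r) := by field_simp
  have hbig : θ + θ / r ≤ θ * (3 / 2 + ((p : ℝ) + s + 1) / r) := by
    have h2 : θ * (3 / 2 + ((p : ℝ) + s + 1) / r) = θ + θ / r + (θ / 2 + θ * (((p : ℝ) + s) / r)) := by
      field_simp
      ring
    rw [h2]
    have : 0 ≤ θ / 2 + θ * (((p : ℝ) + s) / r) := by positivity
    linarith
  refine hN.le_of _ (fun i => ?_) (fun n E hE => ?_)
  · rw [Finsupp.add_apply]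
    refine (abs_add_le _ _).trans (le_trans (add_le_add ((hN.abs_le u0 i).trans h0) (hvi i)) hbig)
  · have hsplit : 1 / 2 * ∑ j, N ((u0 + v).filter (fun i => i ∈ E j)) ≤
        1 / 2 * ∑ j, N (u0.filter (fun i => i ∈ E j)) +
        1 / 2 * ∑ j, N (v.filter (fun i => i ∈ E j)) := by
      rw [← mul_add, ← Finset.sum_add_distrib]
      refine mul_le_mul_of_nonneg_left (Finset.sum_le_sum fun j _ => ?_) (by norm_num)
      rw [Finsupp.filter_add]
      exact hN.add_le _ _
    by_cases hn : p + s < n
    · have h2 : ∀ j, u0.filter (fun i => i ∈ E j) = 0 := by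
        intro j
        ext i
        rw [Finsupp.filter_apply]
        split_ifs with h3
        · have := hE.1 j i h3
          exact hp i (by omega)
        · rfl
      have h3 : 1 / 2 * ∑ j, N (u0.filter (fun i => i ∈ E j)) = 0 := by
        simp [h2, hN.zero]
      have h4 := hN.lower v hE
      have h5 : 0 ≤ θ / r := by positivity
      linarith
    · push Not at hn
      have h2 := hN.lower u0 hE
      -- the second part
      have h3 : ∀ l, 1 / 2 * ∑ j, N ((u l).filter (fun i => i ∈ E j)) ≤ θ := fun l =>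
        (hN.lower (u l) hE).trans (h1 l)
      -- good indices
      let bad : Finset ℕ := (Finset.range r).filter (fun l =>
        ∃ j j' : Fin n, j < j' ∧ (∃ i ∈ E j, u l i ≠ 0) ∧ ∃ i ∈ E j', u l i ≠ 0)
      have hgood : ∀ l ∈ Finset.range r, l ∉ bad →
          1 / 2 * ∑ j, N ((u l).filter (fun i => i ∈ E j)) ≤ θ / 2 := by
        intro l hl hb
        have hb' : ∀ j j' : Fin n, j < j' → ¬ ((∃ i ∈ E j, u l i ≠ 0) ∧
            ∃ i ∈ E j', u l i ≠ 0) := by
          intro j j' hjj' h
          exact hb (Finset.mem_filter.mpr ⟨hl, j, j', hjj', h.1, h.2⟩)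
        by_cases hex : ∃ j0, ∃ i ∈ E j0, u l i ≠ 0
        · obtain ⟨j0, hj0⟩ := hex
          rw [Finset.sum_eq_single j0]
          · have := (hN.filter_le (u l) (fun i => i ∈ E j0)).trans (h1 l)
            linarith
          · intro j _ hj
            have h4 : ¬ ∃ i ∈ E j, u l i ≠ 0 := by
              intro h5
              rcases lt_or_gt_of_ne hj with h6 | h6
              · exact hb' _ _ h6 ⟨h5, hj0⟩
              · exact hb' _ _ h6 ⟨hj0, h5⟩
            push Not at h4
            have : (u l).filter (fun i => i ∈ E j) = 0 := by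
              ext i
              rw [Finsupp.filter_apply]
              split_ifs with h5
              · exact h4 i h5
              · rfl
            rw [this, hN.zero]
          · exact fun h => (h (Finset.mem_univ _)).elim
        · push Not at hex
          rw [Finset.sum_eq_zero]
          · rw [mul_zero]; positivity
          · intro j _
            have : (u l).filter (fun i => i ∈ E j) = 0 := by
              ext i
              rw [Finsupp.filter_apply]
              split_ifs with h5
              · exact hex j i h5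
              · rfl
            rw [this, hN.zero]
      have hcard : bad.card ≤ n := by
        have hmem : ∀ l ∈ bad, ∃ j : Fin n, (∃ i ∈ E j, u l i ≠ 0) ∧
            ∃ j', j < j' ∧ ∃ i ∈ E j', u l i ≠ 0 := by
          intro l hl
          obtain ⟨_, j, j', h4, h5, h6⟩ := Finset.mem_filter.mp hl
          exact ⟨j, h5, j', h4, h6⟩
        rcases bad.eq_empty_or_nonempty with hb0 | ⟨l0, hl0⟩
        · rw [hb0]; simp
        obtain ⟨j00, _⟩ := hmem l0 hl0
        haveI : Nonempty (Fin n) := ⟨j00⟩
        choose! g hg1 hg2 using hmem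
        have hinj : Set.InjOn g (bad : Set ℕ) := by
          have haux : ∀ l ∈ bad, ∀ l' ∈ bad, l < l' → g l ≠ g l' := by
            intro l hl l' hl' hll' he
            obtain ⟨j', hj', i, hi, hi'⟩ := hg2 l hl
            obtain ⟨i', hi1, hi2⟩ := hg1 l' hl'
            rw [← he] at hi1
            have h4 := hE.2 _ _ hj' i' hi1 i hi
            have h5 := hu l l' hll' i hi' i' hi2
            omega
          intro l hl l' hl' he
          by_contra hne
          rcases lt_or_gt_of_ne hne with h4 | h4
          · exact haux l hl l' hl' h4 he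
          · exact haux l' hl' l hl h4 he.symm
        have := Finset.card_le_card_of_injOn (s := bad) (t := Finset.univ) g
          (fun _ _ => by simp) hinj
        simpa using this
      have h5 : 1 / 2 * ∑ j, N (v.filter (fun i => i ∈ E j)) ≤
          θ / 2 + θ * (((p : ℝ) + s) / r) := by
        have h6 : ∀ j, N (v.filter (fun i => i ∈ E j)) ≤
            (1 / (r : ℝ)) * ∑ l ∈ Finset.range r, N ((u l).filter (fun i => i ∈ E j)) := by
          intro j
          rw [hv, Finsupp.filter_smul, hN.smul_eq, abs_of_pos (by positivity)]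
          refine mul_le_mul_of_nonneg_left ?_ (by positivity)
          have h7 : (∑ l ∈ Finset.range r, u l).filter (fun i => i ∈ E j) =
              ∑ l ∈ Finset.range r, (u l).filter (fun i => i ∈ E j) := by
            ext i
            simp only [Finsupp.filter_apply, Finsupp.finset_sum_apply]
            split_ifs
            · rfl
            · simp
          rw [h7]
          exact hN.sum_le _ _
        have h8 : 1 / 2 * ∑ j, N (v.filter (fun i => i ∈ E j)) ≤
            (1 / (r : ℝ)) * ∑ l ∈ Finset.range r,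
              (1 / 2 * ∑ j, N ((u l).filter (fun i => i ∈ E j))) := by
          calc 1 / 2 * ∑ j, N (v.filter (fun i => i ∈ E j)) ≤
              1 / 2 * ∑ j, ((1 / (r : ℝ)) * ∑ l ∈ Finset.range r,
                N ((u l).filter (fun i => i ∈ E j))) :=
                mul_le_mul_of_nonneg_left (Finset.sum_le_sum fun j _ => h6 j) (by norm_num)
            _ = _ := by
                rw [← Finset.mul_sum, Finset.sum_comm, ← Finset.mul_sum]
                ring
        refine h8.trans ?_
        have h9 : ∑ l ∈ Finset.range r, (1 / 2 * ∑ j, N ((u l).filter (fun i => i ∈ E j))) ≤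
            ∑ l ∈ Finset.range r, (θ / 2 + if l ∈ bad then θ else 0) := by
          refine Finset.sum_le_sum fun l hl => ?_
          split_ifs with hb
          · have := h3 l
            linarith
          · have := hgood l hl hb
            linarith
        have h10 : ∑ l ∈ Finset.range r, (θ / 2 + if l ∈ bad then θ else 0) =
            r * (θ / 2) + bad.card * θ := by
          have hfb : (Finset.range r).filter (fun l => l ∈ bad) = bad := by
            ext l
            rw [Finset.mem_filter]
            exact ⟨fun h => h.2, fun h => ⟨(Finset.mem_filter.mp h).1, h⟩⟩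
          rw [Finset.sum_add_distrib, Finset.sum_const, Finset.card_range, nsmul_eq_mul,
            ← Finset.sum_filter, Finset.sum_const, nsmul_eq_mul, hfb]
        rw [h10] at h9
        have h11 : (bad.card : ℝ) ≤ (p : ℝ) + s := by
          have : bad.card ≤ p + s := hcard.trans hn
          exact_mod_cast this
        calc (1 / (r : ℝ)) * ∑ l ∈ Finset.range r,
              (1 / 2 * ∑ j, N ((u l).filter (fun i => i ∈ E j))) ≤
            (1 / (r : ℝ)) * (r * (θ / 2) + ((p : ℝ) + s) * θ) := by
              refine mul_le_mul_of_nonneg_left (h9.trans ?_) (by positivity)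
              have := mul_le_mul_of_nonneg_right h11 hθ
              linarith
          _ = _ := by field_simp
      have h6 : θ * (3 / 2 + ((p : ℝ) + s + 1) / r) = θ + (θ / 2 + θ * (((p : ℝ) + s) / r)) + θ / r := by
        field_simp
        ring
      rw [h6]
      have h7 : 0 ≤ θ / r := by positivity
      linarith

/-- Block sequences in the Tsirelson space do not generate `ℓ_1`. -/
theorem no_l1 (y : ℕ → ℕ →₀ ℝ) (hy : ∀ k, N (y k) ≤ 1)
    (hsupp : ∀ k i, i < k → y k i = 0) (δ : ℝ) (hδ : 0 < δ)
    (h : ∀ u ∈ convexHull ℝ (Set.range y), δ ≤ N u) : False := by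
  classical
  let H : ℕ → Set (ℕ →₀ ℝ) := fun n => convexHull ℝ (y '' Set.Ici n)
  have hH0 : ∀ n, H n ⊆ convexHull ℝ (Set.range y) := fun n =>
    convexHull_mono (Set.image_subset_range _ _)
  have hHmono : ∀ m n, m ≤ n → H n ⊆ H m := fun m n hmn =>
    convexHull_mono (Set.image_mono (Set.Ici_subset_Ici.mpr hmn))
  have hHy : ∀ n, y n ∈ H n := fun n => subset_convexHull ℝ _ ⟨n, Set.mem_Ici.mpr le_rfl, rfl⟩
  have hHsupp : ∀ n, ∀ u ∈ H n, ∀ i, i < n → u i = 0 := by
    intro n u hu i hi
    have hconv : Convex ℝ {u : ℕ →₀ ℝ | u i = 0} := by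
      intro a ha b hb t t' _ _ _
      simp only [Set.mem_setOf_eq] at ha hb ⊢
      simp [ha, hb]
    have hsub : y '' Set.Ici n ⊆ {u : ℕ →₀ ℝ | u i = 0} := by
      rintro _ ⟨k, hk, rfl⟩
      exact hsupp k i (lt_of_lt_of_le hi hk)
    exact convexHull_min hsub hconv hu
  let I : ℕ → ℝ := fun n => sInf (N '' H n)
  have hbdd : ∀ n, BddBelow (N '' H n) := fun n =>
    ⟨0, by rintro _ ⟨u, _, rfl⟩; exact hN.nonneg u⟩
  have hne : ∀ n, (N '' H n).Nonempty := fun n => ⟨_, y n, hHy n, rfl⟩
  have hI1 : ∀ n, I n ≤ 1 := fun n => (csInf_le (hbdd n) ⟨y n, hHy n, rfl⟩).trans (hy n)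
  have hIδ : ∀ n, δ ≤ I n := fun n => le_csInf (hne n) (by
    rintro _ ⟨u, hu, rfl⟩
    exact h u (hH0 n hu))
  have hIbdd : BddAbove (Set.range I) := ⟨1, by rintro _ ⟨n, rfl⟩; exact hI1 n⟩
  set L : ℝ := sSup (Set.range I) with hL
  have hLI : ∀ n, I n ≤ L := fun n => le_csSup hIbdd ⟨n, rfl⟩
  have hLpos : 0 < L := hδ.trans_le ((hIδ 0).trans (hLI 0))
  obtain ⟨_, ⟨n, rfl⟩, hn⟩ := exists_lt_of_lt_csSup (Set.range_nonempty I)
    (show 15 / 16 * L < sSup (Set.range I) by rw [← hL]; linarith)
  have hpick : ∀ m, ∃ u ∈ H m, N u ≤ 17 / 16 * L := by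
    intro m
    have h1 : sInf (N '' H m) < 17 / 16 * L := by
      have := hLI m
      change I m < _
      linarith
    obtain ⟨_, ⟨u, hu, rfl⟩, hu'⟩ := exists_lt_of_csInf_lt (hne m) h1
    exact ⟨u, hu, hu'.le⟩
  obtain ⟨u0, hu0, hu0'⟩ := hpick n
  set p : ℕ := u0.support.sup id + 1 with hp
  have hpu : ∀ i, p ≤ i → u0 i = 0 := by
    intro i hi
    by_contra h1
    have h2 : i ≤ u0.support.sup id :=
      Finset.le_sup (f := id) (Finsupp.mem_support_iff.mpr h1)
    omega
  obtain ⟨f, hf1, hf2⟩ := exists_seq_of_forall_finset_exists (α := ℕ →₀ ℝ)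
    (fun u => u ∈ H (max n p) ∧ N u ≤ 17 / 16 * L)
    (fun u u' => ∀ i, u i ≠ 0 → ∀ i', u' i' ≠ 0 → i < i') (by
      intro S _
      set m := S.sup (fun u : ℕ →₀ ℝ => u.support.sup id) + 1 with hm
      obtain ⟨u, hu, hu'⟩ := hpick (max (max n p) m)
      refine ⟨u, ⟨hHmono _ _ (le_max_left _ _) hu, hu'⟩, ?_⟩
      intro w hw i hi i' hi'
      have h1 : i ≤ w.support.sup id :=
        Finset.le_sup (f := id) (Finsupp.mem_support_iff.mpr hi)
      have h2 : w.support.sup id ≤ S.sup (fun u : ℕ →₀ ℝ => u.support.sup id) :=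
        Finset.le_sup (f := fun u : ℕ →₀ ℝ => u.support.sup id) hw
      by_contra h3
      push Not at h3
      exact hi' (hHsupp _ u hu i' (lt_of_lt_of_le (by omega) (le_max_right _ _))))
  set r : ℕ := 16 * (p + s + 1) with hr
  have hrpos : 0 < r := by omega
  have hfj := hN.fj u0 p hpu r hrpos f
    (fun j i hi => hHsupp _ _ (hf1 j).1 i (lt_of_lt_of_le hi (le_max_right _ _)))
    (fun j l hjl => hf2 j l hjl) (17 / 16 * L) hu0' (fun j => (hf1 j).2)
  have hrr : ((p : ℝ) + s + 1) / r = 1 / 16 := by
    rw [hr]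
    push_cast
    have : (0 : ℝ) < (p : ℝ) + s + 1 := by positivity
    field_simp
  rw [hrr] at hfj
  -- the average
  have hconv := convex_convexHull ℝ (y '' Set.Ici n)
  have hv : (1 / (r : ℝ)) • ∑ j ∈ Finset.range r, f j ∈ H n := by
    have h1 := hconv.sum_mem (t := Finset.range r) (w := fun _ => 1 / (r : ℝ)) (z := f)
      (fun _ _ => by positivity) (by
        rw [Finset.sum_const, Finset.card_range, nsmul_eq_mul]
        have : (r : ℝ) ≠ 0 := by positivity
        field_simp) (fun j _ => hHmono _ _ (le_max_left _ _) (hf1 j).1)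
    rw [← Finset.smul_sum] at h1
    exact h1
  have hx : (1 / 2 : ℝ) • (u0 + (1 / (r : ℝ)) • ∑ j ∈ Finset.range r, f j) ∈ H n := by
    rw [smul_add]
    exact hconv hu0 hv (by norm_num) (by norm_num) (by norm_num)
  have h1 : I n ≤ N ((1 / 2 : ℝ) • (u0 + (1 / (r : ℝ)) • ∑ j ∈ Finset.range r, f j)) :=
    csInf_le (hbdd n) ⟨_, hx, rfl⟩
  rw [hN.smul_eq, abs_of_pos (by norm_num)] at h1
  have h2 : (15 / 16 * L) < I n := hn
  nlinarith

end IsTsirelsonNorm

end Pool.Agent.Helper52.Tj
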