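import Pool.Agent.Helper52.TjMain
import Pool.Agent.Helper52.TjGood

open Filter Topology ZeroAtInfty

namespace Pool.Agent.Helper52.Tj

/-- the tree order transported to the natural numbers -/
def treeOf (o : List Bool ≃ ℕ) (ho : ∀ α β, α <+: β → α ≠ β → o α < o β) : TreeOrd where
  le m n := o.symm m <+: o.symm n
  refl _ := List.prefix_refl _
  trans _ _ _ h h' := h.trans h'
  le_nat m n h := by
    by_cases he : o.symm m = o.symm n
    · exact (o.symm.injective he).le
    · have := ho _ _ h he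
      rw [Equiv.apply_symm_apply, Equiv.apply_symm_apply] at this
      exact this.le
  lin _ _ _ h h' := List.prefix_or_prefix_of_prefix h h'

section
variable (o : List Bool ≃ ℕ) (ho : ∀ α β, α <+: β → α ≠ β → o α < o β)

/-- a segment of the tree as a set of integers -/
def sgN (α β : List Bool) : Set ℕ := {n | o.symm n ∈ segment α β}

theorem sgN_seg (α β : List Bool) : IsSeg (treeOf o ho) (o α) (sgN o α β) where
  ge γ hγ := by
    change o.symm (o α) <+: o.symm γ
    rw [Equiv.symm_apply_apply]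
    exact hγ.1
  conv γ hγ δ h1 h2 := by
    change o.symm (o α) <+: o.symm δ at h1
    change o.symm δ <+: o.symm γ at h2
    rw [Equiv.symm_apply_apply] at h1
    exact ⟨h1, h2.trans hγ.2⟩
  chain γ hγ δ hδ := List.prefix_or_prefix_of_prefix hγ.2 hδ.2

theorem segSum_eq (S : Set (List Bool)) (x : List Bool →₀ ℝ) (N : ℕ)
    (hN : ∀ γ ∈ x.support, o γ < N) :
    segSum S x = sm {n | o.symm n ∈ S} N (fun n => x (o.symm n)) := by
  classical
  unfold segSum sm
  rw [Finset.sum_filter]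
  have h1 : x.support ⊆ (Finset.range N).map o.symm.toEmbedding := by
    intro γ hγ
    rw [Finset.mem_map]
    exact ⟨o γ, Finset.mem_range.mpr (hN γ hγ), by simp⟩
  rw [Finset.sum_subset h1, Finset.sum_map]
  · refine Finset.sum_congr rfl fun n _ => ?_
    by_cases h : o.symm n ∈ S <;> simp [h]
  · intro γ _ hγ
    rw [Finsupp.notMem_support_iff.mp hγ]
    simp

variable {nE : (ℕ →₀ ℝ) → ℝ} (h : IsGood nE)

/-- the inclusion of the finitely supported functions -/
noncomputable def J : (List Bool →₀ ℝ) →ₗ[ℝ] XS h.toUN (treeOf o ho) :=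
  Finsupp.linearCombination ℝ (fun γ => dl h.toUN (treeOf o ho) (o γ))

theorem J_coe (x : List Bool →₀ ℝ) : (J o ho h x).1 = fun n => x (o.symm n) := by
  induction x using Finsupp.induction_linear with
  | zero => rw [map_zero]; rfl
  | add f g hf hg =>
    rw [map_add, SupSp.coe_add, hf, hg]
    rfl
  | single γ t =>
    unfold J
    rw [Finsupp.linearCombination_single, SupSp.coe_smul]
    ext n
    rw [Pi.smul_apply]
    change t • (Pi.single (o γ) (1 : ℝ) : ℕ → ℝ) n = _
    by_cases hn : n = o γ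
    · subst hn
      simp
    · have h1 : ¬ γ = o.symm n := by
        rintro rfl
        exact hn (by simp)
      rw [Pi.single_eq_of_ne hn, Finsupp.single_apply, if_neg h1, smul_zero]

theorem exists_supp_bound (x : List Bool →₀ ℝ) (N0 : ℕ) :
    ∃ N, N0 ≤ N ∧ ∀ γ ∈ x.support, o γ < N := by
  refine ⟨max N0 (x.support.sup o + 1), le_max_left _ _, fun γ hγ => ?_⟩
  have : o γ ≤ x.support.sup o := Finset.le_sup (f := o) hγ
  exact lt_of_lt_of_le (by omega) (le_max_right _ _)

theorem jt_le_norm (x : List Bool →₀ ℝ) (k : ℕ) (α β : Fin k → List Bool)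
    (h1 : ∀ i, α i <+: β i)
    (h2 : ∀ i j, i ≠ j → Disjoint (segment (α i) (β i)) (segment (α j) (β j))) :
    nE (∑ i, Finsupp.single (o (α i)) (segSum (segment (α i) (β i)) x)) ≤ ‖J o ho h x‖ := by
  classical
  obtain ⟨N, -, hN⟩ := exists_supp_bound o x 0
  have hinj : ∀ i j, o (α i) = o (α j) → i = j := by
    intro i j hij
    by_contra hne
    have h3 : α i = α j := o.injective hij
    have h4 : α i ∈ segment (α i) (β i) := ⟨List.prefix_refl _, h1 i⟩
    have h5 : α i ∈ segment (α j) (β j) := by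
      rw [h3]
      exact ⟨List.prefix_refl _, h1 j⟩
    exact Set.disjoint_left.mp (h2 i j hne) h4 h5
  let A : Finset ℕ := Finset.univ.image (fun i => o (α i))
  let s : ℕ → Set ℕ := fun a => {n | ∃ i, o (α i) = a ∧ n ∈ sgN o (α i) (β i)}
  have hs : ∀ i, s (o (α i)) = sgN o (α i) (β i) := by
    intro i
    ext n
    constructor
    · rintro ⟨j, hj, hn⟩
      rw [hinj j i hj] at hn
      exact hn
    · intro hn
      exact ⟨i, rfl, hn⟩
  have hfam := fam_le (J o ho h x) A s (by
      intro a ha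
      obtain ⟨i, _, rfl⟩ := Finset.mem_image.mp ha
      rw [hs]
      exact sgN_seg o ho _ _) (by
      intro a ha b hb hab
      obtain ⟨i, _, rfl⟩ := Finset.mem_image.mp ha
      obtain ⟨j, _, rfl⟩ := Finset.mem_image.mp hb
      rw [hs, hs, Set.disjoint_left]
      intro n hn hn'
      exact Set.disjoint_left.mp (h2 i j (fun hij => hab (by rw [hij]))) hn hn') N
  rw [h.toUN_n] at hfam
  refine le_trans (le_of_eq ?_) hfam
  congr 1
  unfold vec
  rw [Finset.sum_image (fun i _ j _ hij => hinj i j hij)]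
  refine Finset.sum_congr rfl fun i _ => ?_
  have e1 : segSum (segment (α i) (β i)) x = sm (s (o (α i))) N (J o ho h x).1 := by
    rw [hs i, segSum_eq o _ x N hN]
    have := J_coe o ho h x
    exact congrArg (sm (sgN o (α i) (β i)) N) this.symm
  rw [e1]

include ho h in
theorem jt_bdd (x : List Bool →₀ ℝ) :
    BddAbove {r | ∃ (k : ℕ) (α β : Fin k → List Bool), (∀ i, α i <+: β i) ∧
    (∀ i j, i ≠ j → Disjoint (segment (α i) (β i)) (segment (α j) (β j))) ∧
    r = nE (∑ i, Finsupp.single (o (α i)) (segSum (segment (α i) (β i)) x))} := by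
  refine ⟨‖J o ho h x‖, ?_⟩
  rintro _ ⟨k, α, β, h1, h2, rfl⟩
  exact jt_le_norm o ho h x k α β h1 h2

theorem norm_J (x : List Bool →₀ ℝ) : ‖J o ho h x‖ = jtNorm nE o x := by
  classical
  have hne : {r | ∃ (k : ℕ) (α β : Fin k → List Bool), (∀ i, α i <+: β i) ∧
    (∀ i j, i ≠ j → Disjoint (segment (α i) (β i)) (segment (α j) (β j))) ∧
    r = nE (∑ i, Finsupp.single (o (α i)) (segSum (segment (α i) (β i)) x))}.Nonempty :=
    ⟨_, 0, Fin.elim0, Fin.elim0, fun i => i.elim0, fun i => i.elim0, rfl⟩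
  refine le_antisymm ?_ (csSup_le hne ?_)
  swap
  · rintro _ ⟨k, α, β, h1, h2, rfl⟩
    exact jt_le_norm o ho h x k α β h1 h2
  have h0 : 0 ≤ jtNorm nE o x := by
    refine le_trans ?_ (le_csSup (jt_bdd o ho h x)
      ⟨0, Fin.elim0, Fin.elim0, fun i => i.elim0, fun i => i.elim0, rfl⟩)
    exact h.nonneg _
  refine SupSp.norm_le _ h0 ?_
  rintro ⟨s, N⟩
  rw [pX_apply, h.toUN_n]
  simp only
  set y : ℕ → ℝ := (J o ho h x).1 with hy
  have hycoe : y = fun n => x (o.symm n) := J_coe o ho h x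
  let B : Finset ℕ := (Finset.range N).filter (fun a => (s.1 a ∩ Set.Iio N).Nonempty)
  have hvec : vec (Finset.range N) (fun a => sm (s.1 a) N y) =
      vec B (fun a => sm (s.1 a) N y) := by
    ext i
    rw [vec_apply, vec_apply]
    by_cases hi : i ∈ Finset.range N
    · rw [if_pos hi]
      by_cases hi' : (s.1 i ∩ Set.Iio N).Nonempty
      · rw [if_pos (Finset.mem_filter.mpr ⟨hi, hi'⟩)]
      · have hiB : i ∉ B := fun h' => hi' (Finset.mem_filter.mp h').2
        have e2 : sm (s.1 i) N y = 0 := by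
          have e3 : sm (s.1 i ∩ Set.Iio N) N y = sm (s.1 i) N y := sm_trunc le_rfl y
          rw [← e3, Set.not_nonempty_iff_eq_empty.mp hi', sm_empty]
        rw [if_neg hiB, e2]
    · rw [if_neg hi, if_neg (fun h' => hi (Finset.mem_filter.mp h').1)]
  rw [hvec]
  have hmax : ∀ a ∈ B, ∃ m, s.1 a ∩ Set.Iio N = sgN o (o.symm a) (o.symm m) ∧
      o.symm a <+: o.symm m := by
    intro a ha
    have hfin : (s.1 a ∩ Set.Iio N).Finite := (Set.finite_Iio N).subset Set.inter_subset_right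
    obtain ⟨m, hm, hmax⟩ := Set.exists_max_image _ id hfin (Finset.mem_filter.mp ha).2
    refine ⟨m, ?_, (s.2.1 a).ge m hm.1⟩
    ext n
    constructor
    · rintro ⟨hn1, hn2⟩
      refine ⟨(s.2.1 a).ge n hn1, ?_⟩
      rcases (s.2.1 a).chain n hn1 m hm.1 with h1 | h1
      · exact h1
      · have h2 := (treeOf o ho).le_nat _ _ h1
        have h3 := hmax n ⟨hn1, hn2⟩
        have h4 : m = n := le_antisymm h2 h3
        rw [h4]
    · rintro ⟨hn1, hn2⟩
      have h1 : (treeOf o ho).le n m := hn2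
      refine ⟨(s.2.1 a).conv m hm.1 n hn1 h1, ?_⟩
      exact lt_of_le_of_lt ((treeOf o ho).le_nat _ _ h1) hm.2
  choose! m hm1 hm2 using hmax
  let e := B.equivFin.symm
  obtain ⟨N', hN'1, hN'2⟩ := exists_supp_bound o x N
  refine le_csSup (jt_bdd o ho h x) ⟨B.card, fun i => o.symm (e i), fun i => o.symm (m (e i)),
    fun i => hm2 _ (e i).2, ?_, ?_⟩
  · intro i j hij
    have hne' : (e i : ℕ) ≠ e j := fun h' => hij (e.injective (Subtype.ext h'))
    have h1 := s.2.2 _ _ hne'
    rw [Set.disjoint_left] at h1 ⊢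
    intro γ hγ hγ'
    have g1 : o γ ∈ sgN o (o.symm (e i)) (o.symm (m (e i))) := by
      unfold sgN
      rw [Set.mem_setOf_eq, Equiv.symm_apply_apply]
      exact hγ
    have g2 : o γ ∈ sgN o (o.symm (e j)) (o.symm (m (e j))) := by
      unfold sgN
      rw [Set.mem_setOf_eq, Equiv.symm_apply_apply]
      exact hγ'
    rw [← hm1 _ (e i).2] at g1
    rw [← hm1 _ (e j).2] at g2
    exact h1 g1.1 g2.1
  · congr 1
    have h1 : ∀ i : Fin B.card, Finsupp.single (o (o.symm (e i)))
        (segSum (segment (o.symm (e i)) (o.symm (m (e i)))) x) =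
        Finsupp.single (e i : ℕ) (sm (s.1 (e i)) N y) := by
      intro i
      rw [Equiv.apply_symm_apply, segSum_eq o _ x N' hN'2, hycoe]
      congr 1
      have h2 : {n | o.symm n ∈ segment (o.symm (e i : ℕ)) (o.symm (m (e i)))} =
          s.1 (e i) ∩ Set.Iio N := (hm1 _ (e i).2).symm
      rw [h2, sm_trunc hN'1]
    rw [Finset.sum_congr rfl fun i _ => h1 i]
    unfold vec
    rw [← Finset.sum_coe_sort B, ← Equiv.sum_comp e]

/-- the function-space form of the main theorem -/
theorem no_coarse {Y : Type*} [NormedAddCommGroup Y] [NormedSpace ℝ Y]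
    (hC : AsC0 nE ∨ NoL1 nE)
    (ι : (List Bool →₀ ℝ) →ₗ[ℝ] Y) (hdense : DenseRange ι) (K : ℝ) (hK : 0 < K)
    (h1 : ∀ x, ‖J o ho h x‖ ≤ K * ‖ι x‖) (h2 : ∀ x, ‖ι x‖ ≤ K * ‖J o ho h x‖) :
    ¬ ∃ φ : C₀(ℕ, ℝ) → Y, IsCoarseEmbedding φ := by
  rintro ⟨φ, ρ, ω, hρ, hω, -, hlim, hφ⟩
  obtain ⟨hT, hRf⟩ : TailProp h.toUN ∧ ReflProp h.toUN (treeOf o ho) := by
    rcases hC with hC | hC
    · obtain ⟨H⟩ := h.toAC hC
      exact ⟨tail_of_ac H, refl_of_ac H⟩
    · obtain ⟨H⟩ := h.toNL hC
      exact ⟨tail_of_nl H, refl_of_nl H⟩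
  have hG : ∀ x, ∃ g : List Bool →₀ ℝ, ‖φ x - ι g‖ ≤ 1 := by
    intro x
    obtain ⟨g, hg⟩ := hdense.exists_dist_lt (φ x) one_pos
    exact ⟨g, by rw [← dist_eq_norm]; exact hg.le⟩
  choose G hG using hG
  have hup : ∀ x y, ‖ι (G x - G y)‖ ≤ dist (φ x) (φ y) + 2 := by
    intro x y
    rw [map_sub, dist_eq_norm]
    have e : ι (G x) - ι (G y) = (φ x - φ y) - (φ x - ι (G x)) + (φ y - ι (G y)) := by abel
    rw [e]
    have g1 := norm_add_le ((φ x - φ y) - (φ x - ι (G x))) (φ y - ι (G y))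
    have g2 := norm_sub_le (φ x - φ y) (φ x - ι (G x))
    have := hG x
    have := hG y
    linarith
  have hlow : ∀ x y, dist (φ x) (φ y) ≤ ‖ι (G x - G y)‖ + 2 := by
    intro x y
    rw [map_sub, dist_eq_norm]
    have e : φ x - φ y = (ι (G x) - ι (G y)) + (φ x - ι (G x)) - (φ y - ι (G y)) := by abel
    rw [e]
    have g1 := norm_sub_le ((ι (G x) - ι (G y)) + (φ x - ι (G x))) (φ y - ι (G y))
    have g2 := norm_add_le (ι (G x) - ι (G y)) (φ x - ι (G x))
    have := hG x
    have := hG y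
    linarith
  set C1 : ℝ := K * (ω 1 + 2) with hC1
  obtain ⟨R0, hR0⟩ := Filter.eventually_atTop.mp
    (hlim.eventually_ge_atTop (K * (2 * C1 + 2) + 2))
  obtain ⟨R, hR⟩ := exists_nat_gt (max R0 1)
  have hRpos : 0 < R := by
    have : (1 : ℝ) < R := lt_of_le_of_lt (le_max_right _ _) hR
    have h3 : (0 : ℝ) < R := by linarith
    exact_mod_cast h3
  refine main_X h.toUN (treeOf o ho) hT hRf (fun x => J o ho h (G x)) C1 ?_ ?_ R hRpos ?_
  · intro x y hxy
    rw [← map_sub]
    refine (h1 _).trans (mul_le_mul_of_nonneg_left ?_ hK.le)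
    refine (hup x y).trans ?_
    have h3 : ω (dist x y) ≤ ω 1 := hω (Set.mem_Ici.mpr dist_nonneg)
      (Set.mem_Ici.mpr zero_le_one) hxy
    have := (hφ x y).2
    linarith
  · intro r
    by_cases hr : 0 ≤ r
    · refine ⟨K * (ω r + 2) + ‖J o ho h (G 0)‖, fun x hx => ?_⟩
      have h3 : ‖J o ho h (G x) - J o ho h (G 0)‖ ≤ K * (ω r + 2) := by
        rw [← map_sub]
        refine (h1 _).trans (mul_le_mul_of_nonneg_left ?_ hK.le)
        refine (hup x 0).trans ?_
        have h3 : ω (dist x 0) ≤ ω r := hω (Set.mem_Ici.mpr dist_nonneg)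
          (Set.mem_Ici.mpr hr) hx
        have := (hφ x 0).2
        linarith
      have h4 := norm_sub_norm_le (J o ho h (G x)) (J o ho h (G 0))
      linarith
    · exact ⟨0, fun x hx => (hr (dist_nonneg.trans hx)).elim⟩
  · intro x y hxy
    have h3 : ρ R ≤ ρ (dist x y) := hρ (Set.mem_Ici.mpr (by positivity))
      (Set.mem_Ici.mpr dist_nonneg) hxy
    have h4 := hR0 R (le_of_lt (lt_of_le_of_lt (le_max_left _ _) hR))
    have h5 := (hφ x y).1
    have h6 := hlow x y
    have h7 := h2 (G x - G y)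
    have h8 : K * (2 * C1 + 2) ≤ K * ‖J o ho h (G x - G y)‖ := by linarith
    have h9 := le_of_mul_le_mul_left h8 hK
    rw [map_sub] at h9
    exact h9

end

end Pool.Agent.Helper52.Tj
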