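import Pool.Agent.Helper52.TjCore
import Pool.Agent.Helper52.TjSup

open Filter Topology

namespace Pool.Agent.Helper52.Tj

/-- families of pairwise disjoint segments, the `a`-th one starting at `a` (or empty) -/
def Fam (T : TreeOrd) : Type :=
  {s : ℕ → Set ℕ // (∀ a, IsSeg T a (s a)) ∧ ∀ a b, a ≠ b → Disjoint (s a) (s b)}

/-- truncated sum over a set -/
noncomputable def sm (S : Set ℕ) (N : ℕ) (x : ℕ → ℝ) : ℝ :=
  ∑ γ ∈ Finset.range N, S.indicator x γ

theorem sm_add (S : Set ℕ) (N : ℕ) (x y : ℕ → ℝ) : sm S N (x + y) = sm S N x + sm S N y := by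
  simp only [sm, Set.indicator_add', Pi.add_apply, Finset.sum_add_distrib]

theorem sm_smul (S : Set ℕ) (N : ℕ) (t : ℝ) (x : ℕ → ℝ) : sm S N (t • x) = t * sm S N x := by
  simp only [sm, Finset.mul_sum]
  refine Finset.sum_congr rfl fun γ _ => ?_
  by_cases h : γ ∈ S <;> simp [h]

theorem sm_neg (S : Set ℕ) (N : ℕ) (x : ℕ → ℝ) : sm S N (-x) = - sm S N x := by
  have := sm_smul S N (-1) x
  simpa using this

theorem sm_sub (S : Set ℕ) (N : ℕ) (x y : ℕ → ℝ) : sm S N (x - y) = sm S N x - sm S N y := by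
  rw [sub_eq_add_neg, sm_add, sm_neg, sub_eq_add_neg]

theorem sm_of_subset {S : Set ℕ} {n N : ℕ} (h : S ⊆ Set.Iio n) (hN : n ≤ N) (x : ℕ → ℝ) :
    sm S N x = sm S n x := by
  unfold sm
  symm
  apply Finset.sum_subset (Finset.range_mono hN)
  intro γ _ hγ
  have : γ ∉ S := fun h' => hγ (Finset.mem_range.mpr (h h'))
  simp [this]

theorem sm_trunc {S : Set ℕ} {n N : ℕ} (hN : n ≤ N) (x : ℕ → ℝ) :
    sm (S ∩ Set.Iio n) N x = sm S n x := by
  rw [sm_of_subset Set.inter_subset_right hN]
  unfold sm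
  refine Finset.sum_congr rfl fun γ hγ => ?_
  have : γ < n := Finset.mem_range.mp hγ
  by_cases h : γ ∈ S <;> simp [h, this]

theorem sm_upper {S : Set ℕ} {n N : ℕ} (hN : n ≤ N) (x : ℕ → ℝ) :
    sm (S ∩ Set.Ici n) N x = sm S N x - sm S n x := by
  rw [← sm_trunc hN x]
  unfold sm
  rw [← Finset.sum_sub_distrib]
  refine Finset.sum_congr rfl fun γ _ => ?_
  by_cases h : γ ∈ S <;> by_cases h' : γ < n <;> simp [h, h', not_le.mpr, not_lt.mp]

theorem sm_start {T : TreeOrd} {a : ℕ} {S : Set ℕ} (h : IsSeg T a S) {N : ℕ} (hN : N ≤ a)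
    (x : ℕ → ℝ) : sm S N x = 0 := by
  unfold sm
  refine Finset.sum_eq_zero fun γ hγ => ?_
  have : γ ∉ S := fun h' => by
    have := h.le_of_mem h'
    have := Finset.mem_range.mp hγ
    omega
  simp [this]

theorem sm_P (S : Set ℕ) (N n : ℕ) (x : ℕ → ℝ) :
    sm S N ((Set.Iio n).indicator x) = sm S (min n N) x := by
  unfold sm
  symm
  have h1 : Finset.range (min n N) ⊆ Finset.range N := Finset.range_mono (min_le_right _ _)
  rw [← Finset.sum_subset h1]
  · refine Finset.sum_congr rfl fun γ hγ => ?_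
    have : γ < n := lt_of_lt_of_le (Finset.mem_range.mp hγ) (min_le_left _ _)
    by_cases h : γ ∈ S <;> simp [h, this]
  · intro γ h2 h3
    have h4 : ¬ γ < n := fun h4 => h3 (Finset.mem_range.mpr (lt_min h4 (Finset.mem_range.mp h2)))
    by_cases h : γ ∈ S <;> simp [h, h4]

theorem sm_empty (N : ℕ) (x : ℕ → ℝ) : sm ∅ N x = 0 := by simp [sm]

/-- the seminorms defining the James tree space -/
noncomputable def pX (U : UN) (T : TreeOrd) (j : Fam T × ℕ) : Seminorm ℝ (ℕ → ℝ) :=
  Seminorm.of (fun x => U.n (Finset.range j.2) (fun a => sm (j.1.1 a) j.2 x))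
    (by
      intro x y
      simp only [sm_add]
      exact U.n_add _ _ _)
    (by
      intro t x
      simp only [sm_smul]
      exact U.smul _ t (fun a => sm (j.1.1 a) j.2 x))

theorem pX_apply (U : UN) (T : TreeOrd) (j : Fam T × ℕ) (x : ℕ → ℝ) :
    pX U T j x = U.n (Finset.range j.2) (fun a => sm (j.1.1 a) j.2 x) := rfl

/-- The James tree space as a space of functions. -/
abbrev XS (U : UN) (T : TreeOrd) : Type := SupSp (pX U T)

open Classical in
/-- complete a finite family by empty segments -/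
noncomputable def mkFam {T : TreeOrd} (A : Finset ℕ) (s : ℕ → Set ℕ)
    (hs : ∀ a ∈ A, IsSeg T a (s a))
    (hd : ∀ a ∈ A, ∀ b ∈ A, a ≠ b → Disjoint (s a) (s b)) : Fam T :=
  ⟨fun a => if a ∈ A then s a else ∅, by
    refine ⟨fun a => ?_, fun a b hab => ?_⟩
    · by_cases h : a ∈ A
      · simp only [h, if_true]; exact hs a h
      · simp only [h, if_false]; exact IsSeg.empty T a
    · by_cases h : a ∈ A
      · by_cases h' : b ∈ A
        · simp only [h, h', if_true]; exact hd a h b h' hab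
        · simp [h']
      · simp [h]⟩

section
variable {U : UN} {T : TreeOrd}

theorem fam_le (x : XS U T) (A : Finset ℕ) (s : ℕ → Set ℕ)
    (hs : ∀ a ∈ A, IsSeg T a (s a))
    (hd : ∀ a ∈ A, ∀ b ∈ A, a ≠ b → Disjoint (s a) (s b)) (N : ℕ) :
    U.n A (fun a => sm (s a) N x.1) ≤ ‖x‖ := by
  refine le_trans ?_ (SupSp.le_norm (pX U T) x (mkFam A s hs hd, N))
  rw [pX_apply]
  refine U.mono _ _ _ _ fun a ha => ?_
  by_cases h : a < N
  · right
    refine ⟨Finset.mem_range.mpr h, ?_⟩
    simp [mkFam, ha]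
  · left
    exact sm_start (hs a ha) (not_lt.mp h) _

theorem seg_le (x : XS U T) {a : ℕ} {S : Set ℕ} (h : IsSeg T a S) (N : ℕ) :
    |sm S N x.1| ≤ ‖x‖ := by
  have := fam_le x {a} (fun _ => S) (by simpa using h)
    (by intro a ha b hb hab; simp at ha hb; exact (hab (ha.trans hb.symm)).elim) N
  rwa [U.single] at this

/-- the sum over a (possibly infinite) segment -/
noncomputable def val (S : Set ℕ) (x : ℕ → ℝ) : ℝ := limUnder atTop (fun N => sm S N x)

theorem val_of_subset {S : Set ℕ} {n : ℕ} (h : S ⊆ Set.Iio n) (x : ℕ → ℝ) :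
    val S x = sm S n x := by
  apply Tendsto.limUnder_eq
  refine Tendsto.congr' ?_ tendsto_const_nhds
  filter_upwards [eventually_ge_atTop n] with N hN
  rw [sm_of_subset h hN]

theorem VB_fin (x : XS U T) : VB U T (fun S => S.Finite) (fun S => val S x.1) ‖x‖ := by
  intro A s hs hd
  have hb : ∀ a ∈ A, ∃ n, s a ⊆ Set.Iio n := by
    intro a ha
    obtain ⟨m, hm⟩ := (hs a ha).2.bddAbove
    exact ⟨m + 1, fun γ hγ => Nat.lt_succ_of_le (hm hγ)⟩
  choose! n hn using hb
  have h1 : ∀ a ∈ A, s a ⊆ Set.Iio (A.sup n) := fun a ha =>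
    (hn a ha).trans (Set.Iio_subset_Iio (Finset.le_sup ha))
  rw [U.n_congr (d := fun a => sm (s a) (A.sup n) x.1)
    (fun a ha => val_of_subset (h1 a ha) x.1)]
  exact fam_le x A s (fun a ha => (hs a ha).1) hd _

/-- sums over far segments are small -/
theorem claimA (x : XS U T) (ε : ℝ) (hε : 0 < ε) : ∃ n₀, ∀ n, n₀ ≤ n → ∀ N, n ≤ N →
    ∀ a S, IsSeg T a S → |sm S N x.1 - sm S n x.1| ≤ ε := by
  classical
  by_contra hcon
  push Not at hcon
  obtain ⟨f, hf1, hf2⟩ := exists_seq_of_forall_finset_exists (α := ℕ × Set ℕ × ℕ)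
    (fun o => IsSeg T o.1 o.2.1 ∧ o.2.1 ⊆ Set.Iio o.2.2 ∧ o.1 < o.2.2 ∧ ε ≤ |val o.2.1 x.1|)
    (fun o o' => o.2.2 ≤ o'.1) (by
      intro 𝒮 _
      obtain ⟨n, hn, N, hN, a, S, hS, h⟩ := hcon (𝒮.sup fun o => o.2.2)
      have h1 : sm (S ∩ Set.Ici n) N x.1 = sm S N x.1 - sm S n x.1 := sm_upper hN _
      have hne : (S ∩ Set.Ici n).Nonempty := by
        by_contra h2
        rw [Set.not_nonempty_iff_eq_empty] at h2
        rw [h2, sm_empty] at h1
        rw [← h1] at h
        simp at h
        linarith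
      obtain ⟨a', ha', hseg⟩ := hS.upper n hne
      have hseg' := hseg.trunc N
      have hval : val (S ∩ Set.Ici n ∩ Set.Iio N) x.1 = sm S N x.1 - sm S n x.1 := by
        rw [val_of_subset (n := N) Set.inter_subset_right, sm_trunc le_rfl, h1]
      have hne' : (S ∩ Set.Ici n ∩ Set.Iio N).Nonempty := by
        by_contra h2
        rw [Set.not_nonempty_iff_eq_empty] at h2
        rw [h2, val_of_subset (n := 0) (by simp)] at hval
        rw [← hval, sm_empty] at h
        simp at h
        linarith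
      refine ⟨(a', S ∩ Set.Ici n ∩ Set.Iio N, N), ⟨hseg', Set.inter_subset_right,
        (hseg'.start_mem hne').2, by rw [hval]; exact h.le⟩, ?_⟩
      intro o ho
      have : o.2.2 ≤ 𝒮.sup fun o => o.2.2 := Finset.le_sup (f := fun o : ℕ × Set ℕ × ℕ => o.2.2) ho
      simp only
      omega)
  refine seq_contra (VB_fin x) (fun k => {(f k).1}) (fun k _ => (f k).2.1) ?_ ?_ ?_ ?_ ε hε ?_
  · intro k a ha
    rw [Finset.mem_singleton] at ha
    subst ha
    exact ⟨(hf1 k).1, (Set.finite_Iio _).subset (hf1 k).2.1⟩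
  · intro k a ha b hb hab
    simp at ha hb
    exact (hab (ha.trans hb.symm)).elim
  · intro k l hkl a ha b hb
    simp at ha hb
    subst ha; subst hb
    exact lt_of_lt_of_le (hf1 k).2.2.1 (hf2 k l hkl)
  · intro k l hkl a ha b hb
    rw [Set.disjoint_left]
    intro γ h1 h2
    have h3 : γ < (f k).2.2 := (hf1 k).2.1 h1
    have h4 := (hf1 l).1.le_of_mem h2
    have h5 := hf2 k l hkl
    omega
  · intro k
    rw [U.single]
    exact (hf1 k).2.2.2

theorem tendsto_val (x : XS U T) {a : ℕ} {S : Set ℕ} (h : IsSeg T a S) :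
    Tendsto (fun N => sm S N x.1) atTop (𝓝 (val S x.1)) := by
  apply CauchySeq.tendsto_limUnder
  rw [Metric.cauchySeq_iff']
  intro ε hε
  obtain ⟨n₀, hn₀⟩ := claimA x (ε / 2) (by linarith)
  refine ⟨n₀, fun N hN => ?_⟩
  rw [Real.dist_eq]
  exact lt_of_le_of_lt (hn₀ n₀ le_rfl N hN a S h) (by linarith)

theorem val_add (x y : XS U T) {a : ℕ} {S : Set ℕ} (h : IsSeg T a S) :
    val S (x + y).1 = val S x.1 + val S y.1 := by
  refine tendsto_nhds_unique (tendsto_val (x + y) h) ?_
  have := (tendsto_val x h).add (tendsto_val y h)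
  refine this.congr fun N => ?_
  rw [SupSp.coe_add, sm_add]

theorem val_sub (x y : XS U T) {a : ℕ} {S : Set ℕ} (h : IsSeg T a S) :
    val S (x - y).1 = val S x.1 - val S y.1 := by
  refine tendsto_nhds_unique (tendsto_val (x - y) h) ?_
  have := (tendsto_val x h).sub (tendsto_val y h)
  refine this.congr fun N => ?_
  rw [SupSp.coe_sub, sm_sub]

theorem VB_all (x : XS U T) : VB U T (fun _ => True) (fun S => val S x.1) ‖x‖ := by
  intro A s hs hd
  refine U.n_limit atTop A (fun N a => sm (s a) N x.1) _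
    (fun a ha => tendsto_val x (hs a ha).1) _ (Eventually.of_forall fun N => ?_)
  exact fam_le x A s (fun a ha => (hs a ha).1) hd N

theorem val_le (x : XS U T) {a : ℕ} {S : Set ℕ} (h : IsSeg T a S) : |val S x.1| ≤ ‖x‖ :=
  le_of_tendsto (tendsto_val x h).abs (Eventually.of_forall fun N => seg_le x h N)

/-- the projection on the first coordinates -/
noncomputable def PX (n : ℕ) (x : XS U T) : XS U T :=
  ⟨(Set.Iio n).indicator x.1, by
    refine ⟨‖x‖, fun j => ?_⟩
    rw [pX_apply]
    simp only [sm_P]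
    exact fam_le x (Finset.range j.2) j.1.1 (fun a _ => j.1.2.1 a) (fun a _ b _ => j.1.2.2 a b) _⟩

theorem PX_coe (n : ℕ) (x : XS U T) : (PX n x).1 = (Set.Iio n).indicator x.1 := rfl

/-- finitely supported functions are dense -/
theorem dense_PX (x : XS U T) (ε : ℝ) (hε : 0 < ε) : ∃ n₀, ∀ n, n₀ ≤ n → ‖x - PX n x‖ ≤ ε := by
  classical
  by_contra hcon
  push Not at hcon
  obtain ⟨f, hf1, hf2⟩ := exists_seq_of_forall_finset_exists
    (α := Finset ℕ × (ℕ → Set ℕ) × ℕ)
    (fun o => (∀ a ∈ o.1, IsSeg T a (o.2.1 a) ∧ o.2.1 a ⊆ Set.Iio o.2.2 ∧ a < o.2.2) ∧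
      (∀ a ∈ o.1, ∀ b ∈ o.1, a ≠ b → Disjoint (o.2.1 a) (o.2.1 b)) ∧
      ε / 4 ≤ U.n o.1 (fun a => val (o.2.1 a) x.1))
    (fun o o' => ∀ a ∈ o'.1, o.2.2 ≤ a) (by
      intro 𝒮 _
      set m := 𝒮.sup fun o => o.2.2 with hm
      obtain ⟨n₀, hn₀⟩ := claimA x (ε / (4 * (m + 1))) (by positivity)
      obtain ⟨n, hn, h⟩ := hcon (max n₀ m)
      have hn1 : n₀ ≤ n := (le_max_left _ _).trans hn
      have hn2 : m ≤ n := (le_max_right _ _).trans hn
      obtain ⟨⟨s, N⟩, hsN⟩ := SupSp.lt_norm (pX U T) hε.le h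
      rw [pX_apply] at hsN
      simp only [SupSp.coe_sub, sm_sub, PX_coe, sm_P] at hsN
      have hnN : n < N := by
        by_contra h1
        push Not at h1
        rw [min_eq_right h1, U.n_zero' (by simp)] at hsN
        linarith
      rw [min_eq_left hnN.le] at hsN
      set v : ℕ → ℝ := fun a => sm (s.1 a) N x.1 - sm (s.1 a) n x.1 with hv
      have h2 : U.n (Finset.range N) v ≤ U.n (Finset.range m) v + U.n (Finset.Ico m N) v := by
        refine le_trans (U.n_sub ?_ v) (U.n_union _ _ _)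
        intro a ha
        simp only [Finset.mem_union, Finset.mem_range, Finset.mem_Ico] at ha ⊢
        omega
      have h3 : U.n (Finset.range m) v ≤ ε / 4 := by
        refine (U.n_le_sum _ _).trans ?_
        have h4 : ∀ a ∈ Finset.range m, |v a| ≤ ε / (4 * (m + 1)) := fun a _ =>
          hn₀ n hn1 N hnN.le a _ (s.2.1 a)
        refine (Finset.sum_le_card_nsmul _ _ _ h4).trans ?_
        rw [Finset.card_range, nsmul_eq_mul]
        rw [mul_div_assoc', div_le_div_iff₀ (by positivity) (by norm_num)]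
        nlinarith
      let t : ℕ → Set ℕ := fun a => if |v a| ≤ 2 * |sm (s.1 a) N x.1| then s.1 a ∩ Set.Iio N
        else s.1 a ∩ Set.Iio n
      have ht : ∀ a, t a ⊆ s.1 a := by
        intro a
        simp only [t]
        split_ifs <;> exact Set.inter_subset_left
      have htN : ∀ a, t a ⊆ Set.Iio N := by
        intro a
        simp only [t]
        split_ifs
        · exact Set.inter_subset_right
        · exact Set.inter_subset_right.trans (Set.Iio_subset_Iio hnN.le)
      have htv : ∀ a, |v a| ≤ |2 * val (t a) x.1| := by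
        intro a
        rw [abs_mul, abs_two]
        simp only [t]
        split_ifs with h5
        · rw [val_of_subset (n := N) Set.inter_subset_right, sm_trunc le_rfl]
          exact h5
        · rw [val_of_subset (n := n) Set.inter_subset_right, sm_trunc le_rfl]
          push Not at h5
          have h6 : |v a| ≤ |sm (s.1 a) N x.1| + |sm (s.1 a) n x.1| := abs_sub _ _
          linarith
      have h7 : U.n (Finset.Ico m N) v ≤ 2 * U.n (Finset.Ico m N) (fun a => val (t a) x.1) := by
        refine (U.n_abs fun a _ => htv a).trans ?_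
        have := U.smul (Finset.Ico m N) 2 (fun a => val (t a) x.1)
        rw [abs_two] at this
        rw [← this]
        exact le_of_eq (U.n_congr fun a _ => by simp)
      refine ⟨(Finset.Ico m N, t, N), ⟨?_, ?_, ?_⟩, ?_⟩
      · intro a ha
        refine ⟨?_, htN a, (Finset.mem_Ico.mp ha).2⟩
        simp only [t]
        split_ifs
        · exact (s.2.1 a).trunc N
        · exact (s.2.1 a).trunc n
      · intro a _ b _ hab
        exact (s.2.2 a b hab).mono (ht a) (ht b)
      · simp only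
        linarith
      · intro o ho a ha
        have h8 : o.2.2 ≤ m :=
          Finset.le_sup (f := fun o : Finset ℕ × (ℕ → Set ℕ) × ℕ => o.2.2) ho
        exact h8.trans (Finset.mem_Ico.mp ha).1)
  refine seq_contra (VB_fin x) (fun k => (f k).1) (fun k => (f k).2.1) ?_ ?_ ?_ ?_ (ε / 4)
    (by linarith) (fun k => (hf1 k).2.2)
  · intro k a ha
    exact ⟨((hf1 k).1 a ha).1, (Set.finite_Iio _).subset ((hf1 k).1 a ha).2.1⟩
  · intro k a ha b hb hab
    exact (hf1 k).2.1 a ha b hb hab
  · intro k l hkl a ha b hb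
    exact lt_of_lt_of_le ((hf1 k).1 a ha).2.2 (hf2 k l hkl b hb)
  · intro k l hkl a ha b hb
    rw [Set.disjoint_left]
    intro γ h1 h2
    have h3 : γ < (f k).2.2 := ((hf1 k).1 a ha).2.1 h1
    have h4 := ((hf1 l).1 b hb).1.le_of_mem h2
    have h5 := hf2 k l hkl b hb
    omega

/-- membership of a bounded function -/
theorem mem_of_bound {y : ℕ → ℝ} {C : ℝ} (h : ∀ (s : Fam T) N,
    U.n (Finset.range N) (fun a => sm (s.1 a) N y) ≤ C) : y ∈ SupSub (pX U T) :=
  ⟨C, fun j => by rw [pX_apply]; exact h j.1 j.2⟩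

/-- unit vectors -/
noncomputable def dl (U : UN) (T : TreeOrd) (γ : ℕ) : XS U T :=
  ⟨Pi.single γ 1, by
    refine mem_of_bound (C := 1) fun s N => ?_
    classical
    have h1 : ∀ a, |sm (s.1 a) N (Pi.single γ 1)| ≤ if γ ∈ s.1 a then 1 else 0 := by
      intro a
      unfold sm
      split_ifs with h
      · refine (Finset.abs_sum_le_sum_abs _ _).trans ?_
        calc ∑ i ∈ Finset.range N, |(s.1 a).indicator (Pi.single γ (1 : ℝ)) i| ≤
            ∑ i ∈ Finset.range N, (if i = γ then (1 : ℝ) else 0) := by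
              refine Finset.sum_le_sum fun i _ => ?_
              by_cases hi : i = γ
              · subst hi; simp [h]
              · by_cases h' : i ∈ s.1 a <;> simp [h', hi]
          _ ≤ 1 := by
              rw [Finset.sum_ite_eq']
              split_ifs <;> norm_num
      · rw [Finset.sum_eq_zero, abs_zero]
        intro i _
        by_cases hi : i = γ
        · subst hi; simp [h]
        · by_cases h' : i ∈ s.1 a <;> simp [h', hi]
    refine (U.n_le_sum _ _).trans ?_
    refine (Finset.sum_le_sum fun a _ => h1 a).trans ?_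
    rw [← Finset.sum_filter, Finset.sum_const, nsmul_eq_mul, mul_one]
    have : (Finset.filter (fun a => γ ∈ s.1 a) (Finset.range N)).card ≤ 1 := by
      rw [Finset.card_le_one]
      intro a ha b hb
      by_contra hab
      exact Set.disjoint_left.mp (s.2.2 a b hab) (Finset.mem_filter.mp ha).2
        (Finset.mem_filter.mp hb).2
    exact_mod_cast this⟩

theorem PX_eq_sum (n : ℕ) (x : XS U T) :
    PX n x = ∑ γ ∈ Finset.range n, x.1 γ • dl U T γ := by
  apply Subtype.ext
  have h1 : ∀ s : Finset ℕ, (∑ γ ∈ s, x.1 γ • dl U T γ).1 = ∑ γ ∈ s, x.1 γ • Pi.single γ (1 : ℝ) := by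
    intro s
    classical
    induction s using Finset.induction_on with
    | empty => rfl
    | insert i s hi ih =>
      rw [Finset.sum_insert hi, Finset.sum_insert hi, SupSp.coe_add, ih]
      rfl
  rw [h1, PX_coe]
  ext γ
  rw [Finset.sum_apply]
  by_cases h : γ < n
  · rw [Finset.sum_eq_single γ]
    · simp [h]
    · intro b _ hb
      simp [Pi.single_apply, hb.symm]
    · intro h'
      exact (h' (Finset.mem_range.mpr h)).elim
  · rw [Finset.sum_eq_zero]
    · simp [h]
    · intro b hb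
      have : γ ≠ b := by
        have := Finset.mem_range.mp hb
        omega
      simp [Pi.single_apply, this]

instance : TopologicalSpace.SeparableSpace (XS U T) := by
  rw [← TopologicalSpace.isSeparable_univ_iff]
  have h1 : TopologicalSpace.IsSeparable (Set.range (dl U T)) :=
    (Set.countable_range _).isSeparable
  have h2 := (h1.span (R := ℝ)).closure
  refine h2.mono ?_
  intro x _
  rw [Metric.mem_closure_iff]
  intro ε hε
  obtain ⟨n₀, hn⟩ := dense_PX x (ε / 2) (by linarith)
  refine ⟨PX n₀ x, ?_, ?_⟩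
  · rw [PX_eq_sum]
    exact Submodule.sum_mem _ fun γ _ => Submodule.smul_mem _ _ (Submodule.subset_span ⟨γ, rfl⟩)
  · rw [dist_eq_norm]
    exact lt_of_le_of_lt (hn n₀ le_rfl) (by linarith)

instance : SecondCountableTopology (XS U T) :=
  UniformSpace.secondCountable_of_separable _

end

end Pool.Agent.Helper52.Tj
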