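import Mathlib

set_option autoImplicit false

open Filter Topology

namespace Pool.Agent.Helper52.Wco

/-- The closed unit disc. -/
abbrev Disc : Type := Metric.closedBall (0 : ℂ) 1

/-- The disc algebra: continuous functions on the closed unit disc, analytic in its interior,
with the supremum norm. -/
def discAlgebra : Submodule ℂ C(Disc, ℂ) where
  carrier := {f | ∃ F : ℂ → ℂ, DifferentiableOn ℂ F (Metric.ball 0 1) ∧ ∀ z : Disc, f z = F z}
  zero_mem' := ⟨fun _ => 0, differentiableOn_const 0, fun _ => rfl⟩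
  add_mem' := by
    rintro f g ⟨F, hF, hf⟩ ⟨G, hG, hg⟩
    exact ⟨fun z => F z + G z, hF.add hG, fun z => by rw [ContinuousMap.add_apply, hf, hg]⟩
  smul_mem' := by
    rintro c f ⟨F, hF, hf⟩
    exact ⟨fun z => c • F z, hF.const_smul c, fun z => by rw [ContinuousMap.smul_apply, hf]⟩

/-- `B` is a finite Blaschke product of degree `d`, as a map of the closed unit disc. -/
def IsBlaschke (d : ℕ) (B : Disc → Disc) : Prop :=
  ∃ (θ : ℝ) (a : Fin d → ℂ), (∀ j, ‖a j‖ < 1) ∧
    ∀ z : Disc, (B z : ℂ) = Complex.exp (θ * Complex.I) *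
      ∏ j, ((z : ℂ) - a j) / (1 - (starRingEnd ℂ) (a j) * (z : ℂ))

/-- `B` is elliptic: its iterates converge, locally uniformly in the open unit disc, to a point
of the open unit disc. -/
def IsElliptic (B : Disc → Disc) : Prop :=
  ∃ z₀ : Disc, ‖(z₀ : ℂ)‖ < 1 ∧
    TendstoLocallyUniformlyOn (fun n => B^[n]) (fun _ => z₀) atTop {z : Disc | ‖(z : ℂ)‖ < 1}

/-- The upper semi-Fredholm spectrum of a bounded operator `T`: all `μ` for which there are unit
vectors `x n`, without any norm-convergent subsequence, such that `T (x n) - μ x n` tends to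
zero. -/
def usf {X : Type*} [NormedAddCommGroup X] [NormedSpace ℂ X] (T : X →L[ℂ] X) : Set ℂ :=
  {μ | ∃ x : ℕ → X, (∀ n, ‖x n‖ = 1) ∧
    (∀ φ : ℕ → ℕ, StrictMono φ → ¬ ∃ y : X, Tendsto (fun n => x (φ n)) atTop (𝓝 y)) ∧
    Tendsto (fun n => T (x n) - μ • x n) atTop (𝓝 0)}

/-- The set of moduli of the circles contained in the upper semi-Fredholm spectrum. -/
def Lam {X : Type*} [NormedAddCommGroup X] [NormedSpace ℂ X] (T : X →L[ℂ] X) : Set ℝ :=
  {r | ∃ μ : ℂ, r = ‖μ‖ ∧ ∀ u : ℂ, ‖u‖ = 1 → μ * u ∈ usf T}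

/-- `T` is the weighted composition operator `f ↦ w · (f ∘ B)` on the disc algebra. -/
def IsWeightedComp (B : Disc → Disc) (w : discAlgebra) (T : discAlgebra →L[ℂ] discAlgebra) :
    Prop :=
  ∀ (f : discAlgebra) (z : Disc), (T f).1 z = w.1 z * f.1 (B z)

end Pool.Agent.Helper52.Wco
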