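import Mathlib
import Pool.Agent.Helper52.WcoDefs

set_option autoImplicit false

open Filter Topology

namespace Pool.Agent.Helper52.Wco

/-- The map `z ↦ z ^ d` of the closed unit disc. -/
def powMap (d : ℕ) (z : Disc) : Disc :=
  ⟨(z : ℂ) ^ d, by
    have h := z.2
    rw [mem_closedBall_zero_iff] at h ⊢
    rw [norm_pow]
    exact pow_le_one₀ (norm_nonneg _) h⟩

theorem continuous_powMap (d : ℕ) : Continuous (powMap d) :=
  (continuous_subtype_val.pow d).subtype_mk _

/-- Bundled version of `powMap`. -/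
def powCM (d : ℕ) : C(Disc, Disc) := ⟨powMap d, continuous_powMap d⟩

theorem disc_norm_le (z : Disc) : ‖(z : ℂ)‖ ≤ 1 := by
  have h := z.2
  rwa [mem_closedBall_zero_iff] at h

theorem wcomp_mem (d : ℕ) (hd : d ≠ 0) (w f : discAlgebra) :
    w.1 * f.1.comp (powCM d) ∈ discAlgebra := by
  obtain ⟨W, hW, hw⟩ := w.2
  obtain ⟨F, hF, hf⟩ := f.2
  refine ⟨fun z => W z * F (z ^ d), hW.mul (hF.comp (differentiableOn_pow d) ?_), ?_⟩
  · intro z hz
    rw [mem_ball_zero_iff] at hz ⊢
    rw [norm_pow]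
    exact pow_lt_one₀ (norm_nonneg _) hz hd
  · intro z
    rw [ContinuousMap.mul_apply, hw, ContinuousMap.comp_apply, hf]
    rfl

/-- The weighted composition operator. -/
noncomputable def wcomp (d : ℕ) (hd : d ≠ 0) (w : discAlgebra) : discAlgebra →L[ℂ] discAlgebra :=
  LinearMap.mkContinuous
    { toFun := fun f => ⟨w.1 * f.1.comp (powCM d), wcomp_mem d hd w f⟩
      map_add' := by
        intro f g
        apply Subtype.ext
        ext z
        exact mul_add _ _ _
      map_smul' := by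
        intro c f
        apply Subtype.ext
        ext z
        exact mul_left_comm _ _ _ } ‖w‖ (by
          intro f
          refine (ContinuousMap.norm_le _ (by positivity)).mpr ?_
          intro z
          change ‖w.1 z * f.1 (powMap d z)‖ ≤ ‖w‖ * ‖f‖
          rw [norm_mul]
          exact mul_le_mul (w.1.norm_coe_le_norm z) (f.1.norm_coe_le_norm _) (norm_nonneg _)
            (norm_nonneg _))

theorem wcomp_apply (d : ℕ) (hd : d ≠ 0) (w f : discAlgebra) (z : Disc) :
    (wcomp d hd w f).1 z = w.1 z * f.1 (powMap d z) := rfl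

/-- The cocycle `w(z) w(z^d) ... w(z^(d^(n-1)))`. -/
noncomputable def coc (d : ℕ) (w : discAlgebra) (n : ℕ) (z : Disc) : ℂ :=
  ∏ i ∈ Finset.range n, w.1 ((powMap d)^[i] z)

theorem coc_succ (d : ℕ) (w : discAlgebra) (n : ℕ) (z : Disc) :
    coc d w (n + 1) z = coc d w n z * w.1 ((powMap d)^[n] z) :=
  Finset.prod_range_succ _ _

theorem coc_succ' (d : ℕ) (w : discAlgebra) (n : ℕ) (z : Disc) :
    coc d w (n + 1) z = w.1 z * coc d w n (powMap d z) := by
  unfold coc
  rw [Finset.prod_range_succ', mul_comm]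
  rfl

theorem continuous_coc (d : ℕ) (w : discAlgebra) (n : ℕ) : Continuous (coc d w n) := by
  unfold coc
  refine continuous_finsetProd _ fun i _ => ?_
  exact w.1.continuous.comp ((continuous_powMap d).iterate i)

theorem iter_apply (d : ℕ) (hd : d ≠ 0) (w : discAlgebra) (n : ℕ) (f : discAlgebra) (z : Disc) :
    (((wcomp d hd w) ^ n) f).1 z = coc d w n z * f.1 ((powMap d)^[n] z) := by
  induction n generalizing z with
  | zero =>
    rw [pow_zero, coc, Finset.range_zero, Finset.prod_empty, one_mul]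
    rfl
  | succ n ih =>
    rw [pow_succ', ContinuousLinearMap.mul_apply, wcomp_apply, ih, coc_succ', mul_assoc,
      Function.iterate_succ_apply]

/-- The peaking function `((1 + conj p z) / 2) ^ N`. -/
noncomputable def peak (p : Disc) (N : ℕ) : discAlgebra :=
  ⟨⟨fun z : Disc => ((1 + (starRingEnd ℂ) (p : ℂ) * (z : ℂ)) / 2) ^ N, by fun_prop⟩,
    ⟨fun z => ((1 + (starRingEnd ℂ) (p : ℂ) * z) / 2) ^ N, by fun_prop, fun z => rfl⟩⟩

theorem peak_apply (p : Disc) (N : ℕ) (z : Disc) :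
    (peak p N).1 z = ((1 + (starRingEnd ℂ) (p : ℂ) * (z : ℂ)) / 2) ^ N := rfl

theorem peak_base_le (p z : Disc) :
    ‖(1 + (starRingEnd ℂ) (p : ℂ) * (z : ℂ)) / 2‖ ≤ (1 + ‖(z : ℂ)‖) / 2 := by
  rw [norm_div, Complex.norm_ofNat]
  refine div_le_div_of_nonneg_right ?_ (by norm_num)
  refine (norm_add_le _ _).trans ?_
  rw [norm_one, norm_mul, RCLike.norm_conj]
  have h1 := disc_norm_le p
  have h2 := norm_nonneg (z : ℂ)
  nlinarith

theorem peak_norm_le (p : Disc) (N : ℕ) : ‖peak p N‖ ≤ 1 := by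
  refine (ContinuousMap.norm_le _ zero_le_one).mpr fun z => ?_
  change ‖(peak p N).1 z‖ ≤ 1
  rw [peak_apply, norm_pow]
  refine pow_le_one₀ (norm_nonneg _) ((peak_base_le p z).trans ?_)
  have := disc_norm_le z
  linarith

theorem peak_self (p : Disc) (hp : ‖(p : ℂ)‖ = 1) (N : ℕ) : (peak p N).1 p = 1 := by
  rw [peak_apply, mul_comm, Complex.mul_conj, Complex.normSq_eq_norm_sq, hp]
  norm_num

/-- Away from `p` the base of the peaking function has modulus less than one. -/
theorem peak_base_lt (p z : Disc) (hp : ‖(p : ℂ)‖ = 1) (hz : z ≠ p) :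
    ‖(1 + (starRingEnd ℂ) (p : ℂ) * (z : ℂ)) / 2‖ < 1 := by
  rw [norm_div, Complex.norm_ofNat, div_lt_one (by norm_num)]
  have hp2 : (p : ℂ) * (starRingEnd ℂ) (p : ℂ) = 1 := by
    rw [Complex.mul_conj, Complex.normSq_eq_norm_sq, hp]
    norm_num
  set q : ℂ := (starRingEnd ℂ) (p : ℂ) * (z : ℂ) with hq
  have hqn : ‖q‖ ≤ 1 := by
    rw [hq, norm_mul, RCLike.norm_conj, hp, one_mul]
    exact disc_norm_le z
  have hq1 : q ≠ 1 := by
    intro h
    apply hz
    apply Subtype.ext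
    calc (z : ℂ) = ((p : ℂ) * (starRingEnd ℂ) (p : ℂ)) * z := by rw [hp2, one_mul]
      _ = (p : ℂ) * q := by rw [hq, mul_assoc]
      _ = p := by rw [h, mul_one]
  have hre : q.re < 1 := by
    by_contra hcon
    push Not at hcon
    have h1 : q.re ^ 2 + q.im ^ 2 ≤ 1 := by
      have := Complex.sq_norm q
      rw [Complex.normSq_apply] at this
      nlinarith [norm_nonneg q]
    have h2 : q.im = 0 := by
      have : q.im ^ 2 ≤ 0 := by nlinarith
      exact pow_eq_zero_iff (two_ne_zero) |>.mp (le_antisymm this (sq_nonneg _))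
    have h3 : q.re = 1 := by nlinarith
    exact hq1 (Complex.ext (by simpa using h3) (by simpa using h2))
  have h4 : ‖1 + q‖ ^ 2 < 2 ^ 2 := by
    rw [Complex.sq_norm, Complex.normSq_apply]
    have h5 := Complex.sq_norm q
    rw [Complex.normSq_apply] at h5
    simp only [Complex.add_re, Complex.one_re, Complex.add_im, Complex.one_im]
    nlinarith [norm_nonneg q]
  exact lt_of_pow_lt_pow_left₀ 2 (by norm_num) h4

/-- A Dini-type argument: if `g` is continuous on a compact space, `h` is continuous with values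
of modulus at most one, and `g` vanishes where the modulus of `h` is one, then `g h^N` tends
uniformly to zero. -/
theorem dini {X : Type*} [TopologicalSpace X] [CompactSpace X] (g h : X → ℂ)
    (hg : Continuous g) (hh : Continuous h) (h1 : ∀ x, ‖h x‖ ≤ 1)
    (h2 : ∀ x, ‖h x‖ < 1 ∨ g x = 0) (ε : ℝ) (hε : 0 < ε) :
    ∀ᶠ N : ℕ in atTop, ∀ x, ‖g x * h x ^ N‖ ≤ ε := by
  obtain ⟨G, hG⟩ : ∃ G : ℝ, ∀ x, ‖g x‖ ≤ G := by
    obtain ⟨G, hG⟩ := isCompact_univ.exists_bound_of_continuousOn hg.continuousOn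
    exact ⟨G, fun x => hG x (Set.mem_univ x)⟩
  have hS : IsCompact {x | ε ≤ ‖g x‖} :=
    (isClosed_le continuous_const hg.norm).isCompact
  rcases Set.eq_empty_or_nonempty {x | ε ≤ ‖g x‖} with hemp | hne
  · refine Eventually.of_forall fun N x => ?_
    have hx : ¬ ε ≤ ‖g x‖ := by
      intro hx
      have : x ∈ ({x | ε ≤ ‖g x‖} : Set X) := hx
      rw [hemp] at this
      exact this
    push Not at hx
    rw [norm_mul, norm_pow]
    calc ‖g x‖ * ‖h x‖ ^ N ≤ ‖g x‖ * 1 :=
          mul_le_mul_of_nonneg_left (pow_le_one₀ (norm_nonneg _) (h1 x)) (norm_nonneg _)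
      _ ≤ ε := by rw [mul_one]; exact hx.le
  · obtain ⟨x0, hx0, hmax⟩ := hS.exists_isMaxOn hne hh.norm.continuousOn
    have hx0' : ε ≤ ‖g x0‖ := hx0
    have hlt : ‖h x0‖ < 1 := by
      rcases h2 x0 with h | h
      · exact h
      · rw [h, norm_zero] at hx0'
        exact absurd hx0' (not_le.mpr hε)
    have ht : Tendsto (fun N : ℕ => G * ‖h x0‖ ^ N) atTop (𝓝 (G * 0)) :=
      (tendsto_pow_atTop_nhds_zero_of_lt_one (norm_nonneg _) hlt).const_mul G
    rw [mul_zero] at ht
    filter_upwards [ht.eventually (ge_mem_nhds hε)] with N hN x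
    rw [norm_mul, norm_pow]
    by_cases hx : ε ≤ ‖g x‖
    · have hle : ‖h x‖ ≤ ‖h x0‖ := hmax hx
      refine le_trans ?_ hN
      exact mul_le_mul (hG x) (pow_le_pow_left₀ (norm_nonneg _) hle N) (by positivity)
        ((norm_nonneg _).trans (hG x))
    · push Not at hx
      calc ‖g x‖ * ‖h x‖ ^ N ≤ ‖g x‖ * 1 :=
            mul_le_mul_of_nonneg_left (pow_le_one₀ (norm_nonneg _) (h1 x)) (norm_nonneg _)
        _ ≤ ε := by rw [mul_one]; exact hx.le

theorem iterate_powMap_norm (d : ℕ) (hd : d ≠ 0) (k : ℕ) (z : Disc) :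
    ‖(((powMap d)^[k] z : Disc) : ℂ)‖ ≤ ‖(z : ℂ)‖ := by
  induction k with
  | zero => exact le_rfl
  | succ k ih =>
    rw [Function.iterate_succ_apply']
    refine le_trans ?_ ih
    change ‖(((powMap d)^[k] z : Disc) : ℂ) ^ d‖ ≤ _
    rw [norm_pow]
    exact pow_le_of_le_one (norm_nonneg _) (disc_norm_le _) hd

/-- Data of an orbit all of whose other preimages are zeros of the weight. -/
structure KillOrbit (d : ℕ) (w : discAlgebra) (y : ℕ → Disc) : Prop where
  step : ∀ n, powMap d (y n) = y (n + 1)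
  norm : ∀ n, ‖(y n : ℂ)‖ = 1
  kill0 : ∀ u : Disc, powMap d u = y 0 → w.1 u = 0
  kill : ∀ (n : ℕ) (u : Disc), powMap d u = y (n + 1) → u ≠ y n → w.1 u = 0
  ne : ∀ n, w.1 (y n) ≠ 0

theorem KillOrbit.iter {d : ℕ} {w : discAlgebra} {y : ℕ → Disc} (h : KillOrbit d w y) (n : ℕ) :
    (powMap d)^[n] (y 0) = y n := by
  induction n with
  | zero => rfl
  | succ n ih => rw [Function.iterate_succ_apply', ih, h.step]

theorem KillOrbit.ne_of_lt {d : ℕ} {w : discAlgebra} {y : ℕ → Disc} (h : KillOrbit d w y)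
    (k : ℕ) : ∀ M, k < M → y k ≠ y M := by
  induction k with
  | zero =>
    intro M hM heq
    obtain ⟨M, rfl⟩ : ∃ M', M = M' + 1 := ⟨M - 1, by omega⟩
    exact h.ne M (h.kill0 _ (by rw [h.step, heq]))
  | succ k ih =>
    intro M hM heq
    obtain ⟨M, rfl⟩ : ∃ M', M = M' + 1 := ⟨M - 1, by omega⟩
    refine h.ne M (h.kill k _ (by rw [h.step, heq]) ?_)
    exact (ih M (by omega)).symm

theorem KillOrbit.coc_zero {d : ℕ} {w : discAlgebra} {y : ℕ → Disc} (h : KillOrbit d w y)
    (m : ℕ) : ∀ u : Disc, (powMap d)^[m + 1] u = y m → coc d w (m + 1) u = 0 := by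
  induction m with
  | zero =>
    intro u hu
    have h0 := h.kill0 u hu
    simp [coc, h0]
  | succ m ih =>
    intro u hu
    rw [coc_succ]
    by_cases hc : (powMap d)^[m + 1] u = y m
    · rw [ih u hc, zero_mul]
    · rw [Function.iterate_succ_apply'] at hu
      rw [h.kill m _ hu hc, mul_zero]

/-- The test functions. -/
noncomputable def testFun (d : ℕ) (hd : d ≠ 0) (w : discAlgebra) (p : Disc) (μ c : ℂ)
    (M N : ℕ) : discAlgebra :=
  c • ∑ k ∈ Finset.range (M + 1), (μ⁻¹) ^ k • ((wcomp d hd w) ^ k) (peak p N)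

theorem testFun_apply (d : ℕ) (hd : d ≠ 0) (w : discAlgebra) (p : Disc) (μ c : ℂ)
    (M N : ℕ) (z : Disc) :
    (testFun d hd w p μ c M N).1 z = c * ∑ k ∈ Finset.range (M + 1),
      (μ⁻¹) ^ k * (coc d w k z * (peak p N).1 ((powMap d)^[k] z)) := by
  have h1 : ∀ k, (((wcomp d hd w) ^ k) (peak p N)).1 z
      = coc d w k z * (peak p N).1 ((powMap d)^[k] z) := fun k => iter_apply d hd w k _ z
  unfold testFun
  change c * (((∑ k ∈ Finset.range (M + 1), (μ⁻¹) ^ k • ((wcomp d hd w) ^ k) (peak p N)) :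
    discAlgebra) : C(Disc, ℂ)) z = _
  rw [Submodule.coe_sum, ContinuousMap.sum_apply]
  congr 1
  refine Finset.sum_congr rfl fun k _ => ?_
  rw [← h1]
  rfl

theorem testFun_eq (d : ℕ) (hd : d ≠ 0) (w : discAlgebra) (p : Disc) (μ c : ℂ) (hμ : μ ≠ 0)
    (M N : ℕ) :
    wcomp d hd w (testFun d hd w p μ c M N) - μ • testFun d hd w p μ c M N
      = c • ((μ⁻¹) ^ M • ((wcomp d hd w) ^ (M + 1)) (peak p N) - μ • peak p N) := by
  unfold testFun
  rw [map_smul, smul_comm μ c]
  refine (smul_sub c _ _).symm.trans ?_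
  congr 1
  induction M with
  | zero =>
    rw [Nat.zero_add, Finset.sum_range_one, pow_zero, pow_zero, pow_one, one_smul, one_smul]
    rfl
  | succ M ih =>
    rw [Finset.sum_range_succ, map_add, smul_add, add_sub_add_comm, ih, map_smul, ← smul_assoc,
      smul_eq_mul]
    have h2 : μ * μ⁻¹ ^ (M + 1) = μ⁻¹ ^ M := by
      rw [pow_succ, mul_comm, mul_assoc, inv_mul_cancel₀ hμ, mul_one]
    rw [h2]
    have h3 : (wcomp d hd w) (((wcomp d hd w) ^ (M + 1)) (peak p N))
        = ((wcomp d hd w) ^ (M + 1 + 1)) (peak p N) := by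
      rw [pow_succ' _ (M + 1)]
      rfl
    rw [h3]
    abel

/-- Key lemma. -/
theorem key (d : ℕ) (hd : d ≠ 0) (w : discAlgebra) (y : ℕ → Disc) (h : KillOrbit d w y)
    (r₀ : ℝ) (hr₀ : 0 < r₀) (hw : ∀ M, r₀ ^ M ≤ ∏ n ∈ Finset.range M, ‖w.1 (y n)‖)
    (μ : ℂ) (hμ0 : μ ≠ 0) (hμ : ‖μ‖ < r₀) : μ ∈ usf (wcomp d hd w) := by
  have hμn : 0 < ‖μ‖ := norm_pos_iff.mpr hμ0
  have hcoc : ∀ M, coc d w M (y 0) = ∏ n ∈ Finset.range M, w.1 (y n) := by
    intro M
    unfold coc
    exact Finset.prod_congr rfl fun i _ => by rw [h.iter]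
  have hcocne : ∀ M, coc d w M (y 0) ≠ 0 := by
    intro M
    rw [hcoc]
    exact Finset.prod_ne_zero_iff.mpr fun n _ => h.ne n
  set c : ℕ → ℂ := fun M => μ ^ M / coc d w M (y 0) with hc
  have hcn : ∀ M, ‖c M‖ ≤ (‖μ‖ / r₀) ^ M := by
    intro M
    rw [hc]
    simp only
    rw [norm_div, norm_pow, div_pow, hcoc, norm_prod]
    exact div_le_div_of_nonneg_left (by positivity) (by positivity) (hw M)
  -- for each `M` a good `N`
  have hex : ∀ M : ℕ, ∃ N : ℕ, ‖((wcomp d hd w) ^ (M + 1)) (peak (y M) N)‖ ≤ ‖μ‖ ^ (M + 1) ∧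
      1 / 2 ≤ ‖(testFun d hd w (y M) μ (c M) M N).1 (y 0)‖ ∧
      ∀ z : Disc, ‖(z : ℂ)‖ ≤ 1 - 1 / ((M : ℝ) + 1) →
        ‖(testFun d hd w (y M) μ (c M) M N).1 z‖ ≤ 1 / ((M : ℝ) + 1) := by
    intro M
    -- first condition
    have e1 : ∀ᶠ N : ℕ in atTop,
        ‖((wcomp d hd w) ^ (M + 1)) (peak (y M) N)‖ ≤ ‖μ‖ ^ (M + 1) := by
      have hd1 := dini (coc d w (M + 1))
        (fun z => (1 + (starRingEnd ℂ) (y M : ℂ) * (((powMap d)^[M + 1] z : Disc) : ℂ)) / 2)
        (continuous_coc d w (M + 1))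
        (by
          have := (continuous_powMap d).iterate (M + 1)
          fun_prop)
        (fun z => (peak_base_le _ _).trans (by
          have := disc_norm_le ((powMap d)^[M + 1] z)
          linarith))
        (by
          intro z
          by_cases hz : (powMap d)^[M + 1] z = y M
          · exact Or.inr (h.coc_zero M z hz)
          · exact Or.inl (peak_base_lt _ _ (h.norm M) hz))
        (‖μ‖ ^ (M + 1)) (by positivity)
      filter_upwards [hd1] with N hN
      refine (ContinuousMap.norm_le _ (by positivity)).mpr fun z => ?_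
      have h1 := iter_apply d hd w (M + 1) (peak (y M) N) z
      change ‖(((wcomp d hd w) ^ (M + 1)) (peak (y M) N)).1 z‖ ≤ _
      rw [h1, peak_apply]
      exact hN z
    -- second condition
    have e2 : ∀ᶠ N : ℕ in atTop,
        1 / 2 ≤ ‖(testFun d hd w (y M) μ (c M) M N).1 (y 0)‖ := by
      have hlim : Tendsto (fun N : ℕ => (testFun d hd w (y M) μ (c M) M N).1 (y 0)) atTop
          (𝓝 (c M * (∑ k ∈ Finset.range M, (μ⁻¹) ^ k * (coc d w k (y 0) * 0)
            + (μ⁻¹) ^ M * (coc d w M (y 0) * 1)))) := by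
        have : (fun N : ℕ => (testFun d hd w (y M) μ (c M) M N).1 (y 0))
            = fun N : ℕ => c M * (∑ k ∈ Finset.range M,
              (μ⁻¹) ^ k * (coc d w k (y 0) * (peak (y M) N).1 (y k))
            + (μ⁻¹) ^ M * (coc d w M (y 0) * (peak (y M) N).1 (y M))) := by
          funext N
          rw [testFun_apply, Finset.sum_range_succ]
          simp only [h.iter]
        rw [this]
        refine Tendsto.const_mul _ (Tendsto.add (tendsto_finsetSum _ fun k hk => ?_) ?_)
        · refine Tendsto.const_mul _ (Tendsto.const_mul _ ?_)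
          have hk' : y k ≠ y M := h.ne_of_lt k M (Finset.mem_range.mp hk)
          have := peak_base_lt (y M) (y k) (h.norm M) hk'
          exact tendsto_pow_atTop_nhds_zero_of_norm_lt_one this
        · refine Tendsto.const_mul _ (Tendsto.const_mul _ ?_)
          have : (fun N : ℕ => (peak (y M) N).1 (y M)) = fun _ => (1 : ℂ) := by
            funext N
            exact peak_self _ (h.norm M) N
          rw [this]
          exact tendsto_const_nhds
      have hval : c M * (∑ k ∈ Finset.range M, (μ⁻¹) ^ k * (coc d w k (y 0) * 0)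
            + (μ⁻¹) ^ M * (coc d w M (y 0) * 1)) = 1 := by
        simp only [mul_zero, Finset.sum_const_zero, zero_add, mul_one, hc]
        have := hcocne M
        field_simp
        rw [← mul_pow, one_div, mul_inv_cancel₀ hμ0, one_pow]
      rw [hval] at hlim
      have hlim2 := hlim.norm
      rw [norm_one] at hlim2
      exact hlim2.eventually (le_mem_nhds (by norm_num))
    -- third condition
    have e3 : ∀ᶠ N : ℕ in atTop, ∀ z : Disc, ‖(z : ℂ)‖ ≤ 1 - 1 / ((M : ℝ) + 1) →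
        ‖(testFun d hd w (y M) μ (c M) M N).1 z‖ ≤ 1 / ((M : ℝ) + 1) := by
      set ρ : ℝ := 1 - 1 / ((M : ℝ) + 1) with hρ
      have hM1 : (0 : ℝ) < 1 / ((M : ℝ) + 1) := by positivity
      have hM2 : 1 / ((M : ℝ) + 1) ≤ 1 := by
        rw [div_le_one (by positivity)]
        linarith [Nat.cast_nonneg (α := ℝ) M]
      obtain ⟨Q, hQ⟩ : ∃ Q : ℝ, ∀ z : Disc,
          ‖c M‖ * ∑ k ∈ Finset.range (M + 1), ‖(μ⁻¹) ^ k‖ * ‖coc d w k z‖ ≤ Q := by
        have hcont : Continuous fun z : Disc =>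
            ‖c M‖ * ∑ k ∈ Finset.range (M + 1), ‖(μ⁻¹) ^ k‖ * ‖coc d w k z‖ := by
          refine continuous_const.mul (continuous_finsetSum _ fun k _ => ?_)
          exact continuous_const.mul (continuous_coc d w k).norm
        obtain ⟨Q, hQ⟩ := isCompact_univ.exists_bound_of_continuousOn hcont.continuousOn
        exact ⟨Q, fun z => (le_abs_self _).trans (hQ z (Set.mem_univ z))⟩
      have ht : Tendsto (fun N : ℕ => Q * ((1 + ρ) / 2) ^ N) atTop (𝓝 (Q * 0)) := by
        refine (tendsto_pow_atTop_nhds_zero_of_lt_one ?_ ?_).const_mul Q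
        · rw [hρ]; linarith
        · rw [hρ]; linarith
      rw [mul_zero] at ht
      filter_upwards [ht.eventually (ge_mem_nhds hM1)] with N hN z hz
      refine le_trans ?_ hN
      rw [testFun_apply, norm_mul]
      have hb : ∀ k, ‖(peak (y M) N).1 ((powMap d)^[k] z)‖ ≤ ((1 + ρ) / 2) ^ N := by
        intro k
        rw [peak_apply, norm_pow]
        refine pow_le_pow_left₀ (norm_nonneg _) ((peak_base_le _ _).trans ?_) N
        have := iterate_powMap_norm d hd k z
        linarith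
      calc ‖c M‖ * ‖∑ k ∈ Finset.range (M + 1), (μ⁻¹) ^ k *
            (coc d w k z * (peak (y M) N).1 ((powMap d)^[k] z))‖
          ≤ ‖c M‖ * ∑ k ∈ Finset.range (M + 1), (‖(μ⁻¹) ^ k‖ * ‖coc d w k z‖) *
              ((1 + ρ) / 2) ^ N := by
            refine mul_le_mul_of_nonneg_left ((norm_sum_le _ _).trans ?_) (norm_nonneg _)
            refine Finset.sum_le_sum fun k _ => ?_
            rw [norm_mul, norm_mul, ← mul_assoc]
            exact mul_le_mul_of_nonneg_left (hb k) (by positivity)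
        _ = (‖c M‖ * ∑ k ∈ Finset.range (M + 1), (‖(μ⁻¹) ^ k‖ * ‖coc d w k z‖)) *
              ((1 + ρ) / 2) ^ N := by
            rw [← Finset.sum_mul, mul_assoc]
        _ ≤ Q * ((1 + ρ) / 2) ^ N := by
            refine mul_le_mul_of_nonneg_right (hQ z) ?_
            have : 0 ≤ (1 + ρ) / 2 := by rw [hρ]; linarith
            positivity
    obtain ⟨N, h1, h2, h3⟩ := (e1.and (e2.and e3)).exists
    exact ⟨N, h1, h2, h3⟩
  choose N hN1 hN2 hN3 using hex
  set f : ℕ → discAlgebra := fun M => testFun d hd w (y M) μ (c M) M (N M) with hf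
  have hfn : ∀ M, 1 / 2 ≤ ‖f M‖ := fun M => (hN2 M).trans ((f M).1.norm_coe_le_norm _)
  have hfpos : ∀ M, 0 < ‖f M‖ := fun M => lt_of_lt_of_le (by norm_num) (hfn M)
  have hfinv : ∀ M, ‖f M‖⁻¹ ≤ 2 := by
    intro M
    have := inv_anti₀ (by norm_num : (0 : ℝ) < 1 / 2) (hfn M)
    rw [one_div, inv_inv] at this
    exact this
  refine ⟨fun M => ((‖f M‖⁻¹ : ℝ) : ℂ) • f M, ?_, ?_, ?_⟩
  · intro M
    rw [norm_smul, Complex.norm_real, Real.norm_eq_abs, abs_of_pos (inv_pos.mpr (hfpos M))]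
    exact inv_mul_cancel₀ (hfpos M).ne'
  · rintro φ hφ ⟨x, hx⟩
    have hx1 : ‖x‖ = 1 := by
      have h1 := hx.norm
      have h2 : (fun n => ‖((‖f (φ n)‖⁻¹ : ℝ) : ℂ) • f (φ n)‖) = fun _ => (1 : ℝ) := by
        funext M
        rw [norm_smul, Complex.norm_real, Real.norm_eq_abs,
          abs_of_pos (inv_pos.mpr (hfpos _))]
        exact inv_mul_cancel₀ (hfpos _).ne'
      rw [h2] at h1
      exact (tendsto_nhds_unique h1 tendsto_const_nhds)
    have hpt : ∀ z : Disc, ‖(z : ℂ)‖ < 1 → x.1 z = 0 := by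
      intro z hz
      have hev : Tendsto (fun n => (((‖f (φ n)‖⁻¹ : ℝ) : ℂ) • f (φ n)).1 z) atTop
          (𝓝 (x.1 z)) := by
        have h1 : Tendsto (fun n => (((‖f (φ n)‖⁻¹ : ℝ) : ℂ) • f (φ n)).1) atTop
            (𝓝 x.1) := (continuous_subtype_val.tendsto _).comp hx
        exact ((continuous_eval_const z).tendsto _).comp h1
      have hz0 : Tendsto (fun n => (((‖f (φ n)‖⁻¹ : ℝ) : ℂ) • f (φ n)).1 z) atTop
          (𝓝 0) := by
        rw [tendsto_zero_iff_norm_tendsto_zero]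
        have hup : Tendsto (fun n => 2 * (1 / (((φ n : ℕ) : ℝ) + 1))) atTop (𝓝 (2 * 0)) := by
          refine Tendsto.const_mul 2 ?_
          exact (tendsto_one_div_add_atTop_nhds_zero_nat (𝕜 := ℝ)).comp hφ.tendsto_atTop
        rw [mul_zero] at hup
        refine squeeze_zero' (Eventually.of_forall fun n => norm_nonneg _) ?_ hup
        have hev2 : ∀ᶠ n in atTop, ‖(z : ℂ)‖ ≤ 1 - 1 / (((φ n : ℕ) : ℝ) + 1) := by
          have ht : Tendsto (fun n => 1 - 1 / (((φ n : ℕ) : ℝ) + 1)) atTop (𝓝 (1 - 0)) := by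
            refine Tendsto.const_sub 1 ?_
            exact (tendsto_one_div_add_atTop_nhds_zero_nat (𝕜 := ℝ)).comp hφ.tendsto_atTop
          rw [sub_zero] at ht
          exact ht.eventually (le_mem_nhds hz)
        filter_upwards [hev2] with n hn
        change ‖((‖f (φ n)‖⁻¹ : ℝ) : ℂ) * (f (φ n)).1 z‖ ≤ _
        rw [norm_mul, Complex.norm_real, Real.norm_eq_abs,
          abs_of_pos (inv_pos.mpr (hfpos _))]
        exact mul_le_mul (hfinv _) (hN3 _ z hn) (norm_nonneg _) (by norm_num)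
      exact tendsto_nhds_unique hev hz0
    have hx0 : x = 0 := by
      apply Subtype.ext
      have hdense : Dense {z : Disc | ‖(z : ℂ)‖ < 1} := by
        intro z
        rw [mem_closure_iff_seq_limit]
        have hle := disc_norm_le z
        have hs : ∀ n : ℕ, 0 ≤ 1 - 1 / ((n : ℝ) + 1) ∧ 1 - 1 / ((n : ℝ) + 1) < 1 := by
          intro n
          have h1 : (0 : ℝ) < 1 / ((n : ℝ) + 1) := by positivity
          have h2 : 1 / ((n : ℝ) + 1) ≤ 1 := by
            rw [div_le_one (by positivity)]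
            linarith [Nat.cast_nonneg (α := ℝ) n]
          constructor <;> linarith
        have hsn : ∀ n : ℕ, ‖(((1 - 1 / ((n : ℝ) + 1) : ℝ) : ℂ) * (z : ℂ))‖ < 1 := by
          intro n
          rw [norm_mul, Complex.norm_real, Real.norm_eq_abs, abs_of_nonneg (hs n).1]
          nlinarith [(hs n).1, (hs n).2, norm_nonneg (z : ℂ)]
        refine ⟨fun n => ⟨(((1 - 1 / ((n : ℝ) + 1) : ℝ) : ℂ) * (z : ℂ)),
          by rw [mem_closedBall_zero_iff]; exact (hsn n).le⟩, fun n => hsn n, ?_⟩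
        rw [tendsto_subtype_rng]
        have ht : Tendsto (fun n : ℕ => 1 - 1 / ((n : ℝ) + 1)) atTop (𝓝 (1 - 0)) :=
          Tendsto.const_sub 1 (tendsto_one_div_add_atTop_nhds_zero_nat (𝕜 := ℝ))
        rw [sub_zero] at ht
        have ht2 := ((Complex.continuous_ofReal.tendsto _).comp ht).mul_const (z : ℂ)
        simpa using ht2
      refine ContinuousMap.ext fun z => ?_
      have hcl : IsClosed {z : Disc | x.1 z = 0} := isClosed_eq x.1.continuous continuous_const
      have hsub : {z : Disc | ‖(z : ℂ)‖ < 1} ⊆ {z : Disc | x.1 z = 0} := fun z hz => hpt z hz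
      have := (hcl.closure_subset_iff.mpr hsub) (hdense z)
      exact this
    rw [hx0, norm_zero] at hx1
    exact zero_ne_one hx1
  · rw [tendsto_zero_iff_norm_tendsto_zero]
    have hr : ‖μ‖ / r₀ < 1 := (div_lt_one hr₀).mpr hμ
    have hup : Tendsto (fun M : ℕ => 4 * ‖μ‖ * (‖μ‖ / r₀) ^ M) atTop (𝓝 (4 * ‖μ‖ * 0)) :=
      (tendsto_pow_atTop_nhds_zero_of_lt_one (by positivity) hr).const_mul _
    rw [mul_zero] at hup
    refine squeeze_zero (fun n => norm_nonneg _) (fun M => ?_) hup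
    have h1 : (wcomp d hd w) (((‖f M‖⁻¹ : ℝ) : ℂ) • f M) - μ • ((‖f M‖⁻¹ : ℝ) : ℂ) • f M
        = ((‖f M‖⁻¹ : ℝ) : ℂ) • (c M • ((μ⁻¹) ^ M •
          ((wcomp d hd w) ^ (M + 1)) (peak (y M) (N M)) - μ • peak (y M) (N M))) := by
      rw [← testFun_eq d hd w (y M) μ (c M) hμ0 M (N M), map_smul, smul_comm μ]
      exact (smul_sub _ _ _).symm
    rw [h1, norm_smul, norm_smul, Complex.norm_real, Real.norm_eq_abs,
      abs_of_pos (inv_pos.mpr (hfpos _))]
    have h2 : ‖(μ⁻¹) ^ M • ((wcomp d hd w) ^ (M + 1)) (peak (y M) (N M))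
        - μ • peak (y M) (N M)‖ ≤ 2 * ‖μ‖ := by
      refine (norm_sub_le _ _).trans ?_
      rw [norm_smul, norm_smul, norm_pow, norm_inv]
      have h3 : ‖μ‖⁻¹ ^ M * ‖((wcomp d hd w) ^ (M + 1)) (peak (y M) (N M))‖ ≤ ‖μ‖ := by
        calc ‖μ‖⁻¹ ^ M * ‖((wcomp d hd w) ^ (M + 1)) (peak (y M) (N M))‖
            ≤ ‖μ‖⁻¹ ^ M * ‖μ‖ ^ (M + 1) :=
              mul_le_mul_of_nonneg_left (hN1 M) (by positivity)
          _ = ‖μ‖ := by
              rw [pow_succ, ← mul_assoc, ← mul_pow, inv_mul_cancel₀ hμn.ne', one_pow, one_mul]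
      have h4 : ‖μ‖ * ‖peak (y M) (N M)‖ ≤ ‖μ‖ :=
        mul_le_of_le_one_right hμn.le (peak_norm_le _ _)
      linarith
    calc ‖f M‖⁻¹ * (‖c M‖ * ‖(μ⁻¹) ^ M • ((wcomp d hd w) ^ (M + 1)) (peak (y M) (N M))
        - μ • peak (y M) (N M)‖)
        ≤ 2 * ((‖μ‖ / r₀) ^ M * (2 * ‖μ‖)) := by
          refine mul_le_mul (hfinv M) ?_ (by positivity) (by norm_num)
          exact mul_le_mul (hcn M) h2 (norm_nonneg _) (by positivity)
      _ = 4 * ‖μ‖ * (‖μ‖ / r₀) ^ M := by ring

end Pool.Agent.Helper52.Wco
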