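import Mathlib

set_option autoImplicit false

open Filter Topology

namespace Pool.Agent.Helper52.Wco

/-- The period doubling sequence. -/
def xs (n : ℕ) : ℕ := padicValNat 2 n % 2

theorem xs_le (n : ℕ) : xs n ≤ 1 := by
  unfold xs
  omega

theorem xs_odd (n : ℕ) : xs (2 * n + 1) = 0 := by
  unfold xs
  rw [padicValNat.eq_zero_of_not_dvd (by omega)]

theorem xs_even (n : ℕ) (hn : n ≠ 0) : xs (2 * n) = 1 - xs n := by
  unfold xs
  rw [padicValNat.mul (by norm_num) hn, padicValNat_self]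
  omega

theorem xs_parity (n m : ℕ) (h : ∀ i, 1 ≤ i → i ≤ 4 → xs (n + i) = xs (m + i)) :
    n % 2 = m % 2 := by
  have key : ∀ a b : ℕ, a % 2 = 0 → b % 2 = 1 →
      (∀ i, 1 ≤ i → i ≤ 4 → xs (a + i) = xs (b + i)) → False := by
    intro a b ha hb hab
    have h4 : a % 4 = 0 ∨ a % 4 = 2 := by omega
    obtain ⟨i, hi1, hi4, hi2, hi⟩ : ∃ i, 1 ≤ i ∧ i ≤ 4 ∧ i % 2 = 0 ∧ (a + i) % 4 = 2 := by
      rcases h4 with h4 | h4
      · exact ⟨2, by omega, by omega, by omega, by omega⟩
      · exact ⟨4, by omega, by omega, by omega, by omega⟩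
    have h1 := hab i hi1 hi4
    obtain ⟨q, hq⟩ : ∃ q, a + i = 2 * (2 * q + 1) := ⟨(a + i) / 4, by omega⟩
    obtain ⟨p, hp⟩ : ∃ p, b + i = 2 * p + 1 := ⟨(b + i) / 2, by omega⟩
    rw [hq, hp, xs_even _ (by omega), xs_odd, xs_odd] at h1
    omega
  by_contra hne
  have h2 : n % 2 = 0 ∧ m % 2 = 1 ∨ m % 2 = 0 ∧ n % 2 = 1 := by omega
  rcases h2 with ⟨h2, h3⟩ | ⟨h2, h3⟩
  · exact key n m h2 h3 h
  · exact key m n h2 h3 fun i h1 h4 => (h i h1 h4).symm

theorem xs_window (k : ℕ) : ∀ n m : ℕ,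
    (∀ i, 1 ≤ i → i ≤ 4 * 2 ^ k → xs (n + i) = xs (m + i)) → n ≡ m [MOD 2 ^ (k + 1)] := by
  induction k with
  | zero =>
    intro n m h
    exact xs_parity n m (by simpa using h)
  | succ k ih =>
    intro n m h
    have hpos : 0 < 2 ^ k := by positivity
    have hp : n % 2 = m % 2 := by
      refine xs_parity n m fun i h1 h4 => h i h1 ?_
      rw [pow_succ]
      omega
    obtain ⟨n', m', a, ha, rfl, rfl⟩ : ∃ n' m' a, a < 2 ∧ n = 2 * n' + a ∧ m = 2 * m' + a :=
      ⟨n / 2, m / 2, n % 2, by omega, by omega, by omega⟩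
    have h1 : n' ≡ m' [MOD 2 ^ (k + 1)] := by
      refine ih n' m' fun i h1 h4 => ?_
      have h5 := h (2 * i - a) (by omega) (by rw [pow_succ]; omega)
      have e1 : 2 * n' + a + (2 * i - a) = 2 * (n' + i) := by omega
      have e2 : 2 * m' + a + (2 * i - a) = 2 * (m' + i) := by omega
      rw [e1, e2, xs_even _ (by omega), xs_even _ (by omega)] at h5
      have h6 := xs_le (n' + i)
      have h7 := xs_le (m' + i)
      omega
    have h2 : 2 * n' ≡ 2 * m' [MOD 2 * 2 ^ (k + 1)] := Nat.ModEq.mul_left' 2 h1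
    rw [pow_succ' 2 (k + 1)]
    exact h2.add_right a

theorem xs_recog (k p q : ℕ) (hp : p ≠ 0)
    (h : ∀ i, 1 ≤ i → i ≤ 4 * 2 ^ k → xs (p + i) = xs (q + i))
    (hq : q = 0 ∨ xs p ≠ xs q) : 2 ^ (k + 1) ∣ p := by
  have hmod := xs_window k p q h
  rcases hq with rfl | hq
  · exact (Nat.modEq_zero_iff_dvd).mp hmod
  · by_contra hnd
    apply hq
    have hq0 : q ≠ 0 := by
      rintro rfl
      exact hnd ((Nat.modEq_zero_iff_dvd).mp hmod)
    have hiff : ∀ j, j ≤ k + 1 → (2 ^ j ∣ p ↔ 2 ^ j ∣ q) := fun j hj =>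
      (hmod.of_dvd (pow_dvd_pow 2 hj)).dvd_iff (dvd_refl _)
    have hv : padicValNat 2 p < k + 1 := by
      by_contra hcon
      push Not at hcon
      exact hnd ((padicValNat_dvd_iff_le (p := 2) hp).mpr hcon)
    have h1 : padicValNat 2 p ≤ padicValNat 2 q :=
      (padicValNat_dvd_iff_le (p := 2) hq0).mp ((hiff _ hv.le).mp pow_padicValNat_dvd)
    have h2 : padicValNat 2 q ≤ padicValNat 2 p := by
      by_contra hcon
      push Not at hcon
      have h3 : 2 ^ (padicValNat 2 p + 1) ∣ q :=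
        (padicValNat_dvd_iff_le (p := 2) hq0).mpr hcon
      have h4 := (hiff _ (by omega)).mpr h3
      have h5 := (padicValNat_dvd_iff_le (p := 2) hp).mp h4
      omega
    unfold xs
    rw [le_antisymm h1 h2]

/-- The angle of the `n`-th orbit point. -/
noncomputable def theta (d n : ℕ) : ℝ := ∑' i : ℕ, (xs (n + 1 + i) : ℝ) / (d : ℝ) ^ (i + 1)

/-- Truncated angles. -/
noncomputable def tau (d n : ℕ) (l : ℕ) : ℝ :=
  ∑ i ∈ Finset.range l, (xs (n + 1 + i) : ℝ) / (d : ℝ) ^ (i + 1)

section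

variable (d : ℕ) (hd : 3 ≤ d)

include hd

theorem dpos : (3 : ℝ) ≤ d := by exact_mod_cast hd

theorem summable_geo : Summable fun i : ℕ => 1 / (d : ℝ) ^ (i + 1) := by
  have h3 := dpos d hd
  have h1 : Summable fun i : ℕ => (1 / (d : ℝ)) ^ i := by
    refine summable_geometric_of_lt_one (by positivity) ?_
    rw [div_lt_one (by linarith)]
    linarith
  have h2 := (summable_nat_add_iff 1).mpr h1
  simpa [one_div, inv_pow] using h2

theorem tsum_geo : ∑' i : ℕ, 1 / (d : ℝ) ^ (i + 1) = 1 / ((d : ℝ) - 1) := by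
  have h3 := dpos d hd
  have h1 : ∀ i : ℕ, 1 / (d : ℝ) ^ (i + 1) = (1 / (d : ℝ)) * (1 / (d : ℝ)) ^ i := by
    intro i
    rw [pow_succ, one_div_pow]
    field_simp
  rw [tsum_congr h1, tsum_mul_left, tsum_geometric_of_lt_one (by positivity)
    (by rw [div_lt_one (by linarith)]; linarith)]
  have : (d : ℝ) - 1 ≠ 0 := by linarith
  have h5 : (d : ℝ) ≠ 0 := by linarith
  field_simp

theorem term_le (n i : ℕ) :
    (xs (n + 1 + i) : ℝ) / (d : ℝ) ^ (i + 1) ≤ 1 / (d : ℝ) ^ (i + 1) := by
  have h3 := dpos d hd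
  have : (xs (n + 1 + i) : ℝ) ≤ 1 := by exact_mod_cast xs_le _
  gcongr

theorem summable_theta (n : ℕ) :
    Summable fun i : ℕ => (xs (n + 1 + i) : ℝ) / (d : ℝ) ^ (i + 1) := by
  refine Summable.of_nonneg_of_le (fun i => by positivity) (fun i => term_le d hd n i)
    (summable_geo d hd)

theorem theta_nonneg (n : ℕ) : 0 ≤ theta d n := tsum_nonneg fun i => by positivity

theorem theta_le (n : ℕ) : theta d n ≤ 1 / 2 := by
  have h3 := dpos d hd
  calc theta d n ≤ ∑' i : ℕ, 1 / (d : ℝ) ^ (i + 1) :=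
        (summable_theta d hd n).tsum_le_tsum (fun i => term_le d hd n i) (summable_geo d hd)
    _ = 1 / ((d : ℝ) - 1) := tsum_geo d hd
    _ ≤ 1 / 2 := by
        apply one_div_le_one_div_of_le <;> linarith

theorem theta_succ (n : ℕ) : (d : ℝ) * theta d n = xs (n + 1) + theta d (n + 1) := by
  have h3 := dpos d hd
  unfold theta
  rw [(summable_theta d hd n).tsum_eq_zero_add, mul_add, ← tsum_mul_left]
  congr 1
  · have : (d : ℝ) ≠ 0 := by linarith
    simp
    field_simp
  · refine tsum_congr fun i => ?_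
    have : (d : ℝ) ≠ 0 := by linarith
    have e : n + 1 + (i + 1) = n + 1 + 1 + i := by ring
    rw [e, pow_succ (d : ℝ) (i + 1)]
    field_simp

theorem tau_succ (n l : ℕ) : (d : ℝ) * tau d n (l + 1) = xs (n + 1) + tau d (n + 1) l := by
  have h3 := dpos d hd
  unfold tau
  rw [Finset.sum_range_succ', mul_add, Finset.mul_sum, add_comm]
  have : (d : ℝ) ≠ 0 := by linarith
  congr 1
  · simp
    field_simp
  · refine Finset.sum_congr rfl fun i _ => ?_
    have e : n + 1 + (i + 1) = n + 1 + 1 + i := by ring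
    rw [e, pow_succ (d : ℝ) (i + 1)]
    field_simp

theorem theta_sub_tau (n l : ℕ) : theta d n - tau d n l = theta d (n + l) / (d : ℝ) ^ l := by
  have h3 := dpos d hd
  have h0 : (d : ℝ) ≠ 0 := by linarith
  induction l generalizing n with
  | zero => simp [tau]
  | succ l ih =>
    have h1 := theta_succ d hd n
    have h2 := tau_succ d hd n l
    have h4 := ih (n + 1)
    have e : n + 1 + l = n + (l + 1) := by ring
    rw [e] at h4
    have h5 : (d : ℝ) * (theta d n - tau d n (l + 1)) = theta d (n + (l + 1)) / (d : ℝ) ^ l := by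
      rw [← h4]
      linarith
    rw [pow_succ, ← div_div, ← h5]
    field_simp

theorem tau_nonneg (n l : ℕ) : 0 ≤ tau d n l := Finset.sum_nonneg fun i _ => by positivity

theorem tau_le (n l : ℕ) : tau d n l ≤ 1 / 2 := by
  have h3 := dpos d hd
  have h1 := theta_sub_tau d hd n l
  have h2 : 0 ≤ theta d (n + l) / (d : ℝ) ^ l := by
    have := theta_nonneg d hd (n + l)
    positivity
  have := theta_le d hd n
  linarith

theorem theta_sub_tau_le (n l : ℕ) : theta d n - tau d n l ≤ 1 / 2 / (d : ℝ) ^ l := by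
  have h3 := dpos d hd
  rw [theta_sub_tau d hd]
  exact div_le_div_of_nonneg_right (theta_le d hd _) (by positivity)

theorem theta_sub_tau_nonneg (n l : ℕ) : 0 ≤ theta d n - tau d n l := by
  have h3 := dpos d hd
  rw [theta_sub_tau d hd]
  have := theta_nonneg d hd (n + l)
  positivity

/-- Close angles have equal digits. -/
theorem digits_eq (l : ℕ) : ∀ (n m L : ℕ), l ≤ L →
    |theta d n - tau d m L| < 1 / 2 / (d : ℝ) ^ l →
    ∀ i, 1 ≤ i → i ≤ l → xs (n + i) = xs (m + i) := by
  have h3 := dpos d hd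
  induction l with
  | zero =>
    intro n m L _ _ i h1 h2
    omega
  | succ l ih =>
    intro n m L hL hlt i h1 h2
    obtain ⟨L, rfl⟩ : ∃ L', L = L' + 1 := ⟨L - 1, by omega⟩
    have e1 := theta_succ d hd n
    have e2 := tau_succ d hd m L
    have hd0 : (0 : ℝ) < d := by linarith
    have hlt2 : |((xs (n + 1) : ℝ) - xs (m + 1)) + (theta d (n + 1) - tau d (m + 1) L)|
        < 1 / 2 / (d : ℝ) ^ l := by
      have e3 : ((xs (n + 1) : ℝ) - xs (m + 1)) + (theta d (n + 1) - tau d (m + 1) L)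
          = d * (theta d n - tau d m (L + 1)) := by linarith
      rw [e3, abs_mul, abs_of_pos hd0]
      rw [pow_succ, ← div_div, lt_div_iff₀ hd0] at hlt
      linarith
    have hb1 : |theta d (n + 1) - tau d (m + 1) L| ≤ 1 / 2 := by
      have := theta_nonneg d hd (n + 1)
      have := theta_le d hd (n + 1)
      have := tau_nonneg d hd (m + 1) L
      have := tau_le d hd (m + 1) L
      rw [abs_le]
      constructor <;> linarith
    have hpow : (1 : ℝ) / 2 / (d : ℝ) ^ l ≤ 1 / 2 := by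
      apply div_le_self (by norm_num)
      exact one_le_pow₀ (by linarith)
    have hx : xs (n + 1) = xs (m + 1) := by
      have hlt3 : |((xs (n + 1) : ℝ) - xs (m + 1))| < 1 := by
        have := abs_sub_abs_le_abs_sub ((xs (n + 1) : ℝ) - xs (m + 1))
          (-(theta d (n + 1) - tau d (m + 1) L))
        rw [sub_neg_eq_add, abs_neg] at this
        linarith
      have hlt4 : |((xs (n + 1) : ℤ) - xs (m + 1))| < 1 := by exact_mod_cast hlt3
      rw [abs_lt] at hlt4
      omega
    rcases Nat.eq_or_lt_of_le h1 with h | h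
    · rw [← h]; exact hx
    · have h5 := ih (n + 1) (m + 1) L (by omega) (by
        rw [hx, sub_self, zero_add] at hlt2
        exact hlt2) (i - 1) (by omega) (by omega)
      have e4 : n + 1 + (i - 1) = n + i := by omega
      have e5 : m + 1 + (i - 1) = m + i := by omega
      rwa [e4, e5] at h5

end

/-- The point of the unit circle with angle `t`. -/
noncomputable def ee (t : ℝ) : ℂ := Complex.exp (2 * Real.pi * t * Complex.I)

theorem ee_norm (t : ℝ) : ‖ee t‖ = 1 := by
  unfold ee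
  have : (2 * Real.pi * t * Complex.I : ℂ) = ((2 * Real.pi * t : ℝ) : ℂ) * Complex.I := by
    push_cast
    ring
  rw [this, Complex.norm_exp_ofReal_mul_I]

theorem ee_add (s t : ℝ) : ee (s + t) = ee s * ee t := by
  unfold ee
  rw [← Complex.exp_add]
  congr 1
  push_cast
  ring

theorem ee_int (n : ℤ) : ee n = 1 := by
  unfold ee
  rw [Complex.exp_eq_one_iff]
  exact ⟨n, by push_cast; ring⟩

theorem ee_nat (n : ℕ) : ee n = 1 := by
  have := ee_int n
  simpa using this

theorem ee_nat_mul (n : ℕ) (t : ℝ) : ee (n * t) = ee t ^ n := by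
  unfold ee
  rw [← Complex.exp_nat_mul]
  congr 1
  push_cast
  ring

theorem ee_sub_norm (s t : ℝ) : ‖ee s - ee t‖ = ‖ee (s - t) - 1‖ := by
  have h1 : ee s = ee (s - t) * ee t := by
    rw [← ee_add]
    congr 1
    ring
  rw [h1]
  have h2 : ee (s - t) * ee t - ee t = (ee (s - t) - 1) * ee t := by ring
  rw [h2, norm_mul, ee_norm, mul_one]

theorem ee_sub_one_norm (t : ℝ) : ‖ee t - 1‖ = 2 * |Real.sin (Real.pi * t)| := by
  unfold ee
  have h1 : (2 * Real.pi * t * Complex.I : ℂ) = Complex.I * ((2 * Real.pi * t : ℝ) : ℂ) := by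
    push_cast
    ring
  rw [h1, Complex.norm_exp_I_mul_ofReal_sub_one]
  rw [Real.norm_eq_abs, abs_mul]
  have h2 : 2 * Real.pi * t / 2 = Real.pi * t := by ring
  rw [h2, abs_two]

theorem ee_sub_norm_le (s t : ℝ) : ‖ee s - ee t‖ ≤ 2 * Real.pi * |s - t| := by
  rw [ee_sub_norm, ee_sub_one_norm]
  have h1 : |Real.sin (Real.pi * (s - t))| ≤ |Real.pi * (s - t)| := Real.abs_sin_le_abs
  rw [abs_mul, abs_of_pos Real.pi_pos] at h1
  linarith

/-- A lower bound for chords. -/
theorem ee_close (t : ℝ) : 4 * |t - round t| ≤ ‖ee t - 1‖ := by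
  have h1 : ee t = ee (t - round t) := by
    have h2 : t = (t - round t) + (round t : ℝ) := by ring
    conv_lhs => rw [h2, ee_add, ee_int, mul_one]
  rw [h1, ee_sub_one_norm]
  set s := t - round t with hs
  have hsle : |s| ≤ 1 / 2 := abs_sub_round t
  have h3 : |Real.sin (Real.pi * s)| = Real.sin (Real.pi * |s|) := by
    rcases le_total 0 s with h | h
    · rw [abs_of_nonneg h, abs_of_nonneg]
      rw [abs_of_nonneg h] at hsle
      refine Real.sin_nonneg_of_nonneg_of_le_pi (by positivity) ?_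
      nlinarith [Real.pi_pos]
    · rw [abs_of_nonpos h]
      rw [abs_of_nonpos h] at hsle
      have h5 : Real.pi * -s = -(Real.pi * s) := by ring
      rw [h5, Real.sin_neg, abs_of_nonpos]
      have h6 : 0 ≤ Real.sin (Real.pi * -s) := by
        refine Real.sin_nonneg_of_nonneg_of_le_pi ?_ ?_
        · have := Real.pi_pos
          nlinarith
        · nlinarith [Real.pi_pos]
      rw [h5, Real.sin_neg] at h6
      linarith
  rw [h3]
  have h4 := Real.mul_le_sin (x := Real.pi * |s|) (by positivity) (by nlinarith [Real.pi_pos])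
  have h5 : 2 / Real.pi * (Real.pi * |s|) = 2 * |s| := by
    field_simp
  rw [h5] at h4
  linarith

/-- If an orbit point is very close to a truncated kill point then its index is highly
divisible. -/
theorem near_net (d : ℕ) (hd : 3 ≤ d) (k n m j q l : ℕ) (hj : j < d) (hl : 4 * 2 ^ k ≤ l)
    (hq : l ≤ q) (hm : m = 0 ∨ j ≠ xs m)
    (hclose : ‖ee (theta d n) - ee ((j + tau d m q) / d)‖ < 1 / (d : ℝ) ^ (l + 1)) :
    2 ^ (k + 1) ∣ n + 1 := by
  have h3 := dpos d hd
  have hd0 : (0 : ℝ) < d := by linarith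
  set t := theta d n - (j + tau d m q) / d with ht
  rw [ee_sub_norm, ← ht] at hclose
  have h1 := ee_close t
  set p := round t with hp
  have h2 : 4 * |t - p| < 1 / (d : ℝ) ^ (l + 1) := lt_of_le_of_lt h1 hclose
  have e1 := theta_succ d hd n
  have e2 : d * (t - p) = ((xs (n + 1) : ℝ) - j - d * p) + (theta d (n + 1) - tau d m q) := by
    rw [ht]
    field_simp
    linarith
  have h4 : |((xs (n + 1) : ℝ) - j - d * p) + (theta d (n + 1) - tau d m q)|
      < 1 / 2 / (d : ℝ) ^ l := by
    rw [← e2, abs_mul, abs_of_pos hd0]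
    rw [pow_succ, ← div_div, lt_div_iff₀ hd0] at h2
    have h5 : 0 < 1 / (d : ℝ) ^ l := by positivity
    have h6 : 1 / 2 / (d : ℝ) ^ l = (1 / (d : ℝ) ^ l) / 2 := by ring
    rw [h6]
    nlinarith
  have hb1 : |theta d (n + 1) - tau d m q| ≤ 1 / 2 := by
    have := theta_nonneg d hd (n + 1)
    have := theta_le d hd (n + 1)
    have := tau_nonneg d hd m q
    have := tau_le d hd m q
    rw [abs_le]
    constructor <;> linarith
  have hpow : (1 : ℝ) / 2 / (d : ℝ) ^ l ≤ 1 / 2 := by
    apply div_le_self (by norm_num)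
    exact one_le_pow₀ (by linarith)
  have hx : (xs (n + 1) : ℤ) - j - d * p = 0 := by
    have hlt3 : |((xs (n + 1) : ℝ) - j - d * p)| < 1 := by
      have := abs_sub_abs_le_abs_sub ((xs (n + 1) : ℝ) - j - d * p)
        (-(theta d (n + 1) - tau d m q))
      rw [sub_neg_eq_add, abs_neg] at this
      linarith
    have hlt4 : |((xs (n + 1) : ℤ) - j - d * p)| < 1 := by exact_mod_cast hlt3
    rw [abs_lt] at hlt4
    omega
  have hxle := xs_le (n + 1)
  have hp0 : p = 0 := by
    by_contra hne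
    rcases lt_or_gt_of_ne hne with h | h
    · have h5 : (d : ℤ) * p ≤ -d := by nlinarith
      omega
    · have h5 : (d : ℤ) ≤ d * p := by nlinarith
      omega
  have hxj : xs (n + 1) = j := by
    rw [hp0] at hx
    omega
  have h5 : |theta d (n + 1) - tau d m q| < 1 / 2 / (d : ℝ) ^ l := by
    rw [hp0, hxj] at h4
    simpa using h4
  have h6 := digits_eq d hd l (n + 1) m q hq h5
  refine xs_recog k (n + 1) m (by omega) (fun i h1 h2 => h6 i h1 (h2.trans hl)) ?_
  rcases hm with hm | hm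
  · exact Or.inl hm
  · right
    rw [hxj]
    exact hm

end Pool.Agent.Helper52.Wco
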