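import Mathlib
import Pool.Agent.Helper52.WcoDefs
import Pool.Agent.Helper52.WcoKey
import Pool.Agent.Helper52.WcoSeq

set_option autoImplicit false

open Filter Topology

namespace Pool.Agent.Helper52.Wco

/-- Possible truncated numerators. -/
def tset (d : ℕ) : ℕ → Finset ℕ
  | 0 => {0}
  | q + 1 => tset d q ∪ (tset d q).image (fun t => t + d ^ q)

theorem tset_card (d q : ℕ) : (tset d q).card ≤ 2 ^ q := by
  induction q with
  | zero => simp [tset]
  | succ q ih =>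
    rw [tset, pow_succ]
    refine (Finset.card_union_le _ _).trans ?_
    have := (Finset.card_image_le (s := tset d q) (f := fun t => t + d ^ q))
    omega

theorem tau_mem (d : ℕ) (hd : 3 ≤ d) (q : ℕ) :
    ∀ m, ∃ t ∈ tset d q, (d : ℝ) ^ q * tau d m q = t := by
  induction q with
  | zero =>
    intro m
    exact ⟨0, by simp [tset], by simp [tau]⟩
  | succ q ih =>
    intro m
    obtain ⟨t, ht, hte⟩ := ih (m + 1)
    have h1 := tau_succ d hd m q
    have h2 : (d : ℝ) ^ (q + 1) * tau d m (q + 1) = (d : ℝ) ^ q * xs (m + 1) + t := by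
      rw [pow_succ, mul_assoc, h1, mul_add, hte]
    have hx := xs_le (m + 1)
    rcases Nat.eq_zero_or_pos (xs (m + 1)) with h | h
    · refine ⟨t, ?_, ?_⟩
      · rw [tset]
        exact Finset.mem_union_left _ ht
      · rw [h2, h]
        simp
    · have h5 : xs (m + 1) = 1 := by omega
      refine ⟨t + d ^ q, ?_, ?_⟩
      · rw [tset]
        exact Finset.mem_union_right _ (Finset.mem_image_of_mem _ ht)
      · rw [h2, h5]
        push_cast
        ring

open Classical in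
/-- Numerators of the net points of level `q + 1`. -/
noncomputable def netSet (d q : ℕ) : Finset ℕ :=
  (Finset.range (d ^ (q + 1))).filter
    (fun a => ∃ m j : ℕ, j < d ∧ (m = 0 ∨ j ≠ xs m) ∧
      (a : ℝ) / (d : ℝ) ^ (q + 1) = (j + tau d m q) / d)

theorem mem_netSet (d q a : ℕ) : a ∈ netSet d q ↔ a < d ^ (q + 1) ∧
    ∃ m j : ℕ, j < d ∧ (m = 0 ∨ j ≠ xs m) ∧
      (a : ℝ) / (d : ℝ) ^ (q + 1) = (j + tau d m q) / d := by
  simp only [netSet, Finset.mem_filter, Finset.mem_range]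

theorem exists_net (d : ℕ) (hd : 3 ≤ d) (q m j : ℕ) (hj : j < d) (hm : m = 0 ∨ j ≠ xs m) :
    ∃ a ∈ netSet d q, (a : ℝ) / (d : ℝ) ^ (q + 1) = (j + tau d m q) / d := by
  have h3 := dpos d hd
  obtain ⟨t, ht, hte⟩ := tau_mem d hd q m
  have hpq : (0 : ℝ) < (d : ℝ) ^ q := by positivity
  have hval : ((j * d ^ q + t : ℕ) : ℝ) / (d : ℝ) ^ (q + 1) = (j + tau d m q) / d := by
    push_cast
    rw [← hte, pow_succ]
    field_simp
  refine ⟨j * d ^ q + t, ?_, hval⟩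
  rw [mem_netSet]
  refine ⟨?_, m, j, hj, hm, hval⟩
  have htau := tau_le d hd m q
  have ht1 : (t : ℝ) < (d : ℝ) ^ q := by
    rw [← hte]
    nlinarith
  have ht2 : t < d ^ q := by exact_mod_cast ht1
  calc j * d ^ q + t < j * d ^ q + d ^ q := by omega
    _ = (j + 1) * d ^ q := by ring
    _ ≤ d * d ^ q := Nat.mul_le_mul_right _ (by omega)
    _ = d ^ (q + 1) := by ring

theorem netSet_card (d : ℕ) (hd : 3 ≤ d) (q : ℕ) : (netSet d q).card ≤ d * 2 ^ q := by
  have h3 := dpos d hd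
  have hsub : netSet d q ⊆ (Finset.range d ×ˢ tset d q).image (fun p => p.1 * d ^ q + p.2) := by
    intro a ha
    rw [mem_netSet] at ha
    obtain ⟨-, m, j, hj, hm, hval⟩ := ha
    obtain ⟨t, ht, hte⟩ := tau_mem d hd q m
    rw [Finset.mem_image]
    refine ⟨(j, t), Finset.mem_product.mpr ⟨Finset.mem_range.mpr hj, ht⟩, ?_⟩
    have hpq : (0 : ℝ) < (d : ℝ) ^ q := by positivity
    have h5 : ((j * d ^ q + t : ℕ) : ℝ) = a := by
      push_cast
      rw [← hte]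
      rw [div_eq_div_iff (by positivity) (by positivity)] at hval
      have hd0 : (d : ℝ) ≠ 0 := by linarith
      have h6 : (a : ℝ) * d = (j * (d : ℝ) ^ q + (d : ℝ) ^ q * tau d m q) * d := by
        rw [hval, pow_succ]
        ring
      exact (mul_right_cancel₀ hd0 h6).symm
    exact_mod_cast h5
  refine (Finset.card_le_card hsub).trans (Finset.card_image_le.trans ?_)
  rw [Finset.card_product, Finset.card_range]
  exact Nat.mul_le_mul_left _ (tset_card d q)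

/-- The basic kernel. -/
noncomputable def pk (η : ℝ) (ζ z : ℂ) : ℂ := η / (η + (1 - (starRingEnd ℂ) ζ * z))

theorem conj_mul_self_one {ζ : ℂ} (hζ : ‖ζ‖ = 1) : (starRingEnd ℂ) ζ * ζ = 1 := by
  rw [mul_comm, Complex.mul_conj, Complex.normSq_eq_norm_sq, hζ]
  norm_num

theorem sub_norm_eq {ζ z : ℂ} (hζ : ‖ζ‖ = 1) : ‖1 - (starRingEnd ℂ) ζ * z‖ = ‖z - ζ‖ := by
  have h1 : 1 - (starRingEnd ℂ) ζ * z = (starRingEnd ℂ) ζ * (ζ - z) := by
    rw [mul_sub, conj_mul_self_one hζ]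
  rw [h1, norm_mul, RCLike.norm_conj, hζ, one_mul, norm_sub_rev]

theorem sub_re_nonneg {ζ z : ℂ} (hζ : ‖ζ‖ = 1) (hz : ‖z‖ ≤ 1) :
    0 ≤ (1 - (starRingEnd ℂ) ζ * z).re := by
  rw [Complex.sub_re, Complex.one_re]
  have h1 : ((starRingEnd ℂ) ζ * z).re ≤ ‖(starRingEnd ℂ) ζ * z‖ := Complex.re_le_norm _
  rw [norm_mul, RCLike.norm_conj, hζ, one_mul] at h1
  linarith

theorem pk_den_normSq (η : ℝ) (hη : 0 < η) (s : ℂ) (hs : 0 ≤ s.re) :
    η ^ 2 + ‖s‖ ^ 2 ≤ ‖(η : ℂ) + s‖ ^ 2 := by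
  rw [Complex.sq_norm, Complex.sq_norm, Complex.normSq_apply, Complex.normSq_apply]
  simp only [Complex.add_re, Complex.ofReal_re, Complex.add_im, Complex.ofReal_im]
  nlinarith

theorem pk_den_ne (η : ℝ) (hη : 0 < η) {ζ z : ℂ} (hζ : ‖ζ‖ = 1) (hz : ‖z‖ ≤ 1) :
    (η : ℂ) + (1 - (starRingEnd ℂ) ζ * z) ≠ 0 := by
  intro h
  have h1 := pk_den_normSq η hη _ (sub_re_nonneg hζ hz)
  rw [h, norm_zero] at h1
  have := sq_nonneg ‖1 - (starRingEnd ℂ) ζ * z‖
  nlinarith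

theorem pk_re (η : ℝ) (s : ℂ) :
    ((η : ℂ) / (η + s)).re = η * (η + s.re) / ‖(η : ℂ) + s‖ ^ 2 := by
  rw [Complex.div_re, Complex.sq_norm]
  simp

theorem pk_re_nonneg (η : ℝ) (hη : 0 < η) {ζ z : ℂ} (hζ : ‖ζ‖ = 1) (hz : ‖z‖ ≤ 1) :
    0 ≤ (pk η ζ z).re := by
  unfold pk
  rw [pk_re]
  have := sub_re_nonneg hζ hz
  positivity

theorem pk_re_ge (η : ℝ) (hη : 0 < η) {ζ z : ℂ} (hζ : ‖ζ‖ = 1) (hz : ‖z‖ ≤ 1)
    (hclose : ‖z - ζ‖ ≤ 5 * η) : 1 / 36 ≤ (pk η ζ z).re := by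
  unfold pk
  rw [pk_re]
  have h1 := sub_re_nonneg hζ hz
  have h2 : ‖(η : ℂ) + (1 - (starRingEnd ℂ) ζ * z)‖ ≤ 6 * η := by
    refine (norm_add_le _ _).trans ?_
    rw [sub_norm_eq hζ, Complex.norm_real, Real.norm_eq_abs, abs_of_pos hη]
    linarith
  have h3 : 0 < ‖(η : ℂ) + (1 - (starRingEnd ℂ) ζ * z)‖ := norm_pos_iff.mpr (pk_den_ne η hη hζ hz)
  rw [div_le_div_iff₀ (by norm_num) (by positivity)]
  nlinarith [mul_nonneg hη.le h1]

theorem pk_norm_le (η : ℝ) (hη : 0 < η) {ζ z : ℂ} (hζ : ‖ζ‖ = 1) (hz : ‖z‖ ≤ 1) (ρ : ℝ)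
    (hρ : 0 < ρ) (hfar : ρ ≤ ‖z - ζ‖) : ‖pk η ζ z‖ ≤ η / ρ := by
  unfold pk
  rw [norm_div, Complex.norm_real, Real.norm_eq_abs, abs_of_pos hη]
  refine div_le_div_of_nonneg_left hη.le hρ ?_
  have h1 := pk_den_normSq η hη _ (sub_re_nonneg hζ hz)
  rw [sub_norm_eq hζ] at h1
  refine hfar.trans ?_
  exact le_of_sq_le_sq (by nlinarith) (norm_nonneg _)

theorem ee_conj (t : ℝ) : (starRingEnd ℂ) (ee t) = ee (-t) := by
  have h1 := conj_mul_self_one (ee_norm t)
  have h2 : ee (-t) * ee t = 1 := by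
    rw [← ee_add, neg_add_cancel]
    have := ee_int 0
    simpa using this
  have h3 : ee t ≠ 0 := by
    intro h
    have := ee_norm t
    rw [h, norm_zero] at this
    exact zero_ne_one this
  exact mul_right_cancel₀ h3 (h1.trans h2.symm)

theorem ee_root_sum (N n : ℕ) (hn0 : 0 < n) (hn : n < N) :
    ∑ a ∈ Finset.range N, ee (-((a : ℝ) / N)) ^ n = 0 := by
  have hN : (N : ℝ) ≠ 0 := by
    have : 0 < N := by omega
    positivity
  have h1 : ∀ a ∈ Finset.range N, ee (-((a : ℝ) / N)) ^ n = ee (-((n : ℝ) / N)) ^ a := by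
    intro a _
    rw [← ee_nat_mul, ← ee_nat_mul]
    congr 1
    ring
  rw [Finset.sum_congr rfl h1]
  have h2 : ee (-((n : ℝ) / N)) ^ N = 1 := by
    rw [← ee_nat_mul]
    have : (N : ℝ) * -((n : ℝ) / N) = ((-(n : ℤ) : ℤ) : ℝ) := by
      push_cast
      field_simp
    rw [this, ee_int]
  have h3 : ee (-((n : ℝ) / N)) ≠ 1 := by
    intro h
    unfold ee at h
    rw [Complex.exp_eq_one_iff] at h
    obtain ⟨p, hp⟩ := h
    have h4 : (((-((n : ℝ) / N) : ℝ)) : ℂ) = (p : ℂ) := by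
      have h5 : (2 * Real.pi * Complex.I : ℂ) ≠ 0 := Complex.two_pi_I_ne_zero
      apply mul_right_cancel₀ h5
      rw [← hp]
      ring
    have h6 : -((n : ℝ) / N) = (p : ℝ) := by exact_mod_cast h4
    have h7 : (n : ℝ) / N < 1 := by
      rw [div_lt_one (by positivity)]
      exact_mod_cast hn
    have h8 : (0 : ℝ) < (n : ℝ) / N := by positivity
    have h9 : (p : ℝ) < 0 := by linarith
    have h10 : (-1 : ℝ) < p := by linarith
    have h11 : p < 0 := by exact_mod_cast h9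
    have h12 : -1 < p := by exact_mod_cast h10
    omega
  have h4 := geom_sum_mul (ee (-((n : ℝ) / N))) N
  rw [h2, sub_self] at h4
  rcases mul_eq_zero.mp h4 with h5 | h5
  · exact h5
  · exact absurd (sub_eq_zero.mp h5) h3

/-- The sum of the kernels over all roots of unity of order `N` is bounded by two. -/
theorem pk_total (N : ℕ) (hN : 0 < N) (z : ℂ) (hz : ‖z‖ ≤ 1) :
    ‖∑ a ∈ Finset.range N, pk (1 / (N : ℝ)) (ee ((a : ℝ) / N)) z‖ ≤ 2 := by
  have hNr : (0 : ℝ) < N := by exact_mod_cast hN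
  have hNc : (N : ℂ) ≠ 0 := by exact_mod_cast hN.ne'
  set η : ℝ := 1 / (N : ℝ) with hη
  have hηpos : 0 < η := by positivity
  set A : ℂ := 1 + η with hA
  have hAn : ‖A‖ = 1 + η := by
    rw [hA]
    have : (1 : ℂ) + (η : ℂ) = ((1 + η : ℝ) : ℂ) := by push_cast; ring
    rw [this, Complex.norm_real, Real.norm_eq_abs, abs_of_pos (by positivity)]
  have hA0 : A ≠ 0 := by
    rw [← norm_pos_iff, hAn]
    positivity
  set v : ℂ := z / A with hv
  have hvn : ‖v‖ ≤ (1 + η)⁻¹ := by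
    rw [hv, norm_div, hAn, ← one_div]
    exact div_le_div_of_nonneg_right hz (by positivity)
  have hpow : ‖v ^ N‖ ≤ 1 / 2 := by
    rw [norm_pow]
    calc ‖v‖ ^ N ≤ ((1 + η)⁻¹) ^ N := pow_le_pow_left₀ (norm_nonneg _) hvn N
      _ = ((1 + η) ^ N)⁻¹ := inv_pow _ _
      _ ≤ (2 : ℝ)⁻¹ := by
          apply inv_anti₀ (by norm_num)
          have h1 := one_add_mul_le_pow (a := η) (by linarith) N
          have h2 : (N : ℝ) * η = 1 := by
            rw [hη]
            field_simp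
          linarith
      _ = 1 / 2 := by norm_num
  have h1v : 1 / 2 ≤ ‖1 - v ^ N‖ := by
    have := norm_sub_norm_le (1 : ℂ) (v ^ N)
    rw [norm_one] at this
    linarith
  have h1v0 : 1 - v ^ N ≠ 0 := by
    rw [← norm_pos_iff]
    linarith
  have hterm : ∀ a ∈ Finset.range N, pk η (ee ((a : ℝ) / N)) z
      = ∑ n ∈ Finset.range N, (η / (A * (1 - v ^ N))) * (ee (-((a : ℝ) / N)) ^ n * v ^ n) := by
    intro a _
    set ω := ee (-((a : ℝ) / N)) with hω
    have hωN : ω ^ N = 1 := by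
      rw [hω, ← ee_nat_mul]
      have : (N : ℝ) * -((a : ℝ) / N) = ((-(a : ℤ) : ℤ) : ℝ) := by
        push_cast
        field_simp
      rw [this, ee_int]
    have hgeo := geom_sum_mul (ω * v) N
    rw [mul_pow, hωN, one_mul] at hgeo
    have hden := pk_den_ne η hηpos (ee_norm ((a : ℝ) / N)) hz
    unfold pk
    rw [ee_conj] at hden ⊢
    rw [← hω] at hden ⊢
    rw [← Finset.mul_sum]
    have hs : ∑ n ∈ Finset.range N, ω ^ n * v ^ n = ∑ n ∈ Finset.range N, (ω * v) ^ n :=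
      Finset.sum_congr rfl fun n _ => (mul_pow _ _ _).symm
    rw [hs]
    have hz' : z = A * v := by
      rw [hv]
      field_simp
    have hden2 : (η : ℂ) + (1 - ω * z) = A * (1 - ω * v) := by
      rw [hz', hA]
      ring
    rw [hden2] at hden ⊢
    have h5 : 1 - ω * v ≠ 0 := by
      intro h
      rw [h, mul_zero] at hden
      exact hden rfl
    have h6 : (1 - v ^ N) = (1 - ω * v) * ∑ n ∈ Finset.range N, (ω * v) ^ n := by
      have : (1 - ω * v) * ∑ n ∈ Finset.range N, (ω * v) ^ n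
          = -((∑ n ∈ Finset.range N, (ω * v) ^ n) * (ω * v - 1)) := by ring
      rw [this, hgeo]
      ring
    have h7 : ∑ n ∈ Finset.range N, (ω * v) ^ n ≠ 0 := by
      intro h
      rw [h, mul_zero] at h6
      exact h1v0 h6
    rw [h6]
    field_simp
  rw [Finset.sum_congr rfl hterm, Finset.sum_comm]
  have hinner : ∀ n ∈ Finset.range N,
      ∑ a ∈ Finset.range N, (η / (A * (1 - v ^ N))) * (ee (-((a : ℝ) / N)) ^ n * v ^ n)
      = if n = 0 then (η / (A * (1 - v ^ N))) * N else 0 := by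
    intro n hn
    rw [← Finset.mul_sum, ← Finset.sum_mul]
    split_ifs with h
    · subst h
      simp
    · rw [ee_root_sum N n (Nat.pos_of_ne_zero h) (Finset.mem_range.mp hn)]
      simp
  rw [Finset.sum_congr rfl hinner, Finset.sum_ite_eq' (Finset.range N) 0,
    if_pos (Finset.mem_range.mpr hN)]
  have h8 : (η : ℂ) / (A * (1 - v ^ N)) * N = 1 / (A * (1 - v ^ N)) := by
    rw [hη]
    push_cast
    field_simp
  rw [h8, norm_div, norm_one, norm_mul, hAn]
  rw [div_le_iff₀ (by positivity)]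
  nlinarith

/-- The functions `H`. -/
noncomputable def HH (d q : ℕ) (z : ℂ) : ℂ :=
  ∑ a ∈ netSet d q, pk (1 / ((d ^ (q + 1) : ℕ) : ℝ)) (ee ((a : ℝ) / ((d ^ (q + 1) : ℕ) : ℝ))) z

section

variable (d : ℕ) (hd : 3 ≤ d)

include hd

theorem Npos (q : ℕ) : 0 < d ^ (q + 1) := by positivity

theorem HH_re_nonneg (q : ℕ) (z : ℂ) (hz : ‖z‖ ≤ 1) : 0 ≤ (HH d q z).re := by
  unfold HH
  rw [Complex.re_sum]
  have hN := Npos d hd q
  refine Finset.sum_nonneg fun a _ => pk_re_nonneg _ (by positivity) (ee_norm _) hz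

theorem HH_re_le (q : ℕ) (z : ℂ) (hz : ‖z‖ ≤ 1) : (HH d q z).re ≤ 2 := by
  unfold HH
  have hN := Npos d hd q
  refine le_trans ?_ ((Complex.re_le_norm _).trans (pk_total (d ^ (q + 1)) hN z hz))
  rw [Complex.re_sum, Complex.re_sum]
  refine Finset.sum_le_sum_of_subset_of_nonneg ?_ fun a _ _ =>
    pk_re_nonneg _ (by positivity) (ee_norm _) hz
  intro a ha
  exact Finset.mem_range.mpr ((mem_netSet d q a).mp ha).1

theorem HH_re_ge (q : ℕ) (z : ℂ) (hz : ‖z‖ ≤ 1) (a : ℕ) (ha : a ∈ netSet d q)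
    (hclose : ‖z - ee ((a : ℝ) / ((d ^ (q + 1) : ℕ) : ℝ))‖ ≤ 5 * (1 / ((d ^ (q + 1) : ℕ) : ℝ))) :
    1 / 36 ≤ (HH d q z).re := by
  unfold HH
  have hN := Npos d hd q
  rw [Complex.re_sum]
  refine le_trans (pk_re_ge _ (by positivity) (ee_norm _) hz hclose) ?_
  exact Finset.single_le_sum
    (f := fun a : ℕ => (pk (1 / ((d ^ (q + 1) : ℕ) : ℝ))
      (ee ((a : ℝ) / ((d ^ (q + 1) : ℕ) : ℝ))) z).re)
    (fun a _ => pk_re_nonneg _ (by positivity) (ee_norm _) hz) ha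

theorem HH_norm_le (q : ℕ) (z : ℂ) (hz : ‖z‖ ≤ 1) (ρ : ℝ) (hρ : 0 < ρ)
    (hfar : ∀ a ∈ netSet d q, ρ ≤ ‖z - ee ((a : ℝ) / ((d ^ (q + 1) : ℕ) : ℝ))‖) :
    ‖HH d q z‖ ≤ (2 / (d : ℝ)) ^ q / ρ := by
  unfold HH
  have hN := Npos d hd q
  have h3 := dpos d hd
  refine (norm_sum_le _ _).trans ?_
  refine (Finset.sum_le_card_nsmul _ _ _ fun a ha =>
    pk_norm_le _ (by positivity) (ee_norm _) hz ρ hρ (hfar a ha)).trans ?_
  rw [nsmul_eq_mul]
  have hc : ((netSet d q).card : ℝ) ≤ d * 2 ^ q := by exact_mod_cast netSet_card d hd q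
  calc ((netSet d q).card : ℝ) * (1 / ((d ^ (q + 1) : ℕ) : ℝ) / ρ)
      ≤ (d * 2 ^ q) * (1 / ((d ^ (q + 1) : ℕ) : ℝ) / ρ) :=
        mul_le_mul_of_nonneg_right hc (by positivity)
    _ = (2 / (d : ℝ)) ^ q / ρ := by
        push_cast
        rw [div_pow, pow_succ]
        field_simp

theorem HH_diff (q : ℕ) : DifferentiableOn ℂ (HH d q) (Metric.closedBall 0 1) := by
  have hN := Npos d hd q
  unfold HH
  refine DifferentiableOn.fun_sum fun a _ => ?_
  unfold pk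
  refine DifferentiableOn.div (differentiableOn_const _) (by fun_prop) ?_
  intro z hz
  rw [mem_closedBall_zero_iff] at hz
  exact pk_den_ne _ (by positivity) (ee_norm _) hz

end

end Pool.Agent.Helper52.Wco
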