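import Mathlib
import Pool.Agent.Helper52.WcoDefs
import Pool.Agent.Helper52.WcoKey
import Pool.Agent.Helper52.WcoSeq
import Pool.Agent.Helper52.WcoWeight

set_option autoImplicit false

open Filter Topology

namespace Pool.Agent.Helper52.Wco

/-- Inner scales. -/
def ell (k : ℕ) : ℕ := 4 * 8 ^ k

/-- Outer scales. -/
def qq (k : ℕ) : ℕ := 3 * (ell k + k + 5)

theorem ell_ge (k : ℕ) : 4 * 2 ^ k ≤ ell k := by
  unfold ell
  exact Nat.mul_le_mul_left 4 (Nat.pow_le_pow_left (by norm_num) k)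

theorem ell_le_qq (k : ℕ) : ell k ≤ qq k := by
  unfold qq
  omega

theorem qq_le_ell_succ (k : ℕ) : qq k ≤ ell (k + 1) := by
  unfold qq ell
  have h1 : k + 1 ≤ 8 ^ k := by
    induction k with
    | zero => norm_num
    | succ k ih =>
      rw [pow_succ]
      omega
  rw [pow_succ]
  omega

theorem qq_mono : Monotone qq :=
  monotone_nat_of_le_succ fun k => (qq_le_ell_succ k).trans (ell_le_qq (k + 1))

theorem qq_le_ell {k K : ℕ} (h : k < K) : qq k ≤ ell K := by
  obtain ⟨K, rfl⟩ : ∃ K', K = K' + 1 := ⟨K - 1, by omega⟩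
  exact (qq_mono (by omega : k ≤ K)).trans (qq_le_ell_succ K)

section

variable (d : ℕ) (hd : 3 ≤ d)

/-- The partial products. -/
noncomputable def PP (K : ℕ) (z : ℂ) : ℂ := Complex.exp (-∑ k ∈ Finset.range K, HH d (qq k) z)

theorem PP_norm (K : ℕ) (z : ℂ) :
    ‖PP d K z‖ = Real.exp (-∑ k ∈ Finset.range K, (HH d (qq k) z).re) := by
  unfold PP
  rw [Complex.norm_exp, Complex.neg_re, Complex.re_sum]

include hd

theorem PP_norm_le_one (K : ℕ) (z : ℂ) (hz : ‖z‖ ≤ 1) : ‖PP d K z‖ ≤ 1 := by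
  rw [PP_norm, Real.exp_le_one_iff, neg_nonpos]
  exact Finset.sum_nonneg fun k _ => HH_re_nonneg d hd _ z hz

/-- Points near level `K` truncations of kill points are near all lower truncations. -/
theorem near_lower (z : ℂ) (hz : ‖z‖ ≤ 1) (K k m j q' : ℕ) (hk : k < K) (hj : j < d)
    (hm : m = 0 ∨ j ≠ xs m) (hq' : qq k ≤ q')
    (hclose : ‖z - ee ((j + tau d m q') / d)‖ < 1 / (d : ℝ) ^ (ell K + 1)) :
    1 / 36 ≤ (HH d (qq k) z).re := by
  have h3 := dpos d hd
  obtain ⟨a, ha, hval⟩ := exists_net d hd (qq k) m j hj hm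
  refine HH_re_ge d hd (qq k) z hz a ha ?_
  have hcast : ((d ^ (qq k + 1) : ℕ) : ℝ) = (d : ℝ) ^ (qq k + 1) := by push_cast; ring
  rw [hcast, hval]
  have h1 : ‖ee ((j + tau d m q') / d) - ee ((j + tau d m (qq k)) / d)‖
      ≤ Real.pi / (d : ℝ) ^ (qq k + 1) := by
    refine (ee_sub_norm_le _ _).trans ?_
    have h4 : ((j : ℝ) + tau d m q') / d - (j + tau d m (qq k)) / d
        = (tau d m q' - tau d m (qq k)) / d := by ring
    have h5 : 0 ≤ tau d m q' - tau d m (qq k) := by
      have : tau d m (qq k) ≤ tau d m q' := by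
        unfold tau
        refine Finset.sum_le_sum_of_subset_of_nonneg
          (Finset.range_subset_range.mpr hq') fun i _ _ => by positivity
      linarith
    have h6 : tau d m q' - tau d m (qq k) ≤ 1 / 2 / (d : ℝ) ^ (qq k) := by
      have h7 := theta_sub_tau_le d hd m (qq k)
      have h8 := theta_sub_tau_nonneg d hd m q'
      linarith
    rw [h4, abs_of_nonneg (by positivity)]
    calc 2 * Real.pi * ((tau d m q' - tau d m (qq k)) / d)
        ≤ 2 * Real.pi * ((1 / 2 / (d : ℝ) ^ (qq k)) / d) := by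
          have := Real.pi_pos
          gcongr
      _ = Real.pi / (d : ℝ) ^ (qq k + 1) := by
          rw [pow_succ]
          field_simp
  have h2 : 1 / (d : ℝ) ^ (ell K + 1) ≤ 1 / (d : ℝ) ^ (qq k + 1) := by
    refine one_div_le_one_div_of_le (by positivity) ?_
    exact pow_le_pow_right₀ (by linarith) (by have := qq_le_ell hk; omega)
  have h4 : ‖z - ee ((j + tau d m (qq k)) / d)‖
      ≤ ‖z - ee ((j + tau d m q') / d)‖
        + ‖ee ((j + tau d m q') / d) - ee ((j + tau d m (qq k)) / d)‖ :=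
    norm_sub_le_norm_sub_add_norm_sub _ _ _
  have h5 : (0 : ℝ) < 1 / (d : ℝ) ^ (qq k + 1) := by positivity
  have h6 : Real.pi / (d : ℝ) ^ (qq k + 1) = Real.pi * (1 / (d : ℝ) ^ (qq k + 1)) := by ring
  have hpi := Real.pi_lt_four
  rw [h6] at h1
  nlinarith

/-- Exact kill points are near all truncations. -/
theorem kill_lower (k m j : ℕ) (hj : j < d) (hm : m = 0 ∨ j ≠ xs m) :
    1 / 36 ≤ (HH d (qq k) (ee ((j + theta d m) / d))).re := by
  have h3 := dpos d hd
  obtain ⟨a, ha, hval⟩ := exists_net d hd (qq k) m j hj hm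
  refine HH_re_ge d hd (qq k) _ (ee_norm _).le a ha ?_
  have hcast : ((d ^ (qq k + 1) : ℕ) : ℝ) = (d : ℝ) ^ (qq k + 1) := by push_cast; ring
  rw [hcast, hval]
  refine (ee_sub_norm_le _ _).trans ?_
  have h4 : ((j : ℝ) + theta d m) / d - (j + tau d m (qq k)) / d
      = (theta d m - tau d m (qq k)) / d := by ring
  have h5 := theta_sub_tau_nonneg d hd m (qq k)
  have h6 := theta_sub_tau_le d hd m (qq k)
  rw [h4, abs_of_nonneg (by positivity)]
  have hpi := Real.pi_lt_four
  have hpi2 := Real.pi_pos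
  calc 2 * Real.pi * ((theta d m - tau d m (qq k)) / d)
      ≤ 2 * Real.pi * ((1 / 2 / (d : ℝ) ^ (qq k)) / d) := by gcongr
    _ = Real.pi * (1 / (d : ℝ) ^ (qq k + 1)) := by
        rw [pow_succ]
        field_simp
    _ ≤ 5 * (1 / (d : ℝ) ^ (qq k + 1)) := by
        have h5 : (0 : ℝ) < 1 / (d : ℝ) ^ (qq k + 1) := by positivity
        nlinarith

/-- Far from the net the function is small. -/
theorem HH_far (k : ℕ) (z : ℂ) (hz : ‖z‖ ≤ 1)
    (hfar : ∀ a ∈ netSet d (qq k),
      1 / (d : ℝ) ^ (ell k + 1) ≤ ‖z - ee ((a : ℝ) / ((d ^ (qq k + 1) : ℕ) : ℝ))‖) :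
    ‖HH d (qq k) z‖ ≤ (1 / 2) ^ (k + 1) := by
  have h3 := dpos d hd
  refine (HH_norm_le d hd (qq k) z hz _ (by positivity) hfar).trans ?_
  have h1 : (2 / (d : ℝ)) ^ (qq k) ≤ (1 / (d : ℝ)) ^ (ell k + k + 5) := by
    unfold qq
    rw [pow_mul]
    refine pow_le_pow_left₀ (by positivity) ?_ _
    rw [div_pow, div_le_div_iff₀ (by positivity) (by positivity)]
    nlinarith [mul_nonneg (by linarith : (0 : ℝ) ≤ d) (by nlinarith : (0 : ℝ) ≤ (d : ℝ) ^ 2 - 9)]
  have h2 : (2 / (d : ℝ)) ^ (qq k) / (1 / (d : ℝ) ^ (ell k + 1))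
      ≤ (1 / (d : ℝ)) ^ (ell k + k + 5) / (1 / (d : ℝ) ^ (ell k + 1)) :=
    div_le_div_of_nonneg_right h1 (by positivity)
  refine h2.trans ?_
  have h4 : (1 / (d : ℝ)) ^ (ell k + k + 5) / (1 / (d : ℝ) ^ (ell k + 1))
      = (1 / (d : ℝ)) ^ (k + 4) := by
    have e : ell k + k + 5 = (ell k + 1) + (k + 4) := by ring
    rw [e, pow_add (1 / (d : ℝ)) (ell k + 1) (k + 4), one_div_pow (d : ℝ) (ell k + 1)]
    field_simp
  rw [h4]
  calc (1 / (d : ℝ)) ^ (k + 4) ≤ (1 / 2) ^ (k + 4) := by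
        refine pow_le_pow_left₀ (by positivity) ?_ _
        exact one_div_le_one_div_of_le (by norm_num) (by linarith)
    _ ≤ (1 / 2) ^ (k + 1) := pow_le_pow_of_le_one (by norm_num) (by norm_num) (by omega)

/-- Increments. -/
theorem PP_step (K : ℕ) (z : ℂ) (hz : ‖z‖ ≤ 1) :
    ‖PP d (K + 1) z - PP d K z‖ ≤ 2 * Real.exp (-(1 / 36) * K) + 2 * (1 / 2) ^ (K + 1) := by
  have h3 := dpos d hd
  have hfac : PP d (K + 1) z - PP d K z = PP d K z * (Complex.exp (-HH d (qq K) z) - 1) := by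
    unfold PP
    rw [Finset.sum_range_succ, neg_add, Complex.exp_add]
    ring
  rw [hfac, norm_mul]
  by_cases hfar : ∀ a ∈ netSet d (qq K),
      1 / (d : ℝ) ^ (ell K + 1) ≤ ‖z - ee ((a : ℝ) / ((d ^ (qq K + 1) : ℕ) : ℝ))‖
  · have h1 := HH_far d hd K z hz hfar
    have hle1 : ‖-HH d (qq K) z‖ ≤ 1 := by
      rw [norm_neg]
      refine h1.trans (pow_le_one₀ (by norm_num) (by norm_num))
    have h2 := Complex.norm_exp_sub_one_le hle1
    rw [norm_neg] at h2
    have h4 := PP_norm_le_one d hd K z hz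
    have h5 : 0 ≤ Real.exp (-(1 / 36) * K) := (Real.exp_pos _).le
    calc ‖PP d K z‖ * ‖Complex.exp (-HH d (qq K) z) - 1‖
        ≤ 1 * (2 * (1 / 2) ^ (K + 1)) := by
          refine mul_le_mul h4 (h2.trans ?_) (norm_nonneg _) zero_le_one
          exact mul_le_mul_of_nonneg_left h1 (by norm_num)
      _ ≤ 2 * Real.exp (-(1 / 36) * K) + 2 * (1 / 2) ^ (K + 1) := by linarith
  · push Not at hfar
    obtain ⟨a, ha, hclose⟩ := hfar
    rw [mem_netSet] at ha
    obtain ⟨-, m, j, hj, hm, hval⟩ := ha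
    have hcast : ((d ^ (qq K + 1) : ℕ) : ℝ) = (d : ℝ) ^ (qq K + 1) := by push_cast; ring
    rw [hcast, hval] at hclose
    have h1 : ∀ k ∈ Finset.range K, 1 / 36 ≤ (HH d (qq k) z).re := by
      intro k hk
      have hk' := Finset.mem_range.mp hk
      exact near_lower d hd z hz K k m j (qq K) hk' hj hm (qq_mono hk'.le) hclose
    have h2 : ‖PP d K z‖ ≤ Real.exp (-(1 / 36) * K) := by
      rw [PP_norm]
      refine Real.exp_le_exp.mpr ?_
      have h4 := Finset.card_nsmul_le_sum _ _ _ h1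
      rw [Finset.card_range, nsmul_eq_mul] at h4
      linarith
    have h5 : ‖Complex.exp (-HH d (qq K) z) - 1‖ ≤ 2 := by
      refine (norm_sub_le _ _).trans ?_
      rw [norm_one, Complex.norm_exp, Complex.neg_re]
      have h6 : Real.exp (-(HH d (qq K) z).re) ≤ 1 := by
        rw [Real.exp_le_one_iff, neg_nonpos]
        exact HH_re_nonneg d hd _ z hz
      linarith
    have h7 : (0 : ℝ) ≤ (1 / 2) ^ (K + 1) := by positivity
    calc ‖PP d K z‖ * ‖Complex.exp (-HH d (qq K) z) - 1‖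
        ≤ Real.exp (-(1 / 36) * K) * 2 :=
          mul_le_mul h2 h5 (norm_nonneg _) (Real.exp_pos _).le
      _ ≤ 2 * Real.exp (-(1 / 36) * K) + 2 * (1 / 2) ^ (K + 1) := by linarith

omit hd in
theorem summable_bound :
    Summable fun K : ℕ => 2 * Real.exp (-(1 / 36) * K) + 2 * (1 / 2 : ℝ) ^ (K + 1) := by
  refine Summable.add (Summable.mul_left 2 ?_) (Summable.mul_left 2 ?_)
  · have h1 : ∀ K : ℕ, Real.exp (-(1 / 36) * K) = (Real.exp (-(1 / 36))) ^ K := by
      intro K
      rw [← Real.exp_nat_mul]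
      congr 1
      ring
    simp only [h1]
    refine summable_geometric_of_lt_one (Real.exp_pos _).le ?_
    rw [Real.exp_lt_one_iff] 
    norm_num
  · have h2 : Summable fun K : ℕ => (1 / 2 : ℝ) ^ K :=
      summable_geometric_of_lt_one (by norm_num) (by norm_num)
    exact (summable_nat_add_iff 1).mpr h2

omit hd in
/-- The weight, as a function on the plane. -/
noncomputable def WW (z : ℂ) : ℂ := 1 + ∑' K : ℕ, (PP d (K + 1) z - PP d K z)

theorem PP_diff (K : ℕ) : DifferentiableOn ℂ (PP d K) (Metric.closedBall 0 1) := by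
  unfold PP
  refine DifferentiableOn.cexp (DifferentiableOn.fun_neg ?_)
  exact DifferentiableOn.fun_sum fun k _ => HH_diff d hd (qq k)

theorem WW_cont : ContinuousOn (WW d) (Metric.closedBall 0 1) := by
  unfold WW
  refine continuousOn_const.add (continuousOn_tsum
    (fun K => ((PP_diff d hd (K + 1)).continuousOn.sub (PP_diff d hd K).continuousOn))
    summable_bound fun K z hz => ?_)
  rw [mem_closedBall_zero_iff] at hz
  exact PP_step d hd K z hz

theorem WW_diff : DifferentiableOn ℂ (WW d) (Metric.ball 0 1) := by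
  unfold WW
  refine (differentiableOn_const _).add (Complex.differentiableOn_tsum_of_summable_norm
    summable_bound (fun K => ?_) Metric.isOpen_ball fun K z hz => ?_)
  · exact ((PP_diff d hd (K + 1)).sub (PP_diff d hd K)).mono Metric.ball_subset_closedBall
  · rw [mem_ball_zero_iff] at hz
    exact PP_step d hd K z hz.le

theorem WW_lim (z : ℂ) (hz : ‖z‖ ≤ 1) :
    Tendsto (fun K => PP d K z) atTop (𝓝 (WW d z)) := by
  have hs : Summable fun K : ℕ => (PP d (K + 1) z - PP d K z) :=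
    Summable.of_norm_bounded summable_bound fun K => PP_step d hd K z hz
  have h1 := (hs.hasSum.tendsto_sum_nat).const_add 1
  have h2 : ∀ n, 1 + ∑ K ∈ Finset.range n, (PP d (K + 1) z - PP d K z) = PP d n z := by
    intro n
    rw [Finset.sum_range_sub (fun K => PP d K z) n]
    have h0 : PP d 0 z = 1 := by simp [PP]
    rw [h0]
    ring
  simp only [h2] at h1
  exact h1

theorem WW_kill (m j : ℕ) (hj : j < d) (hm : m = 0 ∨ j ≠ xs m) :
    WW d (ee ((j + theta d m) / d)) = 0 := by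
  have h1 := WW_lim d hd (ee ((j + theta d m) / d)) (ee_norm _).le
  refine tendsto_nhds_unique h1 ?_
  rw [tendsto_zero_iff_norm_tendsto_zero]
  have h2 : Tendsto (fun K : ℕ => (Real.exp (-(1 / 36))) ^ K) atTop (𝓝 0) := by
    refine tendsto_pow_atTop_nhds_zero_of_lt_one (Real.exp_pos _).le ?_
    rw [Real.exp_lt_one_iff]
    norm_num
  refine squeeze_zero (fun K => norm_nonneg _) (fun K => ?_) h2
  rw [PP_norm, ← Real.exp_nat_mul]
  refine Real.exp_le_exp.mpr ?_
  have h4 := Finset.card_nsmul_le_sum (Finset.range K)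
    (fun k => (HH d (qq k) (ee ((j + theta d m) / d))).re) (1 / 36)
    (fun k _ => kill_lower d hd k m j hj hm)
  rw [Finset.card_range, nsmul_eq_mul] at h4
  linarith

theorem HH_orbit (n k : ℕ) (h : ¬ 2 ^ (k + 1) ∣ n + 1) :
    (HH d (qq k) (ee (theta d n))).re ≤ (1 / 2) ^ (k + 1) := by
  refine (Complex.re_le_norm _).trans (HH_far d hd k _ (ee_norm _).le ?_)
  intro a ha
  by_contra hcon
  push Not at hcon
  apply h
  rw [mem_netSet] at ha
  obtain ⟨-, m, j, hj, hm, hval⟩ := ha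
  have hcast : ((d ^ (qq k + 1) : ℕ) : ℝ) = (d : ℝ) ^ (qq k + 1) := by push_cast; ring
  rw [hcast, hval] at hcon
  exact near_net d hd k n m j (qq k) (ell k) hj (ell_ge k) (ell_le_qq k) hm hcon

theorem WW_orbit (n : ℕ) :
    Real.exp (-(2 * padicValNat 2 (n + 1) + 1)) ≤ ‖WW d (ee (theta d n))‖ := by
  have h1 := (WW_lim d hd (ee (theta d n)) (ee_norm _).le).norm
  refine ge_of_tendsto' h1 fun K => ?_
  rw [PP_norm]
  refine Real.exp_le_exp.mpr (neg_le_neg ?_)
  set v := padicValNat 2 (n + 1) with hv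
  have hb : ∀ k ∈ Finset.range K, (HH d (qq k) (ee (theta d n))).re
      ≤ (if k < v then 2 else 0) + (1 / 2) ^ (k + 1) := by
    intro k _
    by_cases hdvd : 2 ^ (k + 1) ∣ n + 1
    · have hk : k + 1 ≤ v := (padicValNat_dvd_iff_le (p := 2) (by omega)).mp hdvd
      rw [if_pos (by omega)]
      have := HH_re_le d hd (qq k) (ee (theta d n)) (ee_norm _).le
      have h5 : (0 : ℝ) ≤ (1 / 2) ^ (k + 1) := by positivity
      linarith
    · have h5 := HH_orbit d hd n k hdvd
      split_ifs <;> linarith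
  refine (Finset.sum_le_sum hb).trans ?_
  rw [Finset.sum_add_distrib]
  have h2 : ∑ k ∈ Finset.range K, (if k < v then (2 : ℝ) else 0) ≤ 2 * v := by
    rw [← Finset.sum_filter, Finset.sum_const, nsmul_eq_mul, mul_comm]
    refine mul_le_mul_of_nonneg_left ?_ (by norm_num)
    have : ((Finset.range K).filter (fun k => k < v)).card ≤ v := by
      have hsub : (Finset.range K).filter (fun k => k < v) ⊆ Finset.range v := by
        intro k hk
        rw [Finset.mem_filter] at hk
        exact Finset.mem_range.mpr hk.2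
      have := Finset.card_le_card hsub
      rwa [Finset.card_range] at this
    exact_mod_cast this
  have h3 : ∑ k ∈ Finset.range K, (1 / 2 : ℝ) ^ (k + 1) ≤ 1 := by
    have h4 : ∀ K : ℕ, ∑ k ∈ Finset.range K, (1 / 2 : ℝ) ^ (k + 1) = 1 - (1 / 2) ^ K := by
      intro K
      induction K with
      | zero => simp
      | succ K ih => rw [Finset.sum_range_succ, ih, pow_succ]; ring
    rw [h4]
    have : (0 : ℝ) ≤ (1 / 2) ^ K := by positivity
    linarith
  linarith

theorem prod_orbit (M : ℕ) :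
    Real.exp (-3) ^ M ≤ ∏ n ∈ Finset.range M, ‖WW d (ee (theta d n))‖ := by
  have h1 : ∏ n ∈ Finset.range M, Real.exp (-(2 * padicValNat 2 (n + 1) + 1))
      ≤ ∏ n ∈ Finset.range M, ‖WW d (ee (theta d n))‖ :=
    Finset.prod_le_prod (fun n _ => (Real.exp_pos _).le) fun n _ => WW_orbit d hd n
  refine le_trans ?_ h1
  rw [← Real.exp_sum, ← Real.exp_nat_mul]
  refine Real.exp_le_exp.mpr ?_
  rw [Finset.sum_neg_distrib, Finset.sum_add_distrib, ← Finset.mul_sum]
  have h2 : ∀ M : ℕ, ∑ n ∈ Finset.range M, padicValNat 2 (n + 1) = padicValNat 2 M.factorial := by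
    intro M
    induction M with
    | zero => simp
    | succ M ih =>
      rw [Finset.sum_range_succ, ih, Nat.factorial_succ,
        padicValNat.mul (by omega) (Nat.factorial_ne_zero M), add_comm]
  have h3 : padicValNat 2 M.factorial ≤ M := by
    have h4 := sub_one_mul_padicValNat_factorial (p := 2) M
    omega
  have h5 : ∑ n ∈ Finset.range M, (padicValNat 2 (n + 1) : ℝ) ≤ M := by
    have h6 := h2 M
    have h7 : ∑ n ∈ Finset.range M, padicValNat 2 (n + 1) ≤ M := by omega
    exact_mod_cast h7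
  rw [Finset.sum_const, Finset.card_range, nsmul_eq_mul]
  linarith

end

end Pool.Agent.Helper52.Wco
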