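import Mathlib
import Pool.Agent.Helper52.WcoDefs
import Pool.Agent.Helper52.WcoKey
import Pool.Agent.Helper52.WcoSeq
import Pool.Agent.Helper52.WcoWeight
import Pool.Agent.Helper52.WcoMain

set_option autoImplicit false

open Filter Topology

namespace Pool.Agent.Helper52.Wco

/-- The orbit points. -/
noncomputable def orb (d n : ℕ) : Disc :=
  ⟨ee (theta d n), by rw [mem_closedBall_zero_iff, ee_norm]⟩

theorem orb_coe (d n : ℕ) : ((orb d n : Disc) : ℂ) = ee (theta d n) := rfl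

theorem orb_step (d : ℕ) (hd : 3 ≤ d) (n : ℕ) : powMap d (orb d n) = orb d (n + 1) := by
  apply Subtype.ext
  change ee (theta d n) ^ d = ee (theta d (n + 1))
  rw [← ee_nat_mul, theta_succ d hd, ee_add, ee_nat, one_mul]

theorem root_form (d : ℕ) (hd : 3 ≤ d) (u : ℂ) (t : ℝ) (hu : u ^ d = ee t) :
    ∃ j, j < d ∧ u = ee ((j + t) / d) := by
  have h3 := dpos d hd
  have hd0 : (d : ℝ) ≠ 0 := by linarith
  have hv : ee (t / d) ^ d = ee t := by
    rw [← ee_nat_mul]
    congr 1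
    field_simp
  have hv0 : ee (t / d) ≠ 0 := by
    rw [← norm_pos_iff, ee_norm]
    exact zero_lt_one
  have h1 : (u / ee (t / d)) ^ d = 1 := by
    rw [div_pow, hv, hu]
    refine div_self ?_
    rw [← norm_pos_iff, ee_norm]
    exact zero_lt_one
  have hprim := Complex.isPrimitiveRoot_exp d (by omega)
  have : NeZero d := ⟨by omega⟩
  obtain ⟨j, hj, hje⟩ := hprim.eq_pow_of_pow_eq_one h1
  refine ⟨j, hj, ?_⟩
  have h4 : Complex.exp (2 * Real.pi * Complex.I / d) ^ j = ee (j / d) := by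
    unfold ee
    rw [← Complex.exp_nat_mul]
    congr 1
    push_cast
    ring
  rw [h4] at hje
  rw [add_div, ee_add, hje]
  field_simp

/-- The weight as an element of the disc algebra. -/
noncomputable def wgt (d : ℕ) (hd : 3 ≤ d) : discAlgebra :=
  ⟨⟨fun z : Disc => WW d z, by
      have h := (WW_cont d hd)
      rw [continuousOn_iff_continuous_domRestrict] at h
      exact h⟩,
    ⟨WW d, WW_diff d hd, fun z => rfl⟩⟩

theorem wgt_apply (d : ℕ) (hd : 3 ≤ d) (z : Disc) : (wgt d hd).1 z = WW d z := rfl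

theorem killOrbit (d : ℕ) (hd : 3 ≤ d) : KillOrbit d (wgt d hd) (orb d) where
  step := orb_step d hd
  norm n := ee_norm _
  kill0 u hu := by
    have hu' : (u : ℂ) ^ d = ee (theta d 0) := congrArg Subtype.val hu
    obtain ⟨j, hj, hju⟩ := root_form d hd u _ hu'
    rw [wgt_apply, hju]
    exact WW_kill d hd 0 j hj (Or.inl rfl)
  kill n u hu hne := by
    have hu' : (u : ℂ) ^ d = ee (theta d (n + 1)) := congrArg Subtype.val hu
    obtain ⟨j, hj, hju⟩ := root_form d hd u _ hu'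
    rw [wgt_apply, hju]
    refine WW_kill d hd (n + 1) j hj (Or.inr ?_)
    rintro rfl
    apply hne
    apply Subtype.ext
    have h3 := dpos d hd
    rw [hju, orb_coe, ← theta_succ d hd n]
    congr 1
    field_simp
  ne n := by
    rw [wgt_apply, orb_coe, ← norm_pos_iff]
    exact lt_of_lt_of_le (Real.exp_pos _) (WW_orbit d hd n)

theorem mem_usf (d : ℕ) (hd : 3 ≤ d) (hd0 : d ≠ 0) (μ : ℂ) (h0 : μ ≠ 0)
    (hμ : ‖μ‖ < Real.exp (-3)) : μ ∈ usf (wcomp d hd0 (wgt d hd)) := by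
  refine key d hd0 (wgt d hd) (orb d) (killOrbit d hd) (Real.exp (-3)) (Real.exp_pos _) ?_ μ h0 hμ
  intro M
  have h1 := prod_orbit d hd M
  exact h1

theorem powMap_blaschke (d : ℕ) : IsBlaschke d (powMap d) := by
  refine ⟨0, fun _ => 0, fun _ => by simp, fun z => ?_⟩
  simp [powMap]

theorem powMap_iterate_coe (d n : ℕ) (z : Disc) :
    (((powMap d)^[n] z : Disc) : ℂ) = (z : ℂ) ^ (d ^ n) := by
  induction n with
  | zero => simp
  | succ n ih =>
    rw [Function.iterate_succ_apply', pow_succ, pow_mul, ← ih]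
    rfl

theorem powMap_elliptic (d : ℕ) (hd : 2 ≤ d) : IsElliptic (powMap d) := by
  refine ⟨⟨0, by simp⟩, by simp, ?_⟩
  rw [Metric.tendstoLocallyUniformlyOn_iff]
  intro ε hε x hx
  have hx' : ‖(x : ℂ)‖ < 1 := hx
  set ρ : ℝ := (1 + ‖(x : ℂ)‖) / 2 with hρ
  have hρ0 : 0 ≤ ρ := by rw [hρ]; positivity
  have hρ1 : ρ < 1 := by rw [hρ]; linarith
  have hxρ : ‖(x : ℂ)‖ < ρ := by rw [hρ]; linarith
  refine ⟨{y : Disc | ‖(y : ℂ)‖ < ρ}, ?_, ?_⟩
  · refine mem_nhdsWithin_of_mem_nhds ?_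
    exact (isOpen_lt continuous_subtype_val.norm continuous_const).mem_nhds hxρ
  · have ht := tendsto_pow_atTop_nhds_zero_of_lt_one hρ0 hρ1
    filter_upwards [ht.eventually (gt_mem_nhds hε)] with n hn y hy
    rw [Subtype.dist_eq, dist_eq_norm]
    change ‖(0 : ℂ) - (((powMap d)^[n] y : Disc) : ℂ)‖ < ε
    rw [zero_sub, norm_neg, powMap_iterate_coe, norm_pow]
    refine lt_of_le_of_lt ?_ hn
    have hy' : ‖(y : ℂ)‖ < ρ := hy
    calc ‖(y : ℂ)‖ ^ (d ^ n) ≤ ρ ^ (d ^ n) :=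
          pow_le_pow_left₀ (norm_nonneg _) hy'.le _
      _ ≤ ρ ^ n := pow_le_pow_of_le_one hρ0 hρ1.le (Nat.lt_pow_self hd).le

theorem main_theorem (d : ℕ) (hd : 3 ≤ d) :
    ∃ B : Disc → Disc, IsBlaschke d B ∧ IsElliptic B ∧
      ∃ (w : discAlgebra) (T : discAlgebra →L[ℂ] discAlgebra), IsWeightedComp B w T ∧
        (∃ r₀ : ℝ, 0 < r₀ ∧ ∀ μ : ℂ, 0 < ‖μ‖ → ‖μ‖ < r₀ → μ ∈ usf T) ∧
        ¬ (Lam T).Countable ∧
        ∃ r : ℝ, 0 < r ∧ AccPt r (𝓟 (Lam T)) := by
  have hd0 : d ≠ 0 := by omega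
  refine ⟨powMap d, powMap_blaschke d, powMap_elliptic d (by omega), wgt d hd,
    wcomp d hd0 (wgt d hd), fun f z => rfl, ⟨Real.exp (-3), Real.exp_pos _, fun μ h0 hμ =>
      mem_usf d hd hd0 μ (norm_pos_iff.mp h0) hμ⟩, ?_, ?_⟩
  all_goals
    have hsub : Set.Ioo (0 : ℝ) (Real.exp (-3)) ⊆ Lam (wcomp d hd0 (wgt d hd)) := by
      intro r hr
      refine ⟨(r : ℂ), ?_, fun u hu => ?_⟩
      · rw [Complex.norm_real, Real.norm_eq_abs, abs_of_pos hr.1]
      · have hn : ‖(r : ℂ) * u‖ = r := by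
          rw [norm_mul, hu, mul_one, Complex.norm_real, Real.norm_eq_abs, abs_of_pos hr.1]
        refine mem_usf d hd hd0 _ ?_ ?_
        · rw [← norm_pos_iff, hn]
          exact hr.1
        · rw [hn]
          exact hr.2
  · intro hc
    have h1 := hc.mono hsub
    rw [Cardinal.Real.Ioo_countable_iff] at h1
    exact absurd h1 (not_le.mpr (Real.exp_pos _))
  · have hpos := Real.exp_pos (-3)
    refine ⟨Real.exp (-3) / 2, by positivity, ?_⟩
    rw [accPt_iff_nhds]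
    intro U hU
    obtain ⟨ε, hε, hball⟩ := Metric.mem_nhds_iff.mp hU
    set δ := min ε (Real.exp (-3)) / 4 with hδ
    have hδ0 : 0 < δ := by positivity
    have hδ1 : δ < ε := by
      have := min_le_left ε (Real.exp (-3))
      rw [hδ]; linarith
    have hδ2 : δ ≤ Real.exp (-3) / 4 := by
      have := min_le_right ε (Real.exp (-3))
      rw [hδ]; linarith
    refine ⟨Real.exp (-3) / 2 + δ, ⟨hball ?_, hsub ⟨by linarith, by linarith⟩⟩, by linarith⟩
    rw [Metric.mem_ball, Real.dist_eq]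
    have : Real.exp (-3) / 2 + δ - Real.exp (-3) / 2 = δ := by ring
    rw [this, abs_of_pos hδ0]
    exact hδ1

end Pool.Agent.Helper52.Wco
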